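import Pool.Agent.Lib.MP_7f581e_Z.Ort.SpecC

/-!
# Orthogonal groups: the products `e v`, `f v` are even (`CmOStmt`)
-/

set_option autoImplicit false

namespace MP7Z.Ort

open TensorProduct MP7fS MP7fU Matrix MP7Z.Orf

theorem tCmO : CmOStmt := by
  intro p _ F _ _ s D b M hM z hz
  obtain ⟨v, hv, rfl⟩ := hM
  have h1 : D.g (if b then jf (Fin.last s) else ie (Fin.last s)) * gv D.g v ∈ D.C0 p := by
    have h2 := D.gg_mem p (v := bv F (if b then jf (Fin.last s) else ie (Fin.last s))) (w := v)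
      (fun _ => by
        rw [bv_apply, if_neg]
        cases b <;> simp) (fun ho => hv.1 ho)
    rwa [Dat.γ, Dat.γ, gv_bv] at h2
  exact (D.isCen p _).1 h1 z hz

end MP7Z.Ort
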