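import Pool.Agent.Lib.MP_7f581e_Z.Ort.SpecF
import Pool.Agent.Lib.MP_7f581e_Z.Types.THb
import Pool.Agent.Lib.MP_7f581e_Z.Types.Evj

/-! # Orthogonal groups: coordinates of the units of `k ⊗ (ι → B₀)` (`CoBStmt`) -/

set_option autoImplicit false
set_option linter.unusedSectionVars false

namespace MP7Z.Orf

open TensorProduct MP7fS MP7fU Matrix

section

variable {p : ℕ} [Fact p.Prime] {F l : Type} [Field F] [Finite F] [Fintype l] [DecidableEq l]
  [Algebra (ZMod p) F] (B₀ : Subalgebra (ZMod p) (Matrix l l F)) (ι : Type) [Finite ι]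
  {k : Type} [Field k] [Algebra (ZMod p) k] [CharP k p]

theorem CoB_coe (τ : F →+* k) (i : ι) (j : ℕ) (u : (k ⊗[ZMod p] (ι → B₀))ˣ) :
    ((coB B₀ ι τ i j u : GL l k) : Matrix l l k) =
      (TB B₀ ι k (u : k ⊗[ZMod p] (ι → B₀)) i).map (evj (p := p) τ j) := rfl

theorem CoB_evj (τ : F →+* k) (j : ℕ) :
    (evj (p := p) τ j).comp (incF (p := p) k) = twj (p := p) τ j := by
  ext x
  rw [twj_apply]
  exact (tyEvj p F k τ).2.2.1 j x

theorem CoB_evj_map (τ : F →+* k) (j : ℕ) (z : Matrix l l F) :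
    (z.map (incF (p := p) k)).map (evj (p := p) τ j) = z.map (twj (p := p) τ j) := by
  rw [← CoB_evj (p := p) τ j]
  rfl

/-- All coordinates of a family of matrices over `k ⊗ F`. -/
theorem CoB_inj (τ : F →+* k) (X Y : Matrix l l (k ⊗[ZMod p] F))
    (h : ∀ j : Fin (Module.finrank (ZMod p) F),
      X.map (evj (p := p) τ j) = Y.map (evj (p := p) τ j)) : X = Y := by
  ext a b
  apply (tyEvj p F k τ).2.2.2.2.1
  funext j
  exact congrFun (congrFun (h j) a) b

theorem CoB_surj (τ : F →+* k) (w : Fin (Module.finrank (ZMod p) F) → Matrix l l k) :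
    ∃ X : Matrix l l (k ⊗[ZMod p] F), ∀ j : Fin (Module.finrank (ZMod p) F),
      X.map (evj (p := p) τ j) = w j := by
  choose c hc using fun (a b : l) => (tyEvj p F k τ).2.2.2.2.2 (fun j => w j a b)
  refine ⟨Matrix.of fun a b => c a b, fun j => ?_⟩
  ext a b
  exact congrFun (hc a b) j

/-- The components commute with the images of `Zs`. -/
theorem CoB_com {Zs : Set (Matrix l l F)} (hB : IsCen B₀ Zs) (R : Type) [CommRing R]
    [Algebra (ZMod p) R] (x : R ⊗[ZMod p] (ι → B₀)) (i : ι) (z : Matrix l l F) (hz : z ∈ Zs) :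
    TB B₀ ι R x i * z.map (incF (p := p) R) = z.map (incF (p := p) R) * TB B₀ ι R x i := by
  induction x using TensorProduct.induction_on with
  | zero =>
    rw [map_zero]
    change (0 : Matrix l l (R ⊗[ZMod p] F)) * _ = _ * (0 : Matrix l l (R ⊗[ZMod p] F))
    rw [Matrix.zero_mul, Matrix.mul_zero]
  | add x y hx hy =>
    rw [map_add]
    change (TB B₀ ι R x i + TB B₀ ι R y i) * _ = _ * (TB B₀ ι R x i + TB B₀ ι R y i)
    rw [Matrix.add_mul, Matrix.mul_add, hx, hy]
  | tmul r y =>
    have hy : (y i : Matrix l l F) * z = z * (y i : Matrix l l F) :=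
      (hB (y i : Matrix l l F)).1 (y i).2 z hz
    rw [TB_tmul]
    ext a c
    rw [Matrix.mul_apply, Matrix.mul_apply]
    have h1 : ∀ e : l, ((y i : Matrix l l F).map fun c => r ⊗ₜ[ZMod p] c) a e *
        (z.map (incF (p := p) R)) e c = r ⊗ₜ[ZMod p] ((y i : Matrix l l F) a e * z e c) := by
      intro e
      change (r ⊗ₜ[ZMod p] ((y i : Matrix l l F) a e)) * ((1 : R) ⊗ₜ[ZMod p] z e c) = _
      rw [Algebra.TensorProduct.tmul_mul_tmul, mul_one]
    have h2 : ∀ e : l, (z.map (incF (p := p) R)) a e *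
        ((y i : Matrix l l F).map fun c => r ⊗ₜ[ZMod p] c) e c =
          r ⊗ₜ[ZMod p] (z a e * (y i : Matrix l l F) e c) := by
      intro e
      change ((1 : R) ⊗ₜ[ZMod p] z a e) * (r ⊗ₜ[ZMod p] ((y i : Matrix l l F) e c)) = _
      rw [Algebra.TensorProduct.tmul_mul_tmul, one_mul]
    rw [Finset.sum_congr rfl fun e _ => h1 e, Finset.sum_congr rfl fun e _ => h2 e,
      ← TensorProduct.tmul_sum, ← TensorProduct.tmul_sum]
    have h3 := congrFun (congrFun hy a) c
    rw [Matrix.mul_apply, Matrix.mul_apply] at h3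
    rw [h3]

end

theorem tCoB (h : TBbStmt) : CoBStmt := by
  intro p _ F l _ _ _ _ _ B₀ Zs hB ι _ k _ _ _ τ
  obtain ⟨e1, e2, e3, -, e5⟩ := tyEvj p F k τ
  obtain ⟨b1, b2⟩ := h p F l B₀ Zs hB ι k
  have p1 : ∀ (u : (k ⊗[ZMod p] (ι → B₀))ˣ) (i : ι) (j : ℕ),
      coB B₀ ι τ i (j + Module.finrank (ZMod p) F) u = coB B₀ ι τ i j u := by
    intro u i j
    apply Units.ext
    rw [CoB_coe, CoB_coe]
    ext a b
    exact e1 j _
  have p6 : ∀ z z' : k ⊗[ZMod p] (ι → B₀),
      (∀ i (j : Fin (Module.finrank (ZMod p) F)), (TB B₀ ι k z i).map (evj (p := p) τ j) =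
        (TB B₀ ι k z' i).map (evj (p := p) τ j)) → z = z' := by
    intro z z' hzz
    apply b1
    funext i
    exact CoB_inj (p := p) τ _ _ (hzz i)
  refine ⟨p1, ?_, ?_, ?_, ?_, p6, ?_⟩
  · intro u i j m
    apply Units.ext
    have h3 : TB B₀ ι k ((fru m k u : (k ⊗[ZMod p] (ι → B₀))ˣ) :
        k ⊗[ZMod p] (ι → B₀)) = fun i =>
        (TB B₀ ι k (u : k ⊗[ZMod p] (ι → B₀)) i).map
          (tmap (p := p) (iterateFrobenius k p m) (RingHom.id F)) := TB_tmap B₀ ι _ _
    rw [CoB_coe, h3]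
    ext a b
    exact (e2 m j _).trans (iterateFrobenius_def (R := k) p m _).symm
  · intro w hw
    -- matrices over `k ⊗ F` with given coordinates
    have hex : ∀ v : ι → Fin (Module.finrank (ZMod p) F) → Matrix l l k,
        (∀ i (j : Fin (Module.finrank (ZMod p) F)), ∀ z ∈ Zs,
          v i j * z.map (twj (p := p) τ j) = z.map (twj (p := p) τ j) * v i j) →
        ∃ x : k ⊗[ZMod p] (ι → B₀), ∀ i (j : Fin (Module.finrank (ZMod p) F)),
          (TB B₀ ι k x i).map (evj (p := p) τ j) = v i j := by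
      intro v hv
      choose X hX using fun i => CoB_surj (p := p) τ (v i)
      obtain ⟨x, hx⟩ := b2 X (by
        intro i z hz
        apply CoB_inj (p := p) τ
        intro j
        rw [Matrix.map_mul, Matrix.map_mul, CoB_evj_map, hX, hv i j z hz])
      refine ⟨x, fun i j => ?_⟩
      rw [hx]
      exact hX i j
    obtain ⟨x, hx⟩ := hex (fun i j => (w i j : Matrix l l k)) hw
    obtain ⟨x', hx'⟩ := hex (fun i j => (((w i j)⁻¹ : GL l k) : Matrix l l k)) (by
      intro i j z hz
      have h1 := hw i j z hz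
      have h2 : (((w i j)⁻¹ : GL l k) : Matrix l l k) * (w i j : Matrix l l k) = 1 :=
        Units.inv_mul _
      have h3 : (w i j : Matrix l l k) * (((w i j)⁻¹ : GL l k) : Matrix l l k) = 1 :=
        Units.mul_inv _
      calc (((w i j)⁻¹ : GL l k) : Matrix l l k) * z.map (twj (p := p) τ j)
          = (((w i j)⁻¹ : GL l k) : Matrix l l k) * (z.map (twj (p := p) τ j) *
              (w i j : Matrix l l k)) * (((w i j)⁻¹ : GL l k) : Matrix l l k) := by
            rw [mul_assoc, mul_assoc, h3, mul_one]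
        _ = (((w i j)⁻¹ : GL l k) : Matrix l l k) * ((w i j : Matrix l l k) *
              z.map (twj (p := p) τ j)) * (((w i j)⁻¹ : GL l k) : Matrix l l k) := by rw [h1]
        _ = z.map (twj (p := p) τ j) * (((w i j)⁻¹ : GL l k) : Matrix l l k) := by
            rw [← mul_assoc, h2, one_mul])
    have hxx' : x * x' = 1 := by
      apply p6
      intro i j
      have h1 : TB B₀ ι k (x * x') i = TB B₀ ι k x i * TB B₀ ι k x' i :=
        congrFun (map_mul (TB B₀ ι k) x x') i
      have h2 : TB B₀ ι k 1 i = 1 := congrFun (map_one (TB B₀ ι k)) i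
      rw [h1, h2, Matrix.map_mul, hx, hx', Matrix.map_one _ (map_zero _) (map_one _)]
      exact Units.mul_inv _
    have hx'x : x' * x = 1 := by
      apply p6
      intro i j
      have h1 : TB B₀ ι k (x' * x) i = TB B₀ ι k x' i * TB B₀ ι k x i :=
        congrFun (map_mul (TB B₀ ι k) x' x) i
      have h2 : TB B₀ ι k 1 i = 1 := congrFun (map_one (TB B₀ ι k)) i
      rw [h1, h2, Matrix.map_mul, hx, hx', Matrix.map_one _ (map_zero _) (map_one _)]
      exact Units.inv_mul _
    refine ⟨⟨x, x', hxx', hx'x⟩, ?_, ?_⟩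
    · intro i j
      apply Units.ext
      exact hx i j
    · intro u hu
      apply Units.ext
      apply p6
      intro i j
      change (TB B₀ ι k (u : k ⊗[ZMod p] (ι → B₀)) i).map (evj (p := p) τ j) =
        (TB B₀ ι k x i).map (evj (p := p) τ j)
      rw [hx]
      exact congrArg Units.val (hu i j)
  · intro b i j
    rw [CoB_coe]
    have h3 : ((cstu k b : (k ⊗[ZMod p] (ι → B₀))ˣ) :
        k ⊗[ZMod p] (ι → B₀)) = 1 ⊗ₜ (b : ι → B₀) := rfl
    rw [h3, TB_tmul]
    ext a c
    exact (e3 j _).trans (twj_apply (p := p) τ j _).symm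
  · intro S hS u
    rw [mem_GP]
    constructor
    · intro hu i j
      rw [← CoB_evj (p := p) τ j]
      exact hS.map _ _ _ (evj (p := p) τ j) _ (hu i)
    · intro hu i
      refine hS.inj (k ⊗[ZMod p] F) (Fin (Module.finrank (ZMod p) F)) (fun _ => k) _
        (fun j => evj (p := p) τ j) ?_ _ (fun j => ?_)
      · intro a b hab
        apply e5.1
        funext j
        exact hab j
      · rw [CoB_evj (p := p) τ j]
        exact hu i j
  · intro u i j z hz
    rw [CoB_coe, ← CoB_evj_map (p := p) τ j, ← Matrix.map_mul, ← Matrix.map_mul,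
      CoB_com B₀ ι hB k _ i z hz]

end MP7Z.Orf
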