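import Pool.Agent.Lib.MP_7f581e_Z.Ort.Rel

/-!
# Orthogonal groups: base change, Siegel elements, the groups `A` and `Dst`
-/

set_option autoImplicit false
set_option linter.unusedSectionVars false

namespace MP7Z.Ort

open TensorProduct MP7fS Matrix

section map

variable {s : ℕ} {T T' C C' : Type} [CommRing T] [CommRing T'] [Ring C] [Algebra T C] [Ring C']
  [Algebra T' C'] (f : T →+* T') (φ : C →+* C')

theorem bf_map (a b : T) (v w : Ix s → T) :
    bf (f a) (f b) (fun i => f (v i)) (fun i => f (w i)) = f (bf a b v w) := by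
  simp only [bf, map_add, map_sum, map_mul, map_ofNat]

theorem qf_map (a b : T) (v : Ix s → T) : qf (f a) (f b) (fun i => f (v i)) = f (qf a b v) := by
  simp only [qf, map_add, map_sum, map_mul, map_pow]

theorem bv_map (i : Ix s) : (fun j => f (bv T i j)) = bv T' i := by
  funext j
  rw [bv_apply, bv_apply, apply_ite f, map_one, map_zero]

theorem gv_map (hφ : ∀ (c : T) (x : C), φ (c • x) = f c • φ x) (g : Ix s → C) (v : Ix s → T) :
    gv (fun i => φ (g i)) (fun i => f (v i)) = φ (gv g v) := by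
  simp only [gv, map_sum, hφ]

theorem zt_map (hφ : ∀ (c : T) (x : C), φ (c • x) = f c • φ x) (a : T) : ∀ (s : ℕ) (g : Ix s → C),
    zt (f a) s (fun i => φ (g i)) = φ (zt a s g) := by
  intro s
  induction s with
  | zero =>
    intro g
    rw [zt, zt, map_mul]
  | succ s ih =>
    intro g
    have h := ih (g ∘ cIx)
    have h' : zt (f a) s ((fun i => φ (g i)) ∘ cIx) = φ (zt a s (g ∘ cIx)) := h
    rw [zt, zt, h', map_add, map_mul, map_mul, map_mul, map_mul, map_sub, hφ, map_one]

theorem IsFrame.map (hφ : ∀ (c : T) (x : C), φ (c • x) = f c • φ x) {a b : T} {g : Ix s → C}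
    (h : IsFrame a b g) : IsFrame (f a) (f b) (fun i => φ (g i)) := by
  refine ⟨fun i => ?_, fun i j hij => ?_⟩
  · rw [← map_mul, h.sq, hφ, map_one, ← bv_map f, qf_map]
  · rw [← map_mul, ← map_mul, ← map_add, h.anti i j hij, hφ, map_one, ← bv_map f i,
      ← bv_map f j, bf_map]

end map

section mat

variable {s : ℕ} {l : Type} [Fintype l] [DecidableEq l] {T T' : Type} [CommRing T] [CommRing T']

theorem map_smul_mat (f : T →+* T') (c : T) (x : Matrix l l T) :
    f.mapMatrix (c • x) = f c • f.mapMatrix x := by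
  ext i j
  exact map_mul f _ _

theorem zt_mat (f : T →+* T') (a : T) (g : Ix s → Matrix l l T) :
    zt (f a) s (fun i => (g i).map f) = (zt a s g).map f :=
  zt_map f f.mapMatrix (map_smul_mat f) a s g

theorem gv_mat (f : T →+* T') (g : Ix s → Matrix l l T) (v : Ix s → T) :
    gv (fun i => (g i).map f) (fun i => f (v i)) = (gv g v).map f :=
  gv_map f f.mapMatrix (map_smul_mat f) g v

theorem rv_map (f : T →+* T') (P : GL l T) (X : Matrix l l T) :
    rv (GeneralLinearGroup.map f P) (X.map f) = (rv P X).map f := by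
  have h1 : ((GeneralLinearGroup.map f P : GL l T') : Matrix l l T') = (P : Matrix l l T).map f :=
    rfl
  have h2 : (((GeneralLinearGroup.map f P)⁻¹ : GL l T') : Matrix l l T') =
      ((P⁻¹ : GL l T) : Matrix l l T).map f := rfl
  rw [rv, rv, h1, h2, ← Matrix.transpose_map, ← Matrix.map_mul, ← Matrix.map_mul]

theorem Good.map (f : T →+* T') {a b : T} {g : Ix s → Matrix l l T} {P : GL l T} {o : Prop}
    (h : Good a b g P o) :
    Good (f a) (f b) (fun i => (g i).map f) (GeneralLinearGroup.map f P) o where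
  card := h.card
  disc := by
    have h1 := h.disc.map f
    rwa [map_sub, map_mul, map_pow, map_ofNat] at h1
  frame := IsFrame.map f f.mapMatrix (map_smul_mat f) h.frame
  rev i := by rw [rv_map, h.rev]
  odd ho := by
    obtain ⟨h1, h2⟩ := h.odd ho
    refine ⟨by rw [h1, map_zero], ?_⟩
    have h3 := h2.map f
    rwa [map_ofNat] at h3

theorem SG_map (f : T →+* T') {a : T} {g : Ix s → Matrix l l T} {P : GL l T} {o : Prop}
    {u : GL l T} (hu : u ∈ SG a g P o) :
    GeneralLinearGroup.map f u ∈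
      SG (f a) (fun i => (g i).map f) (GeneralLinearGroup.map f P) o := by
  obtain ⟨h1, h2, h3, h4, h5⟩ := hu
  have hu' : ((GeneralLinearGroup.map f u : GL l T') : Matrix l l T') =
    (u : Matrix l l T).map f := rfl
  have e3 : ∀ v' : Ix s → T', (∀ i, ∃ w : Ix s → T, (u : Matrix l l T) * g i =
      gv g w * (u : Matrix l l T)) →
      ∃ w' : Ix s → T', (u : Matrix l l T).map f * gv (fun i => (g i).map f) v' =
        gv (fun i => (g i).map f) w' * (u : Matrix l l T).map f := by
    intro v' hi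
    choose w hw using hi
    refine ⟨∑ i, v' i • (fun j => f (w i j)), ?_⟩
    rw [gv_sum, gv, Finset.mul_sum, Finset.sum_mul]
    refine Finset.sum_congr rfl fun i _ => ?_
    rw [gv_smul, Matrix.mul_smul, Matrix.smul_mul, gv_mat, ← Matrix.map_mul, ← Matrix.map_mul, hw]
  have e4 : ∀ v' : Ix s → T', (∀ i, ∃ w : Ix s → T, g i * (u : Matrix l l T) =
      (u : Matrix l l T) * gv g w) →
      ∃ w' : Ix s → T', gv (fun i => (g i).map f) v' * (u : Matrix l l T).map f =
        (u : Matrix l l T).map f * gv (fun i => (g i).map f) w' := by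
    intro v' hi
    choose w hw using hi
    refine ⟨∑ i, v' i • (fun j => f (w i j)), ?_⟩
    rw [gv_sum, gv, Finset.mul_sum, Finset.sum_mul]
    refine Finset.sum_congr rfl fun i _ => ?_
    rw [gv_smul, Matrix.mul_smul, Matrix.smul_mul, gv_mat, ← Matrix.map_mul, ← Matrix.map_mul, hw]
  refine ⟨?_, ?_, ?_, ?_, ?_⟩
  · rw [hu', zt_mat, ← Matrix.map_mul, ← Matrix.map_mul, h1]
  · rw [hu', rv_map, ← Matrix.map_mul, h2]
    exact Matrix.map_one f (map_zero f) (map_one f)
  · intro v'
    refine e3 v' fun i => ?_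
    obtain ⟨w, hw⟩ := h3 (bv T i)
    rw [gv_bv] at hw
    exact ⟨w, hw⟩
  · intro v'
    refine e4 v' fun i => ?_
    obtain ⟨w, hw⟩ := h4 (bv T i)
    rw [gv_bv] at hw
    exact ⟨w, hw⟩
  · intro ho
    rw [hu', ← Matrix.map_mul, ← Matrix.map_mul, h5 ho]

variable {a b : T} {g : Ix s → Matrix l l T} {P : GL l T} {o : Prop}

theorem rv_add (X Y : Matrix l l T) : rv P (X + Y) = rv P X + rv P Y := by
  rw [rv, rv, rv, Matrix.transpose_add, Matrix.mul_add, Matrix.add_mul]

theorem rv_smul (c : T) (X : Matrix l l T) : rv P (c • X) = c • rv P X := by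
  rw [rv, rv, Matrix.transpose_smul, Matrix.mul_smul, Matrix.smul_mul]

theorem rv_zero : rv P (0 : Matrix l l T) = 0 := by
  rw [rv, Matrix.transpose_zero, Matrix.mul_zero, Matrix.zero_mul]

theorem rv_sum {J : Type} (S : Finset J) (X : J → Matrix l l T) :
    rv P (∑ j ∈ S, X j) = ∑ j ∈ S, rv P (X j) := by
  classical
  induction S using Finset.induction_on with
  | empty => rw [Finset.sum_empty, Finset.sum_empty, rv_zero]
  | insert j S hj ih => rw [Finset.sum_insert hj, Finset.sum_insert hj, rv_add, ih]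

theorem Good.rv_gv (h : Good a b g P o) (v : Ix s → T) : rv P (gv g v) = gv g v := by
  rw [gv, rv_sum]
  exact Finset.sum_congr rfl fun i _ => by rw [rv_smul, h.rev]

theorem Good.zt_comm (h : Good a b g P o) (v w : Ix s → T) :
    gv g v * gv g w * zt a s g = zt a s g * (gv g v * gv g w) := by
  have h1 := h.frame.zt_gv s g v
  have h2 := h.frame.zt_gv s g w
  have h3 : (a • 1 - zt a s g) * gv g w = gv g w * zt a s g := by
    rw [sub_mul, h2, mul_sub, smul_mul_assoc, one_mul, mul_smul_comm, mul_one]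
    abel
  rw [← mul_assoc (zt a s g), h1, mul_assoc (gv g v) (a • 1 - zt a s g), h3, mul_assoc]

/-- **Siegel elements** belong to the spin group. -/
theorem Good.siegel (h : Good a b g P o) {x y : Ix s → T} (hx : qf a b x = 0)
    (hxy : bf a b x y = 0) (ho : o → x (iw 0) = 0 ∧ y (iw 0) = 0) {u : GL l T}
    (hu : (u : Matrix l l T) = 1 + gv g x * gv g y) : u ∈ SG a g P o := by
  have hF := h.frame
  set X := gv g x with hX
  set Y := gv g y with hY
  have hXX : X * X = 0 := by rw [hX, hF.gv_sq, hx, zero_smul]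
  have hXY : X * Y = -(Y * X) := by
    have h1 := hF.gv_anti x y
    rw [hxy, zero_smul] at h1
    exact eq_neg_of_add_eq_zero_left h1
  have hYX : Y * X = -(X * Y) := by rw [hXY, neg_neg]
  have h0 : X * Y * (X * Y) = 0 := by
    rw [Matrix.mul_assoc, ← Matrix.mul_assoc Y, hYX, Matrix.neg_mul, Matrix.mul_neg,
      Matrix.mul_assoc X Y Y, ← Matrix.mul_assoc X X, hXX, Matrix.zero_mul, neg_zero]
  have hinv : (1 - X * Y) * (u : Matrix l l T) = 1 := by
    rw [hu, Matrix.sub_mul, Matrix.mul_add, Matrix.mul_add, Matrix.mul_one, Matrix.mul_one,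
      Matrix.one_mul, h0]
    abel
  have hu' : ((u⁻¹ : GL l T) : Matrix l l T) = 1 - X * Y := by
    have h1 : (1 - X * Y) * (u : Matrix l l T) * ((u⁻¹ : GL l T) : Matrix l l T) =
        ((u⁻¹ : GL l T) : Matrix l l T) := by rw [hinv, Matrix.one_mul]
    rw [← h1, Matrix.mul_assoc, Units.mul_inv, Matrix.mul_one]
  have key : ∀ (c : T) (v : Ix s → T), (1 + c • (X * Y)) * gv g v * (1 - c • (X * Y)) =
      gv g (v + (c * bf a b v y) • x - (c * bf a b v x) • y - (c ^ 2 * bf a b v x * qf a b y) • x) := by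
    intro c v
    set Z := gv g v with hZ
    have hZX : Z * X = bf a b v x • 1 - X * Z := eq_sub_of_add_eq (hF.gv_anti v x)
    have hZY : Z * Y = bf a b v y • 1 - Y * Z := eq_sub_of_add_eq (hF.gv_anti v y)
    have hYY : Y * Y = qf a b y • 1 := hF.gv_sq y
    have e1 : Z * (X * Y) = bf a b v x • Y - bf a b v y • X + X * Y * Z := by
      rw [← Matrix.mul_assoc, hZX, Matrix.sub_mul, Matrix.mul_assoc X Z Y, hZY, Matrix.mul_sub,
        Matrix.smul_mul, Matrix.one_mul, Matrix.mul_smul, Matrix.mul_one, Matrix.mul_assoc]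
      abel
    have e2 : X * Y * X = 0 := by
      rw [Matrix.mul_assoc, hYX, Matrix.mul_neg, ← Matrix.mul_assoc, hXX, Matrix.zero_mul, neg_zero]
    have e3 : X * Y * Y = qf a b y • X := by
      rw [Matrix.mul_assoc, hYY, Matrix.mul_smul, Matrix.mul_one]
    have e4 : X * Y * (Z * (X * Y)) = (bf a b v x * qf a b y) • X := by
      rw [e1, Matrix.mul_add, Matrix.mul_sub, Matrix.mul_smul, Matrix.mul_smul, e3, e2, smul_zero,
        sub_zero, ← Matrix.mul_assoc (X * Y), h0, Matrix.zero_mul, add_zero, smul_smul]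
    rw [Matrix.add_mul, Matrix.one_mul, Matrix.add_mul, Matrix.mul_sub, Matrix.mul_sub,
      Matrix.mul_one, Matrix.mul_one, Matrix.smul_mul, Matrix.smul_mul, Matrix.mul_smul,
      Matrix.mul_smul, Matrix.mul_assoc (X * Y), e4, e1, gv_sub, gv_sub, gv_add, gv_smul, gv_smul,
      gv_smul, ← hX, ← hY, ← hZ, smul_add, smul_sub]
    simp only [smul_smul]
    have h6 : c * (c * (bf a b v x * qf a b y)) = c ^ 2 * bf a b v x * qf a b y := by ring
    rw [h6]
    abel
  refine ⟨?_, ?_, ?_, ?_, ?_⟩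
  · rw [hu, Matrix.add_mul, Matrix.mul_add, Matrix.one_mul, Matrix.mul_one, h.zt_comm]
  · have h1 : rv P (u : Matrix l l T) = 1 - X * Y := by
      rw [hu, rv_add, rv_one, rv_mul, hX, hY, h.rv_gv, h.rv_gv, ← hX, ← hY, hYX]
      abel
    rw [h1, hinv]
  · intro v
    have h1 := key 1 v
    rw [one_smul, ← hu, ← hu'] at h1
    exact ⟨_, by rw [← h1, Matrix.mul_assoc, Matrix.mul_assoc, Units.inv_mul, Matrix.mul_one]⟩
  · intro v
    have h1 := key (-1) v
    rw [neg_one_smul, ← sub_eq_add_neg, sub_neg_eq_add, ← hu, ← hu'] at h1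
    exact ⟨_, by rw [← h1, Matrix.mul_assoc, ← Matrix.mul_assoc, Units.mul_inv, Matrix.one_mul]⟩
  · intro h1
    obtain ⟨h2, h3⟩ := ho h1
    obtain ⟨ha, -⟩ := h.odd h1
    have h4 : ∀ z : Ix s → T, z (iw 0) = 0 → gv g z * g (iw 0) = -(g (iw 0) * gv g z) := by
      intro z hz
      have h5 := hF.gv_anti z (bv T (iw 0))
      rw [bf_w0, hz, ha, mul_zero, zero_mul, add_zero, zero_smul, gv_bv] at h5
      exact eq_neg_of_add_eq_zero_left h5
    rw [hu, Matrix.add_mul, Matrix.mul_add, Matrix.one_mul, Matrix.mul_one, Matrix.mul_assoc,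
      h4 y h3, Matrix.mul_neg, ← Matrix.mul_assoc, h4 x h2, Matrix.neg_mul, neg_neg,
      Matrix.mul_assoc]

/-- Nondegeneracy. -/
theorem nondeg (hd : IsUnit (a ^ 2 - 4 * b)) {v : Ix s → T} (h : ∀ w, bf a b v w = 0) : v = 0 := by
  have h0 := h (bv T (iw 0))
  have h1 := h (bv T (iw 1))
  rw [bf_w0] at h0
  rw [bf_w1] at h1
  have e0 : (a ^ 2 - 4 * b) * v (iw 0) = 0 := by linear_combination a * h1 - 2 * b * h0
  have e1 : (a ^ 2 - 4 * b) * v (iw 1) = 0 := by linear_combination a * h0 - 2 * h1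
  funext i
  rcases i with ((i | i) | i)
  · have h2 := h (bv T (jf i))
    rw [bf_jf] at h2
    exact h2
  · have h2 := h (bv T (ie i))
    rw [bf_ie] at h2
    exact h2
  · fin_cases i
    · exact (hd.mul_right_eq_zero).1 e0
    · exact (hd.mul_right_eq_zero).1 e1

/-- Nondegeneracy of the quadratic space. -/
theorem Good.nondeg_Vo (h : Good a b g P o) {v : Ix s → T} (hv : v ∈ Vo o s T)
    (hw : ∀ w ∈ Vo o s T, bf a b v w = 0) : v = 0 := by
  by_cases ho : o
  · obtain ⟨ha, h2⟩ := h.odd ho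
    have hb : IsUnit b := by
      have h3 := h.disc
      rw [ha, zero_pow two_ne_zero, zero_sub, IsUnit.neg_iff] at h3
      exact isUnit_of_mul_isUnit_right h3
    have h0 : v (iw 0) = 0 := hv ho
    have hmem : ∀ i : Ix s, i ≠ iw 0 → bv T i ∈ Vo o s T := by
      intro i hi _
      rw [bv_apply, if_neg (fun h => hi h.symm)]
    funext i
    rcases i with ((i | i) | i)
    · have h3 := hw (bv T (jf i)) (hmem _ (by simp))
      rw [bf_jf] at h3
      exact h3
    · have h3 := hw (bv T (ie i)) (hmem _ (by simp))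
      rw [bf_ie] at h3
      exact h3
    · fin_cases i
      · exact h0
      · have h3 := hw (bv T (iw 1)) (hmem _ (by simp))
        rw [bf_w1, ha, zero_mul, zero_add] at h3
        exact ((h2.mul hb).mul_right_eq_zero).1 h3
  · exact nondeg h.disc fun w => hw w (fun h' => absurd h' ho)

theorem Good.nonempty (h : Good a b g P o) : Nonempty l := by
  rw [← Fintype.card_pos_iff, h.card]
  positivity

theorem smul_one_inj [Nonempty l] {c d : T}
    (h : c • (1 : Matrix l l T) = d • (1 : Matrix l l T)) : c = d := by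
  obtain ⟨i⟩ := ‹Nonempty l›
  have h1 := congrFun (congrFun h i) i
  simpa using h1

/-- The map from vectors to matrices is injective. -/
theorem Good.gv_inj (h : Good a b g P o) {v w : Ix s → T} (hvw : gv g v = gv g w) : v = w := by
  have := h.nonempty
  rw [← sub_eq_zero]
  refine nondeg h.disc fun y => ?_
  apply smul_one_inj (l := l)
  rw [zero_smul, ← h.frame.gv_anti, gv_sub, hvw, sub_self, zero_mul, mul_zero, add_zero]

end mat

namespace Dat

variable {F : Type} [Field F] {s : ℕ} (D : Dat F s) (p : ℕ) [Fact p.Prime] [Algebra (ZMod p) F]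

theorem gg_mem {v w : Ix s → F} (hv : v ∈ D.V) (hw : w ∈ D.V) : D.γ v * D.γ w ∈ D.C0 p := by
  rw [mem_C0]
  refine ⟨D.good.zt_comm v w, fun ho => ?_⟩
  obtain ⟨ha, -⟩ := D.good.odd ho
  have h4 : ∀ z : Ix s → F, z (iw 0) = 0 → gv D.g z * D.g (iw 0) = -(D.g (iw 0) * gv D.g z) := by
    intro z hz
    have h5 := D.good.frame.gv_anti z (bv F (iw 0))
    rw [bf_w0, hz, ha, mul_zero, zero_mul, add_zero, zero_smul, gv_bv] at h5
    exact eq_neg_of_add_eq_zero_left h5
  rw [Matrix.mul_assoc, h4 w (hw ho), Matrix.mul_neg, ← Matrix.mul_assoc, h4 v (hv ho),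
    Matrix.neg_mul, neg_neg, Matrix.mul_assoc]

theorem smul_mem (c : F) : c • (1 : Matrix (Lx s) (Lx s) F) ∈ D.C0 p := by
  rw [mem_C0]
  refine ⟨?_, fun _ => ?_⟩ <;> rw [Matrix.smul_mul, Matrix.one_mul, Matrix.mul_smul, Matrix.mul_one]

/-- **The group `A`** of the automorphisms of the even Clifford algebra defined by semilinear
similitudes. -/
def A : Subgroup (RingAut (D.C0 p)) where
  carrier := {x | D.IsA p x ∧ D.IsA p x⁻¹}
  one_mem' := ⟨D.isA_one p, by rw [inv_one]; exact D.isA_one p⟩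
  mul_mem' := fun {x y} hx hy => ⟨hx.1.mul D hy.1 (fun v hv w hw => D.gg_mem p hv hw)
      (D.smul_mem p), by
    rw [_root_.mul_inv_rev]
    exact hy.2.mul D hx.2 (fun v hv w hw => D.gg_mem p hv hw) (D.smul_mem p)⟩
  inv_mem' := fun {x} hx => ⟨hx.2, by rw [inv_inv]; exact hx.1⟩

/-- The action of `A`. -/
def r : D.A p →* RingAut (D.C0 p) := (D.A p).subtype

/-- The idempotent `e_i f_i`. -/
def id_ef (i : Fin s) : D.C0 p := ⟨D.g (ie i) * D.g (jf i), by
  have h := D.gg_mem p (v := bv F (ie i)) (w := bv F (jf i))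
    (fun _ => by rw [bv_apply, if_neg (by simp)]) (fun _ => by rw [bv_apply, if_neg (by simp)])
  rw [γ, γ, gv_bv, gv_bv] at h
  exact h⟩

/-- **The standard elements** fix the idempotents `e_i f_i`. -/
def Dst : Subgroup (D.A p) where
  carrier := {x | ∀ i, D.r p x (D.id_ef p i) = D.id_ef p i}
  one_mem' := fun i => by rw [map_one]; rfl
  mul_mem' := fun {x y} hx hy i => by
    rw [map_mul]
    change D.r p x (D.r p y (D.id_ef p i)) = _
    rw [hy i, hx i]
  inv_mem' := fun {x} hx i => by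
    have h : D.r p x⁻¹ (D.r p x (D.id_ef p i)) = D.id_ef p i := by
      change (D.r p x⁻¹ * D.r p x) (D.id_ef p i) = _
      rw [← map_mul, inv_mul_cancel, map_one]
      rfl
    rw [hx i] at h
    exact h

end Dat

end MP7Z.Ort
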