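import Pool.Agent.Lib.MP_7f581e_Z.Ort.SpecF
import Pool.Agent.Lib.MP_7f581e_Z.Ort.Grp

/-!
# Orthogonal groups: the functor, the spin groups (specification)

`D : Dat F (s + 1)`, `e = e_last`, `f = f_last`, `V_s = Vk D.o (s + 1) F s` (the vectors of the
quadratic space orthogonal to `e` and `f`).  The family with parameters is `D.SF`, `T c ↦ D.S c`.
The matrices commuting with `D.Zs` are the even Clifford algebra `D.C0 p`.

Each `def XStmt : Prop` is one Lean task: file `Ort/X.lean`, import this file, `theorem tX : XStmt`;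
statements listed under *Uses* are hypotheses `(h : YStmt)`.
-/

set_option autoImplicit false

namespace MP7Z.Ort

open TensorProduct MP7fS MP7fU Matrix MP7Z.Orf

namespace Dat

variable {F : Type} [Field F]

/-- The matrices defining the even Clifford algebra as a centralizer. -/
def Zs {s : ℕ} (D : Dat F s) : Set (Matrix (Lx s) (Lx s) F) :=
  {X | X = D.z ∨ (D.o ∧ X = D.g (iw 0))}

/-- The family of the spin groups. -/
noncomputable def SF {s : ℕ} (D : Dat F s) : PFam F (Lx s) := fun _ _ c => D.S c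

/-- The products `e v` (`false`) and `f v` (`true`), `v ∈ V_s`. -/
def N {s : ℕ} (D : Dat F (s + 1)) : Bool → Set (Matrix (Lx (s + 1)) (Lx (s + 1)) F) := fun b =>
  {M | ∃ v ∈ Vk D.o (s + 1) F s,
    M = D.g (if b then jf (Fin.last s) else ie (Fin.last s)) * gv D.g v}

/-- The pairs `(t, σ)` which normalize the spin groups and the spaces of the `e v`, `f v`. -/
def DD {s : ℕ} (D : Dat F (s + 1)) : Set (GL (Lx (s + 1)) F × (F ≃+* F)) :=
  {d | (∀ (T : Type) [CommRing T] (f : F →+* T), ∀ u ∈ D.SF T (f.comp (d.2 : F →+* F)),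
      GeneralLinearGroup.map f d.1 * u * (GeneralLinearGroup.map f d.1)⁻¹ ∈ D.SF T f) ∧
    ∀ b, ∀ M ∈ D.N b, (d.1 : Matrix (Lx (s + 1)) (Lx (s + 1)) F) * M.map d.2 *
      ((d.1⁻¹ : GL (Lx (s + 1)) F) : Matrix (Lx (s + 1)) (Lx (s + 1)) F) ∈
        Submodule.span F (D.N b)}

theorem stabP_DD {s : ℕ} (D : Dat F (s + 1)) : StabP D.SF D.N D.DD where
  grp d hd := hd.1
  spc d hd := hd.2

theorem isCen {s : ℕ} (D : Dat F s) (p : ℕ) [Fact p.Prime] [Algebra (ZMod p) F] :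
    IsCen (D.C0 p) D.Zs := by
  intro X
  rw [mem_C0]
  constructor
  · rintro ⟨h1, h2⟩ z (rfl | ⟨ho, rfl⟩)
    · exact h1
    · exact h2 ho
  · intro h
    exact ⟨h _ (Or.inl rfl), fun ho => h _ (Or.inr ⟨ho, rfl⟩)⟩

end Dat

/-- **LangI** (used as a hypothesis; proved elsewhere): Lang's theorem for the spin groups. -/
def LangIStmt : Prop :=
  ∀ (p : ℕ) [Fact p.Prime] (s : ℕ) (l : Type) [Fintype l] [DecidableEq l] (k : Type) [Field k]
    [CharP k p] [IsSepClosed k] (a b : k) (g : Ix s → Matrix l l k) (P : GL l k) (o : Prop),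
    Good a b g P o → 1 ≤ s → ∀ m : ℕ, 0 < m → a ^ p ^ m = a → b ^ p ^ m = b →
    (∀ i, (g i).map (iterateFrobenius k p m) = g i) →
    GeneralLinearGroup.map (iterateFrobenius k p m) P = P →
    ∀ u ∈ SG a g P o, ∃ y ∈ SG a g P o,
      GeneralLinearGroup.map (iterateFrobenius k p m) y = u * y

/-- **GenI** (used as a hypothesis; proved elsewhere): generation by Siegel elements. -/
def GenIStmt : Prop :=
  ∀ (s : ℕ) (l : Type) [Fintype l] [DecidableEq l] (K : Type) [Field K] (a b : K)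
    (g : Ix (s + 1) → Matrix l l K) (P : GL l K) (o : Prop), Good a b g P o →
    SG a g P o ≤ G1 g o (Fin.last s)

/-- **ExtI** (used as a hypothesis; proved elsewhere): the automorphisms of the even Clifford algebra
given by semilinear similitudes are of the form `X ↦ t X^σ t⁻¹`, and this map preserves the spin
groups over all rings. -/
def ExtIStmt : Prop :=
  ∀ (p : ℕ) [Fact p.Prime] (F : Type) [Field F] [Finite F] [Algebra (ZMod p) F] (s : ℕ)
    (D : Dat F s) (x : RingAut (D.C0 p)) (σ : F ≃+* F) (μ : F) (g : (Ix s → F) → (Ix s → F)),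
    1 ≤ s → D.IsSemi σ μ g → D.Ind p x σ μ g →
    ∃ t : GL (Lx s) F, (∀ X : D.C0 p, ((x X : D.C0 p) : Matrix (Lx s) (Lx s) F) =
      (t : Matrix (Lx s) (Lx s) F) * (X : Matrix (Lx s) (Lx s) F).map σ *
        ((t⁻¹ : GL (Lx s) F) : Matrix (Lx s) (Lx s) F)) ∧
      ∀ (T : Type) [CommRing T] (f : F →+* T), ∀ u ∈ D.SF T (f.comp (σ : F →+* F)),
        GeneralLinearGroup.map f t * u * (GeneralLinearGroup.map f t)⁻¹ ∈ D.SF T f

/-- **FunO.** Functoriality of the spin groups.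

*Proof.*  `map`: `SG_map` (`(M.map c).map f = M.map (f.comp c)`, `Matrix.map_map`).  `cent`: by
definition (`mem_SG`; `zt (c a) s (gT c) = (zt a s g).map c`, `zt_mat`).  `inj`: let `f_i : T → T'_i` be
jointly injective, `u ∈ GL(T)` with `u_i = GL.map f_i u ∈ D.S (f_i ∘ c)` for all `i`.  The equations
`u ζ = ζ u`, `rv u * u = 1`, `u w₀ = w₀ u` hold after every `f_i` (`zt_mat`, `rv_map`), so they hold.
The third condition: let `γ_T v = gv (gT c) v`.  `gv D.g : F^Ix → M_l(F)` is linear and injective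
(`Good.gv_inj`), so there is a linear `π : M_l(F) → F^Ix` with `π(gv D.g v) = v`
(`LinearMap.exists_leftInverse_of_injective`); let `π_{j,(r,q)} = π(single r q 1) j`, and for a ring
`T` with `c : F → T` put `π_T(X) j = Σ_{r,q} c(π_{j,(r,q)}) X_{r,q}`.  Then `π_T(γ_T v) = v` for all
`v : Ix s → T` (both sides are `T`-linear in `v`; for `v = bv T i` it is the image of
`π(gv D.g (bv F i)) = bv F i`), and `f(π_T X) = π_{T'}(X.map f)`.  So `X ∈ range γ_T` iff
`X = γ_T(π_T X)`.  Let `X = u γ_T(bv T j) u⁻¹`.  For every `i` the matrix `X.map f_i` is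
`u_i γ(bv j) u_i⁻¹ ∈ range γ`, so `X.map f_i = γ(π(X.map f_i)) = (γ_T(π_T X)).map f_i` (`gv_mat`); by joint
injectivity `X = γ_T(π_T X)`, that is `u γ_T(bv T j) = γ_T(v_j) u` with `v_j = π_T X`.  For general
`v = Σ v_j bv T j` (`sum_bv`) take `Σ_j v_j • v_j'`.  The fourth condition: the same with
`u⁻¹ γ_T(bv T j) u`.  (A lemma: if `∀ v ∃ v', u γ(v) = γ(v') u` over `T'_i`, and the same for the other
side, is all that is used.) -/
def FunOStmt : Prop :=
  ∀ (F : Type) [Field F] (s : ℕ) (D : Dat F s), PFunc D.Zs D.SF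

/-- **LngO.** Lang's theorem in the form `LangP`.

*Proof.*  Let `k, c, m, u` be given.  `D.good.map c` is `Good (c a) (c b) (D.gT c) (D.PT c) o`; all
entries of these data are values of `c`, so they are fixed by `x ↦ x ^ (p ^ m)`
(`iterateFrobenius_def`).  Apply `LangIStmt`.
*Uses*: LangI. -/
def LngOStmt : Prop :=
  ∀ (p : ℕ) [Fact p.Prime] (F : Type) [Field F] (s : ℕ) (D : Dat F s), 1 ≤ s → LangP p D.SF

/-- **GnO.** Generation in the form `GenP`.

*Proof.*  Let `c : F → k`, `g' = D.gT c`.  By `GenIStmt` `D.S c ≤ G1 g' D.o (Fin.last s)`, and it is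
enough that every generator of `G1` is in the set of the claim (`Subgroup.closure_mono`).  Let
`w = 1 + g'(e) γ(v)`, `v ∈ Vk D.o (s+1) k s`.  `v (jf last) = 0`, so `g'(e) γ(v) = -γ(v) g'(e)`
(`IsFrame.gv_anti`, `bf_ie`, `gv_bv`) and `(g'(e) γ(v))^2 = -g'(e)^2 γ(v)^2 = 0` (`IsFrame.ee`).
`v = Σ_i v_i • bv k i` (`sum_bv`), the sum over the `i` with `v_i ≠ 0`; for these `bv F i ∈ Vk D.o (s+1) F s`,
so `D.g e * D.g i ∈ D.N false` (`gv_bv`) and `g'(e) γ(v) = Σ_i v_i • (D.g e * D.g i).map c ∈ ZM`.  The same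
for `f` (`b = true`, `bf_jf`, `IsFrame.ff`).
*Uses*: GenI. -/
def GnOStmt : Prop :=
  ∀ (F : Type) [Field F] (s : ℕ) (D : Dat F (s + 1)), GenP D.SF D.N

/-- **SqO.** The elements `1 + e v`, `1 + f v`.

*Proof.*  Let `z ∈ ZM (D.N b) T c`, `g' = D.gT c`, `x = bv T (ie last)` for `b = false`, `bv T (jf last)` for
`b = true`.  By span induction `z = g'(x) γ(v)` for some `v ∈ Vk D.o (s+1) T s`, `γ = gv g'` (the image of
`D.g _ * gv D.g v` is `g' _ * gv g' (c ∘ v)`: `gv_mat`; sums and multiples: `gv_add`, `gv_smul`).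
`v (ie last) = v (jf last) = 0`, so `bf x v = 0` (`bf_comm`, `bf_ie`, `bf_jf`) and `g'(x)`, `γ(v)`
anticommute (`IsFrame.gv_anti`, `gv_bv`); `z z = -g'(x)^2 γ(v)^2 = 0`.  If `u = 1 + z` then
`u ∈ D.S c` by `Good.siegel` for `D.good.map c` (`qf_ie`, `qf_jf`; `x (iw 0) = 0`, and `v (iw 0) = 0` if
`o`). -/
def SqOStmt : Prop :=
  ∀ (F : Type) [Field F] (s : ℕ) (D : Dat F (s + 1)) (b : Bool), SqP D.SF (D.N b)

/-- **CmO.** The products `e v`, `f v` are in the even Clifford algebra.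

*Proof.*  `D.gg_mem` for `bv F (ie last)` (or `jf`), `v ∈ Vk ≤ Vo`, and `isCen` (for any prime `p`; or
repeat the proof of `gg_mem`: `Good.zt_comm` and two sign changes). -/
def CmOStmt : Prop :=
  ∀ (p : ℕ) [Fact p.Prime] (F : Type) [Field F] [Algebra (ZMod p) F] (s : ℕ) (D : Dat F (s + 1))
    (b : Bool), ∀ M ∈ D.N b, ∀ z ∈ D.Zs, M * z = z * M

/-- **PrO.** Vectors with product zero are proportional.

*Proof.*  Let `γ = gv g`, `γ(v) γ(w) = 0`, `w ≠ 0`.  By `nondeg` there is `u` with `c = bf a b w u ≠ 0`.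
`γ(v) = c⁻¹ γ(v) (γ(w) γ(u) + γ(u) γ(w)) = c⁻¹ γ(v) γ(u) γ(w) = c⁻¹ (bf a b v u • 1 - γ(u) γ(v)) γ(w) =
c⁻¹ bf a b v u • γ(w)` (`IsFrame.gv_anti`), so `v = (c⁻¹ bf a b v u) • w` (`Good.gv_inj`); the factor
is not zero if `v ≠ 0`. -/
def PrOStmt : Prop :=
  ∀ (s : ℕ) (l : Type) [Fintype l] [DecidableEq l] (K : Type) [Field K] (a b : K)
    (g : Ix s → Matrix l l K) (P : GL l K) (o : Prop), Good a b g P o →
    ∀ v w : Ix s → K, v ≠ 0 → w ≠ 0 → gv g v * gv g w = 0 → ∃ c : K, c ≠ 0 ∧ v = c • w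

/-- **StO.** The standard elements.

*Proof.*  Let `x ∈ Dst`; `x` is in `A`, so there are `σ, μ, g` with `IsSemi σ μ g` and `Ind p x σ μ g`.
Let `t` be as in `ExtIStmt`; take `d = (t, σ)`.  It remains to show `t M^σ t⁻¹ ∈ span (D.N b)` for
`M ∈ D.N b`.  (1) `bf (g v) (g w) = μ σ(bf v w)` for `v, w ∈ V` (`qf_add`, `IsSemi`); `g v ≠ 0` if
`v ≠ 0`, `v ∈ V` (some `w ∈ V` has `bf v w ≠ 0`, `Good.nondeg_Vo`).  (2) Let `e = bv F (ie last)`,
`f = bv F (jf last)`, `e' = g e`, `f' = g f`; `x(e f) = e f` says `μ⁻¹ γ(e') γ(f') = γ(e) γ(f)`.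
`qf e' = 0 = qf f'`, `bf e' f' = μ`.  `γ(e) γ(e') γ(f') = μ γ(e) γ(e) γ(f) = 0` (`IsFrame.ee`); multiply
by `γ(e')` on the right: `γ(e) γ(e') γ(f') γ(e') = γ(e) γ(e') (μ • 1 - γ(e') γ(f')) = μ γ(e) γ(e')`
(`γ(e')^2 = 0`), so `γ(e) γ(e') = 0` and `e' = c e`, `c ≠ 0` (*PrO*).  In the same way
`γ(e') γ(f') γ(f) = μ γ(e) γ(f) γ(f) = 0`, multiply by `γ(f')` on the left: `μ γ(f') γ(f) = 0`, so
`f' = c' f`, `c' ≠ 0`.  (3) Let `M = γ(e) γ(v)`, `v ∈ V_s` (`b = false`).  `M ∈ C0` (`gg_mem`), so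
`t M^σ t⁻¹ = x(M) = μ⁻¹ γ(g e) γ(g v) = μ⁻¹ c γ(e) γ(g v)`.  `bf (g e) (g v) = μ σ(bf e v) = 0`, so
`(g v) (jf last) = 0` (`bf_ie`); `v' = g v - (g v)(ie last) • e ∈ V_s` (the only index `i : Fin (s+1)` with
`s ≤ i` is `last`), and `γ(e) γ(g v) = γ(e) γ(v')` because `γ(e)^2 = 0`.  So `x(M) = (μ⁻¹ c) • (γ(e) γ(v'))`
is in the span.  (4) `b = true`: the same with `f`: `v' = g v - (g v)(jf last) • f`, `bf_jf`.
*Uses*: ExtI, PrO. -/
def StOStmt : Prop :=
  ∀ (p : ℕ) [Fact p.Prime] (F : Type) [Field F] [Finite F] [Algebra (ZMod p) F] (s : ℕ)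
    (D : Dat F (s + 1)), ∀ x ∈ D.Dst p, ∃ d ∈ D.DD, ∀ X : D.C0 p,
      ((D.r p x X : D.C0 p) : Matrix (Lx (s + 1)) (Lx (s + 1)) F) =
        (d.1 : Matrix (Lx (s + 1)) (Lx (s + 1)) F) *
          (X : Matrix (Lx (s + 1)) (Lx (s + 1)) F).map d.2 *
          ((d.1⁻¹ : GL (Lx (s + 1)) F) : Matrix (Lx (s + 1)) (Lx (s + 1)) F)

/-- **OLang.** The Lang groups of the spin groups.

*Proof.*  `LgBStmt` for `B₀ = D.C0 p`, `Zs = D.Zs` (`isCen`), `S = D.SF` (*FunO*), `N = D.N`, `D.DD`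
(`stabP_DD`), *CmO*, *LngO* (`1 ≤ s + 1`), *GnO*, *SqO*; `inc = D.inc p`: the image consists of the
matrices of the elements of `D.H = D.S (RingHom.id F)` (`M.map id = M`, `Matrix.map_id`; `coe_inc`);
`r = D.r p`, `DA = D.Dst p`: *StO*.
*Uses*: LgB, FunO, LngO, GnO, SqO, CmO, StO. -/
def OLangStmt : Prop :=
  ∀ (p : ℕ) [Fact p.Prime] (F : Type) [Field F] [Finite F] [Algebra (ZMod p) F] (s : ℕ)
    (D : Dat F (s + 1)), LangOf p (D.inc p) (D.r p) (D.Dst p)

end MP7Z.Ort
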