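import Pool.Agent.Lib.MP_7f581e_Z.Ort.SpecB
import Pool.Agent.Lib.MP_7f581e_Z.Ort.SpecC

/-!
# Orthogonal groups: the inputs of part C
-/

set_option autoImplicit false

namespace MP7Z.Ort

open TensorProduct MP7fS Matrix

theorem langI (h : LangOStmt) : LangIStmt :=
  fun p _ s l _ _ k _ _ _ a b g P o hg hs m hm ha hb hgm hP u hu =>
    h p k l s m a b g P o hg hs hm ha hb hgm hP u hu

theorem genI (h : GenOStmt) : GenIStmt :=
  fun s l _ _ K _ a b g P o hg => h K l a b s g P o hg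

theorem extI (h1 : ExtStmt) (h2 : ExAStmt) (h3 : ExtSStmt) : ExtIStmt := by
  intro p _ F _ _ _ s D x σ μ g _ hg hx
  obtain ⟨t, κ, m, hn, ho, ht, hw⟩ := h1 F s D σ μ g hg
  refine ⟨t, fun X => ?_, fun T _ f u hu => ?_⟩
  · have h4 := (h2 p F s D σ μ g hg t κ m hn ht).1 x hx X
    calc ((x X : D.C0 p) : Matrix (Lx s) (Lx s) F) =
        ((x X : D.C0 p) : Matrix (Lx s) (Lx s) F) * ((t : Matrix (Lx s) (Lx s) F) *
          ((t⁻¹ : GL (Lx s) F) : Matrix (Lx s) (Lx s) F)) := by
            rw [Units.mul_inv, Matrix.mul_one]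
      _ = _ := by rw [← Matrix.mul_assoc, h4]
  · have h4 := h3 F s D σ μ g hg t κ m hn ho ht hw T T (f.comp (σ : F →+* F)) f (RingHom.id T)
      (fun c => rfl) u hu
    have h5 : GeneralLinearGroup.map (RingHom.id T) u = u := by
      apply Units.ext
      ext i j
      rfl
    rw [h5] at h4
    exact h4

end MP7Z.Ort
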