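import Pool.Agent.Lib.MP_7f581e_Z.Ort.SpecC

/-!
# Orthogonal groups: functoriality of the spin groups
-/

set_option autoImplicit false

namespace MP7Z.Ort

open TensorProduct MP7fS MP7fU Matrix MP7Z.Orf

section

variable {F : Type} [Field F] {s : ℕ} (D : Dat F s)

theorem FunO_exists : ∃ π : Matrix (Lx s) (Lx s) F →ₗ[F] (Ix s → F),
    ∀ v : Ix s → F, π (gv D.g v) = v := by
  obtain ⟨π, hπ⟩ := LinearMap.exists_leftInverse_of_injective
    (⟨⟨gv D.g, gv_add D.g⟩, gv_smul D.g⟩ : (Ix s → F) →ₗ[F] Matrix (Lx s) (Lx s) F)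
    (LinearMap.ker_eq_bot.2 fun v w h => D.good.gv_inj h)
  exact ⟨π, fun v => LinearMap.congr_fun hπ v⟩

/-- The left inverse over an extension ring. -/
def FunO_pi (π : Matrix (Lx s) (Lx s) F →ₗ[F] (Ix s → F)) {T : Type} [CommRing T] (c : F →+* T)
    (X : Matrix (Lx s) (Lx s) T) : Ix s → T :=
  fun j => ∑ r, ∑ q, c (π (Matrix.single r q 1) j) * X r q

theorem FunO_pi_gv (π : Matrix (Lx s) (Lx s) F →ₗ[F] (Ix s → F))
    (hπ : ∀ v : Ix s → F, π (gv D.g v) = v) {T : Type} [CommRing T] (c : F →+* T)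
    (v : Ix s → T) : FunO_pi π c (gv (D.gT c) v) = v := by
  have h1 : ∀ (X : Matrix (Lx s) (Lx s) F) (j : Ix s),
      ∑ r, ∑ q, π (Matrix.single r q 1) j * X r q = π X j := by
    intro X j
    conv_rhs => rw [Matrix.matrix_eq_sum_single X]
    rw [map_sum, Finset.sum_apply]
    refine Finset.sum_congr rfl fun r _ => ?_
    rw [map_sum, Finset.sum_apply]
    refine Finset.sum_congr rfl fun q _ => ?_
    have h2 : Matrix.single r q (X r q) = X r q • Matrix.single r q (1 : F) := by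
      rw [Matrix.smul_single, smul_eq_mul, mul_one]
    rw [h2, map_smul, Pi.smul_apply, smul_eq_mul, mul_comm]
  funext j
  have h3 : ∀ r q, gv (D.gT c) v r q = ∑ i, v i * c (D.g i r q) := by
    intro r q
    rw [gv, Matrix.sum_apply]
    rfl
  have h4 : ∀ i, ∑ r, ∑ q, c (π (Matrix.single r q 1) j) * c (D.g i r q) = bv T i j := by
    intro i
    have h5 := h1 (D.g i) j
    rw [← gv_bv (T := F) D.g i, hπ, gv_bv] at h5
    have h6 := congrArg c h5
    simp only [map_sum, map_mul] at h6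
    rw [h6]
    exact congrFun (bv_map c i) j
  have h7 : FunO_pi π c (gv (D.gT c) v) j =
      ∑ i, v i * ∑ r, ∑ q, c (π (Matrix.single r q 1) j) * c (D.g i r q) := by
    rw [FunO_pi]
    simp only [h3, Finset.mul_sum]
    rw [Finset.sum_comm (s := (Finset.univ : Finset (Ix s)))]
    refine Finset.sum_congr rfl fun r _ => ?_
    rw [Finset.sum_comm (s := (Finset.univ : Finset (Ix s)))]
    refine Finset.sum_congr rfl fun q _ => ?_
    exact Finset.sum_congr rfl fun i _ => mul_left_comm _ _ _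
  rw [h7]
  simp only [h4]
  have h8 := congrFun (sum_bv v) j
  rw [Finset.sum_apply] at h8
  exact h8

theorem FunO_pi_map (π : Matrix (Lx s) (Lx s) F →ₗ[F] (Ix s → F)) {T T' : Type} [CommRing T]
    [CommRing T'] (c : F →+* T) (f : T →+* T') (X : Matrix (Lx s) (Lx s) T) :
    (fun j => f (FunO_pi π c X j)) = FunO_pi π (f.comp c) (X.map f) := by
  funext j
  rw [FunO_pi, FunO_pi]
  simp only [map_sum, map_mul]
  rfl

theorem FunO_conj (π : Matrix (Lx s) (Lx s) F →ₗ[F] (Ix s → F))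
    (hπ : ∀ v : Ix s → F, π (gv D.g v) = v) {T I : Type} {T' : I → Type} [CommRing T]
    [∀ i, CommRing (T' i)] (c : F →+* T) (f : ∀ i, T →+* T' i)
    (hf : ∀ a b, (∀ i, f i a = f i b) → a = b) (w : GL (Lx s) T)
    (hw : ∀ i, ∀ v : Ix s → T' i, ∃ v' : Ix s → T' i,
      (w : Matrix (Lx s) (Lx s) T).map (f i) * gv (D.gT ((f i).comp c)) v =
        gv (D.gT ((f i).comp c)) v' * (w : Matrix (Lx s) (Lx s) T).map (f i)) (v : Ix s → T) :
    ∃ v' : Ix s → T, (w : Matrix (Lx s) (Lx s) T) * gv (D.gT c) v =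
      gv (D.gT c) v' * (w : Matrix (Lx s) (Lx s) T) := by
  set X := (w : Matrix (Lx s) (Lx s) T) * gv (D.gT c) v *
    ((w⁻¹ : GL (Lx s) T) : Matrix (Lx s) (Lx s) T) with hX
  have h1 : X = gv (D.gT c) (FunO_pi π c X) := by
    have h2 : ∀ i, X.map (f i) = (gv (D.gT c) (FunO_pi π c X)).map (f i) := by
      intro i
      obtain ⟨v', hv'⟩ := hw i (fun j => f i (v j))
      have h3 : gv (D.gT ((f i).comp c)) (fun j => f i (v j)) = (gv (D.gT c) v).map (f i) :=
        gv_mat (f i) (D.gT c) v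
      have h4 : X.map (f i) = gv (D.gT ((f i).comp c)) v' := by
        rw [hX, Matrix.map_mul, Matrix.map_mul, ← h3, hv', Matrix.mul_assoc, ← Matrix.map_mul,
          Units.mul_inv]
        rw [Matrix.map_one _ (map_zero _) (map_one _), Matrix.mul_one]
      have h5 : (gv (D.gT c) (FunO_pi π c X)).map (f i) =
          gv (D.gT ((f i).comp c)) (fun j => f i (FunO_pi π c X j)) :=
        (gv_mat (f i) (D.gT c) _).symm
      rw [h5, FunO_pi_map, h4, FunO_pi_gv D π hπ]
    ext r q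
    exact hf _ _ fun i => congrFun (congrFun (h2 i) r) q
  refine ⟨FunO_pi π c X, ?_⟩
  rw [← h1, hX, Matrix.mul_assoc, Units.inv_mul, Matrix.mul_one]

theorem FunO_S {T T' : Type} [CommRing T] [CommRing T'] (c : F →+* T) (f : T →+* T') :
    D.S (f.comp c) = SG (f (c D.a)) (fun i => (D.gT c i).map f)
      (GeneralLinearGroup.map f (D.PT c)) D.o := by
  have h1 : D.PT (f.comp c) = GeneralLinearGroup.map f (D.PT c) := Units.ext rfl
  rw [Dat.S, h1]
  rfl

end

theorem tFunO : FunOStmt := by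
  intro F _ s D
  refine ⟨?_, ?_, ?_⟩
  · intro T T' _ _ c f u hu
    change _ ∈ D.S (f.comp c)
    rw [FunO_S]
    exact SG_map f hu
  · intro T I T' _ _ c f hf u hu
    obtain ⟨π, hπ⟩ := FunO_exists D
    have hM : ∀ X Y : Matrix (Lx s) (Lx s) T, (∀ i, X.map (f i) = Y.map (f i)) → X = Y := by
      intro X Y h
      ext r q
      exact hf _ _ fun i => congrFun (congrFun (h i) r) q
    have hu' : ∀ i, GeneralLinearGroup.map (f i) u ∈ SG (f i (c D.a))
        (fun j => (D.gT c j).map (f i)) (GeneralLinearGroup.map (f i) (D.PT c)) D.o := by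
      intro i
      have h1 := hu i
      change _ ∈ D.S ((f i).comp c) at h1
      rwa [FunO_S] at h1
    have hui : ∀ i, ((GeneralLinearGroup.map (f i) u : GL (Lx s) (T' i)) :
        Matrix (Lx s) (Lx s) (T' i)) = (u : Matrix (Lx s) (Lx s) T).map (f i) := fun _ => rfl
    have hui' : ∀ i, (((GeneralLinearGroup.map (f i) u)⁻¹ : GL (Lx s) (T' i)) :
        Matrix (Lx s) (Lx s) (T' i)) = ((u⁻¹ : GL (Lx s) T) : Matrix (Lx s) (Lx s) T).map (f i) :=
      fun _ => rfl
    refine ⟨?_, ?_, ?_, ?_, ?_⟩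
    · refine hM _ _ fun i => ?_
      obtain ⟨h1, -⟩ := hu' i
      rw [hui, zt_mat] at h1
      rw [Matrix.map_mul, Matrix.map_mul]
      exact h1
    · refine hM _ _ fun i => ?_
      obtain ⟨-, h1, -⟩ := hu' i
      rw [hui, rv_map] at h1
      rw [Matrix.map_mul, Matrix.map_one _ (map_zero _) (map_one _)]
      exact h1
    · exact FunO_conj D π hπ c f hf u fun i v => (hu' i).2.2.1 v
    · intro v
      obtain ⟨v', hv'⟩ := FunO_conj D π hπ c f hf u⁻¹ (fun i v => by
        obtain ⟨v', hv'⟩ := (inv_mem (hu' i)).2.2.1 v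
        exact ⟨v', hv'⟩) v
      refine ⟨v', ?_⟩
      have h1 : (u : Matrix (Lx s) (Lx s) T) * (((u⁻¹ : GL (Lx s) T) : Matrix (Lx s) (Lx s) T) *
          gv (D.gT c) v) * (u : Matrix (Lx s) (Lx s) T) =
          (u : Matrix (Lx s) (Lx s) T) * (gv (D.gT c) v' *
            ((u⁻¹ : GL (Lx s) T) : Matrix (Lx s) (Lx s) T)) * (u : Matrix (Lx s) (Lx s) T) := by
        rw [hv']
      rw [← Matrix.mul_assoc, Units.mul_inv, Matrix.one_mul, Matrix.mul_assoc,
        Matrix.mul_assoc (gv (D.gT c) v'), Units.inv_mul, Matrix.mul_one] at h1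
      exact h1
    · intro ho
      refine hM _ _ fun i => ?_
      obtain ⟨-, -, -, -, h1⟩ := hu' i
      have h2 := h1 ho
      rw [hui] at h2
      rw [Matrix.map_mul, Matrix.map_mul]
      exact h2
  · intro T _ c u hu z hz
    obtain ⟨h1, -, -, -, h5⟩ := hu
    rcases hz with rfl | ⟨ho, rfl⟩
    · have h2 : (D.z).map c = zt (c D.a) s (D.gT c) := (zt_mat c D.a D.g).symm
      rw [h2]
      exact h1
    · exact h5 ho

end MP7Z.Ort
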