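import Pool.Agent.Lib.MP_7f581e_Z.Ort.SpecF
import Pool.Agent.Lib.MP_7f581e_Z.Types.Evj

/-!
# Orthogonal groups, the functor: generation
-/

set_option autoImplicit false

namespace MP7Z.Orf

open TensorProduct MP7fS MP7fU Matrix

namespace GnBM

section fld

variable {F l : Type} [Field F] [Fintype l] [DecidableEq l]

omit [Fintype l] [DecidableEq l] in
lemma GnB_map_smul {T T' : Type} [CommRing T] [CommRing T'] (f : T →+* T') (c : T)
    (A : Matrix l l T) : (c • A).map f = f c • A.map f := by
  ext a b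
  simp only [Matrix.map_apply, Matrix.smul_apply, smul_eq_mul, map_mul]

lemma ZM_map {N : Set (Matrix l l F)} {T T' : Type} [CommRing T] [CommRing T'] (c : F →+* T)
    (f : T →+* T') {A : Matrix l l T} (hA : A ∈ ZM N T c) :
    A.map f ∈ ZM N T' (f.comp c) := by
  unfold ZM at hA
  induction hA using Submodule.span_induction with
  | mem A h =>
    obtain ⟨M, hM, rfl⟩ := h
    have h1 : (M.map c).map f = M.map (f.comp c) := by
      ext a b
      rfl
    change (M.map c).map f ∈ _
    rw [h1]
    exact Submodule.subset_span ⟨M, hM, rfl⟩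
  | zero =>
    rw [Matrix.map_zero _ (map_zero f)]
    exact Submodule.zero_mem _
  | add A B _ _ hA hB =>
    rw [Matrix.map_add _ (map_add f)]
    exact Submodule.add_mem _ hA hB
  | smul c A _ hA =>
    rw [GnB_map_smul]
    exact Submodule.smul_mem _ _ hA

lemma ZM_comm {N : Set (Matrix l l F)} {T : Type} [CommRing T] (c : F →+* T) {z : Matrix l l F}
    (hN : ∀ M ∈ N, M * z = z * M) {A : Matrix l l T} (hA : A ∈ ZM N T c) :
    A * z.map c = z.map c * A := by
  unfold ZM at hA
  induction hA using Submodule.span_induction with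
  | mem A h =>
    obtain ⟨M, hM, rfl⟩ := h
    change M.map c * z.map c = z.map c * M.map c
    rw [← Matrix.map_mul, ← Matrix.map_mul, hN M hM]
  | zero => rw [Matrix.zero_mul, Matrix.mul_zero]
  | add A B _ _ hA hB => rw [Matrix.add_mul, Matrix.mul_add, hA, hB]
  | smul c A _ hA => rw [Matrix.smul_mul, Matrix.mul_smul, hA]

/-- Step (1): the generation over the fixed field of the Frobenius. -/
lemma closed (p : ℕ) [Fact p.Prime] {Zs : Set (Matrix l l F)} {S : PFam F l} (hS : PFunc Zs S)
    {N : Bool → Set (Matrix l l F)} (hG : GenP S N) (k : Type) [Field k] [CharP k p] (m : ℕ)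
    (hm : 0 < m) (c : F →+* k) (hc : ∀ x, c x ^ p ^ m = c x)
    (y : GL l k) (hy : y ∈ S k c)
    (hf : GeneralLinearGroup.map (iterateFrobenius k p m) y = y) :
    y ∈ Subgroup.closure {w : GL l k |
      GeneralLinearGroup.map (iterateFrobenius k p m) w = w ∧
      ((w : Matrix l l k) - 1) * ((w : Matrix l l k) - 1) = 0 ∧
      ∃ b, (w : Matrix l l k) - 1 ∈ ZM (N b) k c} := by
  classical
  let K₀ : Subfield k := (iterateFrobenius k p m).eqLocusField (RingHom.id k)
  have hmem : ∀ c : k, c ∈ K₀ ↔ iterateFrobenius k p m c = c := fun c => Iff.rfl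
  have hfin : Finite K₀ := by
    have hp : 1 < p ^ m := Nat.one_lt_pow hm.ne' (Fact.out (p := p.Prime)).one_lt
    have hne : (Polynomial.X ^ p ^ m - Polynomial.X : Polynomial k) ≠ 0 :=
      FiniteField.X_pow_card_sub_X_ne_zero k hp
    have hsub : ((K₀ : Set k)) ⊆
        {x | (Polynomial.X ^ p ^ m - Polynomial.X : Polynomial k).IsRoot x} := by
      intro x hx
      have h1 : x ^ p ^ m = x := by
        have h2 := (hmem x).1 hx
        rwa [iterateFrobenius_def] at h2
      change Polynomial.IsRoot _ x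
      rw [Polynomial.IsRoot.def, Polynomial.eval_sub, Polynomial.eval_pow, Polynomial.eval_X, h1,
        sub_self]
    exact (Polynomial.finite_setOfPred_isRoot hne).subset hsub
  have hinj : Function.Injective fun A : Matrix l l K₀ => A.map K₀.subtype :=
    Matrix.map_injective K₀.subtype.injective
  have hent : ∀ a b, (y : Matrix l l k) a b ∈ K₀ := by
    intro a b
    rw [hmem]
    exact congrFun (congrFun (congrArg (fun g : GL l k => (g : Matrix l l k)) hf) a) b
  have hf' : GeneralLinearGroup.map (iterateFrobenius k p m) y⁻¹ = y⁻¹ := by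
    rw [map_inv, hf]
  have hent' : ∀ a b, ((y⁻¹ : GL l k) : Matrix l l k) a b ∈ K₀ := by
    intro a b
    rw [hmem]
    exact congrFun (congrFun (congrArg (fun g : GL l k => (g : Matrix l l k)) hf') a) b
  let c₀ : F →+* K₀ := c.codRestrict K₀ fun x => by
    rw [hmem, iterateFrobenius_def]
    exact hc x
  have hc₀ : (K₀.subtype : K₀ →+* k).comp c₀ = c := rfl
  let A : Matrix l l K₀ := Matrix.of fun a b => ⟨(y : Matrix l l k) a b, hent a b⟩
  let A' : Matrix l l K₀ := Matrix.of fun a b => ⟨((y⁻¹ : GL l k) : Matrix l l k) a b, hent' a b⟩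
  have hA : A.map K₀.subtype = (y : Matrix l l k) := rfl
  have hA' : A'.map K₀.subtype = ((y⁻¹ : GL l k) : Matrix l l k) := rfl
  let y₀ : GL l K₀ :=
    { val := A
      inv := A'
      val_inv := hinj (by
        change (A * A').map K₀.subtype = (1 : Matrix l l K₀).map K₀.subtype
        rw [Matrix.map_mul, hA, hA', Matrix.map_one _ (map_zero _) (map_one _), Units.mul_inv])
      inv_val := hinj (by
        change (A' * A).map K₀.subtype = (1 : Matrix l l K₀).map K₀.subtype
        rw [Matrix.map_mul, hA, hA', Matrix.map_one _ (map_zero _) (map_one _), Units.inv_mul]) }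
  have hy₀ : GeneralLinearGroup.map K₀.subtype y₀ = y := Units.ext hA
  have hyS : y₀ ∈ S K₀ c₀ := by
    refine hS.inj K₀ Unit (fun _ => k) c₀ (fun _ => K₀.subtype)
      (fun a b h => K₀.subtype.injective (h ())) y₀ fun _ => ?_
    rw [hy₀, hc₀]
    exact hy
  have h1 := hG K₀ c₀ hyS
  have h2 : Subgroup.closure {w : GL l K₀ |
      ((w : Matrix l l K₀) - 1) * ((w : Matrix l l K₀) - 1) = 0 ∧
        ∃ b, (w : Matrix l l K₀) - 1 ∈ ZM (N b) K₀ c₀} ≤
      (Subgroup.closure {w : GL l k |
      GeneralLinearGroup.map (iterateFrobenius k p m) w = w ∧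
      ((w : Matrix l l k) - 1) * ((w : Matrix l l k) - 1) = 0 ∧
      ∃ b, (w : Matrix l l k) - 1 ∈ ZM (N b) k c}).comap (GeneralLinearGroup.map K₀.subtype) := by
    rw [Subgroup.closure_le]
    rintro w ⟨hw, b, hb⟩
    have hsub : ((GeneralLinearGroup.map K₀.subtype w : GL l k) : Matrix l l k) - 1 =
        ((w : Matrix l l K₀) - 1).map K₀.subtype := by
      rw [Matrix.map_sub _ (map_sub _), Matrix.map_one _ (map_zero _) (map_one _)]
      rfl
    refine Subgroup.subset_closure ⟨?_, ?_, b, ?_⟩
    · apply Units.ext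
      ext a c
      exact ((w : Matrix l l K₀) a c).2
    · rw [hsub, ← Matrix.map_mul, hw, Matrix.map_zero _ (map_zero _)]
    · rw [hsub]
      exact ZM_map c₀ K₀.subtype hb
  have h3 := h2 h1
  rw [Subgroup.mem_comap, hy₀] at h3
  exact h3

end fld

/-- Shortcut for the type class search. -/
noncomputable local instance GnB_inst {p : ℕ} [Fact p.Prime] {F l : Type} [Field F] [Fintype l]
    [DecidableEq l] [Algebra (ZMod p) F] (B₀ : Subalgebra (ZMod p) (Matrix l l F)) (ι k : Type)
    [Field k] [Algebra (ZMod p) k] : NonUnitalNonAssocSemiring (k ⊗[ZMod p] (ι → B₀)) :=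
  inferInstance

section co

variable {p : ℕ} [Fact p.Prime] {F l : Type} [Field F] [Finite F] [Fintype l] [DecidableEq l]
  [Algebra (ZMod p) F] (B₀ : Subalgebra (ZMod p) (Matrix l l F)) (ι : Type)
  {k : Type} [Field k] [Algebra (ZMod p) k] [CharP k p] (τ : F →+* k)

/-- The coordinates of the elements of `k ⊗ (ι → B₀)`. -/
noncomputable def Psi (i : ι) (j : ℕ) : k ⊗[ZMod p] (ι → B₀) →+* Matrix l l k :=
  (evj (p := p) τ j).mapMatrix.comp
    ((Pi.evalRingHom (fun _ : ι => Matrix l l (k ⊗[ZMod p] F)) i).comp (TB B₀ ι k))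

lemma Psi_apply (i : ι) (j : ℕ) (z : k ⊗[ZMod p] (ι → B₀)) :
    Psi B₀ ι τ i j z = (TB B₀ ι k z i).map (evj (p := p) τ j) := rfl

lemma Psi_unit (i : ι) (j : ℕ) (u : (k ⊗[ZMod p] (ι → B₀))ˣ) :
    Psi B₀ ι τ i j (u : k ⊗[ZMod p] (ι → B₀)) =
      ((coB B₀ ι τ i j u : GL l k) : Matrix l l k) := rfl

lemma Psi_tmul (i : ι) (j : ℕ) (a : k) (z : ι → B₀) :
    Psi B₀ ι τ i j (a ⊗ₜ z) =
      Matrix.of fun x y => a * τ ((z i : Matrix l l F) x y) ^ p ^ j := by
  rw [Psi_apply, TB_tmul]
  ext x y
  exact evj_tmul τ j a ((z i : Matrix l l F) x y)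

lemma Psi_smul (i : ι) (j : ℕ) (t : k) (z : k ⊗[ZMod p] (ι → B₀)) :
    Psi B₀ ι τ i j (t • z) = t • Psi B₀ ι τ i j z := by
  induction z using TensorProduct.induction_on with
  | zero => rw [smul_zero, map_zero, smul_zero]
  | add x y hx hy => rw [smul_add, map_add, hx, hy, map_add, smul_add]
  | tmul a z =>
    rw [TensorProduct.smul_tmul', Psi_tmul, Psi_tmul]
    ext x y
    simp only [Matrix.of_apply, Matrix.smul_apply, smul_eq_mul, mul_assoc]

/-- Step (3): elements with prescribed coordinates. -/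
lemma exists_mem [Finite ι] [DecidableEq ι] {Zs : Set (Matrix l l F)} (hB : IsCen B₀ Zs)
    {N : Bool → Set (Matrix l l F)} (hN : ∀ b, ∀ M ∈ N b, ∀ z ∈ Zs, M * z = z * M) (b : Bool)
    (i₀ : ι) (j₀ : Fin (Module.finrank (ZMod p) F)) {A : Matrix l l k}
    (hA : A ∈ ZM (N b) k (twj (p := p) τ j₀)) :
    ∃ z ∈ (ZB B₀ ι N b).baseChange k, ∀ i (j : Fin (Module.finrank (ZMod p) F)),
      Psi B₀ ι τ i j z = if i = i₀ ∧ j = j₀ then A else 0 := by
  unfold ZM at hA
  induction hA using Submodule.span_induction with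
  | mem A h =>
    obtain ⟨M, hM, rfl⟩ := h
    obtain ⟨ε, hε⟩ := (tyEvj p F k τ).2.2.2.2.2 (Pi.single j₀ 1)
    have hcM : ∀ c : F, c • M ∈ B₀ := by
      intro c
      rw [hB]
      intro z hz
      rw [Matrix.smul_mul, Matrix.mul_smul, hN b M hM z hz]
    let f : F →ₗ[ZMod p] (ι → B₀) :=
      { toFun := fun c => Pi.single i₀ ⟨c • M, hcM c⟩
        map_add' := fun c d => by
          rw [← Pi.single_add]
          congr 1
          apply Subtype.ext
          exact add_smul c d M
        map_smul' := fun r c => by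
          rw [RingHom.id_apply, ← Pi.single_smul]
          congr 1
          apply Subtype.ext
          exact smul_assoc r c M }
    have hf1 : ∀ c, (f c i₀ : Matrix l l F) = c • M := by
      intro c
      have h2 : f c i₀ = ⟨c • M, hcM c⟩ := Pi.single_eq_same _ _
      rw [h2]
    have hf2 : ∀ c i, i ≠ i₀ → f c i = 0 := fun c i hi => Pi.single_eq_of_ne hi _
    have hf : ∀ c, f c ∈ ZB B₀ ι N b := by
      intro c
      rw [mem_ZB]
      intro i
      by_cases hi : i = i₀
      · rw [hi, hf1]
        exact Submodule.smul_mem _ _ (Submodule.subset_span hM)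
      · rw [hf2 c i hi]
        exact Submodule.zero_mem _
    have hmem : ∀ z : k ⊗[ZMod p] F, f.baseChange k z ∈ (ZB B₀ ι N b).baseChange k := by
      intro z
      induction z using TensorProduct.induction_on with
      | zero => rw [map_zero]; exact Submodule.zero_mem _
      | add x y hx hy => rw [map_add]; exact Submodule.add_mem _ hx hy
      | tmul a c =>
        rw [LinearMap.baseChange_tmul]
        exact Submodule.tmul_mem_baseChange_of_mem _ (hf c)
    have hval : ∀ (z : k ⊗[ZMod p] F) (i : ι) (j : ℕ), Psi B₀ ι τ i j (f.baseChange k z) =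
        if i = i₀ then evj (p := p) τ j z • M.map (twj (p := p) τ j) else 0 := by
      intro z i j
      induction z using TensorProduct.induction_on with
      | zero =>
        rw [map_zero, map_zero, map_zero, zero_smul, ite_self]
      | add x y hx hy =>
        rw [map_add, map_add, hx, hy, map_add]
        split_ifs
        · rw [add_smul]
        · rw [add_zero]
      | tmul a c =>
        rw [LinearMap.baseChange_tmul, Psi_tmul, evj_tmul]
        by_cases hi : i = i₀
        · subst hi
          rw [if_pos rfl]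
          ext x y
          have h2 : (f c i : Matrix l l F) x y = c * M x y := by
            rw [hf1]
            rfl
          rw [Matrix.of_apply, h2, map_mul, mul_pow, Matrix.smul_apply, Matrix.map_apply,
            smul_eq_mul, twj_apply, mul_assoc]
        · rw [if_neg hi]
          ext x y
          have h2 : (f c i : Matrix l l F) x y = 0 := by
            rw [hf2 c i hi]
            rfl
          rw [Matrix.of_apply, h2, map_zero, zero_pow (pow_ne_zero _ (Fact.out (p := p.Prime)).ne_zero),
            mul_zero, Matrix.zero_apply]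
    refine ⟨f.baseChange k ε, hmem ε, fun i j => ?_⟩
    rw [hval]
    have hεj : evj (p := p) τ j ε = (Pi.single j₀ 1 : Fin (Module.finrank (ZMod p) F) → k) j :=
      congrFun hε j
    rw [hεj]
    by_cases hi : i = i₀
    · by_cases hj : j = j₀
      · rw [if_pos hi, if_pos ⟨hi, hj⟩, hj, Pi.single_eq_same, one_smul]
      · rw [if_pos hi, if_neg (fun h => hj h.2), Pi.single_eq_of_ne hj, zero_smul]
    · rw [if_neg hi, if_neg (fun h => hi h.1)]
  | zero =>
    refine ⟨0, Submodule.zero_mem _, fun i j => ?_⟩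
    rw [map_zero, ite_self]
  | add A B _ _ hA hB =>
    obtain ⟨z, hz, hz'⟩ := hA
    obtain ⟨w, hw, hw'⟩ := hB
    refine ⟨z + w, Submodule.add_mem _ hz hw, fun i j => ?_⟩
    rw [map_add, hz', hw']
    split_ifs
    · rfl
    · rw [add_zero]
  | smul c A _ hA =>
    obtain ⟨z, hz, hz'⟩ := hA
    refine ⟨c • z, Submodule.smul_mem _ _ hz, fun i j => ?_⟩
    rw [Psi_smul, hz']
    split_ifs
    · rfl
    · rw [smul_zero]

/-- The invertible matrices commuting with the `j`-th twists of the matrices of `Zs`. -/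
def Cz {F l k : Type} [Field F] [Fintype l] [DecidableEq l] [Field k] (Zs : Set (Matrix l l F))
    (c : F →+* k) : Subgroup (GL l k) where
  carrier := {w | ∀ z ∈ Zs, (w : Matrix l l k) * z.map c = z.map c * (w : Matrix l l k)}
  one_mem' := fun z _ => by rw [Units.val_one, Matrix.one_mul, Matrix.mul_one]
  mul_mem' := fun {u v} hu hv z hz => by
    rw [Units.val_mul, Matrix.mul_assoc, hv z hz, ← Matrix.mul_assoc, hu z hz, Matrix.mul_assoc]
  inv_mem' := fun {u} hu z hz => by
    have h1 := hu z hz
    calc ((u⁻¹ : GL l k) : Matrix l l k) * z.map c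
        = ((u⁻¹ : GL l k) : Matrix l l k) * (z.map c * (u : Matrix l l k)) *
            ((u⁻¹ : GL l k) : Matrix l l k) := by
          rw [Matrix.mul_assoc, Matrix.mul_assoc, Units.mul_inv, Matrix.mul_one]
      _ = z.map c * ((u⁻¹ : GL l k) : Matrix l l k) := by
          rw [← h1, ← Matrix.mul_assoc, Units.inv_mul, Matrix.one_mul]

end co

end GnBM

attribute [local instance] GnBM.GnB_inst

open GnBM in
theorem tGnB (h2 : CoBStmt) : GnBStmt := by
  intro p _ F l _ _ _ _ _ B₀ Zs hB ι _ S hS N hN hG k _ _ _ _ _ m hm hdm x hx hfx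
  classical
  let d := Module.finrank (ZMod p) F
  let τ : F →+* k := (IsAlgClosed.lift (R := ZMod p) (S := F) (M := k) : F →ₐ[ZMod p] k)
  obtain ⟨c1, c2, c3, -, c5, c6, c7⟩ := h2 p F l B₀ Zs hB ι k τ
  have c1' : ∀ (u : (k ⊗[ZMod p] (ι → B₀))ˣ) (i : ι) (j n : ℕ),
      coB B₀ ι τ i (j + n * d) u = coB B₀ ι τ i j u := by
    intro u i j n
    induction n with
    | zero => rw [Nat.zero_mul, Nat.add_zero]
    | succ n ih => rw [Nat.succ_mul, ← add_assoc, c1, ih]
  obtain ⟨n, hn⟩ := hdm
  have hper : ∀ (u : (k ⊗[ZMod p] (ι → B₀))ˣ) (i : ι) (j : ℕ),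
      coB B₀ ι τ i (j + m) u = coB B₀ ι τ i j u := by
    intro u i j
    rw [hn, mul_comm]
    exact c1' u i j n
  have hfr : ∀ (u : (k ⊗[ZMod p] (ι → B₀))ˣ) (i : ι) (j : ℕ),
      coB B₀ ι τ i j (fru m k u) =
        GeneralLinearGroup.map (iterateFrobenius k p m) (coB B₀ ι τ i j u) := by
    intro u i j
    rw [← hper (fru m k u), c2]
  -- the parameters are fixed by the Frobenius
  have hFd : ∀ c : F, c ^ p ^ m = c := by
    intro c
    have h3 : ∀ n : ℕ, c ^ p ^ (d * n) = c := by
      intro n
      induction n with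
      | zero => rw [Nat.mul_zero, pow_zero, pow_one]
      | succ n ih =>
        rw [Nat.mul_succ, pow_add, pow_mul, ih]
        have hc : Nat.card F = p ^ d := by
          rw [Module.natCard_eq_pow_finrank (K := ZMod p) (V := F), Nat.card_zmod]
        have := Fintype.ofFinite F
        rw [← hc, Nat.card_eq_fintype_card]
        exact FiniteField.pow_card c
    rw [hn]
    exact h3 n
  have htw : ∀ (j : ℕ) (c : F), twj (p := p) τ j c ^ p ^ m = twj (p := p) τ j c := by
    intro j c
    rw [twj_apply, ← pow_mul, mul_comm, pow_mul, ← map_pow, hFd]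
  let ce : (k ⊗[ZMod p] (ι → B₀))ˣ →* (ι → ∀ j : Fin d, Cz Zs (twj (p := p) τ j)) :=
    MonoidHom.pi fun i => MonoidHom.pi fun j : Fin d =>
      (coB B₀ ι τ i j).codRestrict (Cz Zs (twj (p := p) τ j)) fun u => c7 u i j
  have hce : ∀ u i (j : Fin d), (ce u i j : GL l k) = coB B₀ ι τ i j u := fun _ _ _ => rfl
  have hbij : Function.Bijective ce := by
    constructor
    · intro u v huv
      obtain ⟨w, -, hw⟩ := c3 (fun i j => (ce u i j : GL l k)) fun i j z hz => (ce u i j).2 z hz
      rw [hw u fun i j => rfl, hw v fun i j => by rw [huv]; rfl]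
    · intro w
      obtain ⟨u, hu, -⟩ := c3 (fun i j => (w i j : GL l k)) fun i j z hz => (w i j).2 z hz
      exact ⟨u, funext fun i => funext fun j => Subtype.ext (hu i j)⟩
  let e := MulEquiv.ofBijective ce hbij
  set Gc := Subgroup.closure {w : (k ⊗[ZMod p] (ι → B₀))ˣ | fru m k w = w ∧
        ((w : k ⊗[ZMod p] (ι → B₀)) - 1) * ((w : k ⊗[ZMod p] (ι → B₀)) - 1) =
          0 ∧ ∃ i, (w : k ⊗[ZMod p] (ι → B₀)) - 1 ∈ (ZB B₀ ι N i).baseChange k}
    with hGc
  let G' : Subgroup (ι → ∀ j : Fin d, Cz Zs (twj (p := p) τ j)) := Gc.comap e.symm.toMonoidHom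
  have hmain : e x ∈ G' := by
    refine Subgroup.pi_mem_of_mulSingle_mem (e x) fun i₀ => ?_
    have h3 : e x i₀ ∈ G'.comap
        (MonoidHom.mulSingle (fun _ : ι => ∀ j : Fin d, Cz Zs (twj (p := p) τ j)) i₀) := by
      refine Subgroup.pi_mem_of_mulSingle_mem (e x i₀) fun j₀ => ?_
      have hx1 := closed p hS hG k m hm (twj (p := p) τ j₀) (htw j₀) (coB B₀ ι τ i₀ j₀ x)
        ((c5 S hS x).1 hx i₀ j₀) (by
        have h4 := hfr x i₀ j₀
        rw [hfx] at h4
        exact h4.symm)
      have hle : Subgroup.closure {w : GL l k |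
          GeneralLinearGroup.map (iterateFrobenius k p m) w = w ∧
          ((w : Matrix l l k) - 1) * ((w : Matrix l l k) - 1) = 0 ∧
          ∃ b, (w : Matrix l l k) - 1 ∈ ZM (N b) k (twj (p := p) τ j₀)} ≤
          ((G'.comap (MonoidHom.mulSingle
            (fun _ : ι => ∀ j : Fin d, Cz Zs (twj (p := p) τ j)) i₀)).comap
            (MonoidHom.mulSingle (fun j : Fin d => Cz Zs (twj (p := p) τ j)) j₀)).map
            (Cz Zs (twj (p := p) τ j₀)).subtype := by
        rw [Subgroup.closure_le]
        rintro w ⟨hw1, hw2, b, hb⟩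
        have hwz : w ∈ Cz Zs (twj (p := p) τ j₀) := by
          intro z hz
          have h5 := ZM_comm (twj (p := p) τ j₀) (fun M hM => hN b M hM z hz) hb
          rw [Matrix.sub_mul, Matrix.mul_sub, Matrix.one_mul, Matrix.mul_one] at h5
          exact sub_left_injective h5
        refine ⟨⟨w, hwz⟩, ?_, rfl⟩
        change e.symm (Pi.mulSingle i₀ (Pi.mulSingle j₀ ⟨w, hwz⟩)) ∈ Gc
        set u := e.symm (Pi.mulSingle i₀ (Pi.mulSingle j₀ ⟨w, hwz⟩)) with hu
        have hcu : ∀ i (j : Fin d), coB B₀ ι τ i j u = if i = i₀ ∧ j = j₀ then w else 1 := by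
          intro i j
          have h5 : e u = Pi.mulSingle i₀ (Pi.mulSingle j₀ ⟨w, hwz⟩) := e.apply_symm_apply _
          have h6 : coB B₀ ι τ i j u = (e u i j : GL l k) := rfl
          rw [h6, h5]
          by_cases hi : i = i₀
          · subst hi
            rw [Pi.mulSingle_eq_same]
            by_cases hj : j = j₀
            · subst hj
              rw [Pi.mulSingle_eq_same, if_pos ⟨rfl, rfl⟩]
            · rw [Pi.mulSingle_eq_of_ne hj, if_neg fun h => hj h.2]
              rfl
          · rw [Pi.mulSingle_eq_of_ne hi, if_neg fun h => hi h.1]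
            rfl
        have hPsi : ∀ i (j : Fin d), Psi B₀ ι τ i j
            ((u : k ⊗[ZMod p] (ι → B₀)) - 1) =
            if i = i₀ ∧ j = j₀ then (w : Matrix l l k) - 1 else 0 := by
          intro i j
          rw [map_sub, map_one, Psi_unit, hcu]
          split_ifs
          · rfl
          · rw [Units.val_one, sub_self]
        refine Subgroup.subset_closure ⟨?_, ?_, b, ?_⟩
        · apply hbij.1
          funext i
          funext j
          apply Subtype.ext
          rw [hce, hce, hfr, hcu]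
          split_ifs
          · exact hw1
          · exact map_one _
        · apply c6
          intro i j
          rw [← Psi_apply, ← Psi_apply, map_mul, hPsi, map_zero]
          split_ifs
          · exact hw2
          · rw [mul_zero]
        · obtain ⟨z, hz, hz'⟩ := exists_mem B₀ ι τ hB hN b i₀ j₀ hb
          have h7 : (u : k ⊗[ZMod p] (ι → B₀)) - 1 = z := by
            apply c6
            intro i j
            rw [← Psi_apply, ← Psi_apply, hPsi, hz']
          rw [h7]
          exact hz
      obtain ⟨v, hv, hv'⟩ := hle hx1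
      have h8 : v = e x i₀ j₀ := Subtype.ext hv'
      rw [← h8]
      exact hv
    exact h3
  have h8 : e.symm (e x) ∈ Gc := hmain
  rwa [e.symm_apply_apply] at h8

end MP7Z.Orf
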