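import Pool.Agent.Lib.MP_7f581e_Z.Ort.SqO

/-!
# Orthogonal groups: generation in the form `GenP`
-/

set_option autoImplicit false

namespace MP7Z.Ort

open TensorProduct MP7fS MP7fU Matrix MP7Z.Orf

theorem GnO_bv {F k : Type} [Field F] [Field k] {s : ℕ} {o : Prop} {v : Ix (s + 1) → k}
    (hv : v ∈ Vk o (s + 1) k s) (i : Ix (s + 1)) (hi : v i ≠ 0) :
    (bv F i : Ix (s + 1) → F) ∈ Vk o (s + 1) F s := by
  have key : ∀ j, v j = 0 → bv F i j = 0 := by
    intro j hj
    rw [bv_apply, if_neg]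
    rintro rfl
    exact hi hj
  exact ⟨fun ho => key _ (hv.1 ho), fun j hj => ⟨key _ (hv.2 j hj).1, key _ (hv.2 j hj).2⟩⟩

theorem GnO_mem {F : Type} [Field F] {s : ℕ} (D : Dat F (s + 1)) (b : Bool) (k : Type)
    [Field k] (c : F →+* k) (v : Ix (s + 1) → k) (hv : v ∈ Vk D.o (s + 1) k s) :
    D.gT c (SqO_ix b) * gv (D.gT c) v ∈ ZM (D.N b) k c := by
  rw [gv, Matrix.mul_sum]
  refine Submodule.sum_mem _ fun i _ => ?_
  by_cases hi : v i = 0
  · rw [hi, zero_smul, Matrix.mul_zero]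
    exact zero_mem _
  · rw [Matrix.mul_smul]
    refine Submodule.smul_mem _ _ (Submodule.subset_span ⟨D.g (SqO_ix b) * D.g i, ?_, ?_⟩)
    · exact ⟨bv F i, GnO_bv hv i hi, by rw [gv_bv]⟩
    · exact Matrix.map_mul

theorem tGnO (hG : GenIStmt) : GnOStmt := by
  intro F _ s D k _ _ c
  refine le_trans (hG s (Lx (s + 1)) k (c D.a) (c D.b) (D.gT c) (D.PT c) D.o (D.good.map c)) ?_
  refine Subgroup.closure_mono ?_
  rintro w ⟨v, hv, hw | hw⟩
  · have h1 : (w : Matrix (Lx (s + 1)) (Lx (s + 1)) k) - 1 =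
        D.gT c (SqO_ix false) * gv (D.gT c) v := by
      rw [hw, add_sub_cancel_left]
      rfl
    refine ⟨?_, false, ?_⟩
    · rw [h1]
      exact (tSqO F s D false k c _ (GnO_mem D false k c v hv)).1
    · rw [h1]
      exact GnO_mem D false k c v hv
  · have h1 : (w : Matrix (Lx (s + 1)) (Lx (s + 1)) k) - 1 =
        D.gT c (SqO_ix true) * gv (D.gT c) v := by
      rw [hw, add_sub_cancel_left]
      rfl
    refine ⟨?_, true, ?_⟩
    · rw [h1]
      exact (tSqO F s D true k c _ (GnO_mem D true k c v hv)).1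
    · rw [h1]
      exact GnO_mem D true k c v hv

end MP7Z.Ort
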