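import Pool.Agent.Lib.MP_7f581e_Z.Ort.SpecF
import Pool.Agent.Lib.MP_7f581e_Z.Types.Evj

/-!
# Orthogonal groups: Lang's theorem for the families with parameters (`L1BStmt`)
-/

set_option autoImplicit false
set_option linter.unusedSectionVars false

namespace MP7Z.Orf

open TensorProduct MP7fS MP7fU Matrix

/-- Powers of the Frobenius on matrices. -/
theorem L1B_map {p : ℕ} [Fact p.Prime] {l : Type} [Fintype l] [DecidableEq l] {k : Type}
    [Field k] [CharP k p] (j : ℕ) (y : GL l k) :
    GeneralLinearGroup.map (iterateFrobenius k p 1)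
        (GeneralLinearGroup.map (iterateFrobenius k p j) y) =
      GeneralLinearGroup.map (iterateFrobenius k p (j + 1)) y := by
  apply Units.ext
  ext a b
  change iterateFrobenius k p 1 (iterateFrobenius k p j (y a b)) =
    iterateFrobenius k p (j + 1) (y a b)
  rw [iterateFrobenius_def, iterateFrobenius_def, iterateFrobenius_def, ← pow_mul, pow_add]

theorem L1B_map_zero {p : ℕ} [Fact p.Prime] {l : Type} [Fintype l] [DecidableEq l] {k : Type}
    [Field k] [CharP k p] (y : GL l k) :
    GeneralLinearGroup.map (iterateFrobenius k p 0) y = y := by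
  apply Units.ext
  ext a b
  change iterateFrobenius k p 0 (y a b) = y a b
  rw [iterateFrobenius_def, pow_zero, pow_one]

theorem L1B_pow {p : ℕ} [Fact p.Prime] {F : Type} [Field F] [Finite F] [Algebra (ZMod p) F]
    (c : F) : c ^ p ^ Module.finrank (ZMod p) F = c := by
  have : Fintype F := Fintype.ofFinite F
  have h1 := FiniteField.pow_card c
  have h2 : Fintype.card F = p ^ Module.finrank (ZMod p) F := by
    rw [Module.card_eq_pow_finrank (K := ZMod p), ZMod.card]
  rwa [h2] at h1

/-- The parameters are periodic. -/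
theorem L1B_per {p : ℕ} [Fact p.Prime] {F : Type} [Field F] [Finite F] [Algebra (ZMod p) F]
    {k : Type} [Field k] [CharP k p] (τ : F →+* k) :
    twj (p := p) τ (Module.finrank (ZMod p) F) = twj (p := p) τ 0 := by
  ext x
  rw [twj_apply, twj_apply, ← map_pow, L1B_pow, pow_zero, pow_one]

theorem L1B_succ {p : ℕ} [Fact p.Prime] {F : Type} [Field F] [Finite F] [Algebra (ZMod p) F]
    {k : Type} [Field k] [CharP k p] (τ : F →+* k) (j m : ℕ) :
    (iterateFrobenius k p m).comp (twj (p := p) τ j) = twj (p := p) τ (j + m) := by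
  ext x
  change iterateFrobenius k p m (twj (p := p) τ j x) = _
  rw [iterateFrobenius_def, twj_apply, twj_apply, ← pow_mul, pow_add]

/-- The cyclic system of equations. -/
theorem L1B_cyc {p : ℕ} [Fact p.Prime] {F l : Type} [Field F] [Finite F] [Algebra (ZMod p) F]
    [Fintype l] [DecidableEq l] {Zs : Set (Matrix l l F)} {S : PFam F l}
    (hS : PFunc Zs S) (hL : LangP p S) {k : Type} [Field k] [CharP k p] [IsSepClosed k]
    (τ : F →+* k) (g : ℕ → GL l k) (hg : ∀ j, g j ∈ S k (twj (p := p) τ j)) :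
    ∃ Y : ℕ → GL l k, (∀ j, Y j ∈ S k (twj (p := p) τ j)) ∧
      Y (Module.finrank (ZMod p) F) = Y 0 ∧
      ∀ j, GeneralLinearGroup.map (iterateFrobenius k p 1) (Y j) = g (j + 1) * Y (j + 1) := by
  have hfin : Module.Finite (ZMod p) F := Module.Finite.of_finite
  have hd : 0 < Module.finrank (ZMod p) F := Module.finrank_pos
  set d := Module.finrank (ZMod p) F with hdef
  set h : ℕ → GL l k := fun j => Nat.rec 1
    (fun j hj => (g (j + 1))⁻¹ * GeneralLinearGroup.map (iterateFrobenius k p 1) hj) j with hh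
  have h0 : h 0 = 1 := rfl
  have hs : ∀ j, h (j + 1) =
      (g (j + 1))⁻¹ * GeneralLinearGroup.map (iterateFrobenius k p 1) (h j) := fun _ => rfl
  have hmap : ∀ (j m : ℕ) (y : GL l k), y ∈ S k (twj (p := p) τ j) →
      GeneralLinearGroup.map (iterateFrobenius k p m) y ∈ S k (twj (p := p) τ (j + m)) := by
    intro j m y hy
    have h1 := hS.map _ _ _ (iterateFrobenius k p m) _ hy
    rwa [L1B_succ] at h1
  have hhS : ∀ j, h j ∈ S k (twj (p := p) τ j) := by
    intro j
    induction j with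
    | zero =>
      rw [h0]
      exact one_mem _
    | succ j ih =>
      rw [hs]
      exact mul_mem (inv_mem (hg _)) (hmap _ _ _ ih)
  have hhd : h d ∈ S k (twj (p := p) τ 0) := by
    have h1 := hhS d
    rwa [hdef, L1B_per] at h1
  have hfix : ∀ x, twj (p := p) τ 0 x ^ p ^ d = twj (p := p) τ 0 x := by
    intro x
    rw [← map_pow, hdef, L1B_pow]
  obtain ⟨y, hy, hy'⟩ := hL k _ d hd hfix _ (inv_mem hhd)
  refine ⟨fun j => h j * GeneralLinearGroup.map (iterateFrobenius k p j) y, ?_, ?_, ?_⟩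
  · intro j
    have h1 := hmap 0 j y hy
    rw [Nat.zero_add] at h1
    exact mul_mem (hhS j) h1
  · change h d * GeneralLinearGroup.map (iterateFrobenius k p d) y =
      h 0 * GeneralLinearGroup.map (iterateFrobenius k p 0) y
    rw [hy', h0, one_mul, L1B_map_zero, mul_inv_cancel_left]
  · intro j
    change GeneralLinearGroup.map (iterateFrobenius k p 1)
      (h j * GeneralLinearGroup.map (iterateFrobenius k p j) y) =
        g (j + 1) * (h (j + 1) * GeneralLinearGroup.map (iterateFrobenius k p (j + 1)) y)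
    rw [map_mul, L1B_map, hs, ← mul_assoc, ← mul_assoc, mul_inv_cancel, one_mul]

/-- `evj τ j` on the parameters. -/
theorem L1B_evj {p : ℕ} [Fact p.Prime] {F : Type} [Field F] [Finite F] [Algebra (ZMod p) F]
    {k : Type} [Field k] [Algebra (ZMod p) k] [CharP k p] (τ : F →+* k) (j : ℕ) :
    (evj (p := p) τ j).comp (incF (p := p) k) = twj (p := p) τ j := by
  ext x
  rw [twj_apply]
  exact (tyEvj p F k τ).2.2.1 j x

theorem tL1B (h : CoBStmt) : L1BStmt := by
  intro p _ F l _ _ _ _ _ B₀ Zs hB ι _ S hS hL k _ _ _ _ g hg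
  have hfin : Module.Finite (ZMod p) F := Module.Finite.of_finite
  have hsep : Algebra.IsSeparable (ZMod p) F :=
    Algebra.IsAlgebraic.isSeparable_of_perfectField
  set τ : F →+* k := ((IsSepClosed.lift : F →ₐ[ZMod p] k) : F →+* k)
  have hd : 0 < Module.finrank (ZMod p) F := Module.finrank_pos
  obtain ⟨c1, c2, c3, -, c5, -, c7⟩ := h p F l B₀ Zs hB ι k τ
  have hgS : ∀ (i : ι) (j : ℕ), coB B₀ ι τ i j g ∈ S k (twj (p := p) τ j) := by
    intro i j
    rw [← L1B_evj (p := p) τ j]
    exact hS.map _ _ _ (evj (p := p) τ j) _ (hg i)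
  have hY : ∀ i : ι, ∃ Y : ℕ → GL l k, (∀ j, Y j ∈ S k (twj (p := p) τ j)) ∧
      Y (Module.finrank (ZMod p) F) = Y 0 ∧
      ∀ j, GeneralLinearGroup.map (iterateFrobenius k p 1) (Y j) =
        coB B₀ ι τ i (j + 1) g * Y (j + 1) := fun i =>
    L1B_cyc (p := p) hS hL τ (fun j => coB B₀ ι τ i j g) (hgS i)
  choose Y hYS hYd hYr using hY
  obtain ⟨y, hy, -⟩ := c3 (fun i j => Y i j) (fun i j z hz => hS.cent _ _ _ (hYS i j) z hz)
  have hyH : y ∈ (GP B₀ ι S hS).H k := by
    rw [c5]
    intro i j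
    rw [hy]
    exact hYS i j
  refine ⟨y, hyH, ?_⟩
  have hyY : ∀ (i : ι) (j : ℕ), j ≤ Module.finrank (ZMod p) F → coB B₀ ι τ i j y = Y i j := by
    intro i j hj
    rcases hj.eq_or_lt with h1 | h1
    · rw [h1, hYd]
      have h2 := c1 y i 0
      rw [zero_add] at h2
      rw [h2]
      exact hy i ⟨0, hd⟩
    · exact hy i ⟨j, h1⟩
  have key : ∀ (i : ι) (j : ℕ), j < Module.finrank (ZMod p) F →
      coB B₀ ι τ i (j + 1) (fru 1 k y) = coB B₀ ι τ i (j + 1) (g * y) := by
    intro i j hj
    rw [c2, hyY i j hj.le, hYr, map_mul, hyY i (j + 1) hj]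
  refine (c3 (fun i j => coB B₀ ι τ i j (g * y))
    (fun i j z hz => c7 (g * y) i j z hz)).unique ?_ (fun _ _ => rfl)
  rintro i ⟨j, hj⟩
  change coB B₀ ι τ i j (fru 1 k y) = coB B₀ ι τ i j (g * y)
  rcases j with _ | j
  · have h2 := c1 (fru 1 k y) i 0
    have h3 := c1 (g * y) i 0
    rw [zero_add] at h2 h3
    rw [← h2, ← h3]
    obtain ⟨d, hd'⟩ := Nat.exists_eq_succ_of_ne_zero hd.ne'
    have h4 := key i d (by omega)
    rw [hd']
    exact h4
  · exact key i j (by omega)

end MP7Z.Orf
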