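import Pool.Agent.Lib.MP_7f581e_Z.Ort.SpecF

/-! # Orthogonal groups: Lang's theorem for the powers of the Frobenius (`LMBStmt`) -/

set_option autoImplicit false

namespace MP7Z.Orf

open TensorProduct MP7fS MP7fU Matrix

theorem LMB_twj {p : ℕ} [Fact p.Prime] {F : Type} [Field F] [Finite F] [Algebra (ZMod p) F]
    {k : Type} [Field k] [CharP k p] (τ : F →+* k) (j m : ℕ) (hd : Module.finrank (ZMod p) F ∣ m)
    (x : F) : twj (p := p) τ j x ^ p ^ m = twj (p := p) τ j x := by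
  have : Fintype F := Fintype.ofFinite F
  have h0 : ∀ c : F, c ^ p ^ Module.finrank (ZMod p) F = c := by
    intro c
    have h1 := FiniteField.pow_card c
    have h2 : Fintype.card F = p ^ Module.finrank (ZMod p) F := by
      rw [Module.card_eq_pow_finrank (K := ZMod p), ZMod.card]
    rwa [h2] at h1
  obtain ⟨t, rfl⟩ := hd
  have h3 : ∀ c : F, c ^ p ^ (Module.finrank (ZMod p) F * t) = c := by
    intro c
    induction t with
    | zero => rw [Nat.mul_zero, pow_zero, pow_one]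
    | succ t ih => rw [Nat.mul_succ, pow_add, pow_mul, ih, h0]
  rw [twj_apply, ← pow_mul, mul_comm (p ^ j), pow_mul, ← map_pow, h3]

theorem tLMB (h : CoBStmt) : LMBStmt := by
  intro p _ F l _ _ _ _ _ B₀ Zs hB ι _ S hS hL k _ _ _ _ _ m hm hdm c hc
  obtain ⟨τ⟩ : Nonempty (F →ₐ[ZMod p] k) := by
    have : Algebra.IsAlgebraic (ZMod p) F := Algebra.IsAlgebraic.of_finite (ZMod p) F
    exact ⟨IsAlgClosed.lift⟩
  obtain ⟨c1, c2, c3, c4, c5, c6, c7⟩ := h p F l B₀ Zs hB ι k (τ : F →+* k)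
  have hper : ∀ (u : (k ⊗[ZMod p] (ι → B₀))ˣ) (i : ι) (j t : ℕ),
      coB B₀ ι (τ : F →+* k) i (j + Module.finrank (ZMod p) F * t) u =
        coB B₀ ι (τ : F →+* k) i j u := by
    intro u i j t
    induction t with
    | zero => rw [Nat.mul_zero, Nat.add_zero]
    | succ t ih =>
      rw [Nat.mul_succ, ← Nat.add_assoc, c1, ih]
  have hc' : cstu k c ∈ (GP B₀ ι S hS).H k := by
    have h1 := (GP B₀ ι S hS).map (ZMod p) k (algebraMap (ZMod p) k) _ hc
    have h2 : tu (p := p) (algebraMap (ZMod p) k) (RingHom.id (ι → B₀))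
        (cstu (ZMod p) c) = cstu k c := by
      apply Units.ext
      change (algebraMap (ZMod p) k 1) ⊗ₜ[ZMod p] (c : ι → B₀) =
        (1 : k) ⊗ₜ[ZMod p] (c : ι → B₀)
      rw [map_one]
    rw [h2] at h1
    exact h1
  have hex : ∀ (i : ι) (j : Fin (Module.finrank (ZMod p) F)), ∃ x ∈ S k (twj (p := p) (τ : F →+* k) j),
      GeneralLinearGroup.map (iterateFrobenius k p m) x =
        (coB B₀ ι (τ : F →+* k) i j (cstu k c))⁻¹ * x := fun i j =>
    hL k _ m hm (LMB_twj (p := p) _ _ _ hdm) _ (inv_mem ((c5 S hS _).1 hc' i j))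
  choose x hxS hx using hex
  obtain ⟨y, hy, -⟩ := c3 (fun i j => (x i j)⁻¹)
    (fun i j z hz => hS.cent _ _ _ (inv_mem (hxS i j)) z hz)
  refine ⟨y, ?_, ?_⟩
  · refine (c5 S hS y).2 fun i j => ?_
    rw [hy i j]
    exact inv_mem (hxS i j)
  · refine (c3 (fun i j => coB B₀ ι (τ : F →+* k) i j (fru m k y))
      (fun i j z hz => c7 _ _ _ z hz)).unique (fun i j => rfl) ?_
    intro i j
    obtain ⟨t, ht⟩ := hdm
    have h1 : coB B₀ ι (τ : F →+* k) i (j : ℕ) (fru m k y) =
        GeneralLinearGroup.map (iterateFrobenius k p m) (coB B₀ ι (τ : F →+* k) i j y) := by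
      rw [← c2 y i j m, ht, hper]
    rw [h1, hy i j, map_mul, hy i j, map_inv, hx i j, _root_.mul_inv_rev, inv_inv]

end MP7Z.Orf
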