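import Pool.Agent.Lib.MP_7f581e_Z.Ort.SpecF

/-!
# Orthogonal groups: the Lang groups of a type with parameters (`LgBStmt`)
-/

set_option autoImplicit false

namespace MP7Z.Orf

open TensorProduct MP7fS MP7fU Matrix

theorem tLgB (h1 : PtBStmt) (h2 : L1BStmt) (h3 : LMBStmt) (h4 : GnBStmt) (h5 : StBStmt)
    (h6 : PrBStmt) : LgBStmt := by
  intro p _ F l _ _ _ _ _ B₀ Zs hB S hS N D hN hLang hGen hSq hD H A _ _ inc r DA hinc hr κ _
  refine ⟨GP B₀ κ S hS, ?_, h2 p F l B₀ Zs hB κ S hS hLang, ?_⟩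
  · intro b
    rw [h1 p F l B₀ Zs κ S hS b]
    refine forall_congr' fun k => ?_
    exact (hinc ((b : κ → B₀) k)).symm
  · intro Q _ _ ρ hρ
    have hform : ∀ q, FormP B₀ κ D (ρ q) := by
      intro q
      obtain ⟨π, x, hx, h⟩ := hρ q
      choose d hd hd' using fun k => hr (x k) (hx k)
      refine ⟨π, d, hd, ?_⟩
      intro z k
      rw [h]
      exact hd' k (z k)
    obtain ⟨h7, h8⟩ := h5 p F l B₀ Zs κ S hS N D hD Q ρ hform
    exact ⟨h7, Module.finrank (ZMod p) F, Bool, ZB B₀ κ N, Module.finrank_pos,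
      h3 p F l B₀ Zs hB κ S hS hLang, h4 p F l B₀ Zs hB κ S hS N hN hGen, h8,
      fun b => h6 p F l B₀ Zs hB κ S hS N b (hSq b) Q ρ⟩

end MP7Z.Orf
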