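import Pool.Agent.Lib.MP_7f581e_Z.Ort.SpecC

/-!
# Orthogonal groups: Lang's theorem in the form `LangP` (`LngOStmt`)
-/

set_option autoImplicit false

namespace MP7Z.Ort

open TensorProduct MP7fS MP7fU Matrix MP7Z.Orf

theorem tLngO (h : LangIStmt) : LngOStmt := by
  intro p _ F _ s D hs k _ _ _ c m hm hc u hu
  have hc' : ∀ x, iterateFrobenius k p m (c x) = c x := fun x => by
    rw [iterateFrobenius_def, hc]
  refine h p s (Lx s) k (c D.a) (c D.b) (D.gT c) (D.PT c) D.o (D.good.map c) hs m hm (hc _) (hc _)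
    ?_ ?_ u hu
  · intro i
    ext x y
    exact hc' _
  · apply Units.ext
    ext x y
    exact hc' _

end MP7Z.Ort
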