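import Pool.Agent.Lib.MP_7f581e_Z.Ort.SpecC

/-!
# Orthogonal groups: vectors with product zero are proportional (`PrOStmt`)
-/

set_option autoImplicit false

namespace MP7Z.Ort

open TensorProduct MP7fS MP7fU Matrix MP7Z.Orf

theorem tPrO : PrOStmt := by
  intro s l _ _ K _ a b g P o h v w hv hw hvw
  obtain ⟨u, hu⟩ : ∃ u, bf a b w u ≠ 0 := by
    by_contra hcon
    push Not at hcon
    exact hw (nondeg h.disc hcon)
  have hF := h.frame
  have h1 : gv g w * gv g u + gv g u * gv g w = bf a b w u • (1 : Matrix l l K) := hF.gv_anti w u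
  have h2 : gv g v * gv g u = bf a b v u • 1 - gv g u * gv g v :=
    eq_sub_of_add_eq (hF.gv_anti v u)
  have h3 : bf a b w u • gv g v = bf a b v u • gv g w := by
    calc bf a b w u • gv g v = gv g v * (bf a b w u • (1 : Matrix l l K)) := by
          rw [Matrix.mul_smul, Matrix.mul_one]
      _ = gv g v * gv g w * gv g u + gv g v * gv g u * gv g w := by
          rw [← h1, Matrix.mul_add, Matrix.mul_assoc, Matrix.mul_assoc]
      _ = bf a b v u • gv g w := by
          rw [hvw, Matrix.zero_mul, zero_add, h2, Matrix.sub_mul, Matrix.smul_mul, Matrix.one_mul,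
            Matrix.mul_assoc, hvw, Matrix.mul_zero, sub_zero]
  have h4 : v = ((bf a b w u)⁻¹ * bf a b v u) • w := by
    apply h.gv_inj
    rw [gv_smul, mul_smul, ← h3, inv_smul_smul₀ hu]
  refine ⟨(bf a b w u)⁻¹ * bf a b v u, ?_, h4⟩
  intro h5
  apply hv
  rw [h4, h5, zero_smul]

end MP7Z.Ort
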