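import Pool.Agent.Lib.MP_7f581e_Z.Ort.SpecC

/-!
# Orthogonal groups: the elements `1 + e v`, `1 + f v`
-/

set_option autoImplicit false

namespace MP7Z.Ort

open TensorProduct MP7fS MP7fU Matrix MP7Z.Orf

/-- The index of `e` or `f`. -/
abbrev SqO_ix {s : ℕ} (b : Bool) : Ix (s + 1) := if b then jf (Fin.last s) else ie (Fin.last s)

theorem SqO_mem {F : Type} [Field F] {s : ℕ} (D : Dat F (s + 1)) (b : Bool) (T : Type)
    [CommRing T] (c : F →+* T) (z : Matrix (Lx (s + 1)) (Lx (s + 1)) T)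
    (hz : z ∈ ZM (D.N b) T c) : ∃ v ∈ Vk D.o (s + 1) T s,
      z = D.gT c (SqO_ix b) * gv (D.gT c) v := by
  induction hz using Submodule.span_induction with
  | mem x hx =>
    obtain ⟨M, ⟨v, hv, rfl⟩, rfl⟩ := hx
    refine ⟨fun i => c (v i), ⟨fun ho => ?_, fun i hi => ⟨?_, ?_⟩⟩, ?_⟩
    · change c (v (iw 0)) = 0
      rw [hv.1 ho, map_zero]
    · change c (v (ie i)) = 0
      rw [(hv.2 i hi).1, map_zero]
    · change c (v (jf i)) = 0
      rw [(hv.2 i hi).2, map_zero]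
    · change (D.g (SqO_ix b) * gv D.g v).map c = _
      rw [Matrix.map_mul]
      congr 1
      exact (gv_mat c D.g v).symm
  | zero => exact ⟨0, zero_mem _, by rw [gv_zero, Matrix.mul_zero]⟩
  | add x y _ _ hx hy =>
    obtain ⟨v, hv, rfl⟩ := hx
    obtain ⟨w, hw, rfl⟩ := hy
    exact ⟨v + w, add_mem hv hw, by rw [gv_add, Matrix.mul_add]⟩
  | smul r x _ hx =>
    obtain ⟨v, hv, rfl⟩ := hx
    exact ⟨r • v, Submodule.smul_mem _ _ hv, by rw [gv_smul, Matrix.mul_smul]⟩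

theorem tSqO : SqOStmt := by
  intro F _ s D b T _ c z hz
  obtain ⟨v, hv, rfl⟩ := SqO_mem D b T c z hz
  have hG : Good (c D.a) (c D.b) (D.gT c) (D.PT c) D.o := D.good.map c
  have h1 : qf (c D.a) (c D.b) (bv T (SqO_ix b) : Ix (s + 1) → T) = 0 := by
    cases b
    · exact qf_ie _ _ _
    · exact qf_jf _ _ _
  have h2 : bf (c D.a) (c D.b) (bv T (SqO_ix b)) v = 0 := by
    rw [bf_comm]
    cases b
    · exact (bf_ie _ _ v (Fin.last s)).trans (hv.2 (Fin.last s) (le_of_eq rfl)).2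
    · exact (bf_jf _ _ v (Fin.last s)).trans (hv.2 (Fin.last s) (le_of_eq rfl)).1
  have h3 : gv (D.gT c) (bv T (SqO_ix b)) = D.gT c (SqO_ix b) := gv_bv _ _
  constructor
  · have h4 := hG.frame.gv_anti v (bv T (SqO_ix b))
    rw [bf_comm, h2, zero_smul, h3] at h4
    have h5 : gv (D.gT c) v * D.gT c (SqO_ix b) = -(D.gT c (SqO_ix b) * gv (D.gT c) v) :=
      eq_neg_of_add_eq_zero_left h4
    have h6 : D.gT c (SqO_ix b) * D.gT c (SqO_ix b) = 0 := by
      rw [← h3, hG.frame.gv_sq, h1, zero_smul]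
    rw [Matrix.mul_assoc, ← Matrix.mul_assoc (gv (D.gT c) v), h5, Matrix.neg_mul, Matrix.mul_neg,
      Matrix.mul_assoc, ← Matrix.mul_assoc (D.gT c (SqO_ix b)), h6, Matrix.zero_mul, neg_zero]
  · intro u hu
    refine hG.siegel h1 h2 (fun ho => ⟨?_, hv.1 ho⟩) ?_
    · rw [bv_apply, if_neg]
      intro h
      cases b
      · exact Sum.inr_ne_inl h
      · exact Sum.inr_ne_inl h
    · rw [h3]
      exact hu

end MP7Z.Ort
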