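import Pool.Agent.Lib.MP_7f581e_Z.Ort.SpecF

/-!
# Orthogonal groups, the functor: stability
-/

set_option autoImplicit false

namespace MP7Z.Orf

open TensorProduct MP7fS MP7fU Matrix

theorem StB_spc {F l : Type} [Field F] [Fintype l] [DecidableEq l] {N : Set (Matrix l l F)}
    (t : GL l F) (σ : F ≃+* F) (h : ∀ M ∈ N, (t : Matrix l l F) * M.map σ *
      ((t⁻¹ : GL l F) : Matrix l l F) ∈ Submodule.span F N) (M : Matrix l l F)
    (hM : M ∈ Submodule.span F N) : (t : Matrix l l F) * M.map σ *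
      ((t⁻¹ : GL l F) : Matrix l l F) ∈ Submodule.span F N := by
  induction hM using Submodule.span_induction with
  | mem M hM => exact h M hM
  | zero =>
    rw [Matrix.map_zero _ (map_zero _), Matrix.mul_zero, Matrix.zero_mul]
    exact zero_mem _
  | add x y _ _ hx hy =>
    rw [Matrix.map_add _ (map_add _), Matrix.mul_add, Matrix.add_mul]
    exact add_mem hx hy
  | smul c x _ hx =>
    have h1 : (c • x).map σ = σ c • x.map σ := by
      ext a b
      exact map_mul σ _ _
    rw [h1, Matrix.mul_smul, Matrix.smul_mul]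
    exact Submodule.smul_mem _ _ hx

theorem tStB (h : FTBStmt) : StBStmt := by
  intro p _ F l _ _ _ _ _ B₀ Zs ι _ S hS N D hD Q _ ρ hρ
  refine ⟨?_, ?_⟩
  · intro R _ _ q x hx i0
    obtain ⟨π, d, hd, hform⟩ := hρ q
    obtain ⟨i, rfl⟩ := π.surjective i0
    have h1 := h p F l B₀ ι (ρ q) π d hform R R (RingHom.id R)
      (x : R ⊗[ZMod p] (ι → B₀)) i
    have hv : GeneralLinearGroup.map (tmap (p := p) (RingHom.id R) ((d i).2 : F →+* F))
        (cB B₀ ι R i x) ∈ S (R ⊗[ZMod p] F) ((incF (p := p) R).comp ((d i).2 : F →+* F)) := by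
      have h3 : (incF (p := p) R).comp ((d i).2 : F →+* F) =
          (tmap (p := p) (RingHom.id R) ((d i).2 : F →+* F)).comp (incF R) := by
        ext c
        rfl
      rw [h3]
      exact hS.map _ _ _ _ _ (hx i)
    have h2 : cB B₀ ι R (π i) (tu (RingHom.id R) (ρ q : _ →+* _) x) =
        GeneralLinearGroup.map (incF (p := p) R) (d i).1 *
        GeneralLinearGroup.map (tmap (p := p) (RingHom.id R) ((d i).2 : F →+* F))
          (cB B₀ ι R i x) *
        (GeneralLinearGroup.map (incF (p := p) R) (d i).1)⁻¹ := by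
      rw [← map_inv]
      apply Units.ext
      exact h1
    rw [h2]
    exact hD.grp (d i) (hd i) _ _ _ hv
  · intro b q z hz
    obtain ⟨π, d, hd, hform⟩ := hρ q
    rw [mem_ZB] at hz ⊢
    intro i0
    obtain ⟨i, rfl⟩ := π.surjective i0
    rw [hform z i]
    exact StB_spc (d i).1 (d i).2 (fun M hM => hD.spc (d i) (hd i) b M hM) _ (hz i)

end MP7Z.Orf
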