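import Pool.Agent.Lib.MP_7f581e_Z.Ort.SpecC

/-!
# Orthogonal groups: the standard elements
-/

set_option autoImplicit false

namespace MP7Z.Ort

open TensorProduct MP7fS MP7fU Matrix MP7Z.Orf

section

variable {F : Type} [Field F] {s : ℕ} {D : Dat F s}

theorem StO_qf {σ : F ≃+* F} {μ : F} {g : (Ix s → F) → (Ix s → F)} (h : D.IsSemi σ μ g)
    {v : Ix s → F} (hv : v ∈ D.V) : qf D.a D.b (g v) = μ * σ (qf D.a D.b v) := h.qf v hv

theorem StO_bf {σ : F ≃+* F} {μ : F} {g : (Ix s → F) → (Ix s → F)} (h : D.IsSemi σ μ g)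
    {v w : Ix s → F} (hv : v ∈ D.V) (hw : w ∈ D.V) :
    bf D.a D.b (g v) (g w) = μ * σ (bf D.a D.b v w) := by
  have h1 := qf_add D.a D.b (g v) (g w)
  have h2 := qf_add D.a D.b v w
  have h3 := h.qf (v + w) (add_mem hv hw)
  have h4 := h.qf v hv
  have h5 := h.qf w hw
  change qf D.a D.b (g (v + w)) = μ * σ (qf D.a D.b (v + w)) at h3
  change qf D.a D.b (g v) = μ * σ (qf D.a D.b v) at h4
  change qf D.a D.b (g w) = μ * σ (qf D.a D.b w) at h5
  change bf D.a D.b (g v) (g w) = μ * σ (bf D.a D.b v w)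
  rw [h.add v hv w hw, h1, h2, h4, h5, map_add, map_add] at h3
  linear_combination h3

theorem StO_ne {σ : F ≃+* F} {μ : F} {g : (Ix s → F) → (Ix s → F)} (h : D.IsSemi σ μ g)
    {v : Ix s → F} (hv : v ∈ D.V) (hv0 : v ≠ 0) : g v ≠ 0 := by
  intro h0
  apply hv0
  refine D.good.nondeg_Vo hv fun w hw => ?_
  have h1 := StO_bf h hv hw
  rw [h0] at h1
  rw [bf_zero_left] at h1
  exact (map_eq_zero σ).1 ((mul_eq_zero.1 h1.symm).resolve_left h.ne)

theorem StO_smul (c : F) (v : Ix s → F) : D.γ (c • v) = c • D.γ v := gv_smul _ _ _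

theorem StO_sub (v w : Ix s → F) : D.γ (v - w) = D.γ v - D.γ w := gv_sub _ _ _

theorem StO_bvV {i : Ix s} (hi : i ≠ iw 0) : (bv F i : Ix s → F) ∈ D.V := by
  intro _
  rw [bv_apply, if_neg (fun h => hi h.symm)]

end

section

variable {F : Type} [Field F] {s : ℕ} {D : Dat F (s + 1)}

/-- The vectors `e'` and `f'` are multiples of `e` and `f`. -/
theorem StO_ef (hPr : PrOStmt) {e f e' f' : Ix (s + 1) → F} {μ : F} (hμ : μ ≠ 0)
    (he : qf D.a D.b e = 0) (hf : qf D.a D.b f = 0) (he' : qf D.a D.b e' = 0)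
    (hf' : qf D.a D.b f' = 0) (hef : bf D.a D.b e' f' = μ)
    (he0 : e ≠ 0) (hf0 : f ≠ 0) (he0' : e' ≠ 0) (hf0' : f' ≠ 0)
    (hx : D.γ e * D.γ f = μ⁻¹ • (D.γ e' * D.γ f')) :
    (∃ c : F, c ≠ 0 ∧ e' = c • e) ∧ ∃ c : F, c ≠ 0 ∧ f' = c • f := by
  have hF := D.good.frame
  have hx' : D.γ e' * D.γ f' = μ • (D.γ e * D.γ f) := by
    rw [hx, smul_smul, mul_inv_cancel₀ hμ, one_smul]
  have hee : D.γ e * D.γ e = 0 := by rw [hF.gv_sq, he, zero_smul]
  have hff : D.γ f * D.γ f = 0 := by rw [hF.gv_sq, hf, zero_smul]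
  have hee' : D.γ e' * D.γ e' = 0 := by rw [hF.gv_sq, he', zero_smul]
  have hff' : D.γ f' * D.γ f' = 0 := by rw [hF.gv_sq, hf', zero_smul]
  have hfe' : D.γ f' * D.γ e' = μ • 1 - D.γ e' * D.γ f' := by
    have h1 := hF.gv_anti e' f'
    rw [hef] at h1
    exact eq_sub_of_add_eq' h1
  constructor
  · have h1 : D.γ e * (D.γ e' * D.γ f') = 0 := by
      rw [hx', Matrix.mul_smul, ← Matrix.mul_assoc, hee, Matrix.zero_mul, smul_zero]
    have h2 : D.γ e * D.γ e' * (D.γ f' * D.γ e') = 0 := by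
      rw [← Matrix.mul_assoc, Matrix.mul_assoc (D.γ e), h1, Matrix.zero_mul]
    rw [hfe', Matrix.mul_sub, Matrix.mul_smul, Matrix.mul_one, Matrix.mul_assoc (D.γ e),
      ← Matrix.mul_assoc (D.γ e') (D.γ e'), hee', Matrix.zero_mul, Matrix.mul_zero, sub_zero] at h2
    have h3 : D.γ e * D.γ e' = 0 := (smul_eq_zero.1 h2).resolve_left hμ
    obtain ⟨c, hc, h4⟩ := hPr _ _ _ _ _ _ _ _ D.good e e' he0 he0' h3
    exact ⟨c⁻¹, inv_ne_zero hc, by rw [h4, smul_smul, inv_mul_cancel₀ hc, one_smul]⟩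
  · have h1 : D.γ e' * D.γ f' * D.γ f = 0 := by
      rw [hx', Matrix.smul_mul, Matrix.mul_assoc, hff, Matrix.mul_zero, smul_zero]
    have h2 : D.γ f' * D.γ e' * (D.γ f' * D.γ f) = 0 := by
      rw [Matrix.mul_assoc, ← Matrix.mul_assoc (D.γ e'), h1, Matrix.mul_zero]
    rw [hfe', Matrix.sub_mul, Matrix.smul_mul, Matrix.one_mul, Matrix.mul_assoc (D.γ e'),
      ← Matrix.mul_assoc (D.γ f') (D.γ f'), hff', Matrix.zero_mul, Matrix.mul_zero, sub_zero] at h2
    have h3 : D.γ f' * D.γ f = 0 := (smul_eq_zero.1 h2).resolve_left hμ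
    exact hPr _ _ _ _ _ _ _ _ D.good f' f hf0' hf0 h3

end

theorem tStO (hE : ExtIStmt) (hPr : PrOStmt) : StOStmt := by
  intro p _ F _ _ _ s D x hx
  obtain ⟨⟨σ, μ, g, hS, hI⟩, -⟩ := x.2
  obtain ⟨t, ht, htS⟩ := hE p F (s + 1) D x.1 σ μ g (Nat.le_add_left 1 s) hS hI
  refine ⟨(t, σ), ⟨htS, ?_⟩, ht⟩
  have hF := D.good.frame
  set e : Ix (s + 1) → F := bv F (ie (Fin.last s)) with he
  set f : Ix (s + 1) → F := bv F (jf (Fin.last s)) with hf
  have heV : e ∈ D.V := StO_bvV (by simp)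
  have hfV : f ∈ D.V := StO_bvV (by simp)
  have hge : D.γ e = D.g (ie (Fin.last s)) := gv_bv _ _
  have hgf : D.γ f = D.g (jf (Fin.last s)) := gv_bv _ _
  have hQe : qf D.a D.b e = 0 := qf_ie _ _ _
  have hQf : qf D.a D.b f = 0 := qf_jf _ _ _
  have hne : ∀ i : Ix (s + 1), bv F i ≠ 0 := by
    intro i h
    have h1 := congrFun h i
    rw [bv_apply, if_pos rfl] at h1
    exact one_ne_zero h1
  have hef : bf D.a D.b e f = 1 := by
    change bf D.a D.b (bv F (ie (Fin.last s))) (bv F (jf (Fin.last s))) = 1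
    rw [bf_jf, bv_apply, if_pos rfl]
  have hx1 : D.γ e * D.γ f = μ⁻¹ • (D.γ (g e) * D.γ (g f)) := by
    have h1 := hI.2 e heV f hfV (D.id_ef p (Fin.last s)) (by rw [hge, hgf]; rfl)
    have h2 : x.1 (D.id_ef p (Fin.last s)) = D.id_ef p (Fin.last s) := hx (Fin.last s)
    rw [h2] at h1
    rw [← h1, hge, hgf]
    rfl
  obtain ⟨⟨c, hc, hgc⟩, c', hc', hgc'⟩ := StO_ef hPr hS.ne hQe hQf
    (by rw [StO_qf hS heV, hQe, map_zero, mul_zero]) (by rw [StO_qf hS hfV, hQf, map_zero, mul_zero])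
    (by rw [StO_bf hS heV hfV, hef, map_one, mul_one]) (hne _) (hne _)
    (StO_ne hS heV (hne _)) (StO_ne hS hfV (hne _)) hx1
  have hconj : ∀ v ∈ D.V, ∀ w ∈ D.V, (t : Matrix (Lx (s + 1)) (Lx (s + 1)) F) *
      (D.γ v * D.γ w).map σ * ((t⁻¹ : GL (Lx (s + 1)) F) : Matrix (Lx (s + 1)) (Lx (s + 1)) F) =
      μ⁻¹ • (D.γ (g v) * D.γ (g w)) := by
    intro v hv w hw
    rw [← hI.2 v hv w hw ⟨D.γ v * D.γ w, D.gg_mem p hv hw⟩ rfl]
    exact (ht ⟨D.γ v * D.γ w, D.gg_mem p hv hw⟩).symm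
  intro b M hM
  obtain ⟨v, hv, rfl⟩ := hM
  have hvV : v ∈ D.V := hv.1
  have hlast : ∀ i : Fin (s + 1), s ≤ i.val → i = Fin.last s := fun i hi =>
    Fin.ext (le_antisymm (Nat.lt_succ_iff.1 i.2) hi)
  cases b
  · have hM : D.g (if false = true then jf (Fin.last s) else ie (Fin.last s)) * gv D.g v =
        D.γ e * D.γ v := by rw [hge]; rfl
    rw [hM]
    change (t : Matrix (Lx (s + 1)) (Lx (s + 1)) F) * (D.γ e * D.γ v).map σ * _ ∈ _
    rw [hconj e heV v hvV, hgc, StO_smul, Matrix.smul_mul, smul_smul]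
    have h1 : bf D.a D.b (g e) (g v) = 0 := by
      rw [StO_bf hS heV hvV]
      have h2 : bf D.a D.b e v = 0 := by
        change bf D.a D.b (bv F (ie (Fin.last s))) v = 0
        rw [bf_comm, bf_ie]
        exact (hv.2 (Fin.last s) le_rfl).2
      rw [h2, map_zero, mul_zero]
    have h3 : g v (jf (Fin.last s)) = 0 := by
      rw [hgc] at h1
      change bf D.a D.b (c • bv F (ie (Fin.last s))) (g v) = 0 at h1
      rw [bf_smul_left, bf_comm, bf_ie] at h1
      exact (mul_eq_zero.1 h1).resolve_left hc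
    have h4 : D.γ e * D.γ (g v) = D.γ e * D.γ (g v - g v (ie (Fin.last s)) • e) := by
      rw [StO_sub, StO_smul, Matrix.mul_sub, Matrix.mul_smul]
      have hee : D.γ e * D.γ e = 0 := by rw [hF.gv_sq, hQe, zero_smul]
      rw [hee, smul_zero, sub_zero]
    rw [h4]
    refine Submodule.smul_mem _ _ (Submodule.subset_span
      ⟨g v - g v (ie (Fin.last s)) • e, ⟨fun ho => ?_, fun i hi => ?_⟩, ?_⟩)
    · have h5 := hS.mem v hvV ho
      rw [Pi.sub_apply, Pi.smul_apply, h5, heV ho, smul_zero, sub_zero]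
    · rw [hlast i hi]
      constructor
      · rw [Pi.sub_apply, Pi.smul_apply, he, bv_apply, if_pos rfl, smul_eq_mul, mul_one, sub_self]
      · rw [Pi.sub_apply, Pi.smul_apply, h3, he, bv_apply, if_neg (by simp), smul_zero, sub_zero]
    · rw [hge]
      rfl
  · have hM : D.g (if true = true then jf (Fin.last s) else ie (Fin.last s)) * gv D.g v =
        D.γ f * D.γ v := by rw [hgf]; rfl
    rw [hM]
    change (t : Matrix (Lx (s + 1)) (Lx (s + 1)) F) * (D.γ f * D.γ v).map σ * _ ∈ _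
    rw [hconj f hfV v hvV, hgc', StO_smul, Matrix.smul_mul, smul_smul]
    have h1 : bf D.a D.b (g f) (g v) = 0 := by
      rw [StO_bf hS hfV hvV]
      have h2 : bf D.a D.b f v = 0 := by
        change bf D.a D.b (bv F (jf (Fin.last s))) v = 0
        rw [bf_comm, bf_jf]
        exact (hv.2 (Fin.last s) le_rfl).1
      rw [h2, map_zero, mul_zero]
    have h3 : g v (ie (Fin.last s)) = 0 := by
      rw [hgc'] at h1
      change bf D.a D.b (c' • bv F (jf (Fin.last s))) (g v) = 0 at h1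
      rw [bf_smul_left, bf_comm, bf_jf] at h1
      exact (mul_eq_zero.1 h1).resolve_left hc'
    have h4 : D.γ f * D.γ (g v) = D.γ f * D.γ (g v - g v (jf (Fin.last s)) • f) := by
      rw [StO_sub, StO_smul, Matrix.mul_sub, Matrix.mul_smul]
      have hff : D.γ f * D.γ f = 0 := by rw [hF.gv_sq, hQf, zero_smul]
      rw [hff, smul_zero, sub_zero]
    rw [h4]
    refine Submodule.smul_mem _ _ (Submodule.subset_span
      ⟨g v - g v (jf (Fin.last s)) • f, ⟨fun ho => ?_, fun i hi => ?_⟩, ?_⟩)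
    · have h5 := hS.mem v hvV ho
      rw [Pi.sub_apply, Pi.smul_apply, h5, hfV ho, smul_zero, sub_zero]
    · rw [hlast i hi]
      constructor
      · rw [Pi.sub_apply, Pi.smul_apply, h3, hf, bv_apply, if_neg (by simp), smul_zero, sub_zero]
      · rw [Pi.sub_apply, Pi.smul_apply, hf, bv_apply, if_pos rfl, smul_eq_mul, mul_one, sub_self]
    · rw [hgf]
      rfl

end MP7Z.Ort
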