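import Pool.Agent.Lib.MP_7f581e_Z.Ort.SpecF
import Pool.Agent.Lib.MP_7f581e_Z.Types.THb

/-!
# Orthogonal groups, the functor: the components of `R ⊗ (ι → B₀)`
-/

set_option autoImplicit false
set_option linter.unusedSectionVars false

namespace MP7Z.Orf

open TensorProduct MP7fS MP7fU Matrix

section

variable {p : ℕ} [Fact p.Prime] {F l : Type} [Field F] [Finite F] [Fintype l] [DecidableEq l]
  [Algebra (ZMod p) F] (B₀ : Subalgebra (ZMod p) (Matrix l l F)) (Zs : Set (Matrix l l F))
  (ι : Type)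

/-- The inclusion as a linear map. -/
def TBb_i : (ι → B₀) →ₗ[ZMod p] (ι → Matrix l l F) := (inB B₀ ι).toLinearMap

/-- The commutators with the elements of `Zs`. -/
def TBb_c : (ι → Matrix l l F) →ₗ[ZMod p] (ι × Zs → Matrix l l F) where
  toFun x := fun q => x q.1 * (q.2 : Matrix l l F) - (q.2 : Matrix l l F) * x q.1
  map_add' x y := by
    funext q
    simp only [Pi.add_apply, Matrix.add_mul, Matrix.mul_add]
    abel
  map_smul' c x := by
    funext q
    simp only [Pi.smul_apply, Matrix.smul_mul, Matrix.mul_smul, RingHom.id_apply, smul_sub]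

theorem TBb_exact (hB : IsCen B₀ Zs) :
    Function.Exact (TBb_i B₀ ι) (TBb_c (p := p) Zs ι) := by
  intro x
  constructor
  · intro h
    refine ⟨fun i => ⟨x i, (hB _).2 fun z hz => ?_⟩, rfl⟩
    exact sub_eq_zero.1 (congrFun h (i, ⟨z, hz⟩))
  · rintro ⟨y, rfl⟩
    funext q
    exact sub_eq_zero.2 ((hB _).1 (y q.1).2 _ q.2.2)

theorem TBb_TH [Finite ι] (R : Type) [CommRing R] [Algebra (ZMod p) R]
    (x : R ⊗[ZMod p] (ι → Matrix l l F)) (q : ι × Zs) :
    TH (p := p) R ((TBb_c (p := p) Zs ι).lTensor R x) q =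
      TH (p := p) R x q.1 * (q.2 : Matrix l l F).map (incF (p := p) R) -
        (q.2 : Matrix l l F).map (incF (p := p) R) * TH (p := p) R x q.1 := by
  induction x using TensorProduct.induction_on with
  | zero =>
    rw [map_zero, map_zero, map_zero, Pi.zero_apply, Pi.zero_apply, Matrix.zero_mul,
      Matrix.mul_zero, sub_zero]
  | add x y hx hy =>
    rw [map_add, map_add, map_add, Pi.add_apply, Pi.add_apply, hx, hy, Matrix.add_mul,
      Matrix.mul_add]
    abel
  | tmul r z =>
    rw [LinearMap.lTensor_tmul, TH_tmul, TH_tmul]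
    have h1 : ∀ M : Matrix l l F, M.map (fun c => r ⊗ₜ[ZMod p] c) =
        r • M.map (incF (p := p) R) := by
      intro M
      ext a b
      change r ⊗ₜ[ZMod p] (M a b) = r • ((1 : R) ⊗ₜ[ZMod p] (M a b))
      rw [smul_tmul', smul_eq_mul, mul_one]
    change (z q.1 * (q.2 : Matrix l l F) - (q.2 : Matrix l l F) * z q.1).map
      (fun c => r ⊗ₜ[ZMod p] c) = (z q.1).map (fun c => r ⊗ₜ[ZMod p] c) * _ -
        _ * (z q.1).map (fun c => r ⊗ₜ[ZMod p] c)
    rw [h1, h1, Matrix.map_sub _ (map_sub _), Matrix.map_mul, Matrix.map_mul, Matrix.smul_mul,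
      Matrix.mul_smul, smul_sub]

theorem TBb_inR (R : Type) [CommRing R] [Algebra (ZMod p) R] (x : R ⊗[ZMod p] (ι → B₀)) :
    inR B₀ ι R x = (TBb_i B₀ ι).lTensor R x := by
  induction x using TensorProduct.induction_on with
  | zero => rw [map_zero, map_zero]
  | add x y hx hy => rw [map_add, map_add, hx, hy]
  | tmul r z => rfl

end

theorem tTBb : TBbStmt := by
  intro p _ F l _ _ _ _ _ B₀ Zs hB ι _ R _ _
  have hfin : Finite (Matrix l l F) := inferInstanceAs (Finite (l → l → F))
  have hTH := tyTHb p ι l F R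
  have hTH' := tyTHb p (ι × Zs) l F R
  refine ⟨?_, ?_⟩
  · intro x y hxy
    have h1 : inR B₀ ι R x = inR B₀ ι R y := hTH.1 hxy
    rw [TBb_inR, TBb_inR] at h1
    refine Module.Flat.lTensor_preserves_injective_linearMap (M := R) (TBb_i B₀ ι) ?_ h1
    intro a b hab
    funext i
    exact Subtype.ext (congrFun hab i)
  · intro w hw
    obtain ⟨x, hx⟩ := hTH.2 w
    have h1 : (TBb_c (p := p) Zs ι).lTensor R x = 0 := by
      apply hTH'.1
      rw [map_zero]
      funext q
      rw [TBb_TH, hx, hw q.1 _ q.2.2, sub_self]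
      rfl
    obtain ⟨u, hu⟩ := (Module.Flat.lTensor_exact R (TBb_exact B₀ Zs ι hB) x).1 h1
    refine ⟨u, ?_⟩
    change TH (p := p) R (inR B₀ ι R u) = w
    rw [TBb_inR, hu, hx]

end MP7Z.Orf
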