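import Pool.Agent.Lib.MP_7f581e_Z.Ort.SpecF

/-! # Orthogonal groups: components of elements of `R ⊗ ZB` (`ZTBStmt`) -/

set_option autoImplicit false

namespace MP7Z.Orf

open TensorProduct MP7fS MP7fU Matrix

theorem tZTB : ZTBStmt := by
  intro p _ F l _ _ _ _ _ B₀ ι _ N b R _ _ z hz i
  have key : ∀ M : Matrix l l F, M ∈ Submodule.span F (N b) →
      M.map (incF (p := p) R) ∈ ZM (N b) (R ⊗[ZMod p] F) (incF (p := p) R) := by
    intro M hM
    refine Submodule.span_induction (p := fun (M : Matrix l l F) _ =>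
      M.map (incF (p := p) R) ∈ ZM (N b) (R ⊗[ZMod p] F) (incF (p := p) R)) ?_ ?_ ?_ ?_ hM
    · intro M₀ hM₀
      exact Submodule.subset_span ⟨M₀, hM₀, rfl⟩
    · rw [Matrix.map_zero _ (map_zero _)]
      exact Submodule.zero_mem _
    · intro x y _ _ hx hy
      rw [Matrix.map_add _ (map_add _)]
      exact Submodule.add_mem _ hx hy
    · intro t x _ hx
      have h : (t • x).map (incF (p := p) R) = incF (p := p) R t • x.map (incF (p := p) R) := by
        ext a c
        change incF (p := p) R (t * x a c) = incF (p := p) R t * incF (p := p) R (x a c)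
        rw [map_mul]
      rw [h]
      exact Submodule.smul_mem _ _ hx
  rw [Submodule.baseChange_eq_span] at hz
  refine Submodule.span_induction (p := fun (z : R ⊗[ZMod p] (ι → B₀)) _ =>
    TB B₀ ι R z i ∈ ZM (N b) (R ⊗[ZMod p] F) (incF (p := p) R)) ?_ ?_ ?_ ?_ hz
  · rintro _ ⟨z₀, hz₀, rfl⟩
    change TB B₀ ι R (1 ⊗ₜ z₀) i ∈ _
    rw [TB_tmul]
    exact key (z₀ i : Matrix l l F) (hz₀ i)
  · rw [map_zero]
    exact Submodule.zero_mem _
  · intro x y _ _ hx hy
    rw [map_add]
    exact Submodule.add_mem _ hx hy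
  · intro r x _ hx
    have h : TB B₀ ι R (r • x) i = (algebraMap R (R ⊗[ZMod p] F) r) • TB B₀ ι R x i := by
      have h0 : inR B₀ ι R (r • x) = r • inR B₀ ι R x := map_smul (inR B₀ ι R) r x
      have h1 : TB B₀ ι R (r • x) = r • TB B₀ ι R x := by
        change TH (p := p) R (inR B₀ ι R (r • x)) = r • TH (p := p) R (inR B₀ ι R x)
        rw [h0]
        exact map_smul (THa (p := p) R) r (inR B₀ ι R x)
      rw [h1]
      ext a c
      change r • (TB B₀ ι R x i a c) = (algebraMap R (R ⊗[ZMod p] F) r) * TB B₀ ι R x i a c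
      rw [Algebra.smul_def]
    rw [h]
    exact Submodule.smul_mem _ _ hx

end MP7Z.Orf
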