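import Pool.Agent.Lib.MP_7f581e_Z.Ort.AllA
import Pool.Agent.Lib.MP_7f581e_Z.Ort.Der
import Pool.Agent.Lib.MP_7f581e_Z.Ort.CoB
import Pool.Agent.Lib.MP_7f581e_Z.Ort.L1B
import Pool.Agent.Lib.MP_7f581e_Z.Ort.LMB
import Pool.Agent.Lib.MP_7f581e_Z.Ort.GnB
import Pool.Agent.Lib.MP_7f581e_Z.Ort.ZTB
import Pool.Agent.Lib.MP_7f581e_Z.Ort.PrB
import Pool.Agent.Lib.MP_7f581e_Z.Ort.FTB
import Pool.Agent.Lib.MP_7f581e_Z.Ort.StB
import Pool.Agent.Lib.MP_7f581e_Z.Ort.PtB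
import Pool.Agent.Lib.MP_7f581e_Z.Ort.TBb
import Pool.Agent.Lib.MP_7f581e_Z.Ort.LgB
import Pool.Agent.Lib.MP_7f581e_Z.Ort.FunO
import Pool.Agent.Lib.MP_7f581e_Z.Ort.LngO
import Pool.Agent.Lib.MP_7f581e_Z.Ort.GnO
import Pool.Agent.Lib.MP_7f581e_Z.Ort.SqO
import Pool.Agent.Lib.MP_7f581e_Z.Ort.CmO
import Pool.Agent.Lib.MP_7f581e_Z.Ort.PrO
import Pool.Agent.Lib.MP_7f581e_Z.Ort.StO
import Pool.Agent.Lib.MP_7f581e_Z.Ort.OLang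

/-!
# Orthogonal groups: the Lang groups
-/

set_option autoImplicit false

namespace MP7Z.Ort

open MP7Z.Orf

theorem aLgB : LgBStmt :=
  tLgB tPtB (tL1B (tCoB tTBb)) (tLMB (tCoB tTBb)) (tGnB (tCoB tTBb)) (tStB tFTB)
    (tPrB tTBb tZTB)

theorem aExtI (exts : ExtSStmt) : ExtIStmt := extI aExt aExA exts

theorem aOLang (lango : LangOStmt) (exts : ExtSStmt) : OLangStmt :=
  tOLang aLgB tFunO (tLngO (langI lango)) (tGnO (genI aGenO)) tSqO tCmO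
    (tStO (aExtI exts) tPrO) (langI lango) (genI aGenO) (aExtI exts)

end MP7Z.Ort
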