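import Pool.Agent.Lib.MP_7f581e_Z.Ort.SpecB

/-!
# The action of the spin group on the vectors (auxiliary)
-/

set_option autoImplicit false
set_option linter.unusedSectionVars false

namespace MP7Z.Ort

open TensorProduct MP7fS Matrix

section

variable {K : Type} [Field K] {l : Type} [Fintype l] [DecidableEq l] {a b : K} {s : ℕ}
  {g : Ix s → Matrix l l K} {P : GL l K} {o : Prop}

theorem SAct_cancel (u : GL l K) {X Y : Matrix l l K}
    (h : X * (u : Matrix l l K) = Y * (u : Matrix l l K)) : X = Y := by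
  have h1 : X * (u : Matrix l l K) * ((u⁻¹ : GL l K) : Matrix l l K) =
      Y * (u : Matrix l l K) * ((u⁻¹ : GL l K) : Matrix l l K) := by rw [h]
  rwa [Matrix.mul_assoc, Matrix.mul_assoc, Units.mul_inv, Matrix.mul_one, Matrix.mul_one] at h1

/-- The vectors of the quadratic space, by anticommutation with `w₀`. -/
theorem SAct_Vo (hg : Good a b g P o) {v : Ix s → K}
    (h : o → gv g v * g (iw 0) = -(g (iw 0) * gv g v)) : v ∈ Vo o s K := by
  have := hg.nonempty
  intro ho
  obtain ⟨ha, h2⟩ := hg.odd ho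
  have h3 := hg.frame.gv_anti v (bv K (iw 0))
  rw [bf_w0, ha, zero_mul, add_zero, gv_bv, h ho, neg_add_cancel] at h3
  have h4 : (0 : K) • (1 : Matrix l l K) = (2 * v (iw 0)) • (1 : Matrix l l K) := by
    rw [zero_smul, h3]
  exact (h2.mul_right_eq_zero).1 (smul_one_inj h4).symm

theorem SAct_anti (hg : Good a b g P o) {v : Ix s → K} (hv : v ∈ Vo o s K) (ho : o) :
    gv g v * g (iw 0) = -(g (iw 0) * gv g v) := by
  obtain ⟨ha, -⟩ := hg.odd ho
  have h5 := hg.frame.gv_anti v (bv K (iw 0))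
  rw [bf_w0, hv ho, ha, mul_zero, zero_mul, add_zero, zero_smul, gv_bv] at h5
  exact eq_neg_of_add_eq_zero_left h5

/-- The action on the vectors. -/
theorem SAct_exists (hg : Good a b g P o) (u : GL l K)
    (h3 : ∀ v : Ix s → K, ∃ v' : Ix s → K, (u : Matrix l l K) * gv g v = gv g v' *
      (u : Matrix l l K))
    (h5 : o → (u : Matrix l l K) * g (iw 0) = g (iw 0) * (u : Matrix l l K)) :
    ∃ r : (Ix s → K) → (Ix s → K),
      (∀ v, (u : Matrix l l K) * gv g v = gv g (r v) * (u : Matrix l l K)) ∧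
      (∀ v w, r (v + w) = r v + r w) ∧ (∀ (c : K) v, r (c • v) = c • r v) ∧
      (∀ v, qf a b (r v) = qf a b v) ∧ (∀ v w, bf a b (r v) (r w) = bf a b v w) ∧
      (∀ v ∈ Vo o s K, r v ∈ Vo o s K) := by
  have := hg.nonempty
  choose r hr using h3
  have hq : ∀ v, qf a b (r v) = qf a b v := by
    intro v
    apply smul_one_inj (l := l)
    apply SAct_cancel u
    rw [← hg.frame.gv_sq, Matrix.mul_assoc, ← hr, ← Matrix.mul_assoc, ← hr, Matrix.mul_assoc,
      hg.frame.gv_sq, Matrix.mul_smul, Matrix.mul_one, Matrix.smul_mul, Matrix.one_mul]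
  have ha : ∀ v w, r (v + w) = r v + r w := by
    intro v w
    apply hg.gv_inj
    apply SAct_cancel u
    rw [← hr, gv_add, gv_add, Matrix.mul_add, Matrix.add_mul, hr, hr]
  refine ⟨r, hr, ha, ?_, hq, ?_, ?_⟩
  · intro c v
    apply hg.gv_inj
    apply SAct_cancel u
    rw [← hr, gv_smul, gv_smul, Matrix.mul_smul, Matrix.smul_mul, hr]
  · intro v w
    have h1 := hq (v + w)
    rw [ha, qf_add, qf_add, hq, hq] at h1
    exact add_left_cancel h1
  · intro v hv
    apply SAct_Vo hg
    intro ho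
    apply SAct_cancel u
    rw [Matrix.mul_assoc, ← h5 ho, ← Matrix.mul_assoc, ← hr, Matrix.mul_assoc,
      SAct_anti hg hv ho, Matrix.mul_neg, ← Matrix.mul_assoc, h5 ho, Matrix.mul_assoc, hr,
      Matrix.neg_mul, Matrix.mul_assoc]

end

end MP7Z.Ort
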