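import Pool.Agent.Lib.MP_7f581e_Z.Ort.DBas

/-!
# Orthogonal groups, part D: action of the Siegel elements of `R_e` and `R_f`
-/

set_option autoImplicit false

namespace MP7Z.Ord

namespace SpD

variable {K V H : Type} [Field K] [AddCommGroup V] [Module K V] [Group H] {G : SpD K V H}

namespace IsS0

variable (h0 : G.IsS0)

include h0

theorem pUe {u : V} (hu : u ∈ G.U) : pl G.q u G.e = 0 := by rw [pl_comm]; exact hu.1

theorem pUf {u : V} (hu : u ∈ G.U) : pl G.q u G.f = 0 := by rw [pl_comm]; exact hu.2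

theorem e_e {u : V} (hu : u ∈ G.U) : G.ac (G.si G.e u) G.e = G.e := by
  rw [h0.act _ _ h0.qe hu.1, sie, hu.1, h0.ee, zero_smul, zero_smul, zero_mul, zero_smul]
  abel

theorem e_f {u : V} (hu : u ∈ G.U) : G.ac (G.si G.e u) G.f = G.f - u - G.q u • G.e := by
  rw [h0.act _ _ h0.qe hu.1, sie, hu.2, h0.fe, zero_smul, one_smul, one_mul, add_zero]

theorem e_U {u z : V} (hu : u ∈ G.U) (hz : z ∈ G.U) :
    G.ac (G.si G.e u) z = z + pl G.q z u • G.e := by
  rw [h0.act _ _ h0.qe hu.1, sie, h0.pUe hz, zero_smul, zero_mul, zero_smul, sub_zero, sub_zero]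

theorem f_f {u : V} (hu : u ∈ G.U) : G.ac (G.si G.f u) G.f = G.f := by
  rw [h0.act _ _ h0.qf hu.2, sie, hu.2, h0.ff, zero_smul, zero_smul, zero_mul, zero_smul]
  abel

theorem f_e {u : V} (hu : u ∈ G.U) : G.ac (G.si G.f u) G.e = G.e - u - G.q u • G.f := by
  rw [h0.act _ _ h0.qf hu.2, sie, hu.1, h0.ef, zero_smul, one_smul, one_mul, add_zero]

theorem f_U {u z : V} (hu : u ∈ G.U) (hz : z ∈ G.U) :
    G.ac (G.si G.f u) z = z + pl G.q z u • G.f := by
  rw [h0.act _ _ h0.qf hu.2, sie, h0.pUf hz, zero_smul, zero_mul, zero_smul, sub_zero, sub_zero]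

theorem exists_one : ∃ w ∈ G.U, G.q w = 1 := by
  obtain ⟨a, b, a', b', ha, hb, -, -, hab, -, -, -, -, -⟩ := h0.hyp
  refine ⟨((a + b : G.U) : V), (a + b).2, ?_⟩
  change G.qU (a + b) = 1
  rw [q_add, ha, hb, hab, zero_add, zero_add]

theorem n_f {w : V} (hw : w ∈ G.U) (hq : G.q w = 1) :
    G.ac (G.si G.e w * G.si G.f w * G.si G.e w) G.f = -G.e := by
  have h2 : G.ac (G.si G.f w) (G.f - w - G.e) = -G.e := by
    rw [map_sub, map_sub, h0.f_f hw, h0.f_U hw hw, h0.f_e hw, hq, one_smul, pl_self, hq, mul_one,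
      two_smul]
    abel
  rw [map_mul, map_mul, LinearEquiv.mul_apply, LinearEquiv.mul_apply, h0.e_f hw, hq, one_smul, h2,
    map_neg, h0.e_e hw]

theorem n_e {w : V} (hw : w ∈ G.U) (hq : G.q w = 1) :
    G.ac (G.si G.e w * G.si G.f w * G.si G.e w) G.e = -G.f := by
  rw [map_mul, map_mul, LinearEquiv.mul_apply, LinearEquiv.mul_apply, h0.e_e hw, h0.f_e hw, hq,
    one_smul, map_sub, map_sub, h0.e_e hw, h0.e_U hw hw, h0.e_f hw, hq, one_smul, pl_self, hq,
    mul_one, two_smul]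
  abel

/-- `R_e` is transitive on the singular vectors `y` with `B(y,e) = 1`. -/
theorem to_f {y : V} (hy : G.q y = 0) (hye : pl G.q y G.e = 1) :
    ∃ v ∈ G.U, G.ac (G.si G.e v) G.f = y := by
  obtain ⟨u, hu, h1⟩ := h0.dec y
  rw [hye, one_smul] at h1
  have h2 : pl G.q y G.f = -G.q u := by
    have h3 := hy
    rw [h1, q_add, q_add, q_smul, h0.qe, h0.qf, pl_addl, pl_smull, pl_smull, hu.1, hu.2, h0.ef]
      at h3
    linear_combination h3
  refine ⟨-u, G.U.neg_mem hu, ?_⟩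
  rw [h0.e_f (G.U.neg_mem hu), q_neg, h1, h2, neg_smul]
  abel

theorem ac_inv (h : H) (v : V) : G.ac h⁻¹ (G.ac h v) = v := by
  rw [map_inv]
  exact LinearEquiv.symm_apply_apply _ _

theorem inv_ac (h : H) (v : V) : G.ac h (G.ac h⁻¹ v) = v := by
  rw [map_inv]
  exact LinearEquiv.apply_symm_apply _ _

/-- Transitivity on singular lines. -/
theorem trans {x : V} (hx0 : x ≠ 0) (hx : G.q x = 0) :
    ∃ (h : H) (c : K), c ≠ 0 ∧ G.ac h x = c • G.e := by
  obtain ⟨w, hw, hqw⟩ := h0.exists_one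
  -- the first case
  have case1 : ∀ x : V, G.q x = 0 → pl G.q x G.e ≠ 0 →
      ∃ (h : H) (c : K), c ≠ 0 ∧ G.ac h x = c • G.e := by
    intro x hx hne
    obtain ⟨v, hv, h1⟩ := h0.to_f (y := (pl G.q x G.e)⁻¹ • x) (by rw [q_smul, hx, mul_zero])
      (by rw [pl_smull, inv_mul_cancel₀ hne])
    refine ⟨G.si G.e w * G.si G.f w * G.si G.e w * (G.si G.e v)⁻¹, -pl G.q x G.e,
      neg_ne_zero.2 hne, ?_⟩
    have h2 : G.ac (G.si G.e v)⁻¹ x = pl G.q x G.e • G.f := by
      have h3 : x = G.ac (G.si G.e v) (pl G.q x G.e • G.f) := by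
        rw [map_smul, h1, smul_smul, mul_inv_cancel₀ hne, one_smul]
      conv_lhs => rw [h3]
      rw [h0.ac_inv]
    rw [map_mul, LinearEquiv.mul_apply, h2, map_smul, h0.n_f hw hqw, smul_neg, neg_smul]
  by_cases h1 : pl G.q x G.e = 0
  · obtain ⟨u, hu, h2⟩ := h0.dec x
    rw [h1, zero_smul, add_zero] at h2
    by_cases h3 : pl G.q x G.f = 0
    · rw [h3, zero_smul, zero_add] at h2
      obtain ⟨v, hv⟩ : ∃ v : G.U, pl G.qU (⟨u, hu⟩ : G.U) v ≠ 0 := by
        by_contra h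
        push Not at h
        have h4 := h0.ndU ⟨u, hu⟩ h
        exact hx0 (by rw [h2]; exact congrArg Subtype.val h4)
      have hv' : pl G.q u (v : V) ≠ 0 := hv
      obtain ⟨h, c, hc, h4⟩ := case1 (G.ac (G.si G.f v) x) (by rw [h0.iso, hx]) (by
        rw [h2, h0.f_U v.2 hu, pl_addl, h0.pUe hu, pl_smull, h0.fe, zero_add, mul_one]
        exact hv')
      exact ⟨h * G.si G.f v, c, hc, by rw [map_mul, LinearEquiv.mul_apply, h4]⟩
    · have hqu : G.q u = 0 := by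
        have h4 := hx
        rw [h2, q_add, q_smul, h0.qe, mul_zero, pl_smull, hu.1, mul_zero, add_zero, zero_add] at h4
        exact h4
      obtain ⟨α, hα⟩ : ∃ α, α = pl G.q x G.f := ⟨_, rfl⟩
      rw [← hα] at h2 h3
      have hv : -(α⁻¹ • u) ∈ G.U := G.U.neg_mem (G.U.smul_mem _ hu)
      refine ⟨(G.si G.f (-(α⁻¹ • u)))⁻¹, α, h3, ?_⟩
      have h4 : x = G.ac (G.si G.f (-(α⁻¹ • u))) (α • G.e) := by
        rw [map_smul, h0.f_e hv, q_neg, q_smul, hqu, mul_zero, zero_smul, sub_zero, sub_neg_eq_add,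
          smul_add, smul_smul, mul_inv_cancel₀ h3, one_smul]
        exact h2
      rw [h4, h0.ac_inv]
  · exact case1 x hx h1

end IsS0

end SpD

end MP7Z.Ord
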