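import Pool.Agent.Lib.MP_7f581e_Z.Ort.AllA
import Pool.Agent.Lib.MP_7f581e_Z.Ort.D.Asa
import Pool.Agent.Lib.MP_7f581e_Z.Ort.D.Bet
import Pool.Agent.Lib.MP_7f581e_Z.Ort.D.BrA
import Pool.Agent.Lib.MP_7f581e_Z.Ort.D.BrB
import Pool.Agent.Lib.MP_7f581e_Z.Ort.D.BrC
import Pool.Agent.Lib.MP_7f581e_Z.Ort.D.Cen
import Pool.Agent.Lib.MP_7f581e_Z.Ort.D.CenS
import Pool.Agent.Lib.MP_7f581e_Z.Ort.D.CnZ
import Pool.Agent.Lib.MP_7f581e_Z.Ort.D.DmZ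
import Pool.Agent.Lib.MP_7f581e_Z.Ort.D.Fix
import Pool.Agent.Lib.MP_7f581e_Z.Ort.D.Frk
import Pool.Agent.Lib.MP_7f581e_Z.Ort.D.FxV
import Pool.Agent.Lib.MP_7f581e_Z.Ort.D.Irr
import Pool.Agent.Lib.MP_7f581e_Z.Ort.D.Iso
import Pool.Agent.Lib.MP_7f581e_Z.Ort.D.Lev
import Pool.Agent.Lib.MP_7f581e_Z.Ort.D.Lft
import Pool.Agent.Lib.MP_7f581e_Z.Ort.D.Mrp
import Pool.Agent.Lib.MP_7f581e_Z.Ort.D.Mul
import Pool.Agent.Lib.MP_7f581e_Z.Ort.D.Nrm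
import Pool.Agent.Lib.MP_7f581e_Z.Ort.D.Pel
import Pool.Agent.Lib.MP_7f581e_Z.Ort.D.QZ
import Pool.Agent.Lib.MP_7f581e_Z.Ort.D.RZ
import Pool.Agent.Lib.MP_7f581e_Z.Ort.D.Sca
import Pool.Agent.Lib.MP_7f581e_Z.Ort.D.Sem
import Pool.Agent.Lib.MP_7f581e_Z.Ort.D.Sim
import Pool.Agent.Lib.MP_7f581e_Z.Ort.D.SnE
import Pool.Agent.Lib.MP_7f581e_Z.Ort.D.SnF
import Pool.Agent.Lib.MP_7f581e_Z.Ort.D.Sng
import Pool.Agent.Lib.MP_7f581e_Z.Ort.D.Syl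
import Pool.Agent.Lib.MP_7f581e_Z.Ort.D.Tr
import Pool.Agent.Lib.MP_7f581e_Z.Ort.D.WZ
import Pool.Agent.Lib.MP_7f581e_Z.Ort.D.Zer

/-!
# Orthogonal groups: the statements of part D, unconditionally
-/

set_option autoImplicit false

namespace MP7Z.Ord

theorem aIrr : IrrStmt := tIrr tSng

theorem aSca : ScaStmt := tSca tSng

theorem aSim : SimStmt := tSim aIrr aSca

theorem aLft : LftStmt := tLft tPel

theorem aFix : FixStmt := tFix tTr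

theorem aCen : MP7Z.Ord.CenStmt := MP7Z.Ord.tCen aFix

theorem aCenS : CenSStmt := tCenS aCen tTr

theorem aNrm : NrmStmt := tNrm aCen aIrr

theorem aFxV : FxVStmt := tFxV tZer

theorem aSyl : SylStmt := tSyl aFxV aFix

theorem aWZ : WZStmt := tWZ aFxV aSyl

theorem aQZ : QZStmt := tQZ tPel

theorem aCnZ : CnZStmt := tCnZ tRZ

theorem aDmZ : DmZStmt := tDmZ tRZ aQZ aCnZ aFix

theorem aMrp : MrpStmt := tMrp aLft aFxV tTr aCenS aNrm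

theorem aSnE : SnEStmt := tSnE aMrp aWZ aDmZ aSyl tTr aFix

theorem aSnF : SnFStmt := tSnF aSnE tTr aCenS

theorem aLev : LevStmt := tLev aLft aFix

theorem aSem : SemStmt := tSem aLft aLev aSca

theorem aBet : BetStmt := tBet aLft aLev aCen aCenS aFix aSca

theorem aBrB : BrBStmt := tBrB MP7Z.Ort.aSpnE

theorem aBrC : BrCStmt := tBrC aCenS MP7Z.Ort.aGenO MP7Z.Ort.aTrf

theorem aAsa : AsaStmt := tAsa tMul tFrk MP7Z.Ort.aExt MP7Z.Ort.aExA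

end MP7Z.Ord
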