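import Pool.Agent.Lib.MP_7f581e_Z.Ort.SpecE
import Pool.Agent.Lib.MP_7f581e_Z.Ort.Der
import Pool.Agent.Lib.MP_7f581e_Z.Lie.L1

/-!
# Orthogonal groups: step Lie
-/

set_option autoImplicit false

namespace MP7Z.Ort

open TensorProduct MP7fS Matrix

/-- The automorphisms of the simple orthogonal groups. -/
def OAutX : Prop :=
  ∀ (p : ℕ) [Fact p.Prime] (F : Type) [Field F] [Finite F] [Algebra (ZMod p) F] (s : ℕ)
    (D : Dat F s) (hex : ∀ (x : D.A p) (h : D.H), ∃ h', D.inc p h' = D.r p x (D.inc p h)),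
    3 ≤ s → (s = 3 → ¬ D.o → ∀ z₀ z₁ : F, z₀ ^ 2 + D.a * z₀ * z₁ + D.b * z₁ ^ 2 = 0 →
      z₀ = 0 ∧ z₁ = 0) → IsSimpleGroup D.SQ → ∀ φ : MulAut D.SQ, ∃ x : D.A p, φ = D.cq p hex x

/-- Every orthogonal simple group comes from one of the data. -/
theorem exists_dat (oms : OmSStmt) (cle : ClEStmt) (clo : ClOStmt) (an8 : An8Stmt)
    {p : ℕ} [Fact p.Prime] {S : Type} [Group S] (hS : IsOrthogonal p S) :
    ∃ (F : Type) (_ : Field F) (_ : Finite F) (_ : Algebra (ZMod p) F) (s : ℕ)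
      (D : Dat F (s + 2)), 3 ≤ s + 2 ∧ (s + 2 = 3 → ¬ D.o → ∀ z₀ z₁ : F,
        z₀ ^ 2 + D.a * z₀ * z₁ + D.b * z₁ ^ 2 = 0 → z₀ = 0 ∧ z₁ = 0) ∧
      IsSimpleGroup D.SQ ∧ Nonempty (S ≃* D.SQ) := by
  obtain ⟨hsim, F, _, W, _, _, q, hF, hp, hnd, h7, h8, ⟨e⟩⟩ := hS
  let _ : Algebra (ZMod p) F := ZMod.algebra F p
  have hfd : FiniteDimensional F W := FiniteDimensional.of_finrank_pos (by omega)
  rcases Nat.even_or_odd' (Module.finrank F W) with ⟨c, hc | hc⟩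
  · obtain ⟨s, rfl⟩ : ∃ s, c = s + 2 + 1 := ⟨c - 3, by omega⟩
    obtain ⟨D, j, ho, hj⟩ := cle F (s + 2) W q hnd (by omega)
    obtain ⟨e'⟩ := oms F s D W q j hj
    refine ⟨F, _, hF, ZMod.algebra F p, s, D, by omega, ?_, MulEquiv.isSimpleGroup (e.trans e').symm,
      ⟨e.trans e'⟩⟩
    intro hs _
    obtain rfl : s = 1 := by omega
    exact an8 F D W q j hj ho (h8 (by omega))
  · obtain ⟨s, rfl⟩ : ∃ s, c = s + 2 := ⟨c - 2, by omega⟩
    obtain ⟨D, j, ho, hj⟩ := clo F (s + 2) W q hnd (by omega)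
    obtain ⟨e'⟩ := oms F s D W q j hj
    exact ⟨F, _, hF, ZMod.algebra F p, s, D, by omega, fun _ h => absurd ho h,
      MulEquiv.isSimpleGroup (e.trans e').symm, ⟨e.trans e'⟩⟩

/-- **Step Lie for the orthogonal groups.** -/
theorem lie_ort {p : ℕ} [Fact p.Prime] (hL3 : L3Stmt) (hS : SolvStmt p) (hxe : HxeStmt)
    (tyo : TyOStmt) (aut : OAutX) (lang : OLangStmt) (oms : OmSStmt) (cle : ClEStmt)
    (clo : ClOStmt) (an8 : An8Stmt) : LieStep p (fun S [Group S] => IsOrthogonal p S) := by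
  intro Ω _ _ x G _ _ ψ hψ E _ _ f hf S _ _ κ _ hSS hθ hmin
  obtain ⟨F, _, _, _, s, D, h3, h8, hsim, he⟩ := exists_dat oms cle clo an8 hSS
  have hex := hxe p F (s + 2) D
  have hT := tyo p F s D hex hsim (aut p F (s + 2) D hex h3 h8 hsim)
  exact lie_of_type hL3 hS hT (lang p F (s + 1) D) Ω x G ψ hψ E f hf S κ he hθ hmin

end MP7Z.Ort
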