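import Pool.Agent.Lib.MP_7f581e_Z.Ort.SpecA

/-!
# Orthogonal groups: the automorphisms of `C0` given by semilinear similitudes
-/

set_option autoImplicit false
set_option linter.unusedSectionVars false

namespace MP7Z.Ort

open TensorProduct MP7fS Matrix

/-- The semilinear conjugation. -/
def ExA_phi {F l : Type} [Field F] [Fintype l] [DecidableEq l] (σ : F ≃+* F) (t : GL l F) :
    Matrix l l F →+* Matrix l l F where
  toFun X := (t : Matrix l l F) * X.map σ * ((t⁻¹ : GL l F) : Matrix l l F)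
  map_one' := by
    rw [Matrix.map_one σ (map_zero σ) (map_one σ), mul_one, Units.mul_inv]
  map_mul' X Y := by
    have h : (X * Y).map σ = X.map σ * Y.map σ := Matrix.map_mul (f := (σ : F →+* F))
    rw [h]
    simp only [mul_assoc]
    rw [← mul_assoc ((t⁻¹ : GL l F) : Matrix l l F) (t : Matrix l l F), Units.inv_mul, one_mul]
  map_zero' := by
    rw [Matrix.map_zero σ (map_zero σ), mul_zero, zero_mul]
  map_add' X Y := by
    rw [Matrix.map_add σ (map_add σ), mul_add, add_mul]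

theorem ExA_phi_smul {F l : Type} [Field F] [Fintype l] [DecidableEq l] (σ : F ≃+* F) (t : GL l F)
    (c : F) (X : Matrix l l F) : ExA_phi σ t (c • X) = σ c • ExA_phi σ t X := by
  change (t : Matrix l l F) * (c • X).map σ * ((t⁻¹ : GL l F) : Matrix l l F) =
    σ c • ((t : Matrix l l F) * X.map σ * ((t⁻¹ : GL l F) : Matrix l l F))
  have h : (c • X).map σ = σ c • X.map σ := map_smul_mat (σ : F →+* F) c X
  rw [h, mul_smul_comm, smul_mul_assoc]

theorem ExA_phi_mul {F l : Type} [Field F] [Fintype l] [DecidableEq l] (σ : F ≃+* F) (t : GL l F)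
    (X : Matrix l l F) : ExA_phi σ t X * (t : Matrix l l F) = (t : Matrix l l F) * X.map σ := by
  change (t : Matrix l l F) * X.map σ * ((t⁻¹ : GL l F) : Matrix l l F) * (t : Matrix l l F) = _
  rw [mul_assoc, Units.inv_mul, mul_one]

theorem ExA_phi_inj {F l : Type} [Field F] [Fintype l] [DecidableEq l] (σ : F ≃+* F)
    (t : GL l F) : Function.Injective (ExA_phi σ t) := by
  intro X Y h
  have h1 : (t : Matrix l l F) * X.map σ = (t : Matrix l l F) * Y.map σ := by
    rw [← ExA_phi_mul, ← ExA_phi_mul, h]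
  have h2 : X.map σ = Y.map σ := by
    have h3 := congrArg (fun Z => ((t⁻¹ : GL l F) : Matrix l l F) * Z) h1
    simp only [← mul_assoc, Units.inv_mul, one_mul] at h3
    exact h3
  ext i j
  exact σ.injective (congrFun (congrFun h2 i) j)

theorem ExA_eq {F l : Type} [Field F] [Fintype l] [DecidableEq l] (σ : F ≃+* F) (t : GL l F)
    {X Y : Matrix l l F} (h : (t : Matrix l l F) * X.map σ = Y * (t : Matrix l l F)) :
    ExA_phi σ t X = Y := by
  change (t : Matrix l l F) * X.map σ * ((t⁻¹ : GL l F) : Matrix l l F) = Y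
  rw [h, mul_assoc, Units.mul_inv, mul_one]

/-- A semilinear similitude is injective. -/
theorem ExA_inj {F : Type} [Field F] {s : ℕ} (D : Dat F s) {σ : F ≃+* F} {μ : F}
    {g : (Ix s → F) → (Ix s → F)} (hS : D.IsSemi σ μ g) :
    ∀ v ∈ D.V, ∀ w ∈ D.V, g v = g w → v = w := by
  intro v hv w hw hvw
  have hd : v - w ∈ D.V := Submodule.sub_mem _ hv hw
  have hgd : g (v - w) = 0 := by
    have h1 : v - w = v + (-1 : F) • w := by rw [neg_one_smul, sub_eq_add_neg]
    rw [h1, hS.add v hv _ (Submodule.smul_mem _ _ hw), hS.smul _ w hw, map_neg, map_one, hvw,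
      neg_one_smul, add_neg_cancel]
  have key : ∀ u ∈ D.V, D.Q (v - w + u) = D.Q u := by
    intro u hu
    have h1 := hS.qf _ (Submodule.add_mem _ hd hu)
    rw [hS.add _ hd u hu, hgd, zero_add, hS.qf u hu] at h1
    exact (σ.injective (mul_left_cancel₀ hS.ne h1)).symm
  have h0 : D.Q (v - w) = 0 := by
    have h1 := key 0 (Submodule.zero_mem _)
    rw [add_zero] at h1
    rw [h1]
    exact qf_zero D.a D.b
  rw [← sub_eq_zero]
  refine D.good.nondeg_Vo hd fun u hu => ?_
  have h1 := key u hu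
  have h2 : D.Q (v - w + u) = D.Q (v - w) + D.Q u + bf D.a D.b (v - w) u := qf_add D.a D.b _ _
  rw [h2, h0, zero_add] at h1
  exact left_eq_add.1 h1.symm

/-- The main relation. -/
theorem ExA_key {F : Type} [Field F] {s : ℕ} (D : Dat F s) {σ : F ≃+* F} {μ : F}
    {g : (Ix s → F) → (Ix s → F)} (t : GL (Lx s) F) (κ m : F)
    (hn : κ ^ 2 + D.a * κ * m + D.b * m ^ 2 = μ⁻¹)
    (ht : ∀ v ∈ D.V, (t : Matrix (Lx s) (Lx s) F) * (D.γ v).map σ =
        D.γ (g v) * (κ • 1 + m • D.z) * (t : Matrix (Lx s) (Lx s) F)) {v w : Ix s → F}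
    (hv : v ∈ D.V) (hw : w ∈ D.V) : ExA_phi σ t (D.γ v * D.γ w) =
      μ⁻¹ • (D.γ (g v) * D.γ (g w)) := by
  set c : Matrix (Lx s) (Lx s) F := κ • 1 + m • D.z with hc
  set c' : Matrix (Lx s) (Lx s) F := κ • 1 + m • (D.a • 1 - D.z) with hc'
  have h1 : c * D.γ (g w) = D.γ (g w) * c' := by
    have h2 : D.z * D.γ (g w) = D.γ (g w) * (D.a • 1 - D.z) := D.good.frame.zt_gv s D.g (g w)
    rw [hc, hc', add_mul, mul_add, smul_mul_assoc, smul_mul_assoc, h2, one_mul, mul_smul_comm,
      mul_smul_comm, mul_one]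
  have h3 : c' * c = μ⁻¹ • 1 := by
    have h4 : D.z * D.z = D.a • D.z - D.b • 1 := D.good.frame.zt_sq s D.g
    rw [← hn, hc, hc']
    simp only [add_mul, mul_add, smul_mul_assoc, mul_smul_comm, one_mul, mul_one, sub_mul, h4]
    module
  rw [map_mul, ExA_eq σ t (ht v hv), ExA_eq σ t (ht w hw)]
  calc D.γ (g v) * c * (D.γ (g w) * c) = D.γ (g v) * (c * D.γ (g w)) * c := by
        simp only [mul_assoc]
    _ = D.γ (g v) * D.γ (g w) * (c' * c) := by
        rw [h1]
        simp only [mul_assoc]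
    _ = _ := by rw [h3, mul_smul_comm, mul_one]

theorem tExA (h1 : SpnEStmt) : ExAStmt := by
  intro p _ F _ _ _ s D σ μ g hS t κ m hn ht
  have hkey : ∀ v ∈ D.V, ∀ w ∈ D.V, ExA_phi σ t (D.γ v * D.γ w) =
      μ⁻¹ • (D.γ (g v) * D.γ (g w)) := fun v hv w hw => ExA_key D t κ m hn ht hv hw
  have hspan : ∀ X ∈ D.C0 p, X ∈ Algebra.adjoin F {Y | ∃ v ∈ Vo D.o s F, ∃ w ∈ Vo D.o s F,
      Y = gv D.g v * gv D.g w} := by
    intro X hX
    rw [Dat.mem_C0] at hX
    exact h1 F (Lx s) D.a D.b s D.g D.P D.o D.good X hX.1 hX.2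
  have hone : ∀ c : F, ExA_phi σ t (c • 1) = σ c • 1 := by
    intro c
    rw [ExA_phi_smul, map_one]
  have halg : ∀ c : F, algebraMap F (Matrix (Lx s) (Lx s) F) c = c • 1 := fun c =>
    Algebra.algebraMap_eq_smul_one c
  have hsm : ∀ (c : F) (Y : Matrix (Lx s) (Lx s) F), Y ∈ D.C0 p → c • Y ∈ D.C0 p := by
    intro c Y hY
    have h2 := (D.C0 p).mul_mem (D.smul_mem p c) hY
    rwa [smul_mul_assoc, one_mul] at h2
  constructor
  · intro x hx X
    have key : ∀ Y ∈ Algebra.adjoin F {Y | ∃ v ∈ Vo D.o s F, ∃ w ∈ Vo D.o s F,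
        Y = gv D.g v * gv D.g w}, ∃ hY : Y ∈ D.C0 p,
        ((x ⟨Y, hY⟩ : D.C0 p) : Matrix (Lx s) (Lx s) F) = ExA_phi σ t Y := by
      intro Y hY
      induction hY using Algebra.adjoin_induction with
      | mem Y hY =>
        obtain ⟨v, hv, w, hw, rfl⟩ := hY
        refine ⟨D.gg_mem p hv hw, ?_⟩
        rw [hx.2 v hv w hw _ rfl]
        exact (hkey v hv w hw).symm
      | algebraMap r =>
        rw [halg]
        refine ⟨D.smul_mem p r, ?_⟩
        rw [hx.1 _ r rfl, hone]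
      | add Y Z _ _ hY hZ =>
        obtain ⟨hY', eY⟩ := hY
        obtain ⟨hZ', eZ⟩ := hZ
        refine ⟨(D.C0 p).add_mem hY' hZ', ?_⟩
        have e1 : (⟨Y + Z, (D.C0 p).add_mem hY' hZ'⟩ : D.C0 p) = ⟨Y, hY'⟩ + ⟨Z, hZ'⟩ := rfl
        rw [e1, map_add, map_add, ← eY, ← eZ]
        rfl
      | mul Y Z _ _ hY hZ =>
        obtain ⟨hY', eY⟩ := hY
        obtain ⟨hZ', eZ⟩ := hZ
        refine ⟨(D.C0 p).mul_mem hY' hZ', ?_⟩
        have e1 : (⟨Y * Z, (D.C0 p).mul_mem hY' hZ'⟩ : D.C0 p) = ⟨Y, hY'⟩ * ⟨Z, hZ'⟩ := rfl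
        rw [e1, map_mul, map_mul, ← eY, ← eZ]
        rfl
    obtain ⟨hX, eX⟩ := key X (hspan X X.2)
    rw [← ExA_phi_mul, ← eX]
  · have hmem : ∀ Y ∈ D.C0 p, ExA_phi σ t Y ∈ D.C0 p := by
      intro Y hY
      have hY' := hspan Y hY
      clear hY
      induction hY' using Algebra.adjoin_induction with
      | mem Y hY =>
        obtain ⟨v, hv, w, hw, rfl⟩ := hY
        have e1 := hkey v hv w hw
        change ExA_phi σ t (gv D.g v * gv D.g w) = _ at e1
        rw [e1]
        exact hsm _ _ (D.gg_mem p (hS.mem v hv) (hS.mem w hw))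
      | algebraMap r =>
        rw [halg, hone]
        exact D.smul_mem p _
      | add Y Z _ _ hY hZ =>
        rw [map_add]
        exact (D.C0 p).add_mem hY hZ
      | mul Y Z _ _ hY hZ =>
        rw [map_mul]
        exact (D.C0 p).mul_mem hY hZ
    let Φ : D.C0 p →+* D.C0 p := (ExA_phi σ t).restrict (D.C0 p) (D.C0 p) hmem
    have hΦ : ∀ X : D.C0 p, ((Φ X : D.C0 p) : Matrix (Lx s) (Lx s) F) =
        ExA_phi σ t (X : Matrix (Lx s) (Lx s) F) := fun X => rfl
    have hinj : Function.Injective Φ := by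
      intro X Y h
      apply Subtype.ext
      apply ExA_phi_inj σ t
      rw [← hΦ, ← hΦ, h]
    have hfin : Finite (D.C0 p) := Subtype.finite
    have hbij : Function.Bijective Φ := Finite.injective_iff_bijective.1 hinj
    let x : RingAut (D.C0 p) := RingEquiv.ofBijective Φ hbij
    have hx : ∀ X : D.C0 p, ((x X : D.C0 p) : Matrix (Lx s) (Lx s) F) =
        ExA_phi σ t (X : Matrix (Lx s) (Lx s) F) := fun X => rfl
    have hI : D.Ind p x σ μ g := by
      refine ⟨fun X c h => ?_, fun v hv w hw X h => ?_⟩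
      · rw [hx, h, hone]
      · rw [hx, h, hkey v hv w hw]
    -- the inverse
    have hgi := ExA_inj D hS
    let G : D.V → D.V := fun v => ⟨g v, hS.mem v v.2⟩
    have hGi : Function.Injective G := by
      intro v w h
      exact Subtype.ext (hgi v v.2 w w.2 (congrArg Subtype.val h))
    have hfV : Finite D.V := Subtype.finite
    have hGb : Function.Bijective G := Finite.injective_iff_bijective.1 hGi
    have hex : ∀ w : Ix s → F, ∃ v ∈ D.V, w ∈ D.V → g v = w := by
      intro w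
      by_cases hw : w ∈ D.V
      · obtain ⟨v, hv⟩ := hGb.2 ⟨w, hw⟩
        exact ⟨v, v.2, fun _ => congrArg Subtype.val hv⟩
      · exact ⟨0, Submodule.zero_mem _, fun h => absurd h hw⟩
    choose g' hg'V hg' using hex
    have hS' : D.IsSemi σ.symm (σ.symm μ)⁻¹ g' := by
      refine ⟨?_, fun v _ => hg'V v, ?_, ?_, ?_, ?_⟩
      · exact inv_ne_zero ((map_ne_zero σ.symm).2 hS.ne)
      · intro v hv w hw
        apply hgi _ (hg'V _) _ (Submodule.add_mem _ (hg'V _) (hg'V _))
        rw [hg' _ (Submodule.add_mem _ hv hw), hS.add _ (hg'V _) _ (hg'V _), hg' v hv, hg' w hw]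
      · intro c v hv
        apply hgi _ (hg'V _) _ (Submodule.smul_mem _ _ (hg'V _))
        rw [hg' _ (Submodule.smul_mem _ _ hv), hS.smul _ _ (hg'V _), hg' v hv,
          RingEquiv.apply_symm_apply]
      · intro v hv
        have e1 := hS.qf _ (hg'V v)
        rw [hg' v hv] at e1
        rw [e1, map_mul, RingEquiv.symm_apply_apply, ← mul_assoc,
          inv_mul_cancel₀ ((map_ne_zero σ.symm).2 hS.ne), one_mul]
      · intro ho
        rw [hS.odd ho, map_one, inv_one]
    have hxi : ∀ X Y : D.C0 p, x Y = X → x⁻¹ X = Y := by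
      intro X Y h
      rw [← h]
      change (x⁻¹ * x) Y = _
      rw [inv_mul_cancel]
      rfl
    refine ⟨x, ⟨⟨σ, μ, g, hS, hI⟩, ⟨σ.symm, (σ.symm μ)⁻¹, g', hS', ?_, ?_⟩⟩, hI⟩
    · intro X c h
      rw [hxi X ⟨σ.symm c • 1, D.smul_mem p _⟩ (Subtype.ext (by
        rw [hx, h]
        change ExA_phi σ t (σ.symm c • 1) = _
        rw [hone, RingEquiv.apply_symm_apply]))]
    · intro v hv w hw X h
      rw [hxi X ⟨σ.symm μ • (D.γ (g' v) * D.γ (g' w)), hsm _ _ (D.gg_mem p (hg'V v) (hg'V w))⟩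
        (Subtype.ext (by
          rw [hx, h]
          change ExA_phi σ t (σ.symm μ • (D.γ (g' v) * D.γ (g' w))) = _
          rw [ExA_phi_smul, hkey _ (hg'V v) _ (hg'V w), RingEquiv.apply_symm_apply, smul_smul,
            mul_inv_cancel₀ hS.ne, one_smul, hg' v hv, hg' w hw]))]
      rw [inv_inv]

end MP7Z.Ort
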