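import Pool.Agent.Lib.MP_7f581e_Z.Ort.Ext
import Pool.Agent.Lib.MP_7f581e_Z.Ort.ExA

/-!
# Stability of the spin group
-/

set_option autoImplicit false
set_option linter.unusedSectionVars false

namespace MP7Z.Ort

open TensorProduct MP7fS Matrix

theorem ExtS_conj {l : Type} [Fintype l] [DecidableEq l] {T : Type} [CommRing T] {τ U : GL l T}
    {A B : Matrix l l T} (h : (U : Matrix l l T) * A = B * (U : Matrix l l T)) :
    ((τ * U * τ⁻¹ : GL l T) : Matrix l l T) *
        ((τ : Matrix l l T) * A * ((τ⁻¹ : GL l T) : Matrix l l T)) =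
      ((τ : Matrix l l T) * B * ((τ⁻¹ : GL l T) : Matrix l l T)) *
        ((τ * U * τ⁻¹ : GL l T) : Matrix l l T) := by
  rw [Units.val_mul, Units.val_mul]
  calc (τ : Matrix l l T) * (U : Matrix l l T) * ((τ⁻¹ : GL l T) : Matrix l l T) *
        ((τ : Matrix l l T) * A * ((τ⁻¹ : GL l T) : Matrix l l T)) =
      (τ : Matrix l l T) * (U : Matrix l l T) * (((τ⁻¹ : GL l T) : Matrix l l T) *
        (τ : Matrix l l T)) * A * ((τ⁻¹ : GL l T) : Matrix l l T) := by
        simp only [Matrix.mul_assoc]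
    _ = (τ : Matrix l l T) * B * (((τ⁻¹ : GL l T) : Matrix l l T) *
        (τ : Matrix l l T)) * (U : Matrix l l T) * ((τ⁻¹ : GL l T) : Matrix l l T) := by
        rw [Units.inv_mul, Matrix.mul_one, Matrix.mul_one, Matrix.mul_assoc (τ : Matrix l l T), h,
          Matrix.mul_assoc (τ : Matrix l l T) B]
    _ = _ := by simp only [Matrix.mul_assoc]

theorem ExtS_map_lin {l : Type} [Fintype l] [DecidableEq l] {F T' : Type} [CommRing F]
    [CommRing T'] (f' : F →+* T') (κ m : F) (X : Matrix l l F) :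
    (κ • (1 : Matrix l l F) + m • X).map f' = f' κ • (1 : Matrix l l T') + f' m • X.map f' := by
  have h1 := map_smul_mat f' κ (1 : Matrix l l F)
  have h2 := map_smul_mat f' m X
  have h3 : f'.mapMatrix (κ • (1 : Matrix l l F) + m • X) =
      f'.mapMatrix (κ • (1 : Matrix l l F)) + f'.mapMatrix (m • X) := map_add _ _ _
  rw [h1, h2, map_one] at h3
  exact h3

theorem ExtS_lin {l : Type} [Fintype l] [DecidableEq l] {F T' : Type} [CommRing F] [CommRing T']
    (f' : F →+* T') {A : Matrix l l T'} {X : Matrix l l F} (κ m : F)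
    (h : A * X.map f' = X.map f' * A) :
    A * (κ • (1 : Matrix l l F) + m • X).map f' =
      (κ • (1 : Matrix l l F) + m • X).map f' * A := by
  rw [ExtS_map_lin, Matrix.mul_add, Matrix.add_mul, Matrix.mul_smul, Matrix.mul_smul,
    Matrix.smul_mul, Matrix.smul_mul, h, Matrix.mul_one, Matrix.one_mul]

theorem ExtS_unlin {l : Type} [Fintype l] [DecidableEq l] {F T' : Type} [Field F] [CommRing T']
    (f' : F →+* T') {A : Matrix l l T'} {X : Matrix l l F} {κ m : F} (hm : m ≠ 0)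
    (h : A * (κ • (1 : Matrix l l F) + m • X).map f' =
      (κ • (1 : Matrix l l F) + m • X).map f' * A) :
    A * X.map f' = X.map f' * A := by
  rw [ExtS_map_lin, Matrix.mul_add, Matrix.add_mul, Matrix.mul_smul, Matrix.mul_smul,
    Matrix.smul_mul, Matrix.smul_mul, Matrix.mul_one, Matrix.one_mul] at h
  have h1 := congrArg (fun Z => f' m⁻¹ • Z) (add_left_cancel h)
  simp only [smul_smul] at h1
  rw [← map_mul, inv_mul_cancel₀ hm, map_one, one_smul, one_smul] at h1
  exact h1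

theorem ExtS_mon {M : Type} [Monoid M] {P Pi Q Qi t ti tT tiT U UT : M} (hP : P * Pi = 1)
    (hQ : Qi * Q = 1) (ht : t * ti = 1) (htT : tiT * tT = 1)
    (h1 : Q * UT * Qi * U = 1) (h2 : U * (Q * tT * Pi * t) = (Q * tT * Pi * t) * U) :
    P * (tiT * UT * tT) * Pi * (t * U * ti) = 1 := by
  calc P * (tiT * UT * tT) * Pi * (t * U * ti) =
        P * tiT * UT * (Qi * Q) * tT * Pi * t * U * ti := by
        rw [hQ, mul_one]
        simp only [mul_assoc]
    _ = P * tiT * UT * Qi * ((Q * tT * Pi * t) * U) * ti := by simp only [mul_assoc]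
    _ = P * tiT * (Qi * Q) * UT * Qi * (U * (Q * tT * Pi * t)) * ti := by
        rw [h2, hQ, mul_one]
    _ = P * tiT * Qi * (Q * UT * Qi * U) * Q * tT * Pi * (t * ti) := by simp only [mul_assoc]
    _ = P * tiT * (Qi * Q) * tT * Pi := by
        rw [h1, ht, mul_one, mul_one]
        simp only [mul_assoc]
    _ = P * (tiT * tT) * Pi := by
        rw [hQ, mul_one]
        simp only [mul_assoc]
    _ = 1 := by rw [htT, mul_one, hP]

theorem ExtS_N {l F : Type} [Field F] [Fintype l] [DecidableEq l] (σ : F ≃+* F) (t P : GL l F)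
    {X Y : Matrix l l F} (h1 : rv P Y = X) (h2 : rv P (ExA_phi σ t Y) = ExA_phi σ t X) :
    ((P : Matrix l l F).map σ * (t : Matrix l l F)ᵀ * ((P⁻¹ : GL l F) : Matrix l l F) *
      (t : Matrix l l F)) * X.map σ =
    X.map σ * ((P : Matrix l l F).map σ * (t : Matrix l l F)ᵀ *
      ((P⁻¹ : GL l F) : Matrix l l F) * (t : Matrix l l F)) := by
  have hm : ∀ A B : Matrix l l F, (A * B).map σ = A.map σ * B.map σ :=
    fun A B => Matrix.map_mul (f := (σ : F →+* F))
  have e1 := ExA_phi_mul σ t X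
  have e1' := ExA_phi_mul σ t Y
  have e2 : ∀ Z : Matrix l l F, ((P⁻¹ : GL l F) : Matrix l l F) * rv P Z =
      Zᵀ * ((P⁻¹ : GL l F) : Matrix l l F) := by
    intro Z
    rw [rv, ← Matrix.mul_assoc, ← Matrix.mul_assoc, Units.inv_mul, Matrix.one_mul]
  have e3 : (t : Matrix l l F)ᵀ * (ExA_phi σ t Y)ᵀ = (Y.map σ)ᵀ * (t : Matrix l l F)ᵀ := by
    rw [← Matrix.transpose_mul, e1', Matrix.transpose_mul]
  have e4 : (P : Matrix l l F).map σ * (Y.map σ)ᵀ = X.map σ * (P : Matrix l l F).map σ := by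
    have e5 : (P : Matrix l l F) * Yᵀ = X * (P : Matrix l l F) := by
      rw [← h1, rv, Matrix.mul_assoc _ ((P⁻¹ : GL l F) : Matrix l l F), Units.inv_mul,
        Matrix.mul_one]
    rw [← hm, ← e5, hm]
    rfl
  calc ((P : Matrix l l F).map σ * (t : Matrix l l F)ᵀ * ((P⁻¹ : GL l F) : Matrix l l F) *
      (t : Matrix l l F)) * X.map σ =
        (P : Matrix l l F).map σ * (t : Matrix l l F)ᵀ * ((P⁻¹ : GL l F) : Matrix l l F) *
        ((t : Matrix l l F) * X.map σ) := by simp only [Matrix.mul_assoc]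
    _ = (P : Matrix l l F).map σ * (t : Matrix l l F)ᵀ * (((P⁻¹ : GL l F) : Matrix l l F) *
        rv P (ExA_phi σ t Y)) * (t : Matrix l l F) := by
        rw [← e1, ← h2]
        simp only [Matrix.mul_assoc]
    _ = (P : Matrix l l F).map σ * ((t : Matrix l l F)ᵀ * (ExA_phi σ t Y)ᵀ) *
        ((P⁻¹ : GL l F) : Matrix l l F) * (t : Matrix l l F) := by
        rw [e2]
        simp only [Matrix.mul_assoc]
    _ = ((P : Matrix l l F).map σ * (Y.map σ)ᵀ) * (t : Matrix l l F)ᵀ *
        ((P⁻¹ : GL l F) : Matrix l l F) * (t : Matrix l l F) := by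
        rw [e3]
        simp only [Matrix.mul_assoc]
    _ = _ := by
        rw [e4]
        simp only [Matrix.mul_assoc]

section

variable {F : Type} [Field F] {s : ℕ} (D : Dat F s) {σ : F ≃+* F} {μ : F}

/-- The transport of matrices over `F`. -/
theorem ExtS_tr (t : GL (Lx s) F) {T T' : Type} [CommRing T] [CommRing T'] (f : F →+* T)
    (f' : F →+* T') (h : T →+* T') (hf : ∀ c, h (f c) = f' (σ c)) (X : Matrix (Lx s) (Lx s) F) :
    (ExA_phi σ t X).map f' =
      ((GeneralLinearGroup.map f' t : GL (Lx s) T') : Matrix (Lx s) (Lx s) T') *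
        (X.map f).map h *
        (((GeneralLinearGroup.map f' t)⁻¹ : GL (Lx s) T') : Matrix (Lx s) (Lx s) T') := by
  have h1 : (X.map f).map h = (X.map σ).map f' := by
    ext i j
    exact hf _
  have h2 : ((GeneralLinearGroup.map f' t : GL (Lx s) T') : Matrix (Lx s) (Lx s) T') =
      (t : Matrix (Lx s) (Lx s) F).map f' := rfl
  have h3 : (((GeneralLinearGroup.map f' t)⁻¹ : GL (Lx s) T') : Matrix (Lx s) (Lx s) T') =
      ((t⁻¹ : GL (Lx s) F) : Matrix (Lx s) (Lx s) F).map f' := rfl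
  rw [h1, h2, h3, ← Matrix.map_mul, ← Matrix.map_mul]
  rfl

/-- `t (γ v)^σ = γ(G v) c t` for all vectors. -/
theorem ExtS_all {t : GL (Lx s) F} {κ m : F} (hκo : D.o → κ = 1 ∧ m = 0)
    {g G : (Ix s → F) → (Ix s → F)}
    (ht : ∀ v ∈ D.V, (t : Matrix (Lx s) (Lx s) F) * (D.γ v).map σ =
        D.γ (g v) * (κ • 1 + m • D.z) * (t : Matrix (Lx s) (Lx s) F))
    (htw : D.o → (t : Matrix (Lx s) (Lx s) F) * (D.g (iw 0)).map σ =
        D.g (iw 0) * (t : Matrix (Lx s) (Lx s) F))
    (Gadd : ∀ v w, G (v + w) = G v + G w) (Gsmul : ∀ (c : F) v, G (c • v) = σ c • G v)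
    (GV : ∀ v ∈ D.V, G v = g v) (Gw : D.o → G (bv F (iw 0)) = bv F (iw 0)) (v : Ix s → F) :
    ExA_phi σ t (D.γ v) = D.γ (G v) * (κ • 1 + m • D.z) := by
  by_cases ho : D.o
  · obtain ⟨rfl, rfl⟩ := hκo ho
    have hmem : v - v (iw 0) • bv F (iw 0) ∈ D.V := by
      intro _
      rw [Pi.sub_apply, Pi.smul_apply, bv_apply, if_pos rfl, smul_eq_mul, mul_one, sub_self]
    have e0 : (v - v (iw 0) • bv F (iw 0)) + v (iw 0) • bv F (iw 0) = v := sub_add_cancel _ _
    have e1 : D.γ v = D.γ (v - v (iw 0) • bv F (iw 0)) + v (iw 0) • D.g (iw 0) := by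
      change gv D.g v = gv D.g (v - v (iw 0) • bv F (iw 0)) + _
      conv_lhs => rw [← e0]
      rw [gv_add, gv_smul, gv_bv]
    have e2 : D.γ (G v) = D.γ (G (v - v (iw 0) • bv F (iw 0))) + σ (v (iw 0)) • D.g (iw 0) := by
      change gv D.g (G v) = gv D.g (G (v - v (iw 0) • bv F (iw 0))) + _
      conv_lhs => rw [← e0]
      rw [Gadd, Gsmul, Gw ho, gv_add, gv_smul, gv_bv]
    rw [e1, map_add, ExA_phi_smul, ExA_eq σ t (ht _ hmem), ExA_eq σ t (htw ho), e2, GV _ hmem,
      one_smul, zero_smul, add_zero, Matrix.mul_one, Matrix.mul_one]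
  · have hmem : v ∈ D.V := fun h' => absurd h' ho
    rw [ExA_eq σ t (ht v hmem), GV v hmem]

end

theorem tExtS (cen : CenStmt) : ExtSStmt := by
  intro F _ _ s D σ μ g hg t κ m hN hκo ht htw T T' _ _ f f' h hf u hu
  have hF := D.good.frame
  have hne := D.good.nonempty
  have hd : D.a ^ 2 - 4 * D.b ≠ 0 := D.good.disc.ne_zero
  obtain ⟨G, Gadd, Gsmul, Gq, GV, Gw⟩ := Ext_G D hg
  have hall := ExtS_all D hκo ht htw Gadd Gsmul GV Gw
  set ζ := D.z with hζ
  set c : Matrix (Lx s) (Lx s) F := κ • 1 + m • ζ with hc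
  set cb : Matrix (Lx s) (Lx s) F := κ • 1 + m • (D.a • 1 - ζ) with hcb
  have hζγ : ∀ v, ζ * D.γ v = D.γ v * (D.a • 1 - ζ) := fun v => hF.zt_gv s D.g v
  have hζζ : ζ * ζ = D.a • ζ - D.b • 1 := IsFrame.zt_sq s D.g hF
  have hcγ : ∀ v, c * D.γ v = D.γ v * cb := by
    intro v
    rw [hc, hcb, Matrix.add_mul, Matrix.mul_add, Matrix.smul_mul, Matrix.smul_mul, hζγ,
      Matrix.mul_smul, Matrix.mul_smul, Matrix.one_mul, Matrix.mul_one]
  have hcc : cb * c = μ⁻¹ • 1 := by
    have h2 : (D.a • 1 - ζ) * ζ = D.b • (1 : Matrix (Lx s) (Lx s) F) := by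
      rw [Matrix.sub_mul, Matrix.smul_mul, Matrix.one_mul, hζζ]
      abel
    rw [← hN, hc, hcb, Matrix.add_mul, Matrix.smul_mul, Matrix.one_mul, Matrix.mul_add,
      Matrix.mul_smul, Matrix.mul_one, Matrix.mul_smul, Matrix.smul_mul, h2]
    simp only [smul_add, smul_sub, smul_smul, add_smul]
    have e1 : κ * (m * D.a) = D.a * κ * m := by ring
    have e2 : m * (m * D.b) = D.b * m ^ 2 := by ring
    have e3 : κ * κ = κ ^ 2 := by ring
    rw [e1, e2, e3]
    abel
  have hμ : μ⁻¹ ≠ 0 := inv_ne_zero hg.ne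
  -- `G` is bijective
  have Gsurj : Function.Surjective G := by
    apply Finite.surjective_of_injective
    intro v w hvw
    have G0 : ∀ u, G (v - w + u) = G u := by
      intro u
      have h1 : v - w + u = v + ((-1 : F) • w + u) := by
        rw [neg_one_smul]
        abel
      rw [h1, Gadd, Gadd, Gsmul, map_neg, map_one, neg_one_smul, hvw, ← add_assoc, add_neg_cancel,
        zero_add]
    have key : ∀ u, qf D.a D.b (v - w + u) = qf D.a D.b u := by
      intro u
      have h1 := Gq (v - w + u)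
      rw [G0, Gq] at h1
      exact (σ.injective (mul_left_cancel₀ hg.ne h1)).symm
    have h0 : qf D.a D.b (v - w) = 0 := by
      have h1 := key 0
      rwa [add_zero, qf_zero] at h1
    rw [← sub_eq_zero]
    refine nondeg D.good.disc fun u => ?_
    have h1 := key u
    rw [qf_add, h0, zero_add] at h1
    exact add_left_cancel (h1.trans (add_zero _).symm)
  -- products
  have hprod : ∀ v w, ExA_phi σ t (D.γ v * D.γ w) = μ⁻¹ • (D.γ (G v) * D.γ (G w)) := by
    intro v w
    rw [map_mul, hall, hall]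
    calc D.γ (G v) * c * (D.γ (G w) * c) = D.γ (G v) * (c * D.γ (G w)) * c := by
          simp only [Matrix.mul_assoc]
      _ = D.γ (G v) * D.γ (G w) * (cb * c) := by
        rw [hcγ]
        simp only [Matrix.mul_assoc]
      _ = _ := by rw [hcc, Matrix.mul_smul, Matrix.mul_one]
  -- (1) the image of `ζ`
  obtain ⟨κ', m', hm', hZ⟩ : ∃ κ' m' : F, m' ≠ 0 ∧ ExA_phi σ t ζ = κ' • 1 + m' • ζ := by
    obtain ⟨κ', m', hZ⟩ := cen F (Lx s) D.a D.b s D.g hd D.good.card hF (ExA_phi σ t ζ)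
      (fun i j => by
        obtain ⟨v, hv⟩ := Gsurj (bv F i)
        obtain ⟨w, hw⟩ := Gsurj (bv F j)
        have e1 := hprod v w
        rw [hv, hw] at e1
        have e2 : D.g i * D.g j = μ • ExA_phi σ t (D.γ v * D.γ w) := by
          rw [e1, smul_smul, mul_inv_cancel₀ hg.ne, one_smul]
          change D.g i * D.g j = gv D.g (bv F i) * gv D.g (bv F j)
          rw [gv_bv, gv_bv]
        have e3 : D.γ v * D.γ w * ζ = ζ * (D.γ v * D.γ w) := D.good.zt_comm v w
        rw [e2, Matrix.mul_smul, Matrix.smul_mul, ← map_mul, ← map_mul, e3])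
    refine ⟨κ', m', ?_, hZ⟩
    rintro rfl
    rw [zero_smul, add_zero] at hZ
    have e1 : ζ = σ.symm κ' • (1 : Matrix (Lx s) (Lx s) F) := by
      apply ExA_phi_inj σ t
      rw [hZ, ExA_phi_smul, map_one, σ.apply_symm_apply]
    set r := σ.symm κ' with hr
    have e2 : r = D.a - r := by
      apply smul_one_inj (l := Lx s)
      have e3 := hζγ (bv F (iw 0))
      have e4 : D.γ (bv F (iw 0)) * D.γ (bv F (iw 0)) = 1 := by
        change gv D.g (bv F (iw 0)) * gv D.g (bv F (iw 0)) = 1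
        rw [hF.gv_sq, qf_w0, one_smul]
      rw [e1, Matrix.smul_mul, Matrix.one_mul, ← sub_smul, Matrix.mul_smul, Matrix.mul_one] at e3
      have e5 := congrArg (fun X => X * D.γ (bv F (iw 0))) e3
      simp only [Matrix.smul_mul, e4] at e5
      exact e5
    have e3 : r * r = D.a * r - D.b := by
      apply smul_one_inj (l := Lx s)
      have e4 := hζζ
      rw [e1, Matrix.smul_mul, Matrix.one_mul, smul_smul, smul_smul, ← sub_smul] at e4
      exact e4
    apply hd
    linear_combination (2 * r - D.a) * e2 - 4 * e3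
  -- notation over `T'`
  obtain ⟨τ, hτ⟩ : ∃ τ, τ = GeneralLinearGroup.map f' t := ⟨_, rfl⟩
  have htr := ExtS_tr (s := s) (σ := σ) t f f' h hf
  rw [← hτ] at htr ⊢
  have hS := mem_SG.1 hu
  have key : ∀ v : GL (Lx s) T, v ∈ D.S f → ∀ X : Matrix (Lx s) (Lx s) F,
      (v : Matrix (Lx s) (Lx s) T) * X.map f = X.map f * (v : Matrix (Lx s) (Lx s) T) →
      ((τ * GeneralLinearGroup.map h v * τ⁻¹ : GL (Lx s) T') : Matrix (Lx s) (Lx s) T') *
        (ExA_phi σ t X).map f' = (ExA_phi σ t X).map f' *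
        ((τ * GeneralLinearGroup.map h v * τ⁻¹ : GL (Lx s) T') : Matrix (Lx s) (Lx s) T') := by
    intro v _ X hX
    rw [htr]
    apply ExtS_conj
    change (v : Matrix (Lx s) (Lx s) T).map h * _ = _ * (v : Matrix (Lx s) (Lx s) T).map h
    rw [← Matrix.map_mul, hX, Matrix.map_mul]
  have hzT : ∀ {S : Type} [CommRing S] (q : F →+* S), zt (q D.a) s (D.gT q) = ζ.map q :=
    fun q => zt_mat q D.a D.g
  -- commutation with `ζ`
  have hzc : ∀ v : GL (Lx s) T, v ∈ D.S f →
      ((τ * GeneralLinearGroup.map h v * τ⁻¹ : GL (Lx s) T') : Matrix (Lx s) (Lx s) T') *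
        ζ.map f' = ζ.map f' *
        ((τ * GeneralLinearGroup.map h v * τ⁻¹ : GL (Lx s) T') : Matrix (Lx s) (Lx s) T') := by
    intro v hv
    have h1 := (mem_SG.1 hv).1
    rw [hzT f] at h1
    have h2 := key v hv ζ h1
    rw [hZ] at h2
    exact ExtS_unlin f' hm' h2
  -- the vectors
  have hcinv : c.map f' * (μ • cb).map f' = 1 := by
    have h1 : (μ • cb) * c = 1 := by
      rw [Matrix.smul_mul, hcc, smul_smul, mul_inv_cancel₀ hg.ne, one_smul]
    rw [← Matrix.map_mul, mul_eq_one_comm.1 h1]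
    exact Matrix.map_one f' (map_zero f') (map_one f')
  have vec : ∀ v : GL (Lx s) T, v ∈ D.S f → ∀ y : Ix s → T', ∃ y' : Ix s → T',
      ((τ * GeneralLinearGroup.map h v * τ⁻¹ : GL (Lx s) T') : Matrix (Lx s) (Lx s) T') *
        gv (D.gT f') y = gv (D.gT f') y' *
        ((τ * GeneralLinearGroup.map h v * τ⁻¹ : GL (Lx s) T') : Matrix (Lx s) (Lx s) T') := by
    intro v hv
    set V' : Matrix (Lx s) (Lx s) T' :=
      ((τ * GeneralLinearGroup.map h v * τ⁻¹ : GL (Lx s) T') : Matrix (Lx s) (Lx s) T') with hV'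
    have hcV : V' * c.map f' = c.map f' * V' := ExtS_lin f' κ m (hzc v hv)
    have hb : ∀ j, ∃ y' : Ix s → T', V' * D.gT f' j = gv (D.gT f') y' * V' := by
      intro j
      obtain ⟨w, hw⟩ := Gsurj (bv F j)
      obtain ⟨z, hz⟩ := (mem_SG.1 hv).2.2.1 (fun i => f (w i))
      have e0 : gv (D.gT f) (fun i => f (w i)) = (D.γ w).map f := gv_mat f D.g w
      rw [e0] at hz
      have e1 : ((GeneralLinearGroup.map h v : GL (Lx s) T') : Matrix (Lx s) (Lx s) T') *
          ((D.γ w).map f).map h = (gv (D.gT f) z).map h *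
          ((GeneralLinearGroup.map h v : GL (Lx s) T') : Matrix (Lx s) (Lx s) T') := by
        change (v : Matrix (Lx s) (Lx s) T).map h * _ = _ * (v : Matrix (Lx s) (Lx s) T).map h
        rw [← Matrix.map_mul, hz, Matrix.map_mul]
      have e2 := ExtS_conj (τ := τ) e1
      rw [← htr, hall, hw, ← hV'] at e2
      have e3 : (τ : Matrix (Lx s) (Lx s) T') * (gv (D.gT f) z).map h *
          ((τ⁻¹ : GL (Lx s) T') : Matrix (Lx s) (Lx s) T') =
          gv (D.gT f') (∑ i, h (z i) • (fun k => f' (G (bv F i) k))) * c.map f' := by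
        have e4 : (gv (D.gT f) z).map h = ∑ i, h (z i) • ((D.g i).map f).map h := by
          have e5 : h.mapMatrix (gv (D.gT f) z) = ∑ i, h (z i) • h.mapMatrix ((D.g i).map f) := by
            rw [gv, map_sum]
            exact Finset.sum_congr rfl fun i _ => map_smul_mat h _ _
          exact e5
        rw [e4, Finset.mul_sum, Finset.sum_mul, gv_sum, Finset.sum_mul]
        refine Finset.sum_congr rfl fun i _ => ?_
        rw [Matrix.mul_smul, Matrix.smul_mul, gv_smul, Matrix.smul_mul, ← htr]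
        have e6 : ExA_phi σ t (D.g i) = D.γ (G (bv F i)) * c := by
          rw [← hall]
          change _ = ExA_phi σ t (gv D.g (bv F i))
          rw [gv_bv]
        have e7 : gv (D.gT f') (fun k => f' (G (bv F i) k)) = (D.γ (G (bv F i))).map f' :=
          gv_mat f' D.g _
        rw [e6, Matrix.map_mul, e7]
      rw [e3] at e2
      have e8 : (D.γ (bv F j) * c).map f' = D.gT f' j * c.map f' := by
        change (gv D.g (bv F j) * c).map f' = _
        rw [gv_bv, Matrix.map_mul]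
        rfl
      rw [e8] at e2
      refine ⟨∑ i, h (z i) • (fun k => f' (G (bv F i) k)), ?_⟩
      have e9 := congrArg (fun Z => Z * (μ • cb).map f') e2
      simp only [Matrix.mul_assoc] at e9
      rw [hcinv, Matrix.mul_one, ← Matrix.mul_assoc (c.map f') V', ← hcV,
        Matrix.mul_assoc V' (c.map f'), hcinv, Matrix.mul_one] at e9
      exact e9
    choose y' hy' using hb
    intro y
    refine ⟨∑ j, y j • y' j, ?_⟩
    rw [gv_sum, gv, Finset.mul_sum, Finset.sum_mul]
    refine Finset.sum_congr rfl fun j _ => ?_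
    rw [gv_smul, Matrix.mul_smul, Matrix.smul_mul, hy']
  -- the norm
  have hN' : ∃ κ₁ m₁ : F, (D.P : Matrix (Lx s) (Lx s) F).map σ * (t : Matrix (Lx s) (Lx s) F)ᵀ *
      ((D.P⁻¹ : GL (Lx s) F) : Matrix (Lx s) (Lx s) F) * (t : Matrix (Lx s) (Lx s) F) =
      κ₁ • 1 + m₁ • ζ.map σ := by
    have hgm := D.good.map (σ : F →+* F)
    obtain ⟨κ₁, m₁, h1⟩ := cen F (Lx s) (σ D.a) (σ D.b) s (fun i => (D.g i).map (σ : F →+* F))
      hgm.disc.ne_zero hgm.card hgm.frame
      ((D.P : Matrix (Lx s) (Lx s) F).map σ * (t : Matrix (Lx s) (Lx s) F)ᵀ *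
      ((D.P⁻¹ : GL (Lx s) F) : Matrix (Lx s) (Lx s) F) * (t : Matrix (Lx s) (Lx s) F))
      (fun i j => by
        have e1 : (D.g i).map (σ : F →+* F) * (D.g j).map (σ : F →+* F) =
            (D.g i * D.g j).map (σ : F →+* F) := Matrix.map_mul.symm
        rw [e1]
        have e2 : ∀ k, D.γ (bv F k) = D.g k := fun k => gv_bv D.g k
        refine ExtS_N σ t D.P (Y := D.g j * D.g i) ?_ ?_
        · rw [rv_mul, D.good.rev, D.good.rev]
        · rw [← e2 i, ← e2 j, hprod, hprod, rv_smul, rv_mul, D.good.rv_gv, D.good.rv_gv])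
    refine ⟨κ₁, m₁, ?_⟩
    rw [h1]
    have h2 : zt (σ D.a) s (fun i => (D.g i).map (σ : F →+* F)) = ζ.map (σ : F →+* F) :=
      zt_mat (σ : F →+* F) D.a D.g
    rw [h2]
    rfl
  refine mem_SG.2 ⟨?_, ?_, vec u hu, ?_, ?_⟩
  · rw [hzT f']
    exact hzc u hu
  · obtain ⟨κ₁, m₁, hN'⟩ := hN'
    set U := GeneralLinearGroup.map h u with hU
    have hUc : (U : Matrix (Lx s) (Lx s) T') = (u : Matrix (Lx s) (Lx s) T).map h := rfl
    have h1 : rv (GeneralLinearGroup.map h (D.PT f)) (U : Matrix (Lx s) (Lx s) T') *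
        (U : Matrix (Lx s) (Lx s) T') = 1 := by
      rw [hUc, rv_map, ← Matrix.map_mul, hS.2.1]
      exact Matrix.map_one h (map_zero h) (map_one h)
    have hPT : ((GeneralLinearGroup.map h (D.PT f) : GL (Lx s) T') : Matrix (Lx s) (Lx s) T') =
        ((D.P : Matrix (Lx s) (Lx s) F).map σ).map f' := by
      ext i j
      exact hf _
    have hzz : (ζ.map σ).map f' = (ζ.map f).map h := by
      ext i j
      exact (hf _).symm
    have h2 : (U : Matrix (Lx s) (Lx s) T') * ((κ₁ • 1 + m₁ • ζ.map σ).map f') =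
        ((κ₁ • 1 + m₁ • ζ.map σ).map f') * (U : Matrix (Lx s) (Lx s) T') := by
      apply ExtS_lin
      have h3 := hS.1
      rw [hzT f] at h3
      rw [hzz, hUc, ← Matrix.map_mul, h3, Matrix.map_mul]
    rw [← hN', Matrix.map_mul, Matrix.map_mul, Matrix.map_mul, ← hPT] at h2
    have hτc : (t : Matrix (Lx s) (Lx s) F).map f' = (τ : Matrix (Lx s) (Lx s) T') := by
      rw [hτ]
      rfl
    have hτT : (t : Matrix (Lx s) (Lx s) F)ᵀ.map f' = (τ : Matrix (Lx s) (Lx s) T')ᵀ := by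
      rw [← hτc]
      rfl
    rw [hτc, hτT] at h2
    have hPi : (((D.P⁻¹ : GL (Lx s) F) : Matrix (Lx s) (Lx s) F)).map f' =
        (((D.PT f')⁻¹ : GL (Lx s) T') : Matrix (Lx s) (Lx s) T') := rfl
    rw [hPi] at h2
    have h4 := ExtS_mon (P := ((D.PT f' : GL (Lx s) T') : Matrix (Lx s) (Lx s) T'))
      (ti := ((τ⁻¹ : GL (Lx s) T') : Matrix (Lx s) (Lx s) T'))
      (tiT := ((τ⁻¹ : GL (Lx s) T') : Matrix (Lx s) (Lx s) T')ᵀ)
      (Units.mul_inv (D.PT f')) (Units.inv_mul (GeneralLinearGroup.map h (D.PT f)))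
      (Units.mul_inv τ) (by rw [← Matrix.transpose_mul, Units.mul_inv, Matrix.transpose_one]) h1 h2
    rw [← h4, rv, Units.val_mul, Units.val_mul, Matrix.transpose_mul, Matrix.transpose_mul,
      Matrix.mul_assoc (((τ⁻¹ : GL (Lx s) T') : Matrix (Lx s) (Lx s) T')ᵀ)]
  · intro y
    obtain ⟨y', hy'⟩ := vec u⁻¹ (inv_mem hu) y
    refine ⟨y', ?_⟩
    have e1 : τ * GeneralLinearGroup.map h u⁻¹ * τ⁻¹ =
        (τ * GeneralLinearGroup.map h u * τ⁻¹)⁻¹ := by
      rw [map_inv]
      group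
    rw [e1] at hy'
    set W := τ * GeneralLinearGroup.map h u * τ⁻¹ with hW
    calc gv (D.gT f') y * (W : Matrix (Lx s) (Lx s) T') =
          (W : Matrix (Lx s) (Lx s) T') * (((W⁻¹ : GL (Lx s) T') : Matrix (Lx s) (Lx s) T') *
            gv (D.gT f') y) * (W : Matrix (Lx s) (Lx s) T') := by
          rw [← Matrix.mul_assoc, Units.mul_inv, Matrix.one_mul]
      _ = _ := by
          rw [hy', Matrix.mul_assoc, Matrix.mul_assoc, Units.inv_mul, Matrix.mul_one]
  · intro ho
    have h1 : ExA_phi σ t (D.g (iw 0)) = D.g (iw 0) := ExA_eq σ t (htw ho)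
    have h2 := key u hu (D.g (iw 0)) (hS.2.2.2.2 ho)
    rw [h1] at h2
    exact h2

end MP7Z.Ort
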