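import Pool.Agent.Lib.MP_7f581e_Z.Ort.SpecB

/-!
# `A` preserves the spin group (`HxeStmt`)
-/

set_option autoImplicit false
set_option linter.unusedSectionVars false

namespace MP7Z.Ort

open TensorProduct MP7fS Matrix

theorem Hxe_S {F : Type} [Field F] {s : ℕ} (D : Dat F s) : D.S (RingHom.id F) = D.H := by
  have e1 : D.gT (RingHom.id F) = D.g := by
    funext i
    ext a b
    rfl
  have e2 : D.PT (RingHom.id F) = D.P := by
    apply Units.ext
    ext a b
    rfl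
  rw [Dat.S, e1, e2]
  rfl

theorem tHxe (ext : ExtStmt) (exa : ExAStmt) (exs : ExtSStmt) : HxeStmt := by
  intro p _ F _ _ _ s D x h
  obtain ⟨σ, μ, g, hS, hI⟩ := x.2.1
  obtain ⟨t, κ, m, h1, h2, h3, h4⟩ := ext F s D σ μ g hS
  have h5 := exs F s D σ μ g hS t κ m h1 h2 h3 h4 F F (RingHom.id F) (RingHom.id F)
    (σ : F →+* F) (fun c => rfl) (h : GL (Lx s) F) (by
      rw [Hxe_S]
      exact h.2)
  rw [Hxe_S] at h5
  refine ⟨⟨_, h5⟩, ?_⟩
  have h6 := (exa p F s D σ μ g hS t κ m h1 h3).1 (x : RingAut (D.C0 p)) hI (D.inc p h)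
  apply Subtype.ext
  have e2 : GeneralLinearGroup.map (RingHom.id F) t = t := by
    apply Units.ext
    ext a b
    rfl
  have h7 : ((((x : RingAut (D.C0 p)) (D.inc p h) : D.C0 p)) : Matrix (Lx s) (Lx s) F) =
      (t : Matrix (Lx s) (Lx s) F) * (((D.inc p h : D.C0 p)) : Matrix (Lx s) (Lx s) F).map σ *
        ((t⁻¹ : GL (Lx s) F) : Matrix (Lx s) (Lx s) F) := by
    rw [← h6, Matrix.mul_assoc, Units.mul_inv, Matrix.mul_one]
  change ((GeneralLinearGroup.map (RingHom.id F) t * GeneralLinearGroup.map (σ : F →+* F)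
    (h : GL (Lx s) F) * (GeneralLinearGroup.map (RingHom.id F) t)⁻¹ : GL (Lx s) F) :
      Matrix (Lx s) (Lx s) F) = ((((x : RingAut (D.C0 p)) (D.inc p h) : D.C0 p)) :
        Matrix (Lx s) (Lx s) F)
  rw [e2, h7]
  rfl

end MP7Z.Ort
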