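import Pool.Agent.Lib.MP_7f581e_Z.Ort.SpecA

/-!
# Lang's theorem for the spin group
-/

set_option autoImplicit false
set_option linter.unusedSectionVars false

namespace MP7Z.Ort

open TensorProduct MP7fS Matrix

theorem LangO_vec {s : ℕ} {T C : Type} [CommRing T] [Ring C] [Algebra T C] (g : Ix s → C)
    (S : Matrix (Ix s) (Ix s) T) (v : Ix s → T) :
    gv g (v ᵥ* S) = ∑ i, v i • gv g (S i) := by
  have h : v ᵥ* S = ∑ i, v i • S i := Matrix.vecMul_eq_sum v S
  rw [h, gv_sum]
  exact Finset.sum_congr rfl fun i _ => gv_smul _ _ _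

theorem LangO_mul {s : ℕ} {l : Type} [Fintype l] [DecidableEq l] {T : Type} [CommRing T]
    (x g : Ix s → Matrix l l T) (y : Matrix l l T) (S : Matrix (Ix s) (Ix s) T)
    (h : ∀ i, y * x i = gv g (S i) * y) (v : Ix s → T) :
    y * gv x v = gv g (v ᵥ* S) * y := by
  rw [LangO_vec, gv, Finset.mul_sum, Finset.sum_mul]
  refine Finset.sum_congr rfl fun i _ => ?_
  rw [Matrix.mul_smul, Matrix.smul_mul, h]

section desc

variable {s : ℕ} {l : Type} [Fintype l] [DecidableEq l] {K k : Type} [CommRing K] [CommRing k]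
  (f : K →+* k) (hf : Function.Injective f)

include hf

theorem LangO_inj {X Y : Matrix l l K} (h : X.map f = Y.map f) : X = Y :=
  Matrix.map_injective hf h

theorem LangO_frame {a b : K} (x : Ix s → Matrix l l K)
    (h : IsFrame (f a) (f b) (fun i => (x i).map f)) : IsFrame a b x := by
  have hs : ∀ c : K, (c • (1 : Matrix l l K)).map f = f c • (1 : Matrix l l k) := by
    intro c
    have h1 := map_smul_mat (l := l) f c 1
    rw [map_one] at h1
    exact h1
  refine ⟨fun i => ?_, fun i j hij => ?_⟩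
  · apply LangO_inj f hf
    rw [Matrix.map_mul, hs, ← qf_map, bv_map]
    exact h.sq i
  · apply LangO_inj f hf
    rw [hs, ← bf_map, bv_map, bv_map]
    refine Eq.trans ?_ (h.anti i j hij)
    rw [Matrix.map_add f (map_add f), Matrix.map_mul, Matrix.map_mul]

end desc

/-- Injectivity of the map from vectors to matrices. -/
theorem LangO_gv_inj {s : ℕ} {l : Type} [Fintype l] [DecidableEq l] [Nonempty l] {T : Type}
    [CommRing T] {a b : T} {g : Ix s → Matrix l l T} (hd : IsUnit (a ^ 2 - 4 * b))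
    (h : IsFrame a b g) {v w : Ix s → T} (hvw : gv g v = gv g w) : v = w := by
  rw [← sub_eq_zero]
  refine nondeg hd fun y => ?_
  apply smul_one_inj (l := l)
  rw [zero_smul, ← h.gv_anti, gv_sub, hvw, sub_self, zero_mul, mul_zero, add_zero]

/-- Conjugation by an invertible matrix. -/
def LangO_conj {l : Type} [Fintype l] [DecidableEq l] {T : Type} [CommRing T] (c : GL l T) :
    Matrix l l T →+* Matrix l l T where
  toFun X := (c : Matrix l l T) * X * ((c⁻¹ : GL l T) : Matrix l l T)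
  map_one' := by rw [Matrix.mul_one, Units.mul_inv]
  map_zero' := by rw [Matrix.mul_zero, Matrix.zero_mul]
  map_add' X Y := by rw [Matrix.mul_add, Matrix.add_mul]
  map_mul' X Y := by
    have hl : ((c⁻¹ : GL l T) : Matrix l l T) * (c : Matrix l l T) = 1 := Units.inv_mul c
    simp only [Matrix.mul_assoc]
    rw [← Matrix.mul_assoc ((c⁻¹ : GL l T) : Matrix l l T) (c : Matrix l l T), hl,
      Matrix.one_mul]

theorem LangO_zt {s : ℕ} {l : Type} [Fintype l] [DecidableEq l] {T : Type} [CommRing T] (a : T)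
    (g x : Ix s → Matrix l l T) (c : GL l T)
    (h : ∀ i, (c : Matrix l l T) * g i = x i * (c : Matrix l l T)) :
    (c : Matrix l l T) * zt a s g = zt a s x * (c : Matrix l l T) := by
  have hl : ((c⁻¹ : GL l T) : Matrix l l T) * (c : Matrix l l T) = 1 := Units.inv_mul c
  have hr : (c : Matrix l l T) * ((c⁻¹ : GL l T) : Matrix l l T) = 1 := Units.mul_inv c
  have h1 := zt_map (RingHom.id T) (LangO_conj c) (fun d X => by
    change (c : Matrix l l T) * (d • X) * _ = d • ((c : Matrix l l T) * X * _)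
    rw [Matrix.mul_smul, Matrix.smul_mul]) a s g
  have h2 : (fun i => LangO_conj c (g i)) = x := by
    funext i
    change (c : Matrix l l T) * g i * ((c⁻¹ : GL l T) : Matrix l l T) = x i
    rw [h, Matrix.mul_assoc, hr, Matrix.mul_one]
  rw [h2, RingHom.id_apply] at h1
  have h3 : zt a s x = (c : Matrix l l T) * zt a s g * ((c⁻¹ : GL l T) : Matrix l l T) := h1
  rw [h3, Matrix.mul_assoc, hl, Matrix.mul_one]

/-- The frame over the finite field. -/
theorem LangO_A (hFrm : FrmStmt) (hAdj : AdjStmt) {s : ℕ} {l : Type} [Fintype l] [DecidableEq l]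
    {k : Type} [Field k] (K : Subfield k) [Finite K] (φ : k →+* k) (hφ : ∀ c : k, c ∈ K ↔ φ c = c)
    (hφM : ∀ X : Matrix l l k, X.map φ = X → ∃ Y : Matrix l l K, Y.map K.subtype = X)
    {a b : K} {g : Ix s → Matrix l l k} {P : GL l k} {o : Prop}
    (hG : Good (a : k) (b : k) g P o) (hg : ∀ i, (g i).map φ = g i) {u : GL l k}
    (hu : u ∈ SG (a : k) g P o) {y : GL l k} (hy : GeneralLinearGroup.map φ y = u * y)
    (S : GL (Ix s) k) (x : Ix s → Matrix l l K)
    (hx : ∀ i, (y : Matrix l l k) * (x i).map K.subtype =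
      gv g ((S : Matrix (Ix s) (Ix s) k) i) * (y : Matrix l l k)) :
    ∃ (x'' : Ix s → Matrix l l K), IsFrame a b x'' ∧
      (y : Matrix l l k) * (zt a s x'').map K.subtype = zt (a : k) s g * (y : Matrix l l k) ∧
      (∀ i, ∃ v : Ix s → K, x'' i = gv x v) ∧
      (o → (y : Matrix l l k) * (x'' (iw 0)).map K.subtype = g (iw 0) * (y : Matrix l l k)) := by
  have hl : Nonempty l := hG.nonempty
  have hinj : Function.Injective K.subtype := Subtype.val_injective
  have hyl : ((y⁻¹ : GL l k) : Matrix l l k) * (y : Matrix l l k) = 1 := Units.inv_mul y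
  have hyr : (y : Matrix l l k) * ((y⁻¹ : GL l k) : Matrix l l k) = 1 := Units.mul_inv y
  have hul : ((u⁻¹ : GL l k) : Matrix l l k) * (u : Matrix l l k) = 1 := Units.inv_mul u
  have hSl : ((S⁻¹ : GL (Ix s) k) : Matrix (Ix s) (Ix s) k) * (S : Matrix (Ix s) (Ix s) k) = 1 :=
    Units.inv_mul S
  have hSr : (S : Matrix (Ix s) (Ix s) k) * ((S⁻¹ : GL (Ix s) k) : Matrix (Ix s) (Ix s) k) = 1 :=
    Units.mul_inv S
  have hφy : (y : Matrix l l k).map φ = (u : Matrix l l k) * (y : Matrix l l k) := by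
    have h1 := congrArg (fun z : GL l k => (z : Matrix l l k)) hy
    exact h1
  -- cancellation
  have hc : ∀ X Y : Matrix l l k, (y : Matrix l l k) * X = (y : Matrix l l k) * Y → X = Y := by
    intro X Y h
    have h1 := congrArg (fun Z => ((y⁻¹ : GL l k) : Matrix l l k) * Z) h
    simp only [← Matrix.mul_assoc, hyl, Matrix.one_mul] at h1
    exact h1
  have hcr : ∀ X Y : Matrix l l k, X * (y : Matrix l l k) = Y * (y : Matrix l l k) → X = Y := by
    intro X Y h
    have h1 := congrArg (fun Z => Z * ((y⁻¹ : GL l k) : Matrix l l k)) h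
    simp only [Matrix.mul_assoc, hyr, Matrix.mul_one] at h1
    exact h1
  have hcu : ∀ X Y : Matrix l l k, (u : Matrix l l k) * X = (u : Matrix l l k) * Y → X = Y := by
    intro X Y h
    have h1 := congrArg (fun Z => ((u⁻¹ : GL l k) : Matrix l l k) * Z) h
    simp only [← Matrix.mul_assoc, hul, Matrix.one_mul] at h1
    exact h1
  -- fixed matrices
  have hfix : ∀ X Z : Matrix l l k, (y : Matrix l l k) * X = Z * (y : Matrix l l k) →
      Z.map φ = Z → (u : Matrix l l k) * Z = Z * (u : Matrix l l k) → X.map φ = X := by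
    intro X Z h1 h2 h3
    apply hc
    apply hcu
    rw [h1, ← Matrix.mul_assoc, ← Matrix.mul_assoc, ← hφy, ← Matrix.map_mul, h1, Matrix.map_mul,
      h2, hφy, h3, Matrix.mul_assoc]
  set xk : Ix s → Matrix l l k := fun i => (x i).map K.subtype with hxk
  have hxv : ∀ v : Ix s → k, (y : Matrix l l k) * gv xk v =
      gv g (v ᵥ* (S : Matrix (Ix s) (Ix s) k)) * (y : Matrix l l k) :=
    fun v => LangO_mul xk g _ _ hx v
  have hmap : ∀ v : Ix s → K, (gv x v).map K.subtype = gv xk (fun i => (v i : k)) :=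
    fun v => (gv_mat K.subtype x v).symm
  have hxvK : ∀ v : Ix s → K, (y : Matrix l l k) * (gv x v).map K.subtype =
      gv g ((fun i => (v i : k)) ᵥ* (S : Matrix (Ix s) (Ix s) k)) * (y : Matrix l l k) := by
    intro v
    rw [hmap, hxv]
  have hxinj : ∀ v w : Ix s → k, gv xk v = gv xk w → v = w := by
    intro v w hvw
    have h1 := congrArg (fun Z => (y : Matrix l l k) * Z) hvw
    simp only [hxv] at h1
    have h2 := hG.gv_inj (hcr _ _ h1)
    have h3 := congrArg (fun z => z ᵥ* ((S⁻¹ : GL (Ix s) k) : Matrix (Ix s) (Ix s) k)) h2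
    simp only [Matrix.vecMul_vecMul, hSr, Matrix.vecMul_one] at h3
    exact h3
  -- products
  have hprod : ∀ v w : Ix s → k, (y : Matrix l l k) * (gv xk v * gv xk w) =
      gv g (v ᵥ* (S : Matrix (Ix s) (Ix s) k)) * gv g (w ᵥ* (S : Matrix (Ix s) (Ix s) k)) *
        (y : Matrix l l k) := by
    intro v w
    rw [← Matrix.mul_assoc, hxv, Matrix.mul_assoc, hxv, ← Matrix.mul_assoc]
  have hsq : ∀ v : Ix s → k, gv xk v * gv xk v =
      qf (a : k) (b : k) (v ᵥ* (S : Matrix (Ix s) (Ix s) k)) • 1 := by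
    intro v
    apply hc
    rw [hprod, hG.frame.gv_sq, Matrix.smul_mul, Matrix.one_mul, Matrix.mul_smul, Matrix.mul_one]
  have hbf : ∀ v w : Ix s → k, gv xk v * gv xk w + gv xk w * gv xk v =
      bf (a : k) (b : k) (v ᵥ* (S : Matrix (Ix s) (Ix s) k))
        (w ᵥ* (S : Matrix (Ix s) (Ix s) k)) • 1 := by
    intro v w
    apply hc
    rw [Matrix.mul_add, hprod, hprod, ← Matrix.add_mul, hG.frame.gv_anti, Matrix.smul_mul,
      Matrix.one_mul, Matrix.mul_smul, Matrix.mul_one]
  obtain ⟨i₀⟩ := hl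
  have hl : Nonempty l := ⟨i₀⟩
  -- Frm
  have hA1 : ∀ v : Ix s → K, gv x v * gv x v = (gv x v * gv x v) i₀ i₀ • 1 := by
    intro v
    apply LangO_inj K.subtype hinj
    have hs := map_smul_mat (l := l) K.subtype ((gv x v * gv x v) i₀ i₀) 1
    rw [map_one] at hs
    have hs' : ((gv x v * gv x v) i₀ i₀ • (1 : Matrix l l K)).map K.subtype =
      K.subtype ((gv x v * gv x v) i₀ i₀) • (1 : Matrix l l k) := hs
    have h1 : (gv x v * gv x v).map K.subtype =
        qf (a : k) (b : k) ((fun i => (v i : k)) ᵥ* (S : Matrix (Ix s) (Ix s) k)) • 1 := by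
      rw [Matrix.map_mul, hmap, hsq]
    have h2 : K.subtype ((gv x v * gv x v) i₀ i₀) =
        qf (a : k) (b : k) ((fun i => (v i : k)) ᵥ* (S : Matrix (Ix s) (Ix s) k)) := by
      have h3 := congrFun (congrFun h1 i₀) i₀
      rw [Matrix.map_apply, Matrix.smul_apply, Matrix.one_apply_eq, smul_eq_mul, mul_one] at h3
      exact h3
    rw [hs', h2, h1]
  have hA2 : ∀ v : Ix s → K, (∀ v' : Ix s → K, gv x v * gv x v' + gv x v' * gv x v = 0) →
      v = 0 := by
    intro v hv
    have h1 : ∀ j, bf (a : k) (b : k) ((fun i => (v i : k)) ᵥ* (S : Matrix (Ix s) (Ix s) k))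
        ((S : Matrix (Ix s) (Ix s) k) j) = 0 := by
      intro j
      have h2 := congrArg (fun Z : Matrix l l K => Z.map K.subtype) (hv (bv K j))
      beta_reduce at h2
      rw [Matrix.map_add _ (map_add K.subtype), Matrix.map_mul, Matrix.map_mul, hmap, hmap,
        Matrix.map_zero _ (map_zero K.subtype), hbf] at h2
      have h3 : (fun i => (bv K j i : k)) ᵥ* (S : Matrix (Ix s) (Ix s) k) =
          (S : Matrix (Ix s) (Ix s) k) j := by
        have h4 : (fun i => (bv K j i : k)) = bv k j := bv_map K.subtype j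
        rw [h4, bv, Matrix.single_one_vecMul]
        rfl
      rw [h3] at h2
      apply smul_one_inj (l := l)
      rw [h2, zero_smul]
    have h2 : (fun i => (v i : k)) ᵥ* (S : Matrix (Ix s) (Ix s) k) = 0 := by
      refine nondeg hG.disc fun w => ?_
      have h3 : w = ∑ j, (w ᵥ* ((S⁻¹ : GL (Ix s) k) : Matrix (Ix s) (Ix s) k)) j •
          (S : Matrix (Ix s) (Ix s) k) j := by
        rw [← Matrix.vecMul_eq_sum, Matrix.vecMul_vecMul, hSl, Matrix.vecMul_one]
      rw [h3, bf_sum_right]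
      refine Finset.sum_eq_zero fun j _ => ?_
      rw [bf_smul_right, h1, mul_zero]
    have h3 : (fun i => (v i : k)) = 0 := by
      have h4 := congrArg (fun z => z ᵥ* ((S⁻¹ : GL (Ix s) k) : Matrix (Ix s) (Ix s) k)) h2
      simp only [Matrix.vecMul_vecMul, hSr, Matrix.vecMul_one, Matrix.zero_vecMul] at h4
      exact h4
    funext i
    exact Subtype.ext (congrFun h3 i)
  have hA3 : ∃ w : Ix s → K, o → (y : Matrix l l k) * (gv x w).map K.subtype =
      g (iw 0) * (y : Matrix l l k) := by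
    by_cases ho : o
    · set r : Ix s → k := bv k (iw 0) ᵥ* ((S⁻¹ : GL (Ix s) k) : Matrix (Ix s) (Ix s) k) with hr
      have h1 : (y : Matrix l l k) * gv xk r = g (iw 0) * (y : Matrix l l k) := by
        rw [hxv, hr, Matrix.vecMul_vecMul, hSl, Matrix.vecMul_one, gv_bv]
      have h2 : (gv xk r).map φ = gv xk r := hfix _ _ h1 (hg _) ((mem_SG.1 hu).2.2.2.2 ho)
      have h3 : (fun i => φ (r i)) = r := by
        apply hxinj
        have h4 := gv_mat φ xk r
        have h5 : (fun i => (xk i).map φ) = xk := by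
          funext i
          ext α β
          exact (hφ _).1 (x i α β).2
        rw [h5] at h4
        rw [h4, h2]
      have h4 : ∀ i, r i ∈ K := fun i => (hφ _).2 (congrFun h3 i)
      refine ⟨fun i => ⟨r i, h4 i⟩, fun _ => ?_⟩
      rw [hmap]
      exact h1
    · exact ⟨0, fun h => absurd h ho⟩
  obtain ⟨w, hw⟩ := hA3
  have hA4 : o → gv x w * gv x w = 1 ∧ (2 : K) ≠ 0 := by
    intro ho
    constructor
    · apply LangO_inj K.subtype hinj
      apply hc
      rw [Matrix.map_mul, ← Matrix.mul_assoc, hw ho, Matrix.mul_assoc, hw ho, ← Matrix.mul_assoc,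
        hG.frame.sq, qf_w0, one_smul, Matrix.one_mul, Matrix.map_one _ (map_zero _) (map_one _),
        Matrix.mul_one]
    · intro h2
      have h3 := (hG.odd ho).2.ne_zero
      apply h3
      have h4 : K.subtype 2 = 0 := by rw [h2, map_zero]
      rw [map_ofNat] at h4
      exact h4
  obtain ⟨a', b', x', hd', hF', hx', hxo'⟩ := hFrm K l s o x (fun v => (gv x v * gv x v) i₀ i₀) w
    hA1 hA2 hA4
  -- the central element
  have hfa : φ (a : k) = (a : k) := (hφ _).1 a.2
  have hz1 : (zt (a : k) s g).map φ = zt (a : k) s g := by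
    have h1 := zt_mat φ (a : k) g
    rw [hfa] at h1
    rw [← h1]
    congr 1
    funext i
    exact hg i
  set ζ₁ : Matrix l l k := ((y⁻¹ : GL l k) : Matrix l l k) * zt (a : k) s g * (y : Matrix l l k)
    with hζ₁
  have hz2 : (y : Matrix l l k) * ζ₁ = zt (a : k) s g * (y : Matrix l l k) := by
    rw [hζ₁, ← Matrix.mul_assoc, ← Matrix.mul_assoc, hyr, Matrix.one_mul]
  obtain ⟨ζ, hζ⟩ := hφM ζ₁ (hfix _ _ hz2 hz1 (mem_SG.1 hu).1)
  have hsm : ∀ (c : K) (X : Matrix l l K), (c • X).map K.subtype = (c : k) • X.map K.subtype :=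
    fun c X => map_smul_mat (l := l) K.subtype c X
  have h1m : (1 : Matrix l l K).map K.subtype = 1 := Matrix.map_one _ (map_zero _) (map_one _)
  have hB1 : ∀ v : Ix s → K, ζ * gv x v = gv x v * (a • 1 - ζ) := by
    intro v
    apply LangO_inj K.subtype hinj
    apply hc
    rw [Matrix.map_mul, hζ, ← Matrix.mul_assoc, hz2, Matrix.mul_assoc, hxvK, ← Matrix.mul_assoc,
      hG.frame.zt_gv, Matrix.map_mul, ← Matrix.mul_assoc, hxvK,
      Matrix.map_sub _ (map_sub K.subtype), hζ, hsm, h1m, Matrix.mul_assoc, Matrix.mul_assoc,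
      Matrix.mul_sub, hz2, Matrix.sub_mul, Matrix.mul_smul, Matrix.mul_one, Matrix.smul_mul,
      Matrix.one_mul]
  have hB2 : ζ * ζ = a • ζ - b • 1 := by
    apply LangO_inj K.subtype hinj
    apply hc
    rw [Matrix.map_mul, hζ, ← Matrix.mul_assoc, hz2, Matrix.mul_assoc, hz2, ← Matrix.mul_assoc,
      hG.frame.zt_sq, Matrix.map_sub _ (map_sub K.subtype), hsm, hsm, h1m, hζ, Matrix.mul_sub,
      Matrix.sub_mul, Matrix.mul_smul, hz2, Matrix.mul_smul, Matrix.smul_mul, Matrix.smul_mul,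
      Matrix.mul_one, Matrix.one_mul]
  have hdK : a ^ 2 - 4 * b ≠ 0 := by
    intro h
    have h1 := hG.disc.ne_zero
    apply h1
    have h4 : K.subtype (a ^ 2 - 4 * b) = 0 := by rw [h, map_zero]
    rw [map_sub, map_pow, map_mul, map_ofNat] at h4
    exact h4
  choose Y' hY' using hx'
  obtain ⟨κ, m, x'', hF'', hzx, hne, hw1⟩ := hAdj K l a b a' b' s x' ζ hdK hd' hG.card hF'
    (fun i => by rw [hY', hB1]) hB2
  refine ⟨x'', hF'', ?_, ?_, ?_⟩
  · rw [hzx, hζ, hz2]
  · intro i
    by_cases hi : i = iw 1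
    · rw [hi]
      refine ⟨κ • Y' (iw 0) + m • Y' (iw 1), ?_⟩
      rw [gv_add, gv_smul, gv_smul, hw1, hY', hY']
    · exact ⟨Y' i, by rw [hne i hi, hY']⟩
  · intro ho
    rw [hne (iw 0) (by simp), (hxo' ho).2, hw ho]

theorem tLangO (hFxM : FxMStmt) (hDes : DesStmt) (hFrm : FrmStmt) (hAdj : AdjStmt)
    (hTrf : TrfStmt) (hLaC : LaCStmt)
    (hL : ∀ (p : ℕ) [Fact p.Prime] (l : Type) [Fintype l] [DecidableEq l], LangS p (GLf l)) :
    LangOStmt := by
  intro p _ k _ _ _ l _ _ s m a b g P o hG hs hm ha hb hg hP u hu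
  obtain ⟨K, hKfin, hK, hKM, -⟩ := hFxM p k m hm
  have hφ : ∀ c : k, c ∈ K ↔ iterateFrobenius k p m c = c := by
    intro c
    rw [hK, iterateFrobenius_def]
  obtain ⟨y, -, hy⟩ := hL p l k m hm u trivial
  obtain ⟨S, hS⟩ := hDes p k l s m a b g P o hG hm (hL p (Ix s)) hg u hu y hy
  choose xk hxf hxy using hS
  choose x hx using fun i => hKM l (xk i) (hxf i)
  choose gK hgK using fun i => hKM l (g i) (hg i)
  obtain ⟨aK, haK⟩ : ∃ aK : K, (aK : k) = a := ⟨⟨a, (hK a).2 ha⟩, rfl⟩
  obtain ⟨bK, hbK⟩ : ∃ bK : K, (bK : k) = b := ⟨⟨b, (hK b).2 hb⟩, rfl⟩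
  subst haK
  subst hbK
  have hl : Nonempty l := hG.nonempty
  have hinj : Function.Injective K.subtype := Subtype.val_injective
  have hxy' : ∀ i, (y : Matrix l l k) * (x i).map K.subtype =
      gv g ((S : Matrix (Ix s) (Ix s) k) i) * (y : Matrix l l k) := by
    intro i
    rw [hx]
    exact hxy i
  obtain ⟨x'', hF, hz, hv, hxo⟩ := LangO_A hFrm hAdj K (iterateFrobenius k p m) hφ (hKM l) hG hg
    hu hy S x hxy'
  choose Y hY using hv
  have hFK : IsFrame aK bK gK := by
    apply LangO_frame K.subtype hinj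
    have h1 : (fun i => (gK i).map K.subtype) = g := funext hgK
    rw [h1]
    exact hG.frame
  have hdK : aK ^ 2 - 4 * bK ≠ 0 := by
    intro h
    have h1 := hG.disc.ne_zero
    apply h1
    have h4 : K.subtype (aK ^ 2 - 4 * bK) = 0 := by rw [h, map_zero]
    rw [map_sub, map_pow, map_mul, map_ofNat] at h4
    exact h4
  obtain ⟨c, hc⟩ := (hTrf.1 K l aK bK s gK hdK hG.card hFK).1 x'' hF
  obtain ⟨C, hC⟩ : ∃ C : Matrix l l k, C = (c : Matrix l l K).map K.subtype := ⟨_, rfl⟩
  have hCc : ((GeneralLinearGroup.map K.subtype c : GL l k) : Matrix l l k) = C := hC.symm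
  have hCg : ∀ i, C * g i = (x'' i).map K.subtype * C := by
    intro i
    rw [hC, ← hgK, ← Matrix.map_mul, ← Matrix.map_mul, hc]
  have hSl : ((S⁻¹ : GL (Ix s) k) : Matrix (Ix s) (Ix s) k) * (S : Matrix (Ix s) (Ix s) k) = 1 :=
    Units.inv_mul S
  set xk' : Ix s → Matrix l l k := fun i => (x i).map K.subtype with hxk'
  have hxv : ∀ v : Ix s → k, (y : Matrix l l k) * gv xk' v =
      gv g (v ᵥ* (S : Matrix (Ix s) (Ix s) k)) * (y : Matrix l l k) :=
    fun v => LangO_mul xk' g _ _ hxy' v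
  have hx''k : ∀ i, (x'' i).map K.subtype = gv xk' (fun j => (Y i j : k)) := by
    intro i
    rw [hY i]
    exact (gv_mat K.subtype x (Y i)).symm
  refine hLaC p k l s m aK bK g P o hG hs hm hg hP u hu (y * GeneralLinearGroup.map K.subtype c)
    ?_ ?_ ?_ ?_ ?_
  · rw [map_mul, hy, mul_assoc]
    congr 2
    apply Units.ext
    ext i j
    exact (hφ _).1 ((c : Matrix l l K) i j).2
  · have h1 := LangO_zt aK gK x'' c hc
    have h2 : C * zt (aK : k) s g = (zt aK s x'').map K.subtype * C := by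
      have h3 := congrArg (fun Z : Matrix l l K => Z.map K.subtype) h1
      beta_reduce at h3
      rw [Matrix.map_mul, Matrix.map_mul, ← hC] at h3
      rw [← h3, ← zt_mat]
      congr 2
      exact (funext hgK).symm
    rw [Units.val_mul, hCc, Matrix.mul_assoc, h2, ← Matrix.mul_assoc, hz, Matrix.mul_assoc]
  · intro i
    refine ⟨(fun j => (Y i j : k)) ᵥ* (S : Matrix (Ix s) (Ix s) k), ?_⟩
    rw [Units.val_mul, hCc, Matrix.mul_assoc, hCg, ← Matrix.mul_assoc, hx''k, hxv,
      Matrix.mul_assoc]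
  · intro i
    set Yk : Matrix (Ix s) (Ix s) k := fun i j => (Y i j : k) with hYk
    have hFk : IsFrame (aK : k) (bK : k) (fun i => (x'' i).map K.subtype) :=
      IsFrame.map K.subtype (K.subtype.mapMatrix : Matrix l l K →+* Matrix l l k)
        (map_smul_mat K.subtype) hF
    have hgv : ∀ v : Ix s → k, gv (fun i => (x'' i).map K.subtype) v = gv xk' (v ᵥ* Yk) := by
      intro v
      rw [LangO_vec, gv]
      refine Finset.sum_congr rfl fun j _ => ?_
      rw [hx''k]
    have hYinj : Function.Injective (fun v => v ᵥ* Yk) := by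
      intro v w hvw
      apply LangO_gv_inj hG.disc hFk
      rw [hgv, hgv]
      exact congrArg _ hvw
    obtain ⟨Z, hZ⟩ := Matrix.vecMul_injective_iff_isUnit.1 hYinj
    have hZl : ((Z⁻¹ : GL (Ix s) k) : Matrix (Ix s) (Ix s) k) * Yk = 1 := by
      rw [← hZ]
      exact Units.inv_mul Z
    have hCv : ∀ v : Ix s → k, C * gv g v = gv (fun i => (x'' i).map K.subtype) v * C := by
      intro v
      rw [gv, gv, Finset.mul_sum, Finset.sum_mul]
      refine Finset.sum_congr rfl fun j _ => ?_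
      rw [Matrix.mul_smul, Matrix.smul_mul, hCg]
    refine ⟨bv k i ᵥ* ((S⁻¹ : GL (Ix s) k) : Matrix (Ix s) (Ix s) k) ᵥ*
      ((Z⁻¹ : GL (Ix s) k) : Matrix (Ix s) (Ix s) k), ?_⟩
    rw [Units.val_mul, hCc, Matrix.mul_assoc (y : Matrix l l k) C, hCv, hgv,
      Matrix.vecMul_vecMul, hZl, Matrix.vecMul_one, ← Matrix.mul_assoc (y : Matrix l l k), hxv,
      Matrix.vecMul_vecMul, hSl, Matrix.vecMul_one, gv_bv, Matrix.mul_assoc]
  · intro ho
    rw [Units.val_mul, hCc, Matrix.mul_assoc, hCg, ← Matrix.mul_assoc, hxo ho, Matrix.mul_assoc]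

end MP7Z.Ort
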