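import Pool.Agent.Lib.MP_7f581e_Z.Types.AllLie
import Pool.Agent.Lib.MP_7f581e_Z.Ort.AllC
import Pool.Agent.Lib.MP_7f581e_Z.Ort.AllD
import Pool.Agent.Lib.MP_7f581e_Z.Ort.D.OAut
import Pool.Agent.Lib.MP_7f581e_Z.Ort.LangO
import Pool.Agent.Lib.MP_7f581e_Z.Ort.ExtS
import Pool.Agent.Lib.MP_7f581e_Z.Ort.Hxe
import Pool.Agent.Lib.MP_7f581e_Z.Ort.Asm

/-!
# Step Lie for the orthogonal groups, unconditionally
-/

set_option autoImplicit false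

namespace MP7Z.Ort

theorem aLangO : LangOStmt :=
  tLangO tFxM tDes aFrm aAdj aTrf aLaC (fun p _ l _ _ => ty_lgl p l)

theorem aExtS : ExtSStmt := tExtS aCen

theorem aOLangX : OLangStmt := aOLang aLangO aExtS

theorem aHxe : HxeStmt := tHxe aExt aExA aExtS

theorem aFxe : FxeStmt := tFxe aPrf (tSpH tAct aSpnE)

theorem aTyO : TyOStmt := tTyO aPrf aFxe (tStd aFrT) tAdh (tTrs aTrf)

theorem aOAut : OAutX := fun p _ F _ _ _ s D hex h3 h8 _ φ =>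
  MP7Z.Ord.tOAut MP7Z.Ord.tBrA MP7Z.Ord.aBrB MP7Z.Ord.aBrC MP7Z.Ord.tFrk MP7Z.Ord.tIso
    MP7Z.Ord.aSnF MP7Z.Ord.aSem MP7Z.Ord.aSim MP7Z.Ord.aAsa MP7Z.Ord.aBet tAdh
    p F s D h3 h8 hex φ

end MP7Z.Ort

namespace MP7Z

/-- **Step Lie for the orthogonal simple groups of characteristic `p`.** -/
theorem lieStep_orthogonal (p : ℕ) [Fact p.Prime] :
    LieStep p (fun S [Group S] => IsOrthogonal p S) :=
  Ort.lie_ort lie_l3 (solvStmt p) Ort.aHxe Ort.aTyO Ort.aOAut Ort.aOLangX Ort.aOmS Ort.aClE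
    Ort.aClO Ort.tAn8

end MP7Z
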