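import Mathlib

/-!
# Orthogonal groups: the simple groups
-/

set_option autoImplicit false

namespace MP7Z

/-- The isometry group of a quadratic form. -/
def isoGroup {K W : Type} [Field K] [AddCommGroup W] [Module K W] (q : QuadraticForm K W) :
    Subgroup (W ≃ₗ[K] W) where
  carrier := {g | ∀ x, q (g x) = q x}
  one_mem' := fun _ => rfl
  mul_mem' := fun {g h} hg hh x => (hg (h x)).trans (hh x)
  inv_mem' := fun {g} hg x => by
    have h1 := hg (g⁻¹ x)
    have h2 : g (g⁻¹ x) = x := LinearEquiv.apply_symm_apply g x
    rw [h2] at h1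
    exact h1.symm

theorem mem_isoGroup {K W : Type} [Field K] [AddCommGroup W] [Module K W]
    {q : QuadraticForm K W} {g : W ≃ₗ[K] W} : g ∈ isoGroup q ↔ ∀ x, q (g x) = q x := Iff.rfl

/-- The commutator subgroup of the isometry group, modulo its centre. -/
abbrev POm {K W : Type} [Field K] [AddCommGroup W] [Module K W] (q : QuadraticForm K W) : Type :=
  commutator (isoGroup q) ⧸ Subgroup.center (commutator (isoGroup q))

/-- `S` is isomorphic to the quotient by its centre of the commutator subgroup of `H`. -/
def IsPCm (H S : Type) [Group H] [Group S] : Prop :=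
  Nonempty (S ≃* commutator H ⧸ Subgroup.center (commutator H))

/-- The simple groups which are the quotient by its centre of the commutator subgroup of the
isometry group of a quadratic form with nondegenerate polar form on a vector space of dimension at
least `7` over a finite field of characteristic `p`; if the dimension is `8` there is no totally
singular subspace of dimension `4`. -/
def IsOrthogonal (p : ℕ) (S : Type) [Group S] : Prop :=
  IsSimpleGroup S ∧ ∃ (F : Type) (_ : Field F) (W : Type) (_ : AddCommGroup W) (_ : Module F W)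
    (q : QuadraticForm F W), Finite F ∧ CharP F p ∧
    (∀ x, (∀ y, QuadraticMap.polar q x y = 0) → x = 0) ∧ 7 ≤ Module.finrank F W ∧
    (Module.finrank F W = 8 → ¬ ∃ U : Submodule F W, Module.finrank F U = 4 ∧ ∀ x ∈ U, q x = 0) ∧
    IsPCm (isoGroup q) S

theorem IsOrthogonal.congr {p : ℕ} {S T : Type} [Group S] [Group T] (e : S ≃* T)
    (h : IsOrthogonal p S) : IsOrthogonal p T := by
  obtain ⟨h1, F, _, W, _, _, q, h2, h3, h4, h5, h6, ⟨e'⟩⟩ := h
  exact ⟨MulEquiv.isSimpleGroup e.symm, F, _, W, _, _, q, h2, h3, h4, h5, h6, ⟨e.symm.trans e'⟩⟩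

end MP7Z
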