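import Pool.Agent.Lib.MP_7f581e_Z.Ort.SpecB

/-!
# Computation rules in the quadratic space
-/

set_option autoImplicit false
set_option linter.unusedSectionVars false

namespace MP7Z.Ort

open TensorProduct MP7fS Matrix

section

variable {K : Type} [Field K] {l : Type} [Fintype l] [DecidableEq l] {a b : K} {s : ℕ}
  {g : Ix s → Matrix l l K} {P : GL l K} {o : Prop}

theorem Act_one (hg : Good a b g P o) (k : ℕ) (v : Ix s → K) (hv : v ∈ Vk o s K k) (i : Fin s)
    (hi : k ≤ i.val) : gv g v * g (ie i) = -(g (ie i) * gv g v) ∧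
      gv g v * g (jf i) = -(g (jf i) * gv g v) := by
  obtain ⟨h1, h2⟩ := hv.2 i hi
  constructor
  · have h3 := hg.frame.gv_anti v (bv K (ie i))
    rw [bf_ie, h2, zero_smul, gv_bv] at h3
    exact eq_neg_of_add_eq_zero_left h3
  · have h3 := hg.frame.gv_anti v (bv K (jf i))
    rw [bf_jf, h1, zero_smul, gv_bv] at h3
    exact eq_neg_of_add_eq_zero_left h3

theorem Act_two (hg : Good a b g P o) (k : ℕ) (v : Ix s → K)
    (h : ∀ i : Fin s, k ≤ i.val → gv g v * g (ie i) = -(g (ie i) * gv g v) ∧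
        gv g v * g (jf i) = -(g (jf i) * gv g v))
    (ho : o → gv g v * g (iw 0) = -(g (iw 0) * gv g v)) : v ∈ Vk o s K k := by
  have := hg.nonempty
  refine ⟨fun h1 => ?_, fun i hi => ?_⟩
  · obtain ⟨ha, h2⟩ := hg.odd h1
    have h3 := hg.frame.gv_anti v (bv K (iw 0))
    rw [bf_w0, ha, zero_mul, add_zero, gv_bv, ho h1, neg_add_cancel] at h3
    have h4 : (0 : K) • (1 : Matrix l l K) = (2 * v (iw 0)) • (1 : Matrix l l K) := by
      rw [zero_smul, h3]
    exact (h2.mul_right_eq_zero).1 (smul_one_inj h4).symm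
  · obtain ⟨h1, h2⟩ := h i hi
    constructor
    · have h3 := hg.frame.gv_anti v (bv K (jf i))
      rw [bf_jf, gv_bv, h2, neg_add_cancel] at h3
      have h4 : (0 : K) • (1 : Matrix l l K) = (v (ie i)) • (1 : Matrix l l K) := by
        rw [zero_smul, h3]
      exact (smul_one_inj h4).symm
    · have h3 := hg.frame.gv_anti v (bv K (ie i))
      rw [bf_ie, gv_bv, h1, neg_add_cancel] at h3
      have h4 : (0 : K) • (1 : Matrix l l K) = (v (jf i)) • (1 : Matrix l l K) := by
        rw [zero_smul, h3]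
      exact (smul_one_inj h4).symm

theorem Act_mem (i : Ix s) (hi : i ≠ iw 0) (o : Prop) (k : ℕ)
    (h : ∀ j : Fin s, k ≤ j.val → i ≠ ie j ∧ i ≠ jf j) : bv K i ∈ Vk o s K k := by
  refine ⟨fun _ => ?_, fun j hj => ⟨?_, ?_⟩⟩
  · rw [bv_apply, if_neg fun h => hi h.symm]
  · rw [bv_apply, if_neg fun h' => (h j hj).1 h'.symm]
  · rw [bv_apply, if_neg fun h' => (h j hj).2 h'.symm]

theorem Act_e (o : Prop) (k : Fin s) : bv K (ie k) ∈ Vk o s K (k.val + 1) := by
  refine Act_mem _ (by simp) o _ fun j hj => ⟨fun h => ?_, by simp⟩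
  have h1 : k = j := by simpa using h
  subst h1
  omega

theorem Act_f (o : Prop) (k : Fin s) : bv K (jf k) ∈ Vk o s K (k.val + 1) := by
  refine Act_mem _ (by simp) o _ fun j hj => ⟨by simp, fun h => ?_⟩
  have h1 : k = j := by simpa using h
  subst h1
  omega

theorem Act_mono (o : Prop) {k k' : ℕ} (h : k ≤ k') : Vk o s K k ≤ Vk o s K k' :=
  fun _ hv => ⟨hv.1, fun i hi => hv.2 i (h.trans hi)⟩

theorem Act_three (_hg : Good a b g P o) (k : Fin s) (v : Ix s → K)
    (hv : v ∈ Vk o s K (k.val + 1)) : ∃ v' ∈ Vk o s K k.val,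
      v = v (ie k) • bv K (ie k) + v (jf k) • bv K (jf k) + v' ∧
        qf a b v = v (ie k) * v (jf k) + qf a b v' ∧
        gv g v = v (ie k) • g (ie k) + v (jf k) • g (jf k) + gv g v' := by
  obtain ⟨v', hv'⟩ : ∃ v', v' = v - (v (ie k) • bv K (ie k) + v (jf k) • bv K (jf k)) := ⟨_, rfl⟩
  have e1 : v = v (ie k) • bv K (ie k) + v (jf k) • bv K (jf k) + v' := by
    rw [hv']
    abel
  have he : v' (ie k) = 0 := by
    rw [hv', Pi.sub_apply, Pi.add_apply, Pi.smul_apply, Pi.smul_apply, bv_apply, bv_apply,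
      if_pos rfl, if_neg (by simp), smul_zero, add_zero, smul_eq_mul, mul_one, sub_self]
  have hf : v' (jf k) = 0 := by
    rw [hv', Pi.sub_apply, Pi.add_apply, Pi.smul_apply, Pi.smul_apply, bv_apply, bv_apply,
      if_pos rfl, if_neg (by simp), smul_zero, zero_add, smul_eq_mul, mul_one, sub_self]
  have hoth : ∀ i, i ≠ ie k → i ≠ jf k → v' i = v i := by
    intro i h1 h2
    rw [hv', Pi.sub_apply, Pi.add_apply, Pi.smul_apply, Pi.smul_apply, bv_apply, bv_apply,
      if_neg h1, if_neg h2, smul_zero, smul_zero, add_zero, sub_zero]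
  refine ⟨v', ⟨fun ho => ?_, fun i hi => ?_⟩, e1, ?_, ?_⟩
  · rw [hoth _ (by simp) (by simp)]
    exact hv.1 ho
  · rcases eq_or_ne i k with rfl | hik
    · exact ⟨he, hf⟩
    · have h1 : k.val + 1 ≤ i.val := by
        have h2 : i.val ≠ k.val := fun h => hik (Fin.ext h)
        omega
      rw [hoth (ie i) (by simpa using hik) (by simp), hoth (jf i) (by simp) (by simpa using hik)]
      exact hv.2 i h1
  · have e2 : qf a b v = qf a b (v (ie k) • bv K (ie k) + v (jf k) • bv K (jf k) + v') :=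
      congrArg (qf a b) e1
    rw [e2, qf_add, qf_add, qf_smul, qf_smul, qf_ie, qf_jf, bf_smul_left, bf_smul_right, bf_jf,
      bv_apply, if_pos rfl, bf_add_left, bf_smul_left, bf_smul_left, bf_comm a b (bv K (ie k)) v',
      bf_ie, hf, bf_comm a b (bv K (jf k)) v', bf_jf, he]
    ring
  · have e2 : gv g v = gv g (v (ie k) • bv K (ie k) + v (jf k) • bv K (jf k) + v') :=
      congrArg (gv g) e1
    rw [e2, gv_add, gv_add, gv_smul, gv_smul, gv_bv, gv_bv]

theorem Act_w (hg : Good a b g P o) (k : ℕ) : ∃ w ∈ Vk o s K k, qf a b w ≠ 0 := by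
  by_cases ho : o
  · obtain ⟨ha, h2⟩ := hg.odd ho
    refine ⟨bv K (iw 1), Act_mem _ (by simp) o k fun j _ => ⟨by simp, by simp⟩, ?_⟩
    rw [qf_w1]
    rintro rfl
    have h3 := hg.disc.ne_zero
    rw [ha] at h3
    apply h3
    ring
  · refine ⟨bv K (iw 0), ⟨fun h => absurd h ho, fun j _ => ?_⟩, ?_⟩
    · rw [bv_apply, bv_apply, if_neg (by simp), if_neg (by simp)]
      exact ⟨rfl, rfl⟩
    · rw [qf_w0]
      exact one_ne_zero

theorem Act_nd (hg : Good a b g P o) (k : ℕ) (v : Ix s → K) (hv : v ∈ Vk o s K k)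
    (h : ∀ v' ∈ Vk o s K k, bf a b v v' = 0) : v = 0 := by
  have key : ∀ i : Ix s, (∀ j : Fin s, k ≤ j.val → i ≠ ie j ∧ i ≠ jf j) → i ≠ iw 0 →
      bf a b v (bv K i) = 0 := fun i h1 h2 => h _ (Act_mem i h2 o k h1)
  have hcomp : ∀ i : Fin s, v (ie i) = 0 ∧ v (jf i) = 0 := by
    intro i
    rcases Nat.lt_or_ge i.val k with h1 | h1
    · have hne : ∀ j : Fin s, k ≤ j.val → i ≠ j := fun j hj h2 => by
        subst h2
        omega
      constructor
      · have h2 := key (jf i) (fun j hj => ⟨by simp, by simpa using hne j hj⟩) (by simp)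
        rwa [bf_jf] at h2
      · have h2 := key (ie i) (fun j hj => ⟨by simpa using hne j hj, by simp⟩) (by simp)
        rwa [bf_ie] at h2
    · exact hv.2 i h1
  refine hg.nondeg_Vo (fun ho => hv.1 ho) fun w hw => ?_
  conv_lhs => rw [← sum_bv w]
  rw [bf_sum_right]
  refine Finset.sum_eq_zero fun i _ => ?_
  rw [bf_smul_right]
  rcases i with ((i | i) | i)
  · rw [show bf a b v (bv K (Sum.inl (Sum.inl i))) = v (jf i) from bf_ie a b v i, (hcomp i).2,
      mul_zero]
  · rw [show bf a b v (bv K (Sum.inl (Sum.inr i))) = v (ie i) from bf_jf a b v i, (hcomp i).1,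
      mul_zero]
  · fin_cases i
    · by_cases ho : o
      · have h1 : w (iw 0) = 0 := hw ho
        change w (iw 0) * _ = 0
        rw [h1, zero_mul]
      · have h1 : bf a b v (bv K (iw 0)) = 0 := h _ ⟨fun h' => absurd h' ho, fun j _ => by
          rw [bv_apply, bv_apply, if_neg (by simp), if_neg (by simp)]
          exact ⟨rfl, rfl⟩⟩
        change _ * bf a b v (bv K (iw 0)) = 0
        rw [h1, mul_zero]
    · have h1 : bf a b v (bv K (iw 1)) = 0 := key (iw 1) (fun j _ => ⟨by simp, by simp⟩) (by simp)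
      change _ * bf a b v (bv K (iw 1)) = 0
      rw [h1, mul_zero]

end

theorem tAct : ActStmt := by
  intro K _ l _ _ a b s g P o hg
  exact ⟨Act_one hg, Act_two hg, Act_three hg, fun k k' h => Act_mono o h,
    fun k v hv ho => hv.1 ho, fun k => ⟨Act_e o k, Act_f o k⟩, Act_w hg, Act_nd hg⟩

end MP7Z.Ort
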