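import Pool.Agent.Lib.MP_7f581e_Z.Ort.SAct

/-!
# Inner automorphisms are in `A` (`AdhStmt`)
-/

set_option autoImplicit false
set_option linter.unusedSectionVars false

namespace MP7Z.Ort

open TensorProduct MP7fS Matrix

section

variable {p : ℕ} [Fact p.Prime] {F : Type} [Field F] [Algebra (ZMod p) F] {s : ℕ} (D : Dat F s)

/-- Conjugation by an element of the spin group. -/
def Adh_aut (p : ℕ) [Fact p.Prime] [Algebra (ZMod p) F] (h : D.H) : RingAut (D.C0 p) :=
  RingEquiv.mk (Equiv.mk (fun X => D.inc p h * X * D.inc p h⁻¹)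
    (fun X => D.inc p h⁻¹ * X * D.inc p h)
    (fun X => by
      have h1 : D.inc p h⁻¹ * D.inc p h = 1 := by rw [← map_mul, inv_mul_cancel, map_one]
      change D.inc p h⁻¹ * (D.inc p h * X * D.inc p h⁻¹) * D.inc p h = X
      calc D.inc p h⁻¹ * (D.inc p h * X * D.inc p h⁻¹) * D.inc p h =
            (D.inc p h⁻¹ * D.inc p h) * X * (D.inc p h⁻¹ * D.inc p h) := by
              simp only [mul_assoc]
        _ = X := by rw [h1, one_mul, mul_one])
    (fun X => by
      have h1 : D.inc p h * D.inc p h⁻¹ = 1 := by rw [← map_mul, mul_inv_cancel, map_one]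
      change D.inc p h * (D.inc p h⁻¹ * X * D.inc p h) * D.inc p h⁻¹ = X
      calc D.inc p h * (D.inc p h⁻¹ * X * D.inc p h) * D.inc p h⁻¹ =
            (D.inc p h * D.inc p h⁻¹) * X * (D.inc p h * D.inc p h⁻¹) := by
              simp only [mul_assoc]
        _ = X := by rw [h1, one_mul, mul_one]))
    (fun X Y => by
      have h1 : D.inc p h⁻¹ * D.inc p h = 1 := by rw [← map_mul, inv_mul_cancel, map_one]
      change D.inc p h * (X * Y) * D.inc p h⁻¹ =
        (D.inc p h * X * D.inc p h⁻¹) * (D.inc p h * Y * D.inc p h⁻¹)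
      calc D.inc p h * (X * Y) * D.inc p h⁻¹ =
            D.inc p h * X * 1 * Y * D.inc p h⁻¹ := by simp only [mul_assoc, one_mul]
        _ = _ := by
          rw [← h1]
          simp only [mul_assoc])
    (fun X Y => by
      change D.inc p h * (X + Y) * D.inc p h⁻¹ =
        D.inc p h * X * D.inc p h⁻¹ + D.inc p h * Y * D.inc p h⁻¹
      rw [mul_add, add_mul])

theorem Adh_apply (h : D.H) (X : D.C0 p) :
    Adh_aut D p h X = D.inc p h * X * D.inc p h⁻¹ := rfl

theorem Adh_isA (h : D.H) : D.IsA p (Adh_aut D p h) := by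
  have hm := mem_SG.1 h.2
  obtain ⟨r, hr, hadd, hsmul, hq, -, hV⟩ := SAct_exists D.good (h : GL (Lx s) F) hm.2.2.1
    hm.2.2.2.2
  have hval : ∀ X : D.C0 p, ((Adh_aut D p h X : D.C0 p) : Matrix (Lx s) (Lx s) F) =
      ((h : GL (Lx s) F) : Matrix (Lx s) (Lx s) F) * (X : Matrix (Lx s) (Lx s) F) *
        (((h : GL (Lx s) F)⁻¹ : GL (Lx s) F) : Matrix (Lx s) (Lx s) F) := fun X => rfl
  refine ⟨RingEquiv.refl F, 1, r, ⟨one_ne_zero, hV, fun v _ w _ => hadd v w,
    fun c v _ => hsmul c v, fun v _ => ?_, fun _ => rfl⟩, ?_, ?_⟩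
  · rw [one_mul]
    exact hq v
  · intro X c hX
    rw [hval, hX, Matrix.mul_smul, Matrix.mul_one, Matrix.smul_mul, Units.mul_inv]
    rfl
  · intro v _ w _ X hX
    rw [hval, hX, inv_one, one_smul, ← Matrix.mul_assoc]
    change ((h : GL (Lx s) F) : Matrix (Lx s) (Lx s) F) * gv D.g v * gv D.g w * _ = _
    rw [hr, Matrix.mul_assoc (gv D.g (r v)), hr, ← Matrix.mul_assoc, Matrix.mul_assoc,
      Units.mul_inv, Matrix.mul_one]

theorem Adh_inv (h : D.H) : (Adh_aut D p h)⁻¹ = Adh_aut D p h⁻¹ := by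
  apply RingEquiv.ext
  intro X
  change D.inc p h⁻¹ * X * D.inc p h = D.inc p h⁻¹ * X * D.inc p h⁻¹⁻¹
  rw [inv_inv]

end

theorem tAdh : AdhStmt := by
  intro p _ F _ _ s D h
  refine ⟨⟨Adh_aut D p h, Adh_isA D h, ?_⟩, fun X => rfl⟩
  rw [Adh_inv]
  exact Adh_isA D h⁻¹

end MP7Z.Ort
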