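import Pool.Agent.Lib.MP_7f581e_Z.Ort.SpecA

/-!
# Orthogonal groups: adjusting `w₁` to a given central element
-/

set_option autoImplicit false
set_option linter.unusedSectionVars false

namespace MP7Z.Ort

open TensorProduct MP7fS Matrix

section frames

variable {T C : Type} [CommRing T] [Ring C] [Algebra T C]

/-- The central element of the adjusted frame. -/
theorem Adj_zt (a a' b' κ m : T) (ha : a = 2 * κ + m * a') : ∀ (s : ℕ) (x x'' : Ix s → C),
    IsFrame a' b' x → (∀ i, i ≠ iw 1 → x'' i = x i) →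
    x'' (iw 1) = κ • x (iw 0) + m • x (iw 1) →
    zt a s x'' = κ • 1 + m • zt a' s x := by
  intro s
  induction s with
  | zero =>
    intro x x'' h h1 h2
    have h0 : x (iw 0) * x (iw 0) = 1 := by rw [h.sq, qf_w0, one_smul]
    rw [zt, zt, h1 (iw 0) (by simp), h2, mul_add, mul_smul_comm, mul_smul_comm, h0]
  | succ s ih =>
    intro x x'' h h1 h2
    have h3 := ih (x ∘ cIx) (x'' ∘ cIx) h.restrict (fun i hi => h1 (cIx i)
      (fun h4 => hi (cIx_injective h4))) h2
    have he : x'' (ie (Fin.last s)) = x (ie (Fin.last s)) := h1 _ (by simp)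
    have hf : x'' (jf (Fin.last s)) = x (jf (Fin.last s)) := h1 _ (by simp)
    have hef := h.ef (Fin.last s)
    rw [zt, zt, he, hf, h3]
    set E := x (ie (Fin.last s)) * x (jf (Fin.last s))
    set G := x (jf (Fin.last s)) * x (ie (Fin.last s))
    set z := zt a' s (x ∘ cIx)
    have h5 : κ • (1 : C) = κ • E + κ • G := by rw [← smul_add, hef]
    have h6 : a • (1 : C) - (κ • 1 + m • z) = κ • 1 + m • (a' • 1 - z) := by
      rw [ha, add_smul, smul_sub, smul_smul, two_mul, add_smul]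
      abel
    rw [h6, add_mul, add_mul, smul_mul_assoc κ (1 : C) E, smul_mul_assoc κ (1 : C) G, one_mul,
      one_mul, smul_mul_assoc, smul_mul_assoc, smul_add, h5]
    abel

/-- The vector with the adjusted coordinates. -/
def Adj_v {s : ℕ} (κ m : T) (v : Ix s → T) : Ix s → T :=
  Sum.elim (fun i => v (Sum.inl i)) ![v (iw 0) + κ * v (iw 1), m * v (iw 1)]

theorem Adj_gv {s : ℕ} (κ m : T) (x x'' : Ix s → C) (h1 : ∀ i, i ≠ iw 1 → x'' i = x i)
    (h2 : x'' (iw 1) = κ • x (iw 0) + m • x (iw 1)) (v : Ix s → T) :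
    gv x'' v = gv x (Adj_v κ m v) := by
  have e : ∀ (y : Ix s → C) (w : Ix s → T), gv y w = ∑ i : Fin s ⊕ Fin s, w (Sum.inl i) •
      y (Sum.inl i) + (w (iw 0) • y (iw 0) + w (iw 1) • y (iw 1)) := by
    intro y w
    rw [gv, Fintype.sum_sum_type (fun i : Ix s => w i • y i), Fin.sum_univ_two]
  rw [e, e]
  congr 1
  · refine Finset.sum_congr rfl fun i _ => ?_
    rw [h1 _ (by simp)]
    rfl
  · have e0 : Adj_v κ m v (iw 0) = v (iw 0) + κ * v (iw 1) := rfl
    have e1 : Adj_v κ m v (iw 1) = m * v (iw 1) := rfl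
    rw [e0, e1, h1 _ (by simp), h2, smul_add, add_smul, smul_smul, smul_smul, mul_comm κ,
      mul_comm m, add_assoc]

theorem Adj_qf {s : ℕ} (a b a' b' κ m : T) (ha : a = 2 * κ + m * a')
    (hb : b = κ ^ 2 + κ * m * a' + m ^ 2 * b') (v : Ix s → T) :
    qf a' b' (Adj_v κ m v) = qf a b v := by
  have e0 : Adj_v κ m v (iw 0) = v (iw 0) + κ * v (iw 1) := rfl
  have e1 : Adj_v κ m v (iw 1) = m * v (iw 1) := rfl
  have e2 : ∀ i, Adj_v κ m v (ie i) = v (ie i) := fun _ => rfl
  have e3 : ∀ i, Adj_v κ m v (jf i) = v (jf i) := fun _ => rfl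
  rw [qf, qf, e0, e1]
  simp only [e2, e3]
  rw [ha, hb]
  ring

end frames

/-- **Adj.** Adjusting `w₁` to a given central element. -/
theorem tAdj (hCen : CenStmt) : AdjStmt := by
  intro K _ l _ _ a b a' b' s x' ζ had had' hcard hF hζ hζ2
  have hne : Nonempty l := by
    rw [← Fintype.card_pos_iff, hcard]
    positivity
  have hcomm : ∀ i j, ζ * (x' i * x' j) = x' i * x' j * ζ := by
    intro i j
    have h1 : (a • 1 - ζ) * x' j = x' j * ζ := by
      rw [sub_mul, hζ, mul_sub, smul_mul_assoc, one_mul, mul_smul_comm, mul_one]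
      abel
    rw [← mul_assoc, hζ, mul_assoc, h1, mul_assoc]
  obtain ⟨κ, m, hκ⟩ := hCen K l a' b' s x' had' hcard hF ζ hcomm
  have h0 : x' (iw 0) * x' (iw 0) = 1 := by rw [hF.sq, qf_w0, one_smul]
  have hz := hF.zt_gv s x' (bv K (iw 0))
  rw [gv_bv] at hz
  have hz2 := hF.zt_sq s x'
  set z := zt a' s x' with hzdef
  have ha : a = 2 * κ + m * a' := by
    have h1 := hζ (iw 0)
    rw [hκ, add_mul, smul_mul_assoc, one_mul, smul_mul_assoc, hz] at h1
    have h2 : x' (iw 0) * (κ • x' (iw 0) + m • (x' (iw 0) * (a' • 1 - z))) =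
        x' (iw 0) * (x' (iw 0) * (a • 1 - (κ • 1 + m • z))) := by rw [h1]
    rw [mul_add, mul_smul_comm, mul_smul_comm, ← mul_assoc, ← mul_assoc, h0, one_mul,
      one_mul] at h2
    apply smul_one_inj (l := l)
    have h3 : a • (1 : Matrix l l K) = κ • 1 + m • (a' • 1 - z) + (κ • 1 + m • z) := by
      rw [h2]
      abel
    rw [h3, smul_sub, smul_smul, add_smul, two_mul, add_smul]
    abel
  have hb : b = κ ^ 2 + κ * m * a' + m ^ 2 * b' := by
    have h1 := hζ2
    rw [hκ, add_mul, mul_add, mul_add, smul_mul_smul_comm, smul_mul_smul_comm,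
      smul_mul_smul_comm, smul_mul_smul_comm, hz2, one_mul, one_mul, mul_one] at h1
    apply smul_one_inj (l := l)
    have h3 : b • (1 : Matrix l l K) = a • (κ • 1 + m • z) - ((κ * κ) • 1 + (κ * m) • z +
        ((m * κ) • z + (m * m) • (a' • z - b' • 1))) := by
      rw [h1]
      abel
    rw [h3, ha]
    module
  refine ⟨κ, m, Function.update x' (iw 1) (κ • x' (iw 0) + m • x' (iw 1)), ?_, ?_, ?_, ?_⟩
  · apply IsFrame.of_sq
    intro v
    rw [Adj_gv κ m x' _ (fun i hi => Function.update_of_ne hi _ _) (Function.update_self _ _ _),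
      hF.gv_sq, Adj_qf a b a' b' κ m ha hb]
  · rw [hκ]
    exact Adj_zt a a' b' κ m ha s x' _ hF (fun i hi => Function.update_of_ne hi _ _)
      (Function.update_self _ _ _)
  · exact fun i hi => Function.update_of_ne hi _ _
  · exact Function.update_self _ _ _

end MP7Z.Ort
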