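import Pool.Agent.Lib.MP_7f581e_Z.Ort.SpecE

/-!
# Eight-dimensional quadratic spaces
-/

set_option autoImplicit false

namespace MP7Z.Ort

open TensorProduct MP7fS Matrix

theorem tAn8 : An8Stmt := by
  intro F _ D W _ _ q j hj ho hU z₀ z₁ hz
  by_contra hne
  apply hU
  have hmem : ∀ v : Ix 3 → F, v ∈ D.V := fun v h => absurd h ho
  let f : (Fin 3 ⊕ Unit → F) →ₗ[F] (Ix 3 → F) :=
    { toFun := fun c i => match i with
        | Sum.inl (Sum.inl i) => c (Sum.inl i)
        | Sum.inl (Sum.inr _) => 0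
        | Sum.inr i => c (Sum.inr ()) * (if i = 0 then z₀ else z₁)
      map_add' := fun c d => by
        funext i
        rcases i with ((i | i) | i)
        · rfl
        · exact (add_zero (0 : F)).symm
        · exact add_mul _ _ _
      map_smul' := fun r c => by
        funext i
        rcases i with ((i | i) | i)
        · rfl
        · exact (mul_zero r).symm
        · exact mul_assoc _ _ _ }
  have hfe : ∀ c i, f c (ie i) = c (Sum.inl i) := fun _ _ => rfl
  have hff : ∀ c i, f c (jf i) = 0 := fun _ _ => rfl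
  have hf0 : ∀ c, f c (iw 0) = c (Sum.inr ()) * z₀ := fun c => by
    change c (Sum.inr ()) * (if (0 : Fin 2) = 0 then z₀ else z₁) = _
    rw [if_pos rfl]
  have hf1 : ∀ c, f c (iw 1) = c (Sum.inr ()) * z₁ := fun c => by
    change c (Sum.inr ()) * (if (1 : Fin 2) = 0 then z₀ else z₁) = _
    rw [if_neg (by decide)]
  have hq : ∀ c, qf D.a D.b (f c) = 0 := by
    intro c
    rw [qf, hf0, hf1, Finset.sum_eq_zero fun i _ => by rw [hff, mul_zero], zero_add]
    have h1 : (c (Sum.inr ()) * z₀) ^ 2 + D.a * (c (Sum.inr ()) * z₀) * (c (Sum.inr ()) * z₁) +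
        D.b * (c (Sum.inr ()) * z₁) ^ 2 =
        c (Sum.inr ()) ^ 2 * (z₀ ^ 2 + D.a * z₀ * z₁ + D.b * z₁ ^ 2) := by ring
    rw [h1, hz, mul_zero]
  have hfinj : Function.Injective f := by
    rw [injective_iff_map_eq_zero]
    intro c hc
    funext i
    rcases i with i | i
    · have h0 := hfe c i
      rw [hc] at h0
      exact h0.symm
    · have h0 : c (Sum.inr ()) * z₀ = 0 := by rw [← hf0, hc]; rfl
      have h1 : c (Sum.inr ()) * z₁ = 0 := by rw [← hf1, hc]; rfl
      change c (Sum.inr ()) = 0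
      by_contra hcn
      exact hne ⟨(mul_eq_zero.1 h0).resolve_left hcn, (mul_eq_zero.1 h1).resolve_left hcn⟩
  let F' : (Fin 3 ⊕ Unit → F) →ₗ[F] W := j.toLinearMap.comp (f.codRestrict D.V fun c => hmem _)
  have hF'inj : Function.Injective F' := by
    intro c d hcd
    apply hfinj
    have h1 := j.injective hcd
    exact congrArg Subtype.val h1
  refine ⟨LinearMap.range F', ?_, ?_⟩
  · rw [LinearMap.finrank_range_of_inj hF'inj, Module.finrank_fintype_fun_eq_card]
    rfl
  · rintro _ ⟨c, rfl⟩
    change q (j ⟨f c, hmem _⟩) = 0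
    rw [hj]
    exact hq c

end MP7Z.Ort
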