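import Pool.Agent.Lib.MP_7f581e_Z.Ort.SpecA

/-!
# Orthogonal groups: the centre of the even Clifford algebra
-/

set_option autoImplicit false
set_option linter.unusedSectionVars false

namespace MP7Z.Ort

open TensorProduct MP7fS Matrix

theorem Cen_avg {C : Type} [Ring C] {J : Type} (g : J → C) (w Z : C) (hw : w * w = 1)
    (h1 : ∀ i, Z * (w * g i) = w * g i * Z) (h2 : ∀ i, Z * (g i * w) = g i * w * Z) (i : J) :
    (Z + w * Z * w) * g i = g i * (Z + w * Z * w) := by
  have e1 : (Z + w * Z * w) * g i = Z * g i + g i * Z := by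
    have : w * Z * w * g i = w * (Z * (w * g i)) := by simp only [mul_assoc]
    rw [add_mul, this, h1, ← mul_assoc, ← mul_assoc, hw, one_mul]
  have e2 : g i * (Z + w * Z * w) = Z * g i + g i * Z := by
    have : g i * (w * Z * w) = (g i * w * Z) * w := by simp only [mul_assoc]
    rw [mul_add, this, ← h2, mul_assoc, mul_assoc, hw, mul_one, add_comm]
  rw [e1, e2]

theorem tCen (h : TrfStmt) : CenStmt := by
  intro K _ l _ _ a b s g hd hc hg Z hZ
  obtain ⟨-, hs, -⟩ := h.1 K l a b s g hd hc hg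
  have hww : g (iw 0) * g (iw 0) = 1 := by rw [hg.sq, qf_w0, one_smul]
  have hzg : ∀ i, zt a s g * g i = g i * (a • 1 - zt a s g) := by
    intro i
    have := hg.zt_gv s g (bv K i)
    rwa [gv_bv] at this
  have hzz : zt a s g * zt a s g = a • zt a s g - b • 1 := hg.zt_sq s g
  set w := g (iw 0) with hw
  set ζ := zt a s g with hζ
  have hag : ∀ i, (a • 1 - ζ) * g i = g i * ζ := by
    intro i
    rw [sub_mul, hzg, mul_sub, smul_mul_assoc, one_mul, mul_smul_comm, mul_one]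
    abel
  have hζc : ∀ i j, ζ * (g i * g j) = g i * g j * ζ := by
    intro i j
    rw [← mul_assoc, hzg, mul_assoc, hag, mul_assoc]
  have hZζ : ∀ i j, Z * ζ * (g i * g j) = g i * g j * (Z * ζ) := by
    intro i j
    rw [mul_assoc, hζc, ← mul_assoc, hZ, mul_assoc]
  obtain ⟨c, hc1⟩ := hs (Z + w * Z * w) (Cen_avg g w Z hww (fun i => hZ _ i) (fun i => hZ i _))
  obtain ⟨c', hc2⟩ := hs (Z * ζ + w * (Z * ζ) * w)
    (Cen_avg g w (Z * ζ) hww (fun i => hZζ _ i) (fun i => hZζ i _))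
  have hwζ : w * ζ * w = a • 1 - ζ := by
    rw [mul_assoc, hzg, ← mul_assoc, hww, one_mul]
  have hwZ : w * Z * w = c • 1 - Z := eq_sub_of_add_eq' hc1
  have e1 : w * (Z * ζ) * w = (c • 1 - Z) * (a • 1 - ζ) := by
    rw [← hwZ, ← hwζ]
    calc w * (Z * ζ) * w = w * Z * 1 * (ζ * w) := by rw [mul_one]; simp only [mul_assoc]
      _ = w * Z * (w * w) * (ζ * w) := by rw [hww]
      _ = w * Z * w * (w * ζ * w) := by simp only [mul_assoc]
  have e2 : Z * ((2 : K) • ζ - a • 1) = (c' - c * a) • 1 + c • ζ := by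
    rw [e1] at hc2
    have e3 : (c • 1 - Z) * (a • 1 - ζ) = (c * a) • 1 - c • ζ - a • Z + Z * ζ := by
      simp only [sub_mul, mul_sub, smul_mul_assoc, one_mul, mul_smul_comm, mul_one, smul_sub,
        smul_smul]
      module
    rw [e3] at hc2
    have e4 : (c' - c * a) • (1 : Matrix l l K) + c • ζ =
        (Z * ζ + ((c * a) • 1 - c • ζ - a • Z + Z * ζ)) - (c * a) • 1 + c • ζ := by
      rw [hc2]
      module
    rw [e4, mul_sub, mul_smul_comm, mul_smul_comm, mul_one]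
    module
  have e5 : ((2 : K) • ζ - a • 1) * ((2 : K) • ζ - a • 1) = (a ^ 2 - 4 * b) • 1 := by
    simp only [sub_mul, mul_sub, smul_mul_assoc, one_mul, mul_smul_comm, mul_one, hzz]
    module
  have e6 : (a ^ 2 - 4 * b) • Z = ((c' - c * a) • 1 + c • ζ) * ((2 : K) • ζ - a • 1) := by
    rw [← e2, mul_assoc, e5, mul_smul_comm, mul_one]
  have e7 : ((c' - c * a) • 1 + c • ζ) * ((2 : K) • ζ - a • 1) =
      (-(c' - c * a) * a - 2 * b * c) • 1 + (2 * (c' - c * a) + c * a) • ζ := by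
    simp only [add_mul, mul_sub, smul_mul_assoc, one_mul, mul_smul_comm, mul_one, hzz]
    module
  refine ⟨(a ^ 2 - 4 * b)⁻¹ * (-(c' - c * a) * a - 2 * b * c),
    (a ^ 2 - 4 * b)⁻¹ * (2 * (c' - c * a) + c * a), ?_⟩
  have e8 : Z = (a ^ 2 - 4 * b)⁻¹ • ((a ^ 2 - 4 * b) • Z) := by
    rw [smul_smul, inv_mul_cancel₀ hd, one_smul]
  rw [e8, e6, e7, smul_add, smul_smul, smul_smul]

end MP7Z.Ort
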