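import Pool.Agent.Lib.MP_7f581e_Z.Ort.SpecA

/-!
# Operators commuting with all hyperbolic pairs and with `w₀ w₁`
-/

set_option autoImplicit false

namespace MP7Z.Ort

open TensorProduct MP7fS Matrix

theorem tCentV (hd : DecStmt) (hv : VacStmt) (hr : ResFStmt) : CentVStmt := by
  intro K _ a b hab s
  induction s with
  | zero =>
    intro W _ _ _ g hg hW X _ _ hX
    obtain ⟨u, h1, h2, h3, β, h4, h5⟩ := hv K W a b g hab hg hW
    have hXz : ∀ w, X (g (iw 0) (g (iw 1) w)) = g (iw 0) (g (iw 1) (X w)) :=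
      fun w => LinearMap.congr_fun hX w
    -- `X u` in the basis
    obtain ⟨κ, m, hκ⟩ : ∃ κ m : K, X u = κ • u + m • g (iw 0) (g (iw 1) u) := by
      refine ⟨β.repr (X u) 0 + β.repr (X u) 1 * a, -(β.repr (X u) 1), ?_⟩
      have h6 := β.sum_repr (X u)
      rw [Fin.sum_univ_two, h4, h5] at h6
      rw [h2, ← h6]
      rw [h6, smul_sub, neg_smul, neg_smul, smul_smul, add_smul]
      conv_lhs => rw [← h6]
      abel
    refine ⟨κ, m, ?_⟩
    have key : ∀ w, X w = κ • w + m • g (iw 0) (g (iw 1) w) →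
        X (g (iw 0) (g (iw 1) w)) = κ • g (iw 0) (g (iw 1) w) +
          m • g (iw 0) (g (iw 1) (g (iw 0) (g (iw 1) w))) := by
      intro w hw
      rw [hXz, hw, map_add, map_add, map_smul, map_smul, map_smul, map_smul]
    refine β.ext fun i => ?_
    fin_cases i
    · change X (β 0) = κ • β 0 + m • g (iw 0) (g (iw 1) (β 0))
      rw [h4, hκ]
    · change X (β 1) = κ • β 1 + m • g (iw 0) (g (iw 1) (β 1))
      have h6 : g (iw 1) u = a • u - g (iw 0) (g (iw 1) u) := by
        rw [h2]
        abel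
      rw [h5]
      have h7 := key u hκ
      calc X (g (iw 1) u) = a • X u - X (g (iw 0) (g (iw 1) u)) := by
            conv_lhs => rw [h6, map_sub, map_smul]
        _ = κ • (a • u - g (iw 0) (g (iw 1) u)) +
            m • g (iw 0) (g (iw 1) (a • u - g (iw 0) (g (iw 1) u))) := by
            rw [h7, hκ]
            simp only [map_sub, map_smul, smul_add, smul_sub]
            rw [smul_comm a κ, smul_comm a m]
            abel
        _ = _ := by rw [← h6]
  | succ s ih =>
    intro W _ _ _ g hg hW X he hf hX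
    obtain ⟨d1, d2, -, d4⟩ := hd K W _ _ (hg.ee (Fin.last s)) (hg.ff (Fin.last s))
      (hg.ef (Fin.last s))
    obtain ⟨g₁, hg₁, hgg⟩ := hr K W s a b g hg
    have hk : Module.finrank K (LinearMap.ker (g (ie (Fin.last s)))) = 2 ^ (s + 1) := by
      have h1 := d4 inferInstance
      rw [hW, pow_succ] at h1
      omega
    have hXe : ∀ i w, X (g (ie i) w) = g (ie i) (X w) := fun i w => LinearMap.congr_fun (he i) w
    have hXf : ∀ i w, X (g (jf i) w) = g (jf i) (X w) := fun i w => LinearMap.congr_fun (hf i) w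
    have hXz : ∀ w, X (g (iw 0) (g (iw 1) w)) = g (iw 0) (g (iw 1) (X w)) :=
      fun w => LinearMap.congr_fun hX w
    have hpres : ∀ x ∈ LinearMap.ker (g (ie (Fin.last s))),
        X x ∈ LinearMap.ker (g (ie (Fin.last s))) := by
      intro x hx
      rw [LinearMap.mem_ker] at hx ⊢
      rw [← hXe, hx, map_zero]
    let X₁ : Module.End K (LinearMap.ker (g (ie (Fin.last s)))) := X.restrict hpres
    have hX₁ : ∀ x, ((X₁ x : LinearMap.ker (g (ie (Fin.last s)))) : W) = X (x : W) :=
      fun _ => rfl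
    obtain ⟨κ, m, hκ⟩ := ih (LinearMap.ker (g (ie (Fin.last s)))) g₁ hg₁ hk X₁
      (fun i => by
        ext x
        change ((X₁ (g₁ (ie i) x) : LinearMap.ker (g (ie (Fin.last s)))) : W) =
          ((g₁ (ie i) (X₁ x) : LinearMap.ker (g (ie (Fin.last s)))) : W)
        rw [hX₁, hgg, hgg, hX₁]
        exact hXe i.castSucc _)
      (fun i => by
        ext x
        change ((X₁ (g₁ (jf i) x) : LinearMap.ker (g (ie (Fin.last s)))) : W) =
          ((g₁ (jf i) (X₁ x) : LinearMap.ker (g (ie (Fin.last s)))) : W)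
        rw [hX₁, hgg, hgg, hX₁]
        exact hXf i.castSucc _)
      (by
        ext x
        change ((X₁ (g₁ (iw 0) (g₁ (iw 1) x)) : LinearMap.ker (g (ie (Fin.last s)))) : W) =
          ((g₁ (iw 0) (g₁ (iw 1) (X₁ x)) : LinearMap.ker (g (ie (Fin.last s)))) : W)
        rw [hX₁, hgg, hgg, hgg, hgg, hX₁]
        exact hXz _)
    refine ⟨κ, m, ?_⟩
    have hon : ∀ x : W, g (ie (Fin.last s)) x = 0 → X x = κ • x + m • g (iw 0) (g (iw 1) x) := by
      intro x hx
      have h1 := LinearMap.congr_fun hκ ⟨x, hx⟩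
      have h2 := congrArg (Subtype.val) h1
      rw [hX₁] at h2
      rw [h2]
      change κ • x + m • ((g₁ (iw 0) (g₁ (iw 1) ⟨x, hx⟩) :
        LinearMap.ker (g (ie (Fin.last s)))) : W) = _
      rw [hgg, hgg]
      rfl
    have af : ∀ k x, g (cIx k) (g (jf (Fin.last s)) x) = -(g (jf (Fin.last s)) (g (cIx k) x)) :=
      fun k x => LinearMap.congr_fun (hg.anti_f' k) x
    have afz : ∀ x, g (iw 0) (g (iw 1) (g (jf (Fin.last s)) x)) =
        g (jf (Fin.last s)) (g (iw 0) (g (iw 1) x)) := by
      intro x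
      have h1 := af (iw 1) x
      have h0 := af (iw 0) (g (iw 1) x)
      change g (iw 1) (g (jf (Fin.last s)) x) = -(g (jf (Fin.last s)) (g (iw 1) x)) at h1
      change g (iw 0) (g (jf (Fin.last s)) (g (iw 1) x)) =
        -(g (jf (Fin.last s)) (g (iw 0) (g (iw 1) x))) at h0
      rw [h1, map_neg, h0, neg_neg]
    ext w
    have h1 := hon _ (d2 (g (jf (Fin.last s)) w)).1
    have h2 := hon _ (d2 w).1
    have h3 := (d2 w).2
    change X w = κ • w + m • g (iw 0) (g (iw 1) w)
    calc X w = X (g (ie (Fin.last s)) (g (jf (Fin.last s)) w)) +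
          g (jf (Fin.last s)) (X (g (ie (Fin.last s)) w)) := by
            conv_lhs => rw [h3, map_add, hXf]
      _ = κ • (g (ie (Fin.last s)) (g (jf (Fin.last s)) w) +
            g (jf (Fin.last s)) (g (ie (Fin.last s)) w)) +
          m • g (iw 0) (g (iw 1) (g (ie (Fin.last s)) (g (jf (Fin.last s)) w) +
            g (jf (Fin.last s)) (g (ie (Fin.last s)) w))) := by
            rw [h1, h2]
            simp only [map_add, map_smul, smul_add, afz]
            abel
      _ = _ := by rw [← h3]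

end MP7Z.Ort
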