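import Pool.Agent.Lib.MP_7f581e_Z.Ort.SpecA
import Mathlib.FieldTheory.ChevalleyWarning

/-!
# Zeros of quadratic forms over finite fields
-/

set_option autoImplicit false

namespace MP7Z.Ort

open TensorProduct MP7fS Matrix

theorem Che_one (K W : Type) [Field K] [Finite K] [AddCommGroup W] [Module K W]
    [FiniteDimensional K W] (q : QuadraticForm K W) (h3 : 3 ≤ Module.finrank K W) :
    ∃ x : W, x ≠ 0 ∧ q x = 0 := by
  classical
  have := Fintype.ofFinite K
  obtain ⟨p, hp⟩ := CharP.exists K
  have hpp : Fact p.Prime := ⟨CharP.char_is_prime K p⟩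
  obtain ⟨B, rfl⟩ := LinearMap.BilinMap.toQuadraticMap_surjective (R := K) (M := W) (N := K) q
  let β := Module.finBasis K W
  let f : MvPolynomial (Fin (Module.finrank K W)) K :=
    ∑ i, ∑ j, MvPolynomial.C (B (β i) (β j)) * (MvPolynomial.X i * MvPolynomial.X j)
  have hdeg : f.totalDegree ≤ 2 := by
    refine MvPolynomial.totalDegree_finsetSum_le fun i _ =>
      MvPolynomial.totalDegree_finsetSum_le fun j _ => ?_
    refine (MvPolynomial.totalDegree_mul _ _).trans ?_
    rw [MvPolynomial.totalDegree_C, zero_add]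
    refine (MvPolynomial.totalDegree_mul _ _).trans ?_
    rw [MvPolynomial.totalDegree_X, MvPolynomial.totalDegree_X]
  have heval : ∀ x, MvPolynomial.eval x f = B.toQuadraticMap (∑ i, x i • β i) := by
    intro x
    change _ = B (∑ i, x i • β i) (∑ i, x i • β i)
    simp only [f, map_sum, map_mul, MvPolynomial.eval_C, MvPolynomial.eval_X, map_smul,
      LinearMap.sum_apply, LinearMap.smul_apply, smul_eq_mul]
    rw [Finset.sum_comm]
    refine Finset.sum_congr rfl fun i _ => ?_
    rw [Finset.mul_sum]
    refine Finset.sum_congr rfl fun j _ => ?_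
    ring
  have hcard := char_dvd_card_solutions p (K := K) (f := f)
    (by rw [Fintype.card_fin]; omega)
  by_contra hne
  push Not at hne
  have huniq : ∀ x : {x : Fin (Module.finrank K W) → K // MvPolynomial.eval x f = 0},
      x = ⟨0, by rw [heval]; simp⟩ := by
    rintro ⟨x, hx⟩
    apply Subtype.ext
    rw [heval] at hx
    have h1 : ∑ i, x i • β i = 0 := by
      by_contra h2
      exact hne _ h2 hx
    funext i
    have h2 := congrArg (fun w => β.repr w i) h1
    simp only [β.repr_sum_self, map_zero] at h2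
    exact h2
  have h1 : Fintype.card {x : Fin (Module.finrank K W) → K // MvPolynomial.eval x f = 0} = 1 :=
    Fintype.card_eq_one_iff.2 ⟨_, huniq⟩
  rw [h1] at hcard
  exact hpp.out.one_lt.ne' (Nat.dvd_one.1 hcard)

theorem tChe : CheStmt := by
  intro K W _ _ _ _ _ q
  refine ⟨Che_one K W q, fun h2 hq => ?_⟩
  let q' : QuadraticForm K (W × K) := q.prod (-(QuadraticMap.sq (R := K) (A := K)))
  have hq' : ∀ x c, q' (x, c) = q x - c * c := fun x c => (sub_eq_add_neg _ _).symm
  obtain ⟨⟨w, c⟩, hne, h0⟩ := Che_one K (W × K) q' (by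
    rw [Module.finrank_prod, Module.finrank_self]
    omega)
  rw [hq', sub_eq_zero] at h0
  by_cases hc : c = 0
  · subst hc
    have hw : w ≠ 0 := by
      rintro rfl
      exact hne rfl
    rw [mul_zero] at h0
    obtain ⟨y, hy⟩ : ∃ y, QuadraticMap.polar q w y ≠ 0 := by
      by_contra h
      push Not at h
      exact hw (hq w h)
    set t := QuadraticMap.polar q w y with ht
    refine ⟨y + ((1 - q y) / t) • w, ?_⟩
    rw [QuadraticMap.map_add q, QuadraticMap.map_smul, h0, QuadraticMap.polar_smul_right,
      QuadraticMap.polar_comm, ← ht, smul_zero, add_zero, smul_eq_mul, div_mul_cancel₀ _ hy]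
    ring
  · refine ⟨c⁻¹ • w, ?_⟩
    rw [QuadraticMap.map_smul, h0, smul_eq_mul]
    field_simp

end MP7Z.Ort
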