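import Pool.Agent.Lib.MP_7f581e_Z.Ort.SpecE

/-!
# Quadratic spaces of even dimension
-/

set_option autoImplicit false

namespace MP7Z.Ort

open TensorProduct MP7fS Matrix

theorem ClE_zero {F : Type} [Field F] {s : ℕ} {a b : F} (hd : a ^ 2 - 4 * b ≠ 0) {W : Type}
    [AddCommGroup W] [Module F W] (q : QuadraticForm F W) (J : (Ix s → F) →ₗ[F] W)
    (hJ : ∀ v, q (J v) = qf a b v) {v : Ix s → F} (hv : J v = 0) : v = 0 := by
  have h0 : qf a b v = 0 := by rw [← hJ, hv, QuadraticMap.map_zero]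
  refine nondeg (IsUnit.mk0 _ hd) fun w => ?_
  have h1 : qf a b (v + w) = qf a b w := by rw [← hJ, map_add, hv, zero_add, hJ]
  rw [qf_add, h0, zero_add] at h1
  exact add_left_cancel (h1.trans (add_zero _).symm)

theorem ClE_card (F : Type) [Field F] (s : ℕ) : Module.finrank F (Ix s → F) = 2 * s + 2 := by
  rw [Module.finrank_fintype_fun_eq_card]
  simp only [Ix, Fintype.card_sum, Fintype.card_fin]
  ring

theorem tClE (h1 : ClsStmt) (h2 : ExiStmt) : ClEStmt := by
  intro F _ _ s W _ _ _ q hq hW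
  obtain ⟨a', b', x, hd, -, hx⟩ := h1 F False s W q 0 hq (fun h => h.elim) hW
  obtain ⟨D, ha, hb, ho⟩ := h2 F s a' b' False hd (fun h => h.elim)
  have hno : ¬ D.o := fun h => ho.1 h
  have htop : D.V = ⊤ := by
    rw [eq_top_iff]
    exact fun v _ h => absurd h hno
  let J : (Ix s → F) →ₗ[F] W := Fintype.linearCombination F x
  have hJ : ∀ v, q (J v) = qf a' b' v := hx
  have hinj : Function.Injective J := by
    rw [injective_iff_map_eq_zero]
    intro v hv
    exact ClE_zero hd q J hJ hv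
  let e : (Ix s → F) ≃ₗ[F] W := LinearMap.linearEquivOfInjective J hinj (by rw [ClE_card, hW])
  refine ⟨D, (LinearEquiv.ofTop D.V htop).trans e, hno, fun v => ?_⟩
  change q (J v.1) = qf D.a D.b v.1
  rw [ha, hb]
  exact hJ v.1

end MP7Z.Ort
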