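import Pool.Agent.Lib.MP_7f581e_Z.Ort.ClE

/-!
# Quadratic spaces of odd dimension
-/

set_option autoImplicit false

namespace MP7Z.Ort

open TensorProduct MP7fS Matrix

theorem ClO_polar {F : Type} [Field F] {W : Type} [AddCommGroup W] [Module F W]
    (q : QuadraticForm F W) (x y : W × F) :
    QuadraticMap.polar (q.prod (QuadraticMap.sq (R := F) (A := F))) x y =
      QuadraticMap.polar q x.1 y.1 + 2 * x.2 * y.2 := by
  rw [QuadraticMap.polar_prod]
  congr 1
  change (x.2 + y.2) * (x.2 + y.2) - x.2 * x.2 - y.2 * y.2 = 2 * x.2 * y.2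
  ring

theorem tClO (h0 : OddStmt) (h1 : ClsStmt) (h2 : ExiStmt) : ClOStmt := by
  intro F _ _ s W _ _ _ q hq hW
  have h20 : (2 : F) ≠ 0 := h0 F s W q hq hW
  let q' : QuadraticForm F (W × F) := q.prod (QuadraticMap.sq (R := F) (A := F))
  have hq' : ∀ x c, q' (x, c) = q x + c * c := fun _ _ => rfl
  have hpol : ∀ x y : W × F, QuadraticMap.polar q' x y =
      QuadraticMap.polar q x.1 y.1 + 2 * x.2 * y.2 := ClO_polar q
  have hnd : ∀ x, (∀ y, QuadraticMap.polar q' x y = 0) → x = 0 := by
    rintro ⟨x, c⟩ h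
    have e1 : x = 0 := by
      apply hq
      intro y
      have h3 := h (y, 0)
      rw [hpol, mul_zero, add_zero] at h3
      exact h3
    have e2 : c = 0 := by
      have h3 := h (0, 1)
      rw [hpol] at h3
      change QuadraticMap.polar q x 0 + 2 * c * 1 = 0 at h3
      rw [QuadraticMap.polar_zero_right, zero_add, mul_one] at h3
      exact (mul_eq_zero.1 h3).resolve_left h20
    rw [e1, e2]
    rfl
  have hw : True → q' ((0, 1) : W × F) = 1 ∧ (2 : F) ≠ 0 := by
    intro _
    refine ⟨?_, h20⟩
    rw [hq', QuadraticMap.map_zero, zero_add, mul_one]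
  have hdim : Module.finrank F (W × F) = 2 * s + 2 := by
    rw [Module.finrank_prod, hW, Module.finrank_self]
  obtain ⟨a', b', x, hd, hax, hx⟩ := h1 F True s (W × F) q' (0, 1) hnd hw hdim
  obtain ⟨ha', hx0⟩ := hax trivial
  subst ha'
  obtain ⟨D, ha, hb, ho⟩ := h2 F s 0 b' True hd (fun _ => ⟨rfl, h20⟩)
  let J : (Ix s → F) →ₗ[F] (W × F) := Fintype.linearCombination F x
  have hJ : ∀ v, q' (J v) = qf 0 b' v := hx
  have hJw : J (bv F (iw 0)) = (0, 1) := by
    rw [← hx0]
    have e1 := Fintype.linearCombination_apply_single F x (iw 0) 1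
    rw [one_smul] at e1
    exact e1
  have hJ2 : ∀ v, (J v).2 = v (iw 0) := by
    intro v
    have e1 : QuadraticMap.polar q' (J v) (J (bv F (iw 0))) = bf 0 b' v (bv F (iw 0)) := by
      change q' (J v + J (bv F (iw 0))) - q' (J v) - q' (J (bv F (iw 0))) = _
      rw [← map_add, hJ, hJ, hJ, qf_add]
      ring
    rw [hJw, hpol, bf_w0] at e1
    change QuadraticMap.polar q (J v).1 0 + 2 * (J v).2 * 1 = _ at e1
    rw [QuadraticMap.polar_zero_right, zero_add, mul_one, zero_mul, add_zero] at e1
    exact mul_left_cancel₀ h20 e1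
  have hinj : Function.Injective J := by
    rw [injective_iff_map_eq_zero]
    intro v hv
    exact ClE_zero hd q' J hJ hv
  let e : (Ix s → F) ≃ₗ[F] (W × F) :=
    LinearMap.linearEquivOfInjective J hinj (by rw [ClE_card, hdim])
  have he : ∀ v, e v = J v := fun _ => rfl
  have hes : ∀ y : W, (e.symm (y, (0 : F))) (iw 0) = 0 := by
    intro y
    have e1 := hJ2 (e.symm (y, (0 : F)))
    rw [← he, LinearEquiv.apply_symm_apply] at e1
    exact e1.symm
  have hpair : ∀ v : D.V, J v = ((J v).1, (0 : F)) := by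
    intro v
    refine Prod.ext rfl ?_
    rw [hJ2]
    exact v.2 (ho.2 trivial)
  let j : D.V ≃ₗ[F] W :=
    { toFun := fun v => (J v).1
      map_add' := fun v w => by
        rw [Submodule.coe_add, map_add]
        rfl
      map_smul' := fun c v => by
        rw [Submodule.coe_smul, map_smul]
        rfl
      invFun := fun y => ⟨e.symm (y, 0), fun _ => hes y⟩
      left_inv := fun v => Subtype.ext (by
        change e.symm ((J v).1, 0) = v
        rw [← hpair, ← he, LinearEquiv.symm_apply_apply])
      right_inv := fun y => by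
        change (J (e.symm (y, 0))).1 = y
        rw [← he, LinearEquiv.apply_symm_apply] }
  refine ⟨D, j, ho.2 trivial, fun v => ?_⟩
  change q (J v).1 = qf D.a D.b v.1
  rw [ha, hb, ← hJ, hpair, hq', mul_zero, add_zero]

end MP7Z.Ort
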