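import Pool.Agent.Lib.MP_7f581e_Z.Ort.SpecA

/-!
# Orthogonal groups: classification of the quadratic forms over finite fields
-/

set_option autoImplicit false
set_option linter.unusedSectionVars false

namespace MP7Z.Ort

open TensorProduct MP7fS Matrix

theorem Cls_polar_self {K W : Type} [Field K] [AddCommGroup W] [Module K W]
    (q : QuadraticForm K W) (x : W) : QuadraticMap.polar q x x = 2 * q x := by
  rw [QuadraticMap.polar_self]
  simp [two_mul]

theorem Cls_smul {K W : Type} [Field K] [AddCommGroup W] [Module K W]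
    (q : QuadraticForm K W) (c : K) (x : W) : q (c • x) = c ^ 2 * q x := by
  rw [QuadraticMap.map_smul, smul_eq_mul, pow_two]

theorem Cls_add {K W : Type} [Field K] [AddCommGroup W] [Module K W]
    (q : QuadraticForm K W) (x y : W) : q (x + y) = q x + q y + QuadraticMap.polar q x y :=
  QuadraticMap.map_add q x y

theorem Cls_sum {K W : Type} [Field K] [AddCommGroup W] [Module K W] {s : ℕ}
    (v : Ix (s + 1) → K) (x : Ix (s + 1) → W) : ∑ i, v i • x i =
      ∑ i : Ix s, v (cIx i) • x (cIx i) + (v (ie (Fin.last s)) • x (ie (Fin.last s)) +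
        v (jf (Fin.last s)) • x (jf (Fin.last s))) := by
  simp only [Fintype.sum_sum_type, Fin.sum_univ_castSucc, cIx, Sum.map_inl,
    Sum.map_inr, id, ie, jf]
  abel

/-- The base case. -/
theorem Cls_zero (h1 : CheStmt) {K : Type} [Field K] [Finite K] (o : Prop) {W : Type}
    [AddCommGroup W] [Module K W] [FiniteDimensional K W] (q : QuadraticForm K W) (w : W)
    (hnd : ∀ x, (∀ y, QuadraticMap.polar q x y = 0) → x = 0) (ho : o → q w = 1 ∧ (2 : K) ≠ 0)
    (hr : Module.finrank K W = 2) :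
    ∃ (a' b' : K) (x : Ix 0 → W), a' ^ 2 - 4 * b' ≠ 0 ∧ (o → a' = 0 ∧ x (iw 0) = w) ∧
      ∀ v : Ix 0 → K, q (∑ i, v i • x i) = qf a' b' v := by
  classical
  obtain ⟨w0, hw0, hw0w⟩ : ∃ w0 : W, q w0 = 1 ∧ (o → w0 = w) := by
    by_cases h : o
    · exact ⟨w, (ho h).1, fun _ => rfl⟩
    · obtain ⟨x, hx⟩ := (h1 K W q).2 hr.ge hnd
      exact ⟨x, hx, fun h' => absurd h' h⟩
  have hw0ne : w0 ≠ 0 := by
    intro h
    rw [h, QuadraticMap.map_zero] at hw0
    exact zero_ne_one hw0
  obtain ⟨w1', hw1'⟩ : ∃ w1' : W, w1' ∉ Submodule.span K {w0} := by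
    by_contra hcon
    push Not at hcon
    have h2 : Submodule.span K {w0} = ⊤ := by
      rw [eq_top_iff]
      exact fun x _ => hcon x
    have h3 : Module.finrank K (Submodule.span K {w0}) ≤ 1 := by
      rw [finrank_span_singleton hw0ne]
    rw [h2, finrank_top, hr] at h3
    omega
  obtain ⟨w1, hw1, hw1o⟩ : ∃ w1 : W, w1 ∉ Submodule.span K {w0} ∧
      (o → QuadraticMap.polar q w0 w1 = 0) := by
    by_cases h : o
    · have h2 := (ho h).2
      refine ⟨w1' - (QuadraticMap.polar q w0 w1' / 2) • w0, ?_, fun _ => ?_⟩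
      · intro h3
        apply hw1'
        have h4 := Submodule.add_mem _ h3 (Submodule.smul_mem _
          (QuadraticMap.polar q w0 w1' / 2) (Submodule.mem_span_singleton_self w0))
        rwa [sub_add_cancel] at h4
      · rw [QuadraticMap.polar_sub_right, QuadraticMap.polar_smul_right, Cls_polar_self, hw0,
          smul_eq_mul]
        field_simp
        ring
    · exact ⟨w1', hw1', fun h' => absurd h' h⟩
  have hli : ∀ α β : K, α • w0 + β • w1 = 0 → α = 0 ∧ β = 0 := by
    intro α β h
    have hβ : β = 0 := by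
      by_contra hβ
      apply hw1
      rw [Submodule.mem_span_singleton]
      refine ⟨-(β⁻¹ * α), ?_⟩
      have h2 : β • w1 = -(α • w0) := eq_neg_of_add_eq_zero_right h
      have h3 : w1 = β⁻¹ • (β • w1) := by rw [smul_smul, inv_mul_cancel₀ hβ, one_smul]
      rw [h3, h2, smul_neg, smul_smul, neg_smul]
    rw [hβ, zero_smul, add_zero] at h
    exact ⟨(smul_eq_zero.1 h).resolve_right hw0ne, hβ⟩
  have hLI : LinearIndependent K ![w0, w1] := LinearIndependent.pair_iff.2 hli
  have hspan : Submodule.span K (Set.range ![w0, w1]) = ⊤ :=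
    hLI.span_eq_top_of_card_eq_finrank (by rw [hr]; rfl)
  have hnd' : ∀ z : W, QuadraticMap.polar q z w0 = 0 → QuadraticMap.polar q z w1 = 0 →
      z = 0 := by
    intro z hz0 hz1
    refine hnd z fun y => ?_
    have hy : y ∈ Submodule.span K (Set.range ![w0, w1]) := by
      rw [hspan]
      trivial
    rw [Matrix.range_cons, Matrix.range_cons, Matrix.range_empty, Set.union_empty,
      Set.singleton_union, Submodule.mem_span_pair] at hy
    obtain ⟨α, β, rfl⟩ := hy
    rw [QuadraticMap.polar_add_right, QuadraticMap.polar_smul_right,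
      QuadraticMap.polar_smul_right, hz0, hz1, smul_zero, smul_zero, add_zero]
  have h00 : QuadraticMap.polar q w0 w0 = 2 := by rw [Cls_polar_self, hw0, mul_one]
  have h10 : QuadraticMap.polar q w1 w0 = QuadraticMap.polar q w0 w1 :=
    QuadraticMap.polar_comm q w1 w0
  have h11 : QuadraticMap.polar q w1 w1 = 2 * q w1 := Cls_polar_self q w1
  refine ⟨QuadraticMap.polar q w0 w1, q w1, fun i => Sum.elim (fun _ => 0) ![w0, w1] i, ?_, ?_,
    ?_⟩
  · intro hdet
    have hz : QuadraticMap.polar q w0 w1 • w0 + (-2 : K) • w1 = 0 := by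
      apply hnd'
      · rw [QuadraticMap.polar_add_left, QuadraticMap.polar_smul_left,
          QuadraticMap.polar_smul_left, h00, h10, smul_eq_mul, smul_eq_mul]
        ring
      · rw [QuadraticMap.polar_add_left, QuadraticMap.polar_smul_left,
          QuadraticMap.polar_smul_left, h11, smul_eq_mul, smul_eq_mul]
        linear_combination hdet
    obtain ⟨ha, h2⟩ := hli _ _ hz
    have h2' : (2 : K) = 0 := neg_eq_zero.1 h2
    apply hw0ne
    apply hnd'
    · rw [h00, h2']
    · exact ha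
  · intro h
    exact ⟨hw1o h, hw0w h⟩
  · intro v
    have e1 : ∑ i, v i • (Sum.elim (fun _ => 0) ![w0, w1] i : W) =
        v (iw 0) • w0 + v (iw 1) • w1 := by
      rw [Fintype.sum_sum_type, Fin.sum_univ_two]
      simp
    rw [e1, Cls_add, Cls_smul, Cls_smul, QuadraticMap.polar_smul_left,
      QuadraticMap.polar_smul_right, hw0, qf, smul_eq_mul, smul_eq_mul]
    simp only [Finset.univ_eq_empty, Finset.sum_empty]
    ring

/-- An isotropic vector orthogonal to a given one. -/
theorem Cls_iso (h1 : CheStmt) {K : Type} [Field K] [Finite K] (o : Prop) {W : Type}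
    [AddCommGroup W] [Module K W] [FiniteDimensional K W] (q : QuadraticForm K W) (w : W)
    (hr : 4 ≤ Module.finrank K W) :
    ∃ x : W, x ≠ 0 ∧ q x = 0 ∧ (o → QuadraticMap.polar q w x = 0) := by
  have h2 := LinearMap.finrank_range_add_finrank_ker (QuadraticMap.polarBilin q w)
  have h3 : Module.finrank K (LinearMap.range (QuadraticMap.polarBilin q w)) ≤ 1 := by
    have h4 := Submodule.finrank_le (LinearMap.range (QuadraticMap.polarBilin q w))
    rwa [Module.finrank_self] at h4
  set U := LinearMap.ker (QuadraticMap.polarBilin q w) with hU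
  obtain ⟨x, hx, hqx⟩ := (h1 K U (q.comp U.subtype)).1 (by omega)
  refine ⟨x, fun h => hx (Subtype.ext h), hqx, fun _ => ?_⟩
  exact LinearMap.mem_ker.1 x.2

theorem tCls (h1 : CheStmt) (h2 : HypStmt) : ClsStmt := by
  intro K _ _ o s
  induction s with
  | zero =>
    intro W _ _ _ q w hnd ho hr
    exact Cls_zero h1 o q w hnd ho hr
  | succ s ih =>
    intro W _ _ _ q w hnd ho hr
    obtain ⟨x0, hx0, hqx0, hox0⟩ := Cls_iso h1 o q w (by omega)
    obtain ⟨y0, U, hqy0, hxy, hoy0, hU, hUr, hUnd⟩ := h2 K W q o w hnd ho x0 hx0 hqx0 hox0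
    have hwU : o → w ∈ U := by
      intro h
      rw [hU, QuadraticMap.polar_comm, QuadraticMap.polar_comm q y0]
      exact ⟨hox0 h, hoy0 h⟩
    obtain ⟨w', hw'⟩ : ∃ w' : U, o → (w' : W) = w := by
      by_cases h : o
      · exact ⟨⟨w, hwU h⟩, fun _ => rfl⟩
      · exact ⟨0, fun h' => absurd h' h⟩
    obtain ⟨a', b', x', hd, ho', hx'⟩ := ih U (q.comp U.subtype) w' (fun z hz => hUnd z hz)
      (fun h => ⟨by
        change q (w' : W) = 1
        rw [hw' h, (ho h).1], (ho h).2⟩) (by omega)
    obtain ⟨xe, hxe1, hxe2⟩ : ∃ xe : Fin (s + 1) → W, (∀ i : Fin s, xe i.castSucc =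
        (x' (ie i) : W)) ∧ xe (Fin.last s) = x0 :=
      ⟨Fin.snoc (α := fun _ => W) (fun i => (x' (ie i) : W)) x0,
        fun i => by rw [Fin.snoc_castSucc], by rw [Fin.snoc_last]⟩
    obtain ⟨xf, hxf1, hxf2⟩ : ∃ xf : Fin (s + 1) → W, (∀ i : Fin s, xf i.castSucc =
        (x' (jf i) : W)) ∧ xf (Fin.last s) = y0 :=
      ⟨Fin.snoc (α := fun _ => W) (fun i => (x' (jf i) : W)) y0,
        fun i => by rw [Fin.snoc_castSucc], by rw [Fin.snoc_last]⟩
    let x : Ix (s + 1) → W := Sum.elim (Sum.elim xe xf) (fun j => (x' (iw j) : W))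
    have hxc : ∀ i, x (cIx i) = (x' i : W) := by
      rintro ((i | i) | i)
      · exact hxe1 i
      · exact hxf1 i
      · rfl
    have hxe : x (ie (Fin.last s)) = x0 := hxe2
    have hxf : x (jf (Fin.last s)) = y0 := hxf2
    refine ⟨a', b', x, hd, fun h => ⟨(ho' h).1, ?_⟩, fun v => ?_⟩
    · change (x' (iw 0) : W) = w
      rw [(ho' h).2, hw' h]
    · rw [Cls_sum, hxe, hxf]
      have e1 : ∑ i : Ix s, v (cIx i) • x (cIx i) =
          ((∑ i : Ix s, (v ∘ cIx) i • x' i : U) : W) := by
        rw [Submodule.coe_sum]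
        refine Finset.sum_congr rfl fun i _ => ?_
        rw [hxc]
        rfl
      have e2 : q ((∑ i : Ix s, (v ∘ cIx) i • x' i : U) : W) = qf a' b' (v ∘ cIx) := hx' (v ∘ cIx)
      set A : U := ∑ i : Ix s, (v ∘ cIx) i • x' i with hA
      obtain ⟨hA1, hA2⟩ := (hU A).1 A.2
      rw [QuadraticMap.polar_comm] at hA1 hA2
      rw [e1, Cls_add, e2, Cls_add, Cls_smul, Cls_smul, hqx0, hqy0, qf_succ]
      simp only [QuadraticMap.polar_add_right, QuadraticMap.polar_smul_right,
        QuadraticMap.polar_smul_left, hA1, hA2, hxy, smul_eq_mul]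
      ring

end MP7Z.Ort
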