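import Pool.Agent.Lib.MP_7f581e_Z.Ort.SpecE

/-!
# Commutators of elements normalizing the vectors
-/

set_option autoImplicit false

namespace MP7Z.Ort

open TensorProduct MP7fS Matrix

section

variable {K : Type} [Field K] {l : Type} [Fintype l] [DecidableEq l] {a b : K} {s : ℕ}
  {g : Ix s → Matrix l l K} {P : GL l K} {o : Prop}

theorem Cmm_inv {t : GL l K} {G : (Ix s → K) ≃ₗ[K] (Ix s → K)}
    (ht : ∀ v, (t : Matrix l l K) * gv g v = gv g (G v) * (t : Matrix l l K)) (v : Ix s → K) :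
    ((t⁻¹ : GL l K) : Matrix l l K) * gv g v =
      gv g (G.symm v) * ((t⁻¹ : GL l K) : Matrix l l K) := by
  have h1 := ht (G.symm v)
  rw [LinearEquiv.apply_symm_apply] at h1
  calc ((t⁻¹ : GL l K) : Matrix l l K) * gv g v =
      ((t⁻¹ : GL l K) : Matrix l l K) * (gv g v * (t : Matrix l l K)) *
        ((t⁻¹ : GL l K) : Matrix l l K) := by
          rw [Matrix.mul_assoc, Matrix.mul_assoc (gv g v), Units.mul_inv, Matrix.mul_one]
    _ = _ := by rw [← h1, ← Matrix.mul_assoc, Units.inv_mul, Matrix.one_mul]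

theorem Cmm_mul {t t' : GL l K} {G G' : (Ix s → K) ≃ₗ[K] (Ix s → K)}
    (ht : ∀ v, (t : Matrix l l K) * gv g v = gv g (G v) * (t : Matrix l l K))
    (ht' : ∀ v, (t' : Matrix l l K) * gv g v = gv g (G' v) * (t' : Matrix l l K))
    (v : Ix s → K) :
    ((t * t' : GL l K) : Matrix l l K) * gv g v =
      gv g ((G'.trans G) v) * ((t * t' : GL l K) : Matrix l l K) := by
  rw [Units.val_mul, Matrix.mul_assoc, ht', ← Matrix.mul_assoc, ht, Matrix.mul_assoc]
  rfl

theorem Cmm_norm (h2 : TrfStmt) (hg : Good a b g P o) {t : GL l K}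
    {G : (Ix s → K) ≃ₗ[K] (Ix s → K)}
    (ht : ∀ v, (t : Matrix l l K) * gv g v = gv g (G v) * (t : Matrix l l K)) :
    ∃ ν : K, ν ≠ 0 ∧ rv P (t : Matrix l l K) = ν • ((t⁻¹ : GL l K) : Matrix l l K) ∧
      rv P ((t⁻¹ : GL l K) : Matrix l l K) = ν⁻¹ • (t : Matrix l l K) := by
  have := hg.nonempty
  have hd : a ^ 2 - 4 * b ≠ 0 := hg.disc.ne_zero
  have h3 : ∀ v, gv g v * rv P (t : Matrix l l K) = rv P (t : Matrix l l K) * gv g (G v) := by
    intro v
    have h4 := congrArg (rv P) (ht v)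
    rwa [rv_mul, rv_mul, hg.rv_gv, hg.rv_gv] at h4
  have hcomm : ∀ i, rv P (t : Matrix l l K) * (t : Matrix l l K) * g i =
      g i * (rv P (t : Matrix l l K) * (t : Matrix l l K)) := by
    intro i
    have h4 := ht (bv K i)
    have h5 := h3 (bv K i)
    rw [gv_bv] at h4 h5
    rw [Matrix.mul_assoc, h4, ← Matrix.mul_assoc, ← h5, Matrix.mul_assoc]
  obtain ⟨ν, hν⟩ := (h2.1 K l a b s g hd hg.card hg.frame).2.1 _ hcomm
  have hone : rv P ((t⁻¹ : GL l K) : Matrix l l K) * rv P (t : Matrix l l K) = 1 := by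
    rw [← rv_mul, Units.mul_inv, rv_one]
  have e1 : rv P (t : Matrix l l K) = ν • ((t⁻¹ : GL l K) : Matrix l l K) := by
    calc rv P (t : Matrix l l K) = rv P (t : Matrix l l K) * (t : Matrix l l K) *
          ((t⁻¹ : GL l K) : Matrix l l K) := by
            rw [Matrix.mul_assoc, Units.mul_inv, Matrix.mul_one]
      _ = _ := by rw [hν, Matrix.smul_mul, Matrix.one_mul]
  have hν0 : ν ≠ 0 := by
    rintro rfl
    rw [e1, zero_smul, Matrix.mul_zero] at hone
    exact zero_ne_one hone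
  refine ⟨ν, hν0, e1, ?_⟩
  calc rv P ((t⁻¹ : GL l K) : Matrix l l K) =
      rv P ((t⁻¹ : GL l K) : Matrix l l K) * (ν⁻¹ • (rv P (t : Matrix l l K) *
        (t : Matrix l l K))) := by
          rw [hν, smul_smul, inv_mul_cancel₀ hν0, one_smul, Matrix.mul_one]
    _ = _ := by
      rw [Matrix.mul_smul, ← Matrix.mul_assoc, hone, Matrix.one_mul]

theorem Cmm_zt (h1 : ZaaStmt) (hg : Good a b g P o) {t t' : GL l K}
    {G G' : (Ix s → K) ≃ₗ[K] (Ix s → K)}
    (ht : ∀ v, (t : Matrix l l K) * gv g v = gv g (G v) * (t : Matrix l l K))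
    (ht' : ∀ v, (t' : Matrix l l K) * gv g v = gv g (G' v) * (t' : Matrix l l K)) :
    ((t * t' * t⁻¹ * t'⁻¹ : GL l K) : Matrix l l K) * zt a s g =
      zt a s g * ((t * t' * t⁻¹ * t'⁻¹ : GL l K) : Matrix l l K) := by
  obtain ⟨κ, m, hκ, h3⟩ := h1 K l a b s g P o hg t⁻¹ G.symm (Cmm_inv ht)
  obtain ⟨κ', m', hκ', h3'⟩ := h1 K l a b s g P o hg t'⁻¹ G'.symm (Cmm_inv ht')
  have hd : a ^ 2 - 4 * b ≠ 0 := hg.disc.ne_zero
  have hk : κ' + m' * κ = κ + m * κ' := by
    by_cases h2 : (2 : K) = 0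
    · have ha : a ≠ 0 := by
        rintro rfl
        apply hd
        have h4 : (4 : K) = 2 * 2 := by norm_num
        rw [h4, h2]
        ring
      rw [h2, zero_mul] at hκ hκ'
      have e1 : m = 1 := by
        have := (mul_eq_zero.1 hκ.symm).resolve_left ha
        exact (sub_eq_zero.1 this).symm
      have e2 : m' = 1 := by
        have := (mul_eq_zero.1 hκ'.symm).resolve_left ha
        exact (sub_eq_zero.1 this).symm
      rw [e1, e2]
      ring
    · apply mul_left_cancel₀ h2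
      linear_combination (1 - m) * hκ' - (1 - m') * hκ
  set ζ := zt a s g with hζ
  set r : Matrix l l K := ((t⁻¹ : GL l K) : Matrix l l K) with hr
  set r' : Matrix l l K := ((t'⁻¹ : GL l K) : Matrix l l K) with hr'
  have e1 : r * r' * ζ = ((κ' + m' * κ) • 1 + (m * m') • ζ) * (r * r') := by
    rw [Matrix.mul_assoc, h3', ← Matrix.mul_assoc, Matrix.mul_add, Matrix.mul_smul,
      Matrix.mul_one, Matrix.mul_smul, h3]
    simp only [Matrix.add_mul, Matrix.smul_mul, Matrix.one_mul, smul_add, smul_smul, add_smul,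
      Matrix.mul_assoc]
    rw [mul_comm m' m]
    abel
  have e2 : r' * r * ζ = ((κ' + m' * κ) • 1 + (m * m') • ζ) * (r' * r) := by
    rw [hk, Matrix.mul_assoc, h3, ← Matrix.mul_assoc, Matrix.mul_add, Matrix.mul_smul,
      Matrix.mul_one, Matrix.mul_smul, h3']
    simp only [Matrix.add_mul, Matrix.smul_mul, Matrix.one_mul, smul_add, smul_smul, add_smul,
      Matrix.mul_assoc]
    abel
  have e3 : (t : Matrix l l K) * (t' : Matrix l l K) * (r' * r) = 1 := by
    rw [Matrix.mul_assoc, ← Matrix.mul_assoc (t' : Matrix l l K), hr', Units.mul_inv,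
      Matrix.one_mul, hr, Units.mul_inv]
  have e4 : r' * r * ((t : Matrix l l K) * (t' : Matrix l l K)) = 1 := by
    rw [Matrix.mul_assoc, ← Matrix.mul_assoc r, hr, Units.inv_mul, Matrix.one_mul, hr',
      Units.inv_mul]
  have e5 : (t : Matrix l l K) * (t' : Matrix l l K) *
      ((κ' + m' * κ) • 1 + (m * m') • ζ) = ζ * ((t : Matrix l l K) * (t' : Matrix l l K)) := by
    generalize ((κ' + m' * κ) • (1 : Matrix l l K) + (m * m') • ζ) = Y at e2 ⊢
    generalize r' * r = R at e2 e3 e4 ⊢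
    generalize (t : Matrix l l K) * (t' : Matrix l l K) = U at e3 e4 ⊢
    calc U * Y = U * (Y * (R * U)) := by rw [e4, Matrix.mul_one]
      _ = U * (Y * R) * U := by simp only [Matrix.mul_assoc]
      _ = U * R * (ζ * U) := by
        rw [← e2]
        simp only [Matrix.mul_assoc]
      _ = _ := by rw [e3, Matrix.one_mul]
  have e6 : ((t * t' * t⁻¹ * t'⁻¹ : GL l K) : Matrix l l K) =
      (t : Matrix l l K) * (t' : Matrix l l K) * (r * r') := by
    rw [Units.val_mul, Units.val_mul, Units.val_mul, Matrix.mul_assoc _ r]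
  rw [e6, Matrix.mul_assoc, e1, ← Matrix.mul_assoc, e5, Matrix.mul_assoc]

end

theorem tCmm (h1 : ZaaStmt) (h2 : TrfStmt) : CmmStmt := by
  intro K _ l _ _ a b s g P o hg t t' G G' ht ht' hw hw'
  have hc1 := Cmm_mul (Cmm_mul (Cmm_mul ht ht') (Cmm_inv ht)) (Cmm_inv ht')
  rw [mem_SG]
  refine ⟨Cmm_zt h1 hg ht ht', ?_, fun v => ⟨_, hc1 v⟩, fun v => ?_, fun ho => ?_⟩
  · obtain ⟨ν, hν, e1, e2⟩ := Cmm_norm h2 hg ht
    obtain ⟨ν', hν', e1', e2'⟩ := Cmm_norm h2 hg ht'
    have e3 : ((t * t' * t⁻¹ * t'⁻¹ : GL l K) : Matrix l l K) =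
        (t : Matrix l l K) * (t' : Matrix l l K) * ((t⁻¹ : GL l K) : Matrix l l K) *
          ((t'⁻¹ : GL l K) : Matrix l l K) := rfl
    have e4 : rv P ((t * t' * t⁻¹ * t'⁻¹ : GL l K) : Matrix l l K) =
        ((t' * (t * (t'⁻¹ * t⁻¹)) : GL l K) : Matrix l l K) := by
      rw [e3, rv_mul, rv_mul, rv_mul, e1, e2, e1', e2']
      simp only [Matrix.smul_mul, Matrix.mul_smul, smul_smul]
      have e5 : ν * ν' * ν⁻¹ * ν'⁻¹ = 1 := by
        field_simp
      rw [e5, one_smul]
      rfl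
    rw [e4, ← Units.val_mul]
    have e6 : t' * (t * (t'⁻¹ * t⁻¹)) * (t * t' * t⁻¹ * t'⁻¹) = 1 := by group
    rw [e6, Units.val_one]
  · have h3 := Cmm_inv hc1
    set c : GL l K := t * t' * t⁻¹ * t'⁻¹ with hc
    have h4 := h3 v
    refine ⟨(G'.symm.trans (G.symm.trans (G'.trans G))).symm v, ?_⟩
    calc gv g v * (c : Matrix l l K) = (c : Matrix l l K) * (((c⁻¹ : GL l K) : Matrix l l K) *
          gv g v) * (c : Matrix l l K) := by
            rw [← Matrix.mul_assoc (c : Matrix l l K), Units.mul_inv, Matrix.one_mul]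
      _ = _ := by rw [h4, Matrix.mul_assoc, Matrix.mul_assoc, Units.inv_mul, Matrix.mul_one]
  · have h3 : (t : Matrix l l K) * g (iw 0) = g (iw 0) * (t : Matrix l l K) := by
      have := ht (bv K (iw 0))
      rwa [hw ho, gv_bv] at this
    have h3' : (t' : Matrix l l K) * g (iw 0) = g (iw 0) * (t' : Matrix l l K) := by
      have := ht' (bv K (iw 0))
      rwa [hw' ho, gv_bv] at this
    have c1 : Commute (t : Matrix l l K) (g (iw 0)) := h3
    have c1' : Commute (t' : Matrix l l K) (g (iw 0)) := h3'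
    exact ((c1.mul_left c1').mul_left c1.units_inv_left).mul_left c1'.units_inv_left

end MP7Z.Ort
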