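import Pool.Agent.Lib.MP_7f581e_Z.Ort.SpecA

/-!
# Orthogonal groups: even operators commuting with all idempotents commute with each other
-/

set_option autoImplicit false
set_option linter.unusedSectionVars false

namespace MP7Z.Ort

open MP7fS Matrix

private theorem ComV_zt {K W : Type} [Field K] [AddCommGroup W] [Module K W] (U : Submodule K W)
    (a : K) : ∀ (s : ℕ) (g : Ix s → Module.End K W) (g' : Ix s → Module.End K U),
      (∀ i (x : U), ((g' i x : U) : W) = g i (x : W)) →
      ∀ x : U, ((zt a s g' x : U) : W) = zt a s g (x : W) := by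
  intro s
  induction s with
  | zero =>
    intro g g' h x
    rw [zt, zt, Module.End.mul_apply, Module.End.mul_apply, h, h]
  | succ s ih =>
    intro g g' h x
    have h1 := ih (g ∘ cIx) (g' ∘ cIx) (fun i x => h (cIx i) x)
    rw [zt, zt]
    simp only [LinearMap.add_apply, Module.End.mul_apply, LinearMap.sub_apply,
      LinearMap.smul_apply, Module.End.one_apply, Submodule.coe_add, Submodule.coe_sub,
      Submodule.coe_smul, h1, h]

/-- the two halves of an operator -/
private theorem ComV_half {K W : Type} [Field K] [AddCommGroup W] [Module K W] {a : K} {s : ℕ}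
    (G : Ix s → Module.End K W) (e f : Module.End K W)
    (g' : Ix s → Module.End K (LinearMap.ker e))
    (hres : ∀ i (x : LinearMap.ker e), ((g' i x : LinearMap.ker e) : W) = G i (x : W))
    (hff : ∀ x, f (f x) = 0)
    (ae : ∀ (j : Ix s) y, e (G j y) = -(G j (e y)))
    (af : ∀ (j : Ix s) y, f (G j y) = -(G j (f y)))
    (hze' : ∀ x, zt a s G (e x) = e (zt a s G x))
    (hzf' : ∀ x, zt a s G (f x) = f (zt a s G x))
    (d1 : ∀ x, e x = 0 → e (f x) = x)
    (d2 : ∀ w, e (e w) = 0 ∧ w = e (f w) + f (e w))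
    (X : Module.End K W)
    (hE : ∀ x, X (e (f x)) = e (f (X x)))
    (hEi : ∀ (i : Fin s) x, X (G (ie i) (G (jf i) x)) = G (ie i) (G (jf i) (X x)))
    (hzX : ∀ x, X (zt a s G (e (f x)) + (a • f (e x) - zt a s G (f (e x)))) =
      zt a s G (e (f (X x))) + (a • f (e (X x)) - zt a s G (f (e (X x))))) :
    ∃ X1 X2 : Module.End K (LinearMap.ker e),
      (∀ x, ((X1 x : LinearMap.ker e) : W) = X (x : W)) ∧
      (∀ x : LinearMap.ker e, X (f (x : W)) = f ((X2 x : LinearMap.ker e) : W)) ∧
      (∀ i, X1 * (g' (ie i) * g' (jf i)) = g' (ie i) * g' (jf i) * X1) ∧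
      (∀ i, X2 * (g' (ie i) * g' (jf i)) = g' (ie i) * g' (jf i) * X2) ∧
      X1 * zt a s g' = zt a s g' * X1 ∧ X2 * zt a s g' = zt a s g' * X2 := by
  have hker : ∀ x, e x = 0 → e (X x) = 0 := by
    intro x hx
    have h1 : X x = e (f (X x)) := by
      rw [← hE, d1 x hx]
    rw [h1]
    exact (d2 _).1
  have hfX : ∀ x, e x = 0 → X (f x) = f (e (X (f x))) := by
    intro x hx
    have h1 : e (f (X (f x))) = 0 := by
      rw [← hE, hff, map_zero, map_zero]
    have h2 := (d2 (X (f x))).2
    rw [h1, zero_add] at h2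
    exact h2
  have hXz : ∀ x, e x = 0 → X (zt a s G x) = zt a s G (X x) := by
    intro x hx
    have h3 := hzX x
    rw [d1 x hx, hx, map_zero, map_zero, smul_zero, sub_zero, add_zero, d1 _ (hker x hx),
      hker x hx, map_zero, map_zero, smul_zero, sub_zero, add_zero] at h3
    exact h3
  have hXzf : ∀ x, e x = 0 → X (zt a s G (f x)) = zt a s G (X (f x)) := by
    intro x hx
    have h4 : f (e (X (f x))) = X (f x) := (hfX x hx).symm
    have h5 : f (X (f x)) = 0 := by
      rw [hfX x hx, hff]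
    have h3 := hzX (f x)
    rw [hff, map_zero, map_zero, zero_add, d1 x hx, h5, map_zero, map_zero, zero_add, h4,
      map_sub, map_smul] at h3
    exact sub_right_injective h3
  have cf : ∀ (i j : Ix s) y, f (G i (G j y)) = G i (G j (f y)) := by
    intro i j y
    rw [af, af, map_neg, neg_neg]
  have ce : ∀ (i j : Ix s) y, e (G i (G j y)) = G i (G j (e y)) := by
    intro i j y
    rw [ae, ae, map_neg, neg_neg]
  have hzt := ComV_zt (LinearMap.ker e) a s G g' hres
  have m1 : ∀ x : LinearMap.ker e, (X.comp (LinearMap.ker e).subtype) x ∈ LinearMap.ker e :=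
    fun x => hker x.1 x.2
  have m2 : ∀ x : LinearMap.ker e, ((e * X * f).comp (LinearMap.ker e).subtype) x ∈
      LinearMap.ker e := fun x => (d2 _).1
  refine ⟨LinearMap.codRestrict (LinearMap.ker e) (X.comp (LinearMap.ker e).subtype) m1,
    LinearMap.codRestrict (LinearMap.ker e) ((e * X * f).comp (LinearMap.ker e).subtype) m2,
    fun x => rfl, fun x => hfX x.1 x.2, ?_, ?_, ?_, ?_⟩
  · intro i
    apply LinearMap.ext
    intro x
    apply Subtype.ext
    change X ((g' (ie i) (g' (jf i) x) : LinearMap.ker e) : W) =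
      ((g' (ie i) (g' (jf i) ⟨X (x : W), m1 x⟩) : LinearMap.ker e) : W)
    rw [hres, hres, hres, hres]
    exact hEi i _
  · intro i
    apply LinearMap.ext
    intro x
    apply Subtype.ext
    change e (X (f ((g' (ie i) (g' (jf i) x) : LinearMap.ker e) : W))) =
      ((g' (ie i) (g' (jf i) ⟨e (X (f (x : W))), m2 x⟩) : LinearMap.ker e) : W)
    rw [hres, hres, hres, hres, cf, hEi, ce]
  · apply LinearMap.ext
    intro x
    apply Subtype.ext
    change X ((zt a s g' x : LinearMap.ker e) : W) =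
      ((zt a s g' ⟨X (x : W), m1 x⟩ : LinearMap.ker e) : W)
    rw [hzt, hzt]
    exact hXz _ x.2
  · apply LinearMap.ext
    intro x
    apply Subtype.ext
    change e (X (f ((zt a s g' x : LinearMap.ker e) : W))) =
      ((zt a s g' ⟨e (X (f (x : W))), m2 x⟩ : LinearMap.ker e) : W)
    rw [hzt, hzt]
    change e (X (f (zt a s G (x : W)))) = zt a s G (e (X (f (x : W))))
    rw [← hzf', hXzf _ x.2, hze']

theorem tComV (h1 : DecStmt) (h2 : VacStmt) (h3 : ResFStmt) (h4 : CentVStmt) : ComVStmt := by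
  intro K _ a b hab s
  induction s with
  | zero =>
    intro W _ _ _ g hg hd X Y hX hY hXz hYz
    obtain ⟨k, l, hk⟩ := h4 K a b hab 0 W g hg hd X (fun i => i.elim0) (fun i => i.elim0) hXz
    obtain ⟨k', l', hk'⟩ := h4 K a b hab 0 W g hg hd Y (fun i => i.elim0) (fun i => i.elim0) hYz
    rw [hk, hk']
    simp only [mul_add, add_mul, smul_mul_smul_comm, mul_one, one_mul, mul_comm k', mul_comm l']
    abel
  | succ s ih =>
    intro W _ _ _ g hg hd X Y hX hY hXz hYz
    obtain ⟨d1, d2, d3, d4⟩ := h1 K W _ _ (hg.ee (Fin.last s)) (hg.ff (Fin.last s))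
      (hg.ef (Fin.last s))
    obtain ⟨g', hg', hres⟩ := h3 K W s a b g hg
    have hd1 : Module.finrank K (LinearMap.ker (g (ie (Fin.last s)))) = 2 ^ (s + 1) := by
      have h4 := d4 inferInstance
      rw [hd, pow_succ, mul_comm] at h4
      exact (Nat.eq_of_mul_eq_mul_left (by norm_num) h4).symm
    have hff : ∀ x, g (jf (Fin.last s)) (g (jf (Fin.last s)) x) = 0 :=
      fun x => congrArg (fun φ : Module.End K W => φ x) (hg.ff (Fin.last s))
    have hze : ∀ x, zt a s (g ∘ cIx) (g (ie (Fin.last s)) x) =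
        g (ie (Fin.last s)) (zt a s (g ∘ cIx) x) :=
      fun x => congrArg (fun φ : Module.End K W => φ x)
        (zt_comm_of_anti (a := a) (g (ie (Fin.last s))) s (g ∘ cIx) fun i => hg.anti_e' i)
    have hzf : ∀ x, zt a s (g ∘ cIx) (g (jf (Fin.last s)) x) =
        g (jf (Fin.last s)) (zt a s (g ∘ cIx) x) :=
      fun x => congrArg (fun φ : Module.End K W => φ x)
        (zt_comm_of_anti (a := a) (g (jf (Fin.last s))) s (g ∘ cIx) fun i => hg.anti_f' i)
    have ae : ∀ (j : Ix s) y, g (ie (Fin.last s)) ((g ∘ cIx) j y) =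
        -((g ∘ cIx) j (g (ie (Fin.last s)) y)) := by
      intro j y
      have h5 : g (cIx j) (g (ie (Fin.last s)) y) = -(g (ie (Fin.last s)) (g (cIx j) y)) :=
        congrArg (fun φ : Module.End K W => φ y) (hg.anti_e' j)
      change g (ie (Fin.last s)) (g (cIx j) y) = -(g (cIx j) (g (ie (Fin.last s)) y))
      rw [h5, neg_neg]
    have af : ∀ (j : Ix s) y, g (jf (Fin.last s)) ((g ∘ cIx) j y) =
        -((g ∘ cIx) j (g (jf (Fin.last s)) y)) := by
      intro j y
      have h5 : g (cIx j) (g (jf (Fin.last s)) y) = -(g (jf (Fin.last s)) (g (cIx j) y)) :=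
        congrArg (fun φ : Module.End K W => φ y) (hg.anti_f' j)
      change g (jf (Fin.last s)) (g (cIx j) y) = -(g (cIx j) (g (jf (Fin.last s)) y))
      rw [h5, neg_neg]
    obtain ⟨X1, X2, a1, a2, a3, a4, a5, a6⟩ := ComV_half (a := a) (g ∘ cIx) _ _ g' hres hff ae af
      hze hzf d1 d2 X (fun x => congrArg (fun φ : Module.End K W => φ x) (hX (Fin.last s)))
      (fun i x => congrArg (fun φ : Module.End K W => φ x) (hX i.castSucc))
      (fun x => congrArg (fun φ : Module.End K W => φ x) hXz)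
    obtain ⟨Y1, Y2, b1, b2, b3, b4, b5, b6⟩ := ComV_half (a := a) (g ∘ cIx) _ _ g' hres hff ae af
      hze hzf d1 d2 Y (fun x => congrArg (fun φ : Module.End K W => φ x) (hY (Fin.last s)))
      (fun i x => congrArg (fun φ : Module.End K W => φ x) (hY i.castSucc))
      (fun x => congrArg (fun φ : Module.End K W => φ x) hYz)
    have c1 := ih _ g' hg' hd1 X1 Y1 a3 b3 a5 b5
    have c2 := ih _ g' hg' hd1 X2 Y2 a4 b4 a6 b6
    apply LinearMap.ext
    intro w
    rw [Module.End.mul_apply, Module.End.mul_apply, (d2 w).2]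
    set x : LinearMap.ker (g (ie (Fin.last s))) :=
      ⟨g (ie (Fin.last s)) (g (jf (Fin.last s)) w), (d2 _).1⟩ with hx
    set y : LinearMap.ker (g (ie (Fin.last s))) := ⟨g (ie (Fin.last s)) w, (d2 _).1⟩ with hy
    change X (Y ((x : W) + g (jf (Fin.last s)) (y : W))) =
      Y (X ((x : W) + g (jf (Fin.last s)) (y : W)))
    have e1 : ((X1 (Y1 x) : LinearMap.ker (g (ie (Fin.last s)))) : W) =
        ((Y1 (X1 x) : LinearMap.ker (g (ie (Fin.last s)))) : W) :=
      congrArg (fun φ : Module.End K (LinearMap.ker (g (ie (Fin.last s)))) => ((φ x :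
        LinearMap.ker (g (ie (Fin.last s)))) : W)) c1
    have e2 : ((X2 (Y2 y) : LinearMap.ker (g (ie (Fin.last s)))) : W) =
        ((Y2 (X2 y) : LinearMap.ker (g (ie (Fin.last s)))) : W) :=
      congrArg (fun φ : Module.End K (LinearMap.ker (g (ie (Fin.last s)))) => ((φ y :
        LinearMap.ker (g (ie (Fin.last s)))) : W)) c2
    rw [map_add, map_add, map_add, map_add, b2, a2, a2, b2, ← b1, ← a1, ← a1, ← b1, e1, e2]

end MP7Z.Ort
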