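import Pool.Agent.Lib.MP_7f581e_Z.Ort.SpecA

/-!
# Two frames of operators are conjugate
-/

set_option autoImplicit false

namespace MP7Z.Ort

open TensorProduct MP7fS Matrix

theorem ConjV_cases {s : ℕ} {P : Ix (s + 1) → Prop} (h : ∀ k, P (cIx k))
    (he : P (ie (Fin.last s))) (hf : P (jf (Fin.last s))) : ∀ i, P i := by
  rintro ((i | i) | i)
  · refine Fin.lastCases ?_ (fun k => ?_) i
    · exact he
    · exact h (ie k)
  · refine Fin.lastCases ?_ (fun k => ?_) i
    · exact hf
    · exact h (jf k)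
  · exact h (iw i)

/-- the base case -/
theorem ConjV_zero (hv : VacStmt) {K : Type} [Field K] {a b : K} (hab : a ^ 2 - 4 * b ≠ 0)
    {W W' : Type} [AddCommGroup W] [Module K W] [FiniteDimensional K W] [AddCommGroup W']
    [Module K W'] [FiniteDimensional K W'] (g : Ix 0 → Module.End K W)
    (g' : Ix 0 → Module.End K W') (hg : IsFrame a b g) (hg' : IsFrame a b g')
    (hW : Module.finrank K W = 2) (hW' : Module.finrank K W' = 2) :
    ∃ c : W ≃ₗ[K] W', ∀ i w, c (g i w) = g' i (c w) := by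
  obtain ⟨u, h1, h2, h3, β, h4, h5⟩ := hv K W a b g hab hg hW
  obtain ⟨u', h1', h2', h3', β', h4', h5'⟩ := hv K W' a b g' hab hg' hW'
  let c : W ≃ₗ[K] W' := β.equiv β' (Equiv.refl _)
  have hc0 : c u = u' := by
    rw [← h4, ← h4']
    exact β.equiv_apply 0 β' (Equiv.refl _)
  have hc1 : c (g (iw 1) u) = g' (iw 1) u' := by
    rw [← h5, ← h5']
    exact β.equiv_apply 1 β' (Equiv.refl _)
  refine ⟨c, fun i => ?_⟩
  have key : ∀ (A : Module.End K W) (A' : Module.End K W'), c (A u) = A' u' →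
      c (A (g (iw 1) u)) = A' (g' (iw 1) u') → ∀ w, c (A w) = A' (c w) := by
    intro A A' e1 e2 w
    have e3 : c.toLinearMap.comp A = A'.comp c.toLinearMap := by
      refine β.ext fun i => ?_
      fin_cases i
      · change c (A (β 0)) = A' (c (β 0))
        rw [h4, hc0, e1]
      · change c (A (β 1)) = A' (c (β 1))
        rw [h5, hc1, e2]
    exact LinearMap.congr_fun e3 w
  rcases i with ((i | i) | i)
  · exact i.elim0
  · exact i.elim0
  · fin_cases i
    · apply key
      · change c (g (iw 0) u) = g' (iw 0) u'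
        rw [h1, h1', hc0]
      · change c (g (iw 0) (g (iw 1) u)) = g' (iw 0) (g' (iw 1) u')
        rw [h2, h2', map_sub, map_smul, hc0, hc1]
    · apply key
      · exact hc1
      · change c (g (iw 1) (g (iw 1) u)) = g' (iw 1) (g' (iw 1) u')
        rw [h3, h3', map_smul, hc0]

/-- the map on the sum -/
theorem ConjV_glue {K : Type} [Field K] {W W' : Type} [AddCommGroup W] [Module K W]
    [AddCommGroup W'] [Module K W'] (e f : Module.End K W) (e' f' : Module.End K W')
    (ee : ∀ x, e (e x) = 0) (ff : ∀ x, f (f x) = 0) (ef : ∀ x, x = e (f x) + f (e x))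
    (ee' : ∀ x, e' (e' x) = 0) (ff' : ∀ x, f' (f' x) = 0) (ef' : ∀ x, x = e' (f' x) + f' (e' x))
    (c₁ : LinearMap.ker e ≃ₗ[K] LinearMap.ker e') :
    ∃ c : W ≃ₗ[K] W', ∀ (w : W) (x y : LinearMap.ker e), e (f w) = x → e w = y →
      c w = (c₁ x : W') + f' (c₁ y : W') := by
  have d1 : ∀ x, e x = 0 → e (f x) = x := fun x hx => by
    have h := ef x
    rw [hx, map_zero, add_zero] at h
    exact h.symm
  have d1' : ∀ x, e' x = 0 → e' (f' x) = x := fun x hx => by
    have h := ef' x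
    rw [hx, map_zero, add_zero] at h
    exact h.symm
  let E : W →ₗ[K] LinearMap.ker e := e.codRestrict (LinearMap.ker e) ee
  let E' : W' →ₗ[K] LinearMap.ker e' := e'.codRestrict (LinearMap.ker e') ee'
  have hE : ∀ w, (E w : W) = e w := fun _ => rfl
  have hE' : ∀ w, (E' w : W') = e' w := fun _ => rfl
  have hk : ∀ x : LinearMap.ker e, e (x : W) = 0 := fun x => x.2
  have hk' : ∀ x : LinearMap.ker e', e' (x : W') = 0 := fun x => x.2
  have aux : ∀ (x y : LinearMap.ker e'), E' ((x : W') + f' y) = y ∧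
      E' (f' ((x : W') + f' y)) = x := by
    intro x y
    refine ⟨Subtype.ext ?_, Subtype.ext ?_⟩
    · rw [hE', map_add, hk', zero_add, d1' _ (hk' _)]
    · rw [hE', map_add, ff', add_zero, d1' _ (hk' _)]
  have aux' : ∀ (x y : LinearMap.ker e), E ((x : W) + f y) = y ∧
      E (f ((x : W) + f y)) = x := by
    intro x y
    refine ⟨Subtype.ext ?_, Subtype.ext ?_⟩
    · rw [hE, map_add, hk, zero_add, d1 _ (hk _)]
    · rw [hE, map_add, ff, add_zero, d1 _ (hk _)]
  let c : W ≃ₗ[K] W' :=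
    { toFun := fun w => (c₁ (E (f w)) : W') + f' (c₁ (E w) : W')
      map_add' := fun v w => by
        rw [map_add, map_add, map_add, map_add, map_add, Submodule.coe_add, Submodule.coe_add,
          map_add]
        abel
      map_smul' := fun k w => by
        rw [map_smul, map_smul, map_smul, map_smul, map_smul, Submodule.coe_smul,
          Submodule.coe_smul, map_smul, RingHom.id_apply, smul_add]
      invFun := fun w => (c₁.symm (E' (f' w)) : W) + f (c₁.symm (E' w) : W)
      left_inv := fun w => by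
        have h1 := aux (c₁ (E (f w))) (c₁ (E w))
        change (c₁.symm (E' (f' ((c₁ (E (f w)) : W') + f' (c₁ (E w) : W')))) : W) +
          f (c₁.symm (E' ((c₁ (E (f w)) : W') + f' (c₁ (E w) : W'))) : W) = w
        rw [h1.1, h1.2, LinearEquiv.symm_apply_apply, LinearEquiv.symm_apply_apply]
        exact (ef w).symm
      right_inv := fun w => by
        have h1 := aux' (c₁.symm (E' (f' w))) (c₁.symm (E' w))
        change (c₁ (E (f ((c₁.symm (E' (f' w)) : W) + f (c₁.symm (E' w) : W)))) : W') +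
          f' (c₁ (E ((c₁.symm (E' (f' w)) : W) + f (c₁.symm (E' w) : W))) : W') = w
        rw [h1.1, h1.2, LinearEquiv.apply_symm_apply, LinearEquiv.apply_symm_apply]
        exact (ef' w).symm }
  refine ⟨c, fun w x y hx hy => ?_⟩
  have h1 : E (f w) = x := Subtype.ext hx
  have h2 : E w = y := Subtype.ext hy
  change (c₁ (E (f w)) : W') + f' (c₁ (E w) : W') = _
  rw [h1, h2]

theorem tConjV (hd : DecStmt) (hv : VacStmt) (hr : ResFStmt) : ConjVStmt := by
  intro K _ a b hab s
  induction s with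
  | zero =>
    intro W W' _ _ _ _ _ _ g g' hg hg' hW hW'
    exact ConjV_zero hv hab g g' hg hg' hW hW'
  | succ s ih =>
    intro W W' _ _ _ _ _ _ g g' hg hg' hW hW'
    obtain ⟨d1, d2, -, d4⟩ := hd K W _ _ (hg.ee (Fin.last s)) (hg.ff (Fin.last s))
      (hg.ef (Fin.last s))
    obtain ⟨d1', d2', -, d4'⟩ := hd K W' _ _ (hg'.ee (Fin.last s)) (hg'.ff (Fin.last s))
      (hg'.ef (Fin.last s))
    obtain ⟨g₁, hg₁, hgg⟩ := hr K W s a b g hg
    obtain ⟨g₁', hg₁', hgg'⟩ := hr K W' s a b g' hg'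
    have hk : Module.finrank K (LinearMap.ker (g (ie (Fin.last s)))) = 2 ^ (s + 1) := by
      have h1 := d4 inferInstance
      rw [hW, pow_succ] at h1
      omega
    have hk' : Module.finrank K (LinearMap.ker (g' (ie (Fin.last s)))) = 2 ^ (s + 1) := by
      have h1 := d4' inferInstance
      rw [hW', pow_succ] at h1
      omega
    obtain ⟨c₁, hc₁⟩ := ih _ _ g₁ g₁' hg₁ hg₁' hk hk'
    have ff : ∀ x, g (jf (Fin.last s)) (g (jf (Fin.last s)) x) = 0 := fun x =>
      LinearMap.congr_fun (hg.ff (Fin.last s)) x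
    have ff' : ∀ x, g' (jf (Fin.last s)) (g' (jf (Fin.last s)) x) = 0 := fun x =>
      LinearMap.congr_fun (hg'.ff (Fin.last s)) x
    have ae : ∀ k x, g (ie (Fin.last s)) (g (cIx k) x) = -(g (cIx k) (g (ie (Fin.last s)) x)) :=
      fun k x => by
        have h1 : g (cIx k) (g (ie (Fin.last s)) x) = -(g (ie (Fin.last s)) (g (cIx k) x)) :=
          LinearMap.congr_fun (hg.anti_e' k) x
        rw [h1, neg_neg]
    have af : ∀ k x, g (jf (Fin.last s)) (g (cIx k) x) = -(g (cIx k) (g (jf (Fin.last s)) x)) :=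
      fun k x => by
        have h1 : g (cIx k) (g (jf (Fin.last s)) x) = -(g (jf (Fin.last s)) (g (cIx k) x)) :=
          LinearMap.congr_fun (hg.anti_f' k) x
        rw [h1, neg_neg]
    have af' : ∀ k x, g' (jf (Fin.last s)) (g' (cIx k) x) =
        -(g' (cIx k) (g' (jf (Fin.last s)) x)) := fun k x => by
      have h1 : g' (cIx k) (g' (jf (Fin.last s)) x) = -(g' (jf (Fin.last s)) (g' (cIx k) x)) :=
        LinearMap.congr_fun (hg'.anti_f' k) x
      rw [h1, neg_neg]
    obtain ⟨c, hc⟩ := ConjV_glue _ _ _ _ (fun w => (d2 w).1) ff (fun w => (d2 w).2)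
      (fun w => (d2' w).1) ff' (fun w => (d2' w).2) c₁
    refine ⟨c, ConjV_cases (fun k w => ?_) (fun w => ?_) (fun w => ?_)⟩
    · obtain ⟨x, hx⟩ : ∃ x : LinearMap.ker (g (ie (Fin.last s))),
        g (ie (Fin.last s)) (g (jf (Fin.last s)) w) = x := ⟨⟨_, (d2 _).1⟩, rfl⟩
      obtain ⟨y, hy⟩ : ∃ y : LinearMap.ker (g (ie (Fin.last s))),
        g (ie (Fin.last s)) w = y := ⟨⟨_, (d2 _).1⟩, rfl⟩
      have h1 : g (ie (Fin.last s)) (g (jf (Fin.last s)) (g (cIx k) w)) = (g₁ k x :
          LinearMap.ker (g (ie (Fin.last s)))) := by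
        rw [af, map_neg, ae, neg_neg, hx, hgg]
      have h2 : g (ie (Fin.last s)) (g (cIx k) w) = ((-(g₁ k y) :
          LinearMap.ker (g (ie (Fin.last s)))) : W) := by
        rw [ae, hy, Submodule.coe_neg, hgg]
      rw [hc _ _ _ h1 h2, hc _ _ _ hx hy, map_neg, hc₁, hc₁, Submodule.coe_neg, map_neg, hgg',
        hgg', af', neg_neg, map_add]
    · obtain ⟨y, hy⟩ : ∃ y : LinearMap.ker (g (ie (Fin.last s))),
        g (ie (Fin.last s)) w = y := ⟨⟨_, (d2 _).1⟩, rfl⟩
      obtain ⟨x, hx⟩ : ∃ x : LinearMap.ker (g (ie (Fin.last s))),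
        g (ie (Fin.last s)) (g (jf (Fin.last s)) w) = x := ⟨⟨_, (d2 _).1⟩, rfl⟩
      have h1 : g (ie (Fin.last s)) (g (jf (Fin.last s)) (g (ie (Fin.last s)) w)) = y := by
        rw [d1 _ (d2 w).1, hy]
      have h2 : g (ie (Fin.last s)) (g (ie (Fin.last s)) w) = ((0 :
          LinearMap.ker (g (ie (Fin.last s)))) : W) := (d2 w).1
      have h3 : g' (ie (Fin.last s)) (c₁ x : W') = 0 := (c₁ x).2
      have h4 : g' (ie (Fin.last s)) (c₁ y : W') = 0 := (c₁ y).2
      rw [hc _ _ _ h1 h2, hc _ _ _ hx hy, map_zero, Submodule.coe_zero, map_zero, add_zero,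
        map_add, h3, zero_add, d1' _ h4]
    · obtain ⟨y, hy⟩ : ∃ y : LinearMap.ker (g (ie (Fin.last s))),
        g (ie (Fin.last s)) w = y := ⟨⟨_, (d2 _).1⟩, rfl⟩
      obtain ⟨x, hx⟩ : ∃ x : LinearMap.ker (g (ie (Fin.last s))),
        g (ie (Fin.last s)) (g (jf (Fin.last s)) w) = x := ⟨⟨_, (d2 _).1⟩, rfl⟩
      have h1 : g (ie (Fin.last s)) (g (jf (Fin.last s)) (g (jf (Fin.last s)) w)) = ((0 :
          LinearMap.ker (g (ie (Fin.last s)))) : W) := by
        rw [ff, map_zero]
        rfl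
      rw [hc _ _ _ h1 hx, hc _ _ _ hx hy, map_zero, Submodule.coe_zero, zero_add, map_add, ff',
        add_zero]

end MP7Z.Ort
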