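import Pool.Agent.Lib.MP_7f581e_Z.Ort.SpecA

/-!
# Descent of the space of vectors
-/

set_option autoImplicit false

namespace MP7Z.Ort

open TensorProduct MP7fS Matrix

theorem tDes : DesStmt := by
  intro p _ k _ _ _ l _ _ s m a b g P o hg hm hL hgφ u hu y hy
  have hS := mem_SG.1 hu
  set φ := iterateFrobenius k p m with hφ
  have hyM : (y : Matrix l l k).map φ = (u : Matrix l l k) * (y : Matrix l l k) :=
    congrArg (fun v : GL l k => (v : Matrix l l k)) hy
  have hyI : ((y⁻¹ : GL l k) : Matrix l l k).map φ =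
      ((y⁻¹ : GL l k) : Matrix l l k) * ((u⁻¹ : GL l k) : Matrix l l k) := by
    have h1 : GeneralLinearGroup.map φ y⁻¹ = y⁻¹ * u⁻¹ := by
      rw [map_inv, hy, _root_.mul_inv_rev]
    exact congrArg (fun v : GL l k => (v : Matrix l l k)) h1
  -- the matrix of the conjugation by `u`
  choose A hA using fun i : Ix s => hS.2.2.2.1 (bv k i)
  choose A' hA' using fun i : Ix s => hS.2.2.1 (bv k i)
  have hAi : ∀ i, ((u⁻¹ : GL l k) : Matrix l l k) * g i * (u : Matrix l l k) = gv g (A i) := by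
    intro i
    have h1 := hA i
    rw [gv_bv] at h1
    rw [Matrix.mul_assoc, h1, ← Matrix.mul_assoc, Units.inv_mul, Matrix.one_mul]
  have hconj : ∀ v : Ix s → k, ((u⁻¹ : GL l k) : Matrix l l k) * gv g v * (u : Matrix l l k) =
      gv g (v ᵥ* (Matrix.of A)) := by
    intro v
    have h1 : v ᵥ* (Matrix.of A) = ∑ i, v i • A i := by
      funext j
      rw [Matrix.vecMul, dotProduct, Finset.sum_apply]
      rfl
    rw [h1, gv_sum, gv, Finset.mul_sum, Finset.sum_mul]
    refine Finset.sum_congr rfl fun i _ => ?_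
    rw [gv_smul, ← hAi, Matrix.mul_smul, Matrix.smul_mul]
  have hA'A : Matrix.of A' * Matrix.of A = 1 := by
    ext i j
    have h1 : gv g (A' i ᵥ* Matrix.of A) = gv g (bv k i) := by
      rw [← hconj, Matrix.mul_assoc, ← Matrix.mul_assoc]
      have h2 := hA' i
      rw [Matrix.mul_assoc, ← h2, ← Matrix.mul_assoc, Units.inv_mul, Matrix.one_mul]
    have h2 := congrFun (hg.gv_inj h1) j
    rw [bv_apply] at h2
    rw [Matrix.one_apply]
    change (A' i ᵥ* Matrix.of A) j = _
    rw [h2]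
    exact if_congr eq_comm rfl rfl
  have hAA' : Matrix.of A * Matrix.of A' = 1 := mul_eq_one_comm.1 hA'A
  let AT : GL (Ix s) k := ⟨(Matrix.of A')ᵀ, (Matrix.of A)ᵀ, by
    rw [← Matrix.transpose_mul, hAA', Matrix.transpose_one], by
    rw [← Matrix.transpose_mul, hA'A, Matrix.transpose_one]⟩
  obtain ⟨Y, -, hY⟩ := hL k m hm AT (Subgroup.mem_top _)
  have hYM : (Y : Matrix (Ix s) (Ix s) k).map φ = (Matrix.of A')ᵀ * (Y : Matrix _ _ k) :=
    congrArg (fun v : GL (Ix s) k => (v : Matrix (Ix s) (Ix s) k)) hY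
  let S : GL (Ix s) k := ⟨(Y : Matrix (Ix s) (Ix s) k)ᵀ,
    ((Y⁻¹ : GL (Ix s) k) : Matrix (Ix s) (Ix s) k)ᵀ, by
    rw [← Matrix.transpose_mul, Units.inv_mul, Matrix.transpose_one], by
    rw [← Matrix.transpose_mul, Units.mul_inv, Matrix.transpose_one]⟩
  have hSv : (S : Matrix (Ix s) (Ix s) k) = (Y : Matrix (Ix s) (Ix s) k)ᵀ := rfl
  have hSφ : (S : Matrix (Ix s) (Ix s) k).map φ * Matrix.of A = (S : Matrix (Ix s) (Ix s) k) := by
    rw [hSv, Matrix.transpose_map, hYM, Matrix.transpose_mul, Matrix.transpose_transpose,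
      Matrix.mul_assoc, hA'A, Matrix.mul_one]
  refine ⟨S, fun i => ⟨((y⁻¹ : GL l k) : Matrix l l k) *
    gv g (fun j => (S : Matrix (Ix s) (Ix s) k) i j) * (y : Matrix l l k), ?_, ?_⟩⟩
  · rw [Matrix.map_mul, Matrix.map_mul, hyM, hyI, ← gv_mat]
    have h1 : (fun i => (g i).map φ) = g := funext hgφ
    rw [h1]
    have h2 := hconj (fun j => φ ((S : Matrix (Ix s) (Ix s) k) i j))
    have h3 : (fun j => φ ((S : Matrix (Ix s) (Ix s) k) i j)) ᵥ* Matrix.of A =
        fun j => (S : Matrix (Ix s) (Ix s) k) i j := by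
      funext j
      have h4 := congrFun (congrFun hSφ i) j
      exact h4
    rw [h3] at h2
    rw [← h2]
    simp only [Matrix.mul_assoc]
  · rw [← Matrix.mul_assoc, ← Matrix.mul_assoc, Units.mul_inv, Matrix.one_mul]

end MP7Z.Ort
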