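import Pool.Agent.Lib.MP_7f581e_Z.Ort.SpecA

/-!
# Orthogonal groups: existence of frames of operators
-/

set_option autoImplicit false
set_option linter.unusedSectionVars false

namespace MP7Z.Ort

open MP7fS Matrix

section

variable {K : Type} [Field K]

private noncomputable def ExV_w0 (a : K) : Module.End K (K × K) :=
  (LinearMap.fst K K K + a • LinearMap.snd K K K).prod (-LinearMap.snd K K K)

private noncomputable def ExV_w1 (b : K) : Module.End K (K × K) :=
  (b • LinearMap.snd K K K).prod (LinearMap.fst K K K)

private noncomputable def ExV_P {W : Type} [AddCommGroup W] [Module K W] (x : Module.End K W) :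
    Module.End K (W × W) := x.prodMap (-x)

private noncomputable def ExV_E (K W : Type) [Field K] [AddCommGroup W] [Module K W] :
    Module.End K (W × W) := (LinearMap.snd K W W).prod 0

private noncomputable def ExV_F (K W : Type) [Field K] [AddCommGroup W] [Module K W] :
    Module.End K (W × W) := (0 : W × W →ₗ[K] W).prod (LinearMap.fst K W W)

private theorem ExV_E_ap {W : Type} [AddCommGroup W] [Module K W] (x y : W) :
    ExV_E K W (x, y) = (y, 0) := rfl

private theorem ExV_F_ap {W : Type} [AddCommGroup W] [Module K W] (x y : W) :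
    ExV_F K W (x, y) = (0, x) := rfl

private theorem ExV_P_ap {W : Type} [AddCommGroup W] [Module K W] (z : Module.End K W) (x y : W) :
    ExV_P z (x, y) = (z x, -(z y)) := rfl

private noncomputable def ExV_g {W : Type} [AddCommGroup W] [Module K W] {s : ℕ}
    (g' : Ix s → Module.End K W) : Ix (s + 1) → Module.End K (W × W) :=
  Sum.elim (Sum.elim
    (Fin.lastCases (ExV_E K W) (fun i => ExV_P (g' (ie i))))
    (Fin.lastCases (ExV_F K W) (fun i => ExV_P (g' (jf i)))))
    (fun j => ExV_P (g' (iw j)))

private theorem ExV_comp {W : Type} [AddCommGroup W] [Module K W] {s : ℕ}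
    (g' : Ix s → Module.End K W) : ExV_g g' ∘ cIx = fun i => ExV_P (g' i) := by
  funext i
  rcases i with ((i | i) | i)
  · simp [ExV_g, cIx]
  · simp [ExV_g, cIx]
  · simp [ExV_g, cIx]

private theorem ExV_e {W : Type} [AddCommGroup W] [Module K W] {s : ℕ}
    (g' : Ix s → Module.End K W) : ExV_g g' (ie (Fin.last s)) = ExV_E K W := by
  simp [ExV_g]

private theorem ExV_f {W : Type} [AddCommGroup W] [Module K W] {s : ℕ}
    (g' : Ix s → Module.End K W) : ExV_g g' (jf (Fin.last s)) = ExV_F K W := by
  simp [ExV_g]

private theorem ExV_gv {W : Type} [AddCommGroup W] [Module K W] {s : ℕ}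
    (g' : Ix s → Module.End K W) (v : Ix s → K) :
    gv (fun i => ExV_P (g' i)) v = ExV_P (gv g' v) := by
  apply LinearMap.ext
  rintro ⟨x, y⟩
  simp only [gv, ExV_P, LinearMap.sum_apply, LinearMap.smul_apply, LinearMap.prodMap_apply,
    LinearMap.neg_apply]
  apply Prod.ext
  · rw [Prod.fst_sum]
    rfl
  · rw [Prod.snd_sum]
    simp only [Prod.smul_mk, smul_neg, Finset.sum_neg_distrib]

end

theorem tExV : ExVStmt := by
  intro K _ a b s
  induction s with
  | zero =>
    refine ⟨K × K, inferInstance, inferInstance, inferInstance,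
      Sum.elim (Sum.elim Fin.elim0 Fin.elim0) ![ExV_w0 a, ExV_w1 b], ?_, ?_⟩
    · apply IsFrame.of_sq
      intro v
      have hv : gv (Sum.elim (Sum.elim Fin.elim0 Fin.elim0) ![ExV_w0 a, ExV_w1 b] :
          Ix 0 → Module.End K (K × K)) v = v (iw 0) • ExV_w0 a + v (iw 1) • ExV_w1 b := by
        rw [gv, Fintype.sum_sum_type, Fin.sum_univ_two]
        simp
      have hq : qf a b v = v (iw 0) ^ 2 + a * v (iw 0) * v (iw 1) + b * v (iw 1) ^ 2 := by
        rw [qf]
        simp
      rw [hv, hq]
      apply LinearMap.ext
      rintro ⟨x, y⟩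
      apply Prod.ext
      · simp [ExV_w0, ExV_w1]
        ring
      · simp [ExV_w0, ExV_w1]
        ring
    · rw [Module.finrank_prod, Module.finrank_self]
      norm_num
  | succ s ih =>
    obtain ⟨W, i1, i2, i3, g', hg, hd⟩ := ih
    refine ⟨W × W, inferInstance, inferInstance, inferInstance, ExV_g g', ?_, ?_⟩
    · apply IsFrame.of_sq
      intro v
      have hsq : ∀ x : W, gv g' (v ∘ cIx) (gv g' (v ∘ cIx) x) = qf a b (v ∘ cIx) • x := by
        intro x
        have h1 := hg.gv_sq (v ∘ cIx)
        have h2 := congrArg (fun φ : Module.End K W => φ x) h1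
        exact h2
      rw [gv_succ, ExV_comp, ExV_gv, ExV_e, ExV_f, qf_succ]
      apply LinearMap.ext
      rintro ⟨x, y⟩
      set G := gv g' (v ∘ cIx) with hG
      have h1 : (ExV_P G + (v (ie (Fin.last s)) • ExV_E K W + v (jf (Fin.last s)) • ExV_F K W) :
          Module.End K (W × W)) (x, y) =
          (G x + v (ie (Fin.last s)) • y, -(G y) + v (jf (Fin.last s)) • x) := by
        rw [LinearMap.add_apply, LinearMap.add_apply, LinearMap.smul_apply, LinearMap.smul_apply,
          ExV_P_ap, ExV_E_ap, ExV_F_ap]
        simp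
      have h2 : ∀ x y : W,
          (ExV_P G + (v (ie (Fin.last s)) • ExV_E K W + v (jf (Fin.last s)) • ExV_F K W) :
          Module.End K (W × W)) (x, y) =
          (G x + v (ie (Fin.last s)) • y, -(G y) + v (jf (Fin.last s)) • x) := by
        intro x y
        rw [LinearMap.add_apply, LinearMap.add_apply, LinearMap.smul_apply, LinearMap.smul_apply,
          ExV_P_ap, ExV_E_ap, ExV_F_ap]
        simp
      rw [Module.End.mul_apply, h1, h2, map_add, map_add, map_neg, map_smul, map_smul, hsq, hsq,
        LinearMap.smul_apply, Module.End.one_apply, Prod.smul_mk]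
      apply Prod.ext
      · change qf a b (v ∘ cIx) • x + v (ie (Fin.last s)) • G y +
          v (ie (Fin.last s)) • (-(G y) + v (jf (Fin.last s)) • x) =
          (qf a b (v ∘ cIx) + v (ie (Fin.last s)) * v (jf (Fin.last s))) • x
        rw [smul_add, smul_neg, smul_smul, add_smul]
        abel
      · change -(-(qf a b (v ∘ cIx) • y) + v (jf (Fin.last s)) • G x) +
          v (jf (Fin.last s)) • (G x + v (ie (Fin.last s)) • y) =
          (qf a b (v ∘ cIx) + v (ie (Fin.last s)) * v (jf (Fin.last s))) • y
        rw [smul_add, smul_smul, add_smul, mul_comm (v (jf (Fin.last s)))]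
        abel
    · rw [Module.finrank_prod, hd]
      ring

end MP7Z.Ort
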