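import Pool.Agent.Lib.MP_7f581e_Z.Ort.SpecA

/-!
# Existence of data
-/

set_option autoImplicit false

namespace MP7Z.Ort

open TensorProduct MP7fS Matrix

theorem tExi (h1 : TrfStmt) : ExiStmt := by
  intro F _ s a b o hd ho
  obtain ⟨g, hg⟩ := h1.2 F a b s
  have hcard : Fintype.card (Lx s) = 2 ^ (s + 1) := Fintype.card_fin _
  have hgT : IsFrame a b (fun i => (g i)ᵀ) := by
    refine ⟨fun i => ?_, fun i j hij => ?_⟩
    · rw [← Matrix.transpose_mul, hg.sq, Matrix.transpose_smul, Matrix.transpose_one]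
    · rw [← Matrix.transpose_mul, ← Matrix.transpose_mul, ← Matrix.transpose_add, add_comm,
        hg.anti i j hij, Matrix.transpose_smul, Matrix.transpose_one]
  obtain ⟨c, hc⟩ := (h1.1 F (Lx s) a b s (fun i => (g i)ᵀ) hd hcard hgT).1 g hg
  refine ⟨⟨a, b, o, g, c, ⟨hcard, IsUnit.mk0 _ hd, hg, fun i => ?_, fun h => ?_⟩⟩, rfl, rfl,
    Iff.rfl⟩
  · rw [rv, hc, Matrix.mul_assoc, Units.mul_inv, Matrix.mul_one]
  · exact ⟨(ho h).1, IsUnit.mk0 _ (ho h).2⟩

end MP7Z.Ort
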