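import Pool.Agent.Lib.MP_7f581e_Z.Ort.SpecA

/-!
# Extension of a semilinear similitude to the Clifford algebra
-/

set_option autoImplicit false

namespace MP7Z.Ort

open TensorProduct MP7fS Matrix

/-- a multiple of the two-dimensional form -/
def Ext_q {F : Type} [Field F] (a b μ : F) : QuadraticForm F (Ix 0 → F) :=
  QuadraticMap.ofPolar (fun v => μ * qf a b v)
    (fun c v => by
      change μ * qf a b (c • v) = c * c * (μ * qf a b v)
      rw [qf_smul]
      ring)
    (fun x x' y => by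
      simp only [QuadraticMap.polar, qf_add, bf_add_left]
      ring)
    (fun c x y => by
      simp only [QuadraticMap.polar, qf_add, bf_smul_left, qf_smul, smul_eq_mul]
      ring)

theorem Ext_norm (che : CheStmt) {F : Type} [Field F] [Finite F] {a b : F}
    (hd : a ^ 2 - 4 * b ≠ 0) {μ : F} (hμ : μ ≠ 0) :
    ∃ κ m : F, κ ^ 2 + a * κ * m + b * m ^ 2 = μ⁻¹ := by
  have hpol : ∀ x y, QuadraticMap.polar (Ext_q a b μ) x y = μ * bf a b x y := by
    intro x y
    change μ * qf a b (x + y) - μ * qf a b x - μ * qf a b y = μ * bf a b x y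
    rw [qf_add]
    ring
  have hdim : 2 ≤ Module.finrank F (Ix 0 → F) := by
    rw [Module.finrank_fintype_fun_eq_card]
    rfl
  obtain ⟨x, hx⟩ := (che F (Ix 0 → F) (Ext_q a b μ)).2 hdim (fun x hx => by
    refine nondeg (IsUnit.mk0 _ hd) fun w => ?_
    have h1 := hx w
    rw [hpol] at h1
    exact (mul_eq_zero.1 h1).resolve_left hμ)
  refine ⟨x (iw 0), x (iw 1), ?_⟩
  have h1 : μ * qf a b x = 1 := hx
  have h2 : qf a b x = x (iw 0) ^ 2 + a * x (iw 0) * x (iw 1) + b * x (iw 1) ^ 2 := by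
    rw [qf, Finset.univ_eq_empty, Finset.sum_empty, zero_add]
  rw [h2] at h1
  exact eq_inv_of_mul_eq_one_right h1

/-- Extension to all vectors. -/
theorem Ext_G {F : Type} [Field F] {s : ℕ} (D : Dat F s) {σ : F ≃+* F} {μ : F}
    {g : (Ix s → F) → (Ix s → F)} (hg : D.IsSemi σ μ g) :
    ∃ G : (Ix s → F) → (Ix s → F), (∀ v w, G (v + w) = G v + G w) ∧
      (∀ (c : F) v, G (c • v) = σ c • G v) ∧
      (∀ v, qf D.a D.b (G v) = μ * σ (qf D.a D.b v)) ∧ (∀ v ∈ D.V, G v = g v) ∧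
      (D.o → G (bv F (iw 0)) = bv F (iw 0)) := by
  by_cases ho : D.o
  · obtain ⟨ha, -⟩ := D.good.odd ho
    have hμ := hg.odd ho
    have hmem : ∀ v : Ix s → F, v - v (iw 0) • bv F (iw 0) ∈ D.V := by
      intro v _
      rw [Pi.sub_apply, Pi.smul_apply, bv_apply, if_pos rfl, smul_eq_mul, mul_one, sub_self]
    have hQ : ∀ u ∈ D.V, ∀ c : F, qf D.a D.b (u + c • bv F (iw 0)) = qf D.a D.b u + c ^ 2 := by
      intro u hu c
      rw [qf_add, qf_smul, qf_w0, bf_smul_right, bf_w0, hu ho, ha, mul_zero, zero_mul, add_zero,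
        mul_zero, add_zero, mul_one]
    have g0 : g 0 = 0 := by
      have h1 := hg.smul 0 0 (Submodule.zero_mem _)
      rw [zero_smul, map_zero, zero_smul] at h1
      exact h1
    refine ⟨fun v => g (v - v (iw 0) • bv F (iw 0)) + σ (v (iw 0)) • bv F (iw 0),
      fun v w => ?_, fun c v => ?_, fun v => ?_, fun v hv => ?_, fun _ => ?_⟩
    · change g (v + w - (v (iw 0) + w (iw 0)) • bv F (iw 0)) +
        σ (v (iw 0) + w (iw 0)) • bv F (iw 0) =
        (g (v - v (iw 0) • bv F (iw 0)) + σ (v (iw 0)) • bv F (iw 0)) +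
        (g (w - w (iw 0) • bv F (iw 0)) + σ (w (iw 0)) • bv F (iw 0))
      have h1 : v + w - (v (iw 0) + w (iw 0)) • bv F (iw 0) =
          (v - v (iw 0) • bv F (iw 0)) + (w - w (iw 0) • bv F (iw 0)) := by
        rw [add_smul]
        abel
      rw [h1, hg.add _ (hmem v) _ (hmem w), map_add, add_smul]
      abel
    · change g (c • v - (c * v (iw 0)) • bv F (iw 0)) + σ (c * v (iw 0)) • bv F (iw 0) =
        σ c • (g (v - v (iw 0) • bv F (iw 0)) + σ (v (iw 0)) • bv F (iw 0))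
      have h1 : c • v - (c * v (iw 0)) • bv F (iw 0) = c • (v - v (iw 0) • bv F (iw 0)) := by
        rw [smul_sub, smul_smul]
      rw [h1, hg.smul c _ (hmem v), map_mul, smul_add, smul_smul]
    · have h1 := hg.qf _ (hmem v)
      change qf D.a D.b (g (v - v (iw 0) • bv F (iw 0))) =
        μ * σ (qf D.a D.b (v - v (iw 0) • bv F (iw 0))) at h1
      change qf D.a D.b (g (v - v (iw 0) • bv F (iw 0)) + σ (v (iw 0)) • bv F (iw 0)) =
        μ * σ (qf D.a D.b v)
      rw [hQ _ (hg.mem _ (hmem v)), h1, hμ, one_mul, one_mul, ← map_pow, ← map_add,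
        ← hQ _ (hmem v), sub_add_cancel]
    · change g (v - v (iw 0) • bv F (iw 0)) + σ (v (iw 0)) • bv F (iw 0) = g v
      rw [hv ho, zero_smul, sub_zero, map_zero, zero_smul, add_zero]
    · change g (bv F (iw 0) - bv F (iw 0 : Ix s) (iw 0) • bv F (iw 0)) +
        σ (bv F (iw 0 : Ix s) (iw 0)) • bv F (iw 0) = bv F (iw 0)
      rw [bv_apply, if_pos rfl, one_smul, sub_self, g0, map_one, one_smul, zero_add]
  · have hall : ∀ v : Ix s → F, v ∈ D.V := fun v h => absurd h ho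
    exact ⟨g, fun v w => hg.add v (hall v) w (hall w), fun c v => hg.smul c v (hall v),
      fun v => hg.qf v (hall v), fun _ _ => rfl, fun h => absurd h ho⟩

theorem tExt (che : CheStmt) (trf : TrfStmt) : ExtStmt := by
  intro F _ _ s D σ μ g hg
  have hF := D.good.frame
  have hd : D.a ^ 2 - 4 * D.b ≠ 0 := D.good.disc.ne_zero
  obtain ⟨κ, m, hN, hκo⟩ : ∃ κ m : F, κ ^ 2 + D.a * κ * m + D.b * m ^ 2 = μ⁻¹ ∧
      (D.o → κ = 1 ∧ m = 0) := by
    by_cases ho : D.o
    · refine ⟨1, 0, ?_, fun _ => ⟨rfl, rfl⟩⟩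
      rw [hg.odd ho]
      ring
    · obtain ⟨κ, m, h⟩ := Ext_norm che hd hg.ne
      exact ⟨κ, m, h, fun h' => absurd h' ho⟩
  obtain ⟨G, Gadd, Gsmul, Gq, GV, Gw⟩ := Ext_G D hg
  set ζ := D.z with hζ
  set c : Matrix (Lx s) (Lx s) F := κ • 1 + m • ζ with hc
  set cb : Matrix (Lx s) (Lx s) F := κ • 1 + m • (D.a • 1 - ζ) with hcb
  have hcγ : ∀ v, c * D.γ v = D.γ v * cb := by
    intro v
    have h1 : ζ * D.γ v = D.γ v * (D.a • 1 - ζ) := hF.zt_gv s D.g v
    rw [hc, hcb, Matrix.add_mul, Matrix.mul_add, Matrix.smul_mul, Matrix.smul_mul, h1,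
      Matrix.mul_smul, Matrix.mul_smul, Matrix.one_mul, Matrix.mul_one]
  have hcc : cb * c = μ⁻¹ • 1 := by
    have h1 : ζ * ζ = D.a • ζ - D.b • 1 := IsFrame.zt_sq s D.g hF
    have h2 : (D.a • 1 - ζ) * ζ = D.b • (1 : Matrix (Lx s) (Lx s) F) := by
      rw [Matrix.sub_mul, Matrix.smul_mul, Matrix.one_mul, h1]
      abel
    rw [← hN, hc, hcb, Matrix.add_mul, Matrix.smul_mul, Matrix.one_mul, Matrix.mul_add,
      Matrix.mul_smul, Matrix.mul_one, Matrix.mul_smul, Matrix.smul_mul, h2]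
    simp only [smul_add, smul_sub, smul_smul, add_smul]
    have e1 : κ * (m * D.a) = D.a * κ * m := by ring
    have e2 : m * (m * D.b) = D.b * m ^ 2 := by ring
    have e3 : κ * κ = κ ^ 2 := by ring
    rw [e1, e2, e3]
    abel
  let x : Ix s → Matrix (Lx s) (Lx s) F := fun i => D.γ (G (bv F i)) * c
  have hGs : ∀ v : Ix s → F, G v = ∑ i, σ (v i) • G (bv F i) := by
    intro v
    have G0 : G 0 = 0 := by
      have h1 := Gsmul 0 0
      rw [zero_smul, map_zero, zero_smul] at h1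
      exact h1
    let Ga : (Ix s → F) →+ (Ix s → F) := ⟨⟨G, G0⟩, Gadd⟩
    have h1 : G v = Ga (∑ i, v i • bv F i) := by
      rw [sum_bv]
      rfl
    rw [h1, map_sum]
    exact Finset.sum_congr rfl fun i _ => Gsmul _ _
  have hx : ∀ v : Ix s → F, gv x (fun i => σ (v i)) = D.γ (G v) * c := by
    intro v
    rw [hGs v]
    change ∑ i, σ (v i) • (gv D.g (G (bv F i)) * c) = gv D.g (∑ i, σ (v i) • G (bv F i)) * c
    rw [gv_sum, Finset.sum_mul]
    refine Finset.sum_congr rfl fun i _ => ?_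
    rw [gv_smul, Matrix.smul_mul]
  have hxf : IsFrame (σ D.a) (σ D.b) x := by
    apply IsFrame.of_sq
    intro v
    obtain ⟨w, rfl⟩ : ∃ w : Ix s → F, v = fun i => σ (w i) :=
      ⟨fun i => σ.symm (v i), funext fun i => (σ.apply_symm_apply _).symm⟩
    rw [hx]
    have h1 : qf (σ D.a) (σ D.b) (fun i => σ (w i)) = σ (qf D.a D.b w) :=
      qf_map (σ : F →+* F) D.a D.b w
    rw [h1]
    calc D.γ (G w) * c * (D.γ (G w) * c) = D.γ (G w) * (c * D.γ (G w)) * c := by
          simp only [Matrix.mul_assoc]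
      _ = D.γ (G w) * D.γ (G w) * (cb * c) := by
        rw [hcγ]
        simp only [Matrix.mul_assoc]
      _ = σ (qf D.a D.b w) • 1 := by
        have h2 : D.γ (G w) * D.γ (G w) = qf D.a D.b (G w) • 1 := hF.gv_sq _
        rw [hcc, h2, Gq, Matrix.smul_mul, Matrix.one_mul, smul_smul]
        congr 1
        have := hg.ne
        field_simp
  have hgm := D.good.map (σ : F →+* F)
  obtain ⟨t, ht⟩ := (trf.1 F (Lx s) (σ D.a) (σ D.b) s (fun i => (D.g i).map (σ : F →+* F))
    hgm.disc.ne_zero D.good.card hgm.frame).1 x hxf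
  have htv : ∀ v : Ix s → F, (t : Matrix (Lx s) (Lx s) F) * (D.γ v).map σ =
      D.γ (G v) * c * (t : Matrix (Lx s) (Lx s) F) := by
    intro v
    have h1 : (D.γ v).map σ = gv (fun i => (D.g i).map (σ : F →+* F)) (fun i => σ (v i)) :=
      (gv_mat (σ : F →+* F) D.g v).symm
    rw [h1, ← hx]
    change _ * (∑ i, σ (v i) • (D.g i).map (σ : F →+* F)) = (∑ i, σ (v i) • x i) * _
    rw [Finset.mul_sum, Finset.sum_mul]
    refine Finset.sum_congr rfl fun i _ => ?_
    rw [Matrix.mul_smul, Matrix.smul_mul, ht]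
  refine ⟨t, κ, m, hN, hκo, fun v hv => ?_, fun ho => ?_⟩
  · rw [htv, GV v hv]
  · have h1 := htv (bv F (iw 0))
    obtain ⟨h2, h3⟩ := hκo ho
    rw [Gw ho, hc, h2, h3, zero_smul, add_zero, one_smul, Matrix.mul_one] at h1
    change _ * (gv D.g (bv F (iw 0))).map σ = gv D.g (bv F (iw 0)) * _ at h1
    rw [gv_bv] at h1
    exact h1

end MP7Z.Ort
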