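import Pool.Agent.Lib.MP_7f581e_Z.Ort.Tra

/-!
# Transitivity on hyperbolic families
-/

set_option autoImplicit false
set_option linter.unusedSectionVars false

namespace MP7Z.Ort

open TensorProduct MP7fS Matrix

theorem tFrT (act : ActStmt) (g1c : G1cStmt) (tra : TraStmt) : FrTStmt := by
  intro K _ l _ _ a b s g P o hg x y hx hy hqx hqy hxx hyy hxy
  have hne := hg.nonempty
  have key : ∀ n : ℕ, n ≤ s → ∃ h ∈ SG a g P o, ∀ i : Fin s, s - n ≤ i.val → ∃ c : K, c ≠ 0 ∧
      (h : Matrix l l K) * gv g (x i) = gv g (c • bv K (ie i)) * (h : Matrix l l K) ∧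
      (h : Matrix l l K) * gv g (y i) = gv g (c⁻¹ • bv K (jf i)) * (h : Matrix l l K) := by
    intro n
    induction n with
    | zero =>
      intro _
      exact ⟨1, one_mem _, fun i hi => by have := i.2; omega⟩
    | succ n ih =>
      intro hn
      obtain ⟨h, hh, hc⟩ := ih (by omega)
      let j : Fin s := ⟨s - (n + 1), by omega⟩
      have hj1 : j.val + 1 = s - n := by
        change s - (n + 1) + 1 = s - n
        omega
      have hS := mem_SG.1 hh
      obtain ⟨x', hx'⟩ := hS.2.2.1 (x j)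
      obtain ⟨y', hy'⟩ := hS.2.2.1 (y j)
      -- membership
      have hmem : ∀ (v v' : Ix s → K), v ∈ Vo o s K →
          (h : Matrix l l K) * gv g v = gv g v' * (h : Matrix l l K) →
          (∀ i : Fin s, j.val + 1 ≤ i.val → bf a b v (x i) = 0 ∧ bf a b v (y i) = 0) →
          v' ∈ Vk o s K (j.val + 1) := by
        intro v v' hv h1 h2
        refine (act K l a b s g P o hg).2.1 _ v' (fun i hi => ?_) fun ho => ?_
        · obtain ⟨c, hc0, h3, h4⟩ := hc i (by omega)
          obtain ⟨h5, h6⟩ := h2 i hi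
          have e1 := Tra_B hg h1 h3
          have e2 := Tra_B hg h1 h4
          rw [h5, bf_smul_right] at e1
          rw [h6, bf_smul_right] at e2
          have f1 := (mul_eq_zero.1 e1).resolve_left hc0
          have f2 := (mul_eq_zero.1 e2).resolve_left (inv_ne_zero hc0)
          constructor
          · have h7 := hg.frame.gv_anti v' (bv K (ie i))
            rw [f1, zero_smul, gv_bv] at h7
            exact eq_neg_of_add_eq_zero_left h7
          · have h7 := hg.frame.gv_anti v' (bv K (jf i))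
            rw [f2, zero_smul, gv_bv] at h7
            exact eq_neg_of_add_eq_zero_left h7
        · exact Tra_anti h1 (hS.2.2.2.2 ho) (Tra_w0 hg ho (hv ho))
      have hji : ∀ i : Fin s, j.val + 1 ≤ i.val → j ≠ i := by
        intro i hi h
        rw [h] at hi
        omega
      have hxm : x' ∈ Vk o s K (j.val + 1) := hmem _ _ (hx j) hx' fun i hi => by
        refine ⟨hxx j i (hji i hi), ?_⟩
        rw [hxy, if_neg (hji i hi)]
      have hym : y' ∈ Vk o s K (j.val + 1) := hmem _ _ (hy j) hy' fun i hi => by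
        refine ⟨?_, hyy j i (hji i hi)⟩
        rw [bf_comm, hxy, if_neg (hji i hi).symm]
      obtain ⟨u, hu, c, hc0, h1, h2⟩ := tra K l a b s g P o hg j x' hxm y' hym
        (by rw [Tra_Q hg hx', hqx]) (by rw [Tra_Q hg hy', hqy])
        (by rw [Tra_B hg hx' hy', hxy, if_pos rfl])
      refine ⟨u * h, mul_mem ((g1c K l a b s g P o hg j).1 hu) hh, fun i hi => ?_⟩
      rcases eq_or_ne i j with rfl | hij
      · refine ⟨c, hc0, Tra_comp hx' ?_, Tra_comp hy' ?_⟩
        · rw [h1, gv_smul, gv_bv, Matrix.smul_mul]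
        · rw [h2, gv_smul, gv_bv, Matrix.smul_mul]
      · have hlt : j.val + 1 ≤ i.val := by
          have h4 : i.val ≠ j.val := fun h' => hij (Fin.ext h')
          omega
        obtain ⟨d, hd, h3, h4⟩ := hc i (by omega)
        obtain ⟨h5, h6⟩ := (g1c K l a b s g P o hg j).2.1 u hu i hlt
        refine ⟨d, hd, Tra_comp h3 ?_, Tra_comp h4 ?_⟩
        · rw [gv_smul, gv_bv, Matrix.mul_smul, h5, Matrix.smul_mul]
        · rw [gv_smul, gv_bv, Matrix.mul_smul, h6, Matrix.smul_mul]
  obtain ⟨h, hh, h1⟩ := key s le_rfl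
  refine ⟨h, hh, fun i => ?_⟩
  obtain ⟨c, hc, h2, h3⟩ := h1 i (by omega)
  refine ⟨c, hc, ?_, ?_⟩
  · rw [h2, gv_smul, gv_bv, Matrix.smul_mul]
  · rw [h3, gv_smul, gv_bv, Matrix.smul_mul]

end MP7Z.Ort
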