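import Pool.Agent.Lib.MP_7f581e_Z.Ort.SpecA

/-!
# A frame in a space of matrices
-/

set_option autoImplicit false
set_option linter.unusedSectionVars false

namespace MP7Z.Ort

open TensorProduct MP7fS Matrix

theorem Frm_polar {K : Type} [Field K] {l : Type} [Fintype l] [DecidableEq l] {s : ℕ}
    (x : Ix s → Matrix l l K) (q₁ : (Ix s → K) → K)
    (h : ∀ v : Ix s → K, gv x v * gv x v = q₁ v • 1) (v w : Ix s → K) :
    QuadraticMap.polar q₁ v w • (1 : Matrix l l K) = gv x v * gv x w + gv x w * gv x v := by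
  have h1 := h (v + w)
  rw [gv_add, add_mul, mul_add, mul_add, h v, h w] at h1
  rw [QuadraticMap.polar, sub_smul, sub_smul, ← h1]
  abel

theorem Frm_smul {K : Type} [Field K] {l : Type} [Fintype l] [DecidableEq l] [Nonempty l] {s : ℕ}
    (x : Ix s → Matrix l l K) (q₁ : (Ix s → K) → K)
    (h : ∀ v : Ix s → K, gv x v * gv x v = q₁ v • 1) (c : K) (v : Ix s → K) :
    q₁ (c • v) = c * c * q₁ v := by
  apply smul_one_inj (l := l)
  rw [← h (c • v), gv_smul, smul_mul_assoc, mul_smul_comm, h v, smul_smul, smul_smul]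

theorem Frm_add_left {K : Type} [Field K] {l : Type} [Fintype l] [DecidableEq l] [Nonempty l]
    {s : ℕ} (x : Ix s → Matrix l l K) (q₁ : (Ix s → K) → K)
    (h : ∀ v : Ix s → K, gv x v * gv x v = q₁ v • 1) (v v' w : Ix s → K) :
    QuadraticMap.polar q₁ (v + v') w = QuadraticMap.polar q₁ v w + QuadraticMap.polar q₁ v' w := by
  apply smul_one_inj (l := l)
  rw [add_smul, Frm_polar x q₁ h, Frm_polar x q₁ h, Frm_polar x q₁ h, gv_add, add_mul, mul_add]
  abel

theorem Frm_smul_left {K : Type} [Field K] {l : Type} [Fintype l] [DecidableEq l] [Nonempty l]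
    {s : ℕ} (x : Ix s → Matrix l l K) (q₁ : (Ix s → K) → K)
    (h : ∀ v : Ix s → K, gv x v * gv x v = q₁ v • 1) (c : K) (v w : Ix s → K) :
    QuadraticMap.polar q₁ (c • v) w = c • QuadraticMap.polar q₁ v w := by
  apply smul_one_inj (l := l)
  rw [smul_assoc, Frm_polar x q₁ h, Frm_polar x q₁ h, gv_smul, smul_mul_assoc, mul_smul_comm,
    smul_add]

/-- the quadratic form -/
def Frm_q {K : Type} [Field K] {l : Type} [Fintype l] [DecidableEq l] [Nonempty l] {s : ℕ}
    (x : Ix s → Matrix l l K) (q₁ : (Ix s → K) → K)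
    (h : ∀ v : Ix s → K, gv x v * gv x v = q₁ v • 1) : QuadraticForm K (Ix s → K) :=
  QuadraticMap.ofPolar q₁ (fun c v => Frm_smul x q₁ h c v)
    (fun v v' w => Frm_add_left x q₁ h v v' w) (fun c v w => Frm_smul_left x q₁ h c v w)

theorem tFrm (h1 : ClsStmt) : FrmStmt := by
  intro K _ _ l _ _ _ s o x q₁ w hq hnd ho
  have hqv : ∀ v, Frm_q x q₁ hq v = q₁ v := fun _ => rfl
  have hpol : ∀ v w, QuadraticMap.polar (Frm_q x q₁ hq) v w = QuadraticMap.polar q₁ v w :=
    fun _ _ => rfl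
  have hn : ∀ v, (∀ y, QuadraticMap.polar (Frm_q x q₁ hq) v y = 0) → v = 0 := by
    intro v hv
    apply hnd v
    intro v'
    rw [← Frm_polar x q₁ hq, ← hpol, hv v', zero_smul]
  have hw : o → Frm_q x q₁ hq w = 1 ∧ (2 : K) ≠ 0 := by
    intro hoo
    refine ⟨?_, (ho hoo).2⟩
    apply smul_one_inj (l := l)
    rw [hqv, ← hq w, (ho hoo).1, one_smul]
  have hf : Module.finrank K (Ix s → K) = 2 * s + 2 := by
    rw [Module.finrank_fintype_fun_eq_card]
    simp only [Ix, Fintype.card_sum, Fintype.card_fin]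
    ring
  obtain ⟨a', b', y, hab, hoy, hy⟩ := h1 K o s (Ix s → K) (Frm_q x q₁ hq) w hn hw hf
  refine ⟨a', b', fun i => gv x (y i), hab, ?_, fun i => ⟨y i, rfl⟩, ?_⟩
  · apply IsFrame.of_sq
    intro v
    have h2 : gv (fun i => gv x (y i)) v = gv x (∑ i, v i • y i) := by
      rw [gv_sum, gv]
      exact Finset.sum_congr rfl fun i _ => (gv_smul x (v i) (y i)).symm
    rw [h2, hq, ← hqv, hy]
  · intro hoo
    refine ⟨(hoy hoo).1, ?_⟩
    show gv x (y (iw 0)) = gv x w
    rw [(hoy hoo).2]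

end MP7Z.Ort
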