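import Pool.Agent.Lib.MP_7f581e_Z.Ort.SpecA

/-!
# Matrices fixed by the Frobenius
-/

set_option autoImplicit false

namespace MP7Z.Ort

open Polynomial

theorem FxM_finite (p : ℕ) [hp : Fact p.Prime] (k : Type) [Field k] [CharP k p] (m : ℕ)
    (hm : 0 < m) : {c : k | c ^ p ^ m = c}.Finite := by
  classical
  have h1 : 1 < p ^ m := Nat.one_lt_pow hm.ne' hp.out.one_lt
  have h2 : (X ^ (p ^ m) - X : k[X]) ≠ 0 := FiniteField.X_pow_card_sub_X_ne_zero k h1
  refine Set.Finite.subset (X ^ (p ^ m) - X : k[X]).roots.toFinset.finite_toSet fun c hc => ?_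
  rw [Finset.mem_coe, Multiset.mem_toFinset, mem_roots h2, IsRoot.def, eval_sub, eval_pow, eval_X,
    sub_eq_zero]
  exact hc

theorem tFxM : FxMStmt := by
  intro p hp k _ _ m hm
  let K : Subfield k := (iterateFrobenius k p m).eqLocusField (RingHom.id k)
  have hK : ∀ c : k, c ∈ K ↔ c ^ p ^ m = c := fun c => by
    change iterateFrobenius k p m c = RingHom.id k c ↔ _
    rw [iterateFrobenius_def, RingHom.id_apply]
  have hmat : ∀ (l : Type) [Fintype l] [DecidableEq l] (X : Matrix l l k),
      X.map (iterateFrobenius k p m) = X → ∃ Y : Matrix l l K, Y.map K.subtype = X := by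
    intro l _ _ X hX
    refine ⟨Matrix.of fun i j => ⟨X i j, ?_⟩, ?_⟩
    · exact congrFun (congrFun hX i) j
    · ext i j
      rfl
  refine ⟨K, ?_, hK, hmat, ?_⟩
  · have h1 : (K : Set k) = {c : k | c ^ p ^ m = c} := Set.ext hK
    have h2 := FxM_finite p k m hm
    rw [← h1] at h2
    exact h2.to_subtype
  · intro l _ _ X hX
    have h1 : (X : Matrix l l k).map (iterateFrobenius k p m) = X :=
      congrArg (fun u : Matrix.GeneralLinearGroup l k => (u : Matrix l l k)) hX
    have h2 : ((X⁻¹ : Matrix.GeneralLinearGroup l k) : Matrix l l k).map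
        (iterateFrobenius k p m) = ((X⁻¹ : Matrix.GeneralLinearGroup l k) : Matrix l l k) := by
      have h3 : Matrix.GeneralLinearGroup.map (iterateFrobenius k p m) X⁻¹ = X⁻¹ := by
        rw [map_inv, hX]
      exact congrArg (fun u : Matrix.GeneralLinearGroup l k => (u : Matrix l l k)) h3
    obtain ⟨Y, hY⟩ := hmat l _ h1
    obtain ⟨Z, hZ⟩ := hmat l _ h2
    have hinj : Function.Injective (fun A : Matrix l l K => A.map K.subtype) :=
      fun A B h => Matrix.map_injective Subtype.val_injective h
    have hYZ : Y * Z = 1 := by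
      apply hinj
      change (Y * Z).map K.subtype = (1 : Matrix l l K).map K.subtype
      rw [Matrix.map_mul, hY, hZ, Units.mul_inv, Matrix.map_one _ (map_zero _) (map_one _)]
    have hZY : Z * Y = 1 := by
      apply hinj
      change (Z * Y).map K.subtype = (1 : Matrix l l K).map K.subtype
      rw [Matrix.map_mul, hY, hZ, Units.inv_mul, Matrix.map_one _ (map_zero _) (map_one _)]
    exact ⟨⟨Y, Z, hYZ, hZY⟩, Units.ext hY⟩

end MP7Z.Ort
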