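import Pool.Agent.Lib.MP_7f581e_Z.Ort.SpecB

/-!
# An element of `A` which acts trivially modulo the centre is trivial (`FxeStmt`)
-/

set_option autoImplicit false
set_option linter.unusedSectionVars false

namespace MP7Z.Ort

open TensorProduct MP7fS Matrix

theorem tFxe (prf : PrfStmt) (sph : SpHStmt) : FxeStmt := by
  intro p _ F _ _ s D x hx
  choose z hz hxz using hx
  have hinj := D.inc_injective p
  have hmul : ∀ h h' : D.H, z (h * h') = z h * z h' := by
    intro h h'
    have h1 : D.inc p (z (h * h') * (h * h')) = D.inc p (z h * h * (z h' * h')) := by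
      rw [← hxz, map_mul, map_mul, hxz, hxz, ← map_mul]
    have h2 := hinj h1
    have h3 : h * z h' = z h' * h := Subgroup.mem_center_iff.1 (hz h') h
    have h4 : z h * h * (z h' * h') = z h * z h' * (h * h') := by
      rw [mul_assoc (z h), ← mul_assoc h, h3]
      simp only [mul_assoc]
    rw [h4] at h2
    exact mul_right_cancel h2
  let φ : D.H →* Subgroup.center D.H :=
    { toFun := fun h => ⟨z h, hz h⟩
      map_one' := by
        apply Subtype.ext
        have h1 := hmul 1 1
        rw [mul_one] at h1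
        exact (mul_eq_left (a := z 1) (b := z 1)).1 h1.symm
      map_mul' := fun h h' => Subtype.ext (hmul h h') }
  have h3 : commutator D.H ≤ φ.ker := by
    rw [commutator_def, Subgroup.commutator_le]
    intro a _ b _
    rw [MonoidHom.mem_ker, map_commutatorElement, commutatorElement_eq_one_iff_mul_comm]
    exact Subtype.ext (Subgroup.mem_center_iff.1 (φ b).2 (φ a : D.H))
  rw [prf F s D] at h3
  have hfix : ∀ h : D.H, D.r p x (D.inc p h) = D.inc p h := by
    intro h
    have h4 : φ h = 1 := h3 (Subgroup.mem_top h)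
    have h5 : z h = 1 := congrArg Subtype.val h4
    rw [hxz, h5, one_mul]
  apply Subtype.ext
  apply RingEquiv.ext
  intro X
  change D.r p x X = X
  -- the set of the fixed matrices is an additive group
  have key : ∀ Y : Matrix (Lx (s + 2)) (Lx (s + 2)) F, Y ∈ AddSubgroup.closure
      {Y | ∃ h ∈ D.H, Y = ((h : GL (Lx (s + 2)) F) : Matrix (Lx (s + 2)) (Lx (s + 2)) F)} →
      ∃ X' : D.C0 p, (X' : Matrix (Lx (s + 2)) (Lx (s + 2)) F) = Y ∧ D.r p x X' = X' := by
    intro Y hY
    induction hY using AddSubgroup.closure_induction with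
    | mem Y hY =>
      obtain ⟨h, hh, rfl⟩ := hY
      exact ⟨D.inc p ⟨h, hh⟩, rfl, hfix _⟩
    | zero => exact ⟨0, rfl, map_zero _⟩
    | add Y Y' _ _ h1 h2 =>
      obtain ⟨A, hA, hA'⟩ := h1
      obtain ⟨B, hB, hB'⟩ := h2
      refine ⟨A + B, ?_, ?_⟩
      · rw [← hA, ← hB]
        rfl
      · rw [map_add, hA', hB']
    | neg Y _ h1 =>
      obtain ⟨A, hA, hA'⟩ := h1
      refine ⟨-A, ?_, ?_⟩
      · rw [← hA]
        rfl
      · rw [map_neg, hA']
  obtain ⟨X', hX', hX''⟩ := key _ (sph p F (s + 1) D X)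
  have h4 : X' = X := Subtype.ext hX'
  rw [h4] at hX''
  exact hX''

end MP7Z.Ort
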