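import Pool.Agent.Lib.MP_7f581e_Z.Ort.Act

/-!
# The groups `G1`
-/

set_option autoImplicit false
set_option linter.unusedSectionVars false

namespace MP7Z.Ort

open TensorProduct MP7fS Matrix

section

variable {K : Type} [Field K] {l : Type} [Fintype l] [DecidableEq l] {a b : K} {s : ℕ}
  {g : Ix s → Matrix l l K} {P : GL l K} {o : Prop}

/-- The action of a Siegel element. -/
theorem G1c_act {x y z : Matrix l l K} {q α β : K} (hxx : x * x = 0) (hyx : y * x = -(x * y))
    (hyy : y * y = q • 1) (hzy : z * y + y * z = β • 1) (hzx : z * x + x * z = α • 1) :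
    (1 + x * y) * z = (z + β • x - α • y - (α * q) • x) * (1 + x * y) := by
  have e1 : x * y * z = β • x - α • y + z * (x * y) := by
    have h1 : y * z = β • 1 - z * y := by rw [← hzy]; abel
    have h2 : x * z = α • 1 - z * x := by rw [← hzx]; abel
    calc x * y * z = x * (β • 1 - z * y) := by rw [← h1, Matrix.mul_assoc]
      _ = β • x - x * z * y := by
        rw [Matrix.mul_sub, Matrix.mul_smul, Matrix.mul_one, Matrix.mul_assoc]
      _ = _ := by
        rw [h2, Matrix.sub_mul, Matrix.smul_mul, Matrix.one_mul, Matrix.mul_assoc]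
        abel
  have e2 : x * (x * y) = 0 := by rw [← Matrix.mul_assoc, hxx, Matrix.zero_mul]
  have e3 : y * (x * y) = -(q • x) := by
    rw [← Matrix.mul_assoc, hyx, Matrix.neg_mul, Matrix.mul_assoc, hyy, Matrix.mul_smul,
      Matrix.mul_one]
  rw [Matrix.add_mul, Matrix.one_mul, e1, Matrix.mul_add, Matrix.mul_one, Matrix.sub_mul,
    Matrix.sub_mul, Matrix.add_mul, Matrix.smul_mul, Matrix.smul_mul, Matrix.smul_mul, e2, e3,
    smul_zero, smul_zero, smul_neg, smul_smul]
  abel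

/-- A Siegel element as a unit. -/
theorem G1c_unit {x y : Matrix l l K} (hxx : x * x = 0) (hyx : y * x = -(x * y)) :
    ∃ u : GL l K, (u : Matrix l l K) = 1 + x * y ∧ ((u⁻¹ : GL l K) : Matrix l l K) = 1 - x * y := by
  have h0 : x * y * (x * y) = 0 := by
    rw [Matrix.mul_assoc, ← Matrix.mul_assoc y, hyx, Matrix.neg_mul, Matrix.mul_neg,
      Matrix.mul_assoc x y y, ← Matrix.mul_assoc x x, hxx, Matrix.zero_mul, neg_zero]
  exact ⟨⟨1 + x * y, 1 - x * y, by
      rw [Matrix.add_mul, Matrix.one_mul, Matrix.mul_sub, Matrix.mul_one, h0]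
      abel, by
      rw [Matrix.sub_mul, Matrix.one_mul, Matrix.mul_add, Matrix.mul_one, h0]
      abel⟩, rfl, rfl⟩

theorem G1c_le (hg : Good a b g P o) (k : Fin s) : G1 g o k ≤ SG a g P o := by
  rw [G1, Subgroup.closure_le]
  rintro u ⟨v, hv, hu | hu⟩
  · refine hg.siegel (x := bv K (ie k)) (y := v) (qf_ie a b k) ?_ (fun ho => ⟨?_, hv.1 ho⟩) ?_
    · rw [bf_comm, bf_ie]
      exact (hv.2 k le_rfl).2
    · rw [bv_apply, if_neg (by simp)]
    · rw [gv_bv]
      exact hu
  · refine hg.siegel (x := bv K (jf k)) (y := v) (qf_jf a b k) ?_ (fun ho => ⟨?_, hv.1 ho⟩) ?_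
    · rw [bf_comm, bf_jf]
      exact (hv.2 k le_rfl).1
    · rw [bv_apply, if_neg (by simp)]
    · rw [gv_bv]
      exact hu

theorem G1c_comm (k : Fin s) (M : Matrix l l K)
    (h : ∀ v ∈ Vk o s K k.val, g (ie k) * gv g v * M = M * (g (ie k) * gv g v) ∧
      g (jf k) * gv g v * M = M * (g (jf k) * gv g v)) :
    ∀ u ∈ G1 g o k, (u : Matrix l l K) * M = M * (u : Matrix l l K) := by
  intro u hu
  induction hu using Subgroup.closure_induction with
  | mem u hu =>
    obtain ⟨v, hv, hu | hu⟩ := hu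
    · rw [hu, Matrix.add_mul, Matrix.mul_add, Matrix.one_mul, Matrix.mul_one, (h v hv).1]
    · rw [hu, Matrix.add_mul, Matrix.mul_add, Matrix.one_mul, Matrix.mul_one, (h v hv).2]
  | one => rw [Units.val_one, Matrix.one_mul, Matrix.mul_one]
  | mul u v _ _ hu hv => rw [Units.val_mul, Matrix.mul_assoc, hv, ← Matrix.mul_assoc, hu,
      Matrix.mul_assoc]
  | inv u _ hu =>
    have h1 : Commute (u : Matrix l l K) M := hu
    exact h1.units_inv_left

theorem G1c_anti {x y : Matrix l l K} {M : Matrix l l K} (hx : x * M = -(M * x))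
    (hy : y * M = -(M * y)) : x * y * M = M * (x * y) := by
  rw [Matrix.mul_assoc, hy, Matrix.mul_neg, ← Matrix.mul_assoc, hx, Matrix.neg_mul, neg_neg,
    Matrix.mul_assoc]

theorem G1c_two (hg : Good a b g P o) (k : Fin s) : ∀ u ∈ G1 g o k, ∀ i : Fin s, k < i →
      (u : Matrix l l K) * g (ie i) = g (ie i) * (u : Matrix l l K) ∧
      (u : Matrix l l K) * g (jf i) = g (jf i) * (u : Matrix l l K) := by
  intro u hu i hi
  have hki : k.val ≤ i.val := le_of_lt hi
  have he := Act_one hg _ _ (Act_e (K := K) o k) i hi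
  have hf := Act_one hg _ _ (Act_f (K := K) o k) i hi
  rw [gv_bv] at he hf
  refine ⟨G1c_comm k _ (fun v hv => ?_) u hu, G1c_comm k _ (fun v hv => ?_) u hu⟩
  · have hv' := Act_one hg _ _ hv i hki
    exact ⟨G1c_anti he.1 hv'.1, G1c_anti hf.1 hv'.1⟩
  · have hv' := Act_one hg _ _ hv i hki
    exact ⟨G1c_anti he.2 hv'.2, G1c_anti hf.2 hv'.2⟩

end

theorem tG1c : G1cStmt := by
  intro K _ l _ _ a b s g P o hg k
  have hF := hg.frame
  refine ⟨G1c_le hg k, G1c_two hg k, fun v hv => ?_, fun v hv => ?_⟩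
  · have h1 := (Act_one hg _ _ hv k le_rfl).1
    obtain ⟨u, hu, hu'⟩ := G1c_unit (hF.ee k) h1
    refine ⟨u, Subgroup.subset_closure ⟨v, hv, Or.inl hu⟩, hu, hu', fun z => ?_⟩
    have h2 := hF.gv_anti z (bv K (ie k))
    rw [gv_bv, bf_ie] at h2
    rw [hu, G1c_act (hF.ee k) h1 (hF.gv_sq v) (hF.gv_anti z v) h2]
    congr 1
    rw [gv_sub, gv_sub, gv_add, gv_smul, gv_smul, gv_smul, gv_bv]
  · have h1 := (Act_one hg _ _ hv k le_rfl).2
    obtain ⟨u, hu, hu'⟩ := G1c_unit (hF.ff k) h1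
    refine ⟨u, Subgroup.subset_closure ⟨v, hv, Or.inr hu⟩, hu, hu', fun z => ?_⟩
    have h2 := hF.gv_anti z (bv K (jf k))
    rw [gv_bv, bf_jf] at h2
    rw [hu, G1c_act (hF.ff k) h1 (hF.gv_sq v) (hF.gv_anti z v) h2]
    congr 1
    rw [gv_sub, gv_sub, gv_add, gv_smul, gv_smul, gv_smul, gv_bv]

end MP7Z.Ort
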