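import Pool.Agent.Lib.MP_7f581e_Z.Ort.Gmk

/-!
# The spin group is generated by the Siegel elements of the last plane
-/

set_option autoImplicit false
set_option linter.unusedSectionVars false

namespace MP7Z.Ort

open TensorProduct MP7fS Matrix

theorem tGenO (act : ActStmt) (g1c : G1cStmt) (tra : TraStmt) (gmk : GmkStmt) : GenOStmt := by
  intro K _ l _ _ a b s g P o hg u hu
  have hF := hg.frame
  have hS := mem_SG.1 hu
  have hG : Gam a g o ((Fin.last s).val + 1) u :=
    ⟨hS.1, hS.2.2.2.2, hS.2.2.1, hS.2.2.2.1, fun i hi => by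
      have := i.2
      rw [Fin.val_last] at hi
      omega, fun i hi => by
      have := i.2
      rw [Fin.val_last] at hi
      omega⟩
  have hν : rv P (u : Matrix l l K) * (u : Matrix l l K) = (1 : K) • 1 := by
    rw [hS.2.1, one_smul]
  obtain ⟨h, hh, c, hc, hG2, hν2⟩ := Gmk_step act g1c tra hg (Fin.last s) hG hν
  obtain ⟨u', hu', h1⟩ := gmk K l a b s g P o hg s le_rfl _ _ hG2 hν2
  have hc' : (c * 1)⁻¹ ≠ 0 := inv_ne_zero (mul_ne_zero hc one_ne_zero)
  have h1' : u' = Tor hF (Fin.last s) c hc * h * u * Tor hF (Fin.last s) (c * 1)⁻¹ hc' := by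
    apply Units.ext
    rw [h1, Units.val_mul _ (Tor hF (Fin.last s) (c * 1)⁻¹ hc'), Tor_val hF (Fin.last s) (c * 1)⁻¹]
  have cu : Commute (Tor hF (Fin.last s) (c * 1)⁻¹ hc') (Tor hF (Fin.last s) c hc * h * u) := by
    apply Units.ext
    exact Tor_comm hF (Fin.last s) _ hc' (hG2.ce _ le_rfl) (hG2.cf _ le_rfl)
  have e1 : Tor hF (Fin.last s) (c * 1)⁻¹ hc' * Tor hF (Fin.last s) c hc = 1 := by
    rw [Tor_mul']
    apply Units.ext
    rw [Tor_val, Units.val_one, mul_one, inv_mul_cancel₀ hc, one_smul, hF.ef]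
  have h2 : u' = h * u := by
    rw [h1', ← cu.eq]
    calc Tor hF (Fin.last s) (c * 1)⁻¹ hc' * (Tor hF (Fin.last s) c hc * h * u) =
        (Tor hF (Fin.last s) (c * 1)⁻¹ hc' * Tor hF (Fin.last s) c hc) * h * u := by group
      _ = h * u := by rw [e1, one_mul]
  have h3 : u = h⁻¹ * u' := by rw [h2, inv_mul_cancel_left]
  rw [h3]
  exact mul_mem (inv_mem hh) hu'

end MP7Z.Ort
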