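import Pool.Agent.Lib.MP_7f581e_Z.Ort.SpecE

/-!
# Extension of isometries
-/

set_option autoImplicit false

namespace MP7Z.Ort

open TensorProduct MP7fS Matrix

theorem Gex_qf {F : Type} [Field F] {s : ℕ} (D : Dat F s) (ho : D.o) {u : Ix s → F} (hu : u ∈ D.V)
    (c : F) : D.Q (u + c • bv F (iw 0)) = D.Q u + c ^ 2 := by
  obtain ⟨ha, -⟩ := D.good.odd ho
  change qf D.a D.b (u + c • bv F (iw 0)) = qf D.a D.b u + c ^ 2
  rw [qf_add, qf_smul, qf_w0, bf_smul_right, bf_w0, hu ho, ha, mul_zero, zero_mul, add_zero,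
    mul_zero, add_zero, mul_one]

theorem Gex_mem {F : Type} [Field F] {s : ℕ} (D : Dat F s) (v : Ix s → F) :
    v - v (iw 0) • bv F (iw 0) ∈ D.V := by
  intro _
  rw [Pi.sub_apply, Pi.smul_apply, bv_apply, if_pos rfl, smul_eq_mul, mul_one, sub_self]

theorem tGex : GexStmt := by
  intro F _ s D W _ _ q j hj x hx
  have hx' : ∀ w, q (x w) = q w := hx
  by_cases ho : D.o
  · -- the projection
    let π : (Ix s → F) →ₗ[F] D.V :=
      { toFun := fun v => ⟨v - v (iw 0) • bv F (iw 0), Gex_mem D v⟩
        map_add' := fun v w => Subtype.ext (by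
          change v + w - (v (iw 0) + w (iw 0)) • bv F (iw 0) =
            (v - v (iw 0) • bv F (iw 0)) + (w - w (iw 0) • bv F (iw 0))
          rw [add_smul]
          abel)
        map_smul' := fun c v => Subtype.ext (by
          change c • v - (c * v (iw 0)) • bv F (iw 0) = c • (v - v (iw 0) • bv F (iw 0))
          rw [smul_sub, smul_smul]) }
    have hπ : ∀ v, (π v : Ix s → F) = v - v (iw 0) • bv F (iw 0) := fun _ => rfl
    let Gf : (W ≃ₗ[F] W) → (Ix s → F) → (Ix s → F) := fun y v =>
      ((j.symm (y (j (π v))) : D.V) : Ix s → F) + v (iw 0) • bv F (iw 0)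
    have hGf0 : ∀ y v, Gf y v (iw 0) = v (iw 0) := by
      intro y v
      change ((j.symm (y (j (π v))) : D.V) : Ix s → F) (iw 0) +
        v (iw 0) * bv F (iw 0 : Ix s) (iw 0) = v (iw 0)
      rw [(j.symm (y (j (π v)))).2 ho, bv_apply, if_pos rfl, mul_one, zero_add]
    have hGfπ : ∀ y v, π (Gf y v) = j.symm (y (j (π v))) := by
      intro y v
      apply Subtype.ext
      rw [hπ, hGf0]
      change ((j.symm (y (j (π v))) : D.V) : Ix s → F) + v (iw 0) • bv F (iw 0) -
        v (iw 0) • bv F (iw 0) = _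
      rw [add_sub_cancel_right]
    have hcomp : ∀ y z v, (∀ w, y (z w) = w) → Gf y (Gf z v) = v := by
      intro y z v h
      change ((j.symm (y (j (π (Gf z v)))) : D.V) : Ix s → F) + Gf z v (iw 0) • bv F (iw 0) = v
      rw [hGfπ, hGf0, LinearEquiv.apply_symm_apply, h, LinearEquiv.symm_apply_apply, hπ,
        sub_add_cancel]
    have hadd : ∀ y v w, Gf y (v + w) = Gf y v + Gf y w := by
      intro y v w
      change ((j.symm (y (j (π (v + w)))) : D.V) : Ix s → F) +
        (v (iw 0) + w (iw 0)) • bv F (iw 0) =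
        (((j.symm (y (j (π v))) : D.V) : Ix s → F) + v (iw 0) • bv F (iw 0)) +
        (((j.symm (y (j (π w))) : D.V) : Ix s → F) + w (iw 0) • bv F (iw 0))
      rw [map_add, map_add, map_add, map_add, Submodule.coe_add, add_smul]
      abel
    have hsmul : ∀ y (c : F) v, Gf y (c • v) = c • Gf y v := by
      intro y c v
      change ((j.symm (y (j (π (c • v)))) : D.V) : Ix s → F) + (c * v (iw 0)) • bv F (iw 0) =
        c • (((j.symm (y (j (π v))) : D.V) : Ix s → F) + v (iw 0) • bv F (iw 0))
      rw [map_smul, map_smul, map_smul, map_smul, Submodule.coe_smul, smul_add, smul_smul]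
    let G : (Ix s → F) ≃ₗ[F] (Ix s → F) :=
      { toFun := Gf x
        map_add' := hadd x
        map_smul' := hsmul x
        invFun := Gf x.symm
        left_inv := fun v => hcomp _ _ v x.symm_apply_apply
        right_inv := fun v => hcomp _ _ v x.apply_symm_apply }
    have hG : ∀ v, G v = ((j.symm (x (j (π v))) : D.V) : Ix s → F) + v (iw 0) • bv F (iw 0) :=
      fun _ => rfl
    refine ⟨G, fun v => ?_, fun v => ?_, fun _ => ?_⟩
    · rw [hG, Gex_qf D ho (j.symm (x (j (π v)))).2, ← hj, LinearEquiv.apply_symm_apply, hx', hj]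
      conv_rhs => rw [← sub_add_cancel v (v (iw 0) • bv F (iw 0))]
      rw [Gex_qf D ho (Gex_mem D v), hπ]
    · have h1 : π (v : Ix s → F) = v := by
        apply Subtype.ext
        rw [hπ, v.2 ho, zero_smul, sub_zero]
      rw [hG, h1, v.2 ho, zero_smul, add_zero]
    · have h1 : π (bv F (iw 0)) = 0 := by
        apply Subtype.ext
        rw [hπ, bv_apply, if_pos rfl, one_smul, sub_self]
        rfl
      rw [hG, h1, map_zero, map_zero, map_zero, bv_apply, if_pos rfl, one_smul]
      change (0 : Ix s → F) + _ = _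
      rw [zero_add]
  · have htop : D.V = ⊤ := by
      rw [eq_top_iff]
      exact fun v _ h => absurd h ho
    let e₀ : D.V ≃ₗ[F] (Ix s → F) := LinearEquiv.ofTop D.V htop
    have he : ∀ v : D.V, e₀ v = v := fun _ => rfl
    have he' : ∀ v : Ix s → F, ((e₀.symm v : D.V) : Ix s → F) = v := fun _ => rfl
    refine ⟨((((e₀.symm.trans j).trans x).trans j.symm).trans e₀), fun v => ?_, fun v => ?_,
      fun h => absurd h ho⟩
    · change D.Q (e₀ (j.symm (x (j (e₀.symm v))))) = D.Q v
      rw [he, ← hj, LinearEquiv.apply_symm_apply, hx', hj, he']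
    · change e₀ (j.symm (x (j (e₀.symm (v : Ix s → F))))) = _
      rw [he]
      rfl

end MP7Z.Ort
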