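import Pool.Agent.Lib.MP_7f581e_Z.Ort.SpecB

/-!
# Elements commuting with all hyperbolic pairs
-/

set_option autoImplicit false
set_option linter.unusedSectionVars false

namespace MP7Z.Ort

open TensorProduct MP7fS Matrix

section

variable {K : Type} [Field K] {l : Type} [Fintype l] [DecidableEq l] {a b : K} {s : ℕ}
  {g : Ix s → Matrix l l K} {P : GL l K} {o : Prop}

/-- The norm of a unit is not zero. -/
theorem Gm0_ne [Nonempty l] (P : GL l K) {u : GL l K} {ν : K}
    (h : rv P (u : Matrix l l K) * (u : Matrix l l K) = ν • 1) : ν ≠ 0 := by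
  rintro rfl
  rw [zero_smul] at h
  have h1 : rv P (u : Matrix l l K) = 0 := by
    calc rv P (u : Matrix l l K) = rv P (u : Matrix l l K) * (u : Matrix l l K) *
          ((u⁻¹ : GL l K) : Matrix l l K) := by
            rw [Matrix.mul_assoc, Units.mul_inv, Matrix.mul_one]
      _ = 0 := by rw [h, Matrix.zero_mul]
  have h2 : rv P ((u⁻¹ : GL l K) : Matrix l l K) * rv P (u : Matrix l l K) = 1 := by
    rw [← rv_mul, Units.mul_inv, rv_one]
  rw [h1, Matrix.mul_zero] at h2
  exact zero_ne_one h2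

/-- An element commuting with everything but `w₀, w₁` is a product of two vectors. -/
theorem Gm0_prod (hg : Good a b g P o) {κ m : K} {u : Matrix l l K}
    (hu : u = κ • 1 + m • (g (iw 0) * g (iw 1)))
    (hw : o → u * g (iw 0) = g (iw 0) * u) :
    ∃ x y : Ix s → K, (∀ k, x ∈ Vk o s K k) ∧ (∀ k, y ∈ Vk o s K k) ∧ u = gv g x * gv g y := by
  have := hg.nonempty
  have h0 : g (iw 0) * g (iw 0) = 1 := by rw [hg.frame.sq, qf_w0, one_smul]
  have h1 : g (iw 1) * g (iw 1) = b • 1 := by rw [hg.frame.sq, qf_w1]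
  by_cases ho : o
  · obtain ⟨ha, h2⟩ := hg.odd ho
    have hb : b ≠ 0 := by
      rintro rfl
      have h3 := hg.disc.ne_zero
      rw [ha] at h3
      apply h3
      ring
    have h10 : g (iw 1) * g (iw 0) = -(g (iw 0) * g (iw 1)) := by
      have h3 := hg.frame.gv_anti (bv K (iw 1)) (bv K (iw 0))
      rw [bf_w0, ha, bv_apply, if_neg (by simp), zero_mul, mul_zero, add_zero, zero_smul, gv_bv,
        gv_bv] at h3
      exact eq_neg_of_add_eq_zero_left h3
    have h3 := hw ho
    have h4 : (2 * m) • g (iw 1) = 0 := by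
      have e1 : u * g (iw 0) = κ • g (iw 0) - m • g (iw 1) := by
        rw [hu, Matrix.add_mul, Matrix.smul_mul, Matrix.one_mul, Matrix.smul_mul,
          Matrix.mul_assoc, h10, Matrix.mul_neg, ← Matrix.mul_assoc, h0, Matrix.one_mul, smul_neg,
          sub_eq_add_neg]
      have e2 : g (iw 0) * u = κ • g (iw 0) + m • g (iw 1) := by
        rw [hu, Matrix.mul_add, Matrix.mul_smul, Matrix.mul_one, Matrix.mul_smul,
          ← Matrix.mul_assoc, h0, Matrix.one_mul]
      rw [e1, e2] at h3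
      have e3 : κ • g (iw 0) + m • g (iw 1) - (κ • g (iw 0) - m • g (iw 1)) = 0 := by
        rw [h3, sub_self]
      rw [two_mul, add_smul, ← e3]
      abel
    have h5 : ((2 * m) * b) • (1 : Matrix l l K) = (0 : K) • 1 := by
      rw [mul_smul, ← h1, ← Matrix.smul_mul, h4, Matrix.zero_mul, zero_smul]
    have h6 := smul_one_inj h5
    have hm : m = 0 := by
      rcases mul_eq_zero.1 h6 with h7 | h7
      · exact (h2.mul_right_eq_zero).1 h7
      · exact absurd h7 hb
    have hmem : ∀ (c : K) (k : ℕ), c • bv K (iw 1) ∈ Vk o s K k := fun c k =>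
      (Vk o s K k).smul_mem c ⟨fun _ => by rw [bv_apply, if_neg (by simp)], fun j _ => by
        rw [bv_apply, bv_apply, if_neg (by simp), if_neg (by simp)]
        exact ⟨rfl, rfl⟩⟩
    refine ⟨(κ * b⁻¹) • bv K (iw 1), (1 : K) • bv K (iw 1), hmem _, hmem _, ?_⟩
    rw [hu, hm, zero_smul, add_zero, gv_smul, gv_smul, gv_bv, one_smul, Matrix.smul_mul, h1,
      smul_smul, mul_assoc, inv_mul_cancel₀ hb, mul_one]
  · have hmem : ∀ (c d : K) (k : ℕ), c • bv K (iw 0) + d • bv K (iw 1) ∈ Vk o s K k :=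
      fun c d k => ⟨fun h => absurd h ho, fun j _ => by
        rw [Pi.add_apply, Pi.add_apply, Pi.smul_apply, Pi.smul_apply, Pi.smul_apply,
          Pi.smul_apply, bv_apply, bv_apply, bv_apply, bv_apply, if_neg (by simp),
          if_neg (by simp), if_neg (by simp), if_neg (by simp), smul_zero, smul_zero, add_zero]
        exact ⟨rfl, rfl⟩⟩
    refine ⟨(1 : K) • bv K (iw 0) + (0 : K) • bv K (iw 1), κ • bv K (iw 0) + m • bv K (iw 1),
      hmem _ _, hmem _ _, ?_⟩
    rw [hu, gv_add, gv_add, gv_smul, gv_smul, gv_smul, gv_smul, gv_bv, gv_bv, one_smul, zero_smul,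
      add_zero, Matrix.mul_add, Matrix.mul_smul, h0, Matrix.mul_smul]

end

theorem tGm0 (nwe : NweStmt) (zdn : ZdnStmt) (trf : TrfStmt) : Gm0Stmt := by
  intro K _ l _ _ a b s g P o hg u ν hG hν
  have := hg.nonempty
  have he : ∀ i, (u : Matrix l l K) * g (ie i) = g (ie i) * (u : Matrix l l K) :=
    fun i => hG.ce i (Nat.zero_le _)
  have hf : ∀ i, (u : Matrix l l K) * g (jf i) = g (jf i) * (u : Matrix l l K) :=
    fun i => hG.cf i (Nat.zero_le _)
  have hz := zdn K l a b (s + 1) g hg.frame _ he hf hG.zt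
  obtain ⟨κ, m, hu⟩ := (trf.1 K l a b (s + 1) g hg.disc.ne_zero hg.card hg.frame).2.2.1 _ he hf hz
  obtain ⟨x, y, hx, hy, hxy⟩ := Gm0_prod hg hu hG.w0
  have hνQ : ν = qf a b x * qf a b y := by
    apply smul_one_inj (l := l)
    rw [← hν, hxy, rv_mul, hg.rv_gv, hg.rv_gv]
    calc gv g y * gv g x * (gv g x * gv g y) = gv g y * (gv g x * gv g x) * gv g y := by
          simp only [Matrix.mul_assoc]
      _ = (qf a b x * qf a b y) • 1 := by
        rw [hg.frame.gv_sq, Matrix.mul_smul, Matrix.mul_one, Matrix.smul_mul, hg.frame.gv_sq,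
          smul_smul]
  have hν0 := Gm0_ne P hν
  have hxq : qf a b x ≠ 0 := fun h => hν0 (by rw [hνQ, h, zero_mul])
  have hyq : qf a b y ≠ 0 := fun h => hν0 (by rw [hνQ, h, mul_zero])
  obtain ⟨u', hu', h1⟩ := (nwe K l a b (s + 1) g P o hg (Fin.last s)).2 x (hx _) y (hy _) hxq hyq
  exact ⟨u', hu', by rw [h1, hxy, hνQ]⟩

end MP7Z.Ort
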