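import Pool.Agent.Lib.MP_7f581e_Z.Ort.Tor
import Pool.Agent.Lib.MP_7f581e_Z.Ort.Gm0

/-!
# Elements commuting with the last hyperbolic pair
-/

set_option autoImplicit false
set_option linter.unusedSectionVars false

namespace MP7Z.Ort

open TensorProduct MP7fS Matrix

section

variable {K : Type} [Field K] {l : Type} [Fintype l] [DecidableEq l] {a b : K} {s : ℕ}
  {g : Ix s → Matrix l l K} {P : GL l K} {o : Prop}

theorem Gmk_anti (hg : Good a b g P o) {i j : Fin s} (hij : i ≠ j) :
    (g (ie i) * g (ie j) = -(g (ie j) * g (ie i)) ∧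
      g (ie i) * g (jf j) = -(g (jf j) * g (ie i))) ∧
    (g (jf i) * g (ie j) = -(g (ie j) * g (jf i)) ∧
      g (jf i) * g (jf j) = -(g (jf j) * g (jf i))) := by
  have hF := hg.frame
  refine ⟨⟨?_, ?_⟩, ?_, ?_⟩
  · have h3 := hF.gv_anti (bv K (ie i)) (bv K (ie j))
    rw [bf_ie, bv_apply, if_neg (by simp), zero_smul, gv_bv, gv_bv] at h3
    exact eq_neg_of_add_eq_zero_left h3
  · have h3 := hF.gv_anti (bv K (ie i)) (bv K (jf j))
    rw [bf_jf, bv_apply, if_neg (by simpa using hij.symm), zero_smul, gv_bv, gv_bv] at h3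
    exact eq_neg_of_add_eq_zero_left h3
  · have h3 := hF.gv_anti (bv K (jf i)) (bv K (ie j))
    rw [bf_ie, bv_apply, if_neg (by simpa using hij.symm), zero_smul, gv_bv, gv_bv] at h3
    exact eq_neg_of_add_eq_zero_left h3
  · have h3 := hF.gv_anti (bv K (jf i)) (bv K (jf j))
    rw [bf_jf, bv_apply, if_neg (by simp), zero_smul, gv_bv, gv_bv] at h3
    exact eq_neg_of_add_eq_zero_left h3

/-- `e_i f_i + c f_i e_i` commutes with the other hyperbolic pairs. -/
theorem Gmk_tor (hg : Good a b g P o) {i j : Fin s} (hij : i ≠ j) (c : K) (hc : c ≠ 0) :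
    (Tor hg.frame i c hc : Matrix l l K) * g (ie j) =
      g (ie j) * (Tor hg.frame i c hc : Matrix l l K) ∧
    (Tor hg.frame i c hc : Matrix l l K) * g (jf j) =
      g (jf j) * (Tor hg.frame i c hc : Matrix l l K) := by
  obtain ⟨⟨h1, h2⟩, h3, h4⟩ := Gmk_anti hg hij.symm
  exact ⟨Tor_anti hg.frame i c hc h1 h2, Tor_anti hg.frame i c hc h3 h4⟩

/-- **The step.** -/
theorem Gmk_step (act : ActStmt) (g1c : G1cStmt) (tra : TraStmt) (hg : Good a b g P o)
    (j : Fin s) {u : GL l K} {ν : K} (hG : Gam a g o (j.val + 1) u)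
    (hν : rv P (u : Matrix l l K) * (u : Matrix l l K) = ν • 1) :
    ∃ h ∈ G1 g o j, ∃ (c : K) (hc : c ≠ 0), Gam a g o j.val (Tor hg.frame j c hc * h * u) ∧
      rv P ((Tor hg.frame j c hc * h * u : GL l K) : Matrix l l K) *
        ((Tor hg.frame j c hc * h * u : GL l K) : Matrix l l K) = (c * ν) • 1 := by
  have hF := hg.frame
  obtain ⟨x, hx⟩ := hG.nrm (bv K (ie j))
  obtain ⟨y, hy⟩ := hG.nrm (bv K (jf j))
  have hmem := (act K l a b s g P o hg).2.2.2.2.2.1 j
  have hcomm : ∀ i : Fin s, j.val + 1 ≤ i.val →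
      (u : Matrix l l K) * g (ie i) = g (ie i) * (u : Matrix l l K) ∧
      (u : Matrix l l K) * g (jf i) = g (jf i) * (u : Matrix l l K) :=
    fun i hi => ⟨hG.ce i hi, hG.cf i hi⟩
  have hxm : x ∈ Vk o s K (j.val + 1) := Tra_mem act hg hmem.1 hx hcomm hG.w0
  have hym : y ∈ Vk o s K (j.val + 1) := Tra_mem act hg hmem.2 hy hcomm hG.w0
  have hxq : qf a b x = 0 := by rw [Tra_Q hg hx, qf_ie]
  have hyq : qf a b y = 0 := by rw [Tra_Q hg hy, qf_jf]
  have hxy : bf a b x y = 1 := by rw [Tra_B hg hx hy, bf_jf, bv_apply, if_pos rfl]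
  obtain ⟨h, hh, c, hc, h1, h2⟩ := tra K l a b s g P o hg j x hxm y hym hxq hyq hxy
  have hS := (g1c K l a b s g P o hg j).1 hh
  have h3 := (g1c K l a b s g P o hg j).2.1 h hh
  rw [mem_SG] at hS
  rw [gv_bv] at hx hy
  set t := Tor hF j c hc with ht
  have ee : ((t * h * u : GL l K) : Matrix l l K) * g (ie j) =
      g (ie j) * ((t * h * u : GL l K) : Matrix l l K) := by
    have e1 : (h : Matrix l l K) * gv g x = (c • g (ie j)) * (h : Matrix l l K) := by
      rw [h1, Matrix.smul_mul]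
    have e2 : (t : Matrix l l K) * (c • g (ie j)) = g (ie j) * (t : Matrix l l K) := by
      rw [Matrix.mul_smul, ht, Tor_e hF, Matrix.smul_mul, smul_smul, mul_inv_cancel₀ hc, one_smul]
    rw [mul_assoc]
    exact Tra_comp (Tra_comp hx e1) e2
  have ff : ((t * h * u : GL l K) : Matrix l l K) * g (jf j) =
      g (jf j) * ((t * h * u : GL l K) : Matrix l l K) := by
    have e1 : (h : Matrix l l K) * gv g y = (c⁻¹ • g (jf j)) * (h : Matrix l l K) := by
      rw [h2, Matrix.smul_mul]
    have e2 : (t : Matrix l l K) * (c⁻¹ • g (jf j)) = g (jf j) * (t : Matrix l l K) := by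
      rw [Matrix.mul_smul, ht, Tor_f hF, Matrix.smul_mul, smul_smul, inv_mul_cancel₀ hc, one_smul]
    rw [mul_assoc]
    exact Tra_comp (Tra_comp hy e1) e2
  have comm3 : ∀ M : Matrix l l K, (t : Matrix l l K) * M = M * (t : Matrix l l K) →
      (h : Matrix l l K) * M = M * (h : Matrix l l K) →
      (u : Matrix l l K) * M = M * (u : Matrix l l K) →
      ((t * h * u : GL l K) : Matrix l l K) * M = M * ((t * h * u : GL l K) : Matrix l l K) := by
    intro M m1 m2 m3
    rw [mul_assoc]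
    exact Tra_comp (Tra_comp m3 m2) m1
  refine ⟨h, hh, c, hc, ⟨?_, fun ho => ?_, fun v => ?_, fun v => ?_, fun i hi => ?_,
    fun i hi => ?_⟩, ?_⟩
  · refine comm3 _ ?_ hS.1 hG.zt
    have e1 := hg.zt_comm (bv K (ie j)) (bv K (jf j))
    have e2 := hg.zt_comm (bv K (jf j)) (bv K (ie j))
    rw [gv_bv, gv_bv] at e1 e2
    rw [ht, Tor_val, Matrix.add_mul, Matrix.mul_add, Matrix.smul_mul, Matrix.mul_smul, e1, e2]
  · refine comm3 _ ?_ (hS.2.2.2.2 ho) (hG.w0 ho)
    have hz : ∀ i : Ix s, i ≠ iw 0 → g i * g (iw 0) = -(g (iw 0) * g i) := by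
      intro i hi
      have e1 := Tra_w0 hg ho (v := bv K i) (by rw [bv_apply, if_neg fun h' => hi h'.symm])
      rwa [gv_bv] at e1
    have e1 := hz (ie j) (by simp)
    have e2 := hz (jf j) (by simp)
    exact Tor_anti hF j c hc (by rw [e1, neg_neg]) (by rw [e2, neg_neg])
  · obtain ⟨v1, hv1⟩ := hG.nrm v
    obtain ⟨v2, hv2⟩ := hS.2.2.1 v1
    have h5 := Tra_comp (Tra_comp hv1 hv2) (Tor_nrm hg j c hc v2)
    rw [← mul_assoc] at h5
    exact ⟨_, h5⟩
  · obtain ⟨v1, hv1⟩ := Tor_nrm' hg j c hc v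
    obtain ⟨v2, hv2⟩ := hS.2.2.2.1 v1
    obtain ⟨v3, hv3⟩ := hG.nrm' v2
    refine ⟨v3, ?_⟩
    rw [Units.val_mul, Units.val_mul, ← Matrix.mul_assoc, ← Matrix.mul_assoc, hv1,
      Matrix.mul_assoc (t : Matrix l l K), hv2, ← Matrix.mul_assoc, Matrix.mul_assoc _ (gv g v2),
      hv3, ← Matrix.mul_assoc]
  · rcases eq_or_ne i j with rfl | hij
    · exact ee
    · have hlt : j.val + 1 ≤ i.val := by
        have h4 : i.val ≠ j.val := fun h' => hij (Fin.ext h')
        omega
      exact comm3 _ (Gmk_tor hg hij.symm c hc).1 (h3 i hlt).1 (hcomm i hlt).1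
  · rcases eq_or_ne i j with rfl | hij
    · exact ff
    · have hlt : j.val + 1 ≤ i.val := by
        have h4 : i.val ≠ j.val := fun h' => hij (Fin.ext h')
        omega
      exact comm3 _ (Gmk_tor hg hij.symm c hc).2 (h3 i hlt).2 (hcomm i hlt).2
  · have e1 := Tor_rv hg j c hc
    rw [← ht] at e1
    calc rv P ((t * h * u : GL l K) : Matrix l l K) * ((t * h * u : GL l K) : Matrix l l K) =
        rv P (u : Matrix l l K) * (rv P (h : Matrix l l K) * (rv P (t : Matrix l l K) *
          (t : Matrix l l K)) * (h : Matrix l l K)) * (u : Matrix l l K) := by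
          rw [Units.val_mul, Units.val_mul, rv_mul, rv_mul]
          simp only [Matrix.mul_assoc]
      _ = (c * ν) • 1 := by
        rw [e1, Matrix.mul_smul, Matrix.mul_one, Matrix.smul_mul, hS.2.1, Matrix.mul_smul,
          Matrix.mul_one, Matrix.smul_mul, hν, smul_smul]

end

theorem tGmk (act : ActStmt) (g1c : G1cStmt) (sie : SieStmt) (nwe : NweStmt) (tra : TraStmt)
    (gm0 : Gm0Stmt) : GmkStmt := by
  intro K _ l _ _ a b s g P o hg k
  have hF := hg.frame
  have hne := hg.nonempty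
  induction k with
  | zero =>
    intro _ u ν hG hν
    exact gm0 K l a b s g P o hg u ν hG hν
  | succ k ih =>
    intro hk u ν hG hν
    have hν0 := Gm0_ne P hν
    let j : Fin (s + 1) := ⟨k, by omega⟩
    have hjl : j ≠ Fin.last s := by
      intro h
      have := congrArg Fin.val h
      simp only [j, Fin.val_last] at this
      omega
    have hjlt : j < Fin.last s := by
      change k < s
      omega
    obtain ⟨h, hh, c, hc, hG2, hν2⟩ := Gmk_step act g1c tra hg j hG hν
    set t := Tor hF j c hc with ht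
    obtain ⟨u', hu', h1⟩ := ih (by omega) _ _ hG2 hν2
    -- `h` is in `G1`
    have hhG : h ∈ G1 g o (Fin.last s) := by
      have hle : G1 g o j ≤ G1 g o (Fin.last s) := by
        rw [G1, Subgroup.closure_le]
        rintro w ⟨v, hv, hw | hw⟩
        · have hm := (act K l a b (s + 1) g P o hg).2.2.2.1 (k + 1) s (by omega)
          refine sie K l a b (s + 1) g P o hg (Fin.last s) (bv K (ie j))
            (hm ((act K l a b (s + 1) g P o hg).2.2.2.2.2.1 j).1) v
            ((act K l a b (s + 1) g P o hg).2.2.2.1 k s (by omega) hv) (qf_ie a b j) ?_ w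
            (by rw [gv_bv]; exact hw)
          rw [bf_comm, bf_ie]
          exact (hv.2 j le_rfl).2
        · have hm := (act K l a b (s + 1) g P o hg).2.2.2.1 (k + 1) s (by omega)
          refine sie K l a b (s + 1) g P o hg (Fin.last s) (bv K (jf j))
            (hm ((act K l a b (s + 1) g P o hg).2.2.2.2.2.1 j).2) v
            ((act K l a b (s + 1) g P o hg).2.2.2.1 k s (by omega) hv) (qf_jf a b j) ?_ w
            (by rw [gv_bv]; exact hw)
          rw [bf_comm, bf_jf]
          exact (hv.2 j le_rfl).1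
      exact hle hh
    -- the torus elements
    obtain ⟨w, hw, h2⟩ : ∃ w ∈ G1 g o (Fin.last s), (w : Matrix l l K) =
        (t : Matrix l l K) * (Tor hF (Fin.last s) c⁻¹ (inv_ne_zero hc) : Matrix l l K) := by
      have hm := (act K l a b (s + 1) g P o hg).2.2.2.1 (k + 1) s (by omega)
      have me := hm ((act K l a b (s + 1) g P o hg).2.2.2.2.2.1 j).1
      have mf := hm ((act K l a b (s + 1) g P o hg).2.2.2.2.2.1 j).2
      have q1 : ∀ d : K, qf a b (bv K (ie j) + d • bv K (jf j)) = d := by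
        intro d
        rw [qf_add, qf_smul, qf_ie, qf_jf, bf_smul_right, bf_jf, bv_apply, if_pos rfl]
        ring
      have q2 : qf a b (bv K (ie j) + bv K (jf j)) = 1 := by
        have := q1 1
        rwa [one_smul] at this
      obtain ⟨w, hw, h2⟩ := (nwe K l a b (s + 1) g P o hg (Fin.last s)).2
        (bv K (ie j) + c • bv K (jf j)) ((Vk o (s + 1) K s).add_mem me
          ((Vk o (s + 1) K s).smul_mem _ mf)) (bv K (ie j) + bv K (jf j))
        ((Vk o (s + 1) K s).add_mem me mf) (by rw [q1]; exact hc) (by rw [q2]; exact one_ne_zero)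
      refine ⟨w, hw, ?_⟩
      rw [h2, q1, q2, mul_one, ht, Tor_val, Tor_val, gv_add, gv_add, gv_smul, gv_bv, gv_bv]
      congr 1
      rw [Matrix.add_mul, Matrix.mul_add, Matrix.mul_add, Matrix.smul_mul, Matrix.smul_mul,
        hF.ee, hF.ff, smul_zero, add_zero, zero_add]
    have h2' : w = t * Tor hF (Fin.last s) c⁻¹ (inv_ne_zero hc) := Units.ext h2
    have hcν : c * ν ≠ 0 := mul_ne_zero hc hν0
    have h1' : u' = t * h * u * Tor hF (Fin.last s) (c * ν)⁻¹ (inv_ne_zero hcν) := by
      apply Units.ext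
      rw [h1, Units.val_mul _ (Tor hF (Fin.last s) (c * ν)⁻¹ (inv_ne_zero hcν)), Tor_val]
    refine ⟨h⁻¹ * w⁻¹ * u', mul_mem (mul_mem (inv_mem hhG) (inv_mem hw)) hu', ?_⟩
    have key : h⁻¹ * w⁻¹ * u' = u * Tor hF (Fin.last s) ν⁻¹ (inv_ne_zero hν0) := by
      -- `t(c)` commutes with everything
      have e0 : w⁻¹ = Tor hF (Fin.last s) c hc * t⁻¹ := by
        rw [h2', _root_.mul_inv_rev, Tor_inv]
        congr 1
        apply Units.ext
        rw [Tor_val, Tor_val, inv_inv]
      have ct : Commute (Tor hF (Fin.last s) c hc) t := by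
        apply Units.ext
        obtain ⟨m1, m2⟩ := Gmk_tor hg hjl c hc
        exact Tor_comm hF (Fin.last s) c hc m1 m2
      have ch : Commute (Tor hF (Fin.last s) c hc) h := by
        apply Units.ext
        obtain ⟨m1, m2⟩ := (g1c K l a b (s + 1) g P o hg j).2.1 h hh (Fin.last s) hjlt
        exact Tor_comm hF (Fin.last s) c hc m1 m2
      have cu : Commute (Tor hF (Fin.last s) c hc) u := by
        apply Units.ext
        refine Tor_comm hF (Fin.last s) c hc (hG.ce _ ?_) (hG.cf _ ?_)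
        · rw [Fin.val_last]; exact hk
        · rw [Fin.val_last]; exact hk
      have e1 : Tor hF (Fin.last s) c hc * Tor hF (Fin.last s) (c * ν)⁻¹ (inv_ne_zero hcν) =
          Tor hF (Fin.last s) ν⁻¹ (inv_ne_zero hν0) := by
        rw [Tor_mul']
        apply Units.ext
        rw [Tor_val, Tor_val]
        congr 2
        field_simp
      rw [h1', e0, ← e1]
      calc h⁻¹ * (Tor hF (Fin.last s) c hc * t⁻¹) *
            (t * h * u * Tor hF (Fin.last s) (c * ν)⁻¹ (inv_ne_zero hcν)) =
          h⁻¹ * (Tor hF (Fin.last s) c hc * h) * u *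
            Tor hF (Fin.last s) (c * ν)⁻¹ (inv_ne_zero hcν) := by group
        _ = Tor hF (Fin.last s) c hc * u * Tor hF (Fin.last s) (c * ν)⁻¹ (inv_ne_zero hcν) := by
          rw [ch.eq]
          group
        _ = _ := by rw [cu.eq, mul_assoc]
    rw [key, Units.val_mul, Tor_val]

end MP7Z.Ort
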