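import Pool.Agent.Lib.MP_7f581e_Z.Ort.SpecE

/-!
# Group theory: quotients by the centre
-/

set_option autoImplicit false

namespace MP7Z.Ort

/-- In a perfect group an element which is central modulo the centre is central. -/
theorem Gru_grun {H : Type} [Group H] (hperf : commutator H = ⊤) (h : H)
    (h1 : ∀ h' : H, h * h' * h⁻¹ * h'⁻¹ ∈ Subgroup.center H) : h ∈ Subgroup.center H := by
  let φ : H →* Subgroup.center H :=
    { toFun := fun h' => ⟨h * h' * h⁻¹ * h'⁻¹, h1 h'⟩
      map_one' := Subtype.ext (by
        change h * 1 * h⁻¹ * 1⁻¹ = 1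
        group)
      map_mul' := by
        intro x y
        apply Subtype.ext
        change h * (x * y) * h⁻¹ * (x * y)⁻¹ = (h * x * h⁻¹ * x⁻¹) * (h * y * h⁻¹ * y⁻¹)
        have h2 := Subgroup.mem_center_iff.1 (h1 y) x
        calc h * (x * y) * h⁻¹ * (x * y)⁻¹ =
            (h * x * h⁻¹ * x⁻¹) * (x * (h * y * h⁻¹ * y⁻¹)) * x⁻¹ := by group
          _ = _ := by
            rw [h2]
            group }
  have h3 : commutator H ≤ φ.ker := by
    rw [commutator_def, Subgroup.commutator_le]
    intro a _ b _
    rw [MonoidHom.mem_ker, map_commutatorElement, commutatorElement_eq_one_iff_mul_comm]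
    exact Subtype.ext (Subgroup.mem_center_iff.1 (φ b).2 (φ a : H))
  rw [hperf] at h3
  rw [Subgroup.mem_center_iff]
  intro h'
  have h4 : φ h' = 1 := h3 (Subgroup.mem_top h')
  have h5 : h * h' * h⁻¹ * h'⁻¹ = 1 := congrArg Subtype.val h4
  calc h' * h = (h * h' * h⁻¹ * h'⁻¹) * (h' * h) := by rw [h5, one_mul]
    _ = h * h' := by group

theorem tGru : GruStmt := by
  intro H O _ _ ρ hperf hker hrange
  have hmem : ∀ h, ρ h ∈ commutator O := fun h => by
    rw [← hrange]
    exact ⟨h, rfl⟩
  let ρ' : H →* commutator O := ρ.codRestrict (commutator O) hmem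
  have hsurj : Function.Surjective ρ' := by
    rintro ⟨y, hy⟩
    have hy' := hy
    rw [← hrange] at hy'
    obtain ⟨h, hh⟩ := hy'
    exact ⟨h, Subtype.ext hh⟩
  let π : H →* commutator O ⧸ Subgroup.center (commutator O) :=
    (QuotientGroup.mk' (Subgroup.center (commutator O))).comp ρ'
  have hπ : Function.Surjective π := (QuotientGroup.mk'_surjective _).comp hsurj
  have hk : π.ker = Subgroup.center H := by
    ext h
    rw [MonoidHom.mem_ker]
    change ((ρ' h : commutator O) : commutator O ⧸ Subgroup.center (commutator O)) = 1 ↔ _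
    rw [QuotientGroup.eq_one_iff]
    constructor
    · intro hc
      rw [Subgroup.mem_center_iff] at hc
      refine Gru_grun hperf h fun h' => ?_
      apply hker
      have h3 : ρ h' * ρ h = ρ h * ρ h' := congrArg Subtype.val (hc (ρ' h'))
      rw [map_mul, map_mul, map_mul, map_inv, map_inv, ← h3]
      group
    · intro hc
      rw [Subgroup.mem_center_iff] at hc ⊢
      intro y
      obtain ⟨h', rfl⟩ := hsurj y
      rw [← map_mul, ← map_mul, hc h']
  exact ⟨((QuotientGroup.quotientMulEquivOfEq hk.symm).trans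
    (QuotientGroup.quotientKerEquivOfSurjective π hπ)).symm⟩

end MP7Z.Ort
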