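import Pool.Agent.Lib.MP_7f581e_Z.Ort.SpecA

/-!
# Splitting off a hyperbolic plane
-/

set_option autoImplicit false

namespace MP7Z.Ort

open TensorProduct MP7fS Matrix

theorem tHyp : HypStmt := by
  intro K W _ _ _ _ q o w hq ho x hx hx0 hwx
  -- rules for the polar form
  have padd : ∀ u v v', QuadraticMap.polar q u (v + v') =
      QuadraticMap.polar q u v + QuadraticMap.polar q u v' := fun u v v' =>
    QuadraticMap.polar_add_right q u v v'
  have psmul : ∀ u (c : K) v, QuadraticMap.polar q u (c • v) = c * QuadraticMap.polar q u v :=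
    fun u c v => QuadraticMap.polar_smul_right q c u v
  have psub : ∀ u v v', QuadraticMap.polar q u (v - v') =
      QuadraticMap.polar q u v - QuadraticMap.polar q u v' := fun u v v' =>
    QuadraticMap.polar_sub_right q u v v'
  have pcomm : ∀ u v, QuadraticMap.polar q u v = QuadraticMap.polar q v u :=
    QuadraticMap.polar_comm q
  have pself : ∀ u, QuadraticMap.polar q u u = 2 * q u := fun u => by
    rw [QuadraticMap.polar_self, two_smul, two_mul]
  have hxx : QuadraticMap.polar q x x = 0 := by rw [pself, hx0, mul_zero]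
  -- a vector not orthogonal to `x`
  obtain ⟨y₀, hy₀, hwy₀⟩ : ∃ y₀, QuadraticMap.polar q x y₀ ≠ 0 ∧
      (o → QuadraticMap.polar q w y₀ = 0) := by
    obtain ⟨y₀, hy₀⟩ : ∃ y, QuadraticMap.polar q x y ≠ 0 := by
      by_contra h
      push Not at h
      exact hx (hq x h)
    by_cases h : o
    · obtain ⟨h1, h2⟩ := ho h
      refine ⟨y₀ - (QuadraticMap.polar q w y₀ / 2) • w, ?_, fun _ => ?_⟩
      · rw [psub, psmul, pcomm x w, hwx h, mul_zero, sub_zero]
        exact hy₀
      · rw [psub, psmul, pself, h1, mul_one, div_mul_cancel₀ _ h2, sub_self]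
    · exact ⟨y₀, hy₀, fun h' => absurd h' h⟩
  obtain ⟨y₁, hy₁⟩ : ∃ y₁, y₁ = (QuadraticMap.polar q x y₀)⁻¹ • y₀ := ⟨_, rfl⟩
  have h1 : QuadraticMap.polar q x y₁ = 1 := by rw [hy₁, psmul, inv_mul_cancel₀ hy₀]
  have hw1 : o → QuadraticMap.polar q w y₁ = 0 := fun h => by rw [hy₁, psmul, hwy₀ h, mul_zero]
  obtain ⟨y, hy⟩ : ∃ y, y = y₁ - q y₁ • x := ⟨_, rfl⟩
  have hxy : QuadraticMap.polar q x y = 1 := by rw [hy, psub, psmul, hxx, mul_zero, sub_zero, h1]
  have hqy : q y = 0 := by
    have e1 : y = y₁ + (-q y₁) • x := by rw [hy, neg_smul, sub_eq_add_neg]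
    rw [e1, QuadraticMap.map_add q, QuadraticMap.map_smul, hx0, smul_zero, add_zero, psmul,
      pcomm, h1]
    ring
  have hyy : QuadraticMap.polar q y y = 0 := by rw [pself, hqy, mul_zero]
  have hyx : QuadraticMap.polar q y x = 1 := by rw [pcomm, hxy]
  let φ : W →ₗ[K] K × K :=
    { toFun := fun z => (QuadraticMap.polar q x z, QuadraticMap.polar q y z)
      map_add' := fun u v => by rw [padd, padd]; rfl
      map_smul' := fun c v => by rw [psmul, psmul]; rfl }
  have hφ : ∀ z, φ z = (QuadraticMap.polar q x z, QuadraticMap.polar q y z) := fun _ => rfl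
  have hmem : ∀ z, z ∈ LinearMap.ker φ ↔
      QuadraticMap.polar q x z = 0 ∧ QuadraticMap.polar q y z = 0 := by
    intro z
    rw [LinearMap.mem_ker, hφ, Prod.mk_eq_zero]
  refine ⟨y, LinearMap.ker φ, hqy, hxy, fun h => ?_, hmem, ?_, ?_⟩
  · rw [hy, psub, psmul, hwx h, hw1 h, mul_zero, sub_zero]
  · have hr : LinearMap.range φ = ⊤ := by
      rw [LinearMap.range_eq_top]
      rintro ⟨c, d⟩
      refine ⟨c • y + d • x, ?_⟩
      rw [hφ, padd, padd, psmul, psmul, psmul, psmul, hxy, hxx, hyy, hyx]
      simp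
    have h2 := LinearMap.finrank_range_add_finrank_ker φ
    rw [hr, finrank_top, Module.finrank_prod, Module.finrank_self] at h2
    omega
  · intro z hz
    have hzU := (hmem z).1 z.2
    apply Subtype.ext
    apply hq
    intro v
    have hv' : v - QuadraticMap.polar q v y • x - QuadraticMap.polar q v x • y ∈
        LinearMap.ker φ := by
      rw [hmem]
      constructor
      · rw [psub, psub, psmul, psmul, hxx, hxy, mul_zero, sub_zero, mul_one, pcomm v x, sub_self]
      · rw [psub, psub, psmul, psmul, hyx, hyy, mul_zero, sub_zero, mul_one, pcomm v y, sub_self]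
    have h2 := hz ⟨_, hv'⟩
    change QuadraticMap.polar q z (v - QuadraticMap.polar q v y • x -
      QuadraticMap.polar q v x • y) = 0 at h2
    rw [psub, psub, psmul, psmul, pcomm z x, pcomm z y, hzU.1, hzU.2, mul_zero, mul_zero,
      sub_zero, sub_zero] at h2
    exact h2

end MP7Z.Ort
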