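import Pool.Agent.Lib.MP_7f581e_Z.Ort.Tor

/-!
# The theorem of Lang: correction of the norm
-/

set_option autoImplicit false

namespace MP7Z.Ort

open TensorProduct MP7fS Matrix

theorem tLaC (trf : TrfStmt) : LaCStmt := by
  intro p _ k _ _ l _ _ s m a b g P o hg hs hm hgφ hPφ u hu y hy hz hn hn' hw
  have hS := mem_SG.1 hu
  have hF := hg.frame
  have hne := hg.nonempty
  set φ := iterateFrobenius k p m with hφ
  have hyM : (y : Matrix l l k).map φ = (u : Matrix l l k) * (y : Matrix l l k) :=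
    congrArg (fun v : GL l k => (v : Matrix l l k)) hy
  -- the norm
  have hcomm : ∀ i, rv P (y : Matrix l l k) * (y : Matrix l l k) * g i =
      g i * (rv P (y : Matrix l l k) * (y : Matrix l l k)) := by
    intro i
    obtain ⟨v, hv⟩ := hn i
    have h1 := congrArg (rv P) hv
    rw [rv_mul, rv_mul, hg.rev, hg.rv_gv] at h1
    rw [Matrix.mul_assoc, hv, ← Matrix.mul_assoc, ← h1, Matrix.mul_assoc]
  obtain ⟨ν, hν⟩ := (trf.1 k l a b s g hg.disc.ne_zero hg.card hF).2.1 _ hcomm
  have hν0 : ν ≠ 0 := by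
    rintro rfl
    rw [zero_smul] at hν
    have h1 : rv P (y : Matrix l l k) = 0 := by
      calc rv P (y : Matrix l l k) = rv P (y : Matrix l l k) * (y : Matrix l l k) *
            ((y⁻¹ : GL l k) : Matrix l l k) := by
              rw [Matrix.mul_assoc, Units.mul_inv, Matrix.mul_one]
        _ = 0 := by rw [hν, Matrix.zero_mul]
    have h2 : rv P ((y⁻¹ : GL l k) : Matrix l l k) * rv P (y : Matrix l l k) = 1 := by
      rw [← rv_mul, Units.mul_inv, rv_one]
    rw [h1, Matrix.mul_zero] at h2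
    exact zero_ne_one h2
  have hνφ : φ ν = ν := by
    apply smul_one_inj (l := l)
    have h1 : (rv P (y : Matrix l l k) * (y : Matrix l l k)).map φ =
        rv P (y : Matrix l l k) * (y : Matrix l l k) := by
      rw [Matrix.map_mul, ← rv_map, hPφ, hyM, rv_mul, Matrix.mul_assoc,
        ← Matrix.mul_assoc (rv P (u : Matrix l l k)), hS.2.1, Matrix.one_mul]
    rw [hν] at h1
    rw [← h1]
    ext i j
    rw [Matrix.map_apply, Matrix.smul_apply, Matrix.smul_apply, smul_eq_mul, smul_eq_mul, map_mul,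
      Matrix.one_apply, apply_ite φ, map_one, map_zero]
  -- the correction
  let i : Fin s := ⟨0, hs⟩
  have hν0' : ν⁻¹ ≠ 0 := inv_ne_zero hν0
  set t := Tor hF i ν⁻¹ hν0' with ht
  have htφ : GeneralLinearGroup.map φ t = t := by
    apply Units.ext
    change (t : Matrix l l k).map φ = (t : Matrix l l k)
    have h1 : ∀ (c : k) (X : Matrix l l k), (c • X).map φ = φ c • X.map φ := by
      intro c X
      ext i j
      exact map_mul φ _ _
    have h2 : ∀ (X Y : Matrix l l k), (X + Y).map φ = X.map φ + Y.map φ := by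
      intro X Y
      ext i j
      exact map_add φ _ _
    rw [ht, Tor_val, h2, h1, Matrix.map_mul, Matrix.map_mul, hgφ, hgφ, map_inv₀, hνφ]
  have hyv : ∀ v : Ix s → k, ∃ v' : Ix s → k, (y : Matrix l l k) * gv g v = gv g v' * (y : Matrix l l k) := by
    choose w hw using hn
    intro v
    refine ⟨∑ i, v i • w i, ?_⟩
    rw [gv_sum, gv, Finset.mul_sum, Finset.sum_mul]
    refine Finset.sum_congr rfl fun i _ => ?_
    rw [gv_smul, Matrix.mul_smul, Matrix.smul_mul, hw]
  have hyv' : ∀ v : Ix s → k, ∃ v' : Ix s → k, gv g v * (y : Matrix l l k) =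
      (y : Matrix l l k) * gv g v' := by
    choose w hw using hn'
    intro v
    refine ⟨∑ i, v i • w i, ?_⟩
    rw [gv_sum, gv, Finset.mul_sum, Finset.sum_mul]
    refine Finset.sum_congr rfl fun i _ => ?_
    rw [gv_smul, Matrix.mul_smul, Matrix.smul_mul, hw]
  refine ⟨y * t, mem_SG.2 ⟨?_, ?_, fun v => ?_, fun v => ?_, fun ho => ?_⟩, ?_⟩
  · refine Tra_comp (x' := zt a s g) ?_ hz
    have e1 := hg.zt_comm (bv k (ie i)) (bv k (jf i))
    have e2 := hg.zt_comm (bv k (jf i)) (bv k (ie i))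
    rw [gv_bv, gv_bv] at e1 e2
    rw [ht, Tor_val, Matrix.add_mul, Matrix.mul_add, Matrix.smul_mul, Matrix.mul_smul, e1, e2]
  · have e1 := Tor_rv hg i ν⁻¹ hν0'
    rw [← ht] at e1
    calc rv P ((y * t : GL l k) : Matrix l l k) * ((y * t : GL l k) : Matrix l l k) =
        rv P (t : Matrix l l k) * (rv P (y : Matrix l l k) * (y : Matrix l l k)) *
          (t : Matrix l l k) := by
          rw [Units.val_mul, rv_mul]
          simp only [Matrix.mul_assoc]
      _ = 1 := by
        rw [hν, Matrix.mul_smul, Matrix.mul_one, Matrix.smul_mul, e1, smul_smul,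
          mul_inv_cancel₀ hν0, one_smul]
  · obtain ⟨v2, hv2⟩ := hyv (v + (((ν⁻¹)⁻¹ - 1) * v (ie i)) • bv k (ie i) +
      ((ν⁻¹ - 1) * v (jf i)) • bv k (jf i))
    exact ⟨v2, Tra_comp (Tor_nrm hg i ν⁻¹ hν0' v) hv2⟩
  · obtain ⟨v1, hv1⟩ := hyv' v
    obtain ⟨v2, hv2⟩ := Tor_nrm' hg i ν⁻¹ hν0' v1
    refine ⟨v2, ?_⟩
    rw [Units.val_mul, ← Matrix.mul_assoc, hv1, Matrix.mul_assoc, hv2, Matrix.mul_assoc]
  · refine Tra_comp (x' := g (iw 0)) ?_ (hw ho)
    have hz0 : ∀ j : Ix s, j ≠ iw 0 → g j * g (iw 0) = -(g (iw 0) * g j) := by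
      intro j hj
      have e1 := Tra_w0 hg ho (v := bv k j) (by rw [bv_apply, if_neg fun h' => hj h'.symm])
      rwa [gv_bv] at e1
    have e1 := hz0 (ie i) (by simp)
    have e2 := hz0 (jf i) (by simp)
    exact Tor_anti hF i _ hν0' (by rw [e1, neg_neg]) (by rw [e2, neg_neg])
  · rw [map_mul, hy, htφ, mul_assoc]

end MP7Z.Ort
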