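import Pool.Agent.Lib.MP_7f581e_Z.Ort.SpecB

/-!
# Weyl elements and pairs of anisotropic vectors
-/

set_option autoImplicit false
set_option linter.unusedSectionVars false

namespace MP7Z.Ort

open TensorProduct MP7fS Matrix

section

variable {K : Type} [Field K] {l : Type} [Fintype l] [DecidableEq l]

theorem Nwe_prod {e f w : Matrix l l K} {q : K} (hq : q ≠ 0) (ee : e * e = 0)
    (ef : e * f + f * e = 1) (we : w * e = -(e * w)) (wf : w * f = -(f * w))
    (ww : w * w = q • 1) :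
    (1 + e * w) * (1 + q⁻¹ • (f * w)) * (1 + e * w) = (e + q⁻¹ • f) * w := by
  have h1 : e * w * (f * w) = -(q • (e * f)) := by
    rw [Matrix.mul_assoc, ← Matrix.mul_assoc w, wf, Matrix.neg_mul, Matrix.mul_neg,
      Matrix.mul_assoc f w w, ww, Matrix.mul_smul, Matrix.mul_one, Matrix.mul_smul]
  have h2 : f * w * (e * w) = -(q • (f * e)) := by
    rw [Matrix.mul_assoc, ← Matrix.mul_assoc w, we, Matrix.neg_mul, Matrix.mul_neg,
      Matrix.mul_assoc e w w, ww, Matrix.mul_smul, Matrix.mul_one, Matrix.mul_smul]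
  have h3 : e * w * (e * w) = 0 := by
    rw [Matrix.mul_assoc, ← Matrix.mul_assoc w, we, Matrix.neg_mul, Matrix.mul_neg,
      ← Matrix.mul_assoc, ← Matrix.mul_assoc, ee, Matrix.zero_mul, Matrix.zero_mul, neg_zero]
  have h4 : e * f * e = e := by
    have h5 : e * (e * f + f * e) = e := by rw [ef, Matrix.mul_one]
    rwa [Matrix.mul_add, ← Matrix.mul_assoc, ee, Matrix.zero_mul, zero_add,
      ← Matrix.mul_assoc] at h5
  have h6 : (1 + e * w) * (1 + q⁻¹ • (f * w)) = 1 + e * w + q⁻¹ • (f * w) - e * f := by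
    rw [Matrix.add_mul, Matrix.one_mul, Matrix.mul_add, Matrix.mul_one, Matrix.mul_smul, h1,
      smul_neg, smul_smul, inv_mul_cancel₀ hq, one_smul]
    abel
  have h7 : e * f * (e * w) = e * w := by rw [← Matrix.mul_assoc, h4]
  rw [h6, Matrix.sub_mul, Matrix.add_mul, Matrix.add_mul, Matrix.one_mul, Matrix.mul_add,
    Matrix.mul_one, h3, Matrix.smul_mul, Matrix.mul_add, Matrix.mul_one, h2, Matrix.mul_add,
    Matrix.mul_one, h7, smul_add, smul_neg, smul_smul, inv_mul_cancel₀ hq, one_smul,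
    Matrix.add_mul, Matrix.smul_mul, ← ef]
  abel

theorem Nwe_pair {e f x y : Matrix l l K} {q r : K} (hr : r ≠ 0) (ee : e * e = 0)
    (ff : f * f = 0) (xe : x * e = -(e * x)) (xf : x * f = -(f * x)) (ye : y * e = -(e * y))
    (yf : y * f = -(f * y)) :
    (e + q⁻¹ • f) * x * ((e + (r⁻¹)⁻¹ • f) * (-(r⁻¹) • y)) =
      x * y * (e * f + (q * r)⁻¹ • (f * e)) := by
  have h1 : x * y * (e * f) = e * f * (x * y) := by
    have h2 : x * y * e = e * (x * y) := by
      rw [Matrix.mul_assoc, ye, Matrix.mul_neg, ← Matrix.mul_assoc, xe, Matrix.neg_mul, neg_neg,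
        Matrix.mul_assoc]
    have h3 : x * y * f = f * (x * y) := by
      rw [Matrix.mul_assoc, yf, Matrix.mul_neg, ← Matrix.mul_assoc, xf, Matrix.neg_mul, neg_neg,
        Matrix.mul_assoc]
    rw [← Matrix.mul_assoc, h2, Matrix.mul_assoc e (x * y), h3, ← Matrix.mul_assoc]
  have h1' : x * y * (f * e) = f * e * (x * y) := by
    have h2 : x * y * e = e * (x * y) := by
      rw [Matrix.mul_assoc, ye, Matrix.mul_neg, ← Matrix.mul_assoc, xe, Matrix.neg_mul, neg_neg,
        Matrix.mul_assoc]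
    have h3 : x * y * f = f * (x * y) := by
      rw [Matrix.mul_assoc, yf, Matrix.mul_neg, ← Matrix.mul_assoc, xf, Matrix.neg_mul, neg_neg,
        Matrix.mul_assoc]
    rw [← Matrix.mul_assoc, h3, Matrix.mul_assoc f (x * y), h2, ← Matrix.mul_assoc]
  rw [inv_inv]
  have h4 : x * ((e + r • f) * (-(r⁻¹) • y)) = (r⁻¹ • e + f) * (x * y) := by
    rw [Matrix.mul_smul, Matrix.mul_smul, ← Matrix.mul_assoc, Matrix.mul_add, Matrix.mul_smul, xe,
      xf, ← Matrix.smul_mul, neg_smul, smul_add, smul_neg, smul_neg, smul_neg, smul_smul,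
      inv_mul_cancel₀ hr, one_smul, neg_add, neg_neg, neg_neg, Matrix.add_mul, Matrix.add_mul,
      Matrix.smul_mul, Matrix.smul_mul, Matrix.mul_assoc, Matrix.mul_assoc]
  have h5 : x * y * (e * f + (q * r)⁻¹ • (f * e)) = (e * f + (q * r)⁻¹ • (f * e)) * (x * y) := by
    rw [Matrix.mul_add, Matrix.mul_smul, h1, h1', ← Matrix.smul_mul, ← Matrix.add_mul]
  rw [Matrix.mul_assoc (e + q⁻¹ • f) x, h4, ← Matrix.mul_assoc, h5]
  congr 1
  rw [Matrix.mul_add, Matrix.mul_smul, Matrix.add_mul, Matrix.add_mul, Matrix.smul_mul, ee,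
    Matrix.smul_mul, ff, smul_zero, zero_add, add_zero, smul_smul, mul_inv, mul_comm r⁻¹]
  abel

end

theorem tNwe (act : ActStmt) (g1c : G1cStmt) : NweStmt := by
  intro K _ l _ _ a b s g P o hg k
  have hF := hg.frame
  have hee := hF.ee k
  have hff := hF.ff k
  have hef := hF.ef k
  have one : ∀ w ∈ Vk o s K k.val, qf a b w ≠ 0 → ∃ u ∈ G1 g o k,
      (u : Matrix l l K) = (g (ie k) + (qf a b w)⁻¹ • g (jf k)) * gv g w := by
    intro w hw hq
    obtain ⟨A, hA, hA1, -⟩ := (g1c K l a b s g P o hg k).2.2.1 w hw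
    obtain ⟨B, hB, hB1, -⟩ := (g1c K l a b s g P o hg k).2.2.2 ((qf a b w)⁻¹ • w)
      ((Vk o s K k.val).smul_mem _ hw)
    obtain ⟨we, wf⟩ := (act K l a b s g P o hg).1 k.val w hw k le_rfl
    refine ⟨A * B * A, mul_mem (mul_mem hA hB) hA, ?_⟩
    rw [Units.val_mul, Units.val_mul, hA1, hB1, gv_smul, Matrix.mul_smul]
    exact Nwe_prod hq hee hef we wf (hF.gv_sq w)
  refine ⟨fun w hw hq => ?_, fun x hx y hy hqx hqy => ?_⟩
  · obtain ⟨u, hu, hu1⟩ := one w hw hq
    obtain ⟨we, wf⟩ := (act K l a b s g P o hg).1 k.val w hw k le_rfl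
    refine ⟨u, hu, hu1, ?_, ?_⟩
    · rw [hu1, Matrix.mul_assoc, we, Matrix.mul_neg, ← Matrix.mul_assoc, ← Matrix.mul_assoc,
        Matrix.mul_add, Matrix.add_mul, hee, Matrix.mul_smul, hff, Matrix.smul_mul, smul_zero,
        add_zero, zero_add, Matrix.smul_mul, neg_smul]
    · rw [hu1, Matrix.mul_assoc, wf, Matrix.mul_neg, ← Matrix.mul_assoc, ← Matrix.mul_assoc,
        Matrix.mul_add, Matrix.add_mul, hee, Matrix.mul_smul, Matrix.smul_mul, hff, smul_zero,
        add_zero, zero_add, Matrix.smul_mul, neg_smul, smul_smul, mul_inv_cancel₀ hq, one_smul]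
  · have hq' : qf a b ((-(qf a b y)⁻¹) • y) = (qf a b y)⁻¹ := by
      rw [qf_smul]
      field_simp
    obtain ⟨u, hu, hu1⟩ := one x hx hqx
    obtain ⟨u', hu', hu1'⟩ := one ((-(qf a b y)⁻¹) • y) ((Vk o s K k.val).smul_mem _ hy)
      (by rw [hq']; exact inv_ne_zero hqy)
    obtain ⟨xe, xf⟩ := (act K l a b s g P o hg).1 k.val x hx k le_rfl
    obtain ⟨ye, yf⟩ := (act K l a b s g P o hg).1 k.val y hy k le_rfl
    refine ⟨u * u', mul_mem hu hu', ?_⟩
    rw [Units.val_mul, hu1, hu1', hq', gv_smul]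
    exact Nwe_pair hqy hee hff xe xf ye yf

end MP7Z.Ort
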