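import Pool.Agent.Lib.MP_7f581e_Z.Ort.SpecE

/-!
# Nondegenerate quadratic forms in odd dimension
-/

set_option autoImplicit false

namespace MP7Z.Ort

open TensorProduct MP7fS Matrix

theorem tOdd (h1 : CheStmt) (h2 : HypStmt) : OddStmt := by
  intro F _ _ s
  induction s with
  | zero =>
    intro W _ _ _ q hq hW h20
    rw [mul_zero, zero_add] at hW
    obtain ⟨x, hx, hx1⟩ := finrank_eq_one_iff'.1 hW
    apply hx
    apply hq
    intro y
    obtain ⟨c, rfl⟩ := hx1 y
    rw [QuadraticMap.polar_smul_right, QuadraticMap.polar_self]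
    have h3 : (2 : F) • q x = 0 := by rw [h20, zero_smul]
    have h4 : (2 : ℕ) • q x = (2 : F) • q x := by
      rw [two_smul, two_smul]
    rw [h4, h3, smul_zero]
  | succ s ih =>
    intro W _ _ _ q hq hW
    obtain ⟨x, hx, hx0⟩ := (h1 F W q).1 (by omega)
    obtain ⟨y, U, -, -, -, -, hU, hUn⟩ := h2 F W q False 0 hq (fun h => h.elim) x hx hx0
      (fun h => h.elim)
    refine ih U (q.comp U.subtype) (fun z hz => ?_) (by omega)
    apply hUn z
    intro z'
    exact hz z'

end MP7Z.Ort
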