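import Pool.Agent.Lib.MP_7f581e_Z.Ort.Cmm

/-!
# The commutator subgroup of the isometry group modulo its centre
-/

set_option autoImplicit false

namespace MP7Z.Ort

open TensorProduct MP7fS Matrix

theorem OmS_cancel {F : Type} [Field F] {s : ℕ} (D : Dat F s) {t : GL (Lx s) F} {v w : Ix s → F}
    (h : D.γ v * (t : Matrix (Lx s) (Lx s) F) = D.γ w * (t : Matrix (Lx s) (Lx s) F)) :
    v = w := by
  apply D.good.gv_inj
  have h1 := congrArg (fun X => X * ((t⁻¹ : GL (Lx s) F) : Matrix (Lx s) (Lx s) F)) h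
  simp only [Matrix.mul_assoc, Units.mul_inv, Matrix.mul_one] at h1
  exact h1

/-- The kernel of the action. -/
theorem OmS_ker (trf : TrfStmt) {F : Type} [Field F] {s : ℕ} (D : Dat F s) (h : D.H)
    (h1 : ∀ v : D.V, ((h : GL (Lx s) F) : Matrix (Lx s) (Lx s) F) * D.γ v =
      D.γ v * ((h : GL (Lx s) F) : Matrix (Lx s) (Lx s) F)) : h ∈ Subgroup.center D.H := by
  have h2 : ∀ i, ((h : GL (Lx s) F) : Matrix (Lx s) (Lx s) F) * D.g i =
      D.g i * ((h : GL (Lx s) F) : Matrix (Lx s) (Lx s) F) := by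
    intro i
    by_cases hi : bv F i ∈ D.V
    · have h3 := h1 ⟨bv F i, hi⟩
      change _ * gv D.g (bv F i) = gv D.g (bv F i) * _ at h3
      rwa [gv_bv] at h3
    · have h4 : D.o ∧ i = iw 0 := by
        by_contra h5
        apply hi
        intro ho
        rw [bv_apply, if_neg]
        intro h6
        exact h5 ⟨ho, h6.symm⟩
      rw [h4.2]
      exact (mem_SG.1 h.2).2.2.2.2 h4.1
  obtain ⟨κ, hκ⟩ := (trf.1 F (Lx s) D.a D.b s D.g D.good.disc.ne_zero D.good.card
    D.good.frame).2.1 _ h2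
  rw [Subgroup.mem_center_iff]
  intro h'
  apply Subtype.ext
  apply Units.ext
  change ((h' : GL (Lx s) F) : Matrix (Lx s) (Lx s) F) *
    ((h : GL (Lx s) F) : Matrix (Lx s) (Lx s) F) =
    ((h : GL (Lx s) F) : Matrix (Lx s) (Lx s) F) *
    ((h' : GL (Lx s) F) : Matrix (Lx s) (Lx s) F)
  rw [hκ, Matrix.mul_smul, Matrix.smul_mul, Matrix.mul_one, Matrix.one_mul]

/-- Elements of `GL` inducing isometries. -/
theorem OmS_lift (gex : GexStmt) (tgg : TggStmt) {F : Type} [Field F] {s : ℕ} (D : Dat F s)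
    {W : Type} [AddCommGroup W] [Module F W] (q : QuadraticForm F W) (j : D.V ≃ₗ[F] W)
    (hj : ∀ v : D.V, q (j v) = D.Q v) (x : isoGroup q) :
    ∃ (t : GL (Lx s) F) (G : (Ix s → F) ≃ₗ[F] (Ix s → F)),
      (∀ v, (t : Matrix (Lx s) (Lx s) F) * D.γ v = D.γ (G v) * (t : Matrix (Lx s) (Lx s) F)) ∧
      (D.o → G (bv F (iw 0)) = bv F (iw 0)) ∧
      (∀ v : D.V, G v = (j.symm ((x : W ≃ₗ[F] W) (j v)) : D.V)) ∧
      ∀ v : D.V, G.symm v = (j.symm (((x⁻¹ : isoGroup q) : W ≃ₗ[F] W) (j v)) : D.V) := by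
  obtain ⟨G, h1, h2, h3⟩ := gex F s D W q j hj x.1 x.2
  obtain ⟨t, ht⟩ := tgg F s D G h1
  refine ⟨t, G, ht, h3, h2, fun v => ?_⟩
  rw [LinearEquiv.symm_apply_eq, h2, LinearEquiv.apply_symm_apply]
  have h4 : (x : W ≃ₗ[F] W) (((x⁻¹ : isoGroup q) : W ≃ₗ[F] W) (j v)) = j v :=
    LinearEquiv.apply_symm_apply (x : W ≃ₗ[F] W) (j v)
  rw [h4, LinearEquiv.symm_apply_apply]

theorem tOmS (gru : GruStmt) (rho : RhoStmt) (gex : GexStmt) (tgg : TggStmt) (cmm : CmmStmt)
    (prf : PrfStmt) (trf : TrfStmt) : OmSStmt := by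
  intro F _ s D W _ _ q j hj
  obtain ⟨ρ, hρ⟩ := rho F (s + 2) D W q j hj
  have hperf : commutator D.H = ⊤ := prf F s D
  refine gru D.H (isoGroup q) ρ hperf ?_ ?_
  · intro h hh
    refine OmS_ker trf D h fun v => ?_
    have h1 := hρ h v
    rw [hh] at h1
    change _ = D.γ (j.symm (j v) : D.V) * _ at h1
    rw [LinearEquiv.symm_apply_apply] at h1
    exact h1
  · apply le_antisymm
    · rw [MonoidHom.range_eq_map, ← hperf, commutator_def, Subgroup.map_commutator,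
        commutator_def]
      exact Subgroup.commutator_mono le_top le_top
    · rw [commutator_def, Subgroup.commutator_le]
      intro x _ x' _
      obtain ⟨t, G, ht, hw, hG, hG'⟩ := OmS_lift gex tgg D q j hj x
      obtain ⟨t', G', ht', hw', hg, hg'⟩ := OmS_lift gex tgg D q j hj x'
      have hc := cmm F (Lx (s + 2)) D.a D.b (s + 2) D.g D.P D.o D.good t t' G G' ht ht' hw hw'
      have hcv := Cmm_mul (Cmm_mul (Cmm_mul ht ht') (Cmm_inv ht)) (Cmm_inv ht')
      obtain ⟨h, hh⟩ : ∃ h : D.H, (h : GL (Lx (s + 2)) F) = t * t' * t⁻¹ * t'⁻¹ := ⟨⟨_, hc⟩, rfl⟩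
      refine ⟨h, ?_⟩
      apply Subtype.ext
      apply LinearEquiv.ext
      intro w
      obtain ⟨v, rfl⟩ := j.surjective w
      apply j.symm.injective
      apply Subtype.ext
      apply OmS_cancel D (t := t * t' * t⁻¹ * t'⁻¹)
      have h1 := hρ h v
      rw [hh] at h1
      have h2 : (G'.symm.trans (G.symm.trans (G'.trans G))) (v : Ix (s + 2) → F) =
          (j.symm (((x * x' * x⁻¹ * x'⁻¹ : isoGroup q) : W ≃ₗ[F] W) (j v)) : D.V) := by
        change G (G' (G.symm (G'.symm v))) = _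
        rw [hg', hG', hg, hG, LinearEquiv.apply_symm_apply, LinearEquiv.apply_symm_apply,
          LinearEquiv.apply_symm_apply]
        rfl
      rw [← h1]
      have h3 := hcv v
      rw [h2] at h3
      exact h3

end MP7Z.Ort
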