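import Pool.Agent.Lib.MP_7f581e_Z.Ort.SpecA

/-!
# Restriction of a frame of operators to the kernel of the last `e`
-/

set_option autoImplicit false

namespace MP7Z.Ort

open TensorProduct MP7fS Matrix

theorem tResF : ResFStmt := by
  intro K W _ _ _ s a b g h
  have hr : IsFrame a b (g ∘ cIx) := h.restrict
  have hpres : ∀ (i : Ix s) (x : W), x ∈ LinearMap.ker (g (ie (Fin.last s))) →
      g (cIx i) x ∈ LinearMap.ker (g (ie (Fin.last s))) := by
    intro i x hx
    rw [LinearMap.mem_ker] at hx ⊢
    have h1 := h.anti_e' i
    have h2 := congrArg (fun f : Module.End K W => f x) h1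
    simp only [LinearMap.add_apply, Module.End.mul_apply, LinearMap.zero_apply] at h2
    rw [hx, map_zero] at h2
    simpa using h2
  refine ⟨fun i => (g (cIx i)).restrict (hpres i), ⟨fun i => ?_, fun i j hij => ?_⟩, fun i x => rfl⟩
  · ext x
    have h1 := congrArg (fun f : Module.End K W => f (x : W)) (hr.sq i)
    exact h1
  · ext x
    have h1 := congrArg (fun f : Module.End K W => f (x : W)) (hr.anti i j hij)
    exact h1

end MP7Z.Ort
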