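import Pool.Agent.Lib.MP_7f581e_Z.Ort.SpecE

/-!
# The action of the spin group on the quadratic space
-/

set_option autoImplicit false

namespace MP7Z.Ort

open TensorProduct MP7fS Matrix

theorem Rho_uniq {F : Type} [Field F] {s : ℕ} (D : Dat F s) {t : GL (Lx s) F} {v w : Ix s → F}
    (h : D.γ v * (t : Matrix (Lx s) (Lx s) F) = D.γ w * (t : Matrix (Lx s) (Lx s) F)) :
    v = w := by
  apply D.good.gv_inj
  have h1 := congrArg (fun X => X * ((t⁻¹ : GL (Lx s) F) : Matrix (Lx s) (Lx s) F)) h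
  simp only [Matrix.mul_assoc, Units.mul_inv, Matrix.mul_one] at h1
  exact h1

/-- Vectors anticommuting with `w₀` are in the quadratic space. -/
theorem Rho_mem {F : Type} [Field F] {s : ℕ} (D : Dat F s) {v : Ix s → F}
    (h : D.o → D.γ v * D.g (iw 0) = -(D.g (iw 0) * D.γ v)) : v ∈ D.V := by
  intro ho
  obtain ⟨ha, h2⟩ := D.good.odd ho
  have := D.good.nonempty
  have h5 := D.good.frame.gv_anti v (bv F (iw 0))
  rw [bf_w0, ha, zero_mul, add_zero, gv_bv] at h5
  have h6 : D.γ v * D.g (iw 0) + D.g (iw 0) * D.γ v = 0 := by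
    rw [h ho, neg_add_cancel]
  have h7 : (2 * v (iw 0)) • (1 : Matrix (Lx s) (Lx s) F) = (0 : F) • 1 := by
    rw [zero_smul, ← h5]
    exact h6
  exact (h2.mul_right_eq_zero).1 (smul_one_inj h7)

theorem Rho_anti {F : Type} [Field F] {s : ℕ} (D : Dat F s) (ho : D.o) {v : Ix s → F}
    (hv : v ∈ D.V) : D.γ v * D.g (iw 0) = -(D.g (iw 0) * D.γ v) := by
  obtain ⟨ha, -⟩ := D.good.odd ho
  have h5 := D.good.frame.gv_anti v (bv F (iw 0))
  rw [bf_w0, hv ho, ha, mul_zero, zero_mul, add_zero, zero_smul, gv_bv] at h5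
  exact eq_neg_of_add_eq_zero_left h5

theorem Rho_key {F : Type} [Field F] {s : ℕ} (D : Dat F s) (h : D.H) (v : D.V) :
    ∃ v' : D.V, ((h : GL (Lx s) F) : Matrix (Lx s) (Lx s) F) * D.γ v =
      D.γ v' * ((h : GL (Lx s) F) : Matrix (Lx s) (Lx s) F) := by
  obtain ⟨v', hv'⟩ := (mem_SG.1 h.2).2.2.1 v
  refine ⟨⟨v', Rho_mem D fun ho => ?_⟩, hv'⟩
  have hw := (mem_SG.1 h.2).2.2.2.2 ho
  have h1 := Rho_anti D ho v.2
  set H : Matrix (Lx s) (Lx s) F := ((h : GL (Lx s) F) : Matrix (Lx s) (Lx s) F) with hH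
  have h2 : D.γ v' * D.g (iw 0) * H = -(D.g (iw 0) * D.γ v') * H := by
    calc D.γ v' * D.g (iw 0) * H = D.γ v' * (H * D.g (iw 0)) := by rw [hw, Matrix.mul_assoc]
      _ = H * (D.γ v * D.g (iw 0)) := by rw [← Matrix.mul_assoc, ← hv', Matrix.mul_assoc]
      _ = -(H * D.g (iw 0) * D.γ v) := by rw [h1, Matrix.mul_neg, Matrix.mul_assoc]
      _ = -(D.g (iw 0) * (H * D.γ v)) := by rw [hw, Matrix.mul_assoc]
      _ = _ := by rw [hv', ← Matrix.mul_assoc, Matrix.neg_mul]
  have h3 := congrArg (fun X => X * (((h : GL (Lx s) F)⁻¹ : GL (Lx s) F) :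
    Matrix (Lx s) (Lx s) F)) h2
  simp only [hH, Matrix.mul_assoc, Units.mul_inv, Matrix.mul_one] at h3
  exact h3

theorem tRho : RhoStmt := by
  intro F _ s D W _ _ q j hj
  choose R₀ hR₀ using Rho_key D
  let R : D.H → (D.V →ₗ[F] D.V) := fun h =>
    { toFun := R₀ h
      map_add' := by
        intro v w
        apply Subtype.ext
        apply Rho_uniq D (t := h)
        rw [← hR₀]
        change ((h : GL (Lx s) F) : Matrix (Lx s) (Lx s) F) * gv D.g (v.1 + w.1) =
          gv D.g ((R₀ h v).1 + (R₀ h w).1) * ((h : GL (Lx s) F) : Matrix (Lx s) (Lx s) F)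
        rw [gv_add, gv_add, Matrix.mul_add, Matrix.add_mul, ← hR₀, ← hR₀]
      map_smul' := by
        intro c v
        apply Subtype.ext
        apply Rho_uniq D (t := h)
        rw [← hR₀]
        change ((h : GL (Lx s) F) : Matrix (Lx s) (Lx s) F) * gv D.g (c • v.1) =
          gv D.g (c • (R₀ h v).1) * ((h : GL (Lx s) F) : Matrix (Lx s) (Lx s) F)
        rw [gv_smul, gv_smul, Matrix.mul_smul, Matrix.smul_mul, ← hR₀] }
  have hR : ∀ (h : D.H) (v : D.V), ((h : GL (Lx s) F) : Matrix (Lx s) (Lx s) F) * D.γ v =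
      D.γ (R h v) * ((h : GL (Lx s) F) : Matrix (Lx s) (Lx s) F) := hR₀
  have hmul : ∀ (h h' : D.H) (v : D.V), R (h * h') v = R h (R h' v) := by
    intro h h' v
    apply Subtype.ext
    apply Rho_uniq D (t := ((h * h' : D.H) : GL (Lx s) F))
    rw [← hR]
    change ((h : GL (Lx s) F) : Matrix (Lx s) (Lx s) F) *
      ((h' : GL (Lx s) F) : Matrix (Lx s) (Lx s) F) * D.γ v.1 = D.γ (R h (R h' v)).1 *
      (((h : GL (Lx s) F) : Matrix (Lx s) (Lx s) F) *
      ((h' : GL (Lx s) F) : Matrix (Lx s) (Lx s) F))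
    rw [Matrix.mul_assoc, hR h', ← Matrix.mul_assoc, hR h, Matrix.mul_assoc]
  have hone : ∀ v : D.V, R 1 v = v := by
    intro v
    apply Subtype.ext
    apply Rho_uniq D (t := ((1 : D.H) : GL (Lx s) F))
    rw [← hR]
    change (1 : Matrix (Lx s) (Lx s) F) * D.γ v.1 = D.γ v.1 * (1 : Matrix (Lx s) (Lx s) F)
    rw [Matrix.one_mul, Matrix.mul_one]
  have hq : ∀ (h : D.H) (v : D.V), D.Q (R h v) = D.Q v := by
    intro h v
    have := D.good.nonempty
    apply smul_one_inj (l := Lx s)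
    rw [← D.good.frame.gv_sq, ← D.good.frame.gv_sq]
    have h1 : D.γ (R h v) * D.γ (R h v) * ((h : GL (Lx s) F) : Matrix (Lx s) (Lx s) F) =
        D.γ v * D.γ v * ((h : GL (Lx s) F) : Matrix (Lx s) (Lx s) F) := by
      rw [Matrix.mul_assoc, ← hR, ← Matrix.mul_assoc, ← hR, Matrix.mul_assoc]
      have h2 : D.γ v * D.γ v = D.Q v • (1 : Matrix (Lx s) (Lx s) F) := D.good.frame.gv_sq _
      rw [h2, Matrix.mul_smul, Matrix.smul_mul, Matrix.mul_one, Matrix.one_mul]
    have h3 := congrArg (fun X => X * (((h : GL (Lx s) F)⁻¹ : GL (Lx s) F) :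
      Matrix (Lx s) (Lx s) F)) h1
    simp only [Matrix.mul_assoc, Units.mul_inv, Matrix.mul_one] at h3
    exact h3
  let E : D.H → (W ≃ₗ[F] W) := fun h =>
    { toFun := fun w => j (R h (j.symm w))
      map_add' := fun v w => by rw [map_add, map_add, map_add]
      map_smul' := fun c v => by rw [map_smul, map_smul, map_smul, RingHom.id_apply]
      invFun := fun w => j (R h⁻¹ (j.symm w))
      left_inv := fun w => by
        change j (R h⁻¹ (j.symm (j (R h (j.symm w))))) = w
        rw [LinearEquiv.symm_apply_apply, ← hmul, inv_mul_cancel, hone,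
          LinearEquiv.apply_symm_apply]
      right_inv := fun w => by
        change j (R h (j.symm (j (R h⁻¹ (j.symm w))))) = w
        rw [LinearEquiv.symm_apply_apply, ← hmul, mul_inv_cancel, hone,
          LinearEquiv.apply_symm_apply] }
  have hE : ∀ h w, E h w = j (R h (j.symm w)) := fun _ _ => rfl
  let ρ : D.H →* isoGroup q :=
    { toFun := fun h => ⟨E h, fun w => by
        rw [hE, hj, hq, ← hj, LinearEquiv.apply_symm_apply]⟩
      map_one' := by
        apply Subtype.ext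
        apply LinearEquiv.ext
        intro w
        change E 1 w = w
        rw [hE, hone, LinearEquiv.apply_symm_apply]
      map_mul' := by
        intro h h'
        apply Subtype.ext
        apply LinearEquiv.ext
        intro w
        change E (h * h') w = E h (E h' w)
        rw [hE, hE, hE, hmul, LinearEquiv.symm_apply_apply] }
  refine ⟨ρ, fun h v => ?_⟩
  have h1 : ((ρ h : W ≃ₗ[F] W) (j v)) = j (R h v) := by
    change E h (j v) = _
    rw [hE, LinearEquiv.symm_apply_apply]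
  rw [h1, LinearEquiv.symm_apply_apply]
  exact hR h v

end MP7Z.Ort
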