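import Pool.Agent.Lib.MP_7f581e_Z.Ort.SpecB

/-!
# Siegel elements of `V_k`
-/

set_option autoImplicit false
set_option linter.unusedSectionVars false

namespace MP7Z.Ort

open TensorProduct MP7fS Matrix

theorem tSie (act : ActStmt) (g1c : G1cStmt) : SieStmt := by
  intro K _ l _ _ a b s g P o hg k x hx v hv hqx hxv u hu
  have hF := hg.frame
  have hnx : -x ∈ Vk o s K k.val := (Vk o s K k.val).neg_mem hx
  obtain ⟨X, hX, hX1, hX2, hX3⟩ := (g1c K l a b s g P o hg k).2.2.2 (-x) hnx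
  obtain ⟨Y, hY, hY1, hY2, -⟩ := (g1c K l a b s g P o hg k).2.2.1 v hv
  obtain ⟨Z, hZ, hZ1, hZ2, -⟩ := (g1c K l a b s g P o hg k).2.2.1 ((-qf a b v) • x)
    ((Vk o s K k.val).smul_mem _ hx)
  have hve := ((act K l a b s g P o hg).1 k.val v hv k le_rfl).1
  have hxe := ((act K l a b s g P o hg).1 k.val x hx k le_rfl).1
  have hxx : gv g x * gv g x = 0 := by rw [hF.gv_sq, hqx, zero_smul]
  have hvv := hF.gv_sq v
  have hvx : gv g v * gv g x = -(gv g x * gv g v) := by
    have h1 := hF.gv_anti v x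
    rw [bf_comm, hxv, zero_smul] at h1
    exact eq_neg_of_add_eq_zero_left h1
  -- the action of `X`
  have hXe : (X : Matrix l l K) * g (ie k) = (g (ie k) + gv g x) * (X : Matrix l l K) := by
    have h1 := hX3 (bv K (ie k))
    have h2 : bf a b (bv K (ie k)) (-x) = 0 := by
      rw [bf_comm, bf_ie, Pi.neg_apply, (hx.2 k le_rfl).2, neg_zero]
    rw [h2, qf_neg, hqx, bv_apply, if_pos rfl, zero_smul, add_zero, mul_zero, zero_smul,
      sub_zero, one_smul, sub_neg_eq_add, gv_add, gv_bv] at h1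
    exact h1
  have hXv : (X : Matrix l l K) * gv g v = gv g v * (X : Matrix l l K) := by
    have h1 := hX3 v
    have h2 : bf a b v (-x) = 0 := by rw [bf_neg_right, bf_comm, hxv, neg_zero]
    rw [h2, qf_neg, hqx, (hv.2 k le_rfl).1, zero_smul, zero_smul, add_zero, sub_zero, zero_mul,
      zero_smul, sub_zero] at h1
    exact h1
  set e := g (ie k) with he
  set xx := gv g x with hxd
  set vv := gv g v with hvd
  have hXY : (X : Matrix l l K) * (Y : Matrix l l K) = (1 + (e + xx) * vv) *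
      (X : Matrix l l K) := by
    rw [hY1, Matrix.mul_add, Matrix.mul_one, ← Matrix.mul_assoc, hXe, Matrix.mul_assoc, hXv,
      ← Matrix.mul_assoc, Matrix.add_mul 1, Matrix.one_mul]
  have hee : e * e = 0 := hF.ee k
  have key : (u : Matrix l l K) * (Z : Matrix l l K) =
      (1 + (e + xx) * vv) * ((Y⁻¹ : GL l K) : Matrix l l K) := by
    rw [hu, hZ1, hY2, gv_smul, ← hxd, neg_smul, Matrix.mul_neg, Matrix.mul_smul]
    have h1 : e * xx = -(xx * e) := by rw [hxe, neg_neg]
    rw [h1, smul_neg, neg_neg]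
    have h2 : vv * (xx * e) = -(xx * vv * e) := by
      rw [← Matrix.mul_assoc, hvx, Matrix.neg_mul]
    have h3 : vv * (e * vv) = -(qf a b v • e) := by
      rw [← Matrix.mul_assoc, hve, Matrix.neg_mul, Matrix.mul_assoc, hvv, Matrix.mul_smul,
        Matrix.mul_one]
    have h4 : xx * vv * (xx * e) = 0 := by
      rw [Matrix.mul_assoc, h2, Matrix.mul_neg, ← Matrix.mul_assoc, ← Matrix.mul_assoc, hxx,
        Matrix.zero_mul, Matrix.zero_mul, neg_zero]
    have h5 : (e + xx) * vv * (e * vv) = -(qf a b v • (xx * e)) := by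
      rw [Matrix.mul_assoc, h3, Matrix.mul_neg, Matrix.mul_smul, Matrix.add_mul, hee, zero_add]
    rw [Matrix.add_mul, Matrix.one_mul, Matrix.mul_add, Matrix.mul_one, Matrix.mul_smul, h4,
      smul_zero, add_zero, Matrix.add_mul, Matrix.one_mul, Matrix.mul_sub, Matrix.mul_one, h5,
      Matrix.add_mul]
    abel
  have key2 : u * Z = X * Y * X⁻¹ * Y⁻¹ := by
    apply Units.ext
    rw [Units.val_mul, key, Units.val_mul, Units.val_mul, Units.val_mul, hXY,
      Matrix.mul_assoc (1 + (e + xx) * vv) (X : Matrix l l K), Units.mul_inv, Matrix.mul_one]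
  have key3 : u = X * Y * X⁻¹ * Y⁻¹ * Z⁻¹ := by rw [← key2, mul_inv_cancel_right]
  rw [key3]
  exact mul_mem (mul_mem (mul_mem (mul_mem hX hY) (inv_mem hX)) (inv_mem hY)) (inv_mem hZ)

end MP7Z.Ort
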