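import Pool.Agent.Lib.MP_7f581e_Z.Ort.SpecB

/-!
# The even Clifford algebra is additively generated by the spin group (`SpHStmt`)
-/

set_option autoImplicit false
set_option linter.unusedSectionVars false

namespace MP7Z.Ort

open TensorProduct MP7fS Matrix

section

variable {F : Type} [Field F] {s : ℕ} (D : Dat F (s + 1))

/-- The additive group generated by the spin group. -/
def SpH_A : AddSubgroup (Matrix (Lx (s + 1)) (Lx (s + 1)) F) :=
  AddSubgroup.closure {Y | ∃ h ∈ D.H, Y = ((h : GL (Lx (s + 1)) F) :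
    Matrix (Lx (s + 1)) (Lx (s + 1)) F)}

theorem SpH_one : (1 : Matrix (Lx (s + 1)) (Lx (s + 1)) F) ∈ SpH_A D :=
  AddSubgroup.subset_closure ⟨1, one_mem _, rfl⟩

theorem SpH_mul {X Y : Matrix (Lx (s + 1)) (Lx (s + 1)) F} (hX : X ∈ SpH_A D)
    (hY : Y ∈ SpH_A D) : X * Y ∈ SpH_A D := by
  induction hX using AddSubgroup.closure_induction with
  | mem X hX =>
    obtain ⟨h, hh, rfl⟩ := hX
    induction hY using AddSubgroup.closure_induction with
    | mem Y hY =>
      obtain ⟨h', hh', rfl⟩ := hY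
      exact AddSubgroup.subset_closure ⟨h * h', mul_mem hh hh', rfl⟩
    | zero =>
      rw [Matrix.mul_zero]
      exact zero_mem _
    | add Y Y' _ _ h1 h2 =>
      rw [Matrix.mul_add]
      exact add_mem h1 h2
    | neg Y _ h1 =>
      rw [Matrix.mul_neg]
      exact neg_mem h1
  | zero =>
    rw [Matrix.zero_mul]
    exact zero_mem _
  | add X X' _ _ h1 h2 =>
    rw [Matrix.add_mul]
    exact add_mem h1 h2
  | neg X _ h1 =>
    rw [Matrix.neg_mul]
    exact neg_mem h1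

/-- Siegel elements. -/
theorem SpH_sie (act : ActStmt) (v : Ix (s + 1) → F) (hv : v ∈ Vk D.o (s + 1) F s) :
    D.g (ie (Fin.last s)) * gv D.g v ∈ SpH_A D ∧ D.g (jf (Fin.last s)) * gv D.g v ∈ SpH_A D := by
  have hF := D.good.frame
  have ha := (act F (Lx (s + 1)) D.a D.b (s + 1) D.g D.P D.o D.good).1 s v hv (Fin.last s) le_rfl
  have key : ∀ (x : Ix (s + 1) → F), qf D.a D.b x = 0 → bf D.a D.b x v = 0 →
      (D.o → x (iw 0) = 0) → gv D.g x * gv D.g v ∈ SpH_A D := by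
    intro x hx hxv ho
    have hxx : gv D.g x * gv D.g x = 0 := by rw [hF.gv_sq, hx, zero_smul]
    have hvx : gv D.g v * gv D.g x = -(gv D.g x * gv D.g v) := by
      have h1 := hF.gv_anti v x
      rw [bf_comm, hxv, zero_smul] at h1
      exact eq_neg_of_add_eq_zero_left h1
    have h0 : gv D.g x * gv D.g v * (gv D.g x * gv D.g v) = 0 := by
      rw [Matrix.mul_assoc, ← Matrix.mul_assoc (gv D.g v), hvx, Matrix.neg_mul, Matrix.mul_neg,
        Matrix.mul_assoc (gv D.g x) (gv D.g v) (gv D.g v), ← Matrix.mul_assoc (gv D.g x)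
        (gv D.g x), hxx, Matrix.zero_mul, neg_zero]
    have h1 : (1 + gv D.g x * gv D.g v) * (1 - gv D.g x * gv D.g v) = 1 := by
      rw [Matrix.add_mul, Matrix.one_mul, Matrix.mul_sub, Matrix.mul_one, h0]
      abel
    have h2 : (1 - gv D.g x * gv D.g v) * (1 + gv D.g x * gv D.g v) = 1 := by
      rw [Matrix.sub_mul, Matrix.one_mul, Matrix.mul_add, Matrix.mul_one, h0]
      abel
    have h3 : (⟨_, _, h1, h2⟩ : GL (Lx (s + 1)) F) ∈ D.H :=
      D.good.siegel hx hxv (fun h => ⟨ho h, hv.1 h⟩) rfl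
    have h4 : (1 + gv D.g x * gv D.g v) ∈ SpH_A D := AddSubgroup.subset_closure ⟨_, h3, rfl⟩
    have h5 : gv D.g x * gv D.g v = (1 + gv D.g x * gv D.g v) - 1 := by abel
    rw [h5]
    exact sub_mem h4 (SpH_one D)
  constructor
  · have h1 := key (bv F (ie (Fin.last s))) (qf_ie _ _ _) (by
      rw [bf_comm, bf_ie]
      exact (hv.2 _ le_rfl).2) (fun _ => by rw [bv_apply, if_neg (by simp)])
    rwa [gv_bv] at h1
  · have h1 := key (bv F (jf (Fin.last s))) (qf_jf _ _ _) (by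
      rw [bf_comm, bf_jf]
      exact (hv.2 _ le_rfl).1) (fun _ => by rw [bv_apply, if_neg (by simp)])
    rwa [gv_bv] at h1

/-- Products of two vectors orthogonal to the last plane. -/
theorem SpH_vv (act : ActStmt) (v w : Ix (s + 1) → F) (hv : v ∈ Vk D.o (s + 1) F s)
    (hw : w ∈ Vk D.o (s + 1) F s) : gv D.g v * gv D.g w ∈ SpH_A D := by
  obtain ⟨h1, h2⟩ := SpH_sie D act v hv
  obtain ⟨h3, h4⟩ := SpH_sie D act w hw
  have ha := (act F (Lx (s + 1)) D.a D.b (s + 1) D.g D.P D.o D.good).1 s v hv (Fin.last s) le_rfl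
  have hef := D.good.frame.ef (Fin.last s)
  have h5 : gv D.g v * gv D.g w =
      -(D.g (ie (Fin.last s)) * gv D.g v * (D.g (jf (Fin.last s)) * gv D.g w)) -
        D.g (jf (Fin.last s)) * gv D.g v * (D.g (ie (Fin.last s)) * gv D.g w) := by
    have e1 : D.g (ie (Fin.last s)) * gv D.g v * (D.g (jf (Fin.last s)) * gv D.g w) =
        -(D.g (ie (Fin.last s)) * D.g (jf (Fin.last s)) * (gv D.g v * gv D.g w)) := by
      rw [Matrix.mul_assoc, ← Matrix.mul_assoc (gv D.g v), ha.2, Matrix.neg_mul, Matrix.mul_neg]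
      simp only [Matrix.mul_assoc]
    have e2 : D.g (jf (Fin.last s)) * gv D.g v * (D.g (ie (Fin.last s)) * gv D.g w) =
        -(D.g (jf (Fin.last s)) * D.g (ie (Fin.last s)) * (gv D.g v * gv D.g w)) := by
      rw [Matrix.mul_assoc, ← Matrix.mul_assoc (gv D.g v), ha.1, Matrix.neg_mul, Matrix.mul_neg]
      simp only [Matrix.mul_assoc]
    rw [e1, e2, neg_neg, sub_neg_eq_add, ← Matrix.add_mul, hef, Matrix.one_mul]
  rw [h5]
  exact sub_mem (neg_mem (SpH_mul D h1 h4)) (SpH_mul D h2 h3)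

theorem SpH_smul (act : ActStmt) (c : F) : c • (1 : Matrix (Lx (s + 1)) (Lx (s + 1)) F) ∈
    SpH_A D := by
  obtain ⟨w, hw, hq⟩ := (act F (Lx (s + 1)) D.a D.b (s + 1) D.g D.P D.o D.good).2.2.2.2.2.2.1 s
  have h1 := SpH_vv D act ((c * (qf D.a D.b w)⁻¹) • w) w (Submodule.smul_mem _ _ hw) hw
  rwa [gv_smul, Matrix.smul_mul, D.good.frame.gv_sq, smul_smul, mul_assoc,
    inv_mul_cancel₀ hq, mul_one] at h1

theorem SpH_ef (act : ActStmt) : D.g (ie (Fin.last s)) * D.g (jf (Fin.last s)) ∈ SpH_A D ∧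
    D.g (jf (Fin.last s)) * D.g (ie (Fin.last s)) ∈ SpH_A D := by
  obtain ⟨w, hw, hq⟩ := (act F (Lx (s + 1)) D.a D.b (s + 1) D.g D.P D.o D.good).2.2.2.2.2.2.1 s
  have ha := (act F (Lx (s + 1)) D.a D.b (s + 1) D.g D.P D.o D.good).1 s w hw (Fin.last s) le_rfl
  have h1 := (SpH_sie D act ((qf D.a D.b w)⁻¹ • w) (Submodule.smul_mem _ _ hw)).1
  have h2 := (SpH_sie D act w hw).2
  have h3 := SpH_mul D h1 h2
  have h4 : D.g (ie (Fin.last s)) * gv D.g ((qf D.a D.b w)⁻¹ • w) *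
      (D.g (jf (Fin.last s)) * gv D.g w) = -(D.g (ie (Fin.last s)) * D.g (jf (Fin.last s))) := by
    rw [gv_smul, Matrix.mul_smul, Matrix.smul_mul, Matrix.mul_assoc, ← Matrix.mul_assoc (gv D.g w),
      ha.2, Matrix.neg_mul, Matrix.mul_assoc, D.good.frame.gv_sq, Matrix.mul_smul, Matrix.mul_one,
      Matrix.mul_neg, Matrix.mul_smul, smul_neg, smul_smul, inv_mul_cancel₀ hq, one_smul]
  rw [h4] at h3
  have h5 : D.g (ie (Fin.last s)) * D.g (jf (Fin.last s)) ∈ SpH_A D := by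
    have h6 := neg_mem h3
    rwa [neg_neg] at h6
  refine ⟨h5, ?_⟩
  have h6 : D.g (jf (Fin.last s)) * D.g (ie (Fin.last s)) =
      1 - D.g (ie (Fin.last s)) * D.g (jf (Fin.last s)) :=
    eq_sub_of_add_eq' (D.good.frame.ef _)
  rw [h6]
  exact sub_mem (SpH_one D) h5

end

theorem tSpH (act : ActStmt) (spn : SpnEStmt) : SpHStmt := by
  intro p _ F _ _ s D X
  change (X : Matrix (Lx (s + 1)) (Lx (s + 1)) F) ∈ SpH_A D
  have hA := act F (Lx (s + 1)) D.a D.b (s + 1) D.g D.P D.o D.good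
  have hX := D.mem_C0.1 X.2
  have hspan := spn F (Lx (s + 1)) D.a D.b (s + 1) D.g D.P D.o D.good X hX.1 hX.2
  -- products of two vectors
  have hVo : ∀ v ∈ Vo D.o (s + 1) F, v ∈ Vk D.o (s + 1) F (s + 1) := by
    intro v hv
    refine ⟨hv, fun i hi => ?_⟩
    have := i.2
    omega
  have hvw : ∀ v ∈ Vo D.o (s + 1) F, ∀ w ∈ Vo D.o (s + 1) F, gv D.g v * gv D.g w ∈ SpH_A D := by
    intro v hv w hw
    obtain ⟨v', hv', -, -, ev⟩ := hA.2.2.1 (Fin.last s) v (hVo v hv)
    obtain ⟨w', hw', -, -, ew⟩ := hA.2.2.1 (Fin.last s) w (hVo w hw)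
    have hav := hA.1 s v' hv' (Fin.last s) le_rfl
    have smem : ∀ (c : F) {Y : Matrix (Lx (s + 1)) (Lx (s + 1)) F}, Y ∈ SpH_A D →
        c • Y ∈ SpH_A D := by
      intro c Y hY
      have h1 := SpH_mul D (SpH_smul D act c) hY
      rwa [Matrix.smul_mul, Matrix.one_mul] at h1
    obtain ⟨hef, hfe⟩ := SpH_ef D act
    obtain ⟨h1, h2⟩ := SpH_sie D act v' hv'
    obtain ⟨h3, h4⟩ := SpH_sie D act w' hw'
    have h5 := SpH_vv D act v' w' hv' hw'
    have hee := D.good.frame.ee (Fin.last s)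
    have hff := D.good.frame.ff (Fin.last s)
    rw [ev, ew]
    generalize v (ie (Fin.last s)) = α
    generalize v (jf (Fin.last s)) = β
    generalize w (ie (Fin.last s)) = γ
    generalize w (jf (Fin.last s)) = δ
    set e := D.g (ie (Fin.last s))
    set f := D.g (jf (Fin.last s))
    set V := gv D.g v'
    set W := gv D.g w'
    have e1 : (α • e + β • f + V) * (γ • e + δ • f + W) = (α * δ) • (e * f) + (β * γ) • (f * e) +
        V * W + α • (e * W) + β • (f * W) + (-γ) • (e * V) + (-δ) • (f * V) := by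
      simp only [Matrix.add_mul, Matrix.mul_add, Matrix.smul_mul, Matrix.mul_smul, hee, hff,
        hav.1, hav.2, smul_zero, neg_smul]
      module
    rw [e1]
    exact add_mem (add_mem (add_mem (add_mem (add_mem (add_mem (smem _ hef) (smem _ hfe)) h5)
      (smem _ h3)) (smem _ h4)) (smem _ h1)) (smem _ h2)
  have key : ∀ Y ∈ Algebra.adjoin F {Y | ∃ v ∈ Vo D.o (s + 1) F, ∃ w ∈ Vo D.o (s + 1) F,
      Y = gv D.g v * gv D.g w}, Y ∈ SpH_A D := by
    intro Y hY
    induction hY using Algebra.adjoin_induction with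
    | mem Y hY =>
      obtain ⟨v, hv, w, hw, rfl⟩ := hY
      exact hvw v hv w hw
    | algebraMap c =>
      rw [Algebra.algebraMap_eq_smul_one]
      exact SpH_smul D act c
    | add Y Z _ _ h1 h2 => exact add_mem h1 h2
    | mul Y Z _ _ h1 h2 => exact SpH_mul D h1 h2
  exact key _ hspan

end MP7Z.Ort
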