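import Pool.Agent.Lib.MP_7f581e_Z.Ort.SpecA

/-!
# Orthogonal groups: the frame generates the algebra of all operators
-/

set_option autoImplicit false
set_option linter.unusedSectionVars false

namespace MP7Z.Ort

open MP7fS Matrix

private theorem SpanV_zero (h2 : VacStmt) (K : Type) [Field K] (a b : K) (hab : a ^ 2 - 4 * b ≠ 0)
    (W : Type) [AddCommGroup W] [Module K W] [FiniteDimensional K W] (g : Ix 0 → Module.End K W)
    (hg : IsFrame a b g) (hd : Module.finrank K W = 2) :
    Algebra.adjoin K (Set.range g) = ⊤ := by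
  obtain ⟨u, hu0, hu1, hu2, β, hβ0, hβ1⟩ := h2 K W a b g hab hg hd
  rw [eq_top_iff]
  intro X _
  set w0 := g (iw 0) with hw0
  set w1 := g (iw 1) with hw1
  have hexp : ∀ y : W, ∃ p q : K, y = p • u + q • w1 u := by
    intro y
    refine ⟨β.repr y 0, β.repr y 1, ?_⟩
    have h3 := β.sum_repr y
    rw [Fin.sum_univ_two, hβ0, hβ1] at h3
    exact h3.symm
  obtain ⟨p, q, hXu⟩ := hexp (X u)
  obtain ⟨r, t, hXv⟩ := hexp (X (w1 u))
  have hΔ : 4 * b - a ^ 2 ≠ 0 := fun h => hab (by rw [← neg_eq_zero, neg_sub]; exact h)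
  set B : K := ((p - t) * (2 * b) - a * (r - b * q)) / (4 * b - a ^ 2) with hB
  set D : K := (2 * (r - b * q) - a * (p - t)) / (4 * b - a ^ 2) with hD
  have hB' : B * (4 * b - a ^ 2) = (p - t) * (2 * b) - a * (r - b * q) := by
    rw [hB, div_mul_cancel₀ _ hΔ]
  have hD' : D * (4 * b - a ^ 2) = 2 * (r - b * q) - a * (p - t) := by
    rw [hD, div_mul_cancel₀ _ hΔ]
  have e1 : 2 * B + a * D = p - t := by
    apply mul_right_cancel₀ hΔ
    linear_combination 2 * hB' + a * hD'
  have e2 : a * B + 2 * b * D = r - b * q := by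
    apply mul_right_cancel₀ hΔ
    linear_combination a * hB' + 2 * b * hD'
  have hX : X = (t + B) • (1 : Module.End K W) + B • w0 + (q + D) • w1 + D • (w0 * w1) := by
    apply β.ext
    intro i
    have hi : β i = u ∨ β i = w1 u := by
      fin_cases i
      · exact Or.inl hβ0
      · exact Or.inr hβ1
    rcases hi with hi | hi
    · rw [hi, hXu]
      simp only [LinearMap.add_apply, LinearMap.smul_apply, Module.End.one_apply,
        Module.End.mul_apply, hu0, hu1, smul_sub, smul_smul]
      have e3 : p = t + B + B + D * a := by linear_combination -e1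
      rw [e3]
      module
    · rw [hi, hXv]
      simp only [LinearMap.add_apply, LinearMap.smul_apply, Module.End.one_apply,
        Module.End.mul_apply, hu0, hu1, hu2, smul_sub, smul_smul, map_smul]
      have e3 : r = B * a + (q + D) * b + D * b := by linear_combination -e2
      rw [e3]
      module
  rw [hX]
  have m0 : w0 ∈ Algebra.adjoin K (Set.range g) := Algebra.subset_adjoin ⟨_, rfl⟩
  have m1 : w1 ∈ Algebra.adjoin K (Set.range g) := Algebra.subset_adjoin ⟨_, rfl⟩
  exact add_mem (add_mem (add_mem (Subalgebra.smul_mem _ (one_mem _) _)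
    (Subalgebra.smul_mem _ m0 _)) (Subalgebra.smul_mem _ m1 _))
    (Subalgebra.smul_mem _ (mul_mem m0 m1) _)

theorem tSpanV (h1 : DecStmt) (h2 : VacStmt) (h3 : ResFStmt) : SpanVStmt := by
  intro K _ a b hab s
  induction s with
  | zero =>
    intro W _ _ _ g hg hd
    exact SpanV_zero h2 K a b hab W g hg (by rw [hd]; norm_num)
  | succ s ih =>
    intro W _ _ _ g hg hd
    set e := g (ie (Fin.last s)) with he
    set f := g (jf (Fin.last s)) with hf
    obtain ⟨d1, d2, d3, d4⟩ := h1 K W e f (hg.ee _) (hg.ff _) (hg.ef _)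
    obtain ⟨g', hg', hres⟩ := h3 K W s a b g hg
    have hd1 : Module.finrank K (LinearMap.ker e) = 2 ^ (s + 1) := by
      have h4 := d4 inferInstance
      rw [hd, pow_succ, mul_comm] at h4
      exact (Nat.eq_of_mul_eq_mul_left (by norm_num) h4).symm
    have hadj := ih (LinearMap.ker e) g' hg' hd1
    have me : e ∈ Algebra.adjoin K (Set.range g) := Algebra.subset_adjoin ⟨_, rfl⟩
    have mf : f ∈ Algebra.adjoin K (Set.range g) := Algebra.subset_adjoin ⟨_, rfl⟩
    have key : ∀ Y' : Module.End K (LinearMap.ker e), ∃ Y ∈ Algebra.adjoin K (Set.range g),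
        ∀ x : LinearMap.ker e, Y (x : W) = ((Y' x : LinearMap.ker e) : W) := by
      intro Y'
      have hY' : Y' ∈ Algebra.adjoin K (Set.range g') := by rw [hadj]; trivial
      induction hY' using Algebra.adjoin_induction with
      | mem x hx =>
        obtain ⟨i, rfl⟩ := hx
        exact ⟨g (cIx i), Algebra.subset_adjoin ⟨_, rfl⟩, fun x => (hres i x).symm⟩
      | algebraMap r =>
        refine ⟨algebraMap K _ r, Subalgebra.algebraMap_mem _ r, fun x => ?_⟩
        rw [Module.algebraMap_end_apply, Module.algebraMap_end_apply]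
        rfl
      | add x y _ _ hx hy =>
        obtain ⟨Y1, m1, k1⟩ := hx
        obtain ⟨Y2, m2, k2⟩ := hy
        exact ⟨Y1 + Y2, add_mem m1 m2, fun z => by
          rw [LinearMap.add_apply, k1, k2]; rfl⟩
      | mul x y _ _ hx hy =>
        obtain ⟨Y1, m1, k1⟩ := hx
        obtain ⟨Y2, m2, k2⟩ := hy
        exact ⟨Y1 * Y2, mul_mem m1 m2, fun z => by
          rw [Module.End.mul_apply, k2, k1]; rfl⟩
    have key2 : ∀ Z : Module.End K W, ∃ Y ∈ Algebra.adjoin K (Set.range g),
        ∀ x : W, e x = 0 → Y x = e (Z x) := by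
      intro Z
      obtain ⟨Y, mY, hY⟩ := key (LinearMap.codRestrict (LinearMap.ker e)
        ((e * Z).comp (LinearMap.ker e).subtype) (fun x => by
          rw [LinearMap.mem_ker]
          exact (d2 (Z (x : W))).1))
      exact ⟨Y, mY, fun x hx => hY ⟨x, hx⟩⟩
    rw [eq_top_iff]
    intro X _
    obtain ⟨Y1, m1, k1⟩ := key2 (f * X)
    obtain ⟨Y2, m2, k2⟩ := key2 (f * X * f)
    obtain ⟨Y3, m3, k3⟩ := key2 X
    obtain ⟨Y4, m4, k4⟩ := key2 (X * f)
    have hX : X = Y1 * e * f + Y2 * e + f * Y3 * e * f + f * Y4 * e := by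
      apply LinearMap.ext
      intro w
      have hx : e (e (f w)) = 0 := (d2 (f w)).1
      have hy : e (e w) = 0 := (d2 w).1
      simp only [LinearMap.add_apply, Module.End.mul_apply]
      rw [k1 _ hx, k2 _ hy, k3 _ hx, k4 _ hy]
      simp only [Module.End.mul_apply]
      have hw : X w = X (e (f w)) + X (f (e w)) := by
        conv_lhs => rw [(d2 w).2]
        rw [map_add]
      have e1 := (d2 (X (e (f w)))).2
      have e2 := (d2 (X (f (e w)))).2
      rw [hw]
      conv_lhs => rw [e1, e2]
      abel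
    rw [hX]
    exact add_mem (add_mem (add_mem (mul_mem (mul_mem m1 me) mf) (mul_mem m2 me))
      (mul_mem (mul_mem (mul_mem mf m3) me) mf)) (mul_mem (mul_mem mf m4) me)

end MP7Z.Ort
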