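import Pool.Agent.Lib.MP_7f581e_Z.Ort.SpecB

/-!
# Every element of `A` is standard up to an inner automorphism (`StdStmt`)
-/

set_option autoImplicit false
set_option linter.unusedSectionVars false

namespace MP7Z.Ort

open TensorProduct MP7fS Matrix

theorem Std_bf {F : Type} [Field F] {s : ℕ} {D : Dat F s} {σ : F ≃+* F} {μ : F}
    {g : (Ix s → F) → (Ix s → F)} (hS : D.IsSemi σ μ g) (v w : Ix s → F) (hv : v ∈ D.V)
    (hw : w ∈ D.V) : bf D.a D.b (g v) (g w) = μ * σ (bf D.a D.b v w) := by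
  have h1 : qf D.a D.b (g (v + w)) = μ * σ (qf D.a D.b (v + w)) :=
    hS.qf _ (Submodule.add_mem _ hv hw)
  have h2 : qf D.a D.b (g v) = μ * σ (qf D.a D.b v) := hS.qf v hv
  have h3 : qf D.a D.b (g w) = μ * σ (qf D.a D.b w) := hS.qf w hw
  rw [hS.add v hv w hw, qf_add, qf_add, map_add, map_add, h2, h3, mul_add, mul_add] at h1
  exact add_left_cancel h1

theorem Std_e {F : Type} [Field F] {s : ℕ} (D : Dat F s) (i : Fin s) : bv F (ie i) ∈ D.V :=
  fun _ => by rw [bv_apply, if_neg (by simp)]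

theorem Std_f {F : Type} [Field F] {s : ℕ} (D : Dat F s) (i : Fin s) : bv F (jf i) ∈ D.V :=
  fun _ => by rw [bv_apply, if_neg (by simp)]

theorem tStd (frt : FrTStmt) : StdStmt := by
  intro p _ F _ _ s D x
  obtain ⟨σ, μ, g, hS, hI1, hI2⟩ := x.2.1
  have hB := fun (v w : Ix s → F) (hv : v ∈ D.V) (hw : w ∈ D.V) => Std_bf hS v w hv hw
  have he := Std_e D
  have hf := Std_f D
  have hqe : ∀ i : Fin s, qf D.a D.b (g (bv F (ie i))) = 0 := by
    intro i
    have h1 : qf D.a D.b (g (bv F (ie i))) = μ * σ (qf D.a D.b (bv F (ie i))) := hS.qf _ (he i)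
    rw [h1, qf_ie, map_zero, mul_zero]
  have hqf : ∀ i : Fin s, qf D.a D.b (g (bv F (jf i))) = 0 := by
    intro i
    have h1 : qf D.a D.b (g (bv F (jf i))) = μ * σ (qf D.a D.b (bv F (jf i))) := hS.qf _ (hf i)
    rw [h1, qf_jf, map_zero, mul_zero]
  obtain ⟨h, hh, hc⟩ := frt F (Lx s) D.a D.b s D.g D.P D.o D.good
    (fun i => g (bv F (ie i))) (fun i => μ⁻¹ • g (bv F (jf i)))
    (fun i => hS.mem _ (he i)) (fun i => Submodule.smul_mem _ _ (hS.mem _ (hf i)))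
    hqe (fun i => by
      change qf D.a D.b (μ⁻¹ • g (bv F (jf i))) = 0
      rw [qf_smul, hqf, mul_zero])
    (fun i j _ => by
      change bf D.a D.b (g (bv F (ie i))) (g (bv F (ie j))) = 0
      rw [hB _ _ (he i) (he j), bf_ie, bv_apply, if_neg (by simp), map_zero, mul_zero])
    (fun i j _ => by
      change bf D.a D.b (μ⁻¹ • g (bv F (jf i))) (μ⁻¹ • g (bv F (jf j))) = 0
      rw [bf_smul_left, bf_smul_right, hB _ _ (hf i) (hf j), bf_jf, bv_apply, if_neg (by simp),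
        map_zero, mul_zero, mul_zero, mul_zero])
    (fun i j => by
      change bf D.a D.b (g (bv F (ie i))) (μ⁻¹ • g (bv F (jf j))) = _
      rw [bf_smul_right, hB _ _ (he i) (hf j), bf_jf, bv_apply, ← mul_assoc,
        inv_mul_cancel₀ hS.ne, one_mul]
      by_cases hij : i = j
      · subst hij
        rw [if_pos rfl, if_pos rfl, map_one]
      · rw [if_neg (fun h => hij (by simpa using h.symm)), if_neg hij, map_zero])
  refine ⟨⟨h, hh⟩, fun i => ?_⟩
  obtain ⟨c, hc0, hc1, hc2⟩ := hc i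
  have hX : ((D.id_ef p i : D.C0 p) : Matrix (Lx s) (Lx s) F) =
      D.γ (bv F (ie i)) * D.γ (bv F (jf i)) := by
    rw [Dat.γ, Dat.γ, gv_bv, gv_bv]
    rfl
  have h1 := hI2 _ (he i) _ (hf i) (D.id_ef p i) hX
  apply Subtype.ext
  change (h : Matrix (Lx s) (Lx s) F) * ((((x : RingAut (D.C0 p)) (D.id_ef p i) : D.C0 p)) :
    Matrix (Lx s) (Lx s) F) * ((h⁻¹ : GL (Lx s) F) : Matrix (Lx s) (Lx s) F) =
      D.g (ie i) * D.g (jf i)
  rw [h1]
  change (h : Matrix (Lx s) (Lx s) F) * gv D.g (g (bv F (ie i))) =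
    c • (D.g (ie i) * (h : Matrix (Lx s) (Lx s) F)) at hc1
  change (h : Matrix (Lx s) (Lx s) F) * gv D.g (μ⁻¹ • g (bv F (jf i))) =
    c⁻¹ • (D.g (jf i) * (h : Matrix (Lx s) (Lx s) F)) at hc2
  have h2 : μ⁻¹ • (D.γ (g (bv F (ie i))) * D.γ (g (bv F (jf i)))) =
      gv D.g (g (bv F (ie i))) * gv D.g (μ⁻¹ • g (bv F (jf i))) := by
    rw [gv_smul, Matrix.mul_smul]
  rw [h2, ← Matrix.mul_assoc, hc1, Matrix.smul_mul, Matrix.mul_assoc (D.g (ie i)), hc2,
    Matrix.mul_smul, smul_smul, mul_inv_cancel₀ hc0, one_smul, ← Matrix.mul_assoc,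
    Matrix.mul_assoc, Units.mul_inv, Matrix.mul_one]

end MP7Z.Ort
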