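import Pool.Agent.Lib.MP_7f581e_Z.Ort.SpecE

/-!
# Isometries are given by conjugation in the Clifford algebra
-/

set_option autoImplicit false

namespace MP7Z.Ort

open TensorProduct MP7fS Matrix

theorem tTgg (h1 : TrfStmt) : TggStmt := by
  intro F _ s D G hG
  have hd : D.a ^ 2 - 4 * D.b ≠ 0 := D.good.disc.ne_zero
  let x : Ix s → Matrix (Lx s) (Lx s) F := fun i => D.γ (G (bv F i))
  have hx : ∀ v : Ix s → F, gv x v = D.γ (G v) := by
    intro v
    conv_rhs => rw [← sum_bv v]
    change ∑ i, v i • gv D.g (G (bv F i)) = gv D.g (G (∑ i, v i • bv F i))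
    rw [map_sum, gv_sum]
    refine Finset.sum_congr rfl fun i _ => ?_
    rw [map_smul, gv_smul]
  have hxf : IsFrame D.a D.b x := by
    apply IsFrame.of_sq
    intro v
    rw [hx]
    change gv D.g (G v) * gv D.g (G v) = _
    rw [D.good.frame.gv_sq]
    exact congrArg (fun c : F => c • (1 : Matrix (Lx s) (Lx s) F)) (hG v)
  obtain ⟨t, ht⟩ := (h1.1 F (Lx s) D.a D.b s D.g hd D.good.card D.good.frame).1 x hxf
  refine ⟨t, fun v => ?_⟩
  rw [← hx]
  change _ * (∑ i, v i • D.g i) = (∑ i, v i • x i) * _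
  rw [Finset.mul_sum, Finset.sum_mul]
  refine Finset.sum_congr rfl fun i _ => ?_
  rw [Matrix.mul_smul, Matrix.smul_mul, ht]

end MP7Z.Ort
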