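import Pool.Agent.Lib.MP_7f581e_Z.Ort.SpecB

/-!
# Transitivity on hyperbolic pairs
-/

set_option autoImplicit false
set_option linter.unusedSectionVars false

namespace MP7Z.Ort

open TensorProduct MP7fS Matrix

section

variable {K : Type} [Field K] {l : Type} [Fintype l] [DecidableEq l] {a b : K} {s : ℕ}
  {g : Ix s → Matrix l l K} {P : GL l K} {o : Prop}

theorem Tra_comp {u u' : GL l K} {x x' x'' : Matrix l l K}
    (h : (u : Matrix l l K) * x = x' * (u : Matrix l l K))
    (h' : (u' : Matrix l l K) * x' = x'' * (u' : Matrix l l K)) :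
    ((u' * u : GL l K) : Matrix l l K) * x = x'' * ((u' * u : GL l K) : Matrix l l K) := by
  rw [Units.val_mul, Matrix.mul_assoc, h, ← Matrix.mul_assoc, h', Matrix.mul_assoc]

theorem Tra_cancel {u : GL l K} {x y : Matrix l l K}
    (h : x * (u : Matrix l l K) = y * (u : Matrix l l K)) : x = y := by
  have h1 := congrArg (fun X => X * ((u⁻¹ : GL l K) : Matrix l l K)) h
  simp only [Matrix.mul_assoc, Units.mul_inv, Matrix.mul_one] at h1
  exact h1

theorem Tra_B (hg : Good a b g P o) {u : GL l K} {x x' y y' : Ix s → K}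
    (h : (u : Matrix l l K) * gv g x = gv g x' * (u : Matrix l l K))
    (h' : (u : Matrix l l K) * gv g y = gv g y' * (u : Matrix l l K)) :
    bf a b x' y' = bf a b x y := by
  have := hg.nonempty
  apply smul_one_inj (l := l)
  rw [← hg.frame.gv_anti, ← hg.frame.gv_anti]
  apply Tra_cancel (u := u)
  have h1 : (gv g x' * gv g y' + gv g y' * gv g x') * (u : Matrix l l K) =
      (u : Matrix l l K) * (gv g x * gv g y + gv g y * gv g x) := by
    rw [Matrix.add_mul, Matrix.mul_add, Matrix.mul_assoc, ← h', ← Matrix.mul_assoc, ← h,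
      Matrix.mul_assoc, Matrix.mul_assoc (gv g y'), ← h, ← Matrix.mul_assoc (gv g y'), ← h',
      Matrix.mul_assoc (u : Matrix l l K) (gv g y)]
  rw [h1, hg.frame.gv_anti, Matrix.mul_smul, Matrix.smul_mul, Matrix.mul_one, Matrix.one_mul]

theorem Tra_Q (hg : Good a b g P o) {u : GL l K} {x x' : Ix s → K}
    (h : (u : Matrix l l K) * gv g x = gv g x' * (u : Matrix l l K)) :
    qf a b x' = qf a b x := by
  have := hg.nonempty
  apply smul_one_inj (l := l)
  rw [← hg.frame.gv_sq, ← hg.frame.gv_sq]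
  apply Tra_cancel (u := u)
  have h1 : gv g x' * gv g x' * (u : Matrix l l K) =
      (u : Matrix l l K) * (gv g x * gv g x) := by
    rw [Matrix.mul_assoc, ← h, ← Matrix.mul_assoc, ← h, Matrix.mul_assoc]
  rw [h1, hg.frame.gv_sq, Matrix.mul_smul, Matrix.smul_mul, Matrix.mul_one, Matrix.one_mul]

/-- Anticommutation is preserved. -/
theorem Tra_anti {u : GL l K} {x x' M : Matrix l l K}
    (h : (u : Matrix l l K) * x = x' * (u : Matrix l l K))
    (hM : (u : Matrix l l K) * M = M * (u : Matrix l l K)) (hx : x * M = -(M * x)) :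
    x' * M = -(M * x') := by
  apply Tra_cancel (u := u)
  rw [Matrix.mul_assoc, ← hM, ← Matrix.mul_assoc, ← h, Matrix.mul_assoc, hx, Matrix.mul_neg,
    ← Matrix.mul_assoc, hM, Matrix.mul_assoc, h, Matrix.neg_mul, Matrix.mul_assoc]

/-- Vectors orthogonal to `w₀`. -/
theorem Tra_w0 (hg : Good a b g P o) (ho : o) {v : Ix s → K} (hv : v (iw 0) = 0) :
    gv g v * g (iw 0) = -(g (iw 0) * gv g v) := by
  obtain ⟨ha, -⟩ := hg.odd ho
  have h5 := hg.frame.gv_anti v (bv K (iw 0))
  rw [bf_w0, hv, ha, mul_zero, zero_mul, add_zero, zero_smul, gv_bv] at h5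
  exact eq_neg_of_add_eq_zero_left h5

/-- The image of a vector of `V_k` under an element commuting with `e_i, f_i`, `i ≥ k`. -/
theorem Tra_mem (act : ActStmt) (hg : Good a b g P o) {k : ℕ} {u : GL l K} {x x' : Ix s → K}
    (hx : x ∈ Vk o s K k) (h : (u : Matrix l l K) * gv g x = gv g x' * (u : Matrix l l K))
    (hu : ∀ i : Fin s, k ≤ i.val → (u : Matrix l l K) * g (ie i) = g (ie i) * (u : Matrix l l K) ∧
      (u : Matrix l l K) * g (jf i) = g (jf i) * (u : Matrix l l K))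
    (hw : o → (u : Matrix l l K) * g (iw 0) = g (iw 0) * (u : Matrix l l K)) :
    x' ∈ Vk o s K k := by
  refine (act K l a b s g P o hg).2.1 k x' (fun i hi => ?_) fun ho => ?_
  · obtain ⟨h1, h2⟩ := (act K l a b s g P o hg).1 k x hx i hi
    exact ⟨Tra_anti h (hu i hi).1 h1, Tra_anti h (hu i hi).2 h2⟩
  · exact Tra_anti h (hw ho) (Tra_w0 hg ho (hx.1 ho))

/-- Clearing: a singular vector with nonzero `f`-coordinate. -/
theorem Tra_clear (act : ActStmt) (g1c : G1cStmt) (hg : Good a b g P o) (k : Fin s)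
    {x : Ix s → K} (hx : x ∈ Vk o s K (k.val + 1)) (hq : qf a b x = 0) (hβ : x (jf k) ≠ 0) :
    ∃ u ∈ G1 g o k, (u : Matrix l l K) * gv g x = gv g (x (jf k) • bv K (jf k)) *
        (u : Matrix l l K) ∧
      (u : Matrix l l K) * g (ie k) = g (ie k) * (u : Matrix l l K) := by
  obtain ⟨x', hx', e1, e2, -⟩ := (act K l a b s g P o hg).2.2.1 k x hx
  rw [hq] at e2
  set β := x (jf k) with hβd
  set α := x (ie k) with hαd
  obtain ⟨u, hu, -, -, hu3⟩ := (g1c K l a b s g P o hg k).2.2.1 (β⁻¹ • x')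
    ((Vk o s K k.val).smul_mem _ hx')
  refine ⟨u, hu, ?_, ?_⟩
  · rw [hu3]
    congr 2
    have hB : bf a b x x' = 2 * qf a b x' := by
      rw [e1, bf_add_left, bf_add_left, bf_smul_left, bf_smul_left, bf_comm a b (bv K (ie k)),
        bf_ie, bf_comm a b (bv K (jf k)), bf_jf, (hx'.2 k le_rfl).1, (hx'.2 k le_rfl).2,
        mul_zero, mul_zero, zero_add, zero_add, bf_self]
    rw [bf_smul_right, hB, ← hβd, qf_smul, smul_smul, mul_inv_cancel₀ hβ, one_smul]
    have e3 : β⁻¹ * (2 * qf a b x') - β * (β⁻¹ ^ 2 * qf a b x') = -α := by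
      have e4 : qf a b x' = -(α * β) := by linear_combination -e2
      rw [e4]
      field_simp
      ring
    calc x + (β⁻¹ * (2 * qf a b x')) • bv K (ie k) - x' -
          (β * (β⁻¹ ^ 2 * qf a b x')) • bv K (ie k) =
        x + (β⁻¹ * (2 * qf a b x') - β * (β⁻¹ ^ 2 * qf a b x')) • bv K (ie k) - x' := by
          rw [sub_smul]
          abel
      _ = β • bv K (jf k) := by
        rw [e3, neg_smul]
        nth_rewrite 1 [e1]
        abel
  · have h1 := hu3 (bv K (ie k))
    rw [bf_comm, bf_ie, Pi.smul_apply, (hx'.2 k le_rfl).2, smul_zero, zero_smul, add_zero,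
      bv_apply, if_neg (by simp), zero_smul, sub_zero, zero_mul, zero_smul, sub_zero, gv_bv] at h1
    exact h1

/-- A singular vector can be mapped to a multiple of `e`. -/
theorem Tra_e (act : ActStmt) (g1c : G1cStmt) (nwe : NweStmt) (hg : Good a b g P o) (k : Fin s)
    {x : Ix s → K} (hx : x ∈ Vk o s K (k.val + 1)) (hq : qf a b x = 0) (hne : x ≠ 0) :
    ∃ u ∈ G1 g o k, ∃ c : K, c ≠ 0 ∧
      (u : Matrix l l K) * gv g x = gv g (c • bv K (ie k)) * (u : Matrix l l K) := by
  -- case 1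
  have case1 : ∀ x : Ix s → K, x ∈ Vk o s K (k.val + 1) → qf a b x = 0 → x (jf k) ≠ 0 →
      ∃ u ∈ G1 g o k, ∃ c : K, c ≠ 0 ∧
      (u : Matrix l l K) * gv g x = gv g (c • bv K (ie k)) * (u : Matrix l l K) := by
    intro x hx hq hβ
    obtain ⟨u, hu, hu1, -⟩ := Tra_clear act g1c hg k hx hq hβ
    obtain ⟨w, hw, hqw⟩ := (act K l a b s g P o hg).2.2.2.2.2.2.1 k.val
    obtain ⟨n, hn, -, -, hn3⟩ := (nwe K l a b s g P o hg k).1 w hw hqw
    refine ⟨n * u, mul_mem hn hu, -(x (jf k) * qf a b w),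
      neg_ne_zero.2 (mul_ne_zero hβ hqw), Tra_comp hu1 ?_⟩
    rw [gv_smul, gv_smul, gv_bv, gv_bv, Matrix.mul_smul, hn3, smul_smul, Matrix.smul_mul]
    congr 1
    ring
  obtain ⟨x', hx', e1, e2, -⟩ := (act K l a b s g P o hg).2.2.1 k x hx
  by_cases hβ : x (jf k) = 0
  · rw [hq, hβ, mul_zero, zero_add] at e2
    by_cases hx0 : x' = 0
    · -- case 3
      rw [hβ, hx0, zero_smul, add_zero, add_zero] at e1
      refine ⟨1, one_mem _, x (ie k), ?_, ?_⟩
      · intro h0
        apply hne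
        rw [e1, h0, zero_smul]
      · rw [Units.val_one, Matrix.one_mul, Matrix.mul_one, ← e1]
    · -- case 2
      obtain ⟨v, hv, hr⟩ : ∃ v ∈ Vk o s K k.val, bf a b x' v ≠ 0 := by
        by_contra h
        push Not at h
        exact hx0 ((act K l a b s g P o hg).2.2.2.2.2.2.2 k.val x' hx' h)
      obtain ⟨v₁, hv₁⟩ : ∃ v₁, v₁ = v + (-((bf a b x' v)⁻¹ * qf a b v)) • x' := ⟨_, rfl⟩
      have hv₁m : v₁ ∈ Vk o s K k.val := by
        rw [hv₁]
        exact (Vk o s K k.val).add_mem hv ((Vk o s K k.val).smul_mem _ hx')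
      have hx'x' : bf a b x' x' = 0 := by rw [bf_self, ← e2, mul_zero]
      have hq₁ : qf a b v₁ = 0 := by
        rw [hv₁, qf_add, qf_smul, ← e2, bf_smul_right, bf_comm a b v x']
        field_simp
        ring
      have hB₁ : bf a b x' v₁ = bf a b x' v := by
        rw [hv₁, bf_add_right, bf_smul_right, hx'x', mul_zero, add_zero]
      have hBx : bf a b x v₁ = bf a b x' v := by
        have h1 : bf a b x v₁ = bf a b (x (ie k) • bv K (ie k) + x (jf k) • bv K (jf k) + x') v₁ :=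
          congrArg (fun z => bf a b z v₁) e1
        rw [h1, hβ, zero_smul, add_zero, bf_add_left, bf_smul_left, bf_comm a b (bv K (ie k)),
          bf_ie, (hv₁m.2 k le_rfl).2, mul_zero, zero_add, hB₁]
      obtain ⟨u, hu, -, -, hu3⟩ := (g1c K l a b s g P o hg k).2.2.2 v₁ hv₁m
      have hux := hu3 x
      rw [hBx, hq₁, mul_zero, zero_smul, sub_zero] at hux
      obtain ⟨z, hz⟩ : ∃ z, z = x + bf a b x' v • bv K (jf k) - x (ie k) • v₁ := ⟨_, rfl⟩
      rw [← hz] at hux
      have hzm : z ∈ Vk o s K (k.val + 1) := by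
        rw [hz]
        refine (Vk o s K _).sub_mem ((Vk o s K _).add_mem hx ((Vk o s K _).smul_mem _ ?_))
          ((Vk o s K _).smul_mem _ ((act K l a b s g P o hg).2.2.2.1 _ _ (Nat.le_succ _) hv₁m))
        exact ((act K l a b s g P o hg).2.2.2.2.2.1 k).2
      have hzβ : z (jf k) = bf a b x' v := by
        rw [hz, Pi.sub_apply, Pi.add_apply, Pi.smul_apply, Pi.smul_apply, bv_apply, if_pos rfl,
          hβ, (hv₁m.2 k le_rfl).2, smul_zero, sub_zero, smul_eq_mul, mul_one, zero_add]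
      obtain ⟨u', hu', c, hc, h1⟩ := case1 z hzm (by rw [Tra_Q hg hux, hq])
        (by rw [hzβ]; exact hr)
      exact ⟨u' * u, mul_mem hu' hu, c, hc, Tra_comp hux h1⟩
  · exact case1 x hx hq hβ

end

theorem tTra (act : ActStmt) (g1c : G1cStmt) (nwe : NweStmt) : TraStmt := by
  intro K _ l _ _ a b s g P o hg k x hx y hy hqx hqy hxy
  have hxne : x ≠ 0 := by
    rintro rfl
    rw [bf_zero_left] at hxy
    exact zero_ne_one hxy
  obtain ⟨u, hu, c, hc, hux⟩ := Tra_e act g1c nwe hg k hx hqx hxne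
  have huS := (g1c K l a b s g P o hg k).1 hu
  obtain ⟨y₁, huy⟩ := (mem_SG.1 huS).2.2.1 y
  have hy₁ : y₁ ∈ Vk o s K (k.val + 1) := by
    refine Tra_mem act hg hy huy (fun i hi => ?_) (mem_SG.1 huS).2.2.2.2
    exact (g1c K l a b s g P o hg k).2.1 u hu i hi
  have hq₁ : qf a b y₁ = 0 := by rw [Tra_Q hg huy, hqy]
  have hB₁ := Tra_B hg hux huy
  rw [hxy, bf_smul_left, bf_comm, bf_ie] at hB₁
  have hβ : y₁ (jf k) = c⁻¹ := eq_inv_of_mul_eq_one_right hB₁
  obtain ⟨u', hu', h1, h2⟩ := Tra_clear act g1c hg k hy₁ hq₁ (by rw [hβ]; exact inv_ne_zero hc)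
  refine ⟨u' * u, mul_mem hu' hu, c, hc, ?_, ?_⟩
  · have h3 : (u' : Matrix l l K) * gv g (c • bv K (ie k)) = gv g (c • bv K (ie k)) *
        (u' : Matrix l l K) := by
      rw [gv_smul, gv_bv, Matrix.mul_smul, h2, Matrix.smul_mul]
    rw [Tra_comp hux h3, gv_smul, gv_bv, Matrix.smul_mul]
  · rw [Tra_comp huy h1, hβ, gv_smul, gv_bv, Matrix.smul_mul]

end MP7Z.Ort
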