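import Pool.Agent.Lib.MP_7f581e_Z.Ort.SpecA

/-!
# Orthogonal groups: transfer of the statements on frames of operators to matrices
-/

set_option autoImplicit false
set_option linter.unusedSectionVars false

namespace MP7Z.Ort

open TensorProduct MP7fS Matrix

section

variable {K : Type} [Field K] {l : Type} [Fintype l] [DecidableEq l]

/-- matrices as operators -/
noncomputable def Trf_Phi : Matrix l l K ≃ₐ[K] Module.End K (l → K) := Matrix.toLinAlgEquiv'

theorem Trf_frame {C : Type} [Ring C] [Algebra K C] {C' : Type} [Ring C'] [Algebra K C']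
    (φ : C →ₐ[K] C') {s : ℕ} {a b : K} {g : Ix s → C} (h : IsFrame a b g) :
    IsFrame a b (fun i => φ (g i)) :=
  IsFrame.map (RingHom.id K) (φ : C →+* C') (fun c x => map_smul φ c x) h

theorem Trf_zt {C : Type} [Ring C] [Algebra K C] {C' : Type} [Ring C'] [Algebra K C']
    (φ : C →ₐ[K] C') (s : ℕ) (a : K) (g : Ix s → C) :
    zt a s (fun i => φ (g i)) = φ (zt a s g) :=
  zt_map (RingHom.id K) (φ : C →+* C') (fun c x => map_smul φ c x) a s g

theorem Trf_inj {X Y : Matrix l l K} (h : Trf_Phi X = Trf_Phi Y) : X = Y :=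
  (Trf_Phi (K := K) (l := l)).injective h

theorem Trf_z {C : Type} [Ring C] [Algebra K C] {s : ℕ} {a b : K} {g : Ix s → C}
    (h : IsFrame a b g) :
    g (iw 0) * g (iw 0) = 1 ∧
    g (iw 0) * g (iw 1) * g (iw 0) = g (iw 0) * (a • 1 - g (iw 0) * g (iw 1)) ∧
    g (iw 0) * g (iw 1) * (g (iw 0) * g (iw 1)) = a • (g (iw 0) * g (iw 1)) - b • 1 := by
  have h0 : g (iw 0) * g (iw 0) = 1 := by rw [h.sq, qf_w0, one_smul]
  have h1 : g (iw 1) * g (iw 1) = b • 1 := by rw [h.sq, qf_w1]
  have h01 : g (iw 1) * g (iw 0) = a • 1 - g (iw 0) * g (iw 1) := by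
    have h2 := h.anti' (iw 1) (iw 0)
    rw [bf_w0] at h2
    have h3 : 2 * bv K (iw 1) (iw 0 : Ix s) + a * bv K (iw 1) (iw 1 : Ix s) = a := by
      simp [bv_apply]
    rw [h3] at h2
    exact eq_sub_of_add_eq h2
  refine ⟨h0, by rw [mul_assoc, h01], ?_⟩
  calc g (iw 0) * g (iw 1) * (g (iw 0) * g (iw 1)) =
        g (iw 0) * (g (iw 1) * g (iw 0)) * g (iw 1) := by simp only [mul_assoc]
    _ = _ := by
      rw [h01, mul_sub, sub_mul, mul_smul_comm, mul_one, smul_mul_assoc, ← mul_assoc (g (iw 0)),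
        h0, one_mul, h1]

theorem Trf_main (h1 : ConjVStmt) (h2 : CentVStmt) (h3 : SpanVStmt) (h4 : ComVStmt) (a b : K)
    (s : ℕ) (g : Ix s → Matrix l l K) (hd : a ^ 2 - 4 * b ≠ 0) (hc : Fintype.card l = 2 ^ (s + 1))
    (hg : IsFrame a b g) :
    (∀ g' : Ix s → Matrix l l K, IsFrame a b g' → ∃ c : GL l K, ∀ i,
      (c : Matrix l l K) * g i = g' i * (c : Matrix l l K)) ∧
    (∀ X : Matrix l l K, (∀ i, X * g i = g i * X) → ∃ κ : K, X = κ • 1) ∧
    (∀ X : Matrix l l K, (∀ i, X * g (ie i) = g (ie i) * X) →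
      (∀ i, X * g (jf i) = g (jf i) * X) →
      X * (g (iw 0) * g (iw 1)) = g (iw 0) * g (iw 1) * X →
      ∃ κ m : K, X = κ • 1 + m • (g (iw 0) * g (iw 1))) ∧
    Algebra.adjoin K (Set.range g) = ⊤ ∧
    (∀ X Y : Matrix l l K,
      (∀ i, X * (g (ie i) * g (jf i)) = g (ie i) * g (jf i) * X) →
      (∀ i, Y * (g (ie i) * g (jf i)) = g (ie i) * g (jf i) * Y) →
      X * zt a s g = zt a s g * X → Y * zt a s g = zt a s g * Y → X * Y = Y * X) := by
  have hr : Module.finrank K (l → K) = 2 ^ (s + 1) := by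
    rw [Module.finrank_fintype_fun_eq_card, hc]
  have hG : IsFrame a b (fun i => Trf_Phi (g i)) :=
    Trf_frame ((Trf_Phi (K := K) (l := l)).toAlgHom) hg
  have hcent : ∀ X : Matrix l l K, (∀ i, X * g (ie i) = g (ie i) * X) →
      (∀ i, X * g (jf i) = g (jf i) * X) →
      X * (g (iw 0) * g (iw 1)) = g (iw 0) * g (iw 1) * X →
      ∃ κ m : K, X = κ • 1 + m • (g (iw 0) * g (iw 1)) := by
    intro X he hf hw
    obtain ⟨κ, m, hX⟩ := h2 K a b hd s (l → K) (fun i => Trf_Phi (g i)) hG hr (Trf_Phi X)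
      (fun i => by rw [← map_mul, he i, map_mul]) (fun i => by rw [← map_mul, hf i, map_mul])
      (by rw [← map_mul, ← map_mul, hw, map_mul])
    refine ⟨κ, m, Trf_inj ?_⟩
    rw [hX, map_add, map_smul, map_smul, map_one, map_mul]
  refine ⟨?_, ?_, hcent, ?_, ?_⟩
  · intro g' hg'
    have hG' : IsFrame a b (fun i => Trf_Phi (g' i)) :=
      Trf_frame ((Trf_Phi (K := K) (l := l)).toAlgHom) hg'
    obtain ⟨c, hc'⟩ := h1 K a b hd s (l → K) (l → K) _ _ hG hG' hr hr
    have e1 : (c.toLinearMap : Module.End K (l → K)) * (c.symm.toLinearMap : Module.End K (l → K)) =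
        1 := LinearMap.ext fun w => c.apply_symm_apply w
    have e2 : (c.symm.toLinearMap : Module.End K (l → K)) * (c.toLinearMap : Module.End K (l → K)) =
        1 := LinearMap.ext fun w => c.symm_apply_apply w
    refine ⟨⟨Trf_Phi.symm c.toLinearMap, Trf_Phi.symm c.symm.toLinearMap, ?_, ?_⟩, fun i => ?_⟩
    · rw [← map_mul, e1, map_one]
    · rw [← map_mul, e2, map_one]
    · apply Trf_inj
      change Trf_Phi (Trf_Phi.symm c.toLinearMap * g i) = Trf_Phi (g' i * Trf_Phi.symm c.toLinearMap)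
      rw [map_mul, map_mul, AlgEquiv.apply_symm_apply]
      refine LinearMap.ext fun w => ?_
      exact hc' i w
  · intro X hX
    obtain ⟨κ, m, hκ⟩ := hcent X (fun i => hX _) (fun i => hX _) (by
      rw [← mul_assoc, hX, mul_assoc, hX, mul_assoc])
    obtain ⟨z1, z2, z3⟩ := Trf_z hg
    set z := g (iw 0) * g (iw 1) with hz
    have hX0 := hX (iw 0)
    rw [hκ, add_mul, mul_add, smul_mul_assoc, one_mul, mul_smul_comm, mul_one, smul_mul_assoc, z2,
      mul_smul_comm] at hX0
    have e1 : m • (g (iw 0) * (a • 1 - z)) = m • (g (iw 0) * z) := add_left_cancel hX0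
    have e2 : m • ((a • 1 - z) - z) = 0 := by
      have h5 : g (iw 0) * (m • (g (iw 0) * (a • 1 - z))) = g (iw 0) * (m • (g (iw 0) * z)) := by
        rw [e1]
      rw [mul_smul_comm, mul_smul_comm, ← mul_assoc, ← mul_assoc, z1, one_mul, one_mul] at h5
      rw [smul_sub, h5, sub_self]
    have e3 : ((a • 1 - z) - z) * ((a • 1 - z) - z) = (a ^ 2 - 4 * b) • (1 : Matrix l l K) := by
      have : ((a • 1 - z) - z) * ((a • 1 - z) - z) =
          (a ^ 2) • (1 : Matrix l l K) - (4 * a) • z + (4 : K) • (z * z) := by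
        simp only [sub_mul, mul_sub, smul_mul_assoc, one_mul, mul_smul_comm, mul_one, smul_sub,
          smul_smul]
        module
      rw [this, z3, smul_sub, smul_smul, smul_smul, sub_smul]
      module
    have e4 : (m * (a ^ 2 - 4 * b)) • (1 : Matrix l l K) = (0 : K) • (1 : Matrix l l K) := by
      rw [mul_smul, ← e3, ← smul_mul_assoc, e2, zero_mul, zero_smul]
    have hne : Nonempty l := by
      rw [← Fintype.card_pos_iff, hc]
      positivity
    have e5 := smul_one_inj e4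
    have hm : m = 0 := by
      rcases mul_eq_zero.1 e5 with h | h
      · exact h
      · exact absurd h hd
    exact ⟨κ, by rw [hκ, hm, zero_smul, add_zero]⟩
  · have h5 := h3 K a b hd s (l → K) (fun i => Trf_Phi (g i)) hG hr
    rw [eq_top_iff]
    intro X _
    have h6 : Trf_Phi X ∈ Algebra.adjoin K (Set.range fun i => Trf_Phi (g i)) := by
      rw [h5]
      trivial
    have h7 : Set.range (fun i => Trf_Phi (g i)) =
        (Trf_Phi (K := K) (l := l)).toAlgHom '' Set.range g := by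
      rw [← Set.range_comp]
      rfl
    rw [h7, ← AlgHom.map_adjoin] at h6
    obtain ⟨Y, hY, hYX⟩ := h6
    have h8 : Y = X := Trf_inj hYX
    rw [← h8]
    exact hY
  · intro X Y hX hY hXz hYz
    have hz : zt a s (fun i => Trf_Phi (g i)) = Trf_Phi (zt a s g) :=
      Trf_zt ((Trf_Phi (K := K) (l := l)).toAlgHom) s a g
    have h5 := h4 K a b hd s (l → K) (fun i => Trf_Phi (g i)) hG hr (Trf_Phi X) (Trf_Phi Y)
      (fun i => by rw [← map_mul, ← map_mul, hX i, map_mul])
      (fun i => by rw [← map_mul, ← map_mul, hY i, map_mul])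
      (by rw [hz, ← map_mul, hXz, map_mul]) (by rw [hz, ← map_mul, hYz, map_mul])
    apply Trf_inj
    rw [map_mul, map_mul, h5]

end

theorem tTrf (h1 : ConjVStmt) (h2 : CentVStmt) (h3 : SpanVStmt) (h4 : ComVStmt) (h5 : ExVStmt) :
    TrfStmt := by
  refine ⟨fun K _ l _ _ a b s g hd hc hg => Trf_main h1 h2 h3 h4 a b s g hd hc hg, ?_⟩
  intro K _ a b s
  obtain ⟨W, _, _, _, g, hg, hr⟩ := h5 K a b s
  have β : Module.Basis (Lx s) K W := Module.finBasisOfFinrankEq K W hr
  exact ⟨_, Trf_frame ((LinearMap.toMatrixAlgEquiv β).toAlgHom) hg⟩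

end MP7Z.Ort
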