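import Pool.Agent.Lib.MP_7f581e_Z.Ort.SpecB

/-!
# The centralizer of the idempotents `e_i f_i` in the spin group is commutative (`TrsStmt`)
-/

set_option autoImplicit false

namespace MP7Z.Ort

open TensorProduct MP7fS Matrix

theorem tTrs (trf : TrfStmt) : TrsStmt := by
  intro F _ s D h h' hh hh'
  have h1 := (trf.1 F (Lx s) D.a D.b s D.g D.good.disc.ne_zero D.good.card D.good.frame).2.2.2.2
  apply Subtype.ext
  apply Units.ext
  exact h1 _ _ hh hh' (mem_SG.1 h.2).1 (mem_SG.1 h'.2).1

end MP7Z.Ort
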