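import Pool.Agent.Lib.MP_7f581e_Z.Ort.SpecB

/-!
# The orthogonal type (`TyOStmt`)
-/

set_option autoImplicit false
set_option linter.unusedSectionVars false

namespace MP7Z.Ort

open TensorProduct MP7fS Matrix

/-- In a perfect group an element which is central modulo the centre is central. -/
theorem TyO_grun {H : Type} [Group H] (hperf : commutator H = ⊤) (h : H)
    (h1 : ∀ h' : H, h * h' * h⁻¹ * h'⁻¹ ∈ Subgroup.center H) : h ∈ Subgroup.center H := by
  let φ : H →* Subgroup.center H :=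
    { toFun := fun h' => ⟨h * h' * h⁻¹ * h'⁻¹, h1 h'⟩
      map_one' := Subtype.ext (by
        change h * 1 * h⁻¹ * 1⁻¹ = 1
        group)
      map_mul' := by
        intro x y
        apply Subtype.ext
        change h * (x * y) * h⁻¹ * (x * y)⁻¹ = (h * x * h⁻¹ * x⁻¹) * (h * y * h⁻¹ * y⁻¹)
        have h2 := Subgroup.mem_center_iff.1 (h1 y) x
        calc h * (x * y) * h⁻¹ * (x * y)⁻¹ =
            (h * x * h⁻¹ * x⁻¹) * (x * (h * y * h⁻¹ * y⁻¹)) * x⁻¹ := by group
          _ = _ := by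
            rw [h2]
            group }
  have h3 : commutator H ≤ φ.ker := by
    rw [commutator_def, Subgroup.commutator_le]
    intro a _ b _
    rw [MonoidHom.mem_ker, map_commutatorElement, commutatorElement_eq_one_iff_mul_comm]
    exact Subtype.ext (Subgroup.mem_center_iff.1 (φ b).2 (φ a : H))
  rw [hperf] at h3
  rw [Subgroup.mem_center_iff]
  intro h'
  have h4 : φ h' = 1 := h3 (Subgroup.mem_top h')
  have h5 : h * h' * h⁻¹ * h'⁻¹ = 1 := congrArg Subtype.val h4
  calc h' * h = (h * h' * h⁻¹ * h'⁻¹) * (h' * h) := by rw [h5, one_mul]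
    _ = h * h' := by group

theorem TyO_cent {H : Type} [Group H] (hperf : commutator H = ⊤) :
    Subgroup.center (H ⧸ Subgroup.center H) = ⊥ := by
  rw [eq_bot_iff]
  intro t ht
  obtain ⟨h, rfl⟩ := QuotientGroup.mk'_surjective (Subgroup.center H) t
  rw [Subgroup.mem_bot, QuotientGroup.mk'_apply, QuotientGroup.eq_one_iff]
  apply TyO_grun hperf
  intro h'
  rw [← QuotientGroup.eq_one_iff]
  have h1 := Subgroup.mem_center_iff.1 ht (h' : H ⧸ Subgroup.center H)
  rw [QuotientGroup.mk'_apply] at h1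
  change (h : H ⧸ Subgroup.center H) * h' * (h : H ⧸ Subgroup.center H)⁻¹ *
    (h' : H ⧸ Subgroup.center H)⁻¹ = 1
  rw [← h1]
  group

/-- A commutative subgroup is solvable. -/
theorem TyO_solv {G : Type} [Group G] (T : Subgroup G) (h : ∀ a ∈ T, ∀ b ∈ T, a * b = b * a) :
    Group.IsSolvable T := by
  have h1 : ∀ a b : T, a * b = b * a := fun a b => Subtype.ext (h a a.2 b b.2)
  exact Group.isSolvable_of_comm h1

section

variable {p : ℕ} [Fact p.Prime] {F : Type} [Field F] [Algebra (ZMod p) F] {s : ℕ} (D : Dat F s)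

/-- The elements commuting with the idempotents `e_i f_i`. -/
def TyO_T : Subgroup D.H where
  carrier := {h | ∀ i, ((h : GL (Lx s) F) : Matrix (Lx s) (Lx s) F) * (D.g (ie i) * D.g (jf i)) =
      D.g (ie i) * D.g (jf i) * ((h : GL (Lx s) F) : Matrix (Lx s) (Lx s) F)}
  one_mem' := fun i => by
    change (1 : Matrix (Lx s) (Lx s) F) * _ = _ * (1 : Matrix (Lx s) (Lx s) F)
    rw [Matrix.one_mul, Matrix.mul_one]
  mul_mem' := fun {x y} hx hy i => by
    change ((x : GL (Lx s) F) : Matrix (Lx s) (Lx s) F) * ((y : GL (Lx s) F) :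
      Matrix (Lx s) (Lx s) F) * _ = _ * (((x : GL (Lx s) F) : Matrix (Lx s) (Lx s) F) *
        ((y : GL (Lx s) F) : Matrix (Lx s) (Lx s) F))
    rw [Matrix.mul_assoc, hy i, ← Matrix.mul_assoc, hx i, Matrix.mul_assoc]
  inv_mem' := fun {x} hx i => by
    have h1 : Commute ((x : GL (Lx s) F) : Matrix (Lx s) (Lx s) F)
      (D.g (ie i) * D.g (jf i)) := hx i
    exact h1.units_inv_left

end

theorem tTyO (prf : PrfStmt) (fxe : FxeStmt) (std : StdStmt) (adh : AdhStmt) (trs : TrsStmt) :
    TyOStmt := by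
  intro p _ F _ _ _ s D hex hsimple hsur
  have hperf := prf F s D
  -- the inner automorphisms
  have hinner : ∀ (h : D.H) (y : D.A p),
      (∀ X : D.C0 p, D.r p y X = D.inc p h * X * D.inc p h⁻¹) → ∀ t : D.SQ,
      MP7fW.cQ (D.inc p) (D.inc_injective p) (D.r p) hex y t =
        (h : D.SQ) * t * (h : D.SQ)⁻¹ := by
    intro h y hy t
    obtain ⟨u, rfl⟩ := QuotientGroup.mk'_surjective (Subgroup.center D.H) t
    have h1 : D.inc p (h * u * h⁻¹) = D.r p y (D.inc p u) := by
      rw [hy, map_mul, map_mul]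
    exact MP7fW.cQ_mk' (D.inc p) (D.inc_injective p) (D.r p) hex y h1
  have hfix : ∀ x : D.A p,
      (∀ t : D.SQ, MP7fW.cQ (D.inc p) (D.inc_injective p) (D.r p) hex x t = t) → x = 1 := by
    intro x hx
    refine fxe p F s D x fun h => ?_
    obtain ⟨h', hh'⟩ := hex x h
    have h1 := MP7fW.cQ_mk' (D.inc p) (D.inc_injective p) (D.r p) hex x hh'
    rw [hx] at h1
    refine ⟨h' * h⁻¹, ?_, ?_⟩
    · rw [← QuotientGroup.eq_one_iff]
      change (h' : D.SQ) * (h : D.SQ)⁻¹ = 1
      rw [← h1, mul_inv_cancel]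
    · rw [← hh', inv_mul_cancel_right]
  refine { perf := hperf, simple := hsimple, cent := TyO_cent hperf, sur := ?_, fix := hfix,
           std := ?_, solv := ?_ }
  · intro φ
    obtain ⟨x, hx⟩ := hsur φ
    refine ⟨x, fun t => ?_⟩
    rw [hx]
    rfl
  · intro x
    obtain ⟨h, hh⟩ := std p F (s + 2) D x
    obtain ⟨y, hy⟩ := adh p F (s + 2) D h
    refine ⟨(h : D.SQ), y * x, fun i => ?_, fun t => ?_⟩
    · change D.r p (y * x) (D.id_ef p i) = D.id_ef p i
      rw [map_mul]
      change D.r p y (D.r p x (D.id_ef p i)) = D.id_ef p i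
      rw [hy, hh]
    · rw [map_mul]
      exact hinner h y hy _
  · refine ⟨(TyO_T D).map (QuotientGroup.mk' (Subgroup.center D.H)), TyO_solv _ ?_, ?_⟩
    · rintro _ ⟨a, ha, rfl⟩ _ ⟨b, hb, rfl⟩
      rw [← map_mul, ← map_mul, trs F (s + 2) D a b ha hb]
    · rintro t ⟨y, hy, hyt⟩
      obtain ⟨h, rfl⟩ := QuotientGroup.mk'_surjective (Subgroup.center D.H) t
      obtain ⟨y', hy'⟩ := adh p F (s + 2) D h
      have h1 := hinner h y' hy'
      have h2 : y'⁻¹ * y = 1 := by
        apply hfix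
        intro t
        have h3 : MP7fW.cQ (D.inc p) (D.inc_injective p) (D.r p) hex y t =
            MP7fW.cQ (D.inc p) (D.inc_injective p) (D.r p) hex y' t := by
          rw [hyt t, h1 t]
          rfl
        rw [map_mul, map_inv]
        change (MP7fW.cQ (D.inc p) (D.inc_injective p) (D.r p) hex y')⁻¹
          (MP7fW.cQ (D.inc p) (D.inc_injective p) (D.r p) hex y t) = t
        rw [h3]
        exact MulAut.inv_apply_self _ _ _
      have h3 : y = y' := (inv_mul_eq_one.1 h2).symm
      refine ⟨h, fun i => ?_, rfl⟩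
      have h4 : D.r p y (D.id_ef p i) = D.id_ef p i := hy i
      rw [h3, hy'] at h4
      have h5 : D.inc p h * D.id_ef p i = D.id_ef p i * D.inc p h := by
        have h6 : D.inc p h * D.id_ef p i * D.inc p h⁻¹ * D.inc p h =
            D.id_ef p i * D.inc p h := by rw [h4]
        rwa [mul_assoc _ (D.inc p h⁻¹), ← map_mul, inv_mul_cancel, map_one, mul_one] at h6
      exact congrArg Subtype.val h5

end MP7Z.Ort
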