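import Pool.Agent.Lib.MP_7f581e_Z.Ort.SpecA

/-!
# Orthogonal groups: the base case, two-dimensional frames
-/

set_option autoImplicit false

namespace MP7Z.Ort

open TensorProduct MP7fS Matrix

theorem tVac : VacStmt := by
  intro K W _ _ _ _ a b g hab h hd
  have h0 : g (iw 0) * g (iw 0) = 1 := by rw [h.sq, qf_w0, one_smul]
  have h1 : g (iw 1) * g (iw 1) = b • 1 := by rw [h.sq, qf_w1]
  have h01 : g (iw 1) * g (iw 0) = a • 1 - g (iw 0) * g (iw 1) := by
    have h2 := h.anti' (iw 1) (iw 0)
    rw [bf_w0] at h2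
    have h3 : 2 * bv K (iw 1) (iw 0 : Ix 0) + a * bv K (iw 1) (iw 1 : Ix 0) = a := by
      simp [bv_apply]
    rw [h3] at h2
    exact eq_sub_of_add_eq h2
  generalize g (iw 0) = w0 at *
  generalize g (iw 1) = w1 at *
  have e0 : ∀ x, w0 (w0 x) = x := fun x => LinearMap.congr_fun h0 x
  have e1 : ∀ x, w1 (w1 x) = b • x := fun x => LinearMap.congr_fun h1 x
  have e01 : ∀ x, w1 (w0 x) = a • x - w0 (w1 x) := fun x => LinearMap.congr_fun h01 x
  have : Nontrivial W := Module.nontrivial_of_finrank_pos (R := K) (by rw [hd]; norm_num)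
  obtain ⟨y, hy⟩ : ∃ y, w0 y + y ≠ 0 := by
    by_contra hne
    push Not at hne
    obtain ⟨x, hx⟩ := exists_ne (0 : W)
    have hm : ∀ y, w0 y = -y := fun y => eq_neg_of_add_eq_zero_left (hne y)
    have h2 : (2 : K) • w1 x = -(a • x) := by
      have h3 := e01 x
      rw [hm x, hm (w1 x), map_neg, sub_neg_eq_add] at h3
      rw [two_smul]
      have h4 : w1 x + w1 x = w1 x - (-w1 x) := by abel
      rw [h4, h3]
      abel
    have h3 : (2 : K) • (b • x) = -(a • w1 x) := by
      rw [← e1 x, ← map_smul, h2, map_neg, map_smul]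
    have h4 : (a ^ 2 - 4 * b) • x = 0 := by
      have h5 : (4 * b) • x = (2 : K) • ((2 : K) • (b • x)) := by
        rw [smul_smul, smul_smul]
        congr 1
        ring
      have h6 : (4 * b) • x = a ^ 2 • x := by
        rw [h5, h3, smul_neg, smul_comm, h2, smul_neg, neg_neg, smul_smul, pow_two]
      rw [sub_smul, h6, sub_self]
    rcases smul_eq_zero.mp h4 with h5 | h5
    · exact hab h5
    · exact hx h5
  have hu : w0 (w0 y + y) = w0 y + y := by rw [map_add, e0, add_comm]
  generalize w0 y + y = u at *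
  have hzu : w0 (w1 u) = a • u - w1 u := by
    have h2 := e01 u
    rw [hu, eq_sub_iff_add_eq] at h2
    rw [eq_sub_iff_add_eq, add_comm]
    exact h2
  have hli : LinearIndependent K ![u, w1 u] := by
    rw [LinearIndependent.pair_iff' hy]
    intro κ hκ
    have h2 : (2 * κ) • u = a • u := by
      have h3 := hzu
      rw [← hκ, map_smul, hu] at h3
      rw [two_mul, add_smul]
      nth_rewrite 1 [h3]
      abel
    have h3 : (κ * κ) • u = b • u := by
      rw [← e1 u, ← hκ, map_smul, ← hκ, smul_smul]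
    have h4 : (2 * κ - a) • u = 0 := by rw [sub_smul, h2, sub_self]
    have h5 : (κ * κ - b) • u = 0 := by rw [sub_smul, h3, sub_self]
    have h6 : 2 * κ - a = 0 := (smul_eq_zero.mp h4).resolve_right hy
    have h7 : κ * κ - b = 0 := (smul_eq_zero.mp h5).resolve_right hy
    apply hab
    linear_combination (-(2 * κ + a)) * h6 + 4 * h7
  refine ⟨u, hu, hzu, e1 u, basisOfLinearIndependentOfCardEqFinrank hli (by simp [hd]), ?_, ?_⟩
  · simp
  · simp

end MP7Z.Ort
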