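import Pool.Agent.Lib.MP_7f581e_Z.Ort.SpecB

/-!
# Commuting with `ζ` and the hyperbolic pairs
-/

set_option autoImplicit false
set_option linter.unusedSectionVars false

namespace MP7Z.Ort

open TensorProduct MP7fS Matrix

theorem tZdn : ZdnStmt := by
  intro K _ l _ _ a b s
  induction s with
  | zero =>
    intro g hF X _ _ hX
    exact hX
  | succ s ih =>
    intro g hF X he hf hX
    have hR := hF.restrict
    refine ih (g ∘ cIx) hR X (fun i => he i.castSucc) (fun i => hf i.castSucc) ?_
    set e := g (ie (Fin.last s)) with hed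
    set f := g (jf (Fin.last s)) with hfd
    set z := zt a s (g ∘ cIx) with hz
    have hXe : X * e = e * X := he _
    have hXf : X * f = f * X := hf _
    have ee : e * e = 0 := hF.ee _
    have ef : e * f + f * e = 1 := hF.ef _
    have hze : z * e = e * z := zt_comm_of_anti e s _ fun i => hF.anti_e' i
    have hzf : z * f = f * z := zt_comm_of_anti f s _ fun i => hF.anti_f' i
    have hefe : e * f * e = e := by
      have h5 : e * (e * f + f * e) = e := by rw [ef, Matrix.mul_one]
      rwa [Matrix.mul_add, ← Matrix.mul_assoc, ee, Matrix.zero_mul, zero_add,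
        ← Matrix.mul_assoc] at h5
    have hζ : zt a (s + 1) g = z * (e * f) + (a • 1 - z) * (f * e) := rfl
    have hζe : zt a (s + 1) g * e = z * e := by
      rw [hζ, Matrix.add_mul, Matrix.mul_assoc, hefe, Matrix.mul_assoc (a • 1 - z),
        Matrix.mul_assoc f, ee, Matrix.mul_zero, Matrix.mul_zero, add_zero]
    have h1 : X * (z * e) = z * e * X := by
      rw [← hζe, ← Matrix.mul_assoc, hX, Matrix.mul_assoc, hXe, ← Matrix.mul_assoc]
    have h2 : z = z * e * f + f * (z * e) := by
      calc z = z * (e * f + f * e) := by rw [ef, Matrix.mul_one]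
        _ = _ := by
          rw [Matrix.mul_add, ← Matrix.mul_assoc, ← Matrix.mul_assoc z f, hzf, Matrix.mul_assoc f]
    calc X * z = X * (z * e) * f + X * f * (z * e) := by
          conv_lhs => rw [h2]
          rw [Matrix.mul_add, ← Matrix.mul_assoc X (z * e), ← Matrix.mul_assoc X f]
      _ = z * e * f * X + f * (z * e) * X := by
        rw [h1, hXf, Matrix.mul_assoc (z * e) X f, hXf, Matrix.mul_assoc f X, h1]
        simp only [Matrix.mul_assoc]
      _ = z * X := by rw [← Matrix.add_mul, ← h2]

end MP7Z.Ort
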