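import Pool.Agent.Lib.MP_7f581e_Z.Ort.Dec
import Pool.Agent.Lib.MP_7f581e_Z.Ort.Vac
import Pool.Agent.Lib.MP_7f581e_Z.Ort.ResF
import Pool.Agent.Lib.MP_7f581e_Z.Ort.ConjV
import Pool.Agent.Lib.MP_7f581e_Z.Ort.CentV
import Pool.Agent.Lib.MP_7f581e_Z.Ort.SpanV
import Pool.Agent.Lib.MP_7f581e_Z.Ort.ComV
import Pool.Agent.Lib.MP_7f581e_Z.Ort.ExV
import Pool.Agent.Lib.MP_7f581e_Z.Ort.Trf
import Pool.Agent.Lib.MP_7f581e_Z.Ort.Cen
import Pool.Agent.Lib.MP_7f581e_Z.Ort.SpnE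
import Pool.Agent.Lib.MP_7f581e_Z.Ort.Exi
import Pool.Agent.Lib.MP_7f581e_Z.Ort.Che
import Pool.Agent.Lib.MP_7f581e_Z.Ort.Hyp
import Pool.Agent.Lib.MP_7f581e_Z.Ort.Cls
import Pool.Agent.Lib.MP_7f581e_Z.Ort.Frm
import Pool.Agent.Lib.MP_7f581e_Z.Ort.Adj
import Pool.Agent.Lib.MP_7f581e_Z.Ort.FxM
import Pool.Agent.Lib.MP_7f581e_Z.Ort.Des
import Pool.Agent.Lib.MP_7f581e_Z.Ort.LaC
import Pool.Agent.Lib.MP_7f581e_Z.Ort.Ext
import Pool.Agent.Lib.MP_7f581e_Z.Ort.ExA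
import Pool.Agent.Lib.MP_7f581e_Z.Ort.Act
import Pool.Agent.Lib.MP_7f581e_Z.Ort.G1c
import Pool.Agent.Lib.MP_7f581e_Z.Ort.Sie
import Pool.Agent.Lib.MP_7f581e_Z.Ort.Nwe
import Pool.Agent.Lib.MP_7f581e_Z.Ort.Tra
import Pool.Agent.Lib.MP_7f581e_Z.Ort.Zdn
import Pool.Agent.Lib.MP_7f581e_Z.Ort.Gm0
import Pool.Agent.Lib.MP_7f581e_Z.Ort.Gmk
import Pool.Agent.Lib.MP_7f581e_Z.Ort.GenO
import Pool.Agent.Lib.MP_7f581e_Z.Ort.FrT
import Pool.Agent.Lib.MP_7f581e_Z.Ort.Prf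
import Pool.Agent.Lib.MP_7f581e_Z.Ort.SpH
import Pool.Agent.Lib.MP_7f581e_Z.Ort.Adh
import Pool.Agent.Lib.MP_7f581e_Z.Ort.Std
import Pool.Agent.Lib.MP_7f581e_Z.Ort.Trs
import Pool.Agent.Lib.MP_7f581e_Z.Ort.Fxe
import Pool.Agent.Lib.MP_7f581e_Z.Ort.TyO
import Pool.Agent.Lib.MP_7f581e_Z.Ort.Gru
import Pool.Agent.Lib.MP_7f581e_Z.Ort.Rho
import Pool.Agent.Lib.MP_7f581e_Z.Ort.Gex
import Pool.Agent.Lib.MP_7f581e_Z.Ort.Tgg
import Pool.Agent.Lib.MP_7f581e_Z.Ort.Zaa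
import Pool.Agent.Lib.MP_7f581e_Z.Ort.Cmm
import Pool.Agent.Lib.MP_7f581e_Z.Ort.OmS
import Pool.Agent.Lib.MP_7f581e_Z.Ort.Odd
import Pool.Agent.Lib.MP_7f581e_Z.Ort.ClE
import Pool.Agent.Lib.MP_7f581e_Z.Ort.ClO
import Pool.Agent.Lib.MP_7f581e_Z.Ort.An8

/-!
# Orthogonal groups: the statements of parts A, B and E, unconditionally
-/

set_option autoImplicit false

namespace MP7Z.Ort

theorem aConjV : ConjVStmt := tConjV tDec tVac tResF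

theorem aCentV : CentVStmt := tCentV tDec tVac tResF

theorem aSpanV : SpanVStmt := tSpanV tDec tVac tResF

theorem aComV : ComVStmt := tComV tDec tVac tResF aCentV

theorem aTrf : TrfStmt := tTrf aConjV aCentV aSpanV aComV tExV

theorem aCen : CenStmt := tCen aTrf

theorem aSpnE : SpnEStmt := tSpnE aTrf

theorem aExi : ExiStmt := tExi aTrf

theorem aCls : ClsStmt := tCls tChe tHyp

theorem aFrm : FrmStmt := tFrm aCls

theorem aAdj : AdjStmt := tAdj aCen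

theorem aLaC : LaCStmt := tLaC aTrf

theorem aExt : ExtStmt := tExt tChe aTrf

theorem aExA : ExAStmt := tExA aSpnE

theorem aSie : SieStmt := tSie tAct tG1c

theorem aNwe : NweStmt := tNwe tAct tG1c

theorem aTra : TraStmt := tTra tAct tG1c aNwe

theorem aGm0 : Gm0Stmt := tGm0 aNwe tZdn aTrf

theorem aGmk : GmkStmt := tGmk tAct tG1c aSie aNwe aTra aGm0

theorem aGenO : GenOStmt := tGenO tAct tG1c aTra aGmk

theorem aFrT : FrTStmt := tFrT tAct tG1c aTra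

theorem aPrf : PrfStmt := tPrf tAct aGenO

theorem aCmm : CmmStmt := tCmm (tZaa aCen) aTrf

theorem aOmS : OmSStmt := tOmS tGru tRho tGex (tTgg aTrf) aCmm aPrf aTrf

theorem aOdd : OddStmt := tOdd tChe tHyp

theorem aClE : ClEStmt := tClE aCls aExi

theorem aClO : ClOStmt := tClO aOdd aCls aExi

end MP7Z.Ort
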