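import Mathlib

/-!
# Orthogonal groups, part D: groups acting on quadratic spaces, with Siegel elements

`G : SpD K V H`: a group `H` acting on a quadratic space `V` with elements `si x v`
(`q x = 0`, `B x v = 0`) acting as the Siegel transformations `z ↦ z + B(z,v) x - B(z,x) v - B(z,x) q(v) x`.
-/

set_option autoImplicit false
set_option linter.unusedSectionVars false

namespace MP7Z.Ord

section quad

variable {K W : Type} [Field K] [AddCommGroup W] [Module K W] (q : QuadraticForm K W)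

/-- The polar form. -/
abbrev pl (x y : W) : K := QuadraticMap.polar q x y

theorem pl_comm (x y : W) : pl q x y = pl q y x := QuadraticMap.polar_comm _ _ _

theorem pl_addl (x y z : W) : pl q (x + y) z = pl q x z + pl q y z :=
  QuadraticMap.polar_add_left _ _ _ _

theorem pl_addr (x y z : W) : pl q x (y + z) = pl q x y + pl q x z :=
  QuadraticMap.polar_add_right _ _ _ _

theorem pl_subl (x y z : W) : pl q (x - y) z = pl q x z - pl q y z :=
  QuadraticMap.polar_sub_left _ _ _ _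

theorem pl_subr (x y z : W) : pl q x (y - z) = pl q x y - pl q x z :=
  QuadraticMap.polar_sub_right _ _ _ _

theorem pl_negl (x y : W) : pl q (-x) y = -pl q x y := QuadraticMap.polar_neg_left _ _ _

theorem pl_negr (x y : W) : pl q x (-y) = -pl q x y := QuadraticMap.polar_neg_right _ _ _

theorem pl_smull (c : K) (x y : W) : pl q (c • x) y = c * pl q x y :=
  QuadraticMap.polar_smul_left _ _ _ _

theorem pl_smulr (c : K) (x y : W) : pl q x (c • y) = c * pl q x y :=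
  QuadraticMap.polar_smul_right _ _ _ _

theorem pl_zerol (x : W) : pl q 0 x = 0 := QuadraticMap.polar_zero_left _ _

theorem pl_zeror (x : W) : pl q x 0 = 0 := QuadraticMap.polar_zero_right _ _

theorem pl_self (x : W) : pl q x x = 2 * q x := by
  rw [pl, QuadraticMap.polar_self]
  simp

theorem q_add (x y : W) : q (x + y) = q x + q y + pl q x y := QuadraticMap.map_add _ _ _

theorem q_smul (c : K) (x : W) : q (c • x) = c ^ 2 * q x := by
  rw [QuadraticMap.map_smul, smul_eq_mul, pow_two]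

theorem q_neg (x : W) : q (-x) = q x := QuadraticMap.map_neg _ _

theorem q_sub (x y : W) : q (x - y) = q x + q y - pl q x y := by
  rw [sub_eq_add_neg, q_add, q_neg, pl_negr, ← sub_eq_add_neg]

/-- The polar form is nondegenerate. -/
def Nd : Prop := ∀ x, (∀ y, pl q x y = 0) → x = 0

/-- There are two orthogonal hyperbolic pairs. -/
def Hyp2 : Prop := ∃ a b a' b' : W, q a = 0 ∧ q b = 0 ∧ q a' = 0 ∧ q b' = 0 ∧ pl q a b = 1 ∧
  pl q a' b' = 1 ∧ pl q a a' = 0 ∧ pl q a b' = 0 ∧ pl q b a' = 0 ∧ pl q b b' = 0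

/-- The Siegel transformation. -/
def sie (x v z : W) : W := z + pl q z v • x - pl q z x • v - (pl q z x * q v) • x

end quad

/-- A group with an action on a quadratic space, Siegel elements and a hyperbolic pair. -/
structure SpD (K V H : Type) [Field K] [AddCommGroup V] [Module K V] [Group H] where
  q : QuadraticForm K V
  ac : H →* (V ≃ₗ[K] V)
  si : V → V → H
  e : V
  f : V

namespace SpD

variable {K V H : Type} [Field K] [AddCommGroup V] [Module K V] [Group H] (G : SpD K V H)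

/-- The orthogonal complement of `e` and `f`. -/
def U : Submodule K V where
  carrier := {v | pl G.q G.e v = 0 ∧ pl G.q G.f v = 0}
  zero_mem' := ⟨pl_zeror _ _, pl_zeror _ _⟩
  add_mem' := fun {v w} hv hw => ⟨by rw [pl_addr, hv.1, hw.1, add_zero],
    by rw [pl_addr, hv.2, hw.2, add_zero]⟩
  smul_mem' := fun c v hv => ⟨by rw [pl_smulr, hv.1, mul_zero],
    by rw [pl_smulr, hv.2, mul_zero]⟩

theorem mem_U {v : V} : v ∈ G.U ↔ pl G.q G.e v = 0 ∧ pl G.q G.f v = 0 := Iff.rfl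

/-- The quadratic form on `U`. -/
def qU : QuadraticForm K G.U := G.q.comp G.U.subtype

theorem qU_apply (u : G.U) : G.qU u = G.q (u : V) := rfl

theorem pl_qU (u v : G.U) : pl G.qU u v = pl G.q (u : V) (v : V) := rfl

theorem sie_qU (x v z : G.U) : ((sie G.qU x v z : G.U) : V) = sie G.q (x : V) (v : V) (z : V) := rfl

/-- The group `R_x` of the Siegel elements `si x v`. -/
def R (x : V) : Subgroup H := Subgroup.closure {h | ∃ v, pl G.q x v = 0 ∧ h = G.si x v}

/-- The stabilizer of the line spanned by `x`. -/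
def P (x : V) : Subgroup H where
  carrier := {h | ∃ c : K, c ≠ 0 ∧ G.ac h x = c • x}
  one_mem' := ⟨1, one_ne_zero, by rw [map_one, one_smul]; rfl⟩
  mul_mem' := by
    rintro h k ⟨c, hc, h1⟩ ⟨d, hd, h2⟩
    refine ⟨d * c, mul_ne_zero hd hc, ?_⟩
    rw [map_mul, LinearEquiv.mul_apply, h2, map_smul, h1, smul_smul]
  inv_mem' := by
    rintro h ⟨c, hc, h1⟩
    refine ⟨c⁻¹, inv_ne_zero hc, ?_⟩
    rw [map_inv]
    change (G.ac h).symm x = _
    rw [LinearEquiv.symm_apply_eq, map_smul, h1, smul_smul, inv_mul_cancel₀ hc, one_smul]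

theorem mem_P {x : V} {h : H} : h ∈ G.P x ↔ ∃ c : K, c ≠ 0 ∧ G.ac h x = c • x := Iff.rfl

/-- The stabilizer of a subspace. -/
def St (W : Submodule K V) : Subgroup H where
  carrier := {h | ∀ v, G.ac h v ∈ W ↔ v ∈ W}
  one_mem' := fun v => by rw [map_one]; exact Iff.rfl
  mul_mem' := by
    intro h k h1 h2 v
    rw [map_mul, LinearEquiv.mul_apply, h1, h2]
  inv_mem' := by
    intro h h1 v
    rw [← h1, map_inv]
    change (G.ac h) ((G.ac h).symm v) ∈ W ↔ v ∈ W
    rw [LinearEquiv.apply_symm_apply]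

theorem mem_St {W : Submodule K V} {h : H} : h ∈ G.St W ↔ ∀ v, G.ac h v ∈ W ↔ v ∈ W := Iff.rfl

/-- `φ` maps the image of `R_x` in `H / Z(H)` to the image of `R_y`. -/
def Snd (φ : (H ⧸ Subgroup.center H) ≃* (H ⧸ Subgroup.center H)) (x y : V) : Prop :=
  ((G.R x).map (QuotientGroup.mk' (Subgroup.center H))).map φ.toMonoidHom =
    (G.R y).map (QuotientGroup.mk' (Subgroup.center H))

/-- The basic properties. -/
structure IsS0 : Prop where
  nd : Nd G.q
  iso : ∀ h v, G.q (G.ac h v) = G.q v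
  act : ∀ x v, G.q x = 0 → pl G.q x v = 0 → ∀ z, G.ac (G.si x v) z = sie G.q x v z
  mul : ∀ x v w, G.q x = 0 → pl G.q x v = 0 → pl G.q x w = 0 → G.si x v * G.si x w = G.si x (v + w)
  sml : ∀ (c : K) (x v : V), G.q x = 0 → pl G.q x v = 0 → G.si (c • x) v = G.si x (c • v)
  slf : ∀ (c : K) (x : V), G.q x = 0 → G.si x (c • x) = 1
  cnj : ∀ h x v, G.q x = 0 → pl G.q x v = 0 → h * G.si x v * h⁻¹ = G.si (G.ac h x) (G.ac h v)
  ker : ∀ h (c : K), (∀ v, G.ac h v = c • v) → h ∈ Subgroup.center H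
  qe : G.q G.e = 0
  qf : G.q G.f = 0
  ef : pl G.q G.e G.f = 1
  hyp : Hyp2 G.qU

/-- All properties. -/
structure IsSp (p : ℕ) : Prop extends G.IsS0 where
  ze : ¬ p ∣ Nat.card (Subgroup.center H)
  gen : Subgroup.closure {h | ∃ v ∈ G.U, h = G.si G.e v ∨ h = G.si G.f v} = ⊤

variable {G}

namespace IsS0

variable (h0 : G.IsS0)

include h0

theorem isoB (h : H) (v w : V) : pl G.q (G.ac h v) (G.ac h w) = pl G.q v w := by
  change G.q (G.ac h v + G.ac h w) - G.q (G.ac h v) - G.q (G.ac h w) =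
    G.q (v + w) - G.q v - G.q w
  rw [← map_add, h0.iso, h0.iso, h0.iso]

theorem acB (h : H) (v w : V) : pl G.q (G.ac h v) w = pl G.q v (G.ac h⁻¹ w) := by
  rw [← h0.isoB h v, map_inv]
  change _ = pl G.q _ (G.ac h ((G.ac h).symm w))
  rw [LinearEquiv.apply_symm_apply]

theorem si_zero {x : V} (hx : G.q x = 0) : G.si x 0 = 1 := by
  have h1 := h0.slf 0 x hx
  rwa [zero_smul] at h1

theorem si_inv {x v : V} (hx : G.q x = 0) (hv : pl G.q x v = 0) : (G.si x v)⁻¹ = G.si x (-v) := by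
  rw [inv_eq_iff_mul_eq_one, h0.mul x v (-v) hx hv (by rw [pl_negr, hv, neg_zero]),
    add_neg_cancel, h0.si_zero hx]

theorem si_pow {x v : V} (hx : G.q x = 0) (hv : pl G.q x v = 0) (n : ℕ) :
    G.si x v ^ n = G.si x (n • v) := by
  induction n with
  | zero => rw [pow_zero, zero_smul, h0.si_zero hx]
  | succ n ih =>
    have h1 : pl G.q x (n • v) = 0 := by
      rw [← Nat.cast_smul_eq_nsmul K, pl_smulr, hv, mul_zero]
    rw [pow_succ, ih, h0.mul x _ _ hx h1 hv, succ_nsmul]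

theorem si_p (p : ℕ) [CharP K p] {x v : V} (hx : G.q x = 0) (hv : pl G.q x v = 0) :
    G.si x v ^ p = 1 := by
  rw [h0.si_pow hx hv, ← Nat.cast_smul_eq_nsmul K, CharP.cast_eq_zero, zero_smul,
    h0.si_zero hx]

theorem mem_R {x : V} (hx : G.q x = 0) {h : H} :
    h ∈ G.R x ↔ ∃ v, pl G.q x v = 0 ∧ h = G.si x v := by
  constructor
  · intro hh
    induction hh using Subgroup.closure_induction with
    | mem h hh => exact hh
    | one => exact ⟨0, pl_zeror _ _, (h0.si_zero hx).symm⟩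
    | mul h k _ _ h1 h2 =>
      obtain ⟨v, hv, rfl⟩ := h1
      obtain ⟨w, hw, rfl⟩ := h2
      exact ⟨v + w, by rw [pl_addr, hv, hw, add_zero], h0.mul x v w hx hv hw⟩
    | inv h _ h1 =>
      obtain ⟨v, hv, rfl⟩ := h1
      exact ⟨-v, by rw [pl_negr, hv, neg_zero], h0.si_inv hx hv⟩
  · intro hh
    exact Subgroup.subset_closure hh

theorem si_mem {x v : V} (hv : pl G.q x v = 0) : G.si x v ∈ G.R x :=
  Subgroup.subset_closure ⟨v, hv, rfl⟩

theorem R_pgroup (p : ℕ) [CharP K p] {x : V} (hx : G.q x = 0) : IsPGroup p (G.R x) := by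
  rintro ⟨h, hh⟩
  obtain ⟨v, hv, rfl⟩ := (h0.mem_R hx).1 hh
  refine ⟨1, Subtype.ext ?_⟩
  rw [pow_one]
  exact h0.si_p p hx hv

theorem R_comm {x : V} (hx : G.q x = 0) {h k : H} (hh : h ∈ G.R x) (hk : k ∈ G.R x) :
    h * k = k * h := by
  obtain ⟨v, hv, rfl⟩ := (h0.mem_R hx).1 hh
  obtain ⟨w, hw, rfl⟩ := (h0.mem_R hx).1 hk
  rw [h0.mul x v w hx hv hw, h0.mul x w v hx hw hv, add_comm]

/-- `R_{h x} = h R_x h⁻¹`. -/
theorem R_conj (g : H) {x : V} (hx : G.q x = 0) {h : H} :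
    g * h * g⁻¹ ∈ G.R (G.ac g x) ↔ h ∈ G.R x := by
  have hx' : G.q (G.ac g x) = 0 := by rw [h0.iso, hx]
  constructor
  · intro hh
    obtain ⟨v, hv, h1⟩ := (h0.mem_R hx').1 hh
    refine (h0.mem_R hx).2 ⟨G.ac g⁻¹ v, ?_, ?_⟩
    · rw [← h0.acB, hv]
    · have h2 : h = g⁻¹ * G.si (G.ac g x) v * g := by
        rw [← h1]
        group
      have h3 := h0.cnj g⁻¹ (G.ac g x) v hx' hv
      rw [inv_inv] at h3
      rw [h2, h3]
      congr 1
      rw [map_inv]
      exact LinearEquiv.symm_apply_apply _ _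
  · intro hh
    obtain ⟨v, hv, rfl⟩ := (h0.mem_R hx).1 hh
    exact (h0.mem_R hx').2 ⟨G.ac g v, by rw [h0.isoB, hv], h0.cnj g x v hx hv⟩

theorem R_smul {x : V} (hx : G.q x = 0) {c : K} (hc : c ≠ 0) : G.R (c • x) = G.R x := by
  have hx' : G.q (c • x) = 0 := by rw [q_smul, hx, mul_zero]
  ext h
  rw [h0.mem_R hx, h0.mem_R hx']
  constructor
  · rintro ⟨v, hv, rfl⟩
    rw [pl_smull] at hv
    have hv' := (mul_eq_zero.1 hv).resolve_left hc
    exact ⟨c • v, by rw [pl_smulr, hv', mul_zero], h0.sml c x v hx hv'⟩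
  · rintro ⟨v, hv, rfl⟩
    refine ⟨c⁻¹ • v, by rw [pl_smulr, pl_smull, hv, mul_zero, mul_zero], ?_⟩
    rw [h0.sml c x _ hx (by rw [pl_smulr, hv, mul_zero]), smul_smul, mul_inv_cancel₀ hc, one_smul]

/-- `P_x` normalizes `R_x`. -/
theorem P_norm {x : V} (hx : G.q x = 0) {g h : H} (hg : g ∈ G.P x) :
    g * h * g⁻¹ ∈ G.R x ↔ h ∈ G.R x := by
  obtain ⟨c, hc, h1⟩ := hg
  have h2 := h0.R_conj g hx (h := h)
  rwa [h1, h0.R_smul hx hc] at h2

/-- `R_x` fixes `x`. -/
theorem R_fix {x : V} (hx : G.q x = 0) {h : H} (hh : h ∈ G.R x) : G.ac h x = x := by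
  obtain ⟨v, hv, rfl⟩ := (h0.mem_R hx).1 hh
  have h1 : pl G.q x x = 0 := by rw [pl_self, hx, mul_zero]
  have hv' : pl G.q x v = 0 := hv
  rw [h0.act x v hx hv, sie, hv', h1]
  simp

theorem R_le_P {x : V} (hx : G.q x = 0) : G.R x ≤ G.P x := fun h hh =>
  ⟨1, one_ne_zero, by rw [h0.R_fix hx hh, one_smul]⟩

/-- There are vectors not orthogonal to a given nonzero vector. -/
theorem exists_B {x : V} (hx : x ≠ 0) : ∃ z, pl G.q z x = 1 := by
  by_contra hh
  push Not at hh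
  apply hx
  apply h0.nd
  intro y
  by_contra h1
  refine hh ((pl G.q x y)⁻¹ • y) ?_
  rw [pl_smull, pl_comm G.q y x]
  exact inv_mul_cancel₀ h1

/-- Uniqueness of the vector of a Siegel element. -/
theorem si_inj {x v w : V} (hx0 : x ≠ 0) (hx : G.q x = 0) (hv : pl G.q x v = 0) (hw : pl G.q x w = 0)
    (h : G.si x v = G.si x w) : ∃ c : K, v = w + c • x := by
  obtain ⟨z, hz⟩ := h0.exists_B hx0
  have h1 := h0.act x v hx hv z
  rw [h, h0.act x w hx hw z, sie, sie] at h1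
  have hz' : pl G.q z x = 1 := hz
  rw [hz', one_smul, one_smul, one_mul, one_mul] at h1
  refine ⟨pl G.q z v - pl G.q z w - G.q v + G.q w, ?_⟩
  rw [add_smul, sub_smul, sub_smul]
  have h2 : v - w = (z + pl G.q z v • x - G.q v • x) - (z + pl G.q z w • x - G.q w • x) := by
    have h3 : z + pl G.q z v • x - G.q v • x = (z + pl G.q z v • x - v - G.q v • x) + v := by abel
    have h4 : z + pl G.q z w • x - G.q w • x = (z + pl G.q z w • x - w - G.q w • x) + w := by abel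
    rw [h3, h4, h1]
    abel
  rw [← sub_eq_iff_eq_add', h2]
  abel

theorem ee : pl G.q G.e G.e = 0 := by rw [pl_self, h0.qe, mul_zero]

theorem ff : pl G.q G.f G.f = 0 := by rw [pl_self, h0.qf, mul_zero]

theorem fe : pl G.q G.f G.e = 1 := by rw [pl_comm, h0.ef]

theorem e_ne : G.e ≠ 0 := by
  intro h
  have h1 := h0.ef
  rw [h, pl_zerol] at h1
  exact zero_ne_one h1

theorem f_ne : G.f ≠ 0 := by
  intro h
  have h1 := h0.ef
  rw [h, pl_zeror] at h1
  exact zero_ne_one h1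

/-- The decomposition `V = K e + K f + U`. -/
theorem dec (v : V) : ∃ u ∈ G.U, v = pl G.q v G.f • G.e + pl G.q v G.e • G.f + u := by
  refine ⟨v - pl G.q v G.f • G.e - pl G.q v G.e • G.f, ⟨?_, ?_⟩, by abel⟩
  · rw [pl_subr, pl_subr, pl_smulr, pl_smulr, h0.ee, h0.ef, pl_comm _ G.e v]
    ring
  · rw [pl_subr, pl_subr, pl_smulr, pl_smulr, h0.ff, h0.fe, pl_comm _ G.f v]
    ring

/-- The elements of `R_e`. -/
theorem mem_Re {h : H} : h ∈ G.R G.e ↔ ∃ u ∈ G.U, h = G.si G.e u := by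
  rw [h0.mem_R h0.qe]
  constructor
  · rintro ⟨v, hv, rfl⟩
    obtain ⟨u, hu, h1⟩ := h0.dec v
    refine ⟨u, hu, ?_⟩
    have hv' : pl G.q v G.e = 0 := by rw [pl_comm, hv]
    rw [hv', zero_smul, add_zero] at h1
    have h2 := h0.mul G.e (pl G.q v G.f • G.e) u h0.qe (by rw [pl_smulr, h0.ee, mul_zero]) hu.1
    rw [h0.slf _ _ h0.qe, one_mul, ← h1] at h2
    exact h2.symm
  · rintro ⟨u, hu, rfl⟩
    exact ⟨u, hu.1, rfl⟩

/-- The elements of `R_f`. -/
theorem mem_Rf {h : H} : h ∈ G.R G.f ↔ ∃ u ∈ G.U, h = G.si G.f u := by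
  rw [h0.mem_R h0.qf]
  constructor
  · rintro ⟨v, hv, rfl⟩
    obtain ⟨u, hu, h1⟩ := h0.dec v
    refine ⟨u, hu, ?_⟩
    have hv' : pl G.q v G.f = 0 := by rw [pl_comm, hv]
    rw [hv', zero_smul, zero_add] at h1
    have h2 := h0.mul G.f (pl G.q v G.e • G.f) u h0.qf (by rw [pl_smulr, h0.ff, mul_zero]) hu.2
    rw [h0.slf _ _ h0.qf, one_mul, ← h1] at h2
    exact h2.symm
  · rintro ⟨u, hu, rfl⟩
    exact ⟨u, hu.2, rfl⟩

theorem si_e_inj {u v : V} (hu : u ∈ G.U) (hv : v ∈ G.U) (h : G.si G.e u = G.si G.e v) :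
    u = v := by
  obtain ⟨c, hc⟩ := h0.si_inj h0.e_ne h0.qe hu.1 hv.1 h
  have h1 := hu.2
  rw [hc, pl_addr, pl_smulr, hv.2, h0.fe, zero_add, mul_one] at h1
  rw [hc, h1, zero_smul, add_zero]

theorem si_f_inj {u v : V} (hu : u ∈ G.U) (hv : v ∈ G.U) (h : G.si G.f u = G.si G.f v) :
    u = v := by
  obtain ⟨c, hc⟩ := h0.si_inj h0.f_ne h0.qf hu.2 hv.2 h
  have h1 := hu.1
  rw [hc, pl_addr, pl_smulr, hv.1, h0.ef, zero_add, mul_one] at h1
  rw [hc, h1, zero_smul, add_zero]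

/-- The form on `U` is nondegenerate. -/
theorem ndU : Nd G.qU := by
  intro u hu
  apply Subtype.ext
  apply h0.nd
  intro v
  obtain ⟨w, hw, h1⟩ := h0.dec v
  have h2 := hu ⟨w, hw⟩
  rw [pl_qU] at h2
  have h3 : pl G.q (u : V) G.e = 0 := by rw [pl_comm]; exact u.2.1
  have h4 : pl G.q (u : V) G.f = 0 := by rw [pl_comm]; exact u.2.2
  have h5 : pl G.q (u : V) w = 0 := h2
  rw [h1, pl_addr, pl_addr, pl_smulr, pl_smulr, h3, h4, h5]
  ring

/-- Siegel elements with vectors in `U` fix `e` and `f`. -/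
theorem act_U {x v : V} (hx : G.q x = 0) (hxv : pl G.q x v = 0) (hxU : x ∈ G.U) (hvU : v ∈ G.U) :
    G.ac (G.si x v) G.e = G.e ∧ G.ac (G.si x v) G.f = G.f := by
  constructor
  · have h1 : pl G.q G.e v = 0 := hvU.1
    have h2 : pl G.q G.e x = 0 := hxU.1
    rw [h0.act x v hx hxv, sie, h1, h2]
    simp
  · have h1 : pl G.q G.f v = 0 := hvU.2
    have h2 : pl G.q G.f x = 0 := hxU.2
    rw [h0.act x v hx hxv, sie, h1, h2]
    simp

/-- Siegel elements with vectors in `U` act on `R_e`. -/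
theorem cnj_e {x v u : V} (hx : G.q x = 0) (hxv : pl G.q x v = 0) (hxU : x ∈ G.U) (hvU : v ∈ G.U)
    (hu : u ∈ G.U) : G.si x v * G.si G.e u * (G.si x v)⁻¹ = G.si G.e (sie G.q x v u) := by
  rw [h0.cnj _ _ _ h0.qe hu.1, (h0.act_U hx hxv hxU hvU).1, h0.act x v hx hxv]

/-- Siegel elements with vectors in `U` act on `R_f`. -/
theorem cnj_f {x v u : V} (hx : G.q x = 0) (hxv : pl G.q x v = 0) (hxU : x ∈ G.U) (hvU : v ∈ G.U)
    (hu : u ∈ G.U) : G.si x v * G.si G.f u * (G.si x v)⁻¹ = G.si G.f (sie G.q x v u) := by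
  rw [h0.cnj _ _ _ h0.qf hu.2, (h0.act_U hx hxv hxU hvU).2, h0.act x v hx hxv]

end IsS0

end SpD

end MP7Z.Ord
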