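import Pool.Agent.Lib.MP_7f581e_Z.Ort.SpecA

/-!
# Orthogonal groups: decomposition of a space by a hyperbolic pair
-/

set_option autoImplicit false

namespace MP7Z.Ort

theorem tDec : DecStmt := by
  intro K W _ _ _ e f hee hff hef
  have hee' : ∀ x, e (e x) = 0 := fun x => by
    have h := LinearMap.congr_fun hee x
    rwa [Module.End.mul_apply, LinearMap.zero_apply] at h
  have hef' : ∀ x, e (f x) + f (e x) = x := fun x => by
    have h := LinearMap.congr_fun hef x
    rwa [LinearMap.add_apply, Module.End.mul_apply, Module.End.mul_apply,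
      Module.End.one_apply] at h
  have h1 : ∀ x, e x = 0 → e (f x) = x := fun x hx => by
    have h := hef' x
    rwa [hx, map_zero, add_zero] at h
  refine ⟨h1, fun w => ⟨hee' w, (hef' w).symm⟩, ?_, ?_⟩
  · intro x y hx hy h
    have h2 : y = 0 := by
      have h3 := congrArg e h
      rwa [map_add, hx, h1 y hy, zero_add, map_zero] at h3
    rw [h2, map_zero, add_zero] at h
    exact ⟨h, h2⟩
  · intro _
    have hr : LinearMap.range e = LinearMap.ker e := by
      apply le_antisymm
      · rintro _ ⟨x, rfl⟩
        exact hee' x
      · intro x hx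
        exact ⟨f x, h1 x hx⟩
    have h2 := LinearMap.finrank_range_add_finrank_ker e
    rw [hr] at h2
    omega

end MP7Z.Ort
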