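import Pool.Agent.Lib.MP_7f581e_Z.Lie.L1

/-!
# Orthogonal groups: definitions

`V = T^(Ix s)`: `s` hyperbolic pairs `e_i, f_i` and two vectors `w₀, w₁` with
`Q = Σ x_i y_i + z₀² + a z₀ z₁ + b z₁²`, `a² ≠ 4b`.  Flag `o` (odd dimension, `a = 0`, `2 ≠ 0`): the
quadratic space is `w₀^⊥ = {z₀ = 0}`.  The Clifford algebra is the matrix algebra of size
`2^(s+1)`, given by a frame (matrices with the Clifford relations); the group `SG` is the spin
group.
-/

set_option autoImplicit false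
set_option linter.unusedSectionVars false

namespace MP7Z.Ort

open TensorProduct MP7fS Matrix

/-- The index set of the basis. -/
abbrev Ix (s : ℕ) : Type := (Fin s ⊕ Fin s) ⊕ Fin 2

/-- The index of `e_i`. -/
abbrev ie {s : ℕ} (i : Fin s) : Ix s := Sum.inl (Sum.inl i)

/-- The index of `f_i`. -/
abbrev jf {s : ℕ} (i : Fin s) : Ix s := Sum.inl (Sum.inr i)

/-- The index of `w₀, w₁`. -/
abbrev iw {s : ℕ} (j : Fin 2) : Ix s := Sum.inr j

/-- The inclusion of the index sets: all vectors but the last hyperbolic pair. -/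
def cIx {s : ℕ} : Ix s → Ix (s + 1) := Sum.map (Sum.map Fin.castSucc Fin.castSucc) id

section forms

variable {s : ℕ} {T : Type} [CommRing T]

/-- The quadratic form. -/
def qf (a b : T) (v : Ix s → T) : T :=
  ∑ i, v (ie i) * v (jf i) + (v (iw 0) ^ 2 + a * v (iw 0) * v (iw 1) + b * v (iw 1) ^ 2)

/-- The polar form. -/
def bf (a b : T) (v w : Ix s → T) : T :=
  ∑ i, (v (ie i) * w (jf i) + v (jf i) * w (ie i)) +
    (2 * v (iw 0) * w (iw 0) + a * (v (iw 0) * w (iw 1) + v (iw 1) * w (iw 0)) +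
      2 * b * v (iw 1) * w (iw 1))

/-- The quadratic space: everything, or `w₀^⊥` if `o`. -/
def Vo (o : Prop) (s : ℕ) (T : Type) [CommRing T] : Submodule T (Ix s → T) where
  carrier := {v | o → v (iw 0) = 0}
  zero_mem' := fun _ => rfl
  add_mem' := fun {v w} hv hw ho => by
    rw [Pi.add_apply, hv ho, hw ho, add_zero]
  smul_mem' := fun c v hv ho => by
    rw [Pi.smul_apply, hv ho, smul_zero]

theorem mem_Vo {o : Prop} {v : Ix s → T} : v ∈ Vo o s T ↔ (o → v (iw 0) = 0) := Iff.rfl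

/-- The subspace `V_k` of the quadratic space: the coordinates of `e_i, f_i`, `i ≥ k`, are zero. -/
def Vk (o : Prop) (s : ℕ) (T : Type) [CommRing T] (k : ℕ) : Submodule T (Ix s → T) where
  carrier := {v | (o → v (iw 0) = 0) ∧ ∀ i : Fin s, k ≤ i.val → v (ie i) = 0 ∧ v (jf i) = 0}
  zero_mem' := ⟨fun _ => rfl, fun _ _ => ⟨rfl, rfl⟩⟩
  add_mem' := fun {v w} hv hw => ⟨fun ho => by rw [Pi.add_apply, hv.1 ho, hw.1 ho, add_zero],
    fun i hi => ⟨by rw [Pi.add_apply, (hv.2 i hi).1, (hw.2 i hi).1, add_zero],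
      by rw [Pi.add_apply, (hv.2 i hi).2, (hw.2 i hi).2, add_zero]⟩⟩
  smul_mem' := fun c v hv => ⟨fun ho => by rw [Pi.smul_apply, hv.1 ho, smul_zero],
    fun i hi => ⟨by rw [Pi.smul_apply, (hv.2 i hi).1, smul_zero],
      by rw [Pi.smul_apply, (hv.2 i hi).2, smul_zero]⟩⟩

theorem mem_Vk {o : Prop} {k : ℕ} {v : Ix s → T} : v ∈ Vk o s T k ↔
    (o → v (iw 0) = 0) ∧ ∀ i : Fin s, k ≤ i.val → v (ie i) = 0 ∧ v (jf i) = 0 := Iff.rfl

/-- The basis vectors. -/
def bv (T : Type) [CommRing T] {s : ℕ} (i : Ix s) : Ix s → T := Pi.single i 1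

end forms

section frames

variable {s : ℕ} {T C : Type} [CommRing T] [Ring C] [Algebra T C]

/-- The element of the Clifford algebra defined by a vector. -/
def gv (g : Ix s → C) (v : Ix s → T) : C := ∑ i, v i • g i

/-- The Clifford relations. -/
structure IsFrame (a b : T) (g : Ix s → C) : Prop where
  sq : ∀ i, g i * g i = qf a b (bv T i) • (1 : C)
  anti : ∀ i j, i ≠ j → g i * g j + g j * g i = bf a b (bv T i) (bv T j) • (1 : C)

/-- The central element of the even Clifford algebra: `ζ v = v (a - ζ)`, `ζ² = a ζ - b`. -/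
def zt (a : T) : (s : ℕ) → (Ix s → C) → C
  | 0, g => g (iw 0) * g (iw 1)
  | s + 1, g => zt a s (g ∘ cIx) * (g (ie (Fin.last s)) * g (jf (Fin.last s))) +
      (a • 1 - zt a s (g ∘ cIx)) * (g (jf (Fin.last s)) * g (ie (Fin.last s)))

end frames

section groups

variable {s : ℕ} {l : Type} [Fintype l] [DecidableEq l] {T : Type} [CommRing T]

/-- The reversal: it fixes the frame. -/
def rv (P : GL l T) (X : Matrix l l T) : Matrix l l T :=
  (P : Matrix l l T) * Xᵀ * ((P⁻¹ : GL l T) : Matrix l l T)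

theorem rv_mul (P : GL l T) (X Y : Matrix l l T) : rv P (X * Y) = rv P Y * rv P X := by
  simp only [rv, Matrix.transpose_mul, Matrix.mul_assoc]
  rw [← Matrix.mul_assoc ((P⁻¹ : GL l T) : Matrix l l T) (P : Matrix l l T), Units.inv_mul,
    Matrix.one_mul]

theorem rv_one (P : GL l T) : rv P (1 : Matrix l l T) = 1 := by
  rw [rv, Matrix.transpose_one, Matrix.mul_one, Units.mul_inv]

/-- **The spin group** of a frame. -/
def SG (a : T) (g : Ix s → Matrix l l T) (P : GL l T) (o : Prop) : Subgroup (GL l T) where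
  carrier := {u | (u : Matrix l l T) * zt a s g = zt a s g * (u : Matrix l l T) ∧
    rv P (u : Matrix l l T) * (u : Matrix l l T) = 1 ∧
    (∀ v : Ix s → T, ∃ v' : Ix s → T, (u : Matrix l l T) * gv g v = gv g v' * (u : Matrix l l T)) ∧
    (∀ v : Ix s → T, ∃ v' : Ix s → T, gv g v * (u : Matrix l l T) = (u : Matrix l l T) * gv g v') ∧
    (o → (u : Matrix l l T) * g (iw 0) = g (iw 0) * (u : Matrix l l T))}
  one_mem' := ⟨by rw [Units.val_one, Matrix.one_mul, Matrix.mul_one],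
    by rw [Units.val_one, rv_one, Matrix.one_mul],
    fun v => ⟨v, by rw [Units.val_one, Matrix.one_mul, Matrix.mul_one]⟩,
    fun v => ⟨v, by rw [Units.val_one, Matrix.one_mul, Matrix.mul_one]⟩,
    fun _ => by rw [Units.val_one, Matrix.one_mul, Matrix.mul_one]⟩
  mul_mem' := by
    rintro u u' ⟨h1, h2, h3, h4, h5⟩ ⟨h1', h2', h3', h4', h5'⟩
    refine ⟨?_, ?_, ?_, ?_, ?_⟩
    · rw [Units.val_mul, Matrix.mul_assoc, h1', ← Matrix.mul_assoc, h1, Matrix.mul_assoc]
    · rw [Units.val_mul, rv_mul, Matrix.mul_assoc, ← Matrix.mul_assoc (rv P (u : Matrix l l T)),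
        h2, Matrix.one_mul, h2']
    · intro v
      obtain ⟨v1, hv1⟩ := h3' v
      obtain ⟨v2, hv2⟩ := h3 v1
      refine ⟨v2, ?_⟩
      rw [Units.val_mul, Matrix.mul_assoc, hv1, ← Matrix.mul_assoc, hv2, Matrix.mul_assoc]
    · intro v
      obtain ⟨v1, hv1⟩ := h4 v
      obtain ⟨v2, hv2⟩ := h4' v1
      refine ⟨v2, ?_⟩
      rw [Units.val_mul, ← Matrix.mul_assoc, hv1, Matrix.mul_assoc, hv2, Matrix.mul_assoc]
    · intro ho
      rw [Units.val_mul, Matrix.mul_assoc, h5' ho, ← Matrix.mul_assoc, h5 ho, Matrix.mul_assoc]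
  inv_mem' := by
    rintro u ⟨h1, h2, h3, h4, h5⟩
    have hl : ((u⁻¹ : GL l T) : Matrix l l T) * (u : Matrix l l T) = 1 := Units.inv_mul u
    have hr : (u : Matrix l l T) * ((u⁻¹ : GL l T) : Matrix l l T) = 1 := Units.mul_inv u
    have key : ∀ X Y : Matrix l l T, (u : Matrix l l T) * X = Y * (u : Matrix l l T) →
        X * ((u⁻¹ : GL l T) : Matrix l l T) = ((u⁻¹ : GL l T) : Matrix l l T) * Y := by
      intro X Y h
      calc X * ((u⁻¹ : GL l T) : Matrix l l T) = ((u⁻¹ : GL l T) : Matrix l l T) *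
            ((u : Matrix l l T) * X) * ((u⁻¹ : GL l T) : Matrix l l T) := by
              rw [← Matrix.mul_assoc, hl, Matrix.one_mul]
        _ = ((u⁻¹ : GL l T) : Matrix l l T) * Y := by
              rw [h, ← Matrix.mul_assoc, Matrix.mul_assoc _ (u : Matrix l l T), hr, Matrix.mul_one]
    refine ⟨?_, ?_, ?_, ?_, ?_⟩
    · exact (key _ _ h1).symm
    · have h6 : rv P (u : Matrix l l T) = ((u⁻¹ : GL l T) : Matrix l l T) := by
        calc rv P (u : Matrix l l T) = rv P (u : Matrix l l T) *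
              ((u : Matrix l l T) * ((u⁻¹ : GL l T) : Matrix l l T)) := by
                rw [hr, Matrix.mul_one]
          _ = _ := by rw [← Matrix.mul_assoc, h2, Matrix.one_mul]
      have h7 : rv P ((u⁻¹ : GL l T) : Matrix l l T) * rv P (u : Matrix l l T) = 1 := by
        rw [← rv_mul, hr, rv_one]
      rw [h6] at h7
      exact h7
    · intro v
      obtain ⟨v', hv'⟩ := h4 v
      exact ⟨v', (key _ _ hv'.symm).symm⟩
    · intro v
      obtain ⟨v', hv'⟩ := h3 v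
      exact ⟨v', key _ _ hv'⟩
    · intro ho
      exact (key _ _ (h5 ho)).symm

theorem mem_SG {a : T} {g : Ix s → Matrix l l T} {P : GL l T} {o : Prop} {u : GL l T} :
    u ∈ SG a g P o ↔ (u : Matrix l l T) * zt a s g = zt a s g * (u : Matrix l l T) ∧
    rv P (u : Matrix l l T) * (u : Matrix l l T) = 1 ∧
    (∀ v : Ix s → T, ∃ v' : Ix s → T, (u : Matrix l l T) * gv g v = gv g v' * (u : Matrix l l T)) ∧
    (∀ v : Ix s → T, ∃ v' : Ix s → T, gv g v * (u : Matrix l l T) = (u : Matrix l l T) * gv g v') ∧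
    (o → (u : Matrix l l T) * g (iw 0) = g (iw 0) * (u : Matrix l l T)) := Iff.rfl

end groups

section siegel

variable {s : ℕ} {l : Type} [Fintype l] [DecidableEq l] {T : Type} [CommRing T]

/-- The group generated by the Siegel elements `1 + e_k v`, `1 + f_k v`, `v ∈ V_k`. -/
def G1 (g : Ix s → Matrix l l T) (o : Prop) (k : Fin s) : Subgroup (GL l T) :=
  Subgroup.closure {u | ∃ v ∈ Vk o s T k.val, (u : Matrix l l T) = 1 + g (ie k) * gv g v ∨
    (u : Matrix l l T) = 1 + g (jf k) * gv g v}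

end siegel

/-- The index set of the matrices. -/
abbrev Lx (s : ℕ) : Type := Fin (2 ^ (s + 1))

/-- Complete data over a commutative ring. -/
structure Good {s : ℕ} {l : Type} [Fintype l] [DecidableEq l] {T : Type} [CommRing T] (a b : T)
    (g : Ix s → Matrix l l T) (P : GL l T) (o : Prop) : Prop where
  card : Fintype.card l = 2 ^ (s + 1)
  disc : IsUnit (a ^ 2 - 4 * b)
  frame : IsFrame a b g
  rev : ∀ i, rv P (g i) = g i
  odd : o → a = 0 ∧ IsUnit (2 : T)

/-- The data over a field. -/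
structure Dat (F : Type) [Field F] (s : ℕ) where
  a : F
  b : F
  o : Prop
  g : Ix s → Matrix (Lx s) (Lx s) F
  P : GL (Lx s) F
  good : Good a b g P o

namespace Dat

variable {F : Type} [Field F] {s : ℕ} (D : Dat F s)

/-- The frame over an extension ring. -/
def gT {T : Type} [CommRing T] (f : F →+* T) : Ix s → Matrix (Lx s) (Lx s) T :=
  fun i => (D.g i).map f

/-- The reversal over an extension ring. -/
noncomputable def PT {T : Type} [CommRing T] (f : F →+* T) : GL (Lx s) T :=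
  GeneralLinearGroup.map f D.P

/-- The spin group over an extension ring. -/
noncomputable def S {T : Type} [CommRing T] (f : F →+* T) : Subgroup (GL (Lx s) T) :=
  SG (f D.a) (D.gT f) (D.PT f) D.o

/-- The spin group over `F`. -/
def H : Subgroup (GL (Lx s) F) := SG D.a D.g D.P D.o

/-- The element `ζ`. -/
def z : Matrix (Lx s) (Lx s) F := zt D.a s D.g

/-- The quadratic space over `F`. -/
abbrev V : Submodule F (Ix s → F) := Vo D.o s F

/-- The quadratic form. -/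
abbrev Q (v : Ix s → F) : F := qf D.a D.b v

/-- The polar form. -/
abbrev B (v w : Ix s → F) : F := bf D.a D.b v w

/-- The elements of the Clifford algebra defined by vectors. -/
abbrev γ (v : Ix s → F) : Matrix (Lx s) (Lx s) F := gv D.g v

/-- The even Clifford algebra of the quadratic space. -/
def C0 (p : ℕ) [Fact p.Prime] [Algebra (ZMod p) F] :
    Subalgebra (ZMod p) (Matrix (Lx s) (Lx s) F) :=
  Subalgebra.centralizer (ZMod p) {X | X = D.z ∨ (D.o ∧ X = D.g (iw 0))}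

theorem mem_C0 {p : ℕ} [Fact p.Prime] [Algebra (ZMod p) F] {X : Matrix (Lx s) (Lx s) F} :
    X ∈ D.C0 p ↔ X * D.z = D.z * X ∧ (D.o → X * D.g (iw 0) = D.g (iw 0) * X) := by
  rw [C0, Subalgebra.mem_centralizer_iff]
  constructor
  · intro h
    exact ⟨(h _ (Or.inl rfl)).symm, fun ho => (h _ (Or.inr ⟨ho, rfl⟩)).symm⟩
  · rintro ⟨h1, h2⟩ Y (rfl | ⟨ho, rfl⟩)
    · exact h1.symm
    · exact (h2 ho).symm

/-- The inclusion of the spin group in the even Clifford algebra. -/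
def inc (p : ℕ) [Fact p.Prime] [Algebra (ZMod p) F] : D.H →* D.C0 p where
  toFun h := ⟨((h : GL (Lx s) F) : Matrix (Lx s) (Lx s) F),
    D.mem_C0.2 ⟨(mem_SG.1 h.2).1, (mem_SG.1 h.2).2.2.2.2⟩⟩
  map_one' := rfl
  map_mul' _ _ := rfl

theorem coe_inc (p : ℕ) [Fact p.Prime] [Algebra (ZMod p) F] (h : D.H) :
    ((D.inc p h : D.C0 p) : Matrix (Lx s) (Lx s) F) = ((h : GL (Lx s) F) :
      Matrix (Lx s) (Lx s) F) := rfl

theorem inc_injective (p : ℕ) [Fact p.Prime] [Algebra (ZMod p) F] :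
    Function.Injective (D.inc p) := by
  intro h h' hh
  exact Subtype.ext (Units.ext (congrArg Subtype.val hh))

/-- The semilinear similitudes of the quadratic space (in odd dimension: isometries). -/
structure IsSemi (σ : F ≃+* F) (μ : F) (g : (Ix s → F) → (Ix s → F)) : Prop where
  ne : μ ≠ 0
  mem : ∀ v ∈ D.V, g v ∈ D.V
  add : ∀ v ∈ D.V, ∀ w ∈ D.V, g (v + w) = g v + g w
  smul : ∀ (c : F), ∀ v ∈ D.V, g (c • v) = σ c • g v
  qf : ∀ v ∈ D.V, D.Q (g v) = μ * σ (D.Q v)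
  odd : D.o → μ = 1

/-- The automorphism of the even Clifford algebra defined by a semilinear similitude. -/
def Ind (p : ℕ) [Fact p.Prime] [Algebra (ZMod p) F] (x : RingAut (D.C0 p)) (σ : F ≃+* F) (μ : F)
    (g : (Ix s → F) → (Ix s → F)) : Prop :=
  (∀ (X : D.C0 p) (c : F), (X : Matrix (Lx s) (Lx s) F) = c • 1 →
    ((x X : D.C0 p) : Matrix (Lx s) (Lx s) F) = σ c • 1) ∧
  ∀ v ∈ D.V, ∀ w ∈ D.V, ∀ X : D.C0 p, (X : Matrix (Lx s) (Lx s) F) = D.γ v * D.γ w →
    ((x X : D.C0 p) : Matrix (Lx s) (Lx s) F) = μ⁻¹ • (D.γ (g v) * D.γ (g w))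

/-- The property defining the group `A`. -/
def IsA (p : ℕ) [Fact p.Prime] [Algebra (ZMod p) F] (x : RingAut (D.C0 p)) : Prop :=
  ∃ (σ : F ≃+* F) (μ : F) (g : (Ix s → F) → (Ix s → F)), D.IsSemi σ μ g ∧ D.Ind p x σ μ g

theorem isA_one (p : ℕ) [Fact p.Prime] [Algebra (ZMod p) F] : D.IsA p 1 := by
  refine ⟨RingEquiv.refl F, 1, id, ⟨one_ne_zero, fun v hv => hv, fun v _ w _ => rfl,
    fun c v _ => rfl, fun v _ => ?_, fun _ => rfl⟩, ?_, ?_⟩
  · rw [one_mul]
    rfl
  · intro X c h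
    exact h
  · intro v _ w _ X h
    rw [inv_one, one_smul]
    exact h

theorem IsA.mul {p : ℕ} [Fact p.Prime] [Algebra (ZMod p) F] {x y : RingAut (D.C0 p)}
    (hx : D.IsA p x) (hy : D.IsA p y) (hc : ∀ v ∈ D.V, ∀ w ∈ D.V, D.γ v * D.γ w ∈ D.C0 p)
    (hs : ∀ c : F, c • (1 : Matrix (Lx s) (Lx s) F) ∈ D.C0 p) : D.IsA p (x * y) := by
  obtain ⟨σ, μ, g, hg, hi1, hi2⟩ := hx
  obtain ⟨σ', μ', g', hg', hi1', hi2'⟩ := hy
  refine ⟨σ'.trans σ, μ * σ μ', g ∘ g', ⟨?_, ?_, ?_, ?_, ?_, ?_⟩, ?_, ?_⟩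
  · exact mul_ne_zero hg.ne ((map_ne_zero σ).2 hg'.ne)
  · exact fun v hv => hg.mem _ (hg'.mem _ hv)
  · intro v hv w hw
    change g (g' (v + w)) = g (g' v) + g (g' w)
    rw [hg'.add v hv w hw, hg.add _ (hg'.mem _ hv) _ (hg'.mem _ hw)]
  · intro c v hv
    change g (g' (c • v)) = σ (σ' c) • g (g' v)
    rw [hg'.smul c v hv, hg.smul _ _ (hg'.mem _ hv)]
  · intro v hv
    change D.Q (g (g' v)) = μ * σ μ' * σ (σ' (D.Q v))
    rw [hg.qf _ (hg'.mem _ hv), hg'.qf _ hv, map_mul, mul_assoc]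
  · intro ho
    rw [hg.odd ho, hg'.odd ho, map_one, mul_one]
  · intro X c h
    exact hi1 (y X) (σ' c) (hi1' X c h)
  · intro v hv w hw X h
    have h1 := hi2' v hv w hw X h
    have h2 : y X = (⟨(μ'⁻¹ : F) • (1 : Matrix (Lx s) (Lx s) F), hs _⟩ : D.C0 p) *
        ⟨D.γ (g' v) * D.γ (g' w), hc _ (hg'.mem _ hv) _ (hg'.mem _ hw)⟩ := by
      apply Subtype.ext
      rw [h1]
      change _ = (μ'⁻¹ • (1 : Matrix (Lx s) (Lx s) F)) * _
      rw [Matrix.smul_mul, Matrix.one_mul]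
    change ((x (y X) : D.C0 p) : Matrix (Lx s) (Lx s) F) = _
    rw [h2, map_mul]
    have h3 := hi1 ⟨(μ'⁻¹ : F) • (1 : Matrix (Lx s) (Lx s) F), hs _⟩ μ'⁻¹ rfl
    have h4 := hi2 _ (hg'.mem _ hv) _ (hg'.mem _ hw)
      ⟨D.γ (g' v) * D.γ (g' w), hc _ (hg'.mem _ hv) _ (hg'.mem _ hw)⟩ rfl
    change ((x ⟨(μ'⁻¹ : F) • (1 : Matrix (Lx s) (Lx s) F), hs _⟩ : D.C0 p) :
      Matrix (Lx s) (Lx s) F) * ((x ⟨D.γ (g' v) * D.γ (g' w), _⟩ : D.C0 p) :
        Matrix (Lx s) (Lx s) F) = _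
    rw [h3, h4, Matrix.smul_mul, Matrix.one_mul, smul_smul, mul_inv, map_inv₀, mul_comm]
    rfl

end Dat

end MP7Z.Ort
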