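import Pool.Agent.Lib.MP_7f581e_Z.Types.Defs
import Pool.Agent.Lib.MP_7f581e_Z.Lie.L1

/-!
# Orthogonal groups: the functor (definitions)

`F` a finite field, `Zs` a set of matrices over `F`, `B₀` its centralizer (a subalgebra over the
prime field).  A *family with parameters* is a subgroup `S T c ≤ GL_l(T)` for every commutative ring
`T` with a ring homomorphism `c : F → T`.  The Lang group `GP` consists of the families of matrices
over `R ⊗ F` whose components are in `S (R ⊗ F) (includeRight)`.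
-/

set_option autoImplicit false
set_option linter.unusedSectionVars false

namespace MP7Z.Orf

open TensorProduct MP7fS MP7fU Matrix

section fam

variable {F l : Type} [Field F] [Fintype l] [DecidableEq l]

/-- A family of subgroups of the general linear groups over all commutative rings `T` with a
homomorphism `F → T` (the parameters). -/
abbrev PFam (F l : Type) [Field F] [Fintype l] [DecidableEq l] : Type 1 :=
  ∀ (T : Type) [CommRing T], (F →+* T) → Subgroup (GL l T)

/-- Functoriality; membership can be tested with a jointly injective family of homomorphisms; all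
elements commute with the matrices of `Zs`. -/
structure PFunc (Zs : Set (Matrix l l F)) (S : PFam F l) : Prop where
  map : ∀ (T T' : Type) [CommRing T] [CommRing T'] (c : F →+* T) (f : T →+* T') (u : GL l T),
    u ∈ S T c → GeneralLinearGroup.map f u ∈ S T' (f.comp c)
  inj : ∀ (T I : Type) (T' : I → Type) [CommRing T] [∀ i, CommRing (T' i)] (c : F →+* T)
    (f : ∀ i, T →+* T' i), (∀ a b, (∀ i, f i a = f i b) → a = b) →
    ∀ u : GL l T, (∀ i, GeneralLinearGroup.map (f i) u ∈ S (T' i) ((f i).comp c)) → u ∈ S T c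
  cent : ∀ (T : Type) [CommRing T] (c : F →+* T), ∀ u ∈ S T c, ∀ z ∈ Zs,
    (u : Matrix l l T) * z.map c = z.map c * (u : Matrix l l T)

/-- Lang's theorem over separably closed fields `k` and the Frobenius of `𝔽_q`, `q = p ^ m`, which
fixes the parameters. -/
def LangP (p : ℕ) [Fact p.Prime] (S : PFam F l) : Prop :=
  ∀ (k : Type) [Field k] [CharP k p] [IsSepClosed k] (c : F →+* k) (m : ℕ), 0 < m →
    (∀ x, c x ^ p ^ m = c x) → ∀ g ∈ S k c, ∃ y ∈ S k c,
      GeneralLinearGroup.map (iterateFrobenius k p m) y = g * y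

/-- The combinations over `T` of given matrices over `F`. -/
def ZM (N : Set (Matrix l l F)) (T : Type) [CommRing T] (c : F →+* T) :
    Submodule T (Matrix l l T) :=
  Submodule.span T ((fun M => M.map c) '' N)

/-- Generation by elements `1 + z`, `z ^ 2 = 0`, over finite fields. -/
def GenP (S : PFam F l) (N : Bool → Set (Matrix l l F)) : Prop :=
  ∀ (k : Type) [Field k] [Finite k] (c : F →+* k), S k c ≤ Subgroup.closure {w : GL l k |
    ((w : Matrix l l k) - 1) * ((w : Matrix l l k) - 1) = 0 ∧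
      ∃ b, (w : Matrix l l k) - 1 ∈ ZM (N b) k c}

/-- The elements `1 + z` belong to the group, and `z ^ 2 = 0` (over all commutative rings). -/
def SqP (S : PFam F l) (N : Set (Matrix l l F)) : Prop :=
  ∀ (T : Type) [CommRing T] (c : F →+* T), ∀ z ∈ ZM N T c, z * z = 0 ∧
    ∀ u : GL l T, (u : Matrix l l T) = 1 + z → u ∈ S T c

/-- Standard semilinear maps normalize the groups and the spaces of the matrices `z`. -/
structure StabP (S : PFam F l) (N : Bool → Set (Matrix l l F)) (D : Set (GL l F × (F ≃+* F))) :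
    Prop where
  grp : ∀ d ∈ D, ∀ (T : Type) [CommRing T] (f : F →+* T), ∀ u ∈ S T (f.comp (d.2 : F →+* F)),
    GeneralLinearGroup.map f d.1 * u * (GeneralLinearGroup.map f d.1)⁻¹ ∈ S T f
  spc : ∀ d ∈ D, ∀ b, ∀ M ∈ N b,
    (d.1 : Matrix l l F) * M.map d.2 * ((d.1⁻¹ : GL l F) : Matrix l l F) ∈ Submodule.span F (N b)

/-- The subalgebra `B₀` is the centralizer of `Zs`. -/
def IsCen {p : ℕ} [Fact p.Prime] [Algebra (ZMod p) F] (B₀ : Subalgebra (ZMod p) (Matrix l l F))
    (Zs : Set (Matrix l l F)) : Prop :=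
  ∀ X : Matrix l l F, X ∈ B₀ ↔ ∀ z ∈ Zs, X * z = z * X

end fam

section BC

variable {p : ℕ} [Fact p.Prime] {F l : Type} [Field F] [Finite F] [Fintype l] [DecidableEq l]
  [Algebra (ZMod p) F] (B₀ : Subalgebra (ZMod p) (Matrix l l F)) (ι : Type)

/-- The inclusion of the families of elements of the centralizer. -/
def inB : (ι → B₀) →ₐ[ZMod p] (ι → Matrix l l F) := AlgHom.compLeft B₀.val ι

theorem inB_apply (z : ι → B₀) (i : ι) : inB B₀ ι z i = (z i : Matrix l l F) := rfl

/-- The inclusion `R ⊗ (ι → B₀) → R ⊗ (ι → Matrix l l F)`. -/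
noncomputable def inR (R : Type) [CommRing R] [Algebra (ZMod p) R] :
    R ⊗[ZMod p] (ι → B₀) →ₐ[R] R ⊗[ZMod p] (ι → Matrix l l F) :=
  Algebra.TensorProduct.map (AlgHom.id R R) (inB B₀ ι)

theorem inR_tmul (R : Type) [CommRing R] [Algebra (ZMod p) R] (r : R) (z : ι → B₀) :
    inR B₀ ι R (r ⊗ₜ z) = r ⊗ₜ inB B₀ ι z := rfl

/-- The components. -/
noncomputable def TB (R : Type) [CommRing R] [Algebra (ZMod p) R] :
    R ⊗[ZMod p] (ι → B₀) →+* (ι → Matrix l l (R ⊗[ZMod p] F)) :=
  (TH (p := p) R).comp (inR B₀ ι R).toRingHom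

theorem TB_tmul (R : Type) [CommRing R] [Algebra (ZMod p) R] (r : R) (z : ι → B₀) :
    TB B₀ ι R (r ⊗ₜ z) = fun i => (z i : Matrix l l F).map (fun c => r ⊗ₜ[ZMod p] c) :=
  TH_tmul R r _

variable [Finite ι]

/-- Naturality of the components. -/
theorem TB_tmap {R R' : Type} [CommRing R] [Algebra (ZMod p) R] [CommRing R']
    [Algebra (ZMod p) R'] (f : R →+* R') (x : R ⊗[ZMod p] (ι → B₀)) :
    TB B₀ ι R' (tmap f (RingHom.id _) x) =
      fun i => (TB B₀ ι R x i).map (tmap (p := p) f (RingHom.id F)) := by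
  induction x using TensorProduct.induction_on with
  | zero =>
    rw [map_zero, map_zero, map_zero]
    funext i
    exact (Matrix.map_zero _ (map_zero _)).symm
  | add x y hx hy =>
    rw [map_add, map_add, hx, hy, map_add]
    funext i
    exact (Matrix.map_add _ (map_add _) _ _).symm
  | tmul r z =>
    have h1 : tmap (p := p) f (RingHom.id (ι → B₀)) (r ⊗ₜ z) = f r ⊗ₜ z := rfl
    rw [h1, TB_tmul, TB_tmul]
    funext i
    ext a b
    rfl

/-- One component of a unit. -/
noncomputable def cB (R : Type) [CommRing R] [Algebra (ZMod p) R] (i : ι) :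
    (R ⊗[ZMod p] (ι → B₀))ˣ →* GL l (R ⊗[ZMod p] F) :=
  Units.map ((Pi.evalRingHom (fun _ : ι => Matrix l l (R ⊗[ZMod p] F)) i).comp
    (TB B₀ ι R) : R ⊗[ZMod p] (ι → B₀) →* Matrix l l (R ⊗[ZMod p] F))

theorem coe_cB (R : Type) [CommRing R] [Algebra (ZMod p) R] (i : ι)
    (u : (R ⊗[ZMod p] (ι → B₀))ˣ) :
    ((cB B₀ ι R i u : GL l (R ⊗[ZMod p] F)) : Matrix l l (R ⊗[ZMod p] F)) =
      TB B₀ ι R (u : R ⊗[ZMod p] (ι → B₀)) i := rfl

theorem cB_tu {R R' : Type} [CommRing R] [Algebra (ZMod p) R] [CommRing R']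
    [Algebra (ZMod p) R'] (f : R →+* R') (i : ι) (u : (R ⊗[ZMod p] (ι → B₀))ˣ) :
    cB B₀ ι R' i (tu f (RingHom.id _) u) =
      GeneralLinearGroup.map (tmap (p := p) f (RingHom.id F)) (cB B₀ ι R i u) := by
  apply Units.ext
  exact congrFun (TB_tmap B₀ ι f (u : R ⊗[ZMod p] (ι → B₀))) i

/-- The parameters of `R ⊗ F`. -/
noncomputable def incF (R : Type) [CommRing R] [Algebra (ZMod p) R] : F →+* R ⊗[ZMod p] F :=
  ((Algebra.TensorProduct.includeRight : F →ₐ[ZMod p] R ⊗[ZMod p] F) : F →+* R ⊗[ZMod p] F)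

theorem incF_apply (R : Type) [CommRing R] [Algebra (ZMod p) R] (c : F) :
    incF (p := p) R c = 1 ⊗ₜ c := rfl

theorem tmap_incF {R R' : Type} [CommRing R] [Algebra (ZMod p) R] [CommRing R']
    [Algebra (ZMod p) R'] (f : R →+* R') :
    (tmap (p := p) f (RingHom.id F)).comp (incF R) = incF R' := by
  ext c
  change f 1 ⊗ₜ[ZMod p] c = 1 ⊗ₜ c
  rw [map_one]

/-- **The Lang group with parameters**: all components are in `S (R ⊗ F) incF`. -/
noncomputable def GP {Zs : Set (Matrix l l F)} (S : PFam F l) (hS : PFunc Zs S) :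
    LangGp p (ι → B₀) where
  H R _ _ :=
    { carrier := {u | ∀ i, cB B₀ ι R i u ∈ S (R ⊗[ZMod p] F) (incF R)}
      one_mem' := fun i => by
        rw [map_one]
        exact one_mem _
      mul_mem' := fun ha hb i => by
        rw [map_mul]
        exact mul_mem (ha i) (hb i)
      inv_mem' := fun ha i => by
        rw [map_inv]
        exact inv_mem (ha i) }
  map R R' _ _ _ _ f x hx := by
    intro i
    rw [cB_tu, ← tmap_incF (p := p) f]
    exact hS.map _ _ _ _ _ (hx i)
  inj R R' _ _ _ _ f hf x hx := by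
    intro i
    refine hS.inj (R ⊗[ZMod p] F) Unit (fun _ => R' ⊗[ZMod p] F) _
      (fun _ => tmap (p := p) f (RingHom.id F)) ?_ _ ?_
    · intro a b hab
      exact tmap_injective f hf (hab ())
    · intro _
      have h1 := hx i
      rw [cB_tu, ← tmap_incF (p := p) f] at h1
      exact h1

theorem mem_GP {Zs : Set (Matrix l l F)} {S : PFam F l} {hS : PFunc Zs S} {R : Type} [CommRing R]
    [Algebra (ZMod p) R] {u : (R ⊗[ZMod p] (ι → B₀))ˣ} :
    u ∈ (GP B₀ ι S hS).H R ↔ ∀ i, cB B₀ ι R i u ∈ S (R ⊗[ZMod p] F) (incF R) := Iff.rfl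

/-- The subspaces of constants. -/
def ZB (N : Bool → Set (Matrix l l F)) : Bool → Submodule (ZMod p) (ι → B₀) :=
  fun b =>
    { carrier := {z | ∀ i, (z i : Matrix l l F) ∈ Submodule.span F (N b)}
      zero_mem' := fun _ => zero_mem _
      add_mem' := fun ha hb i => add_mem (ha i) (hb i)
      smul_mem' := fun r z hz i => by
        change r • (z i : Matrix l l F) ∈ Submodule.span F (N b)
        rw [← algebraMap_smul F r (z i : Matrix l l F)]
        exact Submodule.smul_mem _ _ (hz i) }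

theorem mem_ZB {N : Bool → Set (Matrix l l F)} {b : Bool} {z : ι → B₀} :
    z ∈ ZB B₀ ι N b ↔ ∀ i, (z i : Matrix l l F) ∈ Submodule.span F (N b) := Iff.rfl

/-- The coordinates of a unit of `k ⊗ (ι → B₀)`. -/
noncomputable def coB {k : Type} [Field k] [Algebra (ZMod p) k] [CharP k p] (τ : F →+* k)
    (i : ι) (j : ℕ) : (k ⊗[ZMod p] (ι → B₀))ˣ →* GL l k :=
  (GeneralLinearGroup.map (evj (p := p) τ j)).comp (cB B₀ ι k i)

/-- The parameters of the coordinate `j`. -/
noncomputable def twj {k : Type} [Field k] [CharP k p] (τ : F →+* k) (j : ℕ) : F →+* k :=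
  (iterateFrobenius k p j).comp τ

theorem twj_apply {k : Type} [Field k] [CharP k p] (τ : F →+* k) (j : ℕ) (c : F) :
    twj (p := p) τ j c = τ c ^ p ^ j := iterateFrobenius_def _ _ _

/-- The shape of the ring automorphisms. -/
def FormP (D : Set (GL l F × (F ≃+* F))) (R : (ι → B₀) ≃+* (ι → B₀)) : Prop :=
  ∃ (π : Equiv.Perm ι) (d : ι → GL l F × (F ≃+* F)), (∀ i, d i ∈ D) ∧
    ∀ z i, (R z (π i) : Matrix l l F) = ((d i).1 : Matrix l l F) *
      (z i : Matrix l l F).map (d i).2 * (((d i).1⁻¹ : GL l F) : Matrix l l F)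

end BC

end MP7Z.Orf
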