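import Pool.Agent.Lib.MP_7f581e_Z.Ort.SpecC

/-!
# Orthogonal groups: the Lang groups of the spin groups (`OLangStmt`)
-/

set_option autoImplicit false

namespace MP7Z.Ort

open TensorProduct MP7fS MP7fU Matrix MP7Z.Orf

theorem Dat.SF_id {F : Type} [Field F] {s : ℕ} (D : Dat F s) : D.SF F (RingHom.id F) = D.H := by
  have h1 : D.gT (RingHom.id F) = D.g := by
    funext i
    exact Matrix.map_id _
  have h2 : D.PT (RingHom.id F) = D.P := by
    apply Units.ext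
    exact Matrix.map_id _
  change SG (RingHom.id F D.a) (D.gT (RingHom.id F)) (D.PT (RingHom.id F)) D.o = _
  rw [h1, h2]
  rfl

theorem tOLang (h1 : LgBStmt) (h2 : FunOStmt) (h3 : LngOStmt) (h4 : GnOStmt) (h5 : SqOStmt)
    (h6 : CmOStmt) (h7 : StOStmt) (_ : LangIStmt) (_ : GenIStmt) (_ : ExtIStmt) : OLangStmt := by
  intro p _ F _ _ _ s D
  refine h1 p F (Lx (s + 1)) (D.C0 p) D.Zs (D.isCen p) D.SF (h2 F (s + 1) D) D.N D.DD
    (fun b M hM z hz => h6 p F s D b M hM z hz) (h3 p F (s + 1) D (by omega)) (h4 F s D)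
    (h5 F s D) D.stabP_DD D.H (D.A p) (D.inc p) (D.r p) (D.Dst p) ?_ (h7 p F s D)
  intro b
  rw [D.SF_id]
  constructor
  · rintro ⟨h, rfl⟩
    exact ⟨h, h.2, rfl⟩
  · rintro ⟨u, hu, h⟩
    exact ⟨⟨u, hu⟩, Subtype.ext h⟩

end MP7Z.Ort
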