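import Pool.Agent.Lib.MP_7f581e_Z.Ort.SpecB

/-!
# The spin group is perfect (`PrfStmt`)
-/

set_option autoImplicit false
set_option linter.unusedSectionVars false

namespace MP7Z.Ort

open TensorProduct MP7fS Matrix

section

variable {K : Type} [Field K] {l : Type} [Fintype l] [DecidableEq l]

/-- A Siegel element as a unit. -/
theorem Prf_unit {x y : Matrix l l K} (hxx : x * x = 0) (hyx : y * x = -(x * y)) :
    ∃ u : GL l K, (u : Matrix l l K) = 1 + x * y ∧ ((u⁻¹ : GL l K) : Matrix l l K) = 1 - x * y := by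
  have h0 : x * y * (x * y) = 0 := by
    rw [Matrix.mul_assoc, ← Matrix.mul_assoc y, hyx, Matrix.neg_mul, Matrix.mul_neg,
      Matrix.mul_assoc x y y, ← Matrix.mul_assoc x x, hxx, Matrix.zero_mul, neg_zero]
  exact ⟨⟨1 + x * y, 1 - x * y, by
      rw [Matrix.add_mul, Matrix.one_mul, Matrix.mul_sub, Matrix.mul_one, h0]
      abel, by
      rw [Matrix.sub_mul, Matrix.one_mul, Matrix.mul_add, Matrix.mul_one, h0]
      abel⟩, rfl, rfl⟩

/-- The commutator relation. -/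
theorem Prf_comm {x A B V : Matrix l l K} {q : K} (hxx : x * x = 0) (hBB : B * B = 0)
    (hAB : A * B + B * A = 1) (hVV : V * V = q • 1) (hAx : A * x = -(x * A))
    (hBx : B * x = -(x * B)) (hVx : V * x = -(x * V)) (hVA : V * A = -(A * V))
    (hVB : V * B = -(B * V)) :
    (1 + x * A) * (1 + B * V) * (1 - x * A) * (1 - B * V) = 1 + x * (V + q • B) := by
  have e1 : (1 + x * A) * (1 + B * V) = (1 + (B + x) * V) * (1 + x * A) := by
    have h1 : B * V * (x * A) = -(x * (B * A) * V) := by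
      rw [Matrix.mul_assoc, ← Matrix.mul_assoc V, hVx, Matrix.neg_mul, Matrix.mul_neg,
        Matrix.mul_assoc x V A, hVA, Matrix.mul_neg, Matrix.mul_neg, neg_neg, ← Matrix.mul_assoc B,
        hBx]
      simp only [Matrix.neg_mul, Matrix.mul_assoc]
    have h2 : x * V * (x * A) = 0 := by
      rw [Matrix.mul_assoc, ← Matrix.mul_assoc V, hVx, Matrix.neg_mul, Matrix.mul_neg,
        Matrix.mul_assoc x V A, ← Matrix.mul_assoc x x, hxx, Matrix.zero_mul, neg_zero]
    have h3 : x * A * (B * V) = x * V - x * (B * A) * V := by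
      have h4 : x * A * (B * V) = x * (A * B) * V := by simp only [Matrix.mul_assoc]
      rw [h4, eq_sub_of_add_eq hAB, Matrix.mul_sub, Matrix.mul_one, Matrix.sub_mul]
    rw [Matrix.add_mul, Matrix.one_mul, Matrix.mul_add, Matrix.mul_one, h3, Matrix.mul_add,
      Matrix.mul_one, Matrix.add_mul 1, Matrix.one_mul, Matrix.add_mul B, Matrix.add_mul, h1, h2]
    abel
  have e2 : (1 + x * A) * (1 - x * A) = 1 := by
    have h1 : x * A * (x * A) = 0 := by
      rw [Matrix.mul_assoc, ← Matrix.mul_assoc A, hAx, Matrix.neg_mul, Matrix.mul_neg,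
        Matrix.mul_assoc x A A, ← Matrix.mul_assoc x x, hxx, Matrix.zero_mul, neg_zero]
    rw [Matrix.add_mul, Matrix.one_mul, Matrix.mul_sub, Matrix.mul_one, h1]
    abel
  have e3 : (B + x) * V * (B * V) = -(q • (x * B)) := by
    rw [Matrix.mul_assoc, ← Matrix.mul_assoc V, hVB, Matrix.neg_mul, Matrix.mul_assoc B V V, hVV,
      Matrix.mul_smul, Matrix.mul_one, Matrix.mul_neg, Matrix.mul_smul, Matrix.add_mul, hBB,
      zero_add]
  rw [e1, Matrix.mul_assoc (1 + (B + x) * V), e2, Matrix.mul_one, Matrix.add_mul 1,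
    Matrix.one_mul, Matrix.mul_sub, Matrix.mul_one, e3, Matrix.add_mul, Matrix.mul_add,
    Matrix.mul_smul]
  abel

end

section

variable {F : Type} [Field F] {s : ℕ} (D : Dat F (s + 2))

/-- The commutator subgroup as a subgroup of the general linear group. -/
def Prf_C : Subgroup (GL (Lx (s + 2)) F) := (commutator D.H).map D.H.subtype

open scoped commutatorElement in
theorem Prf_mem {u v : GL (Lx (s + 2)) F} (hu : u ∈ D.H) (hv : v ∈ D.H) :
    u * v * u⁻¹ * v⁻¹ ∈ Prf_C D := by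
  refine ⟨⁅(⟨u, hu⟩ : D.H), (⟨v, hv⟩ : D.H)⁆, ?_, rfl⟩
  rw [commutator_def]
  exact Subgroup.commutator_mem_commutator (Subgroup.mem_top _) (Subgroup.mem_top _)

/-- Anticommutation. -/
theorem Prf_anti {v w : Ix (s + 2) → F} (h : bf D.a D.b v w = 0) :
    gv D.g v * gv D.g w = -(gv D.g w * gv D.g v) := by
  have h1 := D.good.frame.gv_anti v w
  rw [h, zero_smul] at h1
  exact eq_neg_of_add_eq_zero_left h1

/-- The basic commutators. -/
theorem Prf_b (x y z v : Ix (s + 2) → F) (hx : qf D.a D.b x = 0)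
    (hz : qf D.a D.b z = 0) (hxy : bf D.a D.b x y = 0) (hxz : bf D.a D.b x z = 0)
    (hxv : bf D.a D.b x v = 0) (hyz : bf D.a D.b y z = 1) (hyv : bf D.a D.b y v = 0)
    (hzv : bf D.a D.b z v = 0) (hx0 : D.o → x (iw 0) = 0) (hy0 : D.o → y (iw 0) = 0)
    (hz0 : D.o → z (iw 0) = 0) (hv0 : D.o → v (iw 0) = 0) (u : GL (Lx (s + 2)) F)
    (hu : (u : Matrix (Lx (s + 2)) (Lx (s + 2)) F) =
      1 + gv D.g x * gv D.g (v + qf D.a D.b v • z)) : u ∈ Prf_C D := by
  have hF := D.good.frame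
  have hxx : gv D.g x * gv D.g x = 0 := by rw [hF.gv_sq, hx, zero_smul]
  have hzz : gv D.g z * gv D.g z = 0 := by rw [hF.gv_sq, hz, zero_smul]
  have hyx' : gv D.g y * gv D.g x = -(gv D.g x * gv D.g y) :=
    Prf_anti D (by rw [bf_comm, hxy])
  have hzx' : gv D.g z * gv D.g x = -(gv D.g x * gv D.g z) :=
    Prf_anti D (by rw [bf_comm, hxz])
  have hvx' : gv D.g v * gv D.g x = -(gv D.g x * gv D.g v) :=
    Prf_anti D (by rw [bf_comm, hxv])
  have hvy' : gv D.g v * gv D.g y = -(gv D.g y * gv D.g v) :=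
    Prf_anti D (by rw [bf_comm, hyv])
  have hvz' : gv D.g v * gv D.g z = -(gv D.g z * gv D.g v) :=
    Prf_anti D (by rw [bf_comm, hzv])
  have hyz' : gv D.g y * gv D.g z + gv D.g z * gv D.g y = 1 := by
    rw [hF.gv_anti, hyz, one_smul]
  obtain ⟨u₁, h1, h1'⟩ := Prf_unit hxx hyx'
  obtain ⟨u₂, h2, h2'⟩ := Prf_unit hzz hvz'
  have m1 : u₁ ∈ D.H := D.good.siegel hx hxy (fun ho => ⟨hx0 ho, hy0 ho⟩) h1
  have m2 : u₂ ∈ D.H := D.good.siegel hz hzv (fun ho => ⟨hz0 ho, hv0 ho⟩) h2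
  have h3 : u = u₁ * u₂ * u₁⁻¹ * u₂⁻¹ := by
    apply Units.ext
    rw [Units.val_mul, Units.val_mul, Units.val_mul, h1, h2, h1', h2', hu, gv_add, gv_smul]
    exact (Prf_comm hxx hzz hyz' (hF.gv_sq v) hyx' hzx' hvx' hvy' hvz').symm
  rw [h3]
  exact Prf_mem D m1 m2

/-- All Siegel elements of the last plane are in the commutator subgroup. -/
theorem Prf_all (act : ActStmt) (x : Ix (s + 2) → F) (hx : qf D.a D.b x = 0)
    (hxv : ∀ v ∈ Vk D.o (s + 2) F (s + 1), bf D.a D.b x v = 0) (hx0 : D.o → x (iw 0) = 0) :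
    ∀ v ∈ Vk D.o (s + 2) F (s + 1), ∀ u : GL (Lx (s + 2)) F,
      (u : Matrix (Lx (s + 2)) (Lx (s + 2)) F) = 1 + gv D.g x * gv D.g v → u ∈ Prf_C D := by
  have hA := act F (Lx (s + 2)) D.a D.b (s + 2) D.g D.P D.o D.good
  have hF := D.good.frame
  have hxx : gv D.g x * gv D.g x = 0 := by rw [hF.gv_sq, hx, zero_smul]
  have hvx : ∀ v ∈ Vk D.o (s + 2) F (s + 1), gv D.g v * gv D.g x = -(gv D.g x * gv D.g v) :=
    fun v hv => Prf_anti D (by rw [bf_comm, hxv v hv])
  -- the additive group of the vectors with the property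
  obtain ⟨N, hN⟩ : ∃ N : AddSubgroup (Ix (s + 2) → F), ∀ v, v ∈ N ↔
      v ∈ Vk D.o (s + 2) F (s + 1) ∧ ∀ u : GL (Lx (s + 2)) F,
        (u : Matrix (Lx (s + 2)) (Lx (s + 2)) F) = 1 + gv D.g x * gv D.g v → u ∈ Prf_C D := by
    refine ⟨{ carrier := {v | v ∈ Vk D.o (s + 2) F (s + 1) ∧ ∀ u : GL (Lx (s + 2)) F,
                (u : Matrix (Lx (s + 2)) (Lx (s + 2)) F) = 1 + gv D.g x * gv D.g v →
                  u ∈ Prf_C D}
              zero_mem' := ?_
              add_mem' := ?_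
              neg_mem' := ?_ }, fun v => Iff.rfl⟩
    · rintro v w ⟨hv, hv'⟩ ⟨hw, hw'⟩
      refine ⟨add_mem hv hw, fun u hu => ?_⟩
      obtain ⟨u₁, h1, -⟩ := Prf_unit hxx (hvx v hv)
      obtain ⟨u₂, h2, -⟩ := Prf_unit hxx (hvx w hw)
      have h3 : u = u₁ * u₂ := by
        apply Units.ext
        have h4 : gv D.g x * gv D.g v * (gv D.g x * gv D.g w) = 0 := by
          rw [Matrix.mul_assoc, ← Matrix.mul_assoc (gv D.g v), hvx v hv, Matrix.neg_mul,
            Matrix.mul_neg, Matrix.mul_assoc (gv D.g x), ← Matrix.mul_assoc (gv D.g x), hxx,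
            Matrix.zero_mul, neg_zero]
        rw [Units.val_mul, h1, h2, hu, gv_add, Matrix.mul_add, Matrix.add_mul, Matrix.one_mul,
          Matrix.mul_add, Matrix.mul_one, h4]
        abel
      rw [h3]
      exact mul_mem (hv' u₁ h1) (hw' u₂ h2)
    · refine ⟨zero_mem _, fun u hu => ?_⟩
      have h1 : u = 1 := by
        apply Units.ext
        rw [hu, gv_zero, Matrix.mul_zero, add_zero]
        rfl
      rw [h1]
      exact one_mem _
    · rintro v ⟨hv, hv'⟩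
      refine ⟨neg_mem hv, fun u hu => ?_⟩
      obtain ⟨u₁, h1, h1'⟩ := Prf_unit hxx (hvx v hv)
      have h3 : u = u₁⁻¹ := by
        apply Units.ext
        rw [h1', hu, gv_neg, Matrix.mul_neg, sub_eq_add_neg]
      rw [h3]
      exact inv_mem (hv' u₁ h1)
  -- the plane before the last
  let k : Fin (s + 2) := ⟨s, by omega⟩
  have hmono : Vk D.o (s + 2) F s ≤ Vk D.o (s + 2) F (s + 1) := hA.2.2.2.1 s (s + 1) (by omega)
  have hke : bv F (ie k) ∈ Vk D.o (s + 2) F (s + 1) := (hA.2.2.2.2.2.1 k).1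
  have hkf : bv F (jf k) ∈ Vk D.o (s + 2) F (s + 1) := (hA.2.2.2.2.2.1 k).2
  have hve : ∀ v ∈ Vk D.o (s + 2) F s, bf D.a D.b (bv F (ie k)) v = 0 := by
    intro v hv
    rw [bf_comm, bf_ie]
    exact (hv.2 k le_rfl).2
  have hvf : ∀ v ∈ Vk D.o (s + 2) F s, bf D.a D.b (bv F (jf k)) v = 0 := by
    intro v hv
    rw [bf_comm, bf_jf]
    exact (hv.2 k le_rfl).1
  have b1 : ∀ v ∈ Vk D.o (s + 2) F s, v + qf D.a D.b v • bv F (jf k) ∈ N := by
    intro v hv
    rw [hN]
    refine ⟨add_mem (hmono hv) (Submodule.smul_mem _ _ hkf), ?_⟩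
    refine Prf_b D x (bv F (ie k)) (bv F (jf k)) v hx (qf_jf _ _ _) (hxv _ hke)
      (hxv _ hkf) (hxv _ (hmono hv)) ?_ (hve v hv) (hvf v hv) hx0 (fun _ => ?_) (fun _ => ?_) hv.1
    · rw [bf_jf, bv_apply, if_pos rfl]
    · rw [bv_apply, if_neg (by simp)]
    · rw [bv_apply, if_neg (by simp)]
  have b2 : ∀ v ∈ Vk D.o (s + 2) F s, v + qf D.a D.b v • bv F (ie k) ∈ N := by
    intro v hv
    rw [hN]
    refine ⟨add_mem (hmono hv) (Submodule.smul_mem _ _ hke), ?_⟩
    refine Prf_b D x (bv F (jf k)) (bv F (ie k)) v hx (qf_ie _ _ _) (hxv _ hkf)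
      (hxv _ hke) (hxv _ (hmono hv)) ?_ (hvf v hv) (hve v hv) hx0 (fun _ => ?_) (fun _ => ?_) hv.1
    · rw [bf_ie, bv_apply, if_pos rfl]
    · rw [bv_apply, if_neg (by simp)]
    · rw [bv_apply, if_neg (by simp)]
  -- polarization
  have pol : ∀ y : Ix (s + 2) → F, (∀ v ∈ Vk D.o (s + 2) F s, v + qf D.a D.b v • y ∈ N) →
      (∀ c : F, c • y ∈ N) ∧ ∀ v ∈ Vk D.o (s + 2) F s, v ∈ N := by
    intro y hy
    have h1 : ∀ v ∈ Vk D.o (s + 2) F s, ∀ w ∈ Vk D.o (s + 2) F s, bf D.a D.b v w • y ∈ N := by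
      intro v hv w hw
      have h2 := sub_mem (sub_mem (hy (v + w) (add_mem hv hw)) (hy v hv)) (hy w hw)
      have h3 : v + w + qf D.a D.b (v + w) • y - (v + qf D.a D.b v • y) -
          (w + qf D.a D.b w • y) = bf D.a D.b v w • y := by
        rw [qf_add]
        module
      rwa [h3] at h2
    obtain ⟨w, hw, hqw⟩ := hA.2.2.2.2.2.2.1 s
    have h2 : ∃ w' ∈ Vk D.o (s + 2) F s, bf D.a D.b w w' ≠ 0 := by
      by_contra hcon
      push Not at hcon
      have h3 := hA.2.2.2.2.2.2.2 s w hw hcon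
      rw [h3, qf_zero] at hqw
      exact hqw rfl
    obtain ⟨w', hw', hb⟩ := h2
    have h3 : ∀ c : F, c • y ∈ N := by
      intro c
      have h4 := h1 ((c * (bf D.a D.b w w')⁻¹) • w) (Submodule.smul_mem _ _ hw) w' hw'
      rwa [bf_smul_left, mul_assoc, inv_mul_cancel₀ hb, mul_one] at h4
    refine ⟨h3, fun v hv => ?_⟩
    have h4 := sub_mem (hy v hv) (h3 (qf D.a D.b v))
    rwa [add_sub_cancel_right] at h4
  obtain ⟨p1, p2⟩ := pol _ b1
  obtain ⟨p3, -⟩ := pol _ b2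
  intro v hv
  obtain ⟨v', hv', ev, -, -⟩ := hA.2.2.1 k v hv
  have h1 : v ∈ N := by
    rw [ev]
    exact add_mem (add_mem (p3 _) (p1 _)) (p2 v' hv')
  exact ((hN v).1 h1).2

end

theorem tPrf (act : ActStmt) (gen : GenOStmt) : PrfStmt := by
  intro F _ s D
  have h1 : D.H ≤ Prf_C D := by
    refine le_trans (gen F (Lx (s + 2)) D.a D.b (s + 1) D.g D.P D.o D.good) ?_
    rw [G1, Subgroup.closure_le]
    rintro u ⟨v, hv, hu | hu⟩
    · refine Prf_all D act (bv F (ie (Fin.last (s + 1)))) (qf_ie _ _ _) (fun v hv => ?_)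
        (fun _ => by rw [bv_apply, if_neg (by simp)]) v hv u ?_
      · rw [bf_comm, bf_ie]
        exact (hv.2 _ le_rfl).2
      · rw [gv_bv]
        exact hu
    · refine Prf_all D act (bv F (jf (Fin.last (s + 1)))) (qf_jf _ _ _) (fun v hv => ?_)
        (fun _ => by rw [bv_apply, if_neg (by simp)]) v hv u ?_
      · rw [bf_comm, bf_jf]
        exact (hv.2 _ le_rfl).1
      · rw [gv_bv]
        exact hu
  rw [eq_top_iff]
  intro h _
  obtain ⟨c, hc, hch⟩ := h1 h.2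
  have h2 : c = h := Subtype.ext hch
  rw [← h2]
  exact hc

end MP7Z.Ort
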