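import Pool.Agent.Lib.MP_7f581e_Z.Ort.SpecF

/-!
# Orthogonal groups, the functor: the points
-/

set_option autoImplicit false

namespace MP7Z.Orf

open TensorProduct MP7fS MP7fU Matrix

section

variable {p : ℕ} [Fact p.Prime] {ι l F : Type} [Finite ι] [Fintype l] [DecidableEq l]
  [Field F] [Finite F] [Algebra (ZMod p) F] (B₀ : Subalgebra (ZMod p) (Matrix l l F))

/-- The `i`-th component of a unit. -/
def PtB_c (b : (ι → B₀)ˣ) (i : ι) : GL l F :=
  Units.map ((B₀.val : B₀ →* Matrix l l F).comp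
    (Pi.evalRingHom (fun _ : ι => B₀) i : (ι → B₀) →* B₀)) b

theorem PtB_coe (b : (ι → B₀)ˣ) (i : ι) :
    (PtB_c B₀ b i : Matrix l l F) = ((b : ι → B₀) i : Matrix l l F) := rfl

theorem PtB_cB (b : (ι → B₀)ˣ) (i : ι) :
    cB B₀ ι (ZMod p) i (cstu (ZMod p) b) =
      GeneralLinearGroup.map (incF (p := p) (ZMod p)) (PtB_c B₀ b i) := by
  apply Units.ext
  rw [coe_cB, coe_cstu, TB_tmul]
  rfl

end

theorem tPtB : PtBStmt := by
  intro p _ F l _ _ _ _ _ B₀ Zs ι _ S hS b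
  have hinj : Function.Injective (incF (p := p) (F := F) (ZMod p)) :=
    Algebra.TensorProduct.includeRight_injective (algebraMap (ZMod p) (ZMod p)).injective
  have h0 : b ∈ (GP B₀ ι S hS).pts ↔ ∀ i, cB B₀ ι (ZMod p) i (cstu (ZMod p) b) ∈
      S (ZMod p ⊗[ZMod p] F) (incF (p := p) (ZMod p)) := Iff.rfl
  rw [h0]
  constructor
  · intro h i
    have h1 := h i
    rw [PtB_cB] at h1
    refine ⟨PtB_c B₀ b i, ?_, rfl⟩
    refine hS.inj F Unit (fun _ => ZMod p ⊗[ZMod p] F) (RingHom.id F)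
      (fun _ => incF (p := p) (ZMod p)) ?_ _ (fun _ => ?_)
    · intro a c hac
      exact hinj (hac ())
    · rw [RingHom.comp_id]
      exact h1
  · intro h i
    obtain ⟨u, hu, hub⟩ := h i
    have h2 : u = PtB_c B₀ b i := Units.ext hub
    rw [PtB_cB, ← h2, ← RingHom.comp_id (incF (p := p) (F := F) (ZMod p))]
    exact hS.map _ _ _ _ _ hu

end MP7Z.Orf
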