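import Pool.Agent.Lib.MP_7f581e_Z.Ort.Defs

/-!
# Orthogonal groups: basic relations
-/

set_option autoImplicit false
set_option linter.unusedSectionVars false

namespace MP7Z.Ort

open TensorProduct MP7fS Matrix

section forms

variable {s : ℕ} {T : Type} [CommRing T] (a b : T)

theorem bf_add_left (v v' w : Ix s → T) : bf a b (v + v') w = bf a b v w + bf a b v' w := by
  simp only [bf, Pi.add_apply, add_mul, mul_add, Finset.sum_add_distrib]
  ring

theorem bf_comm (v w : Ix s → T) : bf a b v w = bf a b w v := by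
  simp only [bf]
  congr 1
  · exact Finset.sum_congr rfl fun i _ => by ring
  · ring

theorem bf_add_right (v w w' : Ix s → T) : bf a b v (w + w') = bf a b v w + bf a b v w' := by
  rw [bf_comm, bf_add_left, bf_comm, bf_comm a b w']

theorem bf_smul_left (c : T) (v w : Ix s → T) : bf a b (c • v) w = c * bf a b v w := by
  simp only [bf, Pi.smul_apply, smul_eq_mul, mul_add, Finset.mul_sum]
  congr 1
  · exact Finset.sum_congr rfl fun i _ => by ring
  · ring

theorem bf_smul_right (c : T) (v w : Ix s → T) : bf a b v (c • w) = c * bf a b v w := by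
  rw [bf_comm, bf_smul_left, bf_comm]

theorem bf_zero_left (w : Ix s → T) : bf a b 0 w = 0 := by
  have h := bf_smul_left a b 0 (0 : Ix s → T) w
  rw [zero_smul, zero_mul] at h
  exact h

theorem bf_zero_right (w : Ix s → T) : bf a b w 0 = 0 := by
  rw [bf_comm, bf_zero_left]

theorem bf_neg_left (v w : Ix s → T) : bf a b (-v) w = -bf a b v w := by
  rw [← neg_one_smul T v, bf_smul_left, neg_one_mul]

theorem bf_neg_right (v w : Ix s → T) : bf a b v (-w) = -bf a b v w := by
  rw [bf_comm, bf_neg_left, bf_comm]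

theorem bf_sub_left (v v' w : Ix s → T) : bf a b (v - v') w = bf a b v w - bf a b v' w := by
  rw [sub_eq_add_neg, bf_add_left, bf_neg_left, sub_eq_add_neg]

theorem bf_sub_right (v w w' : Ix s → T) : bf a b v (w - w') = bf a b v w - bf a b v w' := by
  rw [sub_eq_add_neg, bf_add_right, bf_neg_right, sub_eq_add_neg]

theorem qf_add (v w : Ix s → T) : qf a b (v + w) = qf a b v + qf a b w + bf a b v w := by
  have h : ∑ i, (v (ie i) + w (ie i)) * (v (jf i) + w (jf i)) =
      ∑ i, v (ie i) * v (jf i) + ∑ i, w (ie i) * w (jf i) +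
        ∑ i, (v (ie i) * w (jf i) + v (jf i) * w (ie i)) := by
    rw [← Finset.sum_add_distrib, ← Finset.sum_add_distrib]
    exact Finset.sum_congr rfl fun i _ => by ring
  simp only [qf, bf, Pi.add_apply]
  rw [h]
  ring

theorem qf_smul (c : T) (v : Ix s → T) : qf a b (c • v) = c ^ 2 * qf a b v := by
  simp only [qf, Pi.smul_apply, smul_eq_mul, mul_add, Finset.mul_sum]
  congr 1
  · exact Finset.sum_congr rfl fun i _ => by ring
  · ring

theorem qf_zero : qf a b (0 : Ix s → T) = 0 := by
  have h := qf_smul a b 0 (0 : Ix s → T)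
  rw [zero_smul, zero_pow two_ne_zero, zero_mul] at h
  exact h

theorem qf_neg (v : Ix s → T) : qf a b (-v) = qf a b v := by
  rw [← neg_one_smul T v, qf_smul]
  ring

theorem bf_self (v : Ix s → T) : bf a b v v = 2 * qf a b v := by
  have h := qf_add a b v v
  have h2 : v + v = (2 : T) • v := (two_smul T v).symm
  rw [h2, qf_smul] at h
  linear_combination -h

theorem bf_sum_left {J : Type} (S : Finset J) (v : J → Ix s → T) (w : Ix s → T) :
    bf a b (∑ j ∈ S, v j) w = ∑ j ∈ S, bf a b (v j) w := by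
  classical
  induction S using Finset.induction_on with
  | empty => rw [Finset.sum_empty, Finset.sum_empty, bf_zero_left]
  | insert j S hj ih => rw [Finset.sum_insert hj, Finset.sum_insert hj, bf_add_left, ih]

theorem bf_sum_right {J : Type} (S : Finset J) (v : J → Ix s → T) (w : Ix s → T) :
    bf a b w (∑ j ∈ S, v j) = ∑ j ∈ S, bf a b w (v j) := by
  rw [bf_comm, bf_sum_left]
  exact Finset.sum_congr rfl fun j _ => bf_comm a b _ _

theorem bv_apply (i j : Ix s) : bv T i j = if j = i then 1 else 0 := by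
  rw [bv, Pi.single_apply]

theorem sum_bv (v : Ix s → T) : ∑ i, v i • bv T i = v := by
  funext j
  rw [Finset.sum_apply]
  simp only [Pi.smul_apply, bv_apply, smul_eq_mul, mul_ite, mul_one, mul_zero,
    Finset.sum_ite_eq, Finset.mem_univ, if_true]

theorem bf_ie (v : Ix s → T) (i : Fin s) : bf a b v (bv T (ie i)) = v (jf i) := by
  simp [bf, bv_apply, ie, jf, iw]

theorem bf_jf (v : Ix s → T) (i : Fin s) : bf a b v (bv T (jf i)) = v (ie i) := by
  simp [bf, bv_apply, ie, jf, iw]

theorem bf_w0 (v : Ix s → T) : bf a b v (bv T (iw 0)) = 2 * v (iw 0) + a * v (iw 1) := by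
  simp [bf, bv_apply, ie, jf, iw]

theorem bf_w1 (v : Ix s → T) : bf a b v (bv T (iw 1)) = a * v (iw 0) + 2 * b * v (iw 1) := by
  simp [bf, bv_apply, ie, jf, iw]

theorem qf_ie (i : Fin s) : qf a b (bv T (ie i)) = 0 := by
  simp [qf, bv_apply, ie, jf, iw]

theorem qf_jf (i : Fin s) : qf a b (bv T (jf i)) = 0 := by
  simp [qf, bv_apply, ie, jf, iw]

theorem qf_w0 : qf a b (bv T (iw 0) : Ix s → T) = 1 := by
  simp [qf, bv_apply, ie, jf, iw]

theorem qf_w1 : qf a b (bv T (iw 1) : Ix s → T) = b := by
  simp [qf, bv_apply, ie, jf, iw]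

end forms

section frames

variable {s : ℕ} {T C : Type} [CommRing T] [Ring C] [Algebra T C]

theorem gv_add (g : Ix s → C) (v w : Ix s → T) : gv g (v + w) = gv g v + gv g w := by
  simp only [gv, Pi.add_apply, add_smul, Finset.sum_add_distrib]

theorem gv_smul (g : Ix s → C) (c : T) (v : Ix s → T) : gv g (c • v) = c • gv g v := by
  simp only [gv, Pi.smul_apply, smul_eq_mul, mul_smul, Finset.smul_sum]

theorem gv_zero (g : Ix s → C) : gv g (0 : Ix s → T) = 0 := by
  simp only [gv, Pi.zero_apply, zero_smul, Finset.sum_const_zero]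

theorem gv_neg (g : Ix s → C) (v : Ix s → T) : gv g (-v) = -gv g v := by
  rw [← neg_one_smul T v, gv_smul, neg_one_smul]

theorem gv_sub (g : Ix s → C) (v w : Ix s → T) : gv g (v - w) = gv g v - gv g w := by
  rw [sub_eq_add_neg, gv_add, gv_neg, sub_eq_add_neg]

theorem gv_bv (g : Ix s → C) (i : Ix s) : gv g (bv T i) = g i := by
  classical
  rw [gv, Finset.sum_eq_single i]
  · rw [bv_apply, if_pos rfl, one_smul]
  · intro j _ hj
    rw [bv_apply, if_neg hj, zero_smul]
  · intro h
    exact absurd (Finset.mem_univ _) h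

theorem gv_sum {J : Type} (g : Ix s → C) (S : Finset J) (v : J → Ix s → T) :
    gv g (∑ j ∈ S, v j) = ∑ j ∈ S, gv g (v j) := by
  classical
  induction S using Finset.induction_on with
  | empty => rw [Finset.sum_empty, Finset.sum_empty, gv_zero]
  | insert j S hj ih => rw [Finset.sum_insert hj, Finset.sum_insert hj, gv_add, ih]

variable {a b : T} {g : Ix s → C}

theorem IsFrame.anti' (h : IsFrame a b g) (i j : Ix s) :
    g i * g j + g j * g i = bf a b (bv T i) (bv T j) • (1 : C) := by
  by_cases hij : i = j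
  · subst hij
    rw [h.sq, bf_self, ← add_smul, two_mul]
  · exact h.anti i j hij

/-- Polarization. -/
theorem IsFrame.gv_anti (h : IsFrame a b g) (v w : Ix s → T) :
    gv g v * gv g w + gv g w * gv g v = bf a b v w • (1 : C) := by
  have h1 : bf a b v w = ∑ i, ∑ j, v i * w j * bf a b (bv T i) (bv T j) := by
    conv_lhs => rw [← sum_bv v, ← sum_bv w]
    rw [bf_sum_left]
    refine Finset.sum_congr rfl fun i _ => ?_
    rw [bf_sum_right]
    refine Finset.sum_congr rfl fun j _ => ?_
    rw [bf_smul_left, bf_smul_right, mul_assoc]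
  rw [h1, gv, gv, Finset.sum_mul_sum, Finset.sum_mul_sum, Finset.sum_comm (f := fun i j =>
    (w i • g i) * (v j • g j)), ← Finset.sum_add_distrib, Finset.sum_smul]
  refine Finset.sum_congr rfl fun i _ => ?_
  rw [← Finset.sum_add_distrib, Finset.sum_smul]
  refine Finset.sum_congr rfl fun j _ => ?_
  rw [smul_mul_smul_comm, smul_mul_smul_comm, mul_comm (w j), ← smul_add, h.anti' i j, smul_smul]

/-- The Clifford relation. -/
theorem IsFrame.gv_sq (h : IsFrame a b g) (v : Ix s → T) :
    gv g v * gv g v = qf a b v • (1 : C) := by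
  classical
  have key : ∀ S : Finset (Ix s), gv g (∑ i ∈ S, v i • bv T i) * gv g (∑ i ∈ S, v i • bv T i) =
      qf a b (∑ i ∈ S, v i • bv T i) • (1 : C) := by
    intro S
    induction S using Finset.induction_on with
    | empty => rw [Finset.sum_empty, gv_zero, qf_zero, zero_mul, zero_smul]
    | insert j S hj ih =>
      rw [Finset.sum_insert hj]
      set x := v j • bv T j
      set y := ∑ i ∈ S, v i • bv T i
      have h1 := h.gv_anti x y
      have h2 : gv g x * gv g x = qf a b x • (1 : C) := by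
        rw [gv_smul, gv_bv, smul_mul_smul_comm, h.sq, qf_smul, smul_smul, pow_two]
      rw [gv_add, qf_add, add_smul, add_smul, ← h1, ← h2, ← ih]
      noncomm_ring
  have h1 := key Finset.univ
  rwa [sum_bv] at h1

theorem IsFrame.of_sq (h : ∀ v : Ix s → T, gv g v * gv g v = qf a b v • (1 : C)) :
    IsFrame a b g := by
  refine ⟨fun i => ?_, fun i j _ => ?_⟩
  · have h1 := h (bv T i)
    rwa [gv_bv] at h1
  · have h1 := h (bv T i + bv T j)
    have h2 := h (bv T i)
    have h3 := h (bv T j)
    rw [gv_bv] at h2 h3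
    rw [gv_add, qf_add, add_smul, add_smul, ← h2, ← h3, gv_bv, gv_bv] at h1
    have h4 : bf a b (bv T i) (bv T j) • (1 : C) = (g i + g j) * (g i + g j) -
        (g i * g i + g j * g j) := by
      rw [h1]
      abel
    rw [h4]
    noncomm_ring

/-- The relations for the last hyperbolic pair and the others. -/
theorem IsFrame.ee (h : IsFrame a b g) (i : Fin s) : g (ie i) * g (ie i) = 0 := by
  rw [h.sq, qf_ie, zero_smul]

theorem IsFrame.ff (h : IsFrame a b g) (i : Fin s) : g (jf i) * g (jf i) = 0 := by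
  rw [h.sq, qf_jf, zero_smul]

theorem IsFrame.ef (h : IsFrame a b g) (i : Fin s) :
    g (ie i) * g (jf i) + g (jf i) * g (ie i) = 1 := by
  rw [h.anti', bf_jf, bv_apply, if_pos rfl, one_smul]

/-- Restriction to the first hyperbolic pairs. -/
theorem cIx_injective : Function.Injective (cIx (s := s)) := by
  rintro ((i | i) | i) ((j | j) | j) h <;> simp_all [cIx]

/-- Extension by zero of vectors. -/
def ext0 (v : Ix s → T) : Ix (s + 1) → T := ∑ i, v i • bv T (cIx i)

theorem ext0_cIx (v : Ix s → T) (i : Ix s) : ext0 v (cIx i) = v i := by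
  classical
  rw [ext0, Finset.sum_apply]
  rw [Finset.sum_eq_single i]
  · rw [Pi.smul_apply, bv_apply, if_pos rfl, smul_eq_mul, mul_one]
  · intro j _ hj
    rw [Pi.smul_apply, bv_apply, if_neg, smul_zero]
    exact fun h => hj (cIx_injective h.symm)
  · intro h
    exact absurd (Finset.mem_univ _) h

theorem ext0_e (v : Ix s → T) : ext0 v (ie (Fin.last s)) = 0 := by
  classical
  rw [ext0, Finset.sum_apply]
  refine Finset.sum_eq_zero fun j _ => ?_
  rw [Pi.smul_apply, bv_apply, if_neg, smul_zero]
  rcases j with ((j | j) | j) <;> simp [cIx, ie, Fin.last, Fin.ext_iff]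
  omega

theorem ext0_f (v : Ix s → T) : ext0 v (jf (Fin.last s)) = 0 := by
  classical
  rw [ext0, Finset.sum_apply]
  refine Finset.sum_eq_zero fun j _ => ?_
  rw [Pi.smul_apply, bv_apply, if_neg, smul_zero]
  rcases j with ((j | j) | j) <;> simp [cIx, jf, Fin.last, Fin.ext_iff]
  omega

theorem gv_ext0 (g : Ix (s + 1) → C) (v : Ix s → T) : gv g (ext0 v) = gv (g ∘ cIx) v := by
  rw [ext0, gv_sum, gv]
  refine Finset.sum_congr rfl fun i _ => ?_
  rw [gv_smul, gv_bv]
  rfl

/-- The quadratic form of the first hyperbolic pairs and the last one. -/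
theorem qf_succ (v : Ix (s + 1) → T) : qf a b v =
    qf a b (v ∘ cIx) + v (ie (Fin.last s)) * v (jf (Fin.last s)) := by
  rw [qf, qf, Fin.sum_univ_castSucc]
  simp only [Function.comp, cIx, Sum.map_inl, Sum.map_inr, id]
  ring

theorem bf_succ (v w : Ix (s + 1) → T) : bf a b v w = bf a b (v ∘ cIx) (w ∘ cIx) +
    (v (ie (Fin.last s)) * w (jf (Fin.last s)) + v (jf (Fin.last s)) * w (ie (Fin.last s))) := by
  rw [bf, bf, Fin.sum_univ_castSucc]
  simp only [Function.comp, cIx, Sum.map_inl, Sum.map_inr, id]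
  ring

theorem ext0_comp (v : Ix s → T) : ext0 v ∘ cIx = v := funext fun i => ext0_cIx v i

theorem qf_ext0 (v : Ix s → T) : qf a b (ext0 v) = qf a b v := by
  rw [qf_succ, ext0_comp, ext0_e, zero_mul, add_zero]

theorem bf_ext0 (v w : Ix s → T) : bf a b (ext0 v) (ext0 w) = bf a b v w := by
  rw [bf_succ, ext0_comp, ext0_comp, ext0_e, ext0_f, ext0_e, ext0_f, zero_mul, add_zero, add_zero]

theorem gv_succ (g : Ix (s + 1) → C) (v : Ix (s + 1) → T) : gv g v =
    gv (g ∘ cIx) (v ∘ cIx) + (v (ie (Fin.last s)) • g (ie (Fin.last s)) +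
      v (jf (Fin.last s)) • g (jf (Fin.last s))) := by
  simp only [gv, Fintype.sum_sum_type, Fin.sum_univ_castSucc, Function.comp, cIx, Sum.map_inl,
    Sum.map_inr, id, ie, jf]
  abel

theorem IsFrame.restrict {g : Ix (s + 1) → C} (h : IsFrame a b g) : IsFrame a b (g ∘ cIx) := by
  apply IsFrame.of_sq
  intro v
  rw [← gv_ext0, h.gv_sq, qf_ext0]

theorem IsFrame.anti_e {g : Ix (s + 1) → C} (h : IsFrame a b g) (v : Ix s → T) :
    gv (g ∘ cIx) v * g (ie (Fin.last s)) = -(g (ie (Fin.last s)) * gv (g ∘ cIx) v) := by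
  have h1 := h.gv_anti (ext0 v) (bv T (ie (Fin.last s)))
  rw [bf_ie, ext0_f, zero_smul, gv_bv, gv_ext0] at h1
  exact eq_neg_of_add_eq_zero_left h1

theorem IsFrame.anti_f {g : Ix (s + 1) → C} (h : IsFrame a b g) (v : Ix s → T) :
    gv (g ∘ cIx) v * g (jf (Fin.last s)) = -(g (jf (Fin.last s)) * gv (g ∘ cIx) v) := by
  have h1 := h.gv_anti (ext0 v) (bv T (jf (Fin.last s)))
  rw [bf_jf, ext0_e, zero_smul, gv_bv, gv_ext0] at h1
  exact eq_neg_of_add_eq_zero_left h1

theorem IsFrame.anti_e' {g : Ix (s + 1) → C} (h : IsFrame a b g) (i : Ix s) :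
    g (cIx i) * g (ie (Fin.last s)) = -(g (ie (Fin.last s)) * g (cIx i)) := by
  have h1 := h.anti_e (bv T i)
  rwa [gv_bv] at h1

theorem IsFrame.anti_f' {g : Ix (s + 1) → C} (h : IsFrame a b g) (i : Ix s) :
    g (cIx i) * g (jf (Fin.last s)) = -(g (jf (Fin.last s)) * g (cIx i)) := by
  have h1 := h.anti_f (bv T i)
  rwa [gv_bv] at h1

/-- `ζ` commutes with everything that anticommutes with the frame. -/
theorem zt_comm_of_anti (x : C) : ∀ (s : ℕ) (g : Ix s → C), (∀ i, g i * x = -(x * g i)) →
    zt a s g * x = x * zt a s g := by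
  intro s
  induction s with
  | zero =>
    intro g hx
    rw [zt, mul_assoc, hx, mul_neg, ← mul_assoc, hx, neg_mul, neg_neg, mul_assoc]
  | succ s ih =>
    intro g hx
    have h1 : zt a s (g ∘ cIx) * x = x * zt a s (g ∘ cIx) := ih (g ∘ cIx) fun i => hx (cIx i)
    have h2 : ∀ i j, g i * g j * x = x * (g i * g j) := by
      intro i j
      rw [mul_assoc, hx, mul_neg, ← mul_assoc, hx, neg_mul, neg_neg, mul_assoc]
    rw [zt, add_mul, mul_add, mul_assoc, h2, ← mul_assoc, h1, mul_assoc, mul_assoc, h2,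
      ← mul_assoc (a • 1 - zt a s (g ∘ cIx)) x, sub_mul, h1, smul_mul_assoc, one_mul]
    congr 1
    rw [← mul_assoc x (a • 1 - zt a s (g ∘ cIx)), mul_sub, mul_smul_comm, mul_one]

/-- `ζ v = v (a - ζ)`. -/
theorem IsFrame.zt_gv : ∀ (s : ℕ) (g : Ix s → C), IsFrame a b g → ∀ v : Ix s → T,
    zt a s g * gv g v = gv g v * (a • 1 - zt a s g) := by
  intro s
  induction s with
  | zero =>
    intro g h v
    have h0 : g (iw 0) * g (iw 0) = 1 := by rw [h.sq, qf_w0, one_smul]
    have h1 : g (iw 1) * g (iw 1) = b • 1 := by rw [h.sq, qf_w1]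
    have h01 : g (iw 1) * g (iw 0) = a • 1 - g (iw 0) * g (iw 1) := by
      have h2 := h.anti' (iw 1) (iw 0)
      rw [bf_w0] at h2
      have h3 : 2 * bv T (iw 1) (iw 0 : Ix 0) + a * bv T (iw 1) (iw 1 : Ix 0) = a := by
        simp [bv_apply]
      rw [h3] at h2
      exact eq_sub_of_add_eq h2
    have key0 : zt a 0 g * g (iw 0) = g (iw 0) * (a • 1 - zt a 0 g) := by
      rw [zt, mul_assoc, h01]
    have key1 : zt a 0 g * g (iw 1) = g (iw 1) * (a • 1 - zt a 0 g) := by
      rw [zt, mul_assoc, h1, mul_sub, ← mul_assoc (g (iw 1)), h01, sub_mul, mul_assoc, h1]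
      rw [smul_mul_assoc, one_mul, mul_smul_comm, mul_one, mul_smul_comm, mul_one]
      abel
    have hv : gv g v = v (iw 0) • g (iw 0) + v (iw 1) • g (iw 1) := by
      rw [gv, Fintype.sum_sum_type, Fin.sum_univ_two]
      simp
    rw [hv, mul_add, add_mul, mul_smul_comm, mul_smul_comm, smul_mul_assoc, smul_mul_assoc, key0,
      key1]
  | succ s ih =>
    intro g h v
    set e := g (ie (Fin.last s)) with he
    set f := g (jf (Fin.last s)) with hf
    set z := zt a s (g ∘ cIx) with hz
    have hee : e * e = 0 := h.ee _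
    have hff : f * f = 0 := h.ff _
    have hef : e * f + f * e = 1 := h.ef _
    have hze : z * e = e * z := zt_comm_of_anti e s _ fun i => h.anti_e' i
    have hzf : z * f = f * z := zt_comm_of_anti f s _ fun i => h.anti_f' i
    have hefe : e * f * e = e := by
      have h1 : e * (e * f + f * e) = e := by rw [hef, mul_one]
      rw [mul_add, ← mul_assoc, hee, zero_mul, zero_add, ← mul_assoc] at h1
      exact h1
    have hfef : f * e * f = f := by
      have h1 : f * (e * f + f * e) = f := by rw [hef, mul_one]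
      rw [mul_add, ← mul_assoc f f, hff, zero_mul, add_zero, ← mul_assoc] at h1
      exact h1
    have hzt : zt a (s + 1) g = z * (e * f) + (a • 1 - z) * (f * e) := rfl
    have key_e : zt a (s + 1) g * e = e * (a • 1 - zt a (s + 1) g) := by
      have h1 : zt a (s + 1) g * e = z * e := by
        rw [hzt, add_mul, mul_assoc, hefe, mul_assoc, mul_assoc f, hee, mul_zero, mul_zero,
          add_zero]
      have h2 : e * zt a (s + 1) g = a • e - z * e := by
        rw [hzt, mul_add, ← mul_assoc, ← hze, ← mul_assoc, mul_assoc z e e, hee, mul_zero,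
          zero_mul, zero_add, ← mul_assoc, mul_sub, ← hze, mul_smul_comm, mul_one, sub_mul,
          smul_mul_assoc, ← mul_assoc, hefe, ← mul_assoc, mul_assoc z e f, mul_assoc z, hefe]
      rw [h1, mul_sub, h2, mul_smul_comm, mul_one]
      abel
    have key_f : zt a (s + 1) g * f = f * (a • 1 - zt a (s + 1) g) := by
      have h1 : zt a (s + 1) g * f = a • f - z * f := by
        rw [hzt, add_mul, mul_assoc, mul_assoc e, hff, mul_zero, mul_zero, zero_add, mul_assoc,
          hfef, sub_mul, smul_mul_assoc, one_mul]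
      have h2 : f * zt a (s + 1) g = z * f := by
        rw [hzt, mul_add, ← mul_assoc, ← hzf, mul_assoc z, ← mul_assoc f, hfef, ← mul_assoc,
          mul_sub, ← hzf, mul_smul_comm, mul_one, sub_mul, smul_mul_assoc, ← mul_assoc f f, hff,
          zero_mul, smul_zero, mul_assoc z, ← mul_assoc f f, hff, zero_mul, mul_zero, sub_zero,
          add_zero]
      rw [h1, mul_sub, h2, mul_smul_comm, mul_one]
    have key_v : ∀ v : Ix s → T, zt a (s + 1) g * gv (g ∘ cIx) v =
        gv (g ∘ cIx) v * (a • 1 - zt a (s + 1) g) := by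
      intro v
      set x := gv (g ∘ cIx) v with hx
      have h1 : z * x = x * (a • 1 - z) := ih (g ∘ cIx) h.restrict v
      have hxe : x * e = -(e * x) := h.anti_e v
      have hxf : x * f = -(f * x) := h.anti_f v
      have h2 : e * f * x = x * (e * f) := by
        rw [← mul_assoc, hxe, neg_mul, mul_assoc e x, hxf, mul_neg, neg_neg, mul_assoc]
      have h3 : f * e * x = x * (f * e) := by
        rw [← mul_assoc, hxf, neg_mul, mul_assoc f x, hxe, mul_neg, neg_neg, mul_assoc]
      have h4 : (a • 1 - z) * x = x * z := by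
        rw [sub_mul, h1, mul_sub, smul_mul_assoc, one_mul, mul_smul_comm, mul_one]
        abel
      have h5 : a • (1 : C) - zt a (s + 1) g = (a • 1 - z) * (e * f) + z * (f * e) := by
        have h6 : a • (1 : C) = (a • 1) * (e * f) + (a • 1) * (f * e) := by
          rw [← mul_add, hef, mul_one]
        calc a • (1 : C) - zt a (s + 1) g =
              ((a • 1) * (e * f) + (a • 1) * (f * e)) - zt a (s + 1) g := by rw [← h6]
          _ = _ := by
              rw [hzt, sub_mul, sub_mul]
              abel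
      rw [h5, hzt, add_mul, mul_add, mul_assoc, h2, ← mul_assoc, h1, mul_assoc, mul_assoc, h3,
        ← mul_assoc (a • 1 - z) x, h4, mul_assoc x]
    rw [gv_succ, mul_add, add_mul, key_v, mul_add, add_mul, mul_smul_comm, mul_smul_comm,
      smul_mul_assoc, smul_mul_assoc, key_e, key_f]

/-- `ζ² = a ζ - b`. -/
theorem IsFrame.zt_sq : ∀ (s : ℕ) (g : Ix s → C), IsFrame a b g →
    zt a s g * zt a s g = a • zt a s g - b • 1 := by
  intro s
  induction s with
  | zero =>
    intro g h
    have h1 : g (iw 1) * g (iw 1) = b • 1 := by rw [h.sq, qf_w1]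
    have h2 := IsFrame.zt_gv 0 g h (bv T (iw 0))
    rw [gv_bv] at h2
    have h0 : g (iw 0) * g (iw 0) = 1 := by rw [h.sq, qf_w0, one_smul]
    have h3 : zt a 0 g * zt a 0 g = zt a 0 g * g (iw 0) * g (iw 1) := by
      rw [mul_assoc]
      rfl
    rw [h3, h2, mul_assoc, sub_mul, smul_mul_assoc, one_mul]
    have h4 : zt a 0 g * g (iw 1) = b • g (iw 0) := by
      rw [zt, mul_assoc, h1, mul_smul_comm, mul_one]
    rw [h4, mul_sub, mul_smul_comm, mul_smul_comm, h0]
    rfl
  | succ s ih =>
    intro g h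
    set e := g (ie (Fin.last s)) with he
    set f := g (jf (Fin.last s)) with hf
    set z := zt a s (g ∘ cIx) with hz
    have hee : e * e = 0 := h.ee _
    have hff : f * f = 0 := h.ff _
    have hef : e * f + f * e = 1 := h.ef _
    have hze : z * e = e * z := zt_comm_of_anti e s _ fun i => h.anti_e' i
    have hzf : z * f = f * z := zt_comm_of_anti f s _ fun i => h.anti_f' i
    have hzt : zt a (s + 1) g = z * (e * f) + (a • 1 - z) * (f * e) := rfl
    have hi : z * z = a • z - b • 1 := ih (g ∘ cIx) h.restrict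
    have h1 : (e * f) * (e * f) = e * f := by
      have h2 : e * f * (e * f + f * e) = e * f := by rw [hef, mul_one]
      rw [mul_add, mul_assoc e f (f * e), ← mul_assoc f f e, hff, zero_mul, mul_zero,
        add_zero] at h2
      exact h2
    have h2 : (f * e) * (f * e) = f * e := by
      have h3 : f * e * (e * f + f * e) = f * e := by rw [hef, mul_one]
      rw [mul_add, mul_assoc f e (e * f), ← mul_assoc e e f, hee, zero_mul, mul_zero,
        zero_add] at h3
      exact h3
    have h3 : (e * f) * (f * e) = 0 := by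
      rw [mul_assoc, ← mul_assoc f f e, hff, zero_mul, mul_zero]
    have h4 : (f * e) * (e * f) = 0 := by
      rw [mul_assoc, ← mul_assoc e e f, hee, zero_mul, mul_zero]
    have hcE : (e * f) * z = z * (e * f) := by rw [mul_assoc, ← hzf, ← mul_assoc, ← hze, mul_assoc]
    have hcF : (f * e) * z = z * (f * e) := by rw [mul_assoc, ← hze, ← mul_assoc, ← hzf, mul_assoc]
    set E := e * f
    set G := f * e
    have hzz : (a • 1 - z) * (a • 1 - z) = a • (a • 1 - z) - b • 1 := by
      rw [sub_mul, mul_sub, mul_sub, smul_mul_assoc, one_mul, smul_mul_assoc, one_mul,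
        mul_smul_comm, mul_one, hi, smul_sub]
      abel
    have hcE' : E * (a • 1 - z) = (a • 1 - z) * E := by
      rw [mul_sub, sub_mul, hcE, mul_smul_comm, mul_one, smul_mul_assoc, one_mul]
    have hcF' : G * (a • 1 - z) = (a • 1 - z) * G := by
      rw [mul_sub, sub_mul, hcF, mul_smul_comm, mul_one, smul_mul_assoc, one_mul]
    have e1 : z * E * (z * E) = z * z * E := by
      rw [mul_assoc, ← mul_assoc E, hcE, mul_assoc z E E, h1, ← mul_assoc]
    have e2 : z * E * ((a • 1 - z) * G) = 0 := by
      rw [mul_assoc, ← mul_assoc E, hcE', mul_assoc _ E G, h3, mul_zero, mul_zero]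
    have e3 : (a • 1 - z) * G * (z * E) = 0 := by
      rw [mul_assoc, ← mul_assoc G, hcF, mul_assoc z G E, h4, mul_zero, mul_zero]
    have e4 : (a • 1 - z) * G * ((a • 1 - z) * G) = (a • 1 - z) * (a • 1 - z) * G := by
      rw [mul_assoc, ← mul_assoc G, hcF', mul_assoc _ G G, h2, ← mul_assoc]
    rw [hzt, add_mul, mul_add, mul_add, e1, e2, e3, e4, hi, hzz, sub_mul, sub_mul, smul_mul_assoc,
      smul_mul_assoc, smul_mul_assoc, one_mul, smul_mul_assoc, one_mul, add_zero, zero_add,
      smul_add]
    have h5 : b • (1 : C) = b • E + b • G := by rw [← smul_add, hef]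
    rw [h5]
    abel

end frames

end MP7Z.Ort
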