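import Pool.Agent.Lib.MP_7f581e_Z.Ort.Grp
import Pool.Agent.Lib.MP_7f581e_Z.Types.SpecA

/-!
# Orthogonal groups, part A: linear algebra of frames, Lang's theorem

Each `def XStmt : Prop` is one Lean task: file `Ort/X.lean`, import only this file (and files named in the
task), `theorem MP7Z.Ort.tX : XStmt`; statements listed under *Uses* are hypotheses `(h : YStmt)`.
Basic relations: `Ort/Rel.lean`, `Ort/Grp.lean` (gv_sq, gv_anti, zt_gv, zt_sq, restrict, anti_e, zt_comm_of_anti, ...).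

Notation of the docstrings: `e = g (ie (Fin.last s))`, `f = g (jf (Fin.last s))` for a frame with `s + 1` planes,
`w₀ = g (iw 0)`, `w₁ = g (iw 1)`, `z = w₀ w₁`, `ζ = zt a s g`, `γ v = gv g v`.
-/

set_option autoImplicit false
set_option linter.unusedSectionVars false

namespace MP7Z.Ort

open TensorProduct MP7fS Matrix

/-! ## Part 1.  Frames of operators -/

/-- **Dec.** Decomposition of a space by a hyperbolic pair.

*Proof.*  `x = e f x + f e x`.  (1) `e x = 0`: `x = e f x`.  (2) clear (`e e = 0`).  (3) apply `e`: `e f y = y` by (1), so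
`y = 0`, `x = 0`.  (4) `(x, y) ↦ x + f y` is a linear isomorphism `ker e × ker e → W` (inverse `w ↦ (e f w, e w)`). -/
def DecStmt : Prop :=
  ∀ (K W : Type) [Field K] [AddCommGroup W] [Module K W] (e f : Module.End K W), e * e = 0 →
    f * f = 0 → e * f + f * e = 1 →
    (∀ x, e x = 0 → e (f x) = x) ∧ (∀ w, e (e w) = 0 ∧ w = e (f w) + f (e w)) ∧
    (∀ x y, e x = 0 → e y = 0 → x + f y = 0 → x = 0 ∧ y = 0) ∧
    (FiniteDimensional K W → Module.finrank K W = 2 * Module.finrank K (LinearMap.ker e))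

/-- **Vac.** The base case: two-dimensional frames.

*Proof.*  `w₀ w₀ = 1`, `w₁ w₁ = b`, `w₀ w₁ + w₁ w₀ = a` (*Rel*: `h.sq`, `h.anti'`, `qf_w0`, `qf_w1`, `bf_w0`, `bf_w1`).  If
`w₀ y = -y` for all `y` then `w₀ = -1`, `-2 w₁ = a`, squares: `4 b = a²` (the space is not zero), contradiction.  So
there is `y` with `u := w₀ y + y ≠ 0`, and `w₀ u = u`.  `w₀ (w₁ u) = a u - w₁ u`, `w₁ (w₁ u) = b u`.  If
`w₁ u = κ u` then `κ u = w₀ (κ u) = a u - κ u` and `κ² u = b u`, so `a = 2 κ`, `a² = 4 κ² = 4 b`,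
contradiction.  So `u, w₁ u` are linearly independent, a basis (`finrank = 2`). -/
def VacStmt : Prop :=
  ∀ (K W : Type) [Field K] [AddCommGroup W] [Module K W] [FiniteDimensional K W] (a b : K)
    (g : Ix 0 → Module.End K W), a ^ 2 - 4 * b ≠ 0 → IsFrame a b g → Module.finrank K W = 2 →
    ∃ u : W, g (iw 0) u = u ∧ g (iw 0) (g (iw 1) u) = a • u - g (iw 1) u ∧
      g (iw 1) (g (iw 1) u) = b • u ∧ ∃ β : Module.Basis (Fin 2) K W, β 0 = u ∧ β 1 = g (iw 1) u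

/-- **ResF.** Restriction of a frame of operators to the kernel of `e`.

*Proof.*  `g (cIx i)` anticommutes with `e` (`IsFrame.anti_e'`), so it preserves `ker e`; `g' i` is its
restriction (`LinearMap.restrict`); the relations (`h.restrict`) restrict. -/
def ResFStmt : Prop :=
  ∀ (K W : Type) [Field K] [AddCommGroup W] [Module K W] (s : ℕ) (a b : K)
    (g : Ix (s + 1) → Module.End K W), IsFrame a b g →
    ∃ g' : Ix s → Module.End K (LinearMap.ker (g (ie (Fin.last s)))), IsFrame a b g' ∧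
      ∀ i (x : LinearMap.ker (g (ie (Fin.last s)))), ((g' i x : LinearMap.ker
        (g (ie (Fin.last s)))) : W) = g (cIx i) (x : W)

/-- **ConjV.** Two frames of operators are conjugate.

*Proof.*  Induction on `s` (for all `W, W'`).  `s = 0`: *Vac* for both: `c` maps the basis `u, w₁ u` to `u', w₁' u'`;
the operators have the same matrices in these bases.  Step: `W₁ = ker e`, `W₁' = ker e'`, of dimension
`2^(s+1)` (*Dec* (4)); *ResF* and the induction hypothesis give `c₁ : W₁ ≃ W₁'`.  Put `c w = c₁ (e f w) + f' c₁ (e w)`;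
inverse `w' ↦ c₁⁻¹ (e' f' w') + f c₁⁻¹ (e' w')`.  For `G = g (cIx i)` (anticommutes with `e`, `f`): `c (G w) =
c₁ (e f G w) + f' c₁ (e G w) = c₁ (G e f w) - f' c₁ (G e w) = G' c₁ (e f w) - f' G' c₁ (e w) = G' (c w)`.  `c (e w) =
c₁ (e f e w) = c₁ (e w)` and `e' (c w) = e' f' c₁ (e w) = c₁ (e w)` (`e' c₁ = 0`, *Dec* (1)).  `c (f w) = f' c₁ (e f w) =
f' (c w)`.  Every index of `Ix (s+1)` is `cIx i`, `ie (Fin.last s)` or `jf (Fin.last s)`.
*Uses*: Dec, Vac, ResF. -/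
def ConjVStmt : Prop :=
  ∀ (K : Type) [Field K] (a b : K), a ^ 2 - 4 * b ≠ 0 → ∀ (s : ℕ) (W W' : Type) [AddCommGroup W]
    [Module K W] [FiniteDimensional K W] [AddCommGroup W'] [Module K W'] [FiniteDimensional K W']
    (g : Ix s → Module.End K W) (g' : Ix s → Module.End K W'), IsFrame a b g → IsFrame a b g' →
    Module.finrank K W = 2 ^ (s + 1) → Module.finrank K W' = 2 ^ (s + 1) →
    ∃ c : W ≃ₗ[K] W', ∀ i w, c (g i w) = g' i (c w)

/-- **CentV.** The operators commuting with all `e_i, f_i` and with `z = w₀ w₁`.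

*Proof.*  Induction on `s`.  `s = 0`: *Vac*: `z u = w₀ (w₁ u) = a u - w₁ u`, so `u, z u` span `W`; `X u = κ u + λ z u`
for some `κ, λ`, and `X (z u) = z (X u) = (κ + λ z) (z u)`, so `X = κ + λ z`.  Step: `X` commutes with `e`, so it
preserves `ker e`; its restriction commutes with the restrictions of `e_i, f_i` (`i < s`), `z` (*ResF*), so it is
`κ + λ z` on `ker e` (induction, *Dec* (4)).  For `w ∈ W`: `w = x + f y`, `x = e f w`, `y = e w ∈ ker e`, and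
`X (f y) = f (X y) = f ((κ + λ z) y) = (κ + λ z) (f y)` (`z` commutes with `f`: `w₀`, `w₁` anticommute with it).
*Uses*: Dec, Vac, ResF. -/
def CentVStmt : Prop :=
  ∀ (K : Type) [Field K] (a b : K), a ^ 2 - 4 * b ≠ 0 → ∀ (s : ℕ) (W : Type) [AddCommGroup W]
    [Module K W] [FiniteDimensional K W] (g : Ix s → Module.End K W), IsFrame a b g →
    Module.finrank K W = 2 ^ (s + 1) → ∀ X : Module.End K W,
    (∀ i, X * g (ie i) = g (ie i) * X) → (∀ i, X * g (jf i) = g (jf i) * X) →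
    X * (g (iw 0) * g (iw 1)) = g (iw 0) * g (iw 1) * X →
    ∃ κ l : K, X = κ • 1 + l • (g (iw 0) * g (iw 1))

/-- **SpanV.** The frame generates the algebra of all operators.

*Proof.*  Induction on `s`.  `s = 0`: `1, w₀, w₁, z` are linearly independent, so they span `End W` (dimension
`4`).  Suppose `α + β w₀ + γ w₁ + δ z = 0`.  `z v = v (a - z)` for `v = w₀, w₁`; multiply by `θ = a - 2 z` on the left
and on the right: `θ` commutes with `1, z` and anticommutes with `w₀, w₁`, `θ² = a² - 4 b` is invertible; so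
(if `2 ≠ 0`) both parts vanish.  Uniform argument: `X₀ := α + δ z`, `X₁ := β w₀ + γ w₁ = w₀ (β + γ z)`, `X₀ + X₁ = 0`;
`z X₁ = X₁ (a - z)` and `z X₀ = X₀ z`; from `X₁ = -X₀`: `X₁ (a - z) = z X₁ = X₁ z`, so `X₁ θ = 0`, `X₁ = 0`, `X₀ = 0`;
`β + γ z = 0` and `α + δ z = 0`; if `γ ≠ 0` (or `δ ≠ 0`) `z` is a scalar, `z w₀ = w₀ (a - z)` gives `a = 2 z`,
`θ = 0`, contradiction.  So `γ = β = 0`, `δ = α = 0`.
Step: let `𝒜` be the subalgebra generated by `g`, `W₁ = ker e`.  (a) The set of the `Y' ∈ End W₁` for which there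
is `Y ∈ 𝒜` with `Y x = Y' x` for `x ∈ W₁` is a subalgebra containing the `g' i` (*ResF*), so it is everything by
induction (*Dec* (4)).  (b) For `X ∈ End W` the maps `x ↦ e f X x`, `x ↦ e f X f x`, `x ↦ e X x`, `x ↦ e X f x` map
`W₁` to `W₁`; let `Y₁, Y₂, Y₃, Y₄ ∈ 𝒜` agree with them on `W₁`.  Then `X = Y₁ e f + Y₂ e + f Y₃ e f + f Y₄ e`:
for `w = x + f y` (`x = e f w`, `y = e w` in `W₁`), `X w = X x + X f y`, and `X x = e f X x + f e X x = Y₁ x + f Y₃ x`,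
`X f y = e f X f y + f e X f y = Y₂ y + f Y₄ y`.
*Uses*: Dec, Vac, ResF. -/
def SpanVStmt : Prop :=
  ∀ (K : Type) [Field K] (a b : K), a ^ 2 - 4 * b ≠ 0 → ∀ (s : ℕ) (W : Type) [AddCommGroup W]
    [Module K W] [FiniteDimensional K W] (g : Ix s → Module.End K W), IsFrame a b g →
    Module.finrank K W = 2 ^ (s + 1) → Algebra.adjoin K (Set.range g) = ⊤

/-- **ComV.** Even operators commuting with all idempotents `e_i f_i` commute with each other.

*Proof.*  Induction on `s`.  `s = 0`: `ζ = z`; by *CentV* (no `e_i`) `X = κ + λ z`, `Y = κ' + λ' z`: they commute.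
Step: `ζ = ζ' e f + (a - ζ') f e`, `ζ' = zt a s (g ∘ cIx)` commutes with `e`, `f` (`zt_comm_of_anti`).  Let `E = e f`,
`E` is the projection onto `W₁ = ker e` along `ker f = im f`.  `X` commutes with `E`, so it preserves `W₁` and
`f W₁ = ker E`: `X x ∈ W₁` for `x ∈ W₁`; and `X f x = f (e X f x)` (since `X f x = (1 - E) X f x = f e X f x`).
Put `X₁ = X | W₁`, `X₂ = (x ↦ e X f x) : W₁ → W₁`, same for `Y`.  `X₁` commutes with `e_i f_i` (`i < s`) and with `ζ'`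
on `W₁` (`ζ x = ζ' x` for `x ∈ W₁`: `e f x = x`, `e x = 0`); `X₂` commutes with the `e_i f_i` (they commute with
`e` and `f`) and with `ζ'`: `ζ (f x) = (a - ζ') f x` (`e f f x = 0`, `f e f x = f x`), so `X` commutes with `ζ'` on
`f W₁`, and `e X f ζ' x = e X ζ' f x = e ζ' X f x = ζ' e X f x`.  Here `ζ'` restricts to `zt a s g'` on `W₁` (*ResF*;
by `zt_map`-like induction, or: the restriction of operators preserving `W₁` is multiplicative).  By induction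
`X₁ Y₁ = Y₁ X₁`, `X₂ Y₂ = Y₂ X₂`.  For `w = x + f y`: `X Y x = X₁ Y₁ x`, `X Y f y = X f (Y₂ y) = f X₂ Y₂ y`.
*Uses*: Dec, Vac, ResF, CentV. -/
def ComVStmt : Prop :=
  ∀ (K : Type) [Field K] (a b : K), a ^ 2 - 4 * b ≠ 0 → ∀ (s : ℕ) (W : Type) [AddCommGroup W]
    [Module K W] [FiniteDimensional K W] (g : Ix s → Module.End K W), IsFrame a b g →
    Module.finrank K W = 2 ^ (s + 1) → ∀ X Y : Module.End K W,
    (∀ i, X * (g (ie i) * g (jf i)) = g (ie i) * g (jf i) * X) →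
    (∀ i, Y * (g (ie i) * g (jf i)) = g (ie i) * g (jf i) * Y) →
    X * zt a s g = zt a s g * X → Y * zt a s g = zt a s g * Y → X * Y = Y * X

/-- **ExV.** Existence of frames of operators.

*Proof.*  Induction on `s`.  `s = 0`: `W = K × K` (or `Fin 2 → K`), `w₀ (x, y) = (x + a y, -y)`,
`w₁ (x, y) = (b y, x)`: `w₀² = 1`, `w₁² = b`, `w₀ w₁ (x, y) = (b y + a x, -x)`, `w₁ w₀ (x, y) = (-b y, x + a y)`, sum
`a (x, y)`.  Step: `W × W`, `e (x, y) = (y, 0)`, `f (x, y) = (0, x)`, `g (cIx i) (x, y) = (g' i x, -g' i y)`; check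
`gv g v` squared is `qf a b v`: `v = (v', x₀, y₀)`: `gv g v (x, y) = (γ' x + x₀ y, -γ' y + y₀ x)`, squared:
`(γ'² x + x₀ γ' y - x₀ γ' y + x₀ y₀ x, ..) = (Q(v') + x₀ y₀) (x, y)`; `IsFrame.of_sq`, `qf_succ`, `gv_succ`. -/
def ExVStmt : Prop :=
  ∀ (K : Type) [Field K] (a b : K) (s : ℕ), ∃ (W : Type) (_ : AddCommGroup W) (_ : Module K W)
    (_ : FiniteDimensional K W) (g : Ix s → Module.End K W), IsFrame a b g ∧
      Module.finrank K W = 2 ^ (s + 1)

/-! ## Part 2.  Frames of matrices -/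

/-- **Trf.** The matrix versions.

*Proof.*  `Matrix.toLinAlgEquiv' : Matrix l l K ≃ₐ[K] ((l → K) →ₗ[K] (l → K))`; it maps frames to frames
(`IsFrame.map` for `f = RingHom.id K`), `zt` to `zt` (`zt_map`), `finrank (l → K) = card l`.  (1) *ConjV*: the matrix
`c` of the linear equivalence.  (2) *CentV* and then: `X = κ + λ z` commutes with `w₀`: `λ (z w₀ - w₀ z) = 0`,
`z w₀ = w₀ (a - z)` (`w₁ w₀ = a - w₀ w₁`), so `λ w₀ (a - 2 z) = 0`, `λ (a - 2 z) = 0`; `(a - 2 z)² = a² - 4 b ≠ 0`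
(`z² = a z - b`), so `λ = 0`.  (3) *CentV*.  (4) *SpanV*.  (5) *ComV*.  (6) *ExV*: choose a basis of `W` indexed by
`Fin (2^(s+1))`.
*Uses*: ConjV, CentV, SpanV, ComV, ExV. -/
def TrfStmt : Prop :=
  (∀ (K : Type) [Field K] (l : Type) [Fintype l] [DecidableEq l] (a b : K) (s : ℕ)
    (g : Ix s → Matrix l l K), a ^ 2 - 4 * b ≠ 0 → Fintype.card l = 2 ^ (s + 1) →
    IsFrame a b g →
    (∀ g' : Ix s → Matrix l l K, IsFrame a b g' → ∃ c : GL l K, ∀ i,
      (c : Matrix l l K) * g i = g' i * (c : Matrix l l K)) ∧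
    (∀ X : Matrix l l K, (∀ i, X * g i = g i * X) → ∃ κ : K, X = κ • 1) ∧
    (∀ X : Matrix l l K, (∀ i, X * g (ie i) = g (ie i) * X) →
      (∀ i, X * g (jf i) = g (jf i) * X) →
      X * (g (iw 0) * g (iw 1)) = g (iw 0) * g (iw 1) * X →
      ∃ κ m : K, X = κ • 1 + m • (g (iw 0) * g (iw 1))) ∧
    Algebra.adjoin K (Set.range g) = ⊤ ∧
    (∀ X Y : Matrix l l K,
      (∀ i, X * (g (ie i) * g (jf i)) = g (ie i) * g (jf i) * X) →
      (∀ i, Y * (g (ie i) * g (jf i)) = g (ie i) * g (jf i) * Y) →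
      X * zt a s g = zt a s g * X → Y * zt a s g = zt a s g * Y → X * Y = Y * X)) ∧
  ∀ (K : Type) [Field K] (a b : K) (s : ℕ), ∃ g : Ix s → Matrix (Lx s) (Lx s) K, IsFrame a b g

/-- **Cen.** The centre of the even Clifford algebra.

*Proof.*  `w = w₀`, `w w = 1`.  If `Z'` commutes with all products `g i g j` (hence with all `γ v γ v'`) then
`Z' + w Z' w` commutes with all `g i`: `g_i (Z' + w Z' w) = g_i Z' + (g_i w) Z' w = g_i Z' + Z' g_i w w = g_i Z' + Z' g_i`,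
and `(Z' + w Z' w) g_i = Z' g_i + w Z' (w g_i) = Z' g_i + w w g_i Z' = Z' g_i + g_i Z'`; so it is a scalar (*Trf* (2)).
Apply to `Z` and to `Z ζ` (`ζ` commutes with the products: from `zt_gv`): `Z + w Z w = c`, `Z ζ + w Z ζ w = c'`;
`w ζ w = a - ζ` (`zt_gv`), `w Z ζ w = (w Z w)(w ζ w) = (c - Z)(a - ζ)`.  So `Z (2 ζ - a) = c' - c a + c ζ`;
`(2 ζ - a)² = a² - 4 b =: δ ≠ 0` (`zt_sq`), so `Z = δ⁻¹ (c' - c a + c ζ)(2 ζ - a)`, and `ζ (2 ζ - a) = a ζ - 2 b`.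
*Uses*: Trf. -/
def CenStmt : Prop :=
  ∀ (K : Type) [Field K] (l : Type) [Fintype l] [DecidableEq l] (a b : K) (s : ℕ)
    (g : Ix s → Matrix l l K), a ^ 2 - 4 * b ≠ 0 → Fintype.card l = 2 ^ (s + 1) →
    IsFrame a b g → ∀ Z : Matrix l l K, (∀ i j, Z * (g i * g j) = g i * g j * Z) →
      ∃ κ m : K, Z = κ • 1 + m • zt a s g

/-- **SpnE.** Generators of the even Clifford algebra of the quadratic space.

*Proof.*  (1) Even type or `o` false part: let `𝒜₀` be the subalgebra generated by all `γ v γ w`, `v, w : Ix s → K`.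
`𝒜₀ + 𝒜₀ w₀` is a subalgebra (`w₀ 𝒜₀ w₀ ⊆ 𝒜₀`, since `w₀ γ v γ w w₀ = (w₀ γ v)(γ w w₀)`; so `w₀ 𝒜₀ = (w₀ 𝒜₀ w₀) w₀ ⊆ 𝒜₀ w₀`)
containing `γ v = (γ v w₀) w₀`, so it is everything (*Trf* (4)).  Let `X = X₀ + X₁ w₀`, `X_i ∈ 𝒜₀`, commute with `ζ`; `ζ`
commutes with `𝒜₀`, `w₀ ζ = (a - ζ) w₀`; so `0 = X₁ w₀ ζ - ζ X₁ w₀ = X₁ (a - 2 ζ) w₀`, `X₁ = 0` (`(a - 2ζ)² = a² - 4b`).
So `X ∈ 𝒜₀`; if `o` is false this is the claim.  (2) `o` true: `a = 0`, `2` and `b` invertible; `y = w₁`.  Let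
`𝒜₀ᵒ` be generated by `γ v γ w`, `v, w ∈ Vo`.  `𝒜₀ᵒ + 𝒜₀ᵒ y w₀` contains the `γ v γ w` for all `v, w`: with `v = v' + α bv (iw 0)`,
`w = w' + β bv (iw 0)`, `v', w' ∈ Vo`: `γ v' w₀ = b⁻¹ (γ v' y) (y w₀)`, `w₀ γ w' = -γ w' w₀`; and it is closed under
multiplication: `(y w₀)(γ v γ w) = y γ v γ w w₀ = b⁻¹ (y γ v)(γ w y)(y w₀)`, `(y w₀)² = -b` (`w₀` anticommutes with
`γ v`, `v ∈ Vo`, so commutes with `𝒜₀ᵒ`).  So `X ∈ 𝒜₀` is `X₀ + X₁ y w₀`; commuting with `w₀`: `w₀ X₁ y w₀ = -X₁ y w₀ w₀`,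
so `2 X₁ y = 0`, `X₁ = 0`.
*Uses*: Trf. -/
def SpnEStmt : Prop :=
  ∀ (K : Type) [Field K] (l : Type) [Fintype l] [DecidableEq l] (a b : K) (s : ℕ)
    (g : Ix s → Matrix l l K) (P : GL l K) (o : Prop), Good a b g P o →
    ∀ X : Matrix l l K, X * zt a s g = zt a s g * X → (o → X * g (iw 0) = g (iw 0) * X) →
      X ∈ Algebra.adjoin K {Y | ∃ v ∈ Vo o s K, ∃ w ∈ Vo o s K, Y = gv g v * gv g w}

/-- **Exi.** Existence of data.

*Proof.*  *Trf* (6) gives `g`.  The transposed matrices `(g i)ᵀ` form a frame with the same `a, b`, so by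
*Trf* (1) there is `c` with `c (g i)ᵀ = g i c`; `P = c`: `rv P (g i) = c (g i)ᵀ c⁻¹ = g i`.
*Uses*: Trf. -/
def ExiStmt : Prop :=
  ∀ (F : Type) [Field F] (s : ℕ) (a b : F) (o : Prop), a ^ 2 - 4 * b ≠ 0 →
    (o → a = 0 ∧ (2 : F) ≠ 0) → ∃ D : Dat F s, D.a = a ∧ D.b = b ∧ (D.o ↔ o)

/-! ## Part 3.  Quadratic forms over finite fields -/

/-- **Che.** A quadratic form in at least three variables over a finite field has a nontrivial zero.

*Proof.*  In coordinates (a basis `β` of `W`, indexed by `Fin n`, `n ≥ 3`) `q (Σ x_i β_i) = Σ_i q(β_i) x_i² +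
Σ_{i<j} polar(β_i, β_j) x_i x_j`, a polynomial of total degree at most `2 < n`.  Chevalley-Warning
(`char_dvd_card_solutions`): the characteristic divides the number of zeros; there is the zero `0`, so there
is another one.  (2) `n = 2` or more: `q` represents `1` if the polar form is nondegenerate: apply (1) to `W × K`,
`q(w) - c²` (`finrank ≥ 3`): a nontrivial zero `(w, c)`.  If `c ≠ 0`: `q(c⁻¹ w) = 1`.  If `c = 0`: `w ≠ 0`, `q(w) = 0`,
there is `y` with `polar w y = t ≠ 0`; then `q(y + r w) = q(y) + r t`, take `r = (1 - q(y))/t`. -/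
def CheStmt : Prop :=
  ∀ (K W : Type) [Field K] [Finite K] [AddCommGroup W] [Module K W] [FiniteDimensional K W]
    (q : QuadraticForm K W),
    (3 ≤ Module.finrank K W → ∃ x : W, x ≠ 0 ∧ q x = 0) ∧
    (2 ≤ Module.finrank K W → (∀ x, (∀ y, QuadraticMap.polar q x y = 0) → x = 0) →
      ∃ x : W, q x = 1)

/-- **Hyp.** Splitting off a hyperbolic plane.

*Proof.*  `x ≠ 0`, so there is `y₀` with `polar x y₀ ≠ 0`; in the situation with `w`: `polar w x = 0`, `y₀` must be chosen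
with `polar w y₀ = 0`: `w' ∈ w^⊥`: `y₀ - (polar w y₀ / 2) w` (`polar w w = 2 q(w) = 2`), this does not change
`polar x y₀`.  `y₁ = (polar x y₀)⁻¹ y₀`, `y = y₁ - q(y₁) x`: `q(y) = q(y₁) - q(y₁) polar x y₁ = 0`,
`polar x y = 1`.  `U = {z : polar x z = 0, polar y z = 0}`: every `z` is
`(polar z y) x + (polar z x) y + z'`, `z' ∈ U`; if `z ∈ U` is orthogonal to `U` then it is orthogonal to everything.
The map `z ↦ (polar z y, polar z x)` is onto `K²` with kernel `U` (`polar x y = 1`, `polar x x = 2 q(x) = 0`): the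
dimension of `U` is `finrank - 2`. -/
def HypStmt : Prop :=
  ∀ (K W : Type) [Field K] [AddCommGroup W] [Module K W] [FiniteDimensional K W]
    (q : QuadraticForm K W) (o : Prop) (w : W),
    (∀ x, (∀ y, QuadraticMap.polar q x y = 0) → x = 0) → (o → q w = 1 ∧ (2 : K) ≠ 0) →
    ∀ x : W, x ≠ 0 → q x = 0 → (o → QuadraticMap.polar q w x = 0) →
    ∃ (y : W) (U : Submodule K W), q y = 0 ∧ QuadraticMap.polar q x y = 1 ∧
      (o → QuadraticMap.polar q w y = 0) ∧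
      (∀ z, z ∈ U ↔ QuadraticMap.polar q x z = 0 ∧ QuadraticMap.polar q y z = 0) ∧
      Module.finrank K W = Module.finrank K U + 2 ∧
      ∀ z : U, (∀ z' : U, QuadraticMap.polar q (z : W) (z' : W) = 0) → z = 0

/-- **Cls.** Classification over finite fields.

*Proof.*  Induction on `s` (for all `W`).  `s = 0`, `finrank = 2`: if `o` is false *Che* (2) gives `w₀` with
`q(w₀) = 1`; if `o` is true `w₀ = w`.  `w₁`: if `o` false any vector with `w₀, w₁` a basis; if `o` true a nonzero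
vector with `polar w₀ w₁ = 0` (exists: the kernel of the functional `polar w₀` has dimension at least `1`; and
`w₀` is not in it because `polar w₀ w₀ = 2`).  `a' = polar w₀ w₁`, `b' = q(w₁)`; `x (iw 0) = w₀`, `x (iw 1) = w₁`;
`q(z₀ w₀ + z₁ w₁) = z₀² + a' z₀ z₁ + b' z₁²`.  The determinant of the polar form is `4 b' - a'²`, nonzero (else there
is `z ≠ 0` orthogonal to `w₀` and `w₁`, so to everything).  Step: `finrank = 2 (s+1) + 2 ≥ 4`.  A nonzero `x₀` with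
`q(x₀) = 0` (and `polar w x₀ = 0` if `o`): *Che* (1) for `W`, or for the restriction of `q` to `{polar w = 0}`, of
dimension at least `3` (`q.comp (Submodule.subtype _)`).  *Hyp* gives `y₀`, `U`; `w ∈ U` if `o`; induction for
`U` (restriction of `q`) gives `a', b', x'`; `x (cIx i) = x' i`, `x (ie last) = x₀`, `x (jf last) = y₀`; `qf_succ`.
*Uses*: Che, Hyp. -/
def ClsStmt : Prop :=
  ∀ (K : Type) [Field K] [Finite K] (o : Prop) (s : ℕ) (W : Type) [AddCommGroup W] [Module K W]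
    [FiniteDimensional K W] (q : QuadraticForm K W) (w : W),
    (∀ x, (∀ y, QuadraticMap.polar q x y = 0) → x = 0) → (o → q w = 1 ∧ (2 : K) ≠ 0) →
    Module.finrank K W = 2 * s + 2 →
    ∃ (a' b' : K) (x : Ix s → W), a' ^ 2 - 4 * b' ≠ 0 ∧ (o → a' = 0 ∧ x (iw 0) = w) ∧
      ∀ v : Ix s → K, q (∑ i, v i • x i) = qf a' b' v

/-- **Frm.** A frame in a space of matrices.

*Proof.*  `W = Ix s → K`, `q = q₁` is a quadratic form: the map `v ↦ q₁ v` satisfies `q₁ (c v) = c² q₁ v` and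
`polar q₁ v w • 1 = gv x v gv x w + gv x w gv x v` is bilinear (`smul_one_inj`, `l` is nonempty); build it with
`QuadraticMap.mk` (or `ofPolar`).  Nondegenerate by hypothesis.  *Cls* (with the given `w`) gives `a', b'` and vectors
`y : Ix s → (Ix s → K)`; `x' i = gv x (y i)`; `gv x' v = gv x (Σ v_i y_i)`, so `(gv x' v)² = qf a' b' v`: `IsFrame.of_sq`.
`finrank = card (Ix s) = 2 s + 2`.
*Uses*: Cls. -/
def FrmStmt : Prop :=
  ∀ (K : Type) [Field K] [Finite K] (l : Type) [Fintype l] [DecidableEq l] [Nonempty l] (s : ℕ)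
    (o : Prop) (x : Ix s → Matrix l l K) (q₁ : (Ix s → K) → K) (w : Ix s → K),
    (∀ v : Ix s → K, gv x v * gv x v = q₁ v • 1) →
    (∀ v : Ix s → K, (∀ v' : Ix s → K, gv x v * gv x v' + gv x v' * gv x v = 0) → v = 0) →
    (o → gv x w * gv x w = 1 ∧ (2 : K) ≠ 0) →
    ∃ (a' b' : K) (x' : Ix s → Matrix l l K), a' ^ 2 - 4 * b' ≠ 0 ∧ IsFrame a' b' x' ∧
      (∀ i, ∃ y : Ix s → K, x' i = gv x y) ∧ (o → a' = 0 ∧ x' (iw 0) = gv x w)

/-- **Adj.** Adjusting `w₁` to a given central element.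

*Proof.*  *Cen* for `x'`: `ζ₁ = κ + m ζ'`, `ζ' = zt a' s x'`.  `ζ₁ w₀ = w₀ (a - ζ₁)` with `w₀ = x' (iw 0)` (`w₀² = 1`) and
`ζ' w₀ = w₀ (a' - ζ')`: `w₀ (κ + m a' - m ζ') = w₀ (a - κ - m ζ')`, so `a = 2 κ + m a'`.  `ζ₁² = a ζ₁ - b`: `b = ζ₁ (a - ζ₁) =
(κ + m ζ')(κ + m a' - m ζ') = κ² + κ m a' + m² b'` (`ζ'² = a' ζ' - b'`).  `m ≠ 0` (otherwise `a = 2κ`, `b = κ²`, `a² = 4b`).
`x'' i = x' i` for `i ≠ iw 1`, `x'' (iw 1) = κ x' (iw 0) + m x' (iw 1)`.  `gv x'' v = gv x' v'` with `v' (iw 0) =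
v (iw 0) + κ v (iw 1)`, `v' (iw 1) = m v (iw 1)`, and `qf a' b' v' = qf a b v`: `(z₀ + κ z₁)² + a' (z₀ + κ z₁) m z₁ +
b' m² z₁² = z₀² + (2κ + m a') z₀ z₁ + (κ² + κ m a' + m² b') z₁²`.  So `IsFrame a b x''`.  `zt a s x'' = κ + m zt a' s x'` by
induction on `s`: `w₀ (κ w₀ + m w₁) = κ + m w₀ w₁`; and `(κ + m ζ') e f + (a - κ - m ζ') f e = κ (e f + f e) + m (ζ' e f +
(a' - ζ') f e)` since `a - κ = κ + m a'`.
*Uses*: Cen. -/
def AdjStmt : Prop :=
  ∀ (K : Type) [Field K] (l : Type) [Fintype l] [DecidableEq l] (a b a' b' : K) (s : ℕ)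
    (x' : Ix s → Matrix l l K) (ζ : Matrix l l K), a ^ 2 - 4 * b ≠ 0 → a' ^ 2 - 4 * b' ≠ 0 →
    Fintype.card l = 2 ^ (s + 1) → IsFrame a' b' x' →
    (∀ i, ζ * x' i = x' i * (a • 1 - ζ)) → ζ * ζ = a • ζ - b • 1 →
    ∃ (κ m : K) (x'' : Ix s → Matrix l l K), IsFrame a b x'' ∧ zt a s x'' = ζ ∧
      (∀ i, i ≠ iw 1 → x'' i = x' i) ∧ x'' (iw 1) = κ • x' (iw 0) + m • x' (iw 1)

/-! ## Part 4.  Lang's theorem for the spin group -/

/-- **FxM.** Matrices fixed by the Frobenius.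

*Proof.*  `K = {c : c ^ (p^m) = c}` is a subfield (`p^m`-th power map is a ring homomorphism), finite (roots of
`X^(p^m) - X`); `Subfield` of `k` as a type.  A matrix (unit) over `k` fixed by the entrywise map has entries
in `K`; for a unit the inverse is also fixed. -/
def FxMStmt : Prop :=
  ∀ (p : ℕ) [Fact p.Prime] (k : Type) [Field k] [CharP k p] (m : ℕ), 0 < m →
    ∃ K : Subfield k, Finite K ∧ (∀ c : k, c ∈ K ↔ c ^ p ^ m = c) ∧
      (∀ (l : Type) [Fintype l] [DecidableEq l] (X : Matrix l l k),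
        X.map (iterateFrobenius k p m) = X → ∃ Y : Matrix l l K, Y.map K.subtype = X) ∧
      ∀ (l : Type) [Fintype l] [DecidableEq l] (X : GL l k),
        GeneralLinearGroup.map (iterateFrobenius k p m) X = X →
          ∃ Y : GL l K, GeneralLinearGroup.map K.subtype Y = X

/-- **Des.** Descent of the space of vectors.

*Proof.*  Write `φ` for the entrywise Frobenius `p^m`.  `w_i = y⁻¹ g_i y`, `φ(w_i) = y⁻¹ u⁻¹ g_i u y` (`φ(g_i) = g_i`,
`φ(y) = u y`).  By the fourth condition of `SG` for `bv i`: `g_i u = u gv g v_i`, so `φ(w_i) = Σ_j A_{ij} w_j`, `A_{ij} =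
v_i j`.  `A` is invertible: by the third condition `u g_i = gv g v'_i u`, `A' _{ij} = v'_i j` is its inverse (the `g_i`
are linearly independent, `Good.gv_inj`).  Lang's theorem for `GL` (`LangS p (GLf (Ix s))`) for the matrix
`(A⁻¹)ᵀ`: there is `Y` with `φ(Y) = (A⁻¹)ᵀ Y`; `S = Yᵀ`: `φ(S) = S A⁻¹`, so `φ(S) A = S`.  `x_i = Σ_j S_{ij} w_j` is fixed:
`φ(x_i) = Σ_j φ(S)_{ij} Σ_k A_{jk} w_k = Σ_k S_{ik} w_k = x_i`. -/
def DesStmt : Prop :=
  ∀ (p : ℕ) [Fact p.Prime] (k : Type) [Field k] [CharP k p] [IsSepClosed k] (l : Type)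
    [Fintype l] [DecidableEq l] (s m : ℕ) (a b : k) (g : Ix s → Matrix l l k) (P : GL l k)
    (o : Prop), Good a b g P o → 0 < m → LangS p (GLf (Ix s)) →
    (∀ i, (g i).map (iterateFrobenius k p m) = g i) → ∀ u ∈ SG a g P o, ∀ y : GL l k,
    GeneralLinearGroup.map (iterateFrobenius k p m) y = u * y →
    ∃ S : GL (Ix s) k, ∀ i, ∃ x : Matrix l l k, x.map (iterateFrobenius k p m) = x ∧
      (y : Matrix l l k) * x = gv g (fun j => (S : Matrix (Ix s) (Ix s) k) i j) *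
        (y : Matrix l l k)

/-- **LangO.** Lang's theorem for the spin group.

*Proof.*  `φ` = entrywise Frobenius `p^m`, `K` from *FxM*; `a, b ∈ K` and `g_i`, `P` come from `K`: `Good a_K b_K g_K P_K o`
(the conditions can be tested in `k`, `K.subtype` is injective).  Lang for `GL_l` (`LGL`: `LangS p (GLf l)`) gives
`y'` with `φ(y') = u y'`.  *Des*: `S`, `x_i` fixed, so `x_i` comes from `x_i^K ∈ M_l(K)`.  (1) For `v : Ix s → K`:
`y' (Σ v_i x_i) y'⁻¹ = γ(v S)`, `(v S)_j = Σ_i v_i S_ij`; so `(gv x^K v)² = qf a b (v S) • 1`, a matrix over `K`, so the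
scalar is in `K`: `q₁ v`.  Nondegenerate: if `gv x v` anticommutes (polar form) with all `x_j` then `bf a b (v S) (e_j S)
= 0` for all `j`, `S` invertible, `nondeg`: `v S = 0`, `v = 0`.  (2) If `o`: `W₀ = y'⁻¹ w₀ y'` is fixed (`u` commutes with `w₀`),
`W₀ = Σ_i r_i x_i` with `r = (bv (iw 0)) S⁻¹`; `φ(r) = r` because the `x_i` are linearly independent over `k`
(`Good.gv_inj`, `S` invertible) and fixed; so `r ∈ K`, `W₀ = gv x^K r`, of square `1`.  (3) *Frm*: `a', b', x'` over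
`K`.  (4) `ζ₁ = y'⁻¹ ζ y'` is fixed (`u ζ = ζ u`, `φ(ζ) = ζ` by `zt_mat`), comes from `ζ₁^K`; `ζ₁ x = x (a - ζ₁)` for
`x = y'⁻¹ γ(v) y'` (`zt_gv`), in particular for the `x' i`; `ζ₁² = a ζ₁ - b`.  *Adj* gives `x''`, `IsFrame a b x''`,
`zt a s x'' = ζ₁^K`, and `x'' (iw 0) = W₀` if `o`.  (5) *Trf* (1) over `K`: `c ∈ GL_l(K)` with `c g_i = x''_i c`.
`y'' = y' c`: `φ(y'') = u y''`.  `y'' g_i y''⁻¹ = y' x''_i y'⁻¹ ∈ γ(V)` (`x''_i` is a `K`-combination of the `x_j`),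
`y''⁻¹ g_i y'' = c⁻¹ (y'⁻¹ g_i y') c`, and `y'⁻¹ g_i y'` is a `k`-combination of the `x_j`, hence of the `x''_j` (the
`x''_j` are `2s + 2` linearly independent vectors in the span of the `x_j`: `IsFrame` and `nondeg`; so they span
it), so `∈ γ(V)`.  `c ζ c⁻¹ = zt a s x'' = ζ₁` (`zt` is compatible with conjugation: `zt_map`), so `y''` commutes with
`ζ`; if `o`: `c w₀ c⁻¹ = W₀`, `y''` commutes with `w₀`.  (6) `N = rv(y'') y''` commutes with all `g_i`: `y'' g_i = γ(v) y''`,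
so `g_i rv(y'') = rv(y'') γ(v)` (apply `rv`), `N g_i = rv(y'') γ(v) y'' = g_i N`.  So `N = ν • 1` (*Trf* (2)), `ν ≠ 0`,
`φ(N) = rv(u y'') u y'' = rv(y'') rv(u) u y'' = N`, so `ν ∈ K`.  (7) With the last plane `e, f` (`s ≥ 1`):
`t = e f + ν⁻¹ f e` is a unit (inverse `e f + ν f e`) with entries in `K`, `rv(t) = f e + ν⁻¹ e f`, `rv(t) t = ν⁻¹`; `t` commutes
with `ζ` and `w₀`, normalizes `γ(V)` (`t e t⁻¹ = ν e`, `t f t⁻¹ = ν⁻¹ f`, commutes with the others).  `y = y'' t`: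
`φ(y) = u y`, `rv(y) y = rv(t) ν t = 1`, `y ∈ SG`.
*Uses*: FxM, Des, Frm, Adj, Trf, LGL (theorem in Types: give it as hypothesis `∀ l, LangS p (GLf l)`). -/
def LangOStmt : Prop :=
  ∀ (p : ℕ) [Fact p.Prime] (k : Type) [Field k] [CharP k p] [IsSepClosed k] (l : Type)
    [Fintype l] [DecidableEq l] (s m : ℕ) (a b : k) (g : Ix s → Matrix l l k) (P : GL l k)
    (o : Prop), Good a b g P o → 1 ≤ s → 0 < m → a ^ p ^ m = a → b ^ p ^ m = b →
    (∀ i, (g i).map (iterateFrobenius k p m) = g i) →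
    GeneralLinearGroup.map (iterateFrobenius k p m) P = P → ∀ u ∈ SG a g P o, ∃ y ∈ SG a g P o,
    GeneralLinearGroup.map (iterateFrobenius k p m) y = u * y

/-- **LaC.** The last step of *LangO*: correction of the norm.

*Proof.*  Steps (6), (7) of *LangO*.
*Uses*: Trf. -/
def LaCStmt : Prop :=
  ∀ (p : ℕ) [Fact p.Prime] (k : Type) [Field k] [CharP k p] (l : Type)
    [Fintype l] [DecidableEq l] (s m : ℕ) (a b : k) (g : Ix s → Matrix l l k) (P : GL l k)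
    (o : Prop), Good a b g P o → 1 ≤ s → 0 < m →
    (∀ i, (g i).map (iterateFrobenius k p m) = g i) →
    GeneralLinearGroup.map (iterateFrobenius k p m) P = P → ∀ u ∈ SG a g P o, ∀ y : GL l k,
    GeneralLinearGroup.map (iterateFrobenius k p m) y = u * y →
    (y : Matrix l l k) * zt a s g = zt a s g * (y : Matrix l l k) →
    (∀ i, ∃ v : Ix s → k, (y : Matrix l l k) * g i = gv g v * (y : Matrix l l k)) →
    (∀ i, ∃ v : Ix s → k, g i * (y : Matrix l l k) = (y : Matrix l l k) * gv g v) →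
    (o → (y : Matrix l l k) * g (iw 0) = g (iw 0) * (y : Matrix l l k)) →
    ∃ y' ∈ SG a g P o, GeneralLinearGroup.map (iterateFrobenius k p m) y' = u * y'

/-! ## Part 5.  Semilinear similitudes -/

/-- **Ext.** Extension of a semilinear similitude to the Clifford algebra.

*Proof.*  *Che* (2) for the norm form `κ² + a κ m + b m²` on `F²` (polar form nondegenerate as `a² ≠ 4b`; apply it to
`μ` times the form, to represent `1`): `N(c) = μ⁻¹`, `c = κ + m ζ`; if `o`: `μ = 1`, `c = 1`.  `c̄ = κ + m (a - ζ)`,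
`c γ v = γ v c̄`, `c̄ c = N(c)`.  `o` false: `x_i = γ(g (bv i)) c`; for `v : Ix s → F`: `gv x v = γ(g v') c` with
`v' = σ⁻¹ ∘ v` (semilinearity, sum over the basis), its square is `γ(g v')² c̄ c = Q(g v') μ⁻¹ = σ(Q(v')) =
qf (σ a) (σ b) v` (`qf_map`).  So `x` is a frame for `(σ a, σ b)`, as is `(g i).map σ`.  *Trf* (1): `t (g i)^σ = x_i t`.
Then `t γ(v)^σ = t Σ σ(v_i) g_i^σ = Σ σ(v_i) x_i t = γ(g v) c t`.  `o` true: the same with `x_i = γ(g (bv i))` for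
`i ≠ iw 0` and `x (iw 0) = w₀`: `w₀` anticommutes with `γ(Vo)` (`a = 0`), `σ a = 0`.
*Uses*: Che, Trf. -/
def ExtStmt : Prop :=
  ∀ (F : Type) [Field F] [Finite F] (s : ℕ) (D : Dat F s) (σ : F ≃+* F) (μ : F)
    (g : (Ix s → F) → (Ix s → F)), D.IsSemi σ μ g →
    ∃ (t : GL (Lx s) F) (κ m : F), κ ^ 2 + D.a * κ * m + D.b * m ^ 2 = μ⁻¹ ∧
      (D.o → κ = 1 ∧ m = 0) ∧
      (∀ v ∈ D.V, (t : Matrix (Lx s) (Lx s) F) * (D.γ v).map σ =
        D.γ (g v) * (κ • 1 + m • D.z) * (t : Matrix (Lx s) (Lx s) F)) ∧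
      (D.o → (t : Matrix (Lx s) (Lx s) F) * (D.g (iw 0)).map σ =
        D.g (iw 0) * (t : Matrix (Lx s) (Lx s) F))

/-- **ExA.** The automorphisms of `C0` given by semilinear similitudes.

*Proof.*  Let `t, κ, m` be as in the hypothesis, `c = κ + m ζ`.  For `v, w ∈ Vo`: `t (γ v γ w)^σ t⁻¹ = γ(g v) c γ(g w) c =
γ(g v) γ(g w) c̄ c = μ⁻¹ γ(g v) γ(g w)`.  (1) If `x` satisfies `Ind`: the `X ∈ C0` with `x X = t X^σ t⁻¹` form a
subring containing scalars and all `γ v γ w`; by *SpnE* everything.  (2) Existence: `X ↦ t X^σ t⁻¹` is an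
injective ring homomorphism of `M_l(F)`; it maps `C0` into `C0`: by *SpnE* `C0` is generated by scalars and
the `γ v γ w`, whose images are in `C0`.  `C0` is finite, so it is an automorphism `x` of `C0`, with `Ind`.
`IsA x⁻¹`: `g` is bijective on `Vo` (injective: `B(g v, g w) = μ σ(B(v,w))` and `Good.nondeg_Vo`; finite): `x⁻¹` is given by
`(σ⁻¹, σ⁻¹(μ)⁻¹, g⁻¹)` (`g⁻¹` extended by `0` outside `Vo`).
*Uses*: SpnE. -/
def ExAStmt : Prop :=
  ∀ (p : ℕ) [Fact p.Prime] (F : Type) [Field F] [Finite F] [Algebra (ZMod p) F] (s : ℕ)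
    (D : Dat F s) (σ : F ≃+* F) (μ : F) (g : (Ix s → F) → (Ix s → F)), D.IsSemi σ μ g →
    ∀ (t : GL (Lx s) F) (κ m : F), κ ^ 2 + D.a * κ * m + D.b * m ^ 2 = μ⁻¹ →
    (∀ v ∈ D.V, (t : Matrix (Lx s) (Lx s) F) * (D.γ v).map σ =
        D.γ (g v) * (κ • 1 + m • D.z) * (t : Matrix (Lx s) (Lx s) F)) →
    (∀ x : RingAut (D.C0 p), D.Ind p x σ μ g → ∀ X : D.C0 p,
      ((x X : D.C0 p) : Matrix (Lx s) (Lx s) F) * (t : Matrix (Lx s) (Lx s) F) =
        (t : Matrix (Lx s) (Lx s) F) * (X : Matrix (Lx s) (Lx s) F).map σ) ∧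
    ∃ x ∈ D.A p, D.Ind p x σ μ g

/-- **ExtS.** Stability of the spin group.

*Proof.*  `τ = t` over `T'` (`GL.map f' t`), `u' = τ h(u) τ⁻¹`, `c = κ + m ζ` (a unit: `c c̄ = μ⁻¹`).  `h ∘ f = f' ∘ σ`, so
`h(g_i^T) = (g_i^σ)^{T'}`.  Let `x_i = t g_i^σ t⁻¹` (`= γ(g b_i) c` for `b_i ∈ Vo`, and `= w₀` for `i = iw 0` if `o`).
(1) `Z = t ζ^σ t⁻¹` commutes with all `x_i x_j` (`ζ^σ` commutes with `g_i^σ g_j^σ`), so with all `g_i g_j` (`o` false:
`x_i x_j = μ⁻¹ γ(g b_i) γ(g b_j)`, and `g` is bijective on `F^(Ix s)`, so the `γ(g b_i)` span `γ(V)`; `o` true: the `x_i` span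
`γ(V)`), so `Z = κ' + m' ζ` (*Cen*), `m' ≠ 0` (`Z` is not a scalar: otherwise `ζ` is a scalar, `ζ w₀ = w₀ (a - ζ)` gives
`a = 2ζ`, `a² = 4b`).  `h(u)` commutes with `(ζ^σ)^{T'}`, so `u'` commutes with `Z^{T'}` and with `ζ^{T'}` (`m'` unit).
(2) `N = (t P^σ)⁻¹ P t⁻ᵀ`.  For `Y ∈ M_l(T')`: `rv(τ Y τ⁻¹) = τ rv_{P^σ}(Y) τ⁻¹` iff `N Yᵀ = Yᵀ N`.  For `Y = g_i^σ g_j^σ`
(`o` false) this holds: `rv(x_i x_j) = μ⁻¹ γ(g b_j) γ(g b_i) = x_j x_i = t (g_j^σ g_i^σ) t⁻¹`, `rv_{P^σ}(g_i^σ g_j^σ) =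
g_j^σ g_i^σ`.  So `Nᵀ` commutes with all `g_i^σ g_j^σ`, `Nᵀ = κ₁ + m₁ ζ^σ` (*Cen* for the frame `g^σ`), and `N` commutes
with `Yᵀ` for all `Y` over `T'` commuting with `ζ^σ`, in particular `Y = h(u)`.  `o` true: `rv(x_i) = x_i`, `Nᵀ` commutes
with all `g_i^σ`, so it is a scalar (*Trf* (2)).  So `rv(u') u' = τ rv_{P^σ}(h u) h(u) τ⁻¹ = τ h(rv(u) u) τ⁻¹ = 1`.
(3) `u' x_i u'⁻¹ = τ h(u g_i u⁻¹) τ⁻¹ = Σ_j h(v_j) x_j` over `T'`.  `o` false: `x_i = γ(g b_i) c`, `u'` commutes with `c`, so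
`u' γ(g b_i) u'⁻¹ = Σ_j h(v_j) γ(g b_j) ∈ γ(V)`, and the `γ(g b_i)` span `γ(V)`.  `o` true: `c = 1`, the `x_i` span `γ(V)`.
(4) the same for `u⁻¹`.  (5) `o`: `u'` commutes with `w₀ = τ h(w₀) τ⁻¹`.
*Uses*: Cen, Trf. -/
def ExtSStmt : Prop :=
  ∀ (F : Type) [Field F] [Finite F] (s : ℕ) (D : Dat F s) (σ : F ≃+* F) (μ : F)
    (g : (Ix s → F) → (Ix s → F)), D.IsSemi σ μ g →
    ∀ (t : GL (Lx s) F) (κ m : F), κ ^ 2 + D.a * κ * m + D.b * m ^ 2 = μ⁻¹ →
    (D.o → κ = 1 ∧ m = 0) →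
    (∀ v ∈ D.V, (t : Matrix (Lx s) (Lx s) F) * (D.γ v).map σ =
        D.γ (g v) * (κ • 1 + m • D.z) * (t : Matrix (Lx s) (Lx s) F)) →
    (D.o → (t : Matrix (Lx s) (Lx s) F) * (D.g (iw 0)).map σ =
        D.g (iw 0) * (t : Matrix (Lx s) (Lx s) F)) →
    ∀ (T T' : Type) [CommRing T] [CommRing T'] (f : F →+* T) (f' : F →+* T') (h : T →+* T'),
      (∀ c, h (f c) = f' (σ c)) → ∀ u ∈ D.S f,
      GeneralLinearGroup.map f' t * GeneralLinearGroup.map h u *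
        (GeneralLinearGroup.map f' t)⁻¹ ∈ D.S f'

end MP7Z.Ort
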