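import Pool.Agent.Lib.MP_7f581e_Z.Ort.SpecA

/-!
# Orthogonal groups, part B: the spin group

Each `def XStmt : Prop` is one Lean task: file `Ort/X.lean`, import only this file (and files named in the
task), `theorem MP7Z.Ort.tX : XStmt`; statements listed under *Uses* are hypotheses `(h : YStmt)`.

Notation: `e_k = g (ie k)`, `f_k = g (jf k)`, `w₀`, `w₁`, `γ v = gv g v`, `Q = qf a b`, `B = bf a b`, `V_k = Vk o s K k`
(vectors of `Vo` without `e_i, f_i`, `i ≥ k`).  Facts: `γ v γ w + γ w γ v = B(v,w)` (`gv_anti`), `γ v γ v = Q(v)`;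
`γ v` anticommutes with `e_i`, `f_i` for `v ∈ V_k`, `i ≥ k`.  `u · v` is the vector with `u γ(v) u⁻¹ = γ(u · v)`.
-/

set_option autoImplicit false
set_option linter.unusedSectionVars false

namespace MP7Z.Ort

open TensorProduct MP7fS Matrix

/-- The quotient of the spin group by its centre. -/
abbrev Dat.SQ {F : Type} [Field F] {s : ℕ} (D : Dat F s) : Type := D.H ⧸ Subgroup.center D.H

/-- The action of `A` on the quotient of the spin group by its centre. -/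
noncomputable def Dat.cq {F : Type} [Field F] {s : ℕ} (D : Dat F s) (p : ℕ) [Fact p.Prime]
    [Algebra (ZMod p) F]
    (hex : ∀ (x : D.A p) (h : D.H), ∃ h', D.inc p h' = D.r p x (D.inc p h)) :
    D.A p →* MulAut D.SQ :=
  MP7fW.cQ (D.inc p) (D.inc_injective p) (D.r p) hex

/-- The conditions on the type. -/
def Dat.TyD {F : Type} [Field F] {s : ℕ} (D : Dat F s) (p : ℕ) [Fact p.Prime]
    [Algebra (ZMod p) F]
    (hex : ∀ (x : D.A p) (h : D.H), ∃ h', D.inc p h' = D.r p x (D.inc p h)) : Prop :=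
  TypeD (D.inc p) (D.inc_injective p) (D.r p) hex (D.Dst p)

/-- The elements of `GL` commuting with `ζ` (and `w₀`), normalizing `V`, commuting with `e_i, f_i`,
`i ≥ k`. -/
structure Gam {s : ℕ} {l : Type} [Fintype l] [DecidableEq l] {K : Type} [Field K] (a : K)
    (g : Ix s → Matrix l l K) (o : Prop) (k : ℕ) (u : GL l K) : Prop where
  zt : (u : Matrix l l K) * MP7Z.Ort.zt a s g = MP7Z.Ort.zt a s g * (u : Matrix l l K)
  w0 : o → (u : Matrix l l K) * g (iw 0) = g (iw 0) * (u : Matrix l l K)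
  nrm : ∀ v : Ix s → K, ∃ v' : Ix s → K, (u : Matrix l l K) * gv g v = gv g v' * (u : Matrix l l K)
  nrm' : ∀ v : Ix s → K, ∃ v' : Ix s → K, gv g v * (u : Matrix l l K) = (u : Matrix l l K) * gv g v'
  ce : ∀ i : Fin s, k ≤ i.val → (u : Matrix l l K) * g (ie i) = g (ie i) * (u : Matrix l l K)
  cf : ∀ i : Fin s, k ≤ i.val → (u : Matrix l l K) * g (jf i) = g (jf i) * (u : Matrix l l K)

/-- **Act.** Computation rules in the quadratic space.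

*Proof.*  (1) for a basis vector `bv K i` of `V_k`, `γ v`, `v ∈ V_k`, anticommutes with `e_i`, `f_i`, `i ≥ k`: `gv_anti`, `bf_ie`,
`bf_jf`, `gv_bv`.  (2) if `γ v` anticommutes with all `e_i, f_i`, `i ≥ k`, and with `w₀` if `o`, then `v ∈ V_k`: by
`gv_anti` `B(v, e_i) = v (jf i) = 0` etc. (`smul_one_inj`, `l` is nonempty), and `B(v, w₀) = 2 v (iw 0) = 0` (`a = 0`).
(3) elements of `V_{k+1}`: `v = α e_k + β f_k + v'`, `v' ∈ V_k`, `α = v (ie k)`, `β = v (jf k)`; `Q(v) = α β + Q(v')`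
(`qf_add`, `bf_ie`, `bf_jf`).  (4) `V_k ≤ V_{k'}` for `k ≤ k'`, `V_k ≤ Vo`; `e_k, f_k ∈ V_{k+1}`.
(5) a vector of `V_k` with nonzero `Q`: `w₀` if not `o` (`Q = 1`), `w₁` if `o` (`Q = b`, `b ≠ 0` because `a² - 4b ≠ 0`,
`a = 0`). (6) the elements of `V_k` orthogonal to `V_k` are zero: `v ∈ V_k`, then `v` is orthogonal to all `e_i, f_i`
(for `i < k` they are in `V_k`, for `i ≥ k` automatically) and to `w₁`, `w₀` (or `v (iw 0) = 0`): `Good.nondeg_Vo`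
(every vector of `Vo` is a combination of them). -/
def ActStmt : Prop :=
  ∀ (K : Type) [Field K] (l : Type) [Fintype l] [DecidableEq l] (a b : K) (s : ℕ)
    (g : Ix s → Matrix l l K) (P : GL l K) (o : Prop), Good a b g P o →
    (∀ (k : ℕ) (v : Ix s → K), v ∈ Vk o s K k → ∀ i : Fin s, k ≤ i.val →
      gv g v * g (ie i) = -(g (ie i) * gv g v) ∧ gv g v * g (jf i) = -(g (jf i) * gv g v)) ∧
    (∀ (k : ℕ) (v : Ix s → K),
      (∀ i : Fin s, k ≤ i.val → gv g v * g (ie i) = -(g (ie i) * gv g v) ∧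
        gv g v * g (jf i) = -(g (jf i) * gv g v)) →
      (o → gv g v * g (iw 0) = -(g (iw 0) * gv g v)) → v ∈ Vk o s K k) ∧
    (∀ (k : Fin s) (v : Ix s → K), v ∈ Vk o s K (k.val + 1) → ∃ v' ∈ Vk o s K k.val,
      v = v (ie k) • bv K (ie k) + v (jf k) • bv K (jf k) + v' ∧
        qf a b v = v (ie k) * v (jf k) + qf a b v' ∧
        gv g v = v (ie k) • g (ie k) + v (jf k) • g (jf k) + gv g v') ∧
    (∀ k k' : ℕ, k ≤ k' → Vk o s K k ≤ Vk o s K k') ∧ (∀ k, Vk o s K k ≤ Vo o s K) ∧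
    (∀ k : Fin s, bv K (ie k) ∈ Vk o s K (k.val + 1) ∧ bv K (jf k) ∈ Vk o s K (k.val + 1)) ∧
    (∀ k : ℕ, ∃ w ∈ Vk o s K k, qf a b w ≠ 0) ∧
    ∀ (k : ℕ), ∀ v ∈ Vk o s K k, (∀ v' ∈ Vk o s K k, bf a b v v' = 0) → v = 0

/-- **G1c.** The group `G1 g o k` is contained in the spin group and commutes with `e_i, f_i`, `i > k`; action
of its generators.

*Proof.*  Generators `u = 1 + e_k γ v`, `v ∈ V_k`: `Good.siegel` with `x = bv (ie k)` (`gv_bv`, `qf_ie`, `bf_comm`, `bf_ie`: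
`v (jf k) = 0`).  Commutation: `e_i` anticommutes with `e_k` and with `γ v`.  Such units exist for every `v` (inverse
`1 - e_k γ v`).  Action: `(1 + x y) γ z (1 - x y) = γ(z + B(z,y) x - B(z,x) y - B(z,x) Q(y) x)` for `Q(x) = B(x,y) = 0`
(computation in the proof of `Good.siegel`). -/
def G1cStmt : Prop :=
  ∀ (K : Type) [Field K] (l : Type) [Fintype l] [DecidableEq l] (a b : K) (s : ℕ)
    (g : Ix s → Matrix l l K) (P : GL l K) (o : Prop), Good a b g P o → ∀ k : Fin s,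
    G1 g o k ≤ SG a g P o ∧
    (∀ u ∈ G1 g o k, ∀ i : Fin s, k < i →
      (u : Matrix l l K) * g (ie i) = g (ie i) * (u : Matrix l l K) ∧
      (u : Matrix l l K) * g (jf i) = g (jf i) * (u : Matrix l l K)) ∧
    (∀ v ∈ Vk o s K k.val, ∃ u ∈ G1 g o k, (u : Matrix l l K) = 1 + g (ie k) * gv g v ∧
      ((u⁻¹ : GL l K) : Matrix l l K) = 1 - g (ie k) * gv g v ∧
      ∀ z : Ix s → K, (u : Matrix l l K) * gv g z = gv g (z + bf a b z v • bv K (ie k) -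
        z (jf k) • v - (z (jf k) * qf a b v) • bv K (ie k)) * (u : Matrix l l K)) ∧
    (∀ v ∈ Vk o s K k.val, ∃ u ∈ G1 g o k, (u : Matrix l l K) = 1 + g (jf k) * gv g v ∧
      ((u⁻¹ : GL l K) : Matrix l l K) = 1 - g (jf k) * gv g v ∧
      ∀ z : Ix s → K, (u : Matrix l l K) * gv g z = gv g (z + bf a b z v • bv K (jf k) -
        z (ie k) • v - (z (ie k) * qf a b v) • bv K (jf k)) * (u : Matrix l l K))

/-- **Sie.** Siegel elements of `V_k` are in `G1 g o k`.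

*Proof.*  `e = e_k`, `f = f_k`, `x = γ x`, `v = γ v`.  `X = 1 + x f = 1 + f γ(-x)` and `Y = 1 + e v` are in `G1`.  `X` commutes with
`v`; `X e X⁻¹ = e + x` (`X⁻¹ = 1 - x f`; `x f e - e x f = x f e + x e f = x`, `x f e x f = 0`).  So
`X Y X⁻¹ Y⁻¹ = (1 + (e + x) v)(1 - e v) = 1 + x v - (e + x) v e v = 1 + x v + Q(v) (e + x) e = 1 + x v + Q(v) x e`.
`(1 + x v)(1 + Q(v) x e) = 1 + x v + Q(v) x e` because `x v x = -x x v = 0`.  So `1 + x v = X Y X⁻¹ Y⁻¹ (1 + Q(v) x e)⁻¹` and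
`1 + Q(v) x e = 1 + e γ(-Q(v) x) ∈ G1`.
*Uses*: Act, G1c. -/
def SieStmt : Prop :=
  ∀ (K : Type) [Field K] (l : Type) [Fintype l] [DecidableEq l] (a b : K) (s : ℕ)
    (g : Ix s → Matrix l l K) (P : GL l K) (o : Prop), Good a b g P o → ∀ k : Fin s,
    ∀ x ∈ Vk o s K k.val, ∀ v ∈ Vk o s K k.val, qf a b x = 0 → bf a b x v = 0 →
    ∀ u : GL l K, (u : Matrix l l K) = 1 + gv g x * gv g v → u ∈ G1 g o k

/-- **Nwe.** Weyl elements and pairs of anisotropic vectors.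

*Proof.*  (1) `(1 + e w)(1 + Q⁻¹ f w)(1 + e w)` with `Q = Q(w)`, `w w = Q`, `e w = -w e`: `e w f w = -Q e f`,
`f w e w = -Q f e`, `e w f w e w = -Q e f e w = -Q e w`, `e w e w = 0`.  The product is
`1 + 2 e w + Q⁻¹ f w + Q⁻¹ (-Q)(e f + f e) + Q⁻¹ (-Q) e w = e w + Q⁻¹ f w = (e + Q⁻¹ f) w`.  (2) `n(x) n(y') =
(e + Q(x)⁻¹ f) x (e + Q(y')⁻¹ f) y' = -(e + Q(x)⁻¹ f)(e + Q(y')⁻¹ f) x y' = -(Q(y')⁻¹ e f + Q(x)⁻¹ f e) x y'`.  With
`y' = -Q(y)⁻¹ y`, `Q(y') = Q(y)⁻¹`: `= (e f + (Q(x) Q(y))⁻¹ f e) x y`, and `e f`, `f e` commute with `x y`.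
(3) `n(w) e n(w)⁻¹`: `n(w) e = (e + Q⁻¹ f) w e = -(e + Q⁻¹ f) e w = -Q⁻¹ f e w` and `-Q⁻¹ f n(w) = -Q⁻¹ f e w` (`f f = 0`).
Same for `f`: `n(w) f = -(e + Q⁻¹ f) f w = -e f w`, `-Q e n(w) = -Q e Q⁻¹ f w = -e f w`.
*Uses*: Act, G1c. -/
def NweStmt : Prop :=
  ∀ (K : Type) [Field K] (l : Type) [Fintype l] [DecidableEq l] (a b : K) (s : ℕ)
    (g : Ix s → Matrix l l K) (P : GL l K) (o : Prop), Good a b g P o → ∀ k : Fin s,
    (∀ w ∈ Vk o s K k.val, qf a b w ≠ 0 → ∃ u ∈ G1 g o k,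
      (u : Matrix l l K) = (g (ie k) + (qf a b w)⁻¹ • g (jf k)) * gv g w ∧
      (u : Matrix l l K) * g (ie k) = -(qf a b w)⁻¹ • (g (jf k) * (u : Matrix l l K)) ∧
      (u : Matrix l l K) * g (jf k) = -(qf a b w) • (g (ie k) * (u : Matrix l l K))) ∧
    (∀ x ∈ Vk o s K k.val, ∀ y ∈ Vk o s K k.val, qf a b x ≠ 0 → qf a b y ≠ 0 →
      ∃ u ∈ G1 g o k, (u : Matrix l l K) = gv g x * gv g y *
        (g (ie k) * g (jf k) + (qf a b x * qf a b y)⁻¹ • (g (jf k) * g (ie k))))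

/-- **Tra.** Transitivity on hyperbolic pairs of `V_{k+1}`.

*Proof.*  `e = e_k`, `f = f_k`; `E(e,v)`, `E(f,v)`, `v ∈ V_k`, denote the elements of *G1c*; they act by `E(e,v) · z = z +
B(z,v) e - B(z,e) v - B(z,e) Q(v) e`.  Write `x = α e + β f + x'` (*Act* (3)), `α β + Q(x') = 0`.
Case `β ≠ 0`: `E(e, β⁻¹ x') · x` has `V_k`-component `x' - β β⁻¹ x' = 0` and `f`-coefficient `β`; `Q = 0`, so it is `β f`.
With `w ∈ V_k`, `Q(w) ≠ 0` (*Act* (5)), `n(w)` (*Nwe*) maps it to `-β Q(w) e`.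
Case `β = 0`, `x' ≠ 0`: `Q(x') = 0`; there is `v ∈ V_k` with `B(x', v) = r ≠ 0` (*Act* (6)); replace `v` by
`v - r⁻¹ Q(v) x'`: now `Q(v) = 0`; `E(f, v) · x = x + B(x,v) f - B(x,f) v - 0`: the `f`-coefficient is `B(x', v) ≠ 0`;
apply the first case.  Case `β = 0`, `x' = 0`: `x = α e`, `α ≠ 0` because `B(x, y) = 1`.
So there is `u ∈ G1` with `u · x = c e`, `c ≠ 0`.  `y₁ = u · y ∈ V_{k+1}` (*Act* (2): `u` commutes with `e_i, f_i`, `i > k`,
and with `w₀` if `o`), `B(c e, y₁) = 1` (`gv_anti` conjugated by `u`), so `y₁ = γ e + c⁻¹ f + y'`; `E(e, c y')` fixes `e` and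
maps `y₁` to a vector with `V_k`-component `y' - c⁻¹ c y' = 0`, `f`-coefficient `c⁻¹`, `Q = 0`: it is `c⁻¹ f`.
*Uses*: Act, G1c, Nwe. -/
def TraStmt : Prop :=
  ∀ (K : Type) [Field K] (l : Type) [Fintype l] [DecidableEq l] (a b : K) (s : ℕ)
    (g : Ix s → Matrix l l K) (P : GL l K) (o : Prop), Good a b g P o → ∀ k : Fin s,
    ∀ x ∈ Vk o s K (k.val + 1), ∀ y ∈ Vk o s K (k.val + 1), qf a b x = 0 → qf a b y = 0 →
    bf a b x y = 1 → ∃ u ∈ G1 g o k, ∃ c : K, c ≠ 0 ∧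
      (u : Matrix l l K) * gv g x = c • (g (ie k) * (u : Matrix l l K)) ∧
      (u : Matrix l l K) * gv g y = c⁻¹ • (g (jf k) * (u : Matrix l l K))

/-- **Zdn.** Commuting with `ζ` and all `e_i, f_i` implies commuting with `w₀ w₁`.

*Proof.*  Induction on `s`.  `s = 0`: `ζ = w₀ w₁`.  Step: `ζ = ζ' e f + (a - ζ') f e`, `ζ'` commutes with `e` and `f`
(`zt_comm_of_anti`, `anti_e'`), `ζ e = ζ' e` (`e f e = e`, `e e = 0`), so `X` commutes with `ζ' e`, and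
`ζ' = ζ' (e f + f e) = (ζ' e) f + f (ζ' e)`. -/
def ZdnStmt : Prop :=
  ∀ (K : Type) [Field K] (l : Type) [Fintype l] [DecidableEq l] (a b : K) (s : ℕ)
    (g : Ix s → Matrix l l K), IsFrame a b g → ∀ X : Matrix l l K,
    (∀ i, X * g (ie i) = g (ie i) * X) → (∀ i, X * g (jf i) = g (jf i) * X) →
    X * zt a s g = zt a s g * X → X * (g (iw 0) * g (iw 1)) = g (iw 0) * g (iw 1) * X

/-- **Gm0.** The induction start for *Gmk*.

*Proof.*  *Zdn* and *Trf* (3): `u = κ + m w₀ w₁`.  `o` false: `u = w₀ (κ w₀ + m w₁) = γ x γ y`, `x = w₀`, `y = κ w₀ + m w₁ ∈ V_0`.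
`o` true: `u` commutes with `w₀`: `m (w₀ w₁ w₀ - w₀ w₀ w₁) = 0`, `w₁ w₀ = -w₀ w₁` (`a = 0`): `2 m w₀ w₀ w₁ = 0`, so `m = 0`
(`w₁` is invertible); `u = κ = γ(κ b⁻¹ w₁) γ(w₁)`.  In both cases `rv(u) u = γ y γ x γ x γ y = Q(x) Q(y)`, so `ν = Q(x) Q(y)`,
`ν ≠ 0` (`u` is a unit), and *Nwe* (2) for the plane `Fin.last s`.
*Uses*: Act, Nwe, Zdn, Trf. -/
def Gm0Stmt : Prop :=
  ∀ (K : Type) [Field K] (l : Type) [Fintype l] [DecidableEq l] (a b : K) (s : ℕ)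
    (g : Ix (s + 1) → Matrix l l K) (P : GL l K) (o : Prop), Good a b g P o →
    ∀ (u : GL l K) (ν : K), Gam a g o 0 u → rv P (u : Matrix l l K) * (u : Matrix l l K) = ν • 1 →
    ∃ u' ∈ G1 g o (Fin.last s), (u' : Matrix l l K) = (u : Matrix l l K) *
      (g (ie (Fin.last s)) * g (jf (Fin.last s)) + ν⁻¹ • (g (jf (Fin.last s)) * g (ie (Fin.last s))))

/-- **Gmk.** Elements commuting with `e = e_last`, `f = f_last`.

*Proof.*  `t(c) = e f + c f e`, `t(c) t(c') = t(c c')`, `rv(t(c)) t(c) = c`; `t_j(c) = e_j f_j + c f_j e_j =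
(e_j + c f_j)(e_j + f_j)`: `t_j(c) e_j = c⁻¹ e_j t_j(c)`, `t_j(c) f_j = c f_j t_j(c)`.  Induction on `k`; `k = 0`: *Gm0*.  Step
`k → k + 1 ≤ s`: let `Gam (k+1) u`, `j = ⟨k, _⟩` the plane.  `x = u · bv (ie j)`, `y = u · bv (jf j)` are in `V_{k+1}` (*Act* (2):
`u` commutes with `e_i, f_i`, `i ≥ k + 1`), `Q(x) = Q(y) = 0`, `B(x,y) = 1`.  *Tra*: `h ∈ G1 g o j`, `c`; `u₂ = t_j(c) h u`
commutes with `e_j, f_j` and with `e_i, f_i`, `i > k` (*G1c*), with `ζ` and `w₀`, normalizes `V`: `Gam k u₂`, and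
`rv(u₂) u₂ = c ν` (`rv(h) h = 1`).  Induction: `u₂ t((c ν)⁻¹) ∈ G1`.  `h ∈ G1 g o (Fin.last s)`: generators
`1 + e_j γ v`, `v ∈ V_k`, by *Sie* (`e_j, γ v` in `V_s`).  `t_j(c) t(c⁻¹) ∈ G1`: *Nwe* (2) for `x = e_j + c f_j`,
`y = e_j + f_j`, `Q(x) Q(y) = c`.  `t(c)` commutes with `u, u₂, t_j(c), h` (they commute with `e f` and `f e`).  So
`u t(ν⁻¹) = h⁻¹ (t_j(c) t(c⁻¹))⁻¹ (u₂ t((c ν)⁻¹)) ∈ G1`.
*Uses*: Act, G1c, Sie, Nwe, Tra, Gm0. -/
def GmkStmt : Prop :=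
  ∀ (K : Type) [Field K] (l : Type) [Fintype l] [DecidableEq l] (a b : K) (s : ℕ)
    (g : Ix (s + 1) → Matrix l l K) (P : GL l K) (o : Prop), Good a b g P o →
    ∀ (k : ℕ), k ≤ s → ∀ (u : GL l K) (ν : K), Gam a g o k u →
    rv P (u : Matrix l l K) * (u : Matrix l l K) = ν • 1 →
    ∃ u' ∈ G1 g o (Fin.last s), (u' : Matrix l l K) = (u : Matrix l l K) *
      (g (ie (Fin.last s)) * g (jf (Fin.last s)) + ν⁻¹ • (g (jf (Fin.last s)) * g (ie (Fin.last s))))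

/-- **GenO.** The spin group is generated by the Siegel elements of the last plane.

*Proof.*  `u ∈ SG`, `x = u · e`, `y = u · f`; they are in `V_{s+1} = Vo`.  *Tra* for `k = Fin.last s`: `h ∈ G1`, `c`.
`u₂ = t(c) h u` commutes with `e` and `f`: `Gam s u₂`, `rv(u₂) u₂ = c`.  *Gmk* (`k = s`): `u₂ t(c⁻¹) ∈ G1`; `u₂` commutes with
`t(c⁻¹)`, so this is `t(c⁻¹) u₂ = h u`.
*Uses*: Act, G1c, Tra, Gmk. -/
def GenOStmt : Prop :=
  ∀ (K : Type) [Field K] (l : Type) [Fintype l] [DecidableEq l] (a b : K) (s : ℕ)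
    (g : Ix (s + 1) → Matrix l l K) (P : GL l K) (o : Prop), Good a b g P o →
    SG a g P o ≤ G1 g o (Fin.last s)

/-- **FrT.** Transitivity on hyperbolic families.

*Proof.*  Downward induction on `j`: there is `h ∈ SG` with the property for all `i ≥ j`.  `j = s`: `h = 1`.  Step: `h` for
`j + 1`; `x' = h · x_j`, `y' = h · y_j`; they are orthogonal to `h · x_i = c e_i`, `h · y_i = c⁻¹ f_i` for `i > j` (the
action preserves `B`: conjugate `gv_anti`), so in `V_{j+1}` (and in `Vo`, *Act* (2)); `Q(x') = Q(y') = 0`, `B(x',y') = 1`.  *Tra*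
for the plane `j` gives `u ∈ G1 g o j`, commuting with `e_i, f_i`, `i > j` (*G1c*); take `u h`.
*Uses*: Act, G1c, Tra. -/
def FrTStmt : Prop :=
  ∀ (K : Type) [Field K] (l : Type) [Fintype l] [DecidableEq l] (a b : K) (s : ℕ)
    (g : Ix s → Matrix l l K) (P : GL l K) (o : Prop), Good a b g P o →
    ∀ x y : Fin s → (Ix s → K), (∀ i, x i ∈ Vo o s K) → (∀ i, y i ∈ Vo o s K) →
    (∀ i, qf a b (x i) = 0) → (∀ i, qf a b (y i) = 0) → (∀ i j, i ≠ j → bf a b (x i) (x j) = 0) →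
    (∀ i j, i ≠ j → bf a b (y i) (y j) = 0) →
    (∀ i j, bf a b (x i) (y j) = if i = j then 1 else 0) →
    ∃ h ∈ SG a g P o, ∀ i, ∃ c : K, c ≠ 0 ∧
      (h : Matrix l l K) * gv g (x i) = c • (g (ie i) * (h : Matrix l l K)) ∧
      (h : Matrix l l K) * gv g (y i) = c⁻¹ • (g (jf i) * (h : Matrix l l K))

/-- **Prf.** The spin group is perfect (at least two planes).

*Proof.*  `e = e_last`, `f = f_last` and `e₂, f₂` the plane before the last, `V' = V_{s+1}` (orthogonal to `e, f`),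
`V'' = V_s`.  `H = G1` (*GenO*).  Let `N = {v ∈ V' : 1 + e γ v ∈ [H,H]}`, an additive subgroup.  For `v ∈ V''`: `X = 1 + e e₂`,
`Y = 1 + f₂ v` (in `H`: Siegel): `X f₂ X⁻¹ = f₂ + e`, `X v X⁻¹ = v`, so `X Y X⁻¹ Y⁻¹ = (1 + (f₂ + e) v)(1 - f₂ v) = 1 + e v +
Q(v) e f₂` (`(f₂ + e) v f₂ v = -(f₂ + e) f₂ Q(v) = -Q(v) e f₂`).  So `v + Q(v) f₂ ∈ N`; hence (for `v + w`, `v`, `w`)
`B(v,w) f₂ ∈ N` for `v, w ∈ V''`; `B` is not zero on `V''` (*Act* (5), (6)), so all multiples of `f₂` are in `N`, and `V'' ≤ N`.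
By symmetry (`e₂ ↔ f₂`: `X = 1 + e f₂`, `Y = 1 + e₂ v`) the multiples of `e₂` are in `N`.  So `N = V'` (*Act* (3)).  For `1 + f γ v`: it is
a conjugate: with `n = n(w)` of *Nwe* (`w = w₀` or `w₁`), `n (1 + e γ v) n⁻¹ = 1 - Q(w)⁻¹ f γ(n · v)`, `n · v ∈ V'` (*Act* (2)), and
`v ↦ -Q(w)⁻¹ n · v` is a bijection of `V'`.
*Uses*: Act, G1c, Nwe, GenO. -/
def PrfStmt : Prop :=
  ∀ (F : Type) [Field F] (s : ℕ) (D : Dat F (s + 2)), commutator D.H = ⊤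

/-- **SpH.** The even Clifford algebra is additively generated by the spin group.

*Proof.*  Let `A` be the additive group generated by (the matrices of) `H`: a subring.  `e = e_last`, `f = f_last`.
For `v ∈ V' = V_s`: `e γ v = (1 + e γ v) - 1 ∈ A`, `f γ v ∈ A`.  For `v, w ∈ V'`: `γ v γ w = -(e γ v)(f γ w) - (f γ v)(e γ w) ∈ A`
(`e γ v f γ w = -e f γ v γ w`).  `w ∈ V'` with `Q(w) ≠ 0` (*Act* (5)): `c • 1 = γ(c Q(w)⁻¹ w) γ(w) ∈ A`; `e f = -(e γ(Q(w)⁻¹ w))(f γ w) ∈ A`,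
`f e = 1 - e f`.  So `γ v γ w ∈ A` for all `v, w ∈ Vo = V_{s+1}` (*Act* (3)).  *SpnE*.
*Uses*: Act, SpnE. -/
def SpHStmt : Prop :=
  ∀ (p : ℕ) [Fact p.Prime] (F : Type) [Field F] [Algebra (ZMod p) F] (s : ℕ)
    (D : Dat F (s + 1)) (X : D.C0 p), (X : Matrix (Lx (s + 1)) (Lx (s + 1)) F) ∈
      AddSubgroup.closure {Y | ∃ h ∈ D.H, Y = ((h : GL (Lx (s + 1)) F) :
        Matrix (Lx (s + 1)) (Lx (s + 1)) F)}

/-- **Adh.** Inner automorphisms are in `A`.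

*Proof.*  `g v` := the vector of the third condition of `SG`: `h γ v = γ(g v) h`; unique (`Good.gv_inj`), linear.  `g v ∈ Vo`
for `v ∈ Vo`: if `o`, `γ(g v)` anticommutes with `w₀` (*Act* (2)).  `Q(g v) = Q(v)` (square).  `y X = h X h⁻¹` is an
automorphism of `C0` (`h ∈ C0`), with `Ind y refl 1 g`; `y⁻¹` is given by `h⁻¹`.
*Uses*: Act. -/
def AdhStmt : Prop :=
  ∀ (p : ℕ) [Fact p.Prime] (F : Type) [Field F] [Algebra (ZMod p) F] (s : ℕ) (D : Dat F s)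
    (h : D.H), ∃ y : D.A p, ∀ X : D.C0 p, D.r p y X = D.inc p h * X * D.inc p h⁻¹

/-- **Hxe.** `A` preserves the spin group.

*Proof.*  `x ∈ A` is given by `(σ, μ, g)`; *Ext*: `t, κ, m`; *ExtS* for `T = T' = F`, `f = f' = id`, `h = σ` (`D.S id = D.H`: `gT id = g`,
`PT id = P`): `t σ(h) t⁻¹ ∈ D.H`; *ExA* (1): `x (inc h) = t h^σ t⁻¹`.
*Uses*: Ext, ExA, ExtS. -/
def HxeStmt : Prop :=
  ∀ (p : ℕ) [Fact p.Prime] (F : Type) [Field F] [Finite F] [Algebra (ZMod p) F] (s : ℕ)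
    (D : Dat F s) (x : D.A p) (h : D.H), ∃ h' : D.H, D.inc p h' = D.r p x (D.inc p h)

/-- **Std.** Every element of `A` is standard up to an inner automorphism.

*Proof.*  `x` is given by `(σ, μ, g)`.  `B(g v, g w) = μ σ(B(v,w))` for `v, w ∈ Vo` (polarize).  `x_i = g(e_i)`, `y_i = μ⁻¹ g(f_i)`
satisfy the hypotheses of *FrT* (`e_i = bv (ie i) ∈ Vo`).  `x (e_i f_i) = μ⁻¹ γ(g e_i) γ(g f_i) = γ(x_i) γ(y_i)` (`Ind`), so
`h x(e_i f_i) = c e_i h γ(y_i) = c c⁻¹ e_i f_i h`.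
*Uses*: FrT. -/
def StdStmt : Prop :=
  ∀ (p : ℕ) [Fact p.Prime] (F : Type) [Field F] [Algebra (ZMod p) F] (s : ℕ) (D : Dat F s)
    (x : D.A p), ∃ h : D.H, ∀ i, D.inc p h * D.r p x (D.id_ef p i) * D.inc p h⁻¹ = D.id_ef p i

/-- **Trs.** The centralizer of the idempotents `e_i f_i` in the spin group is commutative.

*Proof.*  *Trf* (5) (`h` commutes with `ζ`).
*Uses*: Trf. -/
def TrsStmt : Prop :=
  ∀ (F : Type) [Field F] (s : ℕ) (D : Dat F s) (h h' : D.H),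
    (∀ i, ((h : GL (Lx s) F) : Matrix (Lx s) (Lx s) F) * (D.g (ie i) * D.g (jf i)) =
      D.g (ie i) * D.g (jf i) * ((h : GL (Lx s) F) : Matrix (Lx s) (Lx s) F)) →
    (∀ i, ((h' : GL (Lx s) F) : Matrix (Lx s) (Lx s) F) * (D.g (ie i) * D.g (jf i)) =
      D.g (ie i) * D.g (jf i) * ((h' : GL (Lx s) F) : Matrix (Lx s) (Lx s) F)) →
    h * h' = h' * h

/-- **Fxe.** An element of `A` which acts trivially modulo the centre is trivial.

*Proof.*  For `h ∈ H` let `z(h) ∈ Z(H)` with `x(inc h) = inc (z(h) h)`.  `z` is a homomorphism `H → Z(H)` to a commutative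
group, `H` is perfect (*Prf*), so `z = 1`: `x` fixes `inc H`, hence (*SpH*) all of `C0`.
*Uses*: Prf, SpH. -/
def FxeStmt : Prop :=
  ∀ (p : ℕ) [Fact p.Prime] (F : Type) [Field F] [Algebra (ZMod p) F] (s : ℕ)
    (D : Dat F (s + 2)) (x : D.A p),
    (∀ h : D.H, ∃ z ∈ Subgroup.center D.H, D.r p x (D.inc p h) = D.inc p (z * h)) → x = 1

/-- **TyO.** The orthogonal type.

*Proof.*  `perf`: *Prf*.  `simple`: hypothesis.  `cent`: `H` is perfect, so the centre of `H / Z(H)` is trivial (Grün: if `h`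
is central modulo `Z(H)`, `h' ↦ [h, h']` is a homomorphism `H → Z(H)`, trivial).  `sur`: hypothesis.  `fix`: *Fxe* (`cQ x
(h Z) = h' Z` where `inc h' = r x (inc h)`, see `cQ_mk'` in `MP_7f581e_ntL`).  `std`: *Std* gives `h`; *Adh* gives `y_h`; `y = y_h x`:
`r y (e_i f_i) = h (x (e_i f_i)) h⁻¹ = e_i f_i`, so `y ∈ Dst`; `s = h Z`.  `solv`: `T` = image of the subgroup of the `h ∈ H`
commuting with all `e_i f_i`, commutative (*Trs*), so solvable.  Let `s = h Z` and `y ∈ Dst` with `cQ y t = s t s⁻¹`: `y` and `y_h`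
(*Adh*) act in the same way on `H / Z(H)`, so `y = y_h` (*Fxe* for `y_h⁻¹ y`), and `h (e_i f_i) h⁻¹ = y (e_i f_i) = e_i f_i`.
*Uses*: Prf, Fxe, Std, Adh, Trs. -/
def TyOStmt : Prop :=
  ∀ (p : ℕ) [Fact p.Prime] (F : Type) [Field F] [Finite F] [Algebra (ZMod p) F] (s : ℕ)
    (D : Dat F (s + 2)) (hex : ∀ (x : D.A p) (h : D.H), ∃ h', D.inc p h' = D.r p x (D.inc p h)),
    IsSimpleGroup D.SQ → (∀ φ : MulAut D.SQ, ∃ x : D.A p, φ = D.cq p hex x) →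
    D.TyD p hex

end MP7Z.Ort
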