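import Pool.Agent.Lib.MP_7f581e_Z.Ort.DBas
import Pool.Agent.Lib.MP_7f581e_Z.Ort.SpecB

/-!
# Orthogonal groups, part D: the automorphism theorem (specification)

Each `def XStmt : Prop` (namespace `MP7Z.Ord`) is one Lean task: file `Ort/D/X.lean`, import only this file
(and files named in the task), `theorem MP7Z.Ord.tX : XStmt`; statements listed under *Uses* are hypotheses
`(h : YStmt)`.  Definitions and basic lemmas: `Ort/DBas.lean` (`SpD`, `IsS0`, `IsSp`, `mem_R`, `R_conj`,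
`R_smul`, `P_norm`, `R_fix`, `si_inj`, `si_inv`, `si_pow`, `dec`, `mem_Re`, `mem_Rf`, `si_e_inj`, `ndU`, `act_U`,
`cnj_e`, `cnj_f`, `acB`, `isoB`, `exists_B`).

Notation of the docstrings: `B(x,y) = pl q x y` (polar form, `B(x,x) = 2 q(x)`), `T_{x,v} = sie q x v`,
`T_{x,v} z = z + B(z,v) x - B(z,x) v - B(z,x) q(v) x` (used for `q(x) = 0`, `B(x,v) = 0`), `h z = G.ac h z`,
`π : H → H / Z(H)` the projection, *singular* = nonzero with `q = 0`.
-/

set_option autoImplicit false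

namespace MP7Z.Ord

open MP7Z.Ort Matrix

/-! ## Part 1.  Quadratic spaces -/

/-- **Sng.** Singular vectors.

*Proof.*  Let `a, b, a', b'` be the vectors of `Hyp2`.  (1) For `w ∈ W` put `w' = w - B(w,b) a - B(w,a) b`; it is orthogonal
to `a` and `b`.  `a`, `b`, their multiples, and `w' + a - q(w') b` are zeros of `q` (`q(w' + a - q(w') b) = q(w') - q(w')`),
so all are in `A`, and `w = (w' + a - q(w') b) - a + q(w') b + B(w,b) a + B(w,a) b ∈ A`.
(2) If `B(y,z) = 0` for all `z` with `B(x,z) = 0` then the functional `B(y,·)` is a multiple of `B(x,·)`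
(`x = 0`: `y = 0` by `Nd`; otherwise take `z₀` with `B(x,z₀) = 1` and `z - B(x,z) z₀`), so `y = c x` by `Nd`.  So there is such
a `z` with `B(y,z) ≠ 0`; divide by it.  (3) By `Nd` there is `y₀` with `B(x,y₀) = 1`; `y = y₀ - q(y₀) x`.
(4) Among the nonzero combinations of `a, a'` there is `y` with `B(x,y) = 0` (`B(x,a') a - B(x,a) a'`, or `a` if both
numbers are zero), among those of `b, b'` there is `y'` with `B(x,y') = 0`; both are singular; if both were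
multiples of `x`, then `y' = c y` with `c ≠ 0`, but `span(a,a') ∩ span(b,b') = 0` (pair with `a, a', b, b'`).
(5) Let `y` be as in (4) for `x`; `t = B(x',y) / B(x',x)`, `y₁ = y - t x`: `q(y₁) = 0`, `B(x,y₁) = 0`, `B(x',y₁) = 0`, and `y₁ ≠ 0`
because `y` is not a multiple of `x`. -/
def SngStmt : Prop :=
  ∀ (K W : Type) [Field K] [AddCommGroup W] [Module K W] (q : QuadraticForm K W), Nd q → Hyp2 q →
    (∀ A : AddSubgroup W, (∀ x, q x = 0 → x ∈ A) → A = ⊤) ∧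
    (∀ x y : W, (∀ c : K, y ≠ c • x) → ∃ z, pl q x z = 0 ∧ pl q y z = 1) ∧
    (∀ x : W, x ≠ 0 → q x = 0 → ∃ y, q y = 0 ∧ pl q x y = 1) ∧
    (∀ x : W, x ≠ 0 → q x = 0 → ∃ y, q y = 0 ∧ pl q x y = 0 ∧ ∀ c : K, y ≠ c • x) ∧
    ∀ x x' : W, x ≠ 0 → q x = 0 → q x' = 0 → pl q x x' ≠ 0 →
      ∃ y, y ≠ 0 ∧ q y = 0 ∧ pl q x y = 0 ∧ pl q x' y = 0

/-- **Irr.** An additive subgroup invariant under all Siegel transformations.

*Proof.*  (i) Let `0 ≠ z ∈ A`.  There is a singular `x` with `B(z,x) ≠ 0` (*Sng* (1) for the subgroup `{x | B(z,x) = 0}`).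
Let `y` be singular, `B(x,y) = 0`, `y` not a multiple of `x` (*Sng* (4)).  For `c ∈ K`: `T_{x,cy} z - z = c (B(z,y) x - B(z,x) y)`
(`q(cy) = 0`) is in `A`.  So with `x₁ = B(z,y) x - B(z,x) y ≠ 0`, `q(x₁) = 0`: `K x₁ ⊆ A`.  (ii) If `x₁ ≠ 0` is singular with
`K x₁ ⊆ A`, and `x` is singular with `B(x,x₁) = 0`, then `K x ⊆ A`: clear if `x ∈ K x₁`; otherwise `x₁` is not a multiple of `x`
and there is `v` with `B(x,v) = 0`, `B(x₁,v) = 1` (*Sng* (2)); `T_{x,v}(c x₁) - c x₁ = c x` (`B(x₁,x) = 0`).  (iii) If `x` is singular and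
`B(x₁,x) ≠ 0` let `y` be singular and orthogonal to `x₁` and `x` (*Sng* (5)); `K y ⊆ A` by (ii), and `K x ⊆ A` by (ii) for `y`.
(iv) So `A` contains all zeros of `q`; *Sng* (1).
*Uses*: Sng. -/
def IrrStmt : Prop :=
  ∀ (K W : Type) [Field K] [AddCommGroup W] [Module K W] (q : QuadraticForm K W), Nd q → Hyp2 q →
    ∀ A : AddSubgroup W, (∀ x v, q x = 0 → pl q x v = 0 → ∀ z ∈ A, sie q x v z ∈ A) → A ≠ ⊥ →
      A = ⊤

/-- **Sca.** Additive maps commuting with all Siegel transformations are scalars.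

*Proof.*  Let `x, y` be singular, `B(x,y) = 0`, `y ∉ K x` (then `x ∉ K y`, as both are nonzero).  Let `z` be such that `B(x,z) = 0`,
`B(y,z) = 1` (*Sng* (2)).  For `c ∈ K`: `T_{x,cy} z - z = c x`, so `X(c x) = T_{x,cy}(X z) - X z = c (B(Xz,y) x - B(Xz,x) y)`
(*).  In particular `X(c x) ∈ span(x,y)`.  (i) For a singular `x` there are two such `y, y₂` with `B(y,y₂) ≠ 0`: let `x''` be singular
with `B(x,x'') = 1` (*Sng* (3)), `y` singular orthogonal to `x, x''` (*Sng* (5)), `y₀` with `B(y,y₀) = 1`,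
`y₀' = y₀ - B(y₀,x'') x - B(y₀,x) x''` (orthogonal to `x, x''`, `B(y,y₀') = 1`), `y₂ = y₀' - q(y₀') y`.  (`y, y₂` are not multiples of
`x`: `B(x,x'') ≠ 0`, `B(y,x'') = 0`, and `y, y₂ ≠ 0`.)  An element of `span(x,y) ∩ span(x,y₂)` is `r x + s y = r' x + s' y₂`; pair
with `y`: `0 = s' B(y₂,y)`, so `s' = 0` and it is in `K x`.  So `X(c x) ∈ K x`, and by (*) (for `y`) `X(c x) = c l_x x` with
`l_x = B(Xz,y)` independent of `c`.  (ii) `x, y` as at the beginning: `x + y` is singular, `l_{x+y} (x + y) = X(x + y) = l_x x + l_y y`,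
so `l_x = l_y`.  If `B(x,x') ≠ 0` use a `y` singular and orthogonal to both (*Sng* (5)): `l_x = l_y = l_{x'}`.  If `x' = c x` then
`l_x = l_{x'}`.  So `l_x = l` for all singular `x`: `X x = l x`.  (iii) `{z | X z = l z}` is an additive subgroup containing all zeros of
`q`; *Sng* (1).
*Uses*: Sng. -/
def ScaStmt : Prop :=
  ∀ (K W : Type) [Field K] [AddCommGroup W] [Module K W] (q : QuadraticForm K W), Nd q → Hyp2 q →
    ∀ X : W →+ W, (∀ x v, q x = 0 → pl q x v = 0 → ∀ z, X (sie q x v z) = sie q x v (X z)) →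
      ∃ c : K, ∀ z, X z = c • z

/-- **Zer.** The number of zeros of a quadratic form in at least three variables.

*Proof.*  Choose a basis `β` of `W` indexed by `Fin n`, `n ≥ 3`; `q (Σ x_i β_i) = Σ_i q(β_i) x_i² + Σ_{i<j} B(β_i,β_j) x_i x_j` is the
value of a polynomial of total degree at most `2 < n`.  Chevalley-Warning: `char_dvd_card_solutions`.  (There is a
similar argument in the task `Che` of `Ort/SpecA.lean`; see `Ort/Che.lean` if it is there.) -/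
def ZerStmt : Prop :=
  ∀ (p : ℕ) [Fact p.Prime] (K W : Type) [Field K] [Finite K] [CharP K p] [AddCommGroup W]
    [Module K W] [FiniteDimensional K W] (q : QuadraticForm K W), 3 ≤ Module.finrank K W →
    p ∣ Nat.card {x : W // q x = 0}

/-- **Iso.** Totally singular subspaces if the kernel is anisotropic.

*Proof.*  (i) Let `ρ : W → (Fin s → F)`, `ρ w i = w (jf i)`, with kernel `W₁`.  For `w ∈ W₁`: `0 = qf a b w =
z₀² + a z₀ z₁ + b z₁²` with `z_j = w (iw j)`, so `w (iw j) = 0`: `w` is determined by `ε(w) = (w (ie i))_i`.  (ii) For `w ∈ W`,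
`w₁ ∈ W₁`: `bf a b w w₁ = 0` (`qf` is zero on `W`; `qf (w + w₁) = qf w + qf w₁ + bf w w₁`), that is `Σ_i w (jf i) w₁ (ie i) = 0`:
`ρ(W)` is orthogonal to `ε(W₁)` for the dot product of `F^s`, so `dim ρ(W) + dim ε(W₁) ≤ s`.
`dim W = dim ρ(W) + dim W₁ = dim ρ(W) + dim ε(W₁)`. -/
def IsoStmt : Prop :=
  ∀ (F : Type) [Field F] (s : ℕ) (a b : F),
    (∀ z₀ z₁ : F, z₀ ^ 2 + a * z₀ * z₁ + b * z₁ ^ 2 = 0 → z₀ = 0 ∧ z₁ = 0) →
    ∀ W : Submodule F (Ix s → F), (∀ w ∈ W, qf a b w = 0) → Module.finrank F W ≤ s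

/-- **Mul.** In odd dimension the multiplier of a semilinear similitude is a square.

*Proof.*  Choose a basis `β` indexed by `Fin n`; `S = (B(β_i,β_j))`, `d = det S ≠ 0` (`Nd`; otherwise there is a nonzero
vector in the kernel of `S`).  `A` = the matrix with `g β_j = Σ_i A_ij β_i`.  `B(g v, g w) = μ σ(B(v,w))`, so
`Aᵀ S A = μ σ(S)` and `det(A)² d = μ^n σ(d)`.  In a finite field `d` is a square iff `σ(d)` is a square, so `d σ(d)` is a
square (the product of two nonsquares is a square in a finite field of odd characteristic, e.g. by the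
quadratic character `quadraticChar` or cyclicity of the group of units).  So `μ^n` is a square (times `σ(d)²`), and
`μ = μ^n / (μ^((n-1)/2))²` is a square. -/
def MulStmt : Prop :=
  ∀ (K V : Type) [Field K] [Finite K] [AddCommGroup V] [Module K V] [FiniteDimensional K V]
    (q : QuadraticForm K V), Nd q → (2 : K) ≠ 0 → Odd (Module.finrank K V) →
    ∀ (σ : K ≃+* K) (μ : K) (g : V → V), (∀ v w, g (v + w) = g v + g w) →
      (∀ (c : K) v, g (c • v) = σ c • g v) → (∀ v, q (g v) = μ * σ (q v)) → μ ≠ 0 →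
      ∃ ν : K, ν ^ 2 = μ

/-- **Sim.** A semilinear bijection normalizing the Siegel transformations up to similitudes is a
similitude.

*Proof.*  `Q₁(u) = σ⁻¹(q(g u))`: `Q₁(c u) = c² Q₁(u)`, `Q₁(u + v) = Q₁(u) + Q₁(v) + B₁(u,v)`, `B₁(u,v) = σ⁻¹(B(g u, g v))`
is bilinear and symmetric.  Let `T = T_{x,v}` (`q(x) = 0`, `B(x,v) = 0`).  `T_{x,v} T_{x,w} = T_{x,v+w}` (compute), so `T^p = T_{x,pv} =
T_{x,0} = 1`; `T` is an additive bijection and an isometry.  `Q₁(T u) = χ₁ Q₁(u)` with `χ₁ = σ⁻¹(χ)`; there is `u` with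
`Q₁(u) ≠ 0` (`g` is surjective and `q ≠ 0`: `q(a + b) = 1` in `Hyp2`), so `Q₁(u) = Q₁(T^p u) = χ₁^p Q₁(u)`, `χ₁^p = 1`,
`(χ₁ - 1)^p = 0`, `χ₁ = 1`.  So `Q₁(T u) = Q₁(u)`, `B₁(T u, T v) = B₁(u,v)`.  There is a linear `X : W → W` with `B₁(u,v) = B(X u, v)`
(`B` is nondegenerate, `W` finite-dimensional); `B(X T u, T v) = B₁(T u, T v) = B₁(u,v) = B(X u, v) = B(T X u, T v)`, so
`X T = T X`; by *Sca* `X = c`: `B₁ = c B`.  `d(u) = Q₁(u) - c q(u)` satisfies `d(u + v) = d(u) + d(v)`, `d(T u) = d(u)`.  `A = {u | d(u) = 0}` is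
an additive subgroup, invariant under all `T`, and contains all `T u - u` (`d(-u) = -d(u)`), for example `T_{a,a'} b - b = -a' ≠ 0`.
By *Irr* `A = ⊤`: `q(g u) = σ(c) σ(q(u))`, `μ = σ(c)`, not zero because `q(g u) ≠ 0` for some `u`.
*Uses*: Irr, Sca. -/
def SimStmt : Prop :=
  ∀ (p : ℕ) [Fact p.Prime] (K W : Type) [Field K] [CharP K p] [AddCommGroup W]
    [Module K W] [FiniteDimensional K W] (q : QuadraticForm K W), Nd q → Hyp2 q →
    ∀ (σ : K ≃+* K) (g : W → W), (∀ u v, g (u + v) = g u + g v) →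
      (∀ (c : K) u, g (c • u) = σ c • g u) → Function.Bijective g →
      (∀ x v, q x = 0 → pl q x v = 0 → ∃ χ : K, ∀ u, q (g (sie q x v u)) = χ * q (g u)) →
      ∃ μ : K, μ ≠ 0 ∧ ∀ u, q (g u) = μ * σ (q u)

/-! ## Part 2.  Finite groups with a centre of order prime to `p` -/

/-- The elements of order a power of `p`. -/
def IsPel (p : ℕ) {H : Type} [Group H] (h : H) : Prop := ∃ k : ℕ, h ^ p ^ k = 1

/-- **Pel.** A group which is a `p`-group modulo the centre of `H`.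

*Proof.*  Put `Z = Z(H)`, of order `m` prime to `p`.  `T / Z` is a `p`-group by hypothesis, so `|T| = p^a m`.  Let `P` be a Sylow
`p`-subgroup of `T`, of order `p^a`.  `P ∩ Z = 1`, so `|P Z| = p^a m = |T|`, `P Z = T`.  `Z` is central, so `P` is normal in `T`, and
contains every `p`-subgroup of `T`, in particular every element of order a power of `p`. -/
def PelStmt : Prop :=
  ∀ (p : ℕ) [Fact p.Prime] (H : Type) [Group H] [Finite H],
    ¬ p ∣ Nat.card (Subgroup.center H) → ∀ T : Subgroup H, Subgroup.center H ≤ T →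
    (∀ t ∈ T, ∃ k : ℕ, t ^ p ^ k ∈ Subgroup.center H) →
    ∃ P ≤ T, IsPGroup p P ∧ (∀ t ∈ T, IsPel p t → t ∈ P) ∧
      ∀ t ∈ T, ∃ x ∈ P, ∃ z ∈ Subgroup.center H, t = x * z

/-- **Lft.** Lifting of `p`-subgroups of `H / Z(H)`.

*Proof.*  (1) `h = k z`, `z` central, `h^(p^n) = k^(p^n) = 1` for large `n`, so `z^(p^n) = 1`, and `z^m = 1` for `m = |Z(H)|` prime to
`p`: `z = 1`.  (2) `T = π⁻¹(Y)`; for `t ∈ T` `π(t)` has order a power of `p`; take `P` of *Pel*: `π(P) = Y`.  (3) For `h ∈ R` there is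
`h' ∈ R'` with `π h = π h'`; by (1) `h = h'`.
*Uses*: Pel. -/
def LftStmt : Prop :=
  ∀ (p : ℕ) [Fact p.Prime] (H : Type) [Group H] [Finite H],
    ¬ p ∣ Nat.card (Subgroup.center H) →
    (∀ h k : H, IsPel p h → IsPel p k →
      (h : H ⧸ Subgroup.center H) = (k : H ⧸ Subgroup.center H) → h = k) ∧
    (∀ Y : Subgroup (H ⧸ Subgroup.center H), IsPGroup p Y → ∃ R : Subgroup H, IsPGroup p R ∧
      R.map (QuotientGroup.mk' (Subgroup.center H)) = Y) ∧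
    ∀ R R' : Subgroup H, IsPGroup p R → IsPGroup p R' →
      R.map (QuotientGroup.mk' (Subgroup.center H)) ≤
        R'.map (QuotientGroup.mk' (Subgroup.center H)) → R ≤ R'

/-! ## Part 3.  The subgroups `R_x` and `P_x` -/

/-- **Tr.** Transitivity on the singular lines.

*Proof.*  From `hyp` there is `w ∈ U` with `q(w) = 1` (`w = a + b`).  `n = si e w * si f w * si e w`.  `T_{e,w}`: `e ↦ e`,
`f ↦ f - w - e`, `w ↦ w + 2 e`; `T_{f,w}`: `e ↦ e - w - f`, `f ↦ f`, `w ↦ w + 2 f`.  So `n f = T_{e,w} T_{f,w} (f - w - e) =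
T_{e,w}(-e) = -e` and `n e = T_{e,w}(e - w - f) = -f`.  Let `x = α e + β f + u` (`dec`), `α = B(x,f)`, `β = B(x,e)`, `q(x) = α β + q(u) = 0`.
Case `β ≠ 0`: `T_{e,v} f = f - v - q(v) e` for `v ∈ U`; for `v = -β⁻¹ u` it is `f + β⁻¹ u - β⁻² q(u) e = β⁻¹ x`.  So `x = si e v (β f)` and
`n (si e v)⁻¹ x = -β e`.  Case `α ≠ 0`, `β = 0`: `q(u) = 0`, `T_{f,v} e = e - v - q(v) f`, for `v = -α⁻¹ u` it is `α⁻¹ x`: `(si f v)⁻¹ x = α e`.
Case `α = β = 0`: `x = u ≠ 0`; there is `v ∈ U` with `B(u,v) ≠ 0` (`ndU`); `si f v x = u + B(u,v) f` is in the first case. -/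
def TrStmt : Prop :=
  ∀ (K V H : Type) [Field K] [AddCommGroup V] [Module K V] [Group H] (G : SpD K V H), G.IsS0 →
    ∀ x : V, x ≠ 0 → G.q x = 0 → ∃ (h : H) (c : K), c ≠ 0 ∧ G.ac h x = c • G.e

/-- **Fix.** The fixed vectors of `R_x`.

*Proof.*  (1) `x = e`: let `z` be fixed by all `si e v`, `v ∈ U`: `B(z,v) e - B(z,e) v - B(z,e) q(v) e = 0`.  Take `v ∈ U`
nonzero (`hyp`); `v ∉ K e` (pair with `f`), so `B(z,e) = 0`; then `B(z,v) = 0` for all `v ∈ U`.  `z = B(z,f) e + u` (`dec`), `u ∈ U`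
orthogonal to `U`, so `u = 0` (`ndU`).  General `x`: *Tr*: `h x = c e`; `h z` is fixed by `R_e = R_{h x} = h R_x h⁻¹` (`R_conj`,
`R_smul`), so `h z ∈ K e = K h x`.  (2) `R_x ≠ 1`: by (1), otherwise `V = K x`, but `e, f` are linearly independent.
(3) If `R_x ≤ R_y` then `y` is fixed by `R_y ≥ R_x`, so `y ∈ K x` (`R_fix`, (1)).
*Uses*: Tr. -/
def FixStmt : Prop :=
  ∀ (K V H : Type) [Field K] [AddCommGroup V] [Module K V] [Group H] (G : SpD K V H), G.IsS0 →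
    ∀ x : V, x ≠ 0 → G.q x = 0 →
      (∀ z, (∀ h ∈ G.R x, G.ac h z = z) → ∃ c : K, z = c • x) ∧ G.R x ≠ ⊥ ∧
      ∀ y : V, G.q y = 0 → G.R x ≤ G.R y → ∃ c : K, y = c • x

/-- **Cen.** The centralizer of `R_e`.

*Proof.*  Let `h` commute with `R_e`.  For `r ∈ R_e`: `h r h⁻¹ = r`, so by `R_conj` `R_e ≤ R_{h e}`, and by *Fix* (3) `h e = c e`, `c ≠ 0`.
For `v` with `B(e,v) = 0`: `si e v = h (si e v) h⁻¹ = si (c e) (h v) = si e (c h v)`, so `c h v = v + d e` (`si_inj`).  Apply `q`: `c² q(v) =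
q(v)`; take `v = a + b ∈ U` of `hyp` (`q(v) = 1`): `c² = 1`, `c⁻¹ = c`, `h v = c v + c d e`: the first claim.  Second claim: `y = c h f`
is singular, `B(e,y) = B(c e, h f) = B(h e, h f) = 1`; as in *Tr* there is `r = si e v`, `v ∈ U`, with `r f = y` (`y = B(y,f) e + f + u`,
`v = -u`).  `k = r⁻¹ h`: `k e = c e`, `k f = r⁻¹ (c y) = c f` (`h f = c y`), and for `u ∈ U`: `h u = c u + d' e`, `k u = c r⁻¹ u + d' e =
c u + d'' e` (`r⁻¹ u - u ∈ K e`), and `B(k u, f) = c B(k u, k f) = c B(u,f) = 0`, so `d'' = 0`.  So `k v = c v` for all `v` (`dec`), `k` is central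
(`ker`), `h = r k`.
*Uses*: Fix. -/
def CenStmt : Prop :=
  ∀ (K V H : Type) [Field K] [AddCommGroup V] [Module K V] [Group H] (G : SpD K V H), G.IsS0 →
    ∀ h : H, (∀ r ∈ G.R G.e, h * r = r * h) →
      (∃ c : K, c ^ 2 = 1 ∧ G.ac h G.e = c • G.e ∧
        ∀ v, pl G.q G.e v = 0 → ∃ d : K, G.ac h v = c • v + d • G.e) ∧
      ∃ r ∈ G.R G.e, ∃ z ∈ Subgroup.center H, h = r * z

/-- **CenS.** The centre acts by scalars.

*Proof.*  `z` commutes with `R_e`; *Cen* gives `c`.  By *Tr* for `f`: `h f = c' e`, so `f = c' h⁻¹ e`, `z f = c' h⁻¹ z e = c f`.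
For `v ∈ U`: `z v = c v + d e`, `B(z v, f) = c B(z v, z f) = c B(v,f) = 0` (`c² = 1`), so `d = 0`.  Use `dec`.
*Uses*: Cen, Tr. -/
def CenSStmt : Prop :=
  ∀ (K V H : Type) [Field K] [AddCommGroup V] [Module K V] [Group H] (G : SpD K V H), G.IsS0 →
    ∀ z ∈ Subgroup.center H, ∃ c : K, c ^ 2 = 1 ∧ ∀ v, G.ac z v = c • v

/-- **Nrm.** The normal `p`-subgroups of `P_e`.

*Proof.*  `R_e ≤ P_e` is abelian and normalized by `P_e` (`P_norm`); a central element of order a power of `p` is `1` (`ze`).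
(i) `N ∩ R_e ≠ 1`: otherwise for `n ∈ N`, `r ∈ R_e`: `n r n⁻¹ r⁻¹ ∈ N ∩ R_e = 1`; so `n` commutes with `R_e`, `n = r z` by *Cen*,
`z = r⁻¹ n` is a product of commuting elements of order a power of `p`, so `z = 1`, `n ∈ R_e ∩ N = 1`; `N = 1`,
contradiction.  (ii) `A = {u ∈ U | si e u ∈ N}` is an additive subgroup of `U`, not zero by (i) (`mem_Re`), invariant under the
`sie qU x v` (`cnj_e`; `si x v ∈ P_e` by `act_U`), so `A = U` by *Irr* (`ndU`, `hyp`): `R_e ≤ N`.  (iii) `C = {r ∈ R_e | r commutes with N}`: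
`N` acts on `R_e` by conjugation, both are `p`-groups, `R_e ≠ 1`, so `C ≠ 1` (`IsPGroup.card_modEq_card_fixedPoints`, or:
`R_e` is a nontrivial normal subgroup of the `p`-group `N`, so it meets the centre).  `{u ∈ U | si e u ∈ C}` is invariant: for
`k = si x v`, `n ∈ N`: `k⁻¹ n k ∈ N`, so `k r k⁻¹` commutes with `n`.  By *Irr* `C = R_e`.  So every `n ∈ N` commutes with `R_e`,
`n = r z` (*Cen*), `z = 1` as in (i).
*Uses*: Cen, Irr. -/
def NrmStmt : Prop :=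
  ∀ (p : ℕ) [Fact p.Prime] (K V H : Type) [Field K] [Finite K] [CharP K p] [AddCommGroup V]
    [Module K V] [FiniteDimensional K V] [Group H] [Finite H] (G : SpD K V H), G.IsSp p →
    ∀ N ≤ G.P G.e, IsPGroup p N → N ≠ ⊥ → (∀ g ∈ G.P G.e, ∀ n ∈ N, g * n * g⁻¹ ∈ N) →
      N = G.R G.e

/-! ## Part 4.  Sylow subgroups -/

/-- **FxV.** Fixed vectors of `p`-subgroups.

*Proof.*  (1) `P` acts on the finite set `{x | q(x) = 0}` (a `MulAction` of `P` defined by `ac`, `iso`); its number of elements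
is divisible by `p` (*Zer*), so the number of fixed elements is divisible by `p`
(`IsPGroup.card_modEq_card_fixedPoints`), and `0` is fixed; so there is another one.  (2) The same for the set `W`, whose
number of elements is a positive power of `|K|`.
*Uses*: Zer. -/
def FxVStmt : Prop :=
  ∀ (p : ℕ) [Fact p.Prime] (K V H : Type) [Field K] [Finite K] [CharP K p] [AddCommGroup V]
    [Module K V] [FiniteDimensional K V] [Group H] [Finite H] (G : SpD K V H), G.IsS0 →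
    3 ≤ Module.finrank K V → ∀ P : Subgroup H, IsPGroup p P →
    (∃ x : V, x ≠ 0 ∧ G.q x = 0 ∧ ∀ h ∈ P, G.ac h x = x) ∧
    ∀ W : Submodule K V, W ≠ ⊥ → (∀ h ∈ P, ∀ w ∈ W, G.ac h w ∈ W) →
      ∃ x ∈ W, x ≠ 0 ∧ ∀ h ∈ P, G.ac h x = x

/-- **Syl.** The fixed vectors of a Sylow subgroup.

*Proof.*  *FxV* (1) gives `x`.  `P ≤ P_x` normalizes the `p`-group `R_x` (`P_norm`), so `P R_x` is a `p`-group containing `P`
(`IsPGroup.to_sup_of_normal_right'` or similar), so it is `P` (`Sylow.is_maximal'`): `R_x ≤ P`.  A vector fixed by `P` is fixed by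
`R_x`, so it is a multiple of `x` (*Fix*).  The second claim is the same argument: a `p`-subgroup normalized by `P` is in `P`.
*Uses*: FxV, Fix. -/
def SylStmt : Prop :=
  ∀ (p : ℕ) [Fact p.Prime] (K V H : Type) [Field K] [Finite K] [CharP K p] [AddCommGroup V]
    [Module K V] [FiniteDimensional K V] [Group H] [Finite H] (G : SpD K V H), G.IsS0 →
    3 ≤ Module.finrank K V → ∀ P : Sylow p H,
    (∃ x : V, x ≠ 0 ∧ G.q x = 0 ∧ (∀ h ∈ (P : Subgroup H), G.ac h x = x) ∧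
      ∀ v, (∀ h ∈ (P : Subgroup H), G.ac h v = v) → ∃ c : K, v = c • x) ∧
    ∀ N : Subgroup H, IsPGroup p N → (∀ g ∈ (P : Subgroup H), ∀ n ∈ N, g * n * g⁻¹ ∈ N) →
      N ≤ (P : Subgroup H)

/-- **WZ.** The invariant totally singular subspace.

*Proof.*  `C = {w | r w = w for all r ∈ R'}`; `C⊥ = {v | B(v,w) = 0 for all w ∈ C}`; `W = {w ∈ C ∩ C⊥ | q(w) = 0}`.  It is a subspace:
for `w, w' ∈ C ∩ C⊥`: `B(w,w') = 0`, so `q(w + w') = q(w) + q(w')`.  `M` normalizes `R'`, so `C`, `C⊥` and `W` are invariant under `M`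
(and `M` is a group, so `M ≤ St W`; `isoB`, `iso`).  `R' ≤ P ≤ M` by *Syl*, second part.  `C ≠ V`: otherwise `R'` is in the centre
(`ker` with `c = 1`), but it is a nontrivial `p`-group (`ze`).  So `C⊥ ≠ 0` (`B` is nondegenerate, `V` finite-dimensional), and it is
`P`-invariant; by *FxV* (2) there is `0 ≠ v ∈ C⊥` fixed by `P`; by *Syl* `v = c x`, `c ≠ 0`, where `x` is singular and fixed by `P ≥ R'`.
So `x ∈ C ∩ C⊥`, `q(x) = 0`: `W ≠ 0`.
*Uses*: FxV, Syl. -/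
def WZStmt : Prop :=
  ∀ (p : ℕ) [Fact p.Prime] (K V H : Type) [Field K] [Finite K] [CharP K p] [AddCommGroup V]
    [Module K V] [FiniteDimensional K V] [Group H] [Finite H] (G : SpD K V H), G.IsSp p →
    3 ≤ Module.finrank K V → ∀ (M R' : Subgroup H) (P : Sylow p H), (P : Subgroup H) ≤ M →
    IsPGroup p R' → R' ≠ ⊥ → (∀ m ∈ M, ∀ r ∈ R', m * r * m⁻¹ ∈ R') →
    ∃ W : Submodule K V, W ≠ ⊥ ∧ (∀ w ∈ W, G.q w = 0) ∧ M ≤ G.St W

/-! ## Part 5.  The stabilizer of a totally singular subspace -/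

/-- The group generated by the `si x y`, `x, y ∈ W`. -/
def SpD.RW {K V H : Type} [Field K] [AddCommGroup V] [Module K V] [Group H] (G : SpD K V H)
    (W : Submodule K V) : Subgroup H :=
  Subgroup.closure {h | ∃ x ∈ W, ∃ y ∈ W, h = G.si x y}

/-- The group generated by the `si x v`, `x ∈ W`, `v` orthogonal to `W`. -/
def SpD.QW {K V H : Type} [Field K] [AddCommGroup V] [Module K V] [Group H] (G : SpD K V H)
    (W : Submodule K V) : Subgroup H :=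
  Subgroup.closure {h | ∃ x ∈ W, ∃ v : V, (∀ w ∈ W, pl G.q w v = 0) ∧ h = G.si x v}

/-- **RZ.** The group `RW`.

*Proof.*  `B(w,w') = 0` for `w, w' ∈ W` (`q` is zero on `W`).  (4) `T_{x,y} v - v ∈ W` for `x, y ∈ W`; closed under products and
inverses.  (5) `T_{x,y} w = w` for `w ∈ W`.  (1) For a generator `k` and `h ∈ RW`: `h k h⁻¹ = k` by `cnj` and (5); so `RW` is commutative,
and generated by elements with `k^p = 1` (`si_p`); so `h^p = 1` for all `h ∈ RW` (closure induction).  (2) `g (si x y) g⁻¹ = si (g x) (g y)`.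
(3) Let `x, y ∈ W` be linearly independent; `z` with `B(x,z) = 0`, `B(y,z) = 1` (as in *Sng* (2)): `T_{x,y} z = z + x ≠ z`.  So
`si x y ≠ 1`. -/
def RZStmt : Prop :=
  ∀ (p : ℕ) [Fact p.Prime] (K V H : Type) [Field K] [CharP K p] [AddCommGroup V]
    [Module K V] [FiniteDimensional K V] [Group H] (G : SpD K V H), G.IsS0 →
    ∀ W : Submodule K V, (∀ w ∈ W, G.q w = 0) →
    IsPGroup p (G.RW W) ∧ (∀ g ∈ G.St W, ∀ h ∈ G.RW W, g * h * g⁻¹ ∈ G.RW W) ∧
    (2 ≤ Module.finrank K W → G.RW W ≠ ⊥) ∧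
    (∀ h ∈ G.RW W, ∀ v, G.ac h v - v ∈ W) ∧ ∀ h ∈ G.RW W, ∀ w ∈ W, G.ac h w = w

/-- **QZ.** The group `QW`.

*Proof.*  `W⊥ = {v | B(w,v) = 0 for all w ∈ W}`, `W ⊆ W⊥`.  (1) For `x ∈ W`, `v ∈ W⊥`: `T_{x,v} z - z ∈ W⊥` for all `z`, `∈ W` for `z ∈ W⊥`, and
`= 0` for `z ∈ W`; so the same is true for all `h ∈ QW` (closure induction, for the three statements together).  So
`(ac h - 1)³ = 0` in `End V`, and `(ac h)^(p²) - 1 = (ac h - 1)^(p²) = 0` (characteristic `p`, commuting elements: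
`sub_pow_char_pow` or `add_pow_char_pow_of_commute`; `p² ≥ 3`).  So `h^(p²)` is central (`ker`, `c = 1`).  *Pel* for `T = QW ⊔ Z(H)`
(an element of `T` is `h z`; `(h z)^(p²) = h^(p²) z^(p²)`): the generators of `QW` have order `p` or `1` (`si_p`), so they are in the
`p`-group `P` of *Pel*: `QW ≤ P`.  (2) `g (si x v) g⁻¹ = si (g x) (g v)`, `g v ∈ W⊥` for `g ∈ St W` (`acB`, `g⁻¹ ∈ St W`).
*Uses*: Pel. -/
def QZStmt : Prop :=
  ∀ (p : ℕ) [Fact p.Prime] (K V H : Type) [Field K] [CharP K p] [AddCommGroup V]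
    [Module K V] [FiniteDimensional K V] [Group H] [Finite H] (G : SpD K V H), G.IsSp p →
    ∀ W : Submodule K V, (∀ w ∈ W, G.q w = 0) →
    IsPGroup p (G.QW W) ∧ ∀ g ∈ G.St W, ∀ h ∈ G.QW W, g * h * g⁻¹ ∈ G.QW W

/-- **CnZ.** Orders.

*Proof.*  (1) `U → R_e`, `u ↦ si e u`, is a bijection (`mem_Re`, `si_e_inj`), so `|R_e| = |K|^(dim U)`, and `dim U = dim V - 2`
(the map `v ↦ (B(e,v), B(f,v))`, `V → K²`, is surjective with kernel `U`).  (2) For `h ∈ RW` put `δ_h(v) = h v - v ∈ W`.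
`δ_{h h'}(v) = h (v + δ_{h'}(v)) - v = δ_h(v) + δ_{h'}(v)` (*RZ* (5)), so `δ : RW → (V → V)` is a homomorphism to an additive
group, and its image `I` is an additive subgroup; it contains `τ_{x,y} = (v ↦ B(v,y) x - B(v,x) y)` for `x, y ∈ W` (from `si x y`,
`q(y) = 0`).  Let `x_1, .., x_j` be a basis of `W`, and `z_1, .., z_j ∈ V` with `B(z_i,x_k) = δ_ik` (exist: `B` is nondegenerate, so `V → W*` is
surjective).  For a family `c = (c_ik)_{i<k}` in `K` the map `τ_c = Σ_{i<k} τ_{x_i, c_ik x_k}` is in `I`, and for `i < k` the coefficient of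
`x_i` in `τ_c(z_k) = Σ_{i<k} c_ik x_i - Σ_{l>k} c_kl x_l` is `c_ik`.  So `c ↦ τ_c` is injective, and `|RW| ≥ |I| ≥ |K|^(j(j-1)/2)` (the number
of pairs `i < k` in `Fin j` is `j(j-1)/2`).
*Uses*: RZ. -/
def CnZStmt : Prop :=
  ∀ (p : ℕ) [Fact p.Prime] (K V H : Type) [Field K] [Finite K] [CharP K p] [AddCommGroup V]
    [Module K V] [FiniteDimensional K V] [Group H] [Finite H] (G : SpD K V H), G.IsS0 →
    Nat.card (G.R G.e) = Nat.card K ^ (Module.finrank K V - 2) ∧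
    ∀ W : Submodule K V, (∀ w ∈ W, G.q w = 0) →
      Nat.card K ^ (Module.finrank K W * (Module.finrank K W - 1) / 2) ≤ Nat.card (G.RW W)

/-- **DmZ.** If `St W` has at most one nontrivial normal `p`-subgroup, of order `|R_e|`, it is some `R_x`.

*Proof.*  `j = dim W ≥ 1`.  Suppose `j ≥ 2`.  By *RZ* `RW = R'`.  `RW ≤ QW`, so `QW ≠ 1`, by *QZ* `QW = R' = RW`.  (i) `W⊥ = W`: let
`v ∈ W⊥`, `0 ≠ x ∈ W`, `z` with `B(z,x) = 1` (`exists_B`); `si x v ∈ QW = RW`, so `T_{x,v} z - z = B(z,v) x - v - q(v) x ∈ W` (*RZ* (4)), `v ∈ W`.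
So `dim V = dim W + dim W⊥ = 2 j` (`B` nondegenerate: e.g. `LinearMap.BilinForm.finrank_orthogonal`).  (ii) *CnZ*:
`|K|^(j(j-1)/2) ≤ |RW| = |R_e| = |K|^(2j-2)`, so `j(j-1)/2 ≤ 2j - 2`, `j ≤ 4`; `2 j ≥ 7` gives `j = 4`, `dim V = 8`, contradiction to the
hypothesis.  So `j = 1`, `W = K x`, `x` singular.  `g ∈ St W` implies `g x = c x`, `c ≠ 0`, so `g ∈ P_x` normalizes the `p`-group
`R_x ≠ 1` (`P_norm`, `R_pgroup`, *Fix*): `R_x = R'`.
*Uses*: RZ, QZ, CnZ, Fix. -/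
def DmZStmt : Prop :=
  ∀ (p : ℕ) [Fact p.Prime] (K V H : Type) [Field K] [Finite K] [CharP K p] [AddCommGroup V]
    [Module K V] [FiniteDimensional K V] [Group H] [Finite H] (G : SpD K V H), G.IsSp p →
    7 ≤ Module.finrank K V →
    (Module.finrank K V = 8 → ∀ W : Submodule K V, (∀ w ∈ W, G.q w = 0) →
      Module.finrank K W ≤ 3) →
    ∀ (W : Submodule K V) (R' : Subgroup H), W ≠ ⊥ → (∀ w ∈ W, G.q w = 0) →
    Nat.card R' = Nat.card (G.R G.e) →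
    (∀ N : Subgroup H, IsPGroup p N → N ≠ ⊥ → (∀ g ∈ G.St W, ∀ n ∈ N, g * n * g⁻¹ ∈ N) →
      N = R') →
    ∃ x : V, x ≠ 0 ∧ G.q x = 0 ∧ R' = G.R x

/-! ## Part 6.  Automorphisms of `H / Z(H)` -/

/-- **Mrp.** The images of `P_e` and `R_e`.

*Proof.*  `M = π⁻¹(φ(π(P_e)))`, `R'` = the lift of `φ(π(R_e))` (*Lft* (2)).  `|R'| = |π(R')| = |π(R_e)| = |R_e|` (`π` is injective on
`p`-subgroups, *Lft* (1)).  `M` normalizes `R'`: for `m ∈ M`, `π(m) = φ(π(g))`, `g ∈ P_e`, the `p`-group `m R' m⁻¹` has the image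
`φ(π(g R_e g⁻¹)) = φ(π(R_e))`, so it is `R'` (*Lft* (3), `P_norm`).  `P`: let `P₀` be a Sylow subgroup of `H`; it fixes a singular `x`
(*FxV*), `h x = c e` (*Tr*), so the Sylow subgroup `P₁ = h P₀ h⁻¹` is in `P_e`.  Let `P` be the lift of `φ(π(P₁))`; it has the order of `P₁`, so
it is a Sylow subgroup (`Sylow.ofCard`), and `P ≤ M`.  Last claim: let `N'` be the lift of `φ⁻¹(π(N))`.  `N' ≤ P_e`: for `n' ∈ N'`,
`π(n') = φ⁻¹(π(n))`, `n ∈ N ≤ M`, `π(n) = φ(π(g))`, `g ∈ P_e`, so `π(n') = π(g)`, `n' ∈ g Z(H) ⊆ P_e` (*CenS*; `c ≠ 0` as `c² = 1`).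
`P_e` normalizes `N'`: for `g ∈ P_e`, `φ(π(g)) = π(m)`, `m ∈ M`, the image of `g N' g⁻¹` is `φ⁻¹(π(m N m⁻¹)) = φ⁻¹(π(N))`; *Lft* (3).
`N' ≠ 1`.  By *Nrm* `N' = R_e`, so `π(N) = φ(π(R_e)) = π(R')`, `N = R'` (*Lft* (3)).
*Uses*: Lft, FxV, Tr, CenS, Nrm. -/
def MrpStmt : Prop :=
  ∀ (p : ℕ) [Fact p.Prime] (K V H : Type) [Field K] [Finite K] [CharP K p] [AddCommGroup V]
    [Module K V] [FiniteDimensional K V] [Group H] [Finite H] (G : SpD K V H), G.IsSp p →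
    3 ≤ Module.finrank K V →
    ∀ φ : (H ⧸ Subgroup.center H) ≃* (H ⧸ Subgroup.center H),
    ∃ (M R' : Subgroup H) (P : Sylow p H), (P : Subgroup H) ≤ M ∧ IsPGroup p R' ∧
      Nat.card R' = Nat.card (G.R G.e) ∧
      ((G.R G.e).map (QuotientGroup.mk' (Subgroup.center H))).map φ.toMonoidHom =
        R'.map (QuotientGroup.mk' (Subgroup.center H)) ∧
      (∀ m ∈ M, ∀ r ∈ R', m * r * m⁻¹ ∈ R') ∧
      ∀ N ≤ M, IsPGroup p N → N ≠ ⊥ → (∀ m ∈ M, ∀ n ∈ N, m * n * m⁻¹ ∈ N) → N = R'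

/-- **SnE.** The image of `R_z`.

*Proof.*  `z = e`: *Mrp* gives `M, R', P`; `R' ≠ 1` (`R_e ≠ 1` by *Fix*).  *WZ*: `W`, `M ≤ St W`.  *DmZ*: let `N ≠ 1` be a `p`-subgroup
normalized by `St W ≥ M ≥ P`; `N ≤ P` (*Syl*, second part), so `N ≤ M`, and `N = R'` (*Mrp*).  So `R' = R_x`.  General `z`: `h z = c e`
(*Tr*), `R_z = h⁻¹ R_e h` (`R_conj`, `R_smul`); with `φ(π(h)) = π(k)`: `φ(π(R_z)) = π(k)⁻¹ π(R_x) π(k) = π(R_{k⁻¹ x})`.
*Uses*: Mrp, WZ, DmZ, Syl, Tr, Fix. -/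
def SnEStmt : Prop :=
  ∀ (p : ℕ) [Fact p.Prime] (K V H : Type) [Field K] [Finite K] [CharP K p] [AddCommGroup V]
    [Module K V] [FiniteDimensional K V] [Group H] [Finite H] (G : SpD K V H), G.IsSp p →
    7 ≤ Module.finrank K V →
    (Module.finrank K V = 8 → ∀ W : Submodule K V, (∀ w ∈ W, G.q w = 0) →
      Module.finrank K W ≤ 3) →
    ∀ (φ : (H ⧸ Subgroup.center H) ≃* (H ⧸ Subgroup.center H)) (z : V), z ≠ 0 → G.q z = 0 →
      ∃ x : V, x ≠ 0 ∧ G.q x = 0 ∧ G.Snd φ z x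

/-- **SnF.** Adjusting by an inner automorphism.

*Proof.*  *SnE*: `Snd φ e x`, `Snd φ f y`.  *Tr*: `h₁ x = c e`.  For `φ₁ = φ` followed by conjugation with `π(h₁)`: `Snd φ₁ e e`
(`R_conj`, `R_smul`), `Snd φ₁ f y₁`, `y₁ = h₁ y`.  Claim `B(y₁,e) ≠ 0`.  Suppose it is `0`.  The subspace `Y = span(e, y₁)` is invariant under
`R_e` and `R_{y₁}` (`T_{e,v} z = z + B(z,v) e` for `B(z,e) = 0`), and under `Z(H)` (*CenS*).  `H` is generated by `R_e` and `R_f`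
(`gen`), so `H / Z(H)` by their images, hence (apply `φ₁`) by the images of `R_e` and `R_{y₁}`; so every `h ∈ H` preserves `Y`.  By *Tr*
(inverse) there is `h` with `h e = c' f`, `c' ≠ 0`; so `f ∈ Y`, but `B(e,f) = 1` and `B(e,Y) = 0`.  So `B(y₁,e) ≠ 0`; replace `y₁` by a
multiple (`R_smul`): `B(y₁,e) = 1`.  As in *Tr* there is `r = si e v`, `v ∈ U`, `r f = y₁`.  `h₀ = r⁻¹ h₁`: `R_e` is abelian, so
`Snd φ₀ e e`, and `Snd φ₀ f f` (`R_{r⁻¹ y₁} = R_f`).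
*Uses*: SnE, Tr, CenS. -/
def SnFStmt : Prop :=
  ∀ (p : ℕ) [Fact p.Prime] (K V H : Type) [Field K] [Finite K] [CharP K p] [AddCommGroup V]
    [Module K V] [FiniteDimensional K V] [Group H] [Finite H] (G : SpD K V H), G.IsSp p →
    7 ≤ Module.finrank K V →
    (Module.finrank K V = 8 → ∀ W : Submodule K V, (∀ w ∈ W, G.q w = 0) →
      Module.finrank K W ≤ 3) →
    ∀ φ : (H ⧸ Subgroup.center H) ≃* (H ⧸ Subgroup.center H), ∃ h₀ : H,
      G.Snd (φ.trans (MulAut.conj (h₀ : H ⧸ Subgroup.center H))) G.e G.e ∧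
      G.Snd (φ.trans (MulAut.conj (h₀ : H ⧸ Subgroup.center H))) G.f G.f

/-- **Lev.** Elements of `P_e ∩ P_f` correspond.

*Proof.*  (1) Let `π(l') = α(π(l))`.  For `r ∈ R_x` (`x = e` or `f`): `α(π(l r l⁻¹)) = π(l') α(π(r)) π(l')⁻¹`, `l r l⁻¹ ∈ R_x` (`P_norm`), and
`α(π(r))` runs through `π(R_x)` (`Snd`).  So for `r' ∈ R_x`: `π(l' r' l'⁻¹) ∈ π(R_x)`, both are of order a power of `p`, so
`l' r' l'⁻¹ ∈ R_x` (*Lft* (1)).  So `R_{l' x} ≤ R_x` (`R_conj`), and `x = c (l' x)` by *Fix* (3), `l' x = c⁻¹ x`.  (2) the same for `α⁻¹`.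
*Uses*: Lft, Fix. -/
def LevStmt : Prop :=
  ∀ (p : ℕ) [Fact p.Prime] (K V H : Type) [Field K] [Finite K] [CharP K p] [AddCommGroup V]
    [Module K V] [FiniteDimensional K V] [Group H] [Finite H] (G : SpD K V H), G.IsSp p →
    ∀ α : (H ⧸ Subgroup.center H) ≃* (H ⧸ Subgroup.center H), ∀ x : V, x ≠ 0 → G.q x = 0 →
      G.Snd α x x → ∀ l l' : H,
      α (l : H ⧸ Subgroup.center H) = (l' : H ⧸ Subgroup.center H) → (l ∈ G.P x ↔ l' ∈ G.P x)

/-- **Sem.** The semilinear map.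

*Proof.*  For `u ∈ U` `α(π(si e u)) ∈ π(R_e)` (`Snd`), so it is `π(si e u')` with `u' ∈ U` (`mem_Re`), unique by *Lft* (1) and `si_e_inj`;
`g u = u'`.  `g` is additive (`mul`) and bijective (`Snd` and injectivity).  (*) Let `l, l'` be in `P_e ∩ P_f`, `α(π(l)) = π(l')`, `l e = c e`,
`l' e = c' e`.  `l` preserves `U`.  `l (si e u) l⁻¹ = si (c e) (l u) = si e (c l u)`; so `g(c l u) = c' l' (g u)`.  (i) Let `x, v ∈ U`,
`q(x) = 0`, `B(x,v) = 0`, `l' = si x v` (`∈ P_e ∩ P_f`, `c' = 1`, `act_U`), and `l` with `α(π(l)) = π(l')`; by *Lev* `l ∈ P_e ∩ P_f`.  So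
`l' ∘ g = g ∘ (c l)` on `U`.  For `κ ∈ K` the additive map `X = g κ g⁻¹` commutes with `l' = sie qU x v`:
`X l' = g κ (c l) g⁻¹ = g (c l) κ g⁻¹ = l' X`.  By *Sca* (`ndU`, `hyp`) `X` is a scalar `σ(κ)`: `g(κ u) = σ(κ) g(u)`.  `σ` is a ring
homomorphism `K → K` (`U ≠ 0`), injective, so bijective (`K` is finite).  (ii) Last claim: `l = si x v`, `l'` with
`α(π(l)) = π(l')`, in `P_e ∩ P_f` by *Lev*: `g(l u) = c' l' (g u)`, so `q(g(l u)) = c'² q(g u)` (`iso`): `χ = c'²`.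
*Uses*: Lft, Lev, Sca. -/
def SemStmt : Prop :=
  ∀ (p : ℕ) [Fact p.Prime] (K V H : Type) [Field K] [Finite K] [CharP K p] [AddCommGroup V]
    [Module K V] [FiniteDimensional K V] [Group H] [Finite H] (G : SpD K V H), G.IsSp p →
    ∀ α : (H ⧸ Subgroup.center H) ≃* (H ⧸ Subgroup.center H), G.Snd α G.e G.e →
      G.Snd α G.f G.f →
      ∃ (σ : K ≃+* K) (g : G.U → G.U), (∀ u v, g (u + v) = g u + g v) ∧
        (∀ (c : K) u, g (c • u) = σ c • g u) ∧ Function.Bijective g ∧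
        (∀ u : G.U, α ((G.si G.e (u : V) : H) : H ⧸ Subgroup.center H) =
          ((G.si G.e (g u : V) : H) : H ⧸ Subgroup.center H)) ∧
        ∀ x v : G.U, G.qU x = 0 → pl G.qU x v = 0 →
          ∃ χ : K, ∀ u, G.qU (g (sie G.qU x v u)) = χ * G.qU (g u)

/-- **Bet.** An automorphism which is trivial on `R_e` and preserves `R_f` is trivial.

*Proof.*  (i) If `l ∈ P_f`, and `π(l') = β(π(l))`, and `l ∈ P_e`, then `β(π(l)) = π(l)`: for `r ∈ R_e`: `l r l⁻¹ ∈ R_e`, so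
`π(l r l⁻¹) = β(π(l r l⁻¹)) = π(l' r l'⁻¹)`, so `l r l⁻¹ = l' r l'⁻¹` (*Lft* (1)), `k = l⁻¹ l'` commutes with `R_e`; `k = r z`, `r = si e v`,
`v ∈ U`, `z` central (*Cen*, `mem_Re`).  `l' ∈ P_f` (*Lev*), so `k ∈ P_f`, and `z ∈ P_f` (*CenS*), so `r f ∈ K f`; `r f = f - v - q(v) e`, so `v = 0`,
`r = 1`, `π(l') = π(l)`.  (ii) As in *Sem* there is `h : U → U` additive with `β(π(si f u)) = π(si f (h u))` (`mem_Rf`, `si_f_inj`, *Lft* (1)).  For
`l = si x v`, `x, v ∈ U`: by (i) `β(π(l)) = π(l)`, and `l (si f u) l⁻¹ = si f (sie qU x v u)` (`cnj_f`), so `h` commutes with `sie qU x v`; by *Sca*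
`h u = c u`.  (iii) Let `w ∈ U`, `q(w) = 1` (`hyp`, `w = a + b`).  `n = si e w * si f w * si e w` maps `e` to `-f` (see *Tr*), so
`n R_e n⁻¹ = R_f`.  `β(π(n)) = π(n')`, `n' = si e w * si f (c w) * si e w`; for `r ∈ R_e` `n r n⁻¹ ∈ R_f`, so `π(n' r n'⁻¹) ∈ β(π(R_f)) = π(R_f)`
and `n' r n'⁻¹ ∈ R_f` (*Lft* (1)); `R_{n' e} ≤ R_f`, so `n' e ∈ K f` (*Fix* (3)).  `n' e = T_{e,w} T_{f,cw} e = T_{e,w} (e - c w - c² f) =
e - c (w + 2 e) - c² (f - w - e) = (1 - c)² e + (c² - c) w - c² f`.  So `c = 1`.  (iv) `β` fixes `π(si e u)` and `π(si f u)`, `u ∈ U`; `gen`.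
*Uses*: Lft, Lev, Cen, CenS, Fix, Sca. -/
def BetStmt : Prop :=
  ∀ (p : ℕ) [Fact p.Prime] (K V H : Type) [Field K] [Finite K] [CharP K p] [AddCommGroup V]
    [Module K V] [FiniteDimensional K V] [Group H] [Finite H] (G : SpD K V H), G.IsSp p →
    ∀ β : (H ⧸ Subgroup.center H) ≃* (H ⧸ Subgroup.center H),
      (∀ u ∈ G.U, β ((G.si G.e u : H) : H ⧸ Subgroup.center H) =
        ((G.si G.e u : H) : H ⧸ Subgroup.center H)) → G.Snd β G.f G.f → ∀ t, β t = t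

/-! ## Part 7.  The spin groups -/

/-- The data `G` describe the spin group of `D`. -/
structure IsRel {F : Type} [Field F] {s : ℕ} (D : Dat F (s + 1)) (G : SpD F D.V D.H) : Prop where
  q : ∀ v : D.V, G.q v = D.Q (v : Ix (s + 1) → F)
  pl : ∀ v w : D.V, pl G.q v w = D.B (v : Ix (s + 1) → F) (w : Ix (s + 1) → F)
  ac : ∀ (h : D.H) (v : D.V), ((h : GL (Lx (s + 1)) F) : Matrix (Lx (s + 1)) (Lx (s + 1)) F) *
    D.γ (v : Ix (s + 1) → F) = D.γ (G.ac h v : D.V) *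
      ((h : GL (Lx (s + 1)) F) : Matrix (Lx (s + 1)) (Lx (s + 1)) F)
  si : ∀ x v : D.V, G.q x = 0 → MP7Z.Ord.pl G.q x v = 0 →
    ((G.si x v : GL (Lx (s + 1)) F) : Matrix (Lx (s + 1)) (Lx (s + 1)) F) =
      1 + D.γ (x : Ix (s + 1) → F) * D.γ (v : Ix (s + 1) → F)
  e : ((G.e : D.V) : Ix (s + 1) → F) = bv F (ie (Fin.last s))
  f : ((G.f : D.V) : Ix (s + 1) → F) = bv F (jf (Fin.last s))

/-- **Frk.** The dimension of the quadratic space.

*Proof.*  `¬o`: `Vo = ⊤`, `card (Ix s) = 2 s + 2`.  `o`: `Vo` is the kernel of the nonzero functional `v ↦ v (iw 0)`. -/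
def FrkStmt : Prop :=
  ∀ (F : Type) [Field F] (s : ℕ) (o : Prop),
    (o → Module.finrank F (Vo o s F) = 2 * s + 1) ∧
    (¬ o → Module.finrank F (Vo o s F) = 2 * s + 2)

/-- **BrA.** Existence of `G`.

*Proof.*  `q`: `QuadraticMap.ofPolar` (or the like) for `v ↦ D.Q v` on `Ix (s+1) → F` (`Rel.lean`: `bf_add_left`, .., `qf_smul`, ..),
restricted to `D.V`.  `ac`: for `h ∈ D.H` and every `v` there is `v'` with `h γ(v) = γ(v') h` (`mem_SG`), unique (`Good.gv_inj`, `h` is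
invertible); if `o` and `v ∈ D.V` then `v' ∈ D.V`: `γ(v)` anticommutes with `w₀ = D.g (iw 0)` (`a = 0`, `v (iw 0) = 0`: see `gg_mem` in
`Grp.lean`), `h` commutes with `w₀`, so `γ(v')` anticommutes with `w₀`, so `bf v' (bv (iw 0)) = 2 v' (iw 0) = 0`.  `v ↦ v'` is linear and
multiplicative in `h` by uniqueness, so it is a homomorphism to the linear automorphisms.  `si x v`: if `D.Q x = 0` and `D.B x v = 0` the
element of `D.H` with the matrix `1 + γ(x) γ(v)` (inverse `1 - γ(x) γ(v)`; `Good.siegel`), else `1`. -/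
def BrAStmt : Prop :=
  ∀ (F : Type) [Field F] (s : ℕ) (D : Dat F (s + 1)), ∃ G : SpD F D.V D.H, IsRel D G

/-- **BrB.** The basic properties.

*Proof.*  Write `h` for the matrix of `h ∈ D.H`; elements of `D.H` with equal matrices are equal; `γ(v) = γ(v')` implies `v = v'`
(`Good.gv_inj`); `γ(v)² = Q(v)`, `γ(v) γ(w) + γ(w) γ(v) = B(v,w)` (`gv_sq`, `gv_anti`).  `nd`: `Good.nondeg_Vo`.  `iso`: square
`h γ(v) h⁻¹ = γ(h v)`.  `act`: `(1 + γ(x) γ(v)) γ(z) = γ(T_{x,v} z) (1 + γ(x) γ(v))`; see the lemma `key` in the proof of `Good.siegel`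
(with `c = 1`, `y = v`).  `mul`: `γ(x) γ(v) γ(x) γ(w) = -γ(x)² γ(v) γ(w) = 0`.  `sml`, `slf` (`γ(x)² = 0`): clear.  `cnj`: `h (1 + γ(x) γ(v)) h⁻¹ =
1 + γ(h x) γ(h v)`.  `ker`: `c² = 1` (`iso`, a vector with `q(v) ≠ 0`), so `h` commutes with all `γ(v) γ(w)`, `v, w ∈ D.V`, hence with the
algebra they generate, which contains the matrices of all elements of `D.H` (*SpnE*; `mem_SG`).  `qe, qf, ef`: `qf_ie`, .. .  `hyp`: the
vectors `bv (ie i)`, `bv (jf i)` for `i = 0, 1` (as elements of `Fin (s+1)` different from the last one, `2 ≤ s`) are in `D.V` and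
orthogonal to `e`, `f`.
*Uses*: `MP7Z.Ort.SpnEStmt`. -/
def BrBStmt : Prop :=
  ∀ (F : Type) [Field F] (s : ℕ) (D : Dat F (s + 1)) (G : SpD F D.V D.H), 2 ≤ s → IsRel D G →
    G.IsS0

/-- **BrC.** All properties.

*Proof.*  `gen`: by *GenO* every element of `D.H` is in the closure of the `1 + γ(e) γ(v)`, `1 + γ(f) γ(v)`, `v ∈ Vk D.o (s+1) F s`; such
`v` are the elements of `G.U`, and these matrices are the `si e v`, `si f v`; closure induction in `GL` for the predicate `u ∈ D.H` and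
the element of `D.H` is in the closure of the claim.  `ze`: let `z ∈ Z(D.H)`, `z v = c v`, `c² = 1` (*CenS*).  `z²` acts trivially on `D.V`: it
commutes with all `γ(v)`, `v ∈ D.V`, and with `w₀` if `o`, so with all `D.g i`; so it is a scalar `κ` (*Trf* (2)), and `rv(z²) z² = κ² = 1`.  So
`z⁴ = 1`.  If `p = 2`: `c = 1`, so already `z` commutes with all `D.g i`, `z = κ`, `κ² = 1`, `κ = 1`, `z = 1`: the centre is trivial.  If
`p ≠ 2`: if `p` divides the order of the centre there is an element of order `p` (`exists_prime_orderOf_dvd_card'`), but `z⁴ = 1`.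
(`CharP F p` for the given `p`.)
*Uses*: CenS, `MP7Z.Ort.GenOStmt`, `MP7Z.Ort.TrfStmt`. -/
def BrCStmt : Prop :=
  ∀ (p : ℕ) [Fact p.Prime] (F : Type) [Field F] [Finite F] [CharP F p] (s : ℕ)
    (D : Dat F (s + 1)) (G : SpD F D.V D.H), 2 ≤ s → IsRel D G → G.IsS0 → G.IsSp p

/-- **Asa.** The element of `A` defined by a semilinear similitude of `U`.

*Proof.*  For `v ∈ D.V`, `v = B(v,f) e + B(v,e) f + u` (`dec`), put `ĝ(v) = σ(B(v,f)) μ e + σ(B(v,e)) f + g(u)` (and `0` outside `D.V`).  It is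
additive, `σ`-semilinear, and `q(ĝ v) = μ σ(q(v))` (`q(v) = B(v,f) B(v,e) + q(u)`).  If `D.o`: `dim D.V = 2 (s+1) + 1` is odd (*Frk*) and `2 ≠ 0`,
so `μ = ν²` (*Mul*); put `g₁ = ν⁻¹ ĝ`, `μ₁ = 1`.  Otherwise `g₁ = ĝ`, `μ₁ = μ`.  `D.IsSemi σ μ₁ g₁`.  *Ext* and *ExA* give `x ∈ D.A p` with
`D.Ind p x σ μ₁ g₁`.  In both cases `x(γ(v) γ(w)) = μ⁻¹ γ(ĝ v) γ(ĝ w)`, so `x(1 + γ(e) γ(u)) = 1 + γ(e) γ(g u)` and
`x(1 + γ(f) γ(u)) = 1 + γ(f) γ(μ⁻¹ g u)` for `u ∈ U` (`ĝ e = μ e`, `ĝ f = f`).  By `MP7fW.cQ_mk'` `x` maps `π(si e u)` to `π(si e (g u))` and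
`π(si f u)` to `π(si f (μ⁻¹ g u))`; `g` is bijective, so `Snd` holds for `f` (`mem_Rf`).
*Uses*: Mul, Frk, `MP7Z.Ort.ExtStmt`, `MP7Z.Ort.ExAStmt`.  (`D.cq` is `MP7fW.cQ`, see `Ort/SpecB.lean`.) -/
def AsaStmt : Prop :=
  ∀ (p : ℕ) [Fact p.Prime] (F : Type) [Field F] [Finite F] [Algebra (ZMod p) F] (s : ℕ)
    (D : Dat F (s + 1)) (G : SpD F D.V D.H), IsRel D G → G.IsS0 →
    ∀ (hex : ∀ (x : D.A p) (h : D.H), ∃ h', D.inc p h' = D.r p x (D.inc p h))
      (σ : F ≃+* F) (μ : F) (g : G.U → G.U), μ ≠ 0 → (∀ u v, g (u + v) = g u + g v) →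
      (∀ (c : F) u, g (c • u) = σ c • g u) → Function.Bijective g →
      (∀ u, G.qU (g u) = μ * σ (G.qU u)) →
      ∃ x : D.A p, (∀ u : G.U, D.cq p hex x ((G.si G.e (u : D.V) : D.H) : D.SQ) =
          ((G.si G.e (g u : D.V) : D.H) : D.SQ)) ∧ G.Snd (D.cq p hex x) G.f G.f

/-- **OAut: the automorphism theorem.**

*Proof.*  `s = s' + 1`, `2 ≤ s'`.  *BrA*, *BrB*, *BrC*: `G`, `G.IsSp p` (`CharP F p` from `Algebra (ZMod p) F`: `charP_of_injective_algebraMap`).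
`dim D.V ≥ 7` (*Frk*); if it is `8` then `s = 3` and `o` is false, and a totally singular subspace of `D.V` has dimension at
most `3` (*Iso*, for its image in `Ix 3 → F`).  `D.H` is finite.  *SnF*: `h₀`, `α = φ` followed by conjugation with `π(h₀)`.  *Sem*: `σ, g`; *Sim*
(for `G.qU`, `ndU`, `hyp`): `μ`.  *Asa*: `x`.  `β = cq(x)⁻¹ ∘ α` satisfies the hypotheses of *Bet*: for `u ∈ U`: `α(π(si e u)) = π(si e (g u)) =
cq(x)(π(si e u))`; `Snd` for `f` from `Snd α f f` and `Snd (cq x) f f`.  So `α = cq(x)`.  *Adh* for `h₀⁻¹`: `y ∈ A` with `cq(y) t = π(h₀)⁻¹ t π(h₀)`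
(`MP7fW.cQ_mk'`), and `φ = cq(y x)`.
*Uses*: BrA, BrB, BrC, Frk, Iso, SnF, Sem, Sim, Asa, Bet, `MP7Z.Ort.AdhStmt`. -/
def OAutStmt : Prop :=
  ∀ (p : ℕ) [Fact p.Prime] (F : Type) [Field F] [Finite F] [Algebra (ZMod p) F] (s : ℕ)
    (D : Dat F s), 3 ≤ s → (s = 3 → ¬ D.o →
      ∀ z₀ z₁ : F, z₀ ^ 2 + D.a * z₀ * z₁ + D.b * z₁ ^ 2 = 0 → z₀ = 0 ∧ z₁ = 0) →
    ∀ (hex : ∀ (x : D.A p) (h : D.H), ∃ h', D.inc p h' = D.r p x (D.inc p h))
      (φ : MulAut D.SQ), ∃ x : D.A p, φ = D.cq p hex x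

end MP7Z.Ord
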