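import Pool.Agent.Lib.MP_7f581e_Z.Ort.SpecB
import Pool.Agent.Lib.MP_7f581e_Z.Ort.ODefs

/-!
# Orthogonal groups, part E: the isometry group, classification of the quadratic spaces

Each `def XStmt : Prop` is one Lean task: file `Ort/X.lean`, import only this file (and files named in the
task), `theorem MP7Z.Ort.tX : XStmt`; statements listed under *Uses* are hypotheses `(h : YStmt)`.

`(W, q)` is a quadratic space with a linear isomorphism `j : D.V ≃ₗ[F] W`, `q (j v) = Q(v)`; `O = isoGroup q`.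
-/

set_option autoImplicit false
set_option linter.unusedSectionVars false

namespace MP7Z.Ort

open TensorProduct MP7fS Matrix

/-- **Gru.** Group theory: quotients by the centre.

*Proof.*  `ρ` induces a surjection `ρ' : H → Ω = commutator O`.  If `ρ' h` is central in `Ω`, then for all `h'` the
commutator `[h, h']` is in `ker ρ ≤ Z(H)`; `h' ↦ [h, h']` is a homomorphism `H → Z(H)`, trivial because `H` is
perfect; so `h ∈ Z(H)`.  So the kernel of `H → Ω → Ω / Z(Ω)` is `Z(H)`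
(`QuotientGroup.quotientKerEquivOfSurjective`, `QuotientGroup.quotientMulEquivOfEq`). -/
def GruStmt : Prop :=
  ∀ (H O : Type) [Group H] [Group O] (ρ : H →* O), commutator H = ⊤ →
    (∀ h, ρ h = 1 → h ∈ Subgroup.center H) → ρ.range = commutator O →
    Nonempty ((commutator O ⧸ Subgroup.center (commutator O)) ≃* (H ⧸ Subgroup.center H))

/-- **Rho.** The action of the spin group on the quadratic space.

*Proof.*  Let `h ∈ D.H`, `v ∈ D.V`.  The third condition of `SG` (`mem_SG`) gives `v'` with `h γ(v) = γ(v') h`; `v'` is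
unique (`Good.gv_inj`, `h` is a unit).  `v' ∈ D.V`: if `o`, `w₀ = g (iw 0) = γ(bv (iw 0))` commutes with `h` and
anticommutes with `γ(v)` (`gv_anti`, `B(w₀, v) = 2 v (iw 0) = 0`, as `a = 0`), so it anticommutes with `γ(v')`,
`B(w₀, v') = 2 v' (iw 0) = 0` (`smul_one_inj`), `2` is a unit.  `Q(v') = Q(v)`: squares (`gv_sq`).  The map
`R h : v ↦ v'` is linear, `R (h h') = R h ∘ R h'`, `R 1 = id`; so it is a linear equivalence (inverse `R h⁻¹`), and
`ρ h = j ∘ R h ∘ j⁻¹` is in `isoGroup q`. -/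
def RhoStmt : Prop :=
  ∀ (F : Type) [Field F] (s : ℕ) (D : Dat F s) (W : Type) [AddCommGroup W] [Module F W]
    (q : QuadraticForm F W) (j : D.V ≃ₗ[F] W), (∀ v : D.V, q (j v) = D.Q v) →
    ∃ ρ : D.H →* isoGroup q, ∀ (h : D.H) (v : D.V),
      ((h : GL (Lx s) F) : Matrix (Lx s) (Lx s) F) * D.γ v =
        D.γ (j.symm ((ρ h : W ≃ₗ[F] W) (j v))) * ((h : GL (Lx s) F) : Matrix (Lx s) (Lx s) F)

/-- **Gex.** Extension of isometries of `D.V` to the space of all vectors.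

*Proof.*  If `o` is false: every vector is in `D.V`; `G v = j⁻¹ (x (j v))`.  If `o` is true: `v = (v - v (iw 0) • w₀) +
v (iw 0) • w₀`, `w₀ = bv F (iw 0)`, the first summand is in `D.V`; `G v = j⁻¹ x j (v - v (iw 0) • w₀) + v (iw 0) • w₀`.
For `u ∈ D.V`: `Q(u + c • w₀) = Q(u) + c²` (`a = 0`, `u (iw 0) = 0`), so `Q(G v) = Q(v)`.  The same construction for
`x⁻¹` gives the inverse map. -/
def GexStmt : Prop :=
  ∀ (F : Type) [Field F] (s : ℕ) (D : Dat F s) (W : Type) [AddCommGroup W] [Module F W]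
    (q : QuadraticForm F W) (j : D.V ≃ₗ[F] W), (∀ v : D.V, q (j v) = D.Q v) →
    ∀ x ∈ isoGroup q, ∃ G : (Ix s → F) ≃ₗ[F] (Ix s → F), (∀ v, D.Q (G v) = D.Q v) ∧
      (∀ v : D.V, G v = j.symm (x (j v))) ∧ (D.o → G (bv F (iw 0)) = bv F (iw 0))

/-- **Tgg.** Isometries are given by conjugation in the Clifford algebra.

*Proof.*  `x i = γ(G (bv F i))`; for `v : Ix s → F`: `gv x v = γ(G v)` (linearity, `sum_bv`), its square is
`Q(G v) = Q(v)` (`gv_sq`), so `x` is a frame for `a, b` (`IsFrame.of_sq`).  *Trf* (1): `t (g i) = x i t`, so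
`t γ(v) = γ(G v) t` for all `v`.
*Uses*: Trf. -/
def TggStmt : Prop :=
  ∀ (F : Type) [Field F] (s : ℕ) (D : Dat F s) (G : (Ix s → F) ≃ₗ[F] (Ix s → F)),
    (∀ v, D.Q (G v) = D.Q v) → ∃ t : GL (Lx s) F, ∀ v : Ix s → F,
      (t : Matrix (Lx s) (Lx s) F) * D.γ v = D.γ (G v) * (t : Matrix (Lx s) (Lx s) F)

/-- **Zaa.** Action of an element normalizing the vectors on `ζ`.

*Proof.*  `Z = t ζ t⁻¹`.  Let `v' = G⁻¹ (bv K i)`, `g i = γ(bv i) = t γ(v') t⁻¹`.  `ζ` commutes with `γ(v) γ(w)` (`zt_gv`: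
`ζ γ(v) = γ(v)(a - ζ)`), so `Z` commutes with all `g i * g j`, and `Z = κ + m ζ` (*Cen*).  `Z g_i = t ζ γ(v') t⁻¹ =
t γ(v')(a - ζ) t⁻¹ = g_i (a - Z)`; for `i = iw 0` (`g_i` is invertible, its square is `1`):
`Z g_i = g_i (κ + m (a - ζ))`, so `κ + m a - m ζ = a - κ - m ζ`, `(2 κ + m a - a) • 1 = 0` (`smul_one_inj`, `l`
is nonempty).
*Uses*: Cen. -/
def ZaaStmt : Prop :=
  ∀ (K : Type) [Field K] (l : Type) [Fintype l] [DecidableEq l] (a b : K) (s : ℕ)
    (g : Ix s → Matrix l l K) (P : GL l K) (o : Prop), Good a b g P o →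
    ∀ (t : GL l K) (G : (Ix s → K) ≃ₗ[K] (Ix s → K)),
    (∀ v, (t : Matrix l l K) * gv g v = gv g (G v) * (t : Matrix l l K)) →
    ∃ κ m : K, 2 * κ = a * (1 - m) ∧
      (t : Matrix l l K) * zt a s g = (κ • 1 + m • zt a s g) * (t : Matrix l l K)

/-- **Cmm.** Commutators of elements normalizing the vectors are in the spin group.

*Proof.*  (1) `ζ`.  For `r = t⁻¹`, `r' = t'⁻¹` (with `G⁻¹`, `G'⁻¹`) *Zaa* gives `κ, m`, `κ', m'`.
`(r r') ζ = (κ' + m' κ + m' m ζ) (r r')` and `(r' r) ζ = (κ + m κ' + m m' ζ) (r' r)`; `κ' + m' κ = κ + m κ'`: i.e.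
`κ' (1 - m) = κ (1 - m')`; if `2 ≠ 0` multiply by `2`; if `2 = 0` then `a ≠ 0` (`a² - 4b ≠ 0`), `0 = a (1 - m)`, so
`m = 1 = m'`.  So `(r r') ζ (r r')⁻¹ = (r' r) ζ (r' r)⁻¹`, and `c = t t' t⁻¹ t'⁻¹ = (r' r)⁻¹ (r r')` commutes with `ζ`.
(2) norm: `t γ(v) = γ(G v) t`; apply `rv` (`rv` fixes the `g_i`, so the `γ(v)`): `γ(v) rv(t) = rv(t) γ(G v)`; so `rv(t) t`
commutes with all `γ(v)`, `rv(t) t = ν • 1` (*Trf* (2)), `ν ≠ 0`.  So `rv(t) = ν t⁻¹`, `rv(t⁻¹) = ν⁻¹ t` (`rv(t) rv(t⁻¹)`...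
`rv (t⁻¹) rv(t) = rv(t t⁻¹) = 1`); the same for `t'`.  `rv(c) = rv(t'⁻¹) rv(t⁻¹) rv(t') rv(t) = t' t t'⁻¹ t⁻¹ = c⁻¹`.
(3) `c γ(v) = γ((G G' G⁻¹ G'⁻¹) v) c` and `γ(v) c = c γ((G G' G⁻¹ G'⁻¹)⁻¹ v)`.  (4) `c w₀ = w₀ c` if `o`.
*Uses*: Zaa, Trf. -/
def CmmStmt : Prop :=
  ∀ (K : Type) [Field K] (l : Type) [Fintype l] [DecidableEq l] (a b : K) (s : ℕ)
    (g : Ix s → Matrix l l K) (P : GL l K) (o : Prop), Good a b g P o →
    ∀ (t t' : GL l K) (G G' : (Ix s → K) ≃ₗ[K] (Ix s → K)),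
    (∀ v, (t : Matrix l l K) * gv g v = gv g (G v) * (t : Matrix l l K)) →
    (∀ v, (t' : Matrix l l K) * gv g v = gv g (G' v) * (t' : Matrix l l K)) →
    (o → G (bv K (iw 0)) = bv K (iw 0)) → (o → G' (bv K (iw 0)) = bv K (iw 0)) →
    t * t' * t⁻¹ * t'⁻¹ ∈ SG a g P o

/-- **OmS.** The group `POm q` is the quotient of the spin group by its centre.

*Proof.*  `ρ` from *Rho*.  *Gru* for `ρ`: (1) `H` is perfect (*Prf*).  (2) if `ρ h = 1` then `h` commutes with `γ(v)`,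
`v ∈ D.V` (*Rho*), and with `w₀` if `o`; so with all `g i` (`gv_bv`; `bv F i ∈ D.V` for `i ≠ iw 0` and for all `i` if
`o` is false), so it is a scalar (*Trf* (2)), hence in the centre.  (3) `range ρ ≤ commutator O`: `ρ` maps
`commutator H = ⊤` into `commutator O` (`Subgroup.map_commutator` or `commutator_def`, `Subgroup.commutator_mono`).
`commutator O ≤ range ρ`: it is generated by `⁅x, x'⁆`, `x, x' ∈ O` (`Subgroup.commutator_le`).  *Gex*: `G, G'`; *Tgg*: `t, t'`;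
*Cmm*: `c = t t' t⁻¹ t'⁻¹ ∈ D.H`; `c γ(v) = γ(G G' G⁻¹ G'⁻¹ v) c`, and for `v ∈ D.V` `G G' G⁻¹ G'⁻¹ v = j⁻¹ (⁅x, x'⁆ (j v))`
(`G⁻¹ v = j⁻¹ (x⁻¹ (j v))` for `v ∈ D.V`: apply `G`).  By *Rho* and `Good.gv_inj` (`c` is a unit) `ρ c = ⁅x, x'⁆`.
*Uses*: Gru, Rho, Gex, Tgg, Cmm, Prf, Trf. -/
def OmSStmt : Prop :=
  ∀ (F : Type) [Field F] (s : ℕ) (D : Dat F (s + 2)) (W : Type) [AddCommGroup W] [Module F W]
    (q : QuadraticForm F W) (j : D.V ≃ₗ[F] W), (∀ v : D.V, q (j v) = D.Q v) →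
    Nonempty (POm q ≃* D.SQ)

/-- **Odd.** There are no nondegenerate quadratic forms of odd dimension in characteristic two.

*Proof.*  Induction on `s`.  `s = 0`: `finrank = 1`: a nonzero vector `x`; every `y` is `c • x`, `polar q x (c • x) =
c * (2 q(x))` (`QuadraticMap.polar_self`, `polar_smul_right`); not all are zero, so `2 ≠ 0`.  Step: `finrank ≥ 3`, *Che* (1)
gives `x ≠ 0`, `q x = 0`; *Hyp* with the proposition `False` gives `U` with `finrank U = 2 s + 1`, and the restriction of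
`q` to `U` (`q.comp U.subtype` or `q.restrict`) has a nondegenerate polar form.
*Uses*: Che, Hyp. -/
def OddStmt : Prop :=
  ∀ (F : Type) [Field F] [Finite F] (s : ℕ) (W : Type) [AddCommGroup W] [Module F W]
    [FiniteDimensional F W] (q : QuadraticForm F W),
    (∀ x, (∀ y, QuadraticMap.polar q x y = 0) → x = 0) → Module.finrank F W = 2 * s + 1 →
    (2 : F) ≠ 0

/-- **ClE.** Quadratic spaces of even dimension.

*Proof.*  *Cls* with the proposition `False` (and `w = 0`) gives `a', b', x`; *Exi* gives `D` with `D.a = a'`, `D.b = b'`, `D.o`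
false; `subst`.  `D.V` is everything (`mem_Vo`).  The linear map `J : v ↦ Σ v_i • x_i` satisfies `q (J v) = Q(v)`; it is
injective: if `J v = 0` then `Q(v + w) = Q(w)` for all `w`, `Q(v) = 0`, so `B(v, w) = 0` for all `w` (`qf_add`), `v = 0`
(`nondeg` in `Grp.lean`); the dimensions are equal (`card (Ix s) = 2 s + 2`), so it is bijective
(`LinearEquiv.ofInjective...`/`LinearMap.linearEquivOfInjective`).
*Uses*: Cls, Exi. -/
def ClEStmt : Prop :=
  ∀ (F : Type) [Field F] [Finite F] (s : ℕ) (W : Type) [AddCommGroup W] [Module F W]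
    [FiniteDimensional F W] (q : QuadraticForm F W),
    (∀ x, (∀ y, QuadraticMap.polar q x y = 0) → x = 0) → Module.finrank F W = 2 * s + 2 →
    ∃ (D : Dat F s) (j : D.V ≃ₗ[F] W), ¬ D.o ∧ ∀ v : D.V, q (j v) = D.Q v

/-- **ClO.** Quadratic spaces of odd dimension.

*Proof.*  `2 ≠ 0` by *Odd*.  `W' = W × F`, `q' (x, c) = q x + c²` (`QuadraticMap.prod q QuadraticMap.sq` or by hand), `w = (0, 1)`,
`q' w = 1`; `polar q' (x, c) (y, d) = polar q x y + 2 c d`, nondegenerate.  `finrank W' = 2 s + 2`.  *Cls* with the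
proposition `True` and `w`: `a' = 0`, `b'`, `x : Ix s → W'`, `x (iw 0) = w`, `q' (Σ v_i x_i) = qf 0 b' v`.  *Exi* (for `a = 0`,
`b'`, `True`): `D`.  For `v ∈ D.V` (i.e. `v (iw 0) = 0`) let `J v = Σ v_i • x_i`: `polar q' w (J v) = B(w₀, v) = 2 v (iw 0) +
a v (iw 1) = 0` (`polar q' (J v) (J w) = bf a' b' v w` from `qf_add`), so the second component of `J v` is `0`
(`polar q' (0,1) (y,d) = 2 d`), and `q ((J v).1) = q' (J v) = Q(v)`.  `j v = (J v).1` is linear, injective (if `(J v).1 = 0`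
then `J v = 0`; as in *ClE* for `J` on all vectors), and `finrank D.V = 2 s + 1` (the kernel of the functional
`v ↦ v (iw 0)`; `D.V = ker`, `LinearMap.finrank_range_add_finrank_ker`), so it is bijective; or surjectivity
directly: `J` is bijective, `(y, 0) = J v`, and `2 v (iw 0) = polar q' w (J v) = 0`.
*Uses*: Odd, Cls, Exi. -/
def ClOStmt : Prop :=
  ∀ (F : Type) [Field F] [Finite F] (s : ℕ) (W : Type) [AddCommGroup W] [Module F W]
    [FiniteDimensional F W] (q : QuadraticForm F W),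
    (∀ x, (∀ y, QuadraticMap.polar q x y = 0) → x = 0) → Module.finrank F W = 2 * s + 1 →
    ∃ (D : Dat F s) (j : D.V ≃ₗ[F] W), D.o ∧ ∀ v : D.V, q (j v) = D.Q v

/-- **An8.** Eight-dimensional spaces without totally singular subspaces of dimension four.

*Proof.*  Suppose `z₀² + a z₀ z₁ + b z₁² = 0`, not both zero.  The vectors `e_i = bv F (ie i)`, `i : Fin 3`, and
`u = z₀ • bv F (iw 0) + z₁ • bv F (iw 1)` of `D.V` (`o` is false) are linearly independent; a combination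
`v = Σ c_i e_i + c u` has `v (ie i) = c_i`, `v (jf i) = 0`, `v (iw 0) = c z₀`, `v (iw 1) = c z₁`, so `Q(v) = c² (z₀² + a z₀ z₁ +
b z₁²) = 0`.  `U` = image under `j` of their span (`finrank_span_eq_card`), of dimension `4`, or: the image of the
injective linear map `(Fin 3 ⊕ Unit → F) → D.V → W`. -/
def An8Stmt : Prop :=
  ∀ (F : Type) [Field F] (D : Dat F 3) (W : Type) [AddCommGroup W] [Module F W]
    (q : QuadraticForm F W) (j : D.V ≃ₗ[F] W), (∀ v : D.V, q (j v) = D.Q v) → ¬ D.o →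
    (¬ ∃ U : Submodule F W, Module.finrank F U = 4 ∧ ∀ x ∈ U, q x = 0) →
    ∀ z₀ z₁ : F, z₀ ^ 2 + D.a * z₀ * z₁ + D.b * z₁ ^ 2 = 0 → z₀ = 0 ∧ z₁ = 0

end MP7Z.Ort
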