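import Pool.Agent.Lib.MP_7f581e_Z.Ort.FDefs

/-!
# Orthogonal groups: the functor, generic part (specification)

Each `def XStmt : Prop` is one Lean task: file `Ort/X.lean`, import this file (and files named in
the task), `theorem tX : XStmt`; statements listed under *Uses* are hypotheses `(h : YStmt)`.

The statements are the versions *with parameters*, for a centralizer `B₀` (`IsCen B₀ Zs`), of
statements of `Types/SpecA.lean`, which are proved in the files of `Types/` named as *Model*: copy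
the file and adapt it.  The differences: `cmp` becomes `cB`, `co` becomes `coB`, `S T` becomes
`S T c` with the parameters `c : F →+* T` (for `T = R ⊗ F`: `incF R`; for the coordinate `j`:
`twj τ j`), and all matrices commute with the elements of `Zs` (`PFunc.cent`).  The statements
`THbStmt`, `EvjStmt` are theorems (`tyTHb` in `Types/THb.lean`, `tyEvj` in `Types/Evj.lean`): import
them.  `d = finrank (ZMod p) F`.
-/

set_option autoImplicit false

namespace MP7Z.Orf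

open TensorProduct MP7fS MP7fU Matrix

/-- **TBb.** The components give a bijection onto the families of matrices which commute with `Zs`.

*Proof.*  `TB R = TH R ∘ inR R`, and `TH R` is bijective (`tyTHb`).  `inR R = id ⊗ inB` is injective,
because `inB` is injective and `R` is flat over the field `ZMod p`
(`Module.Flat.lTensor_preserves_injective_linearMap`).  Image: let `w` be given and
`x ∈ R ⊗ (ι → Matrix l l F)` with `TH R x = w`.  Choose a basis `r_β` of `R` over `ZMod p`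
(`Module.Free.chooseBasis`); `x = Σ_β r_β ⊗ x_β`, a finite sum with `x_β : ι → Matrix l l F`, and such
expressions in `R ⊗ N` are unique (`TensorProduct.equivFinsuppOfBasisLeft`).  For `z ∈ Zs` and
`ζ' = z.map (incF R)`: `(TH R x i) ζ' - ζ' (TH R x i) = Σ_β (r_β ⊗ y_β)` entrywise, where
`y_β = x_β i * z - z * x_β i` (by `TH_tmul`; the entry `(a, c)` is `Σ_β r_β ⊗ (y_β a c) ∈ R ⊗ F`).  It
is zero by hypothesis, so all `y_β a c = 0` by the uniqueness in `R ⊗ F`, that is `x_β i ∈ B₀`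
(`IsCen`).  So `x = inR R (Σ_β r_β ⊗ x_β)`.  Converse (not needed here): clear.
*Uses*: `tyTHb`. -/
def TBbStmt : Prop :=
  ∀ (p : ℕ) [Fact p.Prime] (F l : Type) [Field F] [Finite F] [Fintype l] [DecidableEq l]
    [Algebra (ZMod p) F] (B₀ : Subalgebra (ZMod p) (Matrix l l F)) (Zs : Set (Matrix l l F))
    (_ : IsCen B₀ Zs) (ι : Type) [Finite ι] (R : Type) [CommRing R] [Algebra (ZMod p) R],
    Function.Injective (TB B₀ ι R) ∧
    ∀ w : ι → Matrix l l (R ⊗[ZMod p] F),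
      (∀ i, ∀ z ∈ Zs, w i * z.map (incF (p := p) R) = z.map (incF (p := p) R) * w i) →
      ∃ u, TB B₀ ι R u = w

/-- **CoB.** Coordinates of the units of `k ⊗ (ι → B₀)`, `τ : F → k`.

*Proof.*  (1), (2), (4): from *Evj* (1), (2), (3) applied to the entries (`cB_tu` for (2);
`cB k i (cstu b)` has the entries `1 ⊗ (b i a c)`, `TB_tmul`).  (7): `cB k i u` commutes with
`z.map (incF k)`, `z ∈ Zs`: on pure tensors `TB k (r ⊗ y) i` commutes with `z.map (incF k)` because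
`y i` commutes with `z` (`IsCen`), and the set of the `x` with this property is additive; apply
`evj τ j` and *Evj* (3) (`(evj τ j) ∘ incF = twj τ j`).  (6): the entries of `TB k z i` are
determined by the `evj τ j`, `j < d` (*Evj* (5)), and `TB k` is injective (*TBb*).  (3) uniqueness:
(6).  Existence: the ring homomorphism `(evj τ j)_{j<d} : k ⊗ F → (Fin d → k)` is bijective (*Evj* (5)),
so there are matrices `W i`, `W' i` over `k ⊗ F` with `(W i).map (evj τ j) = w i j`,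
`(W' i).map (evj τ j) = (w i j)⁻¹`; by injectivity `W i * W' i = 1 = W' i * W i`, and both commute with
`z.map (incF k)` (compare the images under all `evj τ j`).  By *TBb* there are `x`, `x'` with
`TB k x = W`, `TB k x' = W'`, and `x x' = 1 = x' x` by injectivity.  (5) `PFunc.inj` with the family
`evj τ j`, `j : Fin d` (jointly injective by *Evj* (5)), and `PFunc.map`; `(evj τ j) ∘ incF = twj τ j`.
*Model*: `Types/Co.lean`. *Uses*: TBb; `tyTHb`, `tyEvj`. -/
def CoBStmt : Prop :=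
  ∀ (p : ℕ) [Fact p.Prime] (F l : Type) [Field F] [Finite F] [Fintype l] [DecidableEq l]
    [Algebra (ZMod p) F] (B₀ : Subalgebra (ZMod p) (Matrix l l F)) (Zs : Set (Matrix l l F))
    (_ : IsCen B₀ Zs) (ι : Type) [Finite ι]
    (k : Type) [Field k] [Algebra (ZMod p) k] [CharP k p] (τ : F →+* k),
    (∀ (u : (k ⊗[ZMod p] (ι → B₀))ˣ) (i : ι) (j : ℕ),
      coB B₀ ι τ i (j + Module.finrank (ZMod p) F) u = coB B₀ ι τ i j u) ∧
    (∀ (u : (k ⊗[ZMod p] (ι → B₀))ˣ) (i : ι) (j m : ℕ),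
      coB B₀ ι τ i (j + m) (fru m k u) =
        GeneralLinearGroup.map (iterateFrobenius k p m) (coB B₀ ι τ i j u)) ∧
    (∀ w : ι → Fin (Module.finrank (ZMod p) F) → GL l k,
      (∀ i (j : Fin (Module.finrank (ZMod p) F)), ∀ z ∈ Zs,
        (w i j : Matrix l l k) * z.map (twj (p := p) τ j) =
          z.map (twj (p := p) τ j) * (w i j : Matrix l l k)) →
      ∃! u : (k ⊗[ZMod p] (ι → B₀))ˣ, ∀ i (j : Fin (Module.finrank (ZMod p) F)),
        coB B₀ ι τ i j u = w i j) ∧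
    (∀ (b : (ι → B₀)ˣ) (i : ι) (j : ℕ),
      ((coB B₀ ι τ i j (cstu k b) : GL l k) : Matrix l l k) =
        ((b : ι → B₀) i : Matrix l l F).map (twj (p := p) τ j)) ∧
    (∀ (S : PFam F l) (hS : PFunc Zs S) (u : (k ⊗[ZMod p] (ι → B₀))ˣ),
      u ∈ (GP B₀ ι S hS).H k ↔
        ∀ i (j : Fin (Module.finrank (ZMod p) F)), coB B₀ ι τ i j u ∈ S k (twj (p := p) τ j)) ∧
    (∀ z z' : k ⊗[ZMod p] (ι → B₀),
      (∀ i (j : Fin (Module.finrank (ZMod p) F)), (TB B₀ ι k z i).map (evj (p := p) τ j) =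
        (TB B₀ ι k z' i).map (evj (p := p) τ j)) → z = z') ∧
    (∀ (u : (k ⊗[ZMod p] (ι → B₀))ˣ) (i : ι) (j : ℕ), ∀ z ∈ Zs,
      (coB B₀ ι τ i j u : Matrix l l k) * z.map (twj (p := p) τ j) =
        z.map (twj (p := p) τ j) * (coB B₀ ι τ i j u : Matrix l l k))

/-- **L1B.** Lang's theorem.

*Proof.*  `k` separably closed; `F` is finite, so separable over `ZMod p`: there is `τ : F → k`
(`IsSepClosed.lift`).  Let `g ∈ H(k)`, `g_{i,j} = coB τ i j g ∈ S k (twj τ j)` for all `j : ℕ` (`PFunc.map`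
for `evj τ j`).  Fix `i`.  Let `φ` be the Frobenius of `k`; `φ ∘ twj τ j = twj τ (j + 1)`,
`twj τ (j + d) = twj τ j`.  Put `h_0 = 1`, `h_{j+1} = g_{i,j+1}⁻¹ φ(h_j)`: `h_j ∈ S k (twj τ j)`
(`PFunc.map` for `φ`).  By `LangP` for `c = twj τ 0`, `m = d > 0` (`τ(x)^{p^d} = τ(x)`) and the element
`h_d⁻¹ ∈ S k (twj τ d) = S k (twj τ 0)` there is `y_0 ∈ S k (twj τ 0)` with `φ^d(y_0) = h_d⁻¹ y_0`.  Put
`y_j = h_j φ^j(y_0) ∈ S k (twj τ j)`: `y_{j+1} = g_{i,j+1}⁻¹ φ(y_j)`, `y_d = y_0`.  By *CoB* (3) (the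
`y_{i,j}` commute with `z.map (twj τ j)`: `PFunc.cent`) there is `y` with `coB τ i j y = y_{i,j}` for all
`i` and `j < d`; `y ∈ H(k)` by *CoB* (5).  `F y = g y`: by uniqueness in *CoB* (3) (the coordinates
commute with `Zs` by *CoB* (7)) it is enough to compare `coB τ i j'` for `j' = 1, .., d` (`j' = d` has
the same value as `0` by *CoB* (1)): `coB τ i (j+1) (F y) = φ(coB τ i j y) = φ(y_j) = g_{i,j+1} y_{j+1}`,
and for `j + 1 < d` this is `coB τ i (j+1) (g y)`; for `j + 1 = d` it is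
`g_{i,d} y_0 = coB τ i d (g y)`.
*Model*: `Types/L1II.lean`. *Uses*: CoB. -/
def L1BStmt : Prop :=
  ∀ (p : ℕ) [Fact p.Prime] (F l : Type) [Field F] [Finite F] [Fintype l] [DecidableEq l]
    [Algebra (ZMod p) F] (B₀ : Subalgebra (ZMod p) (Matrix l l F)) (Zs : Set (Matrix l l F))
    (_ : IsCen B₀ Zs) (ι : Type) [Finite ι] (S : PFam F l) (hS : PFunc Zs S), LangP p S →
    (GP B₀ ι S hS).Lang1

/-- **LMB.** Lang's theorem for the powers of the Frobenius, `m₀ = d`.

*Proof.*  `τ : F → k` (`IsSepClosed.lift`).  Let `d ∣ m`, `c ∈ pts`, `c' = cstu k c ∈ H(k)`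
(`(GP ..).map` for `algebraMap (ZMod p) k`).  For all `i`, `j < d` the parameters `twj τ j` are fixed by
`φ^m` (`d ∣ m`), and `coB τ i j c' ∈ S k (twj τ j)`; take `x ∈ S k (twj τ j)` with
`φ^m(x) = (coB τ i j c')⁻¹ x` (`LangP`), and `y_{i,j} = x⁻¹`: `φ^m(y_{i,j}) = y_{i,j} coB τ i j c'`.  Let
`y` have these coordinates (*CoB* (3), `PFunc.cent`), `y ∈ H(k)` (*CoB* (5)).
`coB τ i j (fru m y) = φ^m(coB τ i j y)` because `coB τ i (j + m) = coB τ i j` for `d ∣ m` (*CoB* (1), (2)).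
So `fru m k y = y c'` by uniqueness (*CoB* (3), (7)).
*Model*: `Types/LMII.lean`. *Uses*: CoB. -/
def LMBStmt : Prop :=
  ∀ (p : ℕ) [Fact p.Prime] (F l : Type) [Field F] [Finite F] [Fintype l] [DecidableEq l]
    [Algebra (ZMod p) F] (B₀ : Subalgebra (ZMod p) (Matrix l l F)) (Zs : Set (Matrix l l F))
    (_ : IsCen B₀ Zs) (ι : Type) [Finite ι] (S : PFam F l) (hS : PFunc Zs S), LangP p S →
    (GP B₀ ι S hS).LangM (Module.finrank (ZMod p) F)

/-- **GnB.** Generation, `m₀ = d`.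

*Proof.*  `τ : F → k`, `d ∣ m`, `x ∈ H(k)`, `fru m k x = x`.  Let `K` be the closure in the claim.
(1) Let `k_m = {c ∈ k : c ^ (p ^ m) = c}`, a finite subfield.  `twj τ j` has values in `k_m`
(`d ∣ m`): `twj τ j = incl ∘ c_j`, `c_j : F → k_m`.  The entries of `x_{i,j} = coB τ i j x` are in `k_m`
(*CoB* (1), (2)), so `x_{i,j} = GL.map incl x'`, and `x' ∈ S k_m c_j` by `PFunc.inj` for `incl`.  By
`GenP` `x'` is in the closure of the `w'` with `(w' - 1)^2 = 0`, `w' - 1 ∈ ZM (N b) k_m c_j`.  So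
`x_{i,j}` is in the subgroup `C_j` of `GL_l(k)` generated by the set `W_j` of the `w` with `w^{(p^m)} = w`,
`(w-1)^2 = 0`, `w - 1 ∈ ZM (N b) k (twj τ j)` for some `b`.  All elements of `W_j`, hence of `C_j`,
commute with the `z.map (twj τ j)`, `z ∈ Zs` (hypothesis on `N`; span induction).  (2) For `i₀ : ι`,
`j₀ < d` and `w ∈ C_{j₀}` let `e(w)` be the unit with the coordinates `w` at `(i₀,j₀)` and `1` elsewhere
(*CoB* (3)).  `e(w w') = e(w) e(w')`, `e(w⁻¹) = e(w)⁻¹` (uniqueness).  If `e(w) ∈ K` for all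
`w ∈ W_{j₀}` then `e(w) ∈ K` for all `w ∈ C_{j₀}` (closure induction).  `x` is the product of the
`e(x_{i,j})` over all `(i,j)` (uniqueness in *CoB* (3)), so `x ∈ K`; more precisely the set of the
families `w : ι × Fin d → GL_l(k)` whose components commute with `Zs` and which are coordinates of
elements of `K` is a subgroup of `ι × Fin d → GL_l(k)`, use `Subgroup.pi_mem_of_mulSingle_mem` as in
the model.  (3) Let `w ∈ W_{j₀}`, `u = e(w)`.  `fru m u = u`, `(u - 1)^2 = 0` by coordinates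
(*CoB* (1), (2), (6)).  `u - 1 ∈ (ZB b).baseChange k`: let `ε ∈ k ⊗ F` with `evj τ j ε = 1` for
`j = j₀`, `0` for the other `j < d` (*Evj* (5)); `ε = Σ_a r_a ⊗ c_a`.  For `M ∈ N b` (it commutes with
`Zs`, so it is an element of `B₀`, and so is `c_a • M`) and `t ∈ k` the element
`Σ_a (t r_a) ⊗ Pi.single i₀ (c_a • M)` is in `(ZB b).baseChange k` (`Submodule.tmul_mem_baseChange_of_mem`,
`mem_ZB`) and its image under `(TB · i).map (evj τ j)` is `t M^{(twj τ j₀)}` for `(i,j) = (i₀,j₀)` and `0`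
otherwise: `evj τ j (t r_a ⊗ c_a m) = t (evj τ j (r_a ⊗ c_a)) (twj τ j m)`.  `w - 1 = Σ t_M M^{(twj τ j₀)}`, so
`u - 1` is the sum of these elements by *CoB* (6).
*Model*: `Types/GII.lean`. *Uses*: CoB; `tyEvj`. -/
def GnBStmt : Prop :=
  ∀ (p : ℕ) [Fact p.Prime] (F l : Type) [Field F] [Finite F] [Fintype l] [DecidableEq l]
    [Algebra (ZMod p) F] (B₀ : Subalgebra (ZMod p) (Matrix l l F)) (Zs : Set (Matrix l l F))
    (_ : IsCen B₀ Zs) (ι : Type) [Finite ι] (S : PFam F l) (hS : PFunc Zs S)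
    (N : Bool → Set (Matrix l l F)), (∀ b, ∀ M ∈ N b, ∀ z ∈ Zs, M * z = z * M) →
    GenP S N → (GP B₀ ι S hS).Gen (Module.finrank (ZMod p) F) (ZB B₀ ι N)

/-- **ZTB.** Components of elements of `R ⊗ ZB`.

*Proof.*  `Submodule.baseChange` is spanned by the `1 ⊗ z`, `z ∈ ZB b`; `TB R (r ⊗ z) i` has the entries
`r ⊗ (z i a c)`; `z i = Σ c_M M` with `c_M ∈ F`, `M ∈ N b` (span induction), and
`TB R (r ⊗ z) i = Σ (r ⊗ c_M) • M.map (incF R)`.
*Model*: `Types/ZTH.lean`. -/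
def ZTBStmt : Prop :=
  ∀ (p : ℕ) [Fact p.Prime] (F l : Type) [Field F] [Finite F] [Fintype l] [DecidableEq l]
    [Algebra (ZMod p) F] (B₀ : Subalgebra (ZMod p) (Matrix l l F)) (ι : Type) [Finite ι]
    (N : Bool → Set (Matrix l l F)) (b : Bool) (R : Type) [CommRing R] [Algebra (ZMod p) R]
    (z : R ⊗[ZMod p] (ι → B₀)), z ∈ (ZB B₀ ι N b).baseChange R →
    ∀ i, TB B₀ ι R z i ∈ ZM (N b) (R ⊗[ZMod p] F) (incF (p := p) R)

/-- **PrB.** Parametrization.

*Proof.*  `z ∈ (ZB b).baseChange R`: by *ZTB* and `SqP` all components have square zero, so `z z = 0`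
(*TBb*, injectivity of the ring homomorphism `TB`).  `g = 1 + z` is a unit with inverse `1 - z`.  Its
components are `1 + TB R z i`, in `S (R ⊗ F) (incF R)` by `SqP`.  Invariance:
`tmap (a q) (ρ q) (1 + z) = 1 + z`.  Last claim: `tmap π id (1 + z) = 1 + tmap π id z`.
*Model*: `Types/PII.lean`. *Uses*: TBb, ZTB. -/
def PrBStmt : Prop :=
  ∀ (p : ℕ) [Fact p.Prime] (F l : Type) [Field F] [Finite F] [Fintype l] [DecidableEq l]
    [Algebra (ZMod p) F] (B₀ : Subalgebra (ZMod p) (Matrix l l F)) (Zs : Set (Matrix l l F))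
    (_ : IsCen B₀ Zs) (ι : Type) [Finite ι] (S : PFam F l) (hS : PFunc Zs S)
    (N : Bool → Set (Matrix l l F)) (b : Bool), SqP S (N b) →
    ∀ (Q : Type) [Group Q] [Fintype Q] (ρ : Q →* ((ι → B₀) ≃+* (ι → B₀))),
      (GP B₀ ι S hS).Par ρ (ZB B₀ ι N b)

/-- **FTB.** Components of the image under an automorphism of the given shape.

*Proof.*  Induction on `x`; for `x = r ⊗ z` both sides are `(1 ⊗ t_i)(f r ⊗ σ_i(z i))(1 ⊗ t_i⁻¹)`, entrywise
(`TB_tmul`); both sides are additive.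
*Model*: `Types/FTH.lean`. -/
def FTBStmt : Prop :=
  ∀ (p : ℕ) [Fact p.Prime] (F l : Type) [Field F] [Finite F] [Fintype l] [DecidableEq l]
    [Algebra (ZMod p) F] (B₀ : Subalgebra (ZMod p) (Matrix l l F)) (ι : Type) [Finite ι]
    (R : (ι → B₀) ≃+* (ι → B₀)) (π : Equiv.Perm ι) (d : ι → GL l F × (F ≃+* F)),
    (∀ z i, (R z (π i) : Matrix l l F) = ((d i).1 : Matrix l l F) *
      (z i : Matrix l l F).map (d i).2 * (((d i).1⁻¹ : GL l F) : Matrix l l F)) →
    ∀ (A A' : Type) [CommRing A] [Algebra (ZMod p) A] [CommRing A'] [Algebra (ZMod p) A']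
      (f : A →+* A') (x : A ⊗[ZMod p] (ι → B₀)) (i : ι),
      TB B₀ ι A' (tmap f (R : (ι → B₀) →+* (ι → B₀)) x) (π i) =
        ((d i).1 : Matrix l l F).map (incF (p := p) A') *
          (TB B₀ ι A x i).map (tmap (p := p) f ((d i).2 : F →+* F)) *
          (((d i).1⁻¹ : GL l F) : Matrix l l F).map (incF (p := p) A')

/-- **StB.** Stability of the groups and of the spaces.

*Proof.*  (1) Let `x ∈ H(R)`, `ρ q` of the shape `(π, d)`, `d i = (t, σ) ∈ D`.  By *FTB* (for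
`f = RingHom.id R`) the `π i`-th component of `tu id (ρ q) x` is `T v T⁻¹`, `T = GL.map (incF R) t`,
`v = GL.map (tmap id σ) (cB R i x) ∈ S (R ⊗ F) ((tmap id σ) ∘ incF R)` (`PFunc.map`), and
`(tmap id σ) ∘ incF R = incF R ∘ σ`; use `StabP.grp` for `f = incF R`.  (2) Let `z ∈ ZB b`:
`z i = Σ c_M M`, `c_M ∈ F`, `M ∈ N b`; `R z (π i) = t (z i)^σ t⁻¹ = Σ σ(c_M) t M^σ t⁻¹ ∈ span (N b)` by
`StabP.spc` (span induction: the map `M ↦ t M^σ t⁻¹` is additive and `σ`-semilinear).  Every element of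
`ι` is of the form `π i`.
*Model*: `Types/StII.lean`, `Types/ZSt.lean`. *Uses*: FTB. -/
def StBStmt : Prop :=
  ∀ (p : ℕ) [Fact p.Prime] (F l : Type) [Field F] [Finite F] [Fintype l] [DecidableEq l]
    [Algebra (ZMod p) F] (B₀ : Subalgebra (ZMod p) (Matrix l l F)) (Zs : Set (Matrix l l F))
    (ι : Type) [Finite ι] (S : PFam F l) (hS : PFunc Zs S) (N : Bool → Set (Matrix l l F))
    (D : Set (GL l F × (F ≃+* F))), StabP S N D →
    ∀ (Q : Type) [Group Q] (ρ : Q →* ((ι → B₀) ≃+* (ι → B₀))), (∀ q, FormP B₀ ι D (ρ q)) →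
      (GP B₀ ι S hS).Stable ρ ∧ ∀ b q, ∀ z ∈ ZB B₀ ι N b, ρ q z ∈ ZB B₀ ι N b

/-- **PtB.** The points.

*Proof.*  `b ∈ pts` iff `cstu (ZMod p) b ∈ H(ZMod p)` iff all `cB (ZMod p) i (cstu b)` are in
`S (ZMod p ⊗ F) incF`; this component is `GL.map incF u`, where `u ∈ GL_l(F)` is the `i`-th component
of `b` (the image of `b` under `Units.map` of `z ↦ (z i : Matrix l l F)`).  `incF : F → ZMod p ⊗ F` is
injective: `PFunc.map` and `PFunc.inj` for `c = RingHom.id F`.  (If `u' ∈ S F id` has the matrix `b i`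
then `u' = u`.)
*Model*: `Types/PtII.lean`. -/
def PtBStmt : Prop :=
  ∀ (p : ℕ) [Fact p.Prime] (F l : Type) [Field F] [Finite F] [Fintype l] [DecidableEq l]
    [Algebra (ZMod p) F] (B₀ : Subalgebra (ZMod p) (Matrix l l F)) (Zs : Set (Matrix l l F))
    (ι : Type) [Finite ι] (S : PFam F l) (hS : PFunc Zs S) (b : (ι → B₀)ˣ),
    b ∈ (GP B₀ ι S hS).pts ↔ ∀ i, ∃ u ∈ S F (RingHom.id F),
      (u : Matrix l l F) = ((b : ι → B₀) i : Matrix l l F)

/-- **LgB.** The Lang groups of a type with parameters.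

*Proof.*  For a finite `κ` take `GP B₀ κ S hS`.  Points: *PtB* and the hypothesis on `inc`.  `Lang1`:
*L1B*.  Let `ρ` be given; for `q` take `(π, x)` as in the hypothesis and for every `k` an element
`d k ∈ D` for `x k ∈ DA`: so `FormP B₀ κ D (ρ q)`.  Stability: *StB*.  `m₀ = d > 0`
(`Module.finrank_pos`), index set `Bool`, `Z = ZB B₀ κ N`; `LangM`: *LMB*; `Gen`: *GnB*; invariance:
*StB*; `Par`: *PrB*.
*Model*: `Types/LII.lean`, `Types/LSLn.lean`. *Uses*: PtB, L1B, LMB, GnB, StB, PrB. -/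
def LgBStmt : Prop :=
  ∀ (p : ℕ) [Fact p.Prime] (F l : Type) [Field F] [Finite F] [Fintype l] [DecidableEq l]
    [Algebra (ZMod p) F] (B₀ : Subalgebra (ZMod p) (Matrix l l F)) (Zs : Set (Matrix l l F))
    (_ : IsCen B₀ Zs) (S : PFam F l) (_ : PFunc Zs S)
    (N : Bool → Set (Matrix l l F)) (D : Set (GL l F × (F ≃+* F))),
    (∀ b, ∀ M ∈ N b, ∀ z ∈ Zs, M * z = z * M) → LangP p S → GenP S N →
    (∀ b, SqP S (N b)) → StabP S N D →
    ∀ (H A : Type) [Group H] [Group A] (inc : H →* B₀) (r : A →* RingAut B₀)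
      (DA : Subgroup A),
      (∀ b : B₀, (∃ h, inc h = b) ↔ ∃ u ∈ S F (RingHom.id F),
        (u : Matrix l l F) = (b : Matrix l l F)) →
      (∀ x ∈ DA, ∃ d ∈ D, ∀ b : B₀, (r x b : Matrix l l F) = (d.1 : Matrix l l F) *
        (b : Matrix l l F).map d.2 * ((d.1⁻¹ : GL l F) : Matrix l l F)) →
      LangOf p inc r DA

end MP7Z.Orf
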