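import Pool.Agent.Lib.MP_7f581e_Z.Ort.SpecA

/-!
# Orthogonal groups: generators of the even Clifford algebra of the quadratic space
-/

set_option autoImplicit false
set_option linter.unusedSectionVars false

namespace MP7Z.Ort

open TensorProduct MP7fS Matrix

/-- An algebra with one more generator. -/
theorem SpnE_ext {K M : Type} [Field K] [Ring M] [Algebra K M] (S : Set M) (u : M)
    (h1 : ∀ Y ∈ S, ∃ Y' ∈ Algebra.adjoin K S, u * Y = Y' * u)
    (h2 : u * u ∈ Algebra.adjoin K S) :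
    ∃ B : Subalgebra K M, ∀ X, X ∈ B ↔
      ∃ X0 ∈ Algebra.adjoin K S, ∃ X1 ∈ Algebra.adjoin K S, X = X0 + X1 * u := by
  have h3 : ∀ Y ∈ Algebra.adjoin K S, ∃ Y' ∈ Algebra.adjoin K S, u * Y = Y' * u := by
    intro Y hY
    induction hY using Algebra.adjoin_induction with
    | mem x hx => exact h1 x hx
    | algebraMap r =>
      exact ⟨algebraMap K M r, Subalgebra.algebraMap_mem _ r, (Algebra.commutes r u).symm⟩
    | add x y _ _ hx hy =>
      obtain ⟨x', hx', ex⟩ := hx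
      obtain ⟨y', hy', ey⟩ := hy
      exact ⟨x' + y', Subalgebra.add_mem _ hx' hy', by rw [mul_add, ex, ey, add_mul]⟩
    | mul x y _ _ hx hy =>
      obtain ⟨x', hx', ex⟩ := hx
      obtain ⟨y', hy', ey⟩ := hy
      exact ⟨x' * y', Subalgebra.mul_mem _ hx' hy', by
        rw [← mul_assoc, ex, mul_assoc, ey, mul_assoc]⟩
  refine ⟨{
    carrier := {X | ∃ X0 ∈ Algebra.adjoin K S, ∃ X1 ∈ Algebra.adjoin K S, X = X0 + X1 * u}
    mul_mem' := ?_
    add_mem' := ?_
    algebraMap_mem' := ?_ }, fun X => Iff.rfl⟩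
  · rintro _ _ ⟨X0, hX0, X1, hX1, rfl⟩ ⟨Y0, hY0, Y1, hY1, rfl⟩
    obtain ⟨Z0, hZ0, e0⟩ := h3 Y0 hY0
    obtain ⟨Z1, hZ1, e1⟩ := h3 Y1 hY1
    refine ⟨X0 * Y0 + X1 * Z1 * (u * u), ?_, X0 * Y1 + X1 * Z0, ?_, ?_⟩
    · exact Subalgebra.add_mem _ (Subalgebra.mul_mem _ hX0 hY0)
        (Subalgebra.mul_mem _ (Subalgebra.mul_mem _ hX1 hZ1) h2)
    · exact Subalgebra.add_mem _ (Subalgebra.mul_mem _ hX0 hY1) (Subalgebra.mul_mem _ hX1 hZ0)
    · have e2 : X1 * u * Y0 = X1 * Z0 * u := by rw [mul_assoc, e0, mul_assoc]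
      have e3 : X1 * u * (Y1 * u) = X1 * Z1 * (u * u) := by
        rw [mul_assoc, ← mul_assoc u, e1]
        simp only [mul_assoc]
      rw [add_mul, mul_add, mul_add, e2, e3, add_mul, mul_assoc X0 Y1 u]
      abel
  · rintro _ _ ⟨X0, hX0, X1, hX1, rfl⟩ ⟨Y0, hY0, Y1, hY1, rfl⟩
    refine ⟨X0 + Y0, Subalgebra.add_mem _ hX0 hY0, X1 + Y1, Subalgebra.add_mem _ hX1 hY1, ?_⟩
    rw [add_mul]
    abel
  · intro r
    exact ⟨algebraMap K M r, Subalgebra.algebraMap_mem _ r, 0, Subalgebra.zero_mem _, by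
      rw [zero_mul, add_zero]⟩

theorem tSpnE (h1 : TrfStmt) : SpnEStmt := by
  intro K _ l _ _ a b s g P o hG X hXz hXo
  have hF := hG.frame
  have hd : a ^ 2 - 4 * b ≠ 0 := hG.disc.ne_zero
  obtain ⟨-, -, -, htop, -⟩ := h1.1 K l a b s g hd hG.card hF
  set w0 := g (iw 0) with hw0
  have hw : w0 * w0 = 1 := by rw [hw0, hF.sq, qf_w0, one_smul]
  have hw0v : gv g (bv K (iw 0)) = w0 := gv_bv g _
  -- the first step
  set S : Set (Matrix l l K) := {Y | ∃ v w : Ix s → K, Y = gv g v * gv g w} with hS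
  have hSm : ∀ v w : Ix s → K, gv g v * gv g w ∈ Algebra.adjoin K S := fun v w =>
    Algebra.subset_adjoin ⟨v, w, rfl⟩
  obtain ⟨B, hB⟩ := SpnE_ext (K := K) S w0 (by
    rintro Y ⟨v, w, rfl⟩
    refine ⟨gv g (bv K (iw 0)) * gv g v * (gv g w * gv g (bv K (iw 0))),
      Subalgebra.mul_mem _ (hSm _ _) (hSm _ _), ?_⟩
    rw [hw0v]
    simp only [mul_assoc]
    rw [hw, mul_one]) (by
    rw [hw]
    exact Subalgebra.one_mem _)
  have hBtop : B = ⊤ := by
    rw [eq_top_iff, ← htop, Algebra.adjoin_le_iff]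
    rintro _ ⟨i, rfl⟩
    refine (hB _).2 ⟨0, Subalgebra.zero_mem _, gv g (bv K i) * gv g (bv K (iw 0)), hSm _ _, ?_⟩
    rw [gv_bv, gv_bv, zero_add, mul_assoc]
    show g i = g i * (w0 * w0)
    rw [hw, mul_one]
  have hX : X ∈ B := by
    rw [hBtop]
    exact Algebra.mem_top
  obtain ⟨X0, hX0, X1, hX1, hXe⟩ := (hB X).1 hX
  have hzc : ∀ Y ∈ Algebra.adjoin K S, Y * zt a s g = zt a s g * Y := by
    intro Y hY
    induction hY using Algebra.adjoin_induction with
    | mem x hx =>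
      obtain ⟨v, w, rfl⟩ := hx
      exact hG.zt_comm v w
    | algebraMap r => exact Algebra.commutes r _
    | add x y _ _ hx hy => rw [add_mul, mul_add, hx, hy]
    | mul x y _ _ hx hy => rw [mul_assoc, hy, ← mul_assoc, hx, mul_assoc]
  have hz0 : zt a s g * w0 = w0 * (a • 1 - zt a s g) := by
    have h2 := hF.zt_gv s g (bv K (iw 0))
    rwa [gv_bv] at h2
  have hz1 : w0 * zt a s g = (a • 1 - zt a s g) * w0 := by
    rw [sub_mul, hz0, mul_sub, smul_mul_assoc, one_mul, mul_smul_comm, mul_one]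
    abel
  have hzz := hF.zt_sq s g
  have hX1z : X1 = 0 := by
    have e1 : X1 * ((a • 1 - zt a s g) - zt a s g) * w0 = 0 := by
      have e2 : X1 * w0 * zt a s g = zt a s g * (X1 * w0) := by
        have e3 := hXz
        rw [hXe, add_mul, mul_add, hzc X0 hX0] at e3
        exact add_left_cancel e3
      rw [mul_assoc X1 w0, hz1, ← mul_assoc (zt a s g), ← hzc X1 hX1] at e2
      rw [mul_sub, sub_mul, sub_eq_zero, mul_assoc X1 _ w0]
      exact e2
    have e4 : X1 * ((a • 1 - zt a s g) - zt a s g) = 0 := by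
      have e5 := congrArg (fun Y => Y * w0) e1
      simp only [mul_assoc, hw, mul_one, zero_mul] at e5
      exact e5
    have e6 : ((a • 1 - zt a s g) - zt a s g) * ((a • 1 - zt a s g) - zt a s g) =
        (a ^ 2 - 4 * b) • (1 : Matrix l l K) := by
      have e7 : (a • (1 : Matrix l l K) - zt a s g) - zt a s g =
          a • (1 : Matrix l l K) - (2 : K) • zt a s g := by
        rw [two_smul]
        abel
      rw [e7, sub_mul, mul_sub, mul_sub, smul_mul_smul_comm, smul_mul_smul_comm,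
        smul_mul_smul_comm, smul_mul_smul_comm, one_mul, one_mul, mul_one, hzz, smul_sub,
        smul_smul, smul_smul]
      module
    have e8 := congrArg (fun Y => Y * ((a • 1 - zt a s g) - zt a s g)) e4
    simp only [mul_assoc, zero_mul] at e8
    rw [e6, mul_smul_comm, mul_one] at e8
    exact (smul_eq_zero.1 e8).resolve_left hd
  have hXA : X ∈ Algebra.adjoin K S := by
    rw [hXe, hX1z, zero_mul, add_zero]
    exact hX0
  -- the second step
  by_cases ho : o
  swap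
  · refine (Algebra.adjoin_mono ?_) hXA
    rintro Y ⟨v, w, rfl⟩
    exact ⟨v, fun h => absurd h ho, w, fun h => absurd h ho, rfl⟩
  obtain ⟨ha, h2u⟩ := hG.odd ho
  have h2 : (2 : K) ≠ 0 := h2u.ne_zero
  have hb : b ≠ 0 := by
    intro hb
    rw [ha, hb] at hd
    exact hd (by ring)
  set y := g (iw 1) with hy
  have hyy : y * y = b • 1 := by rw [hy, hF.sq, qf_w1]
  have hyv : gv g (bv K (iw 1)) = y := gv_bv g _
  have hyV : bv K (iw 1) ∈ Vo o s K := fun _ => by rw [bv_apply, if_neg (by simp)]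
  have hanti : ∀ v ∈ Vo o s K, w0 * gv g v = -(gv g v * w0) := by
    intro v hv
    have h3 := hF.gv_anti v (bv K (iw 0))
    rw [bf_w0, hv ho, ha, mul_zero, zero_mul, add_zero, zero_smul, gv_bv] at h3
    exact eq_neg_of_add_eq_zero_right h3
  have hcomm : ∀ v ∈ Vo o s K, ∀ w ∈ Vo o s K,
      w0 * (gv g v * gv g w) = gv g v * gv g w * w0 := by
    intro v hv w hw'
    rw [← mul_assoc, hanti v hv, neg_mul, mul_assoc, hanti w hw', mul_neg, neg_neg, mul_assoc]
  have hyw : w0 * y = -(y * w0) := by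
    rw [← hyv]
    exact hanti _ hyV
  set S' : Set (Matrix l l K) := {Y | ∃ v ∈ Vo o s K, ∃ w ∈ Vo o s K, Y = gv g v * gv g w}
    with hS'
  have hSm' : ∀ v ∈ Vo o s K, ∀ w ∈ Vo o s K, gv g v * gv g w ∈ Algebra.adjoin K S' :=
    fun v hv w hw' => Algebra.subset_adjoin ⟨v, hv, w, hw', rfl⟩
  have hbb : ∀ Z : Matrix l l K, b⁻¹ • (Z * (y * y)) = Z := by
    intro Z
    rw [hyy, mul_smul_comm, mul_one, smul_smul, inv_mul_cancel₀ hb, one_smul]
  obtain ⟨B', hB'⟩ := SpnE_ext (K := K) S' (y * w0) (by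
    rintro Y ⟨v, hv, w, hw', rfl⟩
    refine ⟨b⁻¹ • (gv g (bv K (iw 1)) * gv g v * (gv g w * gv g (bv K (iw 1)))),
      Subalgebra.smul_mem _ (Subalgebra.mul_mem _ (hSm' _ hyV _ hv) (hSm' _ hw' _ hyV)) _, ?_⟩
    rw [hyv, smul_mul_assoc, mul_assoc y w0, hcomm v hv w hw']
    have e1 : y * gv g v * (gv g w * y) * (y * w0) = y * gv g v * gv g w * (y * y) * w0 := by
      simp only [mul_assoc]
    rw [e1, ← smul_mul_assoc, hbb]
    simp only [mul_assoc]) (by
    have e1 : y * w0 * (y * w0) = (-b) • 1 := by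
      rw [mul_assoc, ← mul_assoc w0, hyw, neg_mul, mul_assoc y w0, hw, mul_one, mul_neg, hyy,
        neg_smul]
    rw [e1]
    exact Subalgebra.smul_mem _ (Subalgebra.one_mem _) _)
  have hle : Algebra.adjoin K S ≤ B' := by
    rw [Algebra.adjoin_le_iff]
    rintro _ ⟨v, w, rfl⟩
    have hdec : ∀ v : Ix s → K, ∃ v' ∈ Vo o s K, ∃ α : K, gv g v = gv g v' + α • w0 := by
      intro v
      refine ⟨v - v (iw 0) • bv K (iw 0), fun _ => ?_, v (iw 0), ?_⟩
      · rw [Pi.sub_apply, Pi.smul_apply, bv_apply, if_pos rfl, smul_eq_mul, mul_one, sub_self]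
      · rw [gv_sub, gv_smul, hw0v, sub_add_cancel]
    obtain ⟨v', hv', α, ev⟩ := hdec v
    obtain ⟨w', hw', β, ew⟩ := hdec w
    refine (hB' _).2 ⟨gv g v' * gv g w' + (α * β) • 1,
      Subalgebra.add_mem _ (hSm' _ hv' _ hw') (Subalgebra.smul_mem _ (Subalgebra.one_mem _) _),
      (β * b⁻¹) • (gv g v' * gv g (bv K (iw 1))) - (α * b⁻¹) • (gv g w' * gv g (bv K (iw 1))),
      Subalgebra.sub_mem _ (Subalgebra.smul_mem _ (hSm' _ hv' _ hyV) _)
        (Subalgebra.smul_mem _ (hSm' _ hw' _ hyV) _), ?_⟩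
    have e1 : ∀ (c : K) (Z : Matrix l l K), ((c * b⁻¹) • (Z * y)) * (y * w0) = c • (Z * w0) := by
      intro c Z
      have e2 : Z * y * (y * w0) = Z * (y * y) * w0 := by simp only [mul_assoc]
      rw [smul_mul_assoc, e2, ← smul_smul, ← smul_mul_assoc (b⁻¹), hbb]
    rw [hyv, sub_mul, e1, e1, ev, ew, add_mul, mul_add, mul_add, mul_smul_comm, smul_mul_assoc,
      smul_mul_assoc, mul_smul_comm, smul_smul, hw, hanti w' hw', smul_neg]
    abel
  obtain ⟨Y0, hY0, Y1, hY1, hYe⟩ := (hB' X).1 (hle hXA)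
  have hwc : ∀ Y ∈ Algebra.adjoin K S', w0 * Y = Y * w0 := by
    intro Y hY
    induction hY using Algebra.adjoin_induction with
    | mem x hx =>
      obtain ⟨v, hv, w, hw', rfl⟩ := hx
      exact hcomm v hv w hw'
    | algebraMap r => exact (Algebra.commutes r _).symm
    | add x y _ _ hx hy => rw [mul_add, add_mul, hx, hy]
    | mul x y _ _ hx hy => rw [← mul_assoc, hx, mul_assoc, hy, mul_assoc]
  have hY1z : Y1 = 0 := by
    have e1 : Y1 * (y * w0) * w0 = w0 * (Y1 * (y * w0)) := by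
      have e3 := hXo ho
      rw [hYe, add_mul, mul_add, hwc Y0 hY0] at e3
      exact add_left_cancel e3
    have e2 : w0 * (Y1 * (y * w0)) = -(Y1 * (y * w0) * w0) := by
      rw [← mul_assoc, hwc Y1 hY1, mul_assoc Y1 w0, ← mul_assoc w0, hyw, neg_mul, mul_neg]
      simp only [mul_assoc]
    rw [e2] at e1
    have e3 : Y1 * (y * w0) * w0 = Y1 * y := by
      rw [mul_assoc, mul_assoc, hw, mul_one]
    rw [e3] at e1
    have e4 : (2 : K) • (Y1 * y) = 0 := by
      rw [two_smul]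
      nth_rewrite 1 [e1]
      exact neg_add_cancel _
    have e5 : Y1 * y = 0 := (smul_eq_zero.1 e4).resolve_left h2
    have e6 := hbb Y1
    rw [← mul_assoc, e5, zero_mul, smul_zero] at e6
    exact e6.symm
  rw [hYe, hY1z, zero_mul, add_zero]
  exact hY0

end MP7Z.Ort
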