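import Pool.Agent.Lib.MP_7f581e_Z.Ort.Tra
import Pool.Agent.Lib.MP_7f581e_Z.Ort.G1c

/-!
# The elements `e_i f_i + c f_i e_i`
-/

set_option autoImplicit false
set_option linter.unusedSectionVars false

namespace MP7Z.Ort

open TensorProduct MP7fS Matrix

section

variable {K : Type} [Field K] {l : Type} [Fintype l] [DecidableEq l] {a b : K} {s : ℕ}
  {g : Ix s → Matrix l l K} {P : GL l K} {o : Prop}

theorem Tor_efe (hF : IsFrame a b g) (i : Fin s) : g (ie i) * g (jf i) * g (ie i) = g (ie i) := by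
  have h5 : g (ie i) * (g (ie i) * g (jf i) + g (jf i) * g (ie i)) = g (ie i) := by
    rw [hF.ef, Matrix.mul_one]
  rwa [Matrix.mul_add, ← Matrix.mul_assoc, hF.ee, Matrix.zero_mul, zero_add,
    ← Matrix.mul_assoc] at h5

theorem Tor_fef (hF : IsFrame a b g) (i : Fin s) : g (jf i) * g (ie i) * g (jf i) = g (jf i) := by
  have h5 : (g (ie i) * g (jf i) + g (jf i) * g (ie i)) * g (jf i) = g (jf i) := by
    rw [hF.ef, Matrix.one_mul]
  rwa [Matrix.add_mul, Matrix.mul_assoc (g (ie i)), hF.ff, Matrix.mul_zero, zero_add] at h5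

theorem Tor_mul (hF : IsFrame a b g) (i : Fin s) (c d : K) :
    (g (ie i) * g (jf i) + c • (g (jf i) * g (ie i))) *
      (g (ie i) * g (jf i) + d • (g (jf i) * g (ie i))) =
      g (ie i) * g (jf i) + (c * d) • (g (jf i) * g (ie i)) := by
  have h1 : g (ie i) * g (jf i) * (g (ie i) * g (jf i)) = g (ie i) * g (jf i) := by
    rw [← Matrix.mul_assoc, Tor_efe hF]
  have h2 : g (jf i) * g (ie i) * (g (jf i) * g (ie i)) = g (jf i) * g (ie i) := by
    rw [← Matrix.mul_assoc, Tor_fef hF]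
  have h3 : g (ie i) * g (jf i) * (g (jf i) * g (ie i)) = 0 := by
    rw [Matrix.mul_assoc, ← Matrix.mul_assoc (g (jf i)), hF.ff, Matrix.zero_mul, Matrix.mul_zero]
  have h4 : g (jf i) * g (ie i) * (g (ie i) * g (jf i)) = 0 := by
    rw [Matrix.mul_assoc, ← Matrix.mul_assoc (g (ie i)), hF.ee, Matrix.zero_mul, Matrix.mul_zero]
  rw [Matrix.add_mul, Matrix.mul_add, Matrix.mul_add, Matrix.smul_mul, Matrix.smul_mul,
    Matrix.mul_smul, Matrix.mul_smul, h1, h2, h3, h4, smul_zero, smul_zero, add_zero, zero_add,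
    smul_smul]

/-- The element `e_i f_i + c f_i e_i`. -/
def Tor (hF : IsFrame a b g) (i : Fin s) (c : K) (hc : c ≠ 0) : GL l K where
  val := g (ie i) * g (jf i) + c • (g (jf i) * g (ie i))
  inv := g (ie i) * g (jf i) + c⁻¹ • (g (jf i) * g (ie i))
  val_inv := by rw [Tor_mul hF, mul_inv_cancel₀ hc, one_smul, hF.ef]
  inv_val := by rw [Tor_mul hF, inv_mul_cancel₀ hc, one_smul, hF.ef]

theorem Tor_val (hF : IsFrame a b g) (i : Fin s) (c : K) (hc : c ≠ 0) :
    (Tor hF i c hc : Matrix l l K) = g (ie i) * g (jf i) + c • (g (jf i) * g (ie i)) := rfl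

theorem Tor_inv (hF : IsFrame a b g) (i : Fin s) (c : K) (hc : c ≠ 0) :
    (Tor hF i c hc)⁻¹ = Tor hF i c⁻¹ (inv_ne_zero hc) := Units.ext rfl

theorem Tor_mul' (hF : IsFrame a b g) (i : Fin s) (c d : K) (hc : c ≠ 0) (hd : d ≠ 0) :
    Tor hF i c hc * Tor hF i d hd = Tor hF i (c * d) (mul_ne_zero hc hd) :=
  Units.ext (Tor_mul hF i c d)

theorem Tor_e (hF : IsFrame a b g) (i : Fin s) (c : K) (hc : c ≠ 0) :
    (Tor hF i c hc : Matrix l l K) * g (ie i) =
      (c⁻¹ • g (ie i)) * (Tor hF i c hc : Matrix l l K) := by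
  rw [Tor_val, Matrix.add_mul, Tor_efe hF, Matrix.smul_mul, Matrix.mul_assoc (g (jf i)), hF.ee,
    Matrix.mul_zero, smul_zero, add_zero, Matrix.smul_mul, Matrix.mul_add, ← Matrix.mul_assoc,
    hF.ee, Matrix.zero_mul, zero_add, Matrix.mul_smul, ← Matrix.mul_assoc, Tor_efe hF, smul_smul,
    inv_mul_cancel₀ hc, one_smul]

theorem Tor_f (hF : IsFrame a b g) (i : Fin s) (c : K) (hc : c ≠ 0) :
    (Tor hF i c hc : Matrix l l K) * g (jf i) =
      (c • g (jf i)) * (Tor hF i c hc : Matrix l l K) := by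
  rw [Tor_val, Matrix.add_mul, Matrix.mul_assoc (g (ie i)), hF.ff, Matrix.mul_zero, zero_add,
    Matrix.smul_mul, Tor_fef hF, Matrix.smul_mul, Matrix.mul_add, ← Matrix.mul_assoc, Tor_fef hF,
    Matrix.mul_smul, ← Matrix.mul_assoc, hF.ff, Matrix.zero_mul, smul_zero, add_zero]

theorem Tor_comm (hF : IsFrame a b g) (i : Fin s) (c : K) (hc : c ≠ 0) {M : Matrix l l K}
    (he : M * g (ie i) = g (ie i) * M) (hf : M * g (jf i) = g (jf i) * M) :
    (Tor hF i c hc : Matrix l l K) * M = M * (Tor hF i c hc : Matrix l l K) := by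
  have h1 : Commute M (g (ie i)) := he
  have h2 : Commute M (g (jf i)) := hf
  exact ((h1.mul_right h2).add_right ((h2.mul_right h1).smul_right c)).symm

theorem Tor_anti (hF : IsFrame a b g) (i : Fin s) (c : K) (hc : c ≠ 0) {M : Matrix l l K}
    (he : M * g (ie i) = -(g (ie i) * M)) (hf : M * g (jf i) = -(g (jf i) * M)) :
    (Tor hF i c hc : Matrix l l K) * M = M * (Tor hF i c hc : Matrix l l K) := by
  have h1 : M * (g (ie i) * g (jf i)) = g (ie i) * g (jf i) * M := by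
    rw [← Matrix.mul_assoc, he, Matrix.neg_mul, Matrix.mul_assoc, hf, Matrix.mul_neg, neg_neg,
      Matrix.mul_assoc]
  have h2 : M * (g (jf i) * g (ie i)) = g (jf i) * g (ie i) * M := by
    rw [← Matrix.mul_assoc, hf, Matrix.neg_mul, Matrix.mul_assoc, he, Matrix.mul_neg, neg_neg,
      Matrix.mul_assoc]
  rw [Tor_val, Matrix.add_mul, Matrix.mul_add, Matrix.smul_mul, Matrix.mul_smul, h1, h2]

theorem Tor_rv (hg : Good a b g P o) (i : Fin s) (c : K) (hc : c ≠ 0) :
    rv P (Tor hg.frame i c hc : Matrix l l K) * (Tor hg.frame i c hc : Matrix l l K) = c • 1 := by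
  have hF := hg.frame
  have h1 : rv P (Tor hg.frame i c hc : Matrix l l K) =
      g (jf i) * g (ie i) + c • (g (ie i) * g (jf i)) := by
    rw [Tor_val, rv_add, rv_smul, rv_mul, rv_mul, hg.rev, hg.rev]
  have e1 : g (ie i) * g (jf i) * (g (ie i) * g (jf i)) = g (ie i) * g (jf i) := by
    rw [← Matrix.mul_assoc, Tor_efe hF]
  have e2 : g (jf i) * g (ie i) * (g (jf i) * g (ie i)) = g (jf i) * g (ie i) := by
    rw [← Matrix.mul_assoc, Tor_fef hF]
  have e3 : g (ie i) * g (jf i) * (g (jf i) * g (ie i)) = 0 := by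
    rw [Matrix.mul_assoc, ← Matrix.mul_assoc (g (jf i)), hF.ff, Matrix.zero_mul, Matrix.mul_zero]
  have e4 : g (jf i) * g (ie i) * (g (ie i) * g (jf i)) = 0 := by
    rw [Matrix.mul_assoc, ← Matrix.mul_assoc (g (ie i)), hF.ee, Matrix.zero_mul, Matrix.mul_zero]
  rw [h1, Tor_val, Matrix.add_mul, Matrix.mul_add, Matrix.mul_add, Matrix.smul_mul,
    Matrix.smul_mul, Matrix.mul_smul, Matrix.mul_smul, e1, e2, e3, e4, smul_zero, smul_zero,
    add_zero, zero_add, ← smul_add, add_comm (g (jf i) * g (ie i)), hF.ef]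

/-- The vector to which `v` is moved. -/
theorem Tor_nrm (hg : Good a b g P o) (i : Fin s) (c : K) (hc : c ≠ 0) (v : Ix s → K) :
    (Tor hg.frame i c hc : Matrix l l K) * gv g v =
      gv g (v + ((c⁻¹ - 1) * v (ie i)) • bv K (ie i) + ((c - 1) * v (jf i)) • bv K (jf i)) *
        (Tor hg.frame i c hc : Matrix l l K) := by
  have hF := hg.frame
  obtain ⟨v', hv'⟩ : ∃ v', v' = v - (v (ie i) • bv K (ie i) + v (jf i) • bv K (jf i)) := ⟨_, rfl⟩
  have he : v' (ie i) = 0 := by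
    rw [hv', Pi.sub_apply, Pi.add_apply, Pi.smul_apply, Pi.smul_apply, bv_apply, bv_apply,
      if_pos rfl, if_neg (by simp), smul_zero, add_zero, smul_eq_mul, mul_one, sub_self]
  have hf : v' (jf i) = 0 := by
    rw [hv', Pi.sub_apply, Pi.add_apply, Pi.smul_apply, Pi.smul_apply, bv_apply, bv_apply,
      if_pos rfl, if_neg (by simp), smul_zero, zero_add, smul_eq_mul, mul_one, sub_self]
  have e1 : v = v (ie i) • bv K (ie i) + v (jf i) • bv K (jf i) + v' := by
    rw [hv']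
    abel
  have a1 : gv g v' * g (ie i) = -(g (ie i) * gv g v') := by
    have h3 := hF.gv_anti v' (bv K (ie i))
    rw [bf_ie, hf, zero_smul, gv_bv] at h3
    exact eq_neg_of_add_eq_zero_left h3
  have a2 : gv g v' * g (jf i) = -(g (jf i) * gv g v') := by
    have h3 := hF.gv_anti v' (bv K (jf i))
    rw [bf_jf, he, zero_smul, gv_bv] at h3
    exact eq_neg_of_add_eq_zero_left h3
  have h1 : gv g v = v (ie i) • g (ie i) + v (jf i) • g (jf i) + gv g v' := by
    have e2 : gv g v = gv g (v (ie i) • bv K (ie i) + v (jf i) • bv K (jf i) + v') :=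
      congrArg (gv g) e1
    rw [e2, gv_add, gv_add, gv_smul, gv_smul, gv_bv, gv_bv]
  have h2 : gv g (v + ((c⁻¹ - 1) * v (ie i)) • bv K (ie i) + ((c - 1) * v (jf i)) • bv K (jf i)) =
      v (ie i) • (c⁻¹ • g (ie i)) + v (jf i) • (c • g (jf i)) + gv g v' := by
    rw [gv_add, gv_add, gv_smul, gv_smul, gv_bv, gv_bv, h1, sub_mul, sub_mul, one_mul, one_mul,
      sub_smul, sub_smul, smul_smul, smul_smul, mul_comm c⁻¹, mul_comm c]
    abel
  rw [h2, h1, Matrix.mul_add, Matrix.mul_add, Matrix.mul_smul, Matrix.mul_smul, Tor_e hF,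
    Tor_f hF, Tor_anti hF i c hc a1 a2, Matrix.add_mul, Matrix.add_mul, Matrix.smul_mul (v (ie i)),
    Matrix.smul_mul (v (jf i))]

theorem Tor_nrm' (hg : Good a b g P o) (i : Fin s) (c : K) (hc : c ≠ 0) (v : Ix s → K) :
    ∃ v' : Ix s → K, gv g v * (Tor hg.frame i c hc : Matrix l l K) =
      (Tor hg.frame i c hc : Matrix l l K) * gv g v' := by
  obtain ⟨v', h1⟩ : ∃ v', (((Tor hg.frame i c hc)⁻¹ : GL l K) : Matrix l l K) * gv g v =
      gv g v' * (((Tor hg.frame i c hc)⁻¹ : GL l K) : Matrix l l K) := by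
    rw [Tor_inv]
    exact ⟨_, Tor_nrm hg i c⁻¹ (inv_ne_zero hc) v⟩
  refine ⟨v', ?_⟩
  calc gv g v * (Tor hg.frame i c hc : Matrix l l K) =
        (Tor hg.frame i c hc : Matrix l l K) *
          ((((Tor hg.frame i c hc)⁻¹ : GL l K) : Matrix l l K) * gv g v) *
          (Tor hg.frame i c hc : Matrix l l K) := by
            rw [← Matrix.mul_assoc, Units.mul_inv, Matrix.one_mul]
    _ = _ := by
      rw [h1, Matrix.mul_assoc, Matrix.mul_assoc, Units.inv_mul, Matrix.mul_one]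

end

end MP7Z.Ort
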