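import Pool.Agent.Lib.MP_7f581e_Z.Ort.SpecE

/-!
# Action of an element normalizing the vectors on `ζ`
-/

set_option autoImplicit false

namespace MP7Z.Ort

open TensorProduct MP7fS Matrix

theorem tZaa (h1 : CenStmt) : ZaaStmt := by
  intro K _ l _ _ a b s g P o hg t G ht
  have hd : a ^ 2 - 4 * b ≠ 0 := hg.disc.ne_zero
  have hF := hg.frame
  have := hg.nonempty
  set tM : Matrix l l K := (t : Matrix l l K) with htM
  set tI : Matrix l l K := ((t⁻¹ : GL l K) : Matrix l l K) with htI
  have hl : tI * tM = 1 := Units.inv_mul t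
  have hr : tM * tI = 1 := Units.mul_inv t
  set ζ := zt a s g with hζ
  set Z := tM * ζ * tI with hZ
  have hZt : tM * ζ = Z * tM := by
    rw [hZ, Matrix.mul_assoc, hl, Matrix.mul_one]
  have hgi : ∀ i, g i = tM * gv g (G.symm (bv K i)) * tI := by
    intro i
    rw [ht, Matrix.mul_assoc, hr, Matrix.mul_one, LinearEquiv.apply_symm_apply, gv_bv]
  -- `Z` commutes with the products
  have hcomm : ∀ i j, Z * (g i * g j) = g i * g j * Z := by
    intro i j
    have e1 : g i * g j = tM * (gv g (G.symm (bv K i)) * gv g (G.symm (bv K j))) * tI := by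
      rw [hgi i, hgi j]
      calc tM * gv g (G.symm (bv K i)) * tI * (tM * gv g (G.symm (bv K j)) * tI) =
          tM * gv g (G.symm (bv K i)) * (tI * tM) * gv g (G.symm (bv K j)) * tI := by
            simp only [Matrix.mul_assoc]
        _ = _ := by rw [hl, Matrix.mul_one, Matrix.mul_assoc tM]
    have e2 := hg.zt_comm (G.symm (bv K i)) (G.symm (bv K j))
    rw [e1, hZ]
    calc tM * ζ * tI * (tM * (gv g (G.symm (bv K i)) * gv g (G.symm (bv K j))) * tI) =
        tM * ζ * (tI * tM) * (gv g (G.symm (bv K i)) * gv g (G.symm (bv K j))) * tI := by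
          simp only [Matrix.mul_assoc]
      _ = tM * (ζ * (gv g (G.symm (bv K i)) * gv g (G.symm (bv K j)))) * tI := by
          rw [hl, Matrix.mul_one]
          simp only [Matrix.mul_assoc]
      _ = tM * (gv g (G.symm (bv K i)) * gv g (G.symm (bv K j)) * ζ) * tI := by rw [← e2]
      _ = tM * (gv g (G.symm (bv K i)) * gv g (G.symm (bv K j))) * (tI * tM) * (ζ * tI) := by
          rw [hl, Matrix.mul_one]
          simp only [Matrix.mul_assoc]
      _ = _ := by simp only [Matrix.mul_assoc]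
  obtain ⟨κ, m, hκ⟩ := h1 K l a b s g hd hg.card hF Z hcomm
  refine ⟨κ, m, ?_, by rw [hZt, hκ]⟩
  -- the relation
  have h2 : Z * g (iw 0) = g (iw 0) * (a • 1 - Z) := by
    have e1 := hF.zt_gv s g (G.symm (bv K (iw 0)))
    rw [hgi (iw 0), hZ]
    calc tM * ζ * tI * (tM * gv g (G.symm (bv K (iw 0))) * tI) =
        tM * ζ * (tI * tM) * gv g (G.symm (bv K (iw 0))) * tI := by
          simp only [Matrix.mul_assoc]
      _ = tM * (ζ * gv g (G.symm (bv K (iw 0)))) * tI := by
          rw [hl, Matrix.mul_one, Matrix.mul_assoc tM]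
      _ = tM * (gv g (G.symm (bv K (iw 0))) * (a • 1 - ζ)) * tI := by rw [e1]
      _ = tM * gv g (G.symm (bv K (iw 0))) * ((a • 1 - ζ) * tI) := by
          simp only [Matrix.mul_assoc]
      _ = tM * gv g (G.symm (bv K (iw 0))) * (tI * (a • 1 - tM * ζ * tI)) := by
          congr 1
          rw [Matrix.sub_mul, Matrix.mul_sub, Matrix.smul_mul, Matrix.one_mul, Matrix.mul_smul,
            Matrix.mul_one, ← Matrix.mul_assoc tI, ← Matrix.mul_assoc tI, hl, Matrix.one_mul]
      _ = _ := by simp only [Matrix.mul_assoc]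
  have h3 : ζ * g (iw 0) = g (iw 0) * (a • 1 - ζ) := by
    have e1 := hF.zt_gv s g (bv K (iw 0))
    rwa [gv_bv] at e1
  have h0 : g (iw 0) * g (iw 0) = 1 := by rw [hF.sq, qf_w0, one_smul]
  have h4 : g (iw 0) * (κ • 1 + m • (a • 1 - ζ)) = g (iw 0) * (a • 1 - (κ • 1 + m • ζ)) := by
    rw [← hκ, ← h2, hκ, Matrix.add_mul, Matrix.mul_add, Matrix.smul_mul, Matrix.smul_mul, h3,
      Matrix.mul_smul, Matrix.mul_smul, Matrix.one_mul, Matrix.mul_one]
  have h5 := congrArg (fun X => g (iw 0) * X) h4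
  simp only [← Matrix.mul_assoc, h0, Matrix.one_mul] at h5
  apply smul_one_inj (l := l)
  have h6 : (2 * κ) • (1 : Matrix l l K) = κ • 1 + κ • 1 := by
    rw [two_mul, add_smul]
  have h7 : (a * (1 - m)) • (1 : Matrix l l K) = a • 1 - m • (a • 1) := by
    rw [smul_smul, ← sub_smul]
    congr 1
    ring
  rw [h6, h7]
  rw [smul_sub] at h5
  have h8 : κ • (1 : Matrix l l K) + κ • 1 = κ • 1 + (m • a • 1 - m • ζ) - m • a • 1 + m • ζ +
      κ • 1 := by abel
  rw [h8, h5]
  abel

end MP7Z.Ort
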